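import Pool.Agent.TZ8.LT8
import Pool.Agent.TZ.DT2
import Pool.Agent.TZ.WV

set_option autoImplicit false

/-! The topological zeta function of class 8 and rank 2 from the local leading coefficients. -/

namespace Pool.Agent.TZ8

open Pool.Agent.TZ Pool.Agent.TZ.DT1Aux Filter Topology

section witt

private theorem mu4 : ArithmeticFunction.moebius 4 = 0 := by
  apply ArithmeticFunction.moebius_eq_zero_of_not_squarefree
  intro h
  have := h 2 ⟨1, by norm_num⟩
  simp at this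

private theorem mu8 : ArithmeticFunction.moebius 8 = 0 := by
  apply ArithmeticFunction.moebius_eq_zero_of_not_squarefree
  intro h
  have := h 2 ⟨2, by norm_num⟩
  simp at this

private theorem mu6 : ArithmeticFunction.moebius 6 = 1 := by
  rw [show (6 : ℕ) = 2 * 3 by norm_num,
    ArithmeticFunction.isMultiplicative_moebius.map_mul_of_coprime (by norm_num),
    ArithmeticFunction.moebius_apply_prime Nat.prime_two,
    ArithmeticFunction.moebius_apply_prime Nat.prime_three]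
  norm_num

/-- The ranks in degrees 1 to 8. -/
def W8 : Fin 8 → ℕ := ![2, 1, 2, 3, 6, 9, 18, 30]

/-- Numbers with product `15 / 16` of the product of the numbers `R_i`. -/
def R8 : Fin 8 → ℕ := ![15, 3, 5, 1, 14, 23, 41, 71]

theorem wittFn_2 : wittFn 2 1 = 2 ∧ wittFn 2 2 = 1 ∧ wittFn 2 3 = 2 ∧ wittFn 2 4 = 3 ∧
    wittFn 2 5 = 6 ∧ wittFn 2 6 = 9 ∧ wittFn 2 7 = 18 ∧ wittFn 2 8 = 30 := by
  have p2 := ArithmeticFunction.moebius_apply_prime Nat.prime_two
  have p3 := ArithmeticFunction.moebius_apply_prime Nat.prime_three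
  have p5 := ArithmeticFunction.moebius_apply_prime Nat.prime_five
  have p7 := ArithmeticFunction.moebius_apply_prime (p := 7) (by norm_num)
  have d2 : Nat.divisors 2 = {1, 2} := by decide
  have d3 : Nat.divisors 3 = {1, 3} := by decide
  have d4 : Nat.divisors 4 = {1, 2, 4} := by decide
  have d5 : Nat.divisors 5 = {1, 5} := by decide
  have d6 : Nat.divisors 6 = {1, 2, 3, 6} := by decide
  have d7 : Nat.divisors 7 = {1, 7} := by decide
  have d8 : Nat.divisors 8 = {1, 2, 4, 8} := by decide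
  refine ⟨by simp [wittFn], ?_, ?_, ?_, ?_, ?_, ?_, ?_⟩
  · unfold wittFn
    rw [d2, Finset.sum_pair (by norm_num), p2]
    simp
  · unfold wittFn
    rw [d3, Finset.sum_pair (by norm_num), p3]
    simp
  · unfold wittFn
    rw [d4, Finset.sum_insert (by decide), Finset.sum_pair (by norm_num), p2, mu4]
    simp
  · unfold wittFn
    rw [d5, Finset.sum_pair (by norm_num), p5]
    simp
  · unfold wittFn
    rw [d6, Finset.sum_insert (by decide), Finset.sum_insert (by decide),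
      Finset.sum_pair (by norm_num), p2, p3, mu6]
    simp
  · unfold wittFn
    rw [d7, Finset.sum_pair (by norm_num), p7]
    simp
  · unfold wittFn
    rw [d8, Finset.sum_insert (by decide), Finset.sum_insert (by decide),
      Finset.sum_pair (by norm_num), p2, mu4, mu8]
    simp

theorem wittSum_2 : wittSum 2 1 = 2 ∧ wittSum 2 2 = 3 ∧ wittSum 2 3 = 5 ∧ wittSum 2 4 = 8 ∧
    wittSum 2 5 = 14 ∧ wittSum 2 6 = 23 ∧ wittSum 2 7 = 41 ∧ wittSum 2 8 = 71 := by
  obtain ⟨h1, h2, h3, h4, h5, h6, h7, h8⟩ := wittFn_2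
  have hs : ∀ k, wittSum 2 (k + 1) = wittSum 2 k + wittFn 2 (k + 1) := by
    intro k
    unfold wittSum
    rw [Finset.sum_Icc_succ_top (by omega)]
  have h0 : wittSum 2 0 = 0 := by simp [wittSum]
  have e1 := hs 0
  have e2 := hs 1
  have e3 := hs 2
  have e4 := hs 3
  have e5 := hs 4
  have e6 := hs 5
  have e7 := hs 6
  have e8 := hs 7
  norm_num at e1 e2 e3 e4 e5 e6 e7 e8
  refine ⟨?_, ?_, ?_, ?_, ?_, ?_, ?_, ?_⟩ <;> omega

/-- The value of `leadingValue 8 2` in terms of `W8` and `R8`. -/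
theorem leadingValue_8_2 : (16 / 15 : ℝ) * leadingValue 8 2 =
    (∏ i, (W8 i : ℝ) / (R8 i : ℝ)) * ∏ i, ∏ j ∈ Finset.Ico 1 (W8 i), (-(j : ℝ))⁻¹ := by
  obtain ⟨h1, h2, h3, h4, h5, h6, h7, h8⟩ := wittFn_2
  obtain ⟨s1, s2, s3, s4, s5, s6, s7, s8⟩ := wittSum_2
  have hf : ∀ n : ℕ, 1 ≤ n → ∏ j ∈ Finset.Ico 1 n, (-(j : ℝ))⁻¹ =
      (-1) ^ (n - 1) / ((n - 1).factorial : ℝ) := by
    intro n hn
    obtain ⟨n, rfl⟩ : ∃ k, n = k + 1 := ⟨n - 1, by omega⟩
    rw [Nat.add_sub_cancel]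
    induction n with
    | zero => simp
    | succ n ih =>
      rw [Finset.prod_Ico_succ_top (by omega), ih (by omega), Nat.factorial_succ]
      have : (n.factorial : ℝ) ≠ 0 := by exact_mod_cast n.factorial_ne_zero
      have h4 : ((n : ℝ) + 1) ≠ 0 := by positivity
      push_cast
      field_simp
      ring
  have hI : Finset.Icc 1 8 = {1, 2, 3, 4, 5, 6, 7, 8} := by decide
  have e : ∀ i : Fin 8, ∏ j ∈ Finset.Ico 1 (W8 i), (-(j : ℝ))⁻¹ =
      (-1) ^ (W8 i - 1) / ((W8 i - 1).factorial : ℝ) := by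
    intro i
    apply hf
    fin_cases i <;> simp [W8]
  rw [leadingValue, Finset.prod_congr rfl (fun i _ => e i), hI]
  simp only [Fin.prod_univ_eight]
  rw [Finset.prod_insert (by decide), Finset.prod_insert (by decide),
    Finset.prod_insert (by decide), Finset.prod_insert (by decide), Finset.prod_insert (by decide),
    Finset.prod_insert (by decide), Finset.prod_pair (by norm_num), h1, h2, h3, h4, h5, h6, h7, h8,
    s1, s2, s3, s4, s5, s6, s7, s8]
  simp [W8, R8]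
  ring

end witt

/-- The local leading coefficient. -/
def loc8 (q : ℕ) : ℚ := ∏ i, (W8 i : ℚ) / ((R8 i : ℚ) * ∏ j ∈ Finset.Ico 1 (W8 i), (1 - (q : ℚ) ^ j))

theorem W8_pos (i : Fin 8) : 1 ≤ W8 i := by
  fin_cases i <;> simp [W8]

theorem R8_pos (i : Fin 8) : 1 ≤ R8 i := by
  fin_cases i <;> simp [R8]

theorem den8_ne (q : ℕ) (hq : 1 < q) (i : Fin 8) :
    ∏ j ∈ Finset.Ico 1 (W8 i), (1 - (q : ℚ) ^ j) ≠ 0 := by
  apply Finset.prod_ne_zero_iff.mpr
  intro j hj h
  have h1 : (1 : ℚ) < (q : ℚ) := by exact_mod_cast hq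
  have h2 : (1 : ℚ) < (q : ℚ) ^ j := one_lt_pow₀ h1 (by have := (Finset.mem_Ico.mp hj).1; omega)
  linarith

theorem loc8_ne (q : ℕ) (hq : 1 < q) : loc8 q ≠ 0 := by
  rw [loc8]
  apply Finset.prod_ne_zero_iff.mpr
  intro i _
  have h1 := W8_pos i
  have h2 := R8_pos i
  have h3 : (W8 i : ℚ) ≠ 0 := by
    have : W8 i ≠ 0 := by omega
    exact_mod_cast this
  have h4 : (R8 i : ℚ) ≠ 0 := by
    have : R8 i ≠ 0 := by omega
    exact_mod_cast this
  exact div_ne_zero h3 (mul_ne_zero h4 (den8_ne q hq i))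

theorem leadingValue_8_2_ne : leadingValue 8 2 ≠ 0 := by
  intro h
  have h1 := leadingValue_8_2
  rw [h, mul_zero] at h1
  have h2 : (∏ i, (W8 i : ℝ) / (R8 i : ℝ)) * ∏ i, ∏ j ∈ Finset.Ico 1 (W8 i), (-(j : ℝ))⁻¹ ≠ 0 := by
    apply mul_ne_zero
    · apply Finset.prod_ne_zero_iff.mpr
      intro i _
      have h1 := W8_pos i
      have h2 := R8_pos i
      have h3 : (W8 i : ℝ) ≠ 0 := by
        have : W8 i ≠ 0 := by omega
        exact_mod_cast this
      have h4 : (R8 i : ℝ) ≠ 0 := by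
        have : R8 i ≠ 0 := by omega
        exact_mod_cast this
      exact div_ne_zero h3 h4
    · apply Finset.prod_ne_zero_iff.mpr
      intro i _
      apply Finset.prod_ne_zero_iff.mpr
      intro j hj
      have : j ≠ 0 := by have := (Finset.mem_Ico.mp hj).1; omega
      have : (j : ℝ) ≠ 0 := by exact_mod_cast this
      exact inv_ne_zero (neg_ne_zero.mpr this)
  exact h2 h1.symm

/-- The main theorem, from the local leading coefficients. -/
theorem main8 (hloc : ∀ (p f : ℕ) [Fact p.Prime], 11 ≤ p → 1 ≤ f →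
      Lead p 8 (PowerSeries.mk (fun n => (idealCount 8 2 p f n : ℤ)))
        (∏ i, (W8 i : ℚ_[p]) / ((R8 i : ℚ_[p]) *
          ∏ j ∈ Finset.Ico 1 (W8 i), (1 - ((p ^ f : ℕ) : ℚ_[p]) ^ j))))
    (F : DenefFormula 8 2) (z : ℝ → ℝ) (hz : F.IsTopological (wittSum 2 8) z) :
    Tendsto (fun s : ℝ => s ^ 8 * z s) (𝓝[≠] 0) (𝓝 (16 / 15 * leadingValue 8 2)) ∧
      leadingValue 8 2 ≠ 0 := by
  -- the prime
  choose Bc hBc using F.count
  obtain ⟨B0, hB0⟩ := F.formula
  obtain ⟨p, hpB, hp⟩ := Nat.exists_infinite_primes (11 + B0 + ∑ i, Bc i)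
  have : Fact p.Prime := ⟨hp⟩
  have hp11 : 11 ≤ p := by omega
  have hpBc : ∀ i, Bc i ≤ p := fun i => by
    have : Bc i ≤ ∑ i, Bc i := Finset.single_le_sum (f := Bc) (fun _ _ => Nat.zero_le _)
      (Finset.mem_univ i)
    omega
  choose n m α hα hm he using fun i => hBc i p hp (hpBc i)
  -- exponent shift
  obtain ⟨n0, hn0⟩ : ∃ n0 : ℕ, ∀ i, ∀ t ∈ F.num i, 0 ≤ t.2.2 + (n0 : ℤ) := by
    have : ∀ i, ∃ a : ℕ, ∀ t ∈ F.num i, 0 ≤ t.2.2 + (a : ℤ) := by
      intro i
      generalize F.num i = L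
      induction L with
      | nil => exact ⟨0, by simp⟩
      | cons t L ih =>
        obtain ⟨a, ha⟩ := ih
        refine ⟨a + t.2.2.natAbs, ?_⟩
        intro t' ht'
        rcases List.mem_cons.mp ht' with rfl | h'
        · push_cast
          have := neg_abs_le t'.2.2
          omega
        · have := ha t' h'
          have h0 := abs_nonneg t.2.2
          push_cast
          omega
    choose a ha using this
    refine ⟨∑ i, a i, fun i t ht => ?_⟩
    have h1 := ha i t ht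
    have h2 : a i ≤ ∑ i, a i := Finset.single_le_sum (f := a) (fun _ _ => Nat.zero_le _)
      (Finset.mem_univ i)
    have : (a i : ℤ) ≤ ((∑ i, a i : ℕ) : ℤ) := by exact_mod_cast h2
    omega
  -- local statement
  have hl : ∀ f : ℕ, 1 ≤ f → 8 ≤ zeroCount F.den ∧
      (∀ k < zeroCount F.den - 8,
        ∑ i, (F.e i p f : ℝ) * (F.num i).tay n0 k ((p ^ f : ℕ) : ℝ) = 0) ∧
      (∑ i, (F.e i p f : ℝ) * (F.num i).tay n0 (zeroCount F.den - 8) ((p ^ f : ℕ) : ℝ)) *
          (∏ i, (R8 i : ℝ)) * kProd W8 ((p ^ f : ℕ) : ℝ) =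
        (-1) ^ (zeroCount F.den - 8) * (zeroProd F.den : ℝ) *
          nonzeroProd F.den ((p ^ f : ℕ) : ℝ) * ∏ i, (W8 i : ℝ) := by
    intro f hf
    have hq1 : 1 < p ^ f := Nat.one_lt_pow (by omega) hp.one_lt
    have hL := hloc p f hp11 hf
    have hcast : (∏ i, (W8 i : ℚ_[p]) / ((R8 i : ℚ_[p]) *
        ∏ j ∈ Finset.Ico 1 (W8 i), (1 - ((p ^ f : ℕ) : ℚ_[p]) ^ j))) =
        ((loc8 (p ^ f) : ℚ) : ℚ_[p]) := by
      rw [loc8]
      push_cast
      rfl
    rw [hcast] at hL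
    obtain ⟨h1, h2, h3⟩ := local_taylor_lead p (p ^ f) hq1 F.num F.den F.den_ne n0 hn0
      (fun i => F.e i p f) (idealCount 8 2 p f) (hB0 p (by omega) f hf) (loc8 (p ^ f))
      (loc8_ne _ hq1) hL
    refine ⟨h1, h2, ?_⟩
    rw [h3]
    have h4 : ((loc8 (p ^ f) : ℚ) : ℝ) * (∏ i, (R8 i : ℝ)) * kProd W8 ((p ^ f : ℕ) : ℝ) =
        ∏ i, (W8 i : ℝ) := by
      have h5 : loc8 (p ^ f) * (∏ i, (R8 i : ℚ)) *
          (∏ i, ∏ j ∈ Finset.Ico 1 (W8 i), (1 - ((p ^ f : ℕ) : ℚ) ^ j)) = ∏ i, (W8 i : ℚ) := by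
        rw [loc8, ← Finset.prod_mul_distrib, ← Finset.prod_mul_distrib]
        apply Finset.prod_congr rfl
        intro i _
        have h6 := den8_ne (p ^ f) hq1 i
        have h7 : (R8 i : ℚ) ≠ 0 := by
          have := R8_pos i
          have : R8 i ≠ 0 := by omega
          exact_mod_cast this
        field_simp
      have h8 := congrArg (fun x : ℚ => (x : ℝ)) h5
      rw [kProd]
      push_cast at h8 ⊢
      exact h8
    rw [← h4]
    ring
  have hzc := (hl 1 le_rfl).1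
  obtain ⟨ht0, ht1⟩ := transfer p (by omega) W8 R8 F.num F.den n0 (fun i f => F.e i p f) n m α hα
    (fun i f hf => he i f hf) (fun f hf => (hl f hf).2.1) (fun f hf => (hl f hf).2.2)
  obtain ⟨S, w, hw⟩ := hz
  have hE : ∀ i, Tendsto (fun x : ℝ => ∑ j, (m i j : ℝ) * ‖α i j‖ ^ x) (𝓝[>] 0)
      (𝓝 (F.χ i : ℝ)) := by
    intro i
    have h1 : Tendsto (fun x : ℝ => ∑ j, (m i j : ℝ) * ‖α i j‖ ^ x) (𝓝 0)
        (𝓝 (∑ j, (m i j : ℝ) * ‖α i j‖ ^ (0 : ℝ))) := by
      apply tendsto_finsetSum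
      intro j _
      apply Tendsto.const_mul
      exact (Real.continuous_const_rpow (norm_ne_zero_iff.mpr (hα i j))).tendsto 0
    have h2 : (∑ j, (m i j : ℝ) * ‖α i j‖ ^ (0 : ℝ)) = (F.χ i : ℝ) := by
      rw [← hm i]
      push_cast
      apply Finset.sum_congr rfl
      intro j _
      rw [Real.rpow_zero, mul_one]
    rw [h2] at h1
    exact h1.mono_left nhdsWithin_le_nhds
  have hp1 : (1 : ℝ) < p := by exact_mod_cast hp.one_lt
  have hr : ∑ i, W8 i = wittSum 2 8 := by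
    rw [wittSum_2.2.2.2.2.2.2.2]
    simp [W8, Fin.sum_univ_eight]
  have key := limit_main (p : ℝ) hp1 W8 R8 W8_pos R8_pos F.num F.den F.den_ne n0 hn0
    (fun i => (F.χ i : ℝ)) (fun i x => ∑ j, (m i j : ℝ) * ‖α i j‖ ^ x) hE hzc
    ht0 ht1 S w (fun s hs i => by rw [hr]; exact (hw s hs).1 i)
  constructor
  · rw [leadingValue_8_2]
    refine (tendsto_congr' ?_).mp key
    have hS : ∀ᶠ s : ℝ in 𝓝[≠] 0, s ∉ S := by
      have h9 : ∀ᶠ s : ℝ in 𝓝[≠] 0, s ∉ (S.erase 0 : Finset ℝ) := by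
        apply Filter.Eventually.filter_mono nhdsWithin_le_nhds
        apply IsOpen.mem_nhds (S.erase 0).finite_toSet.isClosed.isOpen_compl
        simp
      filter_upwards [h9, self_mem_nhdsWithin] with s hs hs0
      intro hmem
      exact hs (Finset.mem_erase.mpr ⟨hs0, hmem⟩)
    filter_upwards [hS] with s hs
    rw [(hw s hs).2]
  · exact leadingValue_8_2_ne

end Pool.Agent.TZ8
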