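import Pool.Agent.TZ8.LIso
import Pool.Agent.TZ.GI

set_option autoImplicit false

/-! The number of graded ideals in terms of the model. -/

namespace Pool.Agent.TZ8

open Pool.Agent.TZ

/-- Transport of tuples along a levelwise isomorphism. -/
theorem gf_tup_congr {o : Type} [CommRing o] [IsDomain o] [IsDiscreteValuationRing o] (q : ℕ)
    {c d : ℕ} {M M' : ℕ → Type} [∀ i, AddCommGroup (M i)] [∀ i, Module o (M i)]
    [∀ i, AddCommGroup (M' i)] [∀ i, Module o (M' i)]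
    (ad : ∀ i, Fin d → M i →ₗ[o] M (i + 1)) (ad' : ∀ i, Fin d → M' i →ₗ[o] M' (i + 1))
    (e : ∀ i : Fin c, M i ≃ₗ[o] M' i)
    (he : ∀ (k : ℕ) (hk : k + 1 < c) (j : Fin d) (x : M k),
      e ⟨k + 1, hk⟩ (ad k j x) = ad' k j (e ⟨k, Nat.lt_of_succ_lt hk⟩ x)) :
    gf (fun I : Tup (c := c) ad => ∑ i, len q (I.1 i).1) =
      gf (fun I : Tup (c := c) ad' => ∑ i, len q (I.1 i).1) := by
  let F : (∀ i : Fin c, Lat o (M i)) ≃ (∀ i : Fin c, Lat o (M' i)) :=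
    Equiv.piCongrRight fun i => LC.latEquiv (e i)
  have hF : ∀ I : ∀ i : Fin c, Lat o (M i), (∀ (i : ℕ) (h : i + 1 < c), ∀ j : Fin d,
      ∀ x ∈ (I ⟨i, Nat.lt_of_succ_lt h⟩).1, ad i j x ∈ (I ⟨i + 1, h⟩).1) ↔
      (∀ (i : ℕ) (h : i + 1 < c), ∀ j : Fin d,
        ∀ x ∈ (F I ⟨i, Nat.lt_of_succ_lt h⟩).1, ad' i j x ∈ (F I ⟨i + 1, h⟩).1) := by
    intro I
    refine forall_congr' fun i => forall_congr' fun hi => forall_congr' fun j => ?_
    have h1 : ∀ y, y ∈ (F I ⟨i, Nat.lt_of_succ_lt hi⟩).1 ↔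
        ∃ x ∈ (I ⟨i, Nat.lt_of_succ_lt hi⟩).1, e ⟨i, Nat.lt_of_succ_lt hi⟩ x = y :=
      fun y => Submodule.mem_map
    have h2 : ∀ y, y ∈ (F I ⟨i + 1, hi⟩).1 ↔
        ∃ x ∈ (I ⟨i + 1, hi⟩).1, e ⟨i + 1, hi⟩ x = y :=
      fun y => Submodule.mem_map
    constructor
    · intro H y hy
      obtain ⟨x, hx, rfl⟩ := (h1 y).1 hy
      exact (h2 _).2 ⟨_, H x hx, he i hi j x⟩
    · intro H x hx
      obtain ⟨y, hy, hxy⟩ := (h2 _).1 (H _ ((h1 _).2 ⟨x, hx, rfl⟩))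
      rw [← he i hi j x] at hxy
      rw [← (e ⟨i + 1, hi⟩).injective hxy]
      exact hy
  rw [← gf_equiv (Equiv.subtypeEquiv F hF) (fun I : Tup (c := c) ad' => ∑ i, len q (I.1 i).1)]
  congr 1
  funext I
  refine Finset.sum_congr rfl fun i _ => ?_
  exact (len_map_equiv (e i) (I.1 i).1).symm

theorem idealCount_eq_gf8 (p f : ℕ) [Fact p.Prime] (hf : 1 ≤ f) (hp : 11 ≤ p) :
    PowerSeries.mk (fun n => (idealCount 8 2 p f n : ℤ)) =
      gf (fun I : Tup (c := 8) (adT (Unram p f)) => ∑ i, len (p ^ f) (I.1 i).1) := by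
  have h := ringHyp_unram p f hf
  obtain ⟨e, he⟩ := exists_iso h hp
  have hfin : ∀ i : Fin 8, Module.Finite (Unram p f) (LM (Unram p f) 2 i) := by
    intro i
    exact Module.Finite.equiv (e i)
  rw [gf_tup_congr (p ^ f) (adT (Unram p f)) (adL (Unram p f) 2) e he]
  ext n
  rw [PowerSeries.coeff_mk, gf, PowerSeries.coeff_mk, idealCount]
  congr 1
  symm
  have hlt := h.one_lt
  refine Nat.card_congr (Equiv.ofBijective (fun T => ⟨GI.toIdeal T.1, ?_⟩) ⟨?_, ?_⟩)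
  · rw [GI.index_toIdeal h hfin, T.2]
  · intro T T' he
    exact Subtype.ext (GI.toIdeal_injective (Subtype.mk.inj he))
  · rintro ⟨I, hI⟩
    obtain ⟨T, hT⟩ := GI.exists_toIdeal I (by rw [hI]; positivity)
    refine ⟨⟨T, ?_⟩, Subtype.ext hT⟩
    have h1 := GI.index_toIdeal h hfin T
    rw [hT, hI] at h1
    exact (Nat.pow_right_injective hlt h1).symm

end Pool.Agent.TZ8
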