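import Pool.Agent.TZ8.LCf
import Pool.Agent.TZ.WV

set_option autoImplicit false
set_option linter.unusedSectionVars false

/-! Ranks, generation and centre of the model. -/

namespace Pool.Agent.TZ8

open Pool.Agent.TZ

variable {o : Type} [CommRing o] [IsDomain o] [IsDiscreteValuationRing o] {p q : ℕ}

theorem finrank_MT (k : ℕ) : Module.finrank o (MT o k) = mm k := by
  have h1 : Module.finrank o (MT o k) = ∑ a : Fin (nc k), (dg k a + 1) := by
    rw [Module.finrank_pi_fintype]
    simp
  rw [h1]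
  match k with
  | 0 => decide
  | 1 => decide
  | 2 => decide
  | 3 => decide
  | 4 => decide
  | 5 => decide
  | 6 => decide
  | 7 => decide
  | n + 8 =>
    change ∑ a : Fin 0, (dg (n + 8) a + 1) = 0
    rfl

theorem nc_ge (k : ℕ) (hk : 8 ≤ k) : nc k = 0 := by
  obtain ⟨n, rfl⟩ := Nat.exists_eq_add_of_le hk
  rw [add_comm]
  rfl

theorem subsingleton_MT (k : ℕ) (hk : 8 ≤ k) : Subsingleton (MT o k) := by
  have : IsEmpty (Fin (nc k)) := by
    rw [nc_ge k hk]
    infer_instance
  infer_instance

theorem isUnit_small (h : RingHyp o p q) (hp : 11 ≤ p) (n : ℕ) (hn : 1 ≤ n) (hn' : n ≤ 10) :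
    IsUnit (n : o) := by
  apply isUnit_natCast h
  intro hd
  have := Nat.le_of_dvd (by omega) hd
  omega

/-- A multiple of a small number is divisible by `p` only if the other factor is. -/
theorem dvd_of_small (h : RingHyp o p q) (hp : 11 ≤ p) (n : ℕ) (hn : 1 ≤ n) (hn' : n ≤ 10)
    {x : o} (hx : (p : o) ∣ (n : o) * x) : (p : o) ∣ x :=
  (isUnit_small h hp n hn hn').dvd_mul_left.1 hx

theorem cent_MT (h : RingHyp o p q) (hp : 11 ≤ p) (k : ℕ) (hk : k + 1 < 8) (x : MT o k)
    (hx : ∀ j, ∃ y : MT o (k + 1), adT o k j x = (p : o) • y) : ∃ y : MT o k, x = (p : o) • y := by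
  have hk7 : k < 7 := by omega
  have h0 : ∀ b, b < nc (k + 1) → ∀ l, (p : o) ∣ cf (adT o k 0 x) b l :=
    (exists_smul_iff p _).1 (hx 0)
  have h1 : ∀ b, b < nc (k + 1) → ∀ l, (p : o) ∣ cf (adT o k 1 x) b l :=
    (exists_smul_iff p _).1 (hx 1)
  rw [exists_smul_iff]
  clear hx hk
  have hm : ∀ {k : ℕ} (x : MT o k) (a l : ℕ), mulC x a (0 : Fin 2) l = cf x a l := by
    intro k x a l
    simp [mulC]
  have hc : ∀ {k : ℕ} (x : MT o k) (a : ℕ), (∀ l, (p : o) ∣ cf x a l) →
      ∀ l, (p : o) ∣ conC x a (0 : Fin 2) l := by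
    intro k x a hx l
    simp only [conC, Fin.val_zero, if_true]
    exact (dvd_neg).2 ((hx _).mul_left _)
  interval_cases k
  · intro a ha i
    have ha0 : a = 0 := by simp [nc] at ha; exact ha
    subst ha0
    rcases Nat.lt_or_ge (dg 0 0) i with hi | hi
    · rw [cf_deg _ _ _ hi]; exact dvd_zero _
    · have e0 := h0 0 (by decide) 0
      have e1 := h1 0 (by decide) 0
      rw [ad0_0] at e0 e1
      simp only [dg] at hi
      simp [conC, dg] at e0 e1
      interval_cases i
      · exact e1
      · exact e0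
  · intro a ha i
    have ha0 : a = 0 := by simp [nc] at ha; exact ha
    subst ha0
    have e := h0 0 (by decide) i
    rwa [ad1_0, hm] at e
  · intro a ha i
    have ha0 : a = 0 := by simp [nc] at ha; exact ha
    subst ha0
    have e := h0 0 (by decide) i
    rwa [ad2_0, hm] at e
  · intro a ha i
    have ha0 : a = 0 := by simp [nc] at ha; exact ha
    subst ha0
    have e := h0 0 (by decide) i
    rwa [ad3_0, hm] at e
  · have c0 : ∀ l, (p : o) ∣ cf x 0 l := by
      intro l
      have e := h0 0 (by decide) l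
      rwa [ad4_0, hm] at e
    have c1 : ∀ l, (p : o) ∣ cf x 1 l := by
      intro l
      have e := h0 1 (by decide) l
      rw [ad4_1, hm] at e
      have e2 := (dvd_add_right ((hc x 0 c0 l).mul_left 5)).1 e
      exact dvd_of_small h hp 4 (by norm_num) (by norm_num) (by exact_mod_cast e2)
    intro a ha i
    simp only [nc] at ha
    interval_cases a
    · exact c0 i
    · exact c1 i
  · have c0 : ∀ l, (p : o) ∣ cf x 0 l := by
      intro l
      have e := h0 0 (by decide) l
      rwa [ad5_0, hm] at e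
    have c1 : ∀ l, (p : o) ∣ cf x 1 l := by
      intro l
      have e := h0 2 (by decide) l
      rw [ad5_2, hm] at e
      exact (dvd_add_right ((hc x 0 c0 l).mul_left 3)).1 e
    have c2 : ∀ l, (p : o) ∣ cf x 2 l := by
      intro l
      have e := h0 4 (by decide) l
      rwa [ad5_4, hm] at e
    intro a ha i
    simp only [nc] at ha
    interval_cases a
    · exact c0 i
    · exact c1 i
    · exact c2 i
  · have c0 : ∀ l, (p : o) ∣ cf x 0 l := by
      intro l
      have e := h0 0 (by decide) l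
      rwa [ad6_0, hm] at e
    have c1 : ∀ l, (p : o) ∣ cf x 1 l := by
      intro l
      have e := h0 1 (by decide) l
      rw [ad6_1, hm] at e
      have e2 := (dvd_add_right ((hc x 0 c0 l).mul_left 7)).1 e
      exact dvd_of_small h hp 3 (by norm_num) (by norm_num) (by exact_mod_cast e2)
    have c2 : ∀ l, (p : o) ∣ cf x 2 l := by
      intro l
      have e := h0 2 (by decide) l
      rwa [ad6_2, hm] at e
    have c3 : ∀ l, (p : o) ∣ cf x 3 l := by
      intro l
      have e := h0 5 (by decide) l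
      rwa [ad6_5, hm] at e
    have c4 : ∀ l, (p : o) ∣ cf x 4 l := by
      intro l
      have e := h0 6 (by decide) l
      rwa [ad6_6, hm] at e
    intro a ha i
    simp only [nc] at ha
    interval_cases a
    · exact c0 i
    · exact c1 i
    · exact c2 i
    · exact c3 i
    · exact c4 i

section gen

/-- The form `X ^ (n + 1 - i) Y ^ i` in the summands reached from `a` by multiplication. -/
def mulV (o : Type) [CommRing o] (k a i : ℕ) : MT o (k + 1) :=
  fun b l => if (l : ℕ) = i then (cm k a b : o) else 0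

/-- The form `X ^ (n - 1 - i) Y ^ i` in the summands reached from `a` by contraction. -/
def conV (o : Type) [CommRing o] (k a i : ℕ) : MT o (k + 1) :=
  fun b l => if (l : ℕ) = i then (cc k a b : o) else 0

theorem adT_bv0 (k a i : ℕ) (ha : a < nc k) (hi : i ≤ dg k a) :
    adT o k 0 (bv o k a i) = mulV o k a i - (i : o) • conV o k a (i - 1) := by
  funext b l
  change (∑ a' : Fin (nc k), ((cm k a' b : o) * mulC (bv o k a i) a' (0 : Fin 2) l +
    (cc k a' b : o) * conC (bv o k a i) a' (0 : Fin 2) l)) = mulV o k a i b l -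
      (i : o) * conV o k a (i - 1) b l
  rw [Finset.sum_eq_single (⟨a, ha⟩ : Fin (nc k))]
  · simp only [mulC, conC, Fin.val_zero, if_true, cf_bv _ _ _ _ _ ha hi, mulV, conV, true_and]
    rcases Nat.eq_zero_or_pos i with h0 | h0
    · subst h0
      rw [if_neg (by omega : ¬ (l : ℕ) + 1 = 0)]
      simp
    · by_cases h1 : (l : ℕ) = i - 1
      · have hli : ¬ ((l : ℕ) = i) := by omega
        rw [if_pos h1, if_pos (by omega : (l : ℕ) + 1 = i)]
        simp only [hli, if_false]
        rw [show ((l : ℕ) + 1) = i by omega]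
        ring
      · rw [if_neg h1, if_neg (by omega : ¬ (l : ℕ) + 1 = i)]
        simp
  · intro a' _ ha'
    have hne : ¬ ((a' : ℕ) = a) := fun h => ha' (Fin.ext h)
    simp [mulC, conC, cf_bv _ _ _ _ _ ha hi, hne]
  · intro h
    exact absurd (Finset.mem_univ _) h

theorem adT_bv1 (k a i : ℕ) (ha : a < nc k) (hi : i ≤ dg k a) :
    adT o k 1 (bv o k a i) = mulV o k a (i + 1) + ((dg k a - i : ℕ) : o) • conV o k a i := by
  funext b l
  change (∑ a' : Fin (nc k), ((cm k a' b : o) * mulC (bv o k a i) a' (1 : Fin 2) l +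
    (cc k a' b : o) * conC (bv o k a i) a' (1 : Fin 2) l)) = mulV o k a (i + 1) b l +
      ((dg k a - i : ℕ) : o) * conV o k a i b l
  rw [Finset.sum_eq_single (⟨a, ha⟩ : Fin (nc k))]
  · simp only [mulC, conC, Fin.val_one, cf_bv _ _ _ _ _ ha hi, mulV, conV, true_and,
      one_ne_zero, if_false]
    congr 1
    · by_cases h0 : (l : ℕ) = 0
      · rw [if_pos h0, if_neg (by omega : ¬ (l : ℕ) = i + 1), mul_zero]
      · rw [if_neg h0]
        by_cases h1 : (l : ℕ) = i + 1
        · rw [if_pos h1, if_pos (by omega : (l : ℕ) - 1 = i), mul_one]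
        · rw [if_neg h1, if_neg (by omega : ¬ (l : ℕ) - 1 = i), mul_zero]
    · by_cases h1 : (l : ℕ) = i
      · rw [if_pos h1, h1]
        simp only [if_true]
        ring
      · rw [if_neg h1]
        simp [h1]
  · intro a' _ ha'
    have hne : ¬ ((a' : ℕ) = a) := fun h => ha' (Fin.ext h)
    simp [mulC, conC, cf_bv _ _ _ _ _ ha hi, hne]
  · intro h
    exact absurd (Finset.mem_univ _) h

/-- The vectors `conV` and `mulV` are generated. -/
theorem conV_mem (h : RingHyp o p q) (hp : 11 ≤ p) (k a : ℕ) (ha : a < nc k)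
    (N : Submodule o (MT o (k + 1)))
    (hN : ∀ j, ∀ i ≤ dg k a, adT o k j (bv o k a i) ∈ N) (i : ℕ) (hi : i < dg k a) :
    conV o k a i ∈ N := by
  have h7 : dg k a ≤ 6 := by
    unfold dg
    split <;> omega
  have h0 := hN 1 i hi.le
  have h1 := hN 0 (i + 1) hi
  rw [adT_bv1 _ _ _ ha hi.le] at h0
  rw [adT_bv0 _ _ _ ha hi] at h1
  have h2 := N.sub_mem h0 h1
  have h3 : mulV o k a (i + 1) + ((dg k a - i : ℕ) : o) • conV o k a i -
      (mulV o k a (i + 1) - ((i + 1 : ℕ) : o) • conV o k a (i + 1 - 1)) =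
      ((dg k a + 1 : ℕ) : o) • conV o k a i := by
    have h5 : ((dg k a + 1 : ℕ) : o) = ((dg k a - i : ℕ) : o) + ((i + 1 : ℕ) : o) := by
      rw [← Nat.cast_add]
      congr 1
      omega
    rw [Nat.add_sub_cancel, h5, add_smul]
    abel
  rw [h3] at h2
  exact (N.smul_mem_iff_of_isUnit (isUnit_small h hp _ (by omega) (by omega))).1 h2

theorem mulV_mem (h : RingHyp o p q) (hp : 11 ≤ p) (k a : ℕ) (ha : a < nc k)
    (N : Submodule o (MT o (k + 1)))
    (hN : ∀ j, ∀ i ≤ dg k a, adT o k j (bv o k a i) ∈ N) (i : ℕ) (hi : i ≤ dg k a + 1) :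
    mulV o k a i ∈ N := by
  rcases Nat.lt_or_ge (dg k a) i with h1 | h1
  · have h2 : i = dg k a + 1 := by omega
    subst h2
    have h0 := hN 1 (dg k a) le_rfl
    rw [adT_bv1 _ _ _ ha le_rfl, Nat.sub_self, Nat.cast_zero, zero_smul, add_zero] at h0
    exact h0
  · have h0 := hN 0 i h1
    rw [adT_bv0 _ _ _ ha h1] at h0
    rcases Nat.eq_zero_or_pos i with h2 | h2
    · subst h2
      rw [Nat.cast_zero, zero_smul, sub_zero] at h0
      exact h0
    · have h3 := conV_mem h hp k a ha N hN (i - 1) (by omega)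
      have h4 := N.add_mem h0 (N.smul_mem (i : o) h3)
      rw [sub_add_cancel] at h4
      exact h4

theorem mulV_eq (k a i : ℕ) : mulV o k a i =
    ∑ b : Fin (nc (k + 1)), (cm k a b : o) • bv o (k + 1) b i := by
  funext b l
  rw [Finset.sum_apply, Finset.sum_apply, Finset.sum_eq_single b]
  · simp [mulV, bv]
  · intro b' _ hb'
    have : ¬ ((b : ℕ) = b') := fun h => hb' (Fin.ext h.symm)
    simp [bv, this]
  · intro h
    exact absurd (Finset.mem_univ _) h

theorem conV_eq (k a i : ℕ) : conV o k a i =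
    ∑ b : Fin (nc (k + 1)), (cc k a b : o) • bv o (k + 1) b i := by
  funext b l
  rw [Finset.sum_apply, Finset.sum_apply, Finset.sum_eq_single b]
  · simp [conV, bv]
  · intro b' _ hb'
    have : ¬ ((b : ℕ) = b') := fun h => hb' (Fin.ext h.symm)
    simp [bv, this]
  · intro h
    exact absurd (Finset.mem_univ _) h

theorem conV0_0 (i : ℕ) : conV o 0 0 i = bv o 1 0 i := by
  rw [conV_eq]
  refine (Fin.sum_univ_one _).trans ?_
  simp [cc]

theorem mulV1_0 (i : ℕ) : mulV o 1 0 i = bv o 2 0 i := by
  rw [mulV_eq]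
  refine (Fin.sum_univ_one _).trans ?_
  simp [cm]

theorem mulV2_0 (i : ℕ) : mulV o 2 0 i = bv o 3 0 i := by
  rw [mulV_eq]
  refine (Fin.sum_univ_one _).trans ?_
  simp [cm]

theorem mulV3_0 (i : ℕ) : mulV o 3 0 i = bv o 4 0 i := by
  rw [mulV_eq]
  refine (Fin.sum_univ_two _).trans ?_
  simp [cm]

theorem conV3_0 (i : ℕ) : conV o 3 0 i = bv o 4 1 i := by
  rw [conV_eq]
  refine (Fin.sum_univ_two _).trans ?_
  simp [cc]

theorem mulV4_0 (i : ℕ) : mulV o 4 0 i = bv o 5 0 i := by
  rw [mulV_eq]
  refine (Fin.sum_univ_three _).trans ?_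
  simp [cm]

theorem conV4_0 (i : ℕ) : conV o 4 0 i = (5 : o) • bv o 5 1 i := by
  rw [conV_eq]
  refine (Fin.sum_univ_three _).trans ?_
  simp [cc]

theorem mulV4_1 (i : ℕ) : mulV o 4 1 i = (4 : o) • bv o 5 1 i := by
  rw [mulV_eq]
  refine (Fin.sum_univ_three _).trans ?_
  simp [cm]

theorem conV4_1 (i : ℕ) : conV o 4 1 i = bv o 5 2 i := by
  rw [conV_eq]
  refine (Fin.sum_univ_three _).trans ?_
  simp [cc]

theorem mulV5_0 (i : ℕ) : mulV o 5 0 i = bv o 6 0 i := by
  rw [mulV_eq]
  refine (Fin.sum_univ_five _).trans ?_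
  simp [cm]

theorem conV5_0 (i : ℕ) : conV o 5 0 i = bv o 6 1 i + (3 : o) • bv o 6 2 i := by
  rw [conV_eq]
  refine (Fin.sum_univ_five _).trans ?_
  simp [cc]

theorem mulV5_1 (i : ℕ) : mulV o 5 1 i = bv o 6 2 i := by
  rw [mulV_eq]
  refine (Fin.sum_univ_five _).trans ?_
  simp [cm]

theorem conV5_1 (i : ℕ) : conV o 5 1 i = bv o 6 3 i := by
  rw [conV_eq]
  refine (Fin.sum_univ_five _).trans ?_
  simp [cc]

theorem mulV5_2 (i : ℕ) : mulV o 5 2 i = (3 : o) • bv o 6 3 i + bv o 6 4 i := by
  rw [mulV_eq]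
  refine (Fin.sum_univ_five _).trans ?_
  simp [cm]

theorem mulV6_0 (i : ℕ) : mulV o 6 0 i = bv o 7 0 i := by
  rw [mulV_eq]
  refine (Fin.sum_univ_eight _).trans ?_
  simp [cm]

theorem conV6_0 (i : ℕ) : conV o 6 0 i = (7 : o) • bv o 7 1 i := by
  rw [conV_eq]
  refine (Fin.sum_univ_eight _).trans ?_
  simp [cc]

theorem mulV6_1 (i : ℕ) : mulV o 6 1 i = (3 : o) • bv o 7 1 i := by
  rw [mulV_eq]
  refine (Fin.sum_univ_eight _).trans ?_
  simp [cm]

theorem conV6_1 (i : ℕ) : conV o 6 1 i = bv o 7 3 i := by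
  rw [conV_eq]
  refine (Fin.sum_univ_eight _).trans ?_
  simp [cc]

theorem mulV6_2 (i : ℕ) : mulV o 6 2 i = bv o 7 2 i := by
  rw [mulV_eq]
  refine (Fin.sum_univ_eight _).trans ?_
  simp [cm]

theorem conV6_2 (i : ℕ) : conV o 6 2 i = bv o 7 4 i := by
  rw [conV_eq]
  refine (Fin.sum_univ_eight _).trans ?_
  simp [cc]

theorem mulV6_3 (i : ℕ) : mulV o 6 3 i = bv o 7 5 i := by
  rw [mulV_eq]
  refine (Fin.sum_univ_eight _).trans ?_
  simp [cm]

theorem conV6_3 (i : ℕ) : conV o 6 3 i = bv o 7 7 i := by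
  rw [conV_eq]
  refine (Fin.sum_univ_eight _).trans ?_
  simp [cc]

theorem mulV6_4 (i : ℕ) : mulV o 6 4 i = bv o 7 6 i := by
  rw [mulV_eq]
  refine (Fin.sum_univ_eight _).trans ?_
  simp [cm]

end gen

theorem bv_mem_coB (s : ℕ → ℕ → Bool) (k a i : ℕ) (hs : s k a = true) : bv o k a i ∈ coB o s k := by
  intro b hb
  funext l
  have : ¬ ((b : ℕ) = a) := by
    intro h
    rw [h, hs] at hb
    exact Bool.noConfusion hb
  simp [bv, this]

theorem coB_le (s : ℕ → ℕ → Bool) (k : ℕ) (N : Submodule o (MT o k))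
    (h : ∀ b, b < nc k → s k b = true → ∀ i ≤ dg k b, bv o k b i ∈ N) : coB o s k ≤ N := by
  intro x hx
  rw [eq_sum_bv x]
  refine N.sum_mem fun a _ => N.sum_mem fun i _ => ?_
  rcases hsa : s k a with _ | _
  · rw [hx a hsa]
    simp
  · exact N.smul_mem _ (h a a.2 hsa i (Nat.lt_succ_iff.1 i.2))

theorem adT_mem_br {k : ℕ} (N : Submodule o (MT o k)) (j : Fin 2) (x : MT o k) (hx : x ∈ N) :
    adT o k j x ∈ br (adT o k) N :=
  Submodule.mem_iSup_of_mem j (Submodule.mem_map_of_mem hx)

/-- The patterns of the rigid families. -/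
def IsPat (s : ℕ → ℕ → Bool) : Prop := (s = sS ∨ s = sT ∨ s = sF ∨ s = sG) ∨ ∃ i, s = sC i

/-- Generation of the coordinate families. -/
theorem coB_gen (h : RingHyp o p q) (hp : 11 ≤ p) (s : ℕ → ℕ → Bool) (hs : IsPat s) (k : ℕ)
    (hk : k < 7) (hf : ∃ a < nc k, s k a = true) : coB o s (k + 1) ≤ br (adT o k) (coB o s k) := by
  set N := br (adT o k) (coB o s k) with hN
  have hA : ∀ a, a < nc k → s k a = true → ∀ j, ∀ i ≤ dg k a, adT o k j (bv o k a i) ∈ N :=
    fun a _ hsa j i _ => adT_mem_br _ j _ (bv_mem_coB s k a i hsa)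
  have M : ∀ a, a < nc k → s k a = true → ∀ i ≤ dg k a + 1, mulV o k a i ∈ N :=
    fun a ha hsa i hi => mulV_mem h hp k a ha N (hA a ha hsa) i hi
  have C : ∀ a, a < nc k → s k a = true → ∀ i < dg k a, conV o k a i ∈ N :=
    fun a ha hsa i hi => conV_mem h hp k a ha N (hA a ha hsa) i hi
  have hsm : ∀ (n : ℕ) (x : MT o (k + 1)), 1 ≤ n → n ≤ 10 → (n : o) • x ∈ N → x ∈ N :=
    fun n x h1 h2 h3 => (N.smul_mem_iff_of_isUnit (isUnit_small h hp n h1 h2)).1 h3
  clear_value N
  refine coB_le s (k + 1) N ?_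
  interval_cases k
  · intro b hb hsb i hi
    have s0 : s 0 0 = true := by
      obtain ⟨a, ha, hsa⟩ := hf
      simp only [nc] at ha
      interval_cases a
      exact hsa
    simp only [nc] at hb
    interval_cases b
    have := C 0 (by decide) s0 i (by simp only [dg] at hi ⊢; omega)
    rwa [conV0_0] at this
  · intro b hb hsb i hi
    have s0 : s 1 0 = true := by
      obtain ⟨a, ha, hsa⟩ := hf
      simp only [nc] at ha
      interval_cases a
      exact hsa
    simp only [nc] at hb
    interval_cases b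
    have := M 0 (by decide) s0 i (by simp only [dg] at hi ⊢; omega)
    rwa [mulV1_0] at this
  · intro b hb hsb i hi
    have s0 : s 2 0 = true := by
      obtain ⟨a, ha, hsa⟩ := hf
      simp only [nc] at ha
      interval_cases a
      exact hsa
    simp only [nc] at hb
    interval_cases b
    have := M 0 (by decide) s0 i (by simp only [dg] at hi ⊢; omega)
    rwa [mulV2_0] at this
  · intro b hb hsb i hi
    have s0 : s 3 0 = true := by
      obtain ⟨a, ha, hsa⟩ := hf
      simp only [nc] at ha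
      interval_cases a
      exact hsa
    simp only [nc] at hb
    interval_cases b
    · have := M 0 (by decide) s0 i (by simp only [dg] at hi ⊢; omega)
      rwa [mulV3_0] at this
    · have := C 0 (by decide) s0 i (by simp only [dg] at hi ⊢; omega)
      rwa [conV3_0] at this
  · have R : (s 5 0 = true → s 4 0 = true) ∧ (s 5 1 = true → s 4 0 = true ∨ s 4 1 = true) ∧
        (s 5 2 = true → s 4 1 = true) := by
      obtain ⟨a, ha, hsa⟩ := hf
      simp only [nc] at ha
      rcases hs with (rfl | rfl | rfl | rfl) | ⟨i, rfl⟩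
      · interval_cases a <;> simp [sS] at hsa
      · interval_cases a <;> simp [sT] at hsa
      · simp [sF, sT]
      · simp [sG]
      · simp only [sC] at hsa ⊢
        simp [hsa]
    intro b hb hsb i hi
    simp only [nc] at hb
    interval_cases b
    · have := M 0 (by decide) (R.1 hsb) i (by simp only [dg] at hi ⊢; omega)
      rwa [mulV4_0] at this
    · rcases R.2.1 hsb with h1 | h1
      · have := C 0 (by decide) h1 i (by simp only [dg] at hi ⊢; omega)
        rw [conV4_0] at this
        exact hsm 5 _ (by norm_num) (by norm_num) (by exact_mod_cast this)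
      · have := M 1 (by decide) h1 i (by simp only [dg] at hi ⊢; omega)
        rw [mulV4_1] at this
        exact hsm 4 _ (by norm_num) (by norm_num) (by exact_mod_cast this)
    · have := C 1 (by decide) (R.2.2 hsb) i (by simp only [dg] at hi ⊢; omega)
      rwa [conV4_1] at this
  · have R : (s 6 0 = true → s 5 0 = true) ∧ (s 6 1 = true → s 5 0 = true ∧ s 5 1 = true) ∧
        (s 6 2 = true → s 5 1 = true) ∧ (s 6 3 = true → s 5 1 = true) ∧
        (s 6 4 = true → s 5 1 = true ∧ s 5 2 = true) := by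
      obtain ⟨a, ha, hsa⟩ := hf
      simp only [nc] at ha
      rcases hs with (rfl | rfl | rfl | rfl) | ⟨i, rfl⟩
      · interval_cases a <;> simp [sS] at hsa
      · simp [sT]
      · simp [sF, sT]
      · simp [sG]
      · simp only [sC] at hsa ⊢
        simp [hsa]
    intro b hb hsb i hi
    simp only [nc] at hb
    interval_cases b
    · have := M 0 (by decide) (R.1 hsb) i (by simp only [dg] at hi ⊢; omega)
      rwa [mulV5_0] at this
    · have h1 := C 0 (by decide) (R.2.1 hsb).1 i (by simp only [dg] at hi ⊢; omega)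
      have h2 := M 1 (by decide) (R.2.1 hsb).2 i (by simp only [dg] at hi ⊢; omega)
      rw [conV5_0] at h1
      rw [mulV5_1] at h2
      have h3 := N.sub_mem h1 (N.smul_mem (3 : o) h2)
      rwa [add_sub_cancel_right] at h3
    · have := M 1 (by decide) (R.2.2.1 hsb) i (by simp only [dg] at hi ⊢; omega)
      rwa [mulV5_1] at this
    · have := C 1 (by decide) (R.2.2.2.1 hsb) i (by simp only [dg] at hi ⊢; omega)
      rwa [conV5_1] at this
    · have h1 := M 2 (by decide) (R.2.2.2.2 hsb).2 i (by simp only [dg] at hi ⊢; omega)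
      have h2 := C 1 (by decide) (R.2.2.2.2 hsb).1 i (by simp only [dg] at hi ⊢; omega)
      rw [mulV5_2] at h1
      rw [conV5_1] at h2
      have h3 := N.sub_mem h1 (N.smul_mem (3 : o) h2)
      rwa [add_sub_cancel_left] at h3
  · have R : (s 7 0 = true → s 6 0 = true) ∧ (s 7 1 = true → s 6 0 = true ∨ s 6 1 = true) ∧
        (s 7 2 = true → s 6 2 = true) ∧ (s 7 3 = true → s 6 1 = true) ∧
        (s 7 4 = true → s 6 2 = true) ∧ (s 7 5 = true → s 6 3 = true) ∧
        (s 7 6 = true → s 6 4 = true) ∧ (s 7 7 = true → s 6 3 = true) := by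
      obtain ⟨a, ha, hsa⟩ := hf
      simp only [nc] at ha
      rcases hs with (rfl | rfl | rfl | rfl) | ⟨i, rfl⟩
      · simp [sS]
      · simp [sT]
      · simp [sF, sT]
      · simp [sG]
      · simp only [sC] at hsa ⊢
        simp [hsa]
    intro b hb hsb i hi
    simp only [nc] at hb
    interval_cases b
    · have := M 0 (by decide) (R.1 hsb) i (by simp only [dg] at hi ⊢; omega)
      rwa [mulV6_0] at this
    · rcases R.2.1 hsb with h1 | h1
      · have := C 0 (by decide) h1 i (by simp only [dg] at hi ⊢; omega)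
        rw [conV6_0] at this
        exact hsm 7 _ (by norm_num) (by norm_num) (by exact_mod_cast this)
      · have := M 1 (by decide) h1 i (by simp only [dg] at hi ⊢; omega)
        rw [mulV6_1] at this
        exact hsm 3 _ (by norm_num) (by norm_num) (by exact_mod_cast this)
    · have := M 2 (by decide) (R.2.2.1 hsb) i (by simp only [dg] at hi ⊢; omega)
      rwa [mulV6_2] at this
    · have := C 1 (by decide) (R.2.2.2.1 hsb) i (by simp only [dg] at hi ⊢; omega)
      rwa [conV6_1] at this
    · have := C 2 (by decide) (R.2.2.2.2.1 hsb) i (by simp only [dg] at hi ⊢; omega)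
      rwa [conV6_2] at this
    · have := M 3 (by decide) (R.2.2.2.2.2.1 hsb) i (by simp only [dg] at hi ⊢; omega)
      rwa [mulV6_3] at this
    · have := M 4 (by decide) (R.2.2.2.2.2.2.1 hsb) i (by simp only [dg] at hi ⊢; omega)
      rwa [mulV6_4] at this
    · have := C 3 (by decide) (R.2.2.2.2.2.2.2 hsb) i (by simp only [dg] at hi ⊢; omega)
      rwa [conV6_3] at this

theorem coB_sC0 (k : ℕ) : coB o (sC 0) k = ⊤ := by
  refine eq_top_iff.2 fun x _ a ha => ?_
  simp [sC] at ha

theorem gen_MT (h : RingHyp o p q) (hp : 11 ≤ p) (k : ℕ) (hk : k + 1 < 8) :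
    br (adT o k) ⊤ = ⊤ := by
  have h1 := coB_gen h hp (sC 0) (Or.inr ⟨0, rfl⟩) k (by omega)
    ⟨0, by have : k < 7 := by omega
           interval_cases k <;> decide, by simp [sC]⟩
  rw [coB_sC0, coB_sC0] at h1
  exact top_le_iff.1 h1

/-- The coordinate families are stable under the operators. -/
theorem coB_stable (s : ℕ → ℕ → Bool) (hs : IsPat s) (k : ℕ) (j : Fin 2) (x : MT o k)
    (hx : x ∈ coB o s k) : adT o k j x ∈ coB o s (k + 1) := by
  have key : ∀ (a b : ℕ), (cm k a b ≠ 0 ∨ cc k a b ≠ 0) → s k a = true → s (k + 1) b = true := by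
    intro a b hab hsa
    rcases hs with (rfl | rfl | rfl | rfl) | ⟨i, rfl⟩
    · rcases hab with hab | hab
      · unfold cm at hab; split at hab <;> simp_all [sS]
      · unfold cc at hab; split at hab <;> simp_all [sS]
    · rcases hab with hab | hab
      · unfold cm at hab; split at hab <;> simp_all [sT]
      · unfold cc at hab; split at hab <;> simp_all [sT]
    · rcases hab with hab | hab
      · unfold cm at hab; split at hab <;> simp_all [sF, sT]
      · unfold cc at hab; split at hab <;> simp_all [sF, sT]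
    · rcases hab with hab | hab
      · unfold cm at hab; split at hab <;> simp_all [sG]
      · unfold cc at hab; split at hab <;> simp_all [sG]
    · simp only [sC, decide_eq_true_eq] at hsa ⊢
      omega
  intro b hb
  funext l
  change (∑ a : Fin (nc k), ((cm k a b : o) * mulC x a j l + (cc k a b : o) * conC x a j l)) = 0
  refine Finset.sum_eq_zero fun a _ => ?_
  rcases hsa : s k a with _ | _
  · have h0 : ∀ i, cf x a i = 0 := (mem_coB s k x).1 hx a a.2 hsa
    have h1 : mulC x a j l = 0 := by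
      unfold mulC
      split_ifs
      · exact h0 _
      · rfl
      · exact h0 _
    have h2 : conC x a j l = 0 := by
      unfold conC
      split_ifs
      · rw [h0, mul_zero, neg_zero]
      · rw [h0, mul_zero]
    rw [h1, h2, mul_zero, mul_zero, add_zero]
  · have h1 : cm k a b = 0 := by
      by_contra h
      have := key a b (Or.inl h) hsa
      rw [this] at hb
      exact Bool.noConfusion hb
    have h2 : cc k a b = 0 := by
      by_contra h
      have := key a b (Or.inr h) hsa
      rw [this] at hb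
      exact Bool.noConfusion hb
    rw [h1, h2, Int.cast_zero, zero_mul, zero_mul, add_zero]

end Pool.Agent.TZ8
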