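import Pool.Agent.TZ8.LFam
import Pool.Agent.TZ.LG
import Pool.Agent.Helper26.TZ8.Rank
import Pool.Agent.Helper26.TZ8.Gen

set_option autoImplicit false

/-! The model is isomorphic to the free Lie algebra in degrees at most 8. -/

namespace Pool.Agent.TZ8

open Pool.Agent.TZ Pool.Agent.Helper26.TZ8

section

variable {o : Type} [CommRing o]

/-- The coefficients of the words in the image of an element of the model, scaled. -/
def TT (o : Type) [CommRing o] (k : ℕ) : MT o k →ₗ[o] ((Fin (k + 1) → Fin 2) → o) where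
  toFun x := fun w => ∑ a : Fin (nc k), ∑ i : Fin (dg k a + 1),
    x a i * ((WV k a i (idx (k + 1) w) : ℤ) : o)
  map_add' x y := by
    funext w
    simp only [Pi.add_apply, add_mul, Finset.sum_add_distrib]
  map_smul' c x := by
    funext w
    simp only [Pi.smul_apply, smul_eq_mul, Finset.mul_sum, RingHom.id_apply, mul_assoc]

theorem TT_compat (k : ℕ) (hk : k < 7) (j : Fin 2) (x : MT o k) (w : Fin (k + 2) → Fin 2) :
    (DD k : o) * TT o (k + 1) (adT o k j x) w = (DD (k + 1) : o) *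
      ((if w (Fin.last (k + 1)) = j then TT o k x (Fin.init w) else 0) -
        (if w 0 = j then TT o k x (Fin.tail w) else 0)) := by
  have h1 : TT o (k + 1) (adT o k j x) w = ∑ a : Fin (nc k), ∑ i : Fin (dg k a + 1),
      x a i * (((∑ b ∈ Finset.range (nc (k + 1)), ∑ l ∈ Finset.range (dg (k + 1) b + 1),
        adC k j a i b l * WV (k + 1) b l (idx (k + 2) w) : ℤ) : ℤ) : o) := by
    show ∑ b : Fin (nc (k + 1)), ∑ l : Fin (dg (k + 1) b + 1),
      adT o k j x b l * ((WV (k + 1) b l (idx (k + 2) w) : ℤ) : o) = _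
    simp only [adT_apply, Finset.sum_mul, Finset.sum_range, Int.cast_sum, Finset.mul_sum,
      Int.cast_mul]
    rw [Finset.sum_congr rfl (fun b _ => Finset.sum_comm)]
    rw [Finset.sum_comm]
    apply Finset.sum_congr rfl
    intro a _
    rw [Finset.sum_congr rfl (fun b _ => Finset.sum_comm)]
    rw [Finset.sum_comm]
    apply Finset.sum_congr rfl
    intro i _
    apply Finset.sum_congr rfl
    intro b _
    apply Finset.sum_congr rfl
    intro l _
    ring
  have h2 : ∀ (a : Fin (nc k)) (i : Fin (dg k a + 1)),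
      (DD k : o) * (((∑ b ∈ Finset.range (nc (k + 1)), ∑ l ∈ Finset.range (dg (k + 1) b + 1),
        adC k j a i b l * WV (k + 1) b l (idx (k + 2) w) : ℤ) : ℤ) : o) =
      (DD (k + 1) : o) * ((if w (Fin.last (k + 1)) = j then
        ((WV k a i (idx (k + 1) (Fin.init w)) : ℤ) : o) else 0) -
        (if w 0 = j then ((WV k a i (idx (k + 1) (Fin.tail w)) : ℤ) : o) else 0)) := by
    intro a i
    have h3 := compat_int k hk j j.isLt a a.isLt i i.isLt (idx (k + 2) w) (idx_lt (k + 2) w)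
    have h4 := congrArg (fun z : ℤ => (z : o)) h3
    simp only [Int.cast_mul, Int.cast_natCast, Int.cast_sub] at h4
    rw [h4]
    have hl := idx_last (k + 1) w
    have hil := idx_lt (k + 1) (Fin.init w)
    have h0 : idx (k + 2) w = (w 0 : ℕ) + 2 * idx (k + 1) (Fin.tail w) := rfl
    have hpos : 0 < 2 ^ (k + 1) := by positivity
    have e1 : idx (k + 2) w / 2 ^ (k + 1) = (w (Fin.last (k + 1)) : ℕ) := by
      rw [hl, Nat.add_mul_div_right _ _ hpos, Nat.div_eq_of_lt hil, zero_add]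
    have e2 : idx (k + 2) w % 2 ^ (k + 1) = idx (k + 1) (Fin.init w) := by
      rw [hl, Nat.add_mul_mod_self_right, Nat.mod_eq_of_lt hil]
    have hw0 := (w 0).isLt
    have e3 : idx (k + 2) w % 2 = (w 0 : ℕ) := by omega
    have e4 : idx (k + 2) w / 2 = idx (k + 1) (Fin.tail w) := by omega
    rw [e1, e2, e3, e4]
    have i1 : (w (Fin.last (k + 1)) = j) ↔ ((w (Fin.last (k + 1)) : ℕ) = (j : ℕ)) := Fin.ext_iff
    have i2 : (w 0 = j) ↔ ((w 0 : ℕ) = (j : ℕ)) := Fin.ext_iff
    congr 2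
    · by_cases h : w (Fin.last (k + 1)) = j
      · rw [if_pos h, if_pos (i1.1 h)]
      · rw [if_neg h, if_neg (fun h' => h (i1.2 h')), Int.cast_zero]
    · by_cases h : w 0 = j
      · rw [if_pos h, if_pos (i2.1 h)]
      · rw [if_neg h, if_neg (fun h' => h (i2.2 h')), Int.cast_zero]
  rw [h1, Finset.mul_sum]
  have h5 : ∀ a : Fin (nc k), (DD k : o) * ∑ i : Fin (dg k a + 1),
      x a i * (((∑ b ∈ Finset.range (nc (k + 1)), ∑ l ∈ Finset.range (dg (k + 1) b + 1),
        adC k j a i b l * WV (k + 1) b l (idx (k + 2) w) : ℤ) : ℤ) : o) =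
      ∑ i : Fin (dg k a + 1), x a i * ((DD (k + 1) : o) * ((if w (Fin.last (k + 1)) = j then
        ((WV k a i (idx (k + 1) (Fin.init w)) : ℤ) : o) else 0) -
        (if w 0 = j then ((WV k a i (idx (k + 1) (Fin.tail w)) : ℤ) : o) else 0))) := by
    intro a
    rw [Finset.mul_sum]
    apply Finset.sum_congr rfl
    intro i _
    rw [← h2 a i]
    ring
  rw [Finset.sum_congr rfl (fun a _ => h5 a)]
  have h6 : ∀ (c : Prop) [Decidable c] (v : Fin (k + 1) → Fin 2),
      (if c then TT o k x v else 0) = ∑ a : Fin (nc k), ∑ i : Fin (dg k a + 1),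
        x a i * (if c then ((WV k a i (idx (k + 1) v) : ℤ) : o) else 0) := by
    intro c _ v
    split_ifs with hc
    · rfl
    · simp
  rw [h6, h6, ← Finset.sum_sub_distrib, Finset.mul_sum]
  apply Finset.sum_congr rfl
  intro a _
  rw [← Finset.sum_sub_distrib, Finset.mul_sum]
  apply Finset.sum_congr rfl
  intro i _
  ring

theorem WV_zero : ∀ i < 2, ∀ N < 2, WV 0 0 i N = if i = N then 1 else 0 := by
  decide +kernel

theorem TT_zero (x : MT o 0) (w : Fin 1 → Fin 2) : TT o 0 x w = cf x 0 (w 0 : ℕ) := by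
  have h1 : TT o 0 x w = ∑ i : Fin 2, cf x 0 (i : ℕ) * ((WV 0 0 i (w 0 : ℕ) : ℤ) : o) := by
    show ∑ a : Fin 1, ∑ i : Fin (dg 0 a + 1), x a i * ((WV 0 a i (idx 1 w) : ℤ) : o) = _
    rw [Fin.sum_univ_one]
    have hidx : idx 1 w = (w 0 : ℕ) := by simp [idx]
    rw [hidx]
    rfl
  rw [h1, Fin.sum_univ_two]
  have h2 : (w 0 : ℕ) = 0 ∨ (w 0 : ℕ) = 1 := by
    have := (w 0).isLt
    omega
  rcases h2 with h2 | h2
  · rw [h2]
    have a1 : WV 0 0 0 0 = 1 := WV_zero 0 (by norm_num) 0 (by norm_num)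
    have a2 : WV 0 0 1 0 = 0 := WV_zero 1 (by norm_num) 0 (by norm_num)
    simp [a1, a2]
  · rw [h2]
    have a1 : WV 0 0 0 1 = 0 := WV_zero 0 (by norm_num) 1 (by norm_num)
    have a2 : WV 0 0 1 1 = 1 := WV_zero 1 (by norm_num) 1 (by norm_num)
    simp [a1, a2]

/-- The map in degree one. -/
noncomputable def e0 (o : Type) [CommRing o] : MT o 0 →ₗ[o] LM o 2 0 where
  toFun x := ∑ i : Fin 2, cf x 0 (i : ℕ) •
    (⟨FreeLieAlgebra.of o i, of_mem_lieDeg i⟩ : LM o 2 0)
  map_add' x y := by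
    simp only [cf_add, add_smul, Finset.sum_add_distrib]
  map_smul' c x := by
    simp only [cf_smul, mul_smul, Finset.smul_sum, RingHom.id_apply]

theorem ev_e0 (x : MT o 0) : ev o 2 0 (e0 o x) = TT o 0 x := by
  funext w
  rw [TT_zero]
  show ev o 2 0 (∑ i : Fin 2, cf x 0 (i : ℕ) •
    (⟨FreeLieAlgebra.of o i, of_mem_lieDeg i⟩ : LM o 2 0)) w = _
  rw [map_sum, Finset.sum_apply, Finset.sum_eq_single (w 0)]
  · rw [map_smul, Pi.smul_apply, ev_of, if_pos rfl, smul_eq_mul, mul_one]
  · intro i _ hi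
    rw [map_smul, Pi.smul_apply, ev_of, if_neg (Ne.symm hi), smul_zero]
  · intro hne
    exact absurd (Finset.mem_univ _) hne

theorem e0_bv (i : Fin 2) : e0 o (bv o 0 0 i) = ⟨FreeLieAlgebra.of o i, of_mem_lieDeg i⟩ := by
  show ∑ i' : Fin 2, cf (bv o 0 0 i) 0 (i' : ℕ) •
    (⟨FreeLieAlgebra.of o i', of_mem_lieDeg i'⟩ : LM o 2 0) = _
  have hc : ∀ i' : Fin 2, cf (bv o 0 0 i) 0 (i' : ℕ) = if i' = i then 1 else 0 := by
    intro i'
    unfold cf
    rw [dif_pos ⟨(by decide : 0 < nc 0), i'.isLt⟩]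
    unfold bv
    have : ((i' : ℕ) = (i : ℕ)) ↔ (i' = i) := Fin.ext_iff.symm
    simp only [true_and, this]
  rw [Finset.sum_eq_single i]
  · rw [hc, if_pos rfl, one_smul]
  · intro i' _ hi'
    rw [hc, if_neg hi', zero_smul]
  · intro hne
    exact absurd (Finset.mem_univ _) hne

/-- A linear map factors through an injective one if all its values do. -/
theorem exists_lift {A B C : Type} [AddCommGroup A] [AddCommGroup B] [AddCommGroup C] [Module o A]
    [Module o B] [Module o C] (f : A →ₗ[o] C) (g : B →ₗ[o] C) (hg : Function.Injective g)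
    (h : ∀ a, ∃ b, g b = f a) : ∃ e : A →ₗ[o] B, ∀ a, g (e a) = f a := by
  refine ⟨(LinearEquiv.ofInjective g hg).symm.toLinearMap ∘ₗ
    (f.codRestrict (LinearMap.range g) (fun a => h a)), fun a => ?_⟩
  have h1 := LinearEquiv.ofInjective_apply (f := g) (h := hg)
    ((LinearEquiv.ofInjective g hg).symm (f.codRestrict (LinearMap.range g) (fun a => h a) a))
  rw [LinearEquiv.apply_symm_apply] at h1
  exact h1.symm

end

variable {o : Type} [CommRing o] [IsDomain o] [IsDiscreteValuationRing o] {p q : ℕ}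

theorem isoUnit_of_coprime (h : RingHyp o p q) (n : ℕ) (hn : Nat.Coprime n p) :
    IsUnit ((n : ℕ) : o) := by
  by_contra hc
  have h1 : ((n : ℕ) : o) ∈ IsLocalRing.maximalIdeal o := hc
  have h2 : ((p : ℕ) : o) ∈ IsLocalRing.maximalIdeal o := h.irr.not_isUnit
  have h3 : IsCoprime (n : ℤ) (p : ℤ) := Nat.isCoprime_iff_coprime.2 hn
  obtain ⟨a, b, hab⟩ := h3
  have h4 : (a : o) * (n : o) + (b : o) * (p : o) = 1 := by
    have := congrArg (fun z : ℤ => (z : o)) hab
    simpa using this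
  have h5 : (1 : o) ∈ IsLocalRing.maximalIdeal o := by
    rw [← h4]
    exact Ideal.add_mem _ (Ideal.mul_mem_left _ _ h1) (Ideal.mul_mem_left _ _ h2)
  exact (Ideal.ne_top_iff_one _).1 (IsLocalRing.maximalIdeal.isMaximal o).ne_top h5

theorem isoUnit_210 (h : RingHyp o p q) (hp : 11 ≤ p) : IsUnit ((210 : ℕ) : o) := by
  apply isoUnit_of_coprime h
  rw [Nat.coprime_comm, Nat.Prime.coprime_iff_not_dvd h.prime]
  intro hd
  have : (210 : ℕ) = 2 * 3 * 5 * 7 := by norm_num
  rw [this, h.prime.dvd_mul, h.prime.dvd_mul, h.prime.dvd_mul] at hd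
  rcases hd with ((hd | hd) | hd) | hd
  all_goals
    have := Nat.le_of_dvd (by norm_num) hd
    omega

theorem isoUnit_small (h : RingHyp o p q) (n : ℕ) (h0 : 0 < n) (hn : n < p) :
    IsUnit ((n : ℕ) : o) := by
  apply isoUnit_of_coprime h
  rw [Nat.coprime_comm, Nat.Prime.coprime_iff_not_dvd h.prime]
  intro hd
  have := Nat.le_of_dvd h0 hd
  omega

theorem isoCharZero (h : RingHyp o p q) : CharZero o := by
  obtain ⟨r, hr⟩ := CharP.exists o
  rcases CharP.char_is_prime_or_zero o r with h1 | h1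
  · exfalso
    have h0 : ((r : ℕ) : o) = 0 := CharP.cast_eq_zero o r
    by_cases hrp : r = p
    · rw [hrp] at h0
      exact h.irr.ne_zero h0
    · have := isoUnit_of_coprime h r ((Nat.coprime_primes h1 h.prime).2 hrp)
      rw [h0] at this
      exact not_isUnit_zero this
  · subst h1
    exact CharP.charP_to_charZero o

theorem finrank_MT' (k : ℕ) : Module.finrank o (MT o k) = Pool.Agent.Helper26.TZ8.mm k := by
  rw [Module.finrank_pi_fintype]
  simp only [Module.finrank_fintype_fun_eq_card, Fintype.card_fin]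
  rcases k with _ | _ | _ | _ | _ | _ | _ | _ | k
  any_goals decide
  rfl

theorem exists_lin (h : RingHyp o p q) (hp : 11 ≤ p) : ∀ k < 8,
    ∃ e : MT o k →ₗ[o] LM o 2 k, ∀ x, (DD k : o) • ev o 2 k (e x) = TT o k x
  | 0, _ => by
    refine ⟨e0 o, fun x => ?_⟩
    have hD : DD 0 = 1 := rfl
    rw [hD, Nat.cast_one, one_smul, ev_e0]
  | k + 1, hk => by
    obtain ⟨e, he⟩ := exists_lin h hp k (by omega)
    have hu : IsUnit ((k + 1 + 1 : ℕ) : o) := isoUnit_small h _ (by omega) (by omega)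
    have hD : IsUnit ((DD (k + 1) : ℕ) : o) := DD_unit (isoUnit_210 h hp) (k + 1) hk
    have hD0 : IsUnit ((DD k : ℕ) : o) := DD_unit (isoUnit_210 h hp) k (by omega)
    apply exists_lift (TT o (k + 1)) ((DD (k + 1) : o) • ev o 2 (k + 1))
    · intro x y hxy
      rw [LinearMap.smul_apply, LinearMap.smul_apply] at hxy
      exact ev_injective (k + 1) hu (hD.smul_left_cancel.1 hxy)
    · intro x
      have hx : x ∈ (LinearMap.range (adT o k 0)) ⊔ (LinearMap.range (adT o k 1)) := by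
        rw [gen (isoUnit_210 h hp) k (by omega)]
        exact Submodule.mem_top
      obtain ⟨y0, ⟨m0, rfl⟩, y1, ⟨m1, rfl⟩, rfl⟩ := Submodule.mem_sup.1 hx
      refine ⟨adL o 2 k 0 (e m0) + adL o 2 k 1 (e m1), ?_⟩
      have key : ∀ (j : Fin 2) (m : MT o k), (DD (k + 1) : o) • ev o 2 (k + 1) (adL o 2 k j (e m)) =
          TT o (k + 1) (adT o k j m) := by
        intro j m
        funext w
        apply hD0.mul_left_cancel
        rw [TT_compat k (by omega) j m w, Pi.smul_apply, ev_adL, smul_eq_mul, ← he m]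
        simp only [Pi.smul_apply, smul_eq_mul]
        split_ifs <;> ring
      rw [LinearMap.smul_apply, map_add, smul_add, key, key, map_add]

theorem exists_iso' (h : RingHyp o p q) (hp : 11 ≤ p) :
    ∃ e : ∀ k, MT o k →ₗ[o] LM o 2 k, (∀ k < 8, Function.Bijective (e k)) ∧
      ∀ (k : ℕ), k + 1 < 8 → ∀ (j : Fin 2) (x : MT o k),
        e (k + 1) (adT o k j x) = adL o 2 k j (e k x) := by
  have hch : CharZero o := isoCharZero h
  have h1 : ∀ k, ∃ e : MT o k →ₗ[o] LM o 2 k, k < 8 → ∀ x,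
      (DD k : o) • ev o 2 k (e x) = TT o k x := by
    intro k
    by_cases hk : k < 8
    · obtain ⟨e, he⟩ := exists_lin h hp k hk
      exact ⟨e, fun _ => he⟩
    · exact ⟨0, fun h => absurd h hk⟩
  choose e he using h1
  have hinj : ∀ k < 8, ∀ y z : LM o 2 k, (DD k : o) • ev o 2 k y = (DD k : o) • ev o 2 k z →
      y = z := by
    intro k hk y z hyz
    have hu : IsUnit ((k + 1 : ℕ) : o) := isoUnit_small h _ (by omega) (by omega)
    exact ev_injective k hu ((DD_unit (isoUnit_210 h hp) k hk).smul_left_cancel.1 hyz)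
  have hcomp : ∀ (k : ℕ), k + 1 < 8 → ∀ (j : Fin 2) (x : MT o k),
      e (k + 1) (adT o k j x) = adL o 2 k j (e k x) := by
    intro k hk j x
    apply hinj (k + 1) hk
    rw [he (k + 1) hk]
    funext w
    apply (DD_unit (isoUnit_210 h hp) k (by omega)).mul_left_cancel
    rw [TT_compat k (by omega) j x w, Pi.smul_apply, ev_adL, smul_eq_mul, ← he k (by omega) x]
    simp only [Pi.smul_apply, smul_eq_mul]
    split_ifs <;> ring
  have hsurj : ∀ k < 8, Function.Surjective (e k) := by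
    intro k
    induction k with
    | zero =>
      intro hk
      rw [← LinearMap.range_eq_top, eq_top_iff]
      have h2 : (lieDeg o 2 0) ≤ (LinearMap.range (e 0)).map (lieDeg o 2 0).subtype := by
        show Submodule.span o (Set.range (FreeLieAlgebra.of o)) ≤ _
        rw [Submodule.span_le]
        rintro _ ⟨i, rfl⟩
        refine ⟨e 0 (bv o 0 0 i), ⟨_, rfl⟩, ?_⟩
        have h3 : e 0 (bv o 0 0 i) = ⟨FreeLieAlgebra.of o i, of_mem_lieDeg i⟩ := by
          apply hinj 0 (by omega)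
          rw [he 0 (by omega), ← ev_e0, e0_bv]
          have hD : DD 0 = 1 := rfl
          rw [hD, Nat.cast_one, one_smul]
        rw [h3]
        rfl
      rintro ⟨y, hy⟩ _
      obtain ⟨z, hz, hzy⟩ := h2 hy
      have : z = ⟨y, hy⟩ := Subtype.ext hzy
      rw [← this]
      exact hz
    | succ k ih =>
      intro hk
      have ihk := ih (by omega)
      rw [← LinearMap.range_eq_top, eq_top_iff, ← br_adL (o := o) (d := 2) k]
      unfold br
      apply iSup_le
      rintro j _ ⟨y, _, rfl⟩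
      obtain ⟨x, rfl⟩ := ihk y
      exact ⟨adT o k j x, hcomp k hk j x⟩
  refine ⟨e, ?_, hcomp⟩
  intro k hk
  refine ⟨?_, hsurj k hk⟩
  have hu : IsUnit ((k + 1 : ℕ) : o) := isoUnit_small h _ (by omega) (by omega)
  have f1 : Module.finrank o (MT o k) = Pool.Agent.Helper26.TZ8.mm k := finrank_MT' k
  have f2 : Module.finrank o (LM o 2 k) = Pool.Agent.Helper26.TZ8.mm k := rank_eq k hk hu
  have i1 := finite_LM (o := o) (d := 2) k hu
  have i2 := free_LM (o := o) (d := 2) k hu
  have E : LM o 2 k ≃ₗ[o] MT o k := LinearEquiv.ofFinrankEq _ _ (f2.trans f1.symm)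
  have hs : Function.Surjective (E.toLinearMap ∘ₗ e k) := by
    rw [LinearMap.coe_comp]
    exact E.surjective.comp (hsurj k hk)
  have hi := OrzechProperty.injective_of_surjective_endomorphism _ hs
  rw [LinearMap.coe_comp] at hi
  exact hi.of_comp

theorem exists_iso (h : RingHyp o p q) (hp : 11 ≤ p) :
    ∃ e : ∀ k : Fin 8, MT o k ≃ₗ[o] LM o 2 k,
      ∀ (k : ℕ) (hk : k + 1 < 8) (j : Fin 2) (x : MT o k),
        e ⟨k + 1, hk⟩ (adT o k j x) = adL o 2 k j (e ⟨k, Nat.lt_of_succ_lt hk⟩ x) := by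
  obtain ⟨e, hb, hc⟩ := exists_iso' h hp
  exact ⟨fun k => LinearEquiv.ofBijective (e k) (hb k k.isLt), fun k hk j x => hc k hk j x⟩

end Pool.Agent.TZ8
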