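import Pool.Agent.TZ8.LCf
import Pool.Agent.TZ8.LGen
import Pool.Agent.TZ8.LIso

set_option autoImplicit false

/-! The standard form of levels 6 and 7. -/

namespace Pool.Agent.TZ8

open Pool.Agent.TZ

section

variable {o : Type} [CommRing o]

/-- Multiplication of linear forms by linear forms: `(a v_j)(l) = a (l - j)`. -/
def shf {o : Type} [CommRing o] {n : ℕ} (a : Fin 6 → Fin n → o) (j : Fin 2) :
    Fin 6 → Fin (n + 1) → o :=
  fun e l => if h : (j : ℕ) ≤ l ∧ (l : ℕ) - j < n then a e ⟨l - j, h.2⟩ else 0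

/-- The coefficients of the form attached to `(a, b)` in level 6. -/
def stdF6 (a : Fin 6 → Fin 2 → o) (b : Fin 6 → Fin 1 → o) : ℕ → ℕ → o
  | 0, 0 => 2 * a 0 0
  | 0, 1 => 2 * (a 1 0 + a 0 1)
  | 0, 2 => 2 * (a 2 0 + a 1 1)
  | 0, 3 => 2 * (a 3 0 + a 2 1)
  | 0, 4 => 2 * (a 4 0 + a 3 1)
  | 0, 5 => 2 * a 4 1
  | 1, 0 => 7 * (4 * a 0 1 - a 1 0)
  | 1, 1 => 7 * (3 * a 1 1 - 2 * a 2 0)
  | 1, 2 => 7 * (2 * a 2 1 - 3 * a 3 0)
  | 1, 3 => 7 * (a 3 1 - 4 * a 4 0)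
  | 2, 0 => b 0 0
  | 2, 1 => b 1 0
  | 2, 2 => b 2 0
  | 2, 3 => b 3 0
  | 3, 0 => b 4 0
  | 3, 1 => b 5 0
  | 4, 0 => a 5 0
  | 4, 1 => a 5 1
  | _, _ => 0

/-- The coefficients of the form attached to `(a, b)` in level 7. -/
def stdF7 (a : Fin 6 → Fin 3 → o) (b : Fin 6 → Fin 2 → o) : ℕ → ℕ → o
  | 0, 0 => 2 * a 0 0
  | 0, 1 => 2 * a 0 1 + 2 * a 1 0
  | 0, 2 => 2 * a 0 2 + 2 * a 1 1 + 2 * a 2 0
  | 0, 3 => 2 * a 1 2 + 2 * a 2 1 + 2 * a 3 0
  | 0, 4 => 2 * a 2 2 + 2 * a 3 1 + 2 * a 4 0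
  | 0, 5 => 2 * a 3 2 + 2 * a 4 1
  | 0, 6 => 2 * a 4 2
  | 1, 0 => 70 * a 0 1 - 35 * a 1 0
  | 1, 1 => 140 * a 0 2 + 35 * a 1 1 - 70 * a 2 0
  | 1, 2 => 105 * a 1 2 - 105 * a 3 0
  | 1, 3 => 70 * a 2 2 - 35 * a 3 1 - 140 * a 4 0
  | 1, 4 => 35 * a 3 2 - 70 * a 4 1
  | 2, 0 => b 0 0
  | 2, 1 => b 0 1 + b 1 0
  | 2, 2 => b 1 1 + b 2 0
  | 2, 3 => b 2 1 + b 3 0
  | 2, 4 => b 3 1
  | 3, 0 => 84 * a 0 2 - 21 * a 1 1 + 14 * a 2 0
  | 3, 1 => 42 * a 1 2 - 28 * a 2 1 + 42 * a 3 0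
  | 3, 2 => 14 * a 2 2 - 21 * a 3 1 + 84 * a 4 0
  | 4, 0 => 3 * b 0 1 - b 1 0
  | 4, 1 => 2 * b 1 1 - 2 * b 2 0
  | 4, 2 => b 2 1 - 3 * b 3 0
  | 5, 0 => b 4 0
  | 5, 1 => b 4 1 + b 5 0
  | 5, 2 => b 5 1
  | 6, 0 => a 5 0
  | 6, 1 => a 5 1
  | 6, 2 => a 5 2
  | 7, 0 => b 4 1 - b 5 0
  | _, _ => 0

/-- The inverse of level 6 (scaled), first part. -/
def stdG6 (y : ℕ → ℕ → o) : ℕ → ℕ → o
  | 0, 0 => 210 * y 0 0
  | 1, 0 => 168 * y 0 1 - 12 * y 1 0
  | 0, 1 => 42 * y 0 1 + 12 * y 1 0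
  | 2, 0 => 126 * y 0 2 - 12 * y 1 1
  | 1, 1 => 84 * y 0 2 + 12 * y 1 1
  | 3, 0 => 84 * y 0 3 - 12 * y 1 2
  | 2, 1 => 126 * y 0 3 + 12 * y 1 2
  | 4, 0 => 42 * y 0 4 - 12 * y 1 3
  | 3, 1 => 168 * y 0 4 + 12 * y 1 3
  | 4, 1 => 210 * y 0 5
  | 5, 0 => 420 * y 4 0
  | 5, 1 => 420 * y 4 1
  | _, _ => 0

/-- The inverse of level 6 (scaled), second part. -/
def stdH6 (y : ℕ → ℕ → o) : ℕ → ℕ → o
  | 0, 0 => 420 * y 2 0
  | 1, 0 => 420 * y 2 1
  | 2, 0 => 420 * y 2 2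
  | 3, 0 => 420 * y 2 3
  | 4, 0 => 420 * y 3 0
  | 5, 0 => 420 * y 3 1
  | _, _ => 0

/-- The inverse of level 7 (scaled), first part. -/
def stdG7 (y : ℕ → ℕ → o) : ℕ → ℕ → o
  | 0, 0 => 210 * y 0 0
  | 0, 1 => 70 * y 0 1 + 4 * y 1 0
  | 0, 2 => 14 * y 0 2 + y 1 1 + 3 * y 3 0
  | 1, 0 => 140 * y 0 1 - 4 * y 1 0
  | 1, 1 => 112 * y 0 2 + 2 * y 1 1 - 6 * y 3 0
  | 1, 2 => 42 * y 0 3 + 2 * y 1 2 + 3 * y 3 1
  | 2, 0 => 84 * y 0 2 - 3 * y 1 1 + 3 * y 3 0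
  | 2, 1 => 126 * y 0 3 - 6 * y 3 1
  | 2, 2 => 84 * y 0 4 + 3 * y 1 3 + 3 * y 3 2
  | 3, 0 => 42 * y 0 3 - 2 * y 1 2 + 3 * y 3 1
  | 3, 1 => 112 * y 0 4 - 2 * y 1 3 - 6 * y 3 2
  | 3, 2 => 140 * y 0 5 + 4 * y 1 4
  | 4, 0 => 14 * y 0 4 - y 1 3 + 3 * y 3 2
  | 4, 1 => 70 * y 0 5 - 4 * y 1 4
  | 4, 2 => 210 * y 0 6
  | 5, 0 => 420 * y 6 0
  | 5, 1 => 420 * y 6 1
  | 5, 2 => 420 * y 6 2
  | _, _ => 0

/-- The inverse of level 7 (scaled), second part. -/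
def stdH7 (y : ℕ → ℕ → o) : ℕ → ℕ → o
  | 0, 0 => 420 * y 2 0
  | 0, 1 => 105 * y 2 1 + 105 * y 4 0
  | 1, 0 => 315 * y 2 1 - 105 * y 4 0
  | 1, 1 => 210 * y 2 2 + 105 * y 4 1
  | 2, 0 => 210 * y 2 2 - 105 * y 4 1
  | 2, 1 => 315 * y 2 3 + 105 * y 4 2
  | 3, 0 => 105 * y 2 3 - 105 * y 4 2
  | 3, 1 => 420 * y 2 4
  | 4, 0 => 420 * y 5 0
  | 4, 1 => 210 * y 5 1 + 210 * y 7 0
  | 5, 0 => 210 * y 5 1 - 210 * y 7 0
  | 5, 1 => 420 * y 5 2
  | _, _ => 0

theorem stdF6_add (a a' : Fin 6 → Fin 2 → o) (b b' : Fin 6 → Fin 1 → o) (m l : ℕ) :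
    stdF6 (a + a') (b + b') m l = stdF6 a b m l + stdF6 a' b' m l := by
  unfold stdF6
  split <;> (try simp only [Pi.add_apply]) <;> ring

theorem stdF6_smul (c : o) (a : Fin 6 → Fin 2 → o) (b : Fin 6 → Fin 1 → o) (m l : ℕ) :
    stdF6 (c • a) (c • b) m l = c * stdF6 a b m l := by
  unfold stdF6
  split <;> (try simp only [Pi.smul_apply, smul_eq_mul]) <;> ring

theorem stdF7_add (a a' : Fin 6 → Fin 3 → o) (b b' : Fin 6 → Fin 2 → o) (m l : ℕ) :
    stdF7 (a + a') (b + b') m l = stdF7 a b m l + stdF7 a' b' m l := by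
  unfold stdF7
  split <;> (try simp only [Pi.add_apply]) <;> ring

theorem stdF7_smul (c : o) (a : Fin 6 → Fin 3 → o) (b : Fin 6 → Fin 2 → o) (m l : ℕ) :
    stdF7 (c • a) (c • b) m l = c * stdF7 a b m l := by
  unfold stdF7
  split <;> (try simp only [Pi.smul_apply, smul_eq_mul]) <;> ring

/-- The map of level 6. -/
def std6 (o : Type) [CommRing o] : ((Fin 6 → Fin 2 → o) × (Fin 6 → Fin 1 → o)) →ₗ[o] MT o 6 where
  toFun x := fun a l => stdF6 x.1 x.2 a l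
  map_add' x y := by
    funext a l
    exact stdF6_add _ _ _ _ _ _
  map_smul' c x := by
    funext a l
    exact stdF6_smul _ _ _ _ _

/-- The map of level 7. -/
def std7 (o : Type) [CommRing o] : ((Fin 6 → Fin 3 → o) × (Fin 6 → Fin 2 → o)) →ₗ[o] MT o 7 where
  toFun x := fun a l => stdF7 x.1 x.2 a l
  map_add' x y := by
    funext a l
    exact stdF7_add _ _ _ _ _ _
  map_smul' c x := by
    funext a l
    exact stdF7_smul _ _ _ _ _

/-- The inverse map of level 6, scaled. -/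
def inv6 (o : Type) [CommRing o] (y : MT o 6) : (Fin 6 → Fin 2 → o) × (Fin 6 → Fin 1 → o) :=
  (fun e i => stdG6 (cf y) e i, fun e i => stdH6 (cf y) e i)

/-- The inverse map of level 7, scaled. -/
def inv7 (o : Type) [CommRing o] (y : MT o 7) : (Fin 6 → Fin 3 → o) × (Fin 6 → Fin 2 → o) :=
  (fun e i => stdG7 (cf y) e i, fun e i => stdH7 (cf y) e i)

theorem cf_std6 (x : (Fin 6 → Fin 2 → o) × (Fin 6 → Fin 1 → o)) (a l : ℕ) (ha : a < nc 6)
    (hl : l ≤ dg 6 a) : cf (std6 o x) a l = stdF6 x.1 x.2 a l := by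
  rw [cf_of_lt _ _ _ ha (Nat.lt_succ_iff.2 hl)]
  rfl

theorem cf_std7 (x : (Fin 6 → Fin 3 → o) × (Fin 6 → Fin 2 → o)) (a l : ℕ) (ha : a < nc 7)
    (hl : l ≤ dg 7 a) : cf (std7 o x) a l = stdF7 x.1 x.2 a l := by
  rw [cf_of_lt _ _ _ ha (Nat.lt_succ_iff.2 hl)]
  rfl

theorem stdF6_cases (P : ℕ → ℕ → Prop)
    (h0 : ∀ l, l ≤ 5 → P 0 l) (h1 : ∀ l, l ≤ 3 → P 1 l) (h2 : ∀ l, l ≤ 3 → P 2 l)
    (h3 : ∀ l, l ≤ 1 → P 3 l) (h4 : ∀ l, l ≤ 1 → P 4 l) (a l : ℕ) (ha : a < nc 6)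
    (hl : l ≤ dg 6 a) : P a l := by
  have ha' : a < 5 := ha
  interval_cases a
  · exact h0 l hl
  · exact h1 l hl
  · exact h2 l hl
  · exact h3 l hl
  · exact h4 l hl

theorem stdF7_cases (P : ℕ → ℕ → Prop)
    (h0 : ∀ l, l ≤ 6 → P 0 l) (h1 : ∀ l, l ≤ 4 → P 1 l) (h2 : ∀ l, l ≤ 4 → P 2 l)
    (h3 : ∀ l, l ≤ 2 → P 3 l) (h4 : ∀ l, l ≤ 2 → P 4 l) (h5 : ∀ l, l ≤ 2 → P 5 l)
    (h6 : ∀ l, l ≤ 2 → P 6 l) (h7 : ∀ l, l ≤ 0 → P 7 l) (a l : ℕ) (ha : a < nc 7)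
    (hl : l ≤ dg 7 a) : P a l := by
  have ha' : a < 8 := ha
  interval_cases a
  · exact h0 l hl
  · exact h1 l hl
  · exact h2 l hl
  · exact h3 l hl
  · exact h4 l hl
  · exact h5 l hl
  · exact h6 l hl
  · exact h7 l hl

theorem stdF6_inv (y : ℕ → ℕ → o) (a l : ℕ) (ha : a < nc 6) (hl : l ≤ dg 6 a) :
    stdF6 (fun e i => stdG6 y e i) (fun e i => stdH6 y e i) a l = 420 * y a l := by
  revert a l
  refine stdF6_cases _ ?_ ?_ ?_ ?_ ?_
  all_goals
    intro l hl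
    interval_cases l <;> simp [stdF6, stdG6, stdH6] <;> ring

theorem stdF7_inv (y : ℕ → ℕ → o) (a l : ℕ) (ha : a < nc 7) (hl : l ≤ dg 7 a) :
    stdF7 (fun e i => stdG7 y e i) (fun e i => stdH7 y e i) a l = 420 * y a l := by
  revert a l
  refine stdF7_cases _ ?_ ?_ ?_ ?_ ?_ ?_ ?_ ?_
  all_goals
    intro l hl
    interval_cases l <;> simp [stdF7, stdG7, stdH7] <;> ring

theorem cf_std6' (x : (Fin 6 → Fin 2 → o) × (Fin 6 → Fin 1 → o)) :
    cf (std6 o x) = stdF6 x.1 x.2 := by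
  funext a l
  by_cases h : a < nc 6 ∧ l < dg 6 a + 1
  · exact cf_std6 x a l h.1 (Nat.lt_succ_iff.1 h.2)
  · have h1 : cf (std6 o x) a l = 0 := by
      unfold cf
      rw [dif_neg h]
    rw [h1]
    unfold stdF6
    split <;> first | rfl | exact absurd (by decide) h

theorem cf_std7' (x : (Fin 6 → Fin 3 → o) × (Fin 6 → Fin 2 → o)) :
    cf (std7 o x) = stdF7 x.1 x.2 := by
  funext a l
  by_cases h : a < nc 7 ∧ l < dg 7 a + 1
  · exact cf_std7 x a l h.1 (Nat.lt_succ_iff.1 h.2)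
  · have h1 : cf (std7 o x) a l = 0 := by
      unfold cf
      rw [dif_neg h]
    rw [h1]
    unfold stdF7
    split <;> first | rfl | exact absurd (by decide) h

theorem stdG6_inv (a : Fin 6 → Fin 2 → o) (b : Fin 6 → Fin 1 → o) (e : Fin 6) (i : Fin 2) :
    stdG6 (stdF6 a b) e i = 420 * a e i := by
  fin_cases e <;> fin_cases i <;> simp [stdF6, stdG6] <;> ring

theorem stdH6_inv (a : Fin 6 → Fin 2 → o) (b : Fin 6 → Fin 1 → o) (e : Fin 6) (i : Fin 1) :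
    stdH6 (stdF6 a b) e i = 420 * b e i := by
  fin_cases e <;> fin_cases i <;> simp [stdF6, stdH6]

theorem stdG7_inv (a : Fin 6 → Fin 3 → o) (b : Fin 6 → Fin 2 → o) (e : Fin 6) (i : Fin 3) :
    stdG7 (stdF7 a b) e i = 420 * a e i := by
  fin_cases e <;> fin_cases i <;> simp [stdF7, stdG7] <;> ring

theorem stdH7_inv (a : Fin 6 → Fin 3 → o) (b : Fin 6 → Fin 2 → o) (e : Fin 6) (i : Fin 2) :
    stdH7 (stdF7 a b) e i = 420 * b e i := by
  fin_cases e <;> fin_cases i <;> simp [stdF7, stdH7] <;> ring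

theorem inv6_std6 (x : (Fin 6 → Fin 2 → o) × (Fin 6 → Fin 1 → o)) :
    inv6 o (std6 o x) = (420 : o) • x := by
  unfold inv6
  rw [cf_std6']
  refine Prod.ext ?_ ?_
  · funext e i
    exact stdG6_inv _ _ _ _
  · funext e i
    exact stdH6_inv _ _ _ _

theorem inv7_std7 (x : (Fin 6 → Fin 3 → o) × (Fin 6 → Fin 2 → o)) :
    inv7 o (std7 o x) = (420 : o) • x := by
  unfold inv7
  rw [cf_std7']
  refine Prod.ext ?_ ?_
  · funext e i
    exact stdG7_inv _ _ _ _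
  · funext e i
    exact stdH7_inv _ _ _ _

theorem std6_inv6 (y : MT o 6) : std6 o (inv6 o y) = (420 : o) • y := by
  refine MT_ext fun a l ha hl => ?_
  rw [cf_std6', cf_smul]
  exact stdF6_inv _ _ _ ha hl

theorem std7_inv7 (y : MT o 7) : std7 o (inv7 o y) = (420 : o) • y := by
  refine MT_ext fun a l ha hl => ?_
  rw [cf_std7', cf_smul]
  exact stdF7_inv _ _ _ ha hl

/-- A linear map with an inverse up to a unit is bijective. -/
theorem bij_of_scaled {V W : Type} [AddCommGroup V] [Module o V] [AddCommGroup W] [Module o W]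
    (f : V →ₗ[o] W) (g : W → V) (D : o) (hD : IsUnit D) (h1 : ∀ x, g (f x) = D • x)
    (h2 : ∀ y, f (g y) = D • y) : Function.Bijective f := by
  constructor
  · intro x y hxy
    have h3 : D • x = D • y := by rw [← h1, ← h1, hxy]
    exact hD.smul_left_cancel.1 h3
  · intro y
    obtain ⟨u, hu⟩ := hD
    refine ⟨(↑(u⁻¹) : o) • g y, ?_⟩
    rw [map_smul, h2, ← hu, smul_smul, Units.inv_mul, one_smul]

theorem std_compat (j : Fin 2) (a : Fin 6 → Fin 2 → o) (b : Fin 6 → Fin 1 → o) :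
    adT o 6 j (std6 o (a, b)) = std7 o (shf a j, shf b j) := by
  apply MT_ext
  refine stdF7_cases _ ?_ ?_ ?_ ?_ ?_ ?_ ?_ ?_
  · intro l hl
    rw [ad6_0, cf_std7']
    simp only [mulC, conC, cf_std6']
    fin_cases j <;> interval_cases l <;> simp [stdF6, stdF7, shf, dg] <;> ring
  · intro l hl
    rw [ad6_1, cf_std7']
    simp only [mulC, conC, cf_std6']
    fin_cases j <;> interval_cases l <;> simp [stdF6, stdF7, shf, dg] <;> ring
  · intro l hl
    rw [ad6_2, cf_std7']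
    simp only [mulC, conC, cf_std6']
    fin_cases j <;> interval_cases l <;> simp [stdF6, stdF7, shf, dg] <;> ring
  · intro l hl
    rw [ad6_3, cf_std7']
    simp only [mulC, conC, cf_std6']
    fin_cases j <;> interval_cases l <;> simp [stdF6, stdF7, shf, dg] <;> ring
  · intro l hl
    rw [ad6_4, cf_std7']
    simp only [mulC, conC, cf_std6']
    fin_cases j <;> interval_cases l <;> simp [stdF6, stdF7, shf, dg] <;> ring
  · intro l hl
    rw [ad6_5, cf_std7']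
    simp only [mulC, conC, cf_std6']
    fin_cases j <;> interval_cases l <;> simp [stdF6, stdF7, shf, dg] <;> ring
  · intro l hl
    rw [ad6_6, cf_std7']
    simp only [mulC, conC, cf_std6']
    fin_cases j <;> interval_cases l <;> simp [stdF6, stdF7, shf, dg] <;> ring
  · intro l hl
    rw [ad6_7, cf_std7']
    simp only [mulC, conC, cf_std6']
    fin_cases j <;> interval_cases l <;> simp [stdF6, stdF7, shf, dg] <;> ring

end

variable {o : Type} [CommRing o] [IsDomain o] [IsDiscreteValuationRing o] {p q : ℕ}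

theorem isUnit_420 (h : RingHyp o p q) (hp : 11 ≤ p) : IsUnit (420 : o) := by
  have h1 : IsUnit (((6 : ℕ) : o) * (((7 : ℕ) : o) * ((10 : ℕ) : o))) :=
    (isUnit_small h hp 6 (by norm_num) (by norm_num)).mul
      ((isUnit_small h hp 7 (by norm_num) (by norm_num)).mul
        (isUnit_small h hp 10 (by norm_num) (by norm_num)))
  have h2 : ((6 : ℕ) : o) * (((7 : ℕ) : o) * ((10 : ℕ) : o)) = 420 := by norm_num
  rwa [h2] at h1

/-- Levels 6 and 7 are the sum of 6 copies of `V → S²V` and 6 copies of `1 → V`. -/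
theorem exists_std (h : RingHyp o p q) (hp : 11 ≤ p) :
    ∃ (e6 : ((Fin 6 → Fin 2 → o) × (Fin 6 → Fin 1 → o)) ≃ₗ[o] MT o 6)
      (e7 : ((Fin 6 → Fin 3 → o) × (Fin 6 → Fin 2 → o)) ≃ₗ[o] MT o 7),
      (∀ (j : Fin 2) a b, adT o 6 j (e6 (a, b)) = e7 (shf a j, shf b j)) ∧
      (∀ a b, e6 (a, b) ∈ coB o sS 6 ↔ b = 0) ∧ (∀ a b, e7 (a, b) ∈ coB o sS 7 ↔ b = 0) := by
  have hu := isUnit_420 h hp
  refine ⟨LinearEquiv.ofBijective (std6 o) (bij_of_scaled _ (inv6 o) 420 hu inv6_std6 std6_inv6),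
    LinearEquiv.ofBijective (std7 o) (bij_of_scaled _ (inv7 o) 420 hu inv7_std7 std7_inv7),
    ?_, ?_, ?_⟩
  · intro j a b
    exact std_compat j a b
  · intro a b
    rw [LinearEquiv.ofBijective_apply, mem_coB]
    constructor
    · intro hx
      have h2 : ∀ i, stdF6 a b 2 i = 0 := by
        intro i
        rw [← hx 2 (by decide) (by decide) i, cf_std6']
      have h3 : ∀ i, stdF6 a b 3 i = 0 := by
        intro i
        rw [← hx 3 (by decide) (by decide) i, cf_std6']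
      funext e i
      have h4 := stdH6_inv a b e i
      have h5 : stdH6 (stdF6 a b) e i = 0 := by
        unfold stdH6
        split <;> first | rfl | (rw [h2, mul_zero]) | (rw [h3, mul_zero])
      rw [h5] at h4
      rw [Pi.zero_apply, Pi.zero_apply]
      exact hu.mul_left_cancel (by rw [← h4, mul_zero])
    · rintro rfl m hm hs i
      rw [cf_std6']
      have hm' : m < 5 := hm
      interval_cases m
      · exact absurd hs (by decide)
      · exact absurd hs (by decide)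
      · unfold stdF6
        split <;> first | (exfalso; omega) | simp
      · unfold stdF6
        split <;> first | (exfalso; omega) | simp
      · exact absurd hs (by decide)
  · intro a b
    rw [LinearEquiv.ofBijective_apply, mem_coB]
    constructor
    · intro hx
      have h2 : ∀ i, stdF7 a b 2 i = 0 := by
        intro i
        rw [← hx 2 (by decide) (by decide) i, cf_std7']
      have h3 : ∀ i, stdF7 a b 4 i = 0 := by
        intro i
        rw [← hx 4 (by decide) (by decide) i, cf_std7']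
      have h5 : ∀ i, stdF7 a b 5 i = 0 := by
        intro i
        rw [← hx 5 (by decide) (by decide) i, cf_std7']
      have h7 : ∀ i, stdF7 a b 7 i = 0 := by
        intro i
        rw [← hx 7 (by decide) (by decide) i, cf_std7']
      funext e i
      have h4 := stdH7_inv a b e i
      have h6 : stdH7 (stdF7 a b) e i = 0 := by
        unfold stdH7
        split <;> simp [h2, h3, h5, h7]
      rw [h6] at h4
      rw [Pi.zero_apply, Pi.zero_apply]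
      exact hu.mul_left_cancel (by rw [← h4, mul_zero])
    · rintro rfl m hm hs i
      rw [cf_std7']
      have hm' : m < 8 := hm
      interval_cases m
      · exact absurd hs (by decide)
      · exact absurd hs (by decide)
      · unfold stdF7
        split <;> first | (exfalso; omega) | simp
      · exact absurd hs (by decide)
      · unfold stdF7
        split <;> first | (exfalso; omega) | simp
      · unfold stdF7
        split <;> first | (exfalso; omega) | simp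
      · exact absurd hs (by decide)
      · unfold stdF7
        split <;> first | (exfalso; omega) | simp

end Pool.Agent.TZ8
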