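import Pool.Agent.TZ8.CDefs

set_option autoImplicit false

/-! Calculus of leading coefficients. -/

namespace Pool.Agent.TZ8

open Pool.Agent.TZ

variable {p : ℕ} [Fact p.Prime]

theorem psum_add {F G : PowerSeries ℤ} {S T : ℚ_[p]} (hF : PSum p F S) (hG : PSum p G T) :
    PSum p (F + G) (S + T) := by
  have h := HasSum.add hF hG
  have h1 : (fun n : ℕ => ((PowerSeries.coeff n (F + G) : ℤ) : ℚ_[p])) = fun n =>
      ((PowerSeries.coeff n F : ℤ) : ℚ_[p]) + ((PowerSeries.coeff n G : ℤ) : ℚ_[p]) := by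
    funext n
    rw [map_add, Int.cast_add]
  unfold Pool.Agent.TZ.PSum
  rw [h1]
  exact h

theorem psum_sub {F G : PowerSeries ℤ} {S T : ℚ_[p]} (hF : PSum p F S) (hG : PSum p G T) :
    PSum p (F - G) (S - T) := by
  have h := HasSum.sub hF hG
  have h1 : (fun n : ℕ => ((PowerSeries.coeff n (F - G) : ℤ) : ℚ_[p])) = fun n =>
      ((PowerSeries.coeff n F : ℤ) : ℚ_[p]) - ((PowerSeries.coeff n G : ℤ) : ℚ_[p]) := by
    funext n
    rw [map_sub, Int.cast_sub]
  unfold Pool.Agent.TZ.PSum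
  rw [h1]
  exact h

theorem psum_zero : PSum p (0 : PowerSeries ℤ) (0 : ℚ_[p]) := by
  unfold Pool.Agent.TZ.PSum
  simp [hasSum_zero]

theorem psum_unique {F : PowerSeries ℤ} {S T : ℚ_[p]} (hF : PSum p F S) (hF' : PSum p F T) :
    S = T := HasSum.unique hF hF'

theorem psum_C (a : ℤ) : PSum p (PowerSeries.C a) (a : ℚ_[p]) := by
  rw [psum_iff]
  have h := qsum_poly (p := p) (Polynomial.C (a : ℚ_[p]))
  have h1 : ((Polynomial.C (a : ℚ_[p]) : Polynomial ℚ_[p]) : PowerSeries ℚ_[p]) =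
      (PowerSeries.C a).map (Int.castRingHom ℚ_[p]) := by
    rw [Polynomial.coe_C, PowerSeries.map_C]
    rfl
  rw [h1] at h
  simpa using h

theorem psum_X : PSum p (PowerSeries.X : PowerSeries ℤ) (1 : ℚ_[p]) := by
  rw [psum_iff]
  have h := qsum_poly (p := p) Polynomial.X
  have h1 : ((Polynomial.X : Polynomial ℚ_[p]) : PowerSeries ℚ_[p]) =
      (PowerSeries.X : PowerSeries ℤ).map (Int.castRingHom ℚ_[p]) := by
    rw [Polynomial.coe_X, PowerSeries.map_X]
  rw [h1] at h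
  simpa using h

theorem psum_pow {F : PowerSeries ℤ} {S : ℚ_[p]} (hF : PSum p F S) (n : ℕ) :
    PSum p (F ^ n) (S ^ n) := by
  induction n with
  | zero => simpa using psum_one
  | succ n ih =>
    rw [pow_succ, pow_succ]
    exact psum_mul ih hF

theorem psum_sum {ι : Type} (s : Finset ι) {F : ι → PowerSeries ℤ} {S : ι → ℚ_[p]}
    (h : ∀ i ∈ s, PSum p (F i) (S i)) : PSum p (∑ i ∈ s, F i) (∑ i ∈ s, S i) := by
  classical
  induction s using Finset.induction_on with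
  | empty => simpa using psum_zero
  | insert a s ha ih =>
    rw [Finset.sum_insert ha, Finset.sum_insert ha]
    exact psum_add (h a (Finset.mem_insert_self _ _))
      (ih fun i hi => h i (Finset.mem_insert_of_mem hi))

theorem psum_one_sub_X : PSum p (1 - PowerSeries.X : PowerSeries ℤ) (0 : ℚ_[p]) := by
  have h := psum_sub (p := p) psum_one psum_X
  simpa using h

theorem lead_unique {r : ℕ} {G : PowerSeries ℤ} {c c' : ℚ_[p]} (h : Lead p r G c)
    (h' : Lead p r G c') : c = c' := by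
  obtain ⟨A, F, a, hA, ha, hF, hG⟩ := h
  obtain ⟨A', F', a', hA', ha', hF', hG'⟩ := h'
  have h1 := psum_mul hF hA'
  have h2 := psum_mul hF' hA
  have h3 : F * A' = F' * A := by
    rw [← hG, ← hG']
    ring
  rw [h3] at h1
  have h4 := psum_unique h1 h2
  have h5 : c * (a * a') = c' * (a * a') := by
    rw [← mul_assoc, h4]
    ring
  exact mul_right_cancel₀ (mul_ne_zero ha ha') h5

theorem lead_add {r : ℕ} {G G' : PowerSeries ℤ} {c c' : ℚ_[p]} (h : Lead p r G c)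
    (h' : Lead p r G' c') : Lead p r (G + G') (c + c') := by
  obtain ⟨A, F, a, hA, ha, hF, hG⟩ := h
  obtain ⟨A', F', a', hA', ha', hF', hG'⟩ := h'
  refine ⟨A * A', F * A' + F' * A, a * a', psum_mul hA hA', mul_ne_zero ha ha', ?_, ?_⟩
  · have h1 := psum_add (psum_mul hF hA') (psum_mul hF' hA)
    convert h1 using 1
    ring
  · rw [← hG, ← hG']
    ring

theorem lead_zero (r : ℕ) : Lead p r 0 0 :=
  ⟨1, 0, 1, psum_one, one_ne_zero, by simpa using psum_zero, by simp⟩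

theorem lead_one : Lead p 0 1 1 :=
  ⟨1, 1, 1, psum_one, one_ne_zero, by simpa using psum_one, by simp⟩

theorem lead_sum {ι : Type} {r : ℕ} (s : Finset ι) {G : ι → PowerSeries ℤ} {c : ι → ℚ_[p]}
    (h : ∀ i ∈ s, Lead p r (G i) (c i)) : Lead p r (∑ i ∈ s, G i) (∑ i ∈ s, c i) := by
  classical
  induction s using Finset.induction_on with
  | empty => simpa using lead_zero r
  | insert a s ha ih =>
    rw [Finset.sum_insert ha, Finset.sum_insert ha]
    exact lead_add (h a (Finset.mem_insert_self _ _))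
      (ih fun i hi => h i (Finset.mem_insert_of_mem hi))

theorem lead_mul {r r' : ℕ} {G G' : PowerSeries ℤ} {c c' : ℚ_[p]} (h : Lead p r G c)
    (h' : Lead p r' G' c') : Lead p (r + r') (G * G') (c * c') := by
  obtain ⟨A, F, a, hA, ha, hF, hG⟩ := h
  obtain ⟨A', F', a', hA', ha', hF', hG'⟩ := h'
  refine ⟨A * A', F * F', a * a', psum_mul hA hA', mul_ne_zero ha ha', ?_, ?_⟩
  · have h1 := psum_mul hF hF'
    convert h1 using 1
    ring
  · rw [← hG, ← hG', pow_add]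
    ring

theorem lead_prod {n : ℕ} {G : Fin n → PowerSeries ℤ} {c : Fin n → ℚ_[p]}
    (h : ∀ i, Lead p 1 (G i) (c i)) : Lead p n (∏ i, G i) (∏ i, c i) := by
  induction n with
  | zero => simpa using lead_one
  | succ n ih =>
    rw [Fin.prod_univ_succ, Fin.prod_univ_succ]
    have h1 := lead_mul (h 0) (ih fun i => h i.succ)
    rwa [Nat.add_comm 1 n] at h1

theorem lead_lt {r r' : ℕ} (hr : r < r') {G : PowerSeries ℤ} {c : ℚ_[p]} (h : Lead p r G c) :
    Lead p r' G 0 := by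
  obtain ⟨A, F, a, hA, ha, hF, hG⟩ := h
  obtain ⟨k, rfl⟩ := Nat.exists_eq_add_of_lt hr
  refine ⟨A, F * (1 - PowerSeries.X) ^ (k + 1), a, hA, ha, ?_, ?_⟩
  · have h1 := psum_mul hF (psum_pow (psum_one_sub_X (p := p)) (k + 1))
    convert h1 using 1
    rw [zero_pow (Nat.succ_ne_zero k)]
    ring
  · rw [← hG]
    ring

/-- Multiplying by `A` with nonzero value. -/
theorem lead_of_mul {r : ℕ} {G A : PowerSeries ℤ} {a c : ℚ_[p]} (hA : PSum p A a) (ha : a ≠ 0)
    (h : Lead p r (G * A) c) : Lead p r G (c / a) := by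
  obtain ⟨B, F, b, hB, hb, hF, hG⟩ := h
  refine ⟨A * B, F, a * b, psum_mul hA hB, mul_ne_zero ha hb, ?_, ?_⟩
  · convert hF using 1
    field_simp
  · rw [← hG]
    ring

theorem lead_of_psum {F : PowerSeries ℤ} {c : ℚ_[p]} (h : PSum p F c) : Lead p 0 F c :=
  ⟨1, F, 1, psum_one, one_ne_zero, by simpa using h, by simp⟩

theorem psum_geom (n : ℕ) : PSum p (∑ i ∈ Finset.range n, (PowerSeries.X : PowerSeries ℤ) ^ i)
    (n : ℚ_[p]) := by
  have h := psum_sum (p := p) (Finset.range n) (F := fun i => (PowerSeries.X : PowerSeries ℤ) ^ i)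
    (S := fun _ => 1) (fun i _ => by simpa using psum_pow (psum_X (p := p)) i)
  simpa using h

/-- Denominators `1 - X ^ w`. -/
theorem lead_of_prod {ι : Type} (s : Finset ι) (w : ι → ℕ) (hw : ∀ i ∈ s, 0 < w i)
    {G F : PowerSeries ℤ} {c : ℚ_[p]} (h : G * ∏ i ∈ s, (1 - PowerSeries.X ^ w i) = F)
    (hF : PSum p F c) : Lead p s.card G (c / ∏ i ∈ s, (w i : ℚ_[p])) := by
  have h0 : ∏ i ∈ s, (w i : ℚ_[p]) ≠ 0 := by
    refine Finset.prod_ne_zero_iff.2 fun i hi => ?_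
    exact_mod_cast (hw i hi).ne'
  refine ⟨∏ i ∈ s, ∑ j ∈ Finset.range (w i), (PowerSeries.X : PowerSeries ℤ) ^ j, F,
    ∏ i ∈ s, (w i : ℚ_[p]), psum_finset_prod s fun i _ => psum_geom (w i), h0, ?_, ?_⟩
  · convert hF using 1
    field_simp
  · rw [← h, ← Finset.prod_const, ← Finset.prod_mul_distrib]
    congr 1
    refine Finset.prod_congr rfl fun i _ => ?_
    rw [mul_comm]
    exact geom_sum_mul_neg _ _

theorem one_sub_ne_zero {a : ℤ} (ha : (p : ℤ) ∣ a) : (1 - (a : ℚ_[p])) ≠ 0 := by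
  intro h
  have h1 : (a : ℚ_[p]) = ((1 : ℤ) : ℚ_[p]) := by
    rw [Int.cast_one]
    exact (sub_eq_zero.1 h).symm
  have h2 : a = 1 := by exact_mod_cast h1
  rw [h2] at ha
  have h3 : p ∣ 1 := by exact_mod_cast ha
  exact (Fact.out : p.Prime).one_lt.ne' (Nat.dvd_one.1 h3)

theorem psum_one_sub_C_mul_X (a : ℤ) :
    PSum p (1 - PowerSeries.C a * PowerSeries.X) (1 - (a : ℚ_[p])) := by
  have h := psum_sub (p := p) psum_one (psum_mul (psum_C a) psum_X)
  simpa using h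

/-- Denominator `1 - a X` with `p ∣ a`. -/
theorem lead_geo {r : ℕ} {G : PowerSeries ℤ} {c : ℚ_[p]} {a : ℤ} (ha : (p : ℤ) ∣ a)
    (h : Lead p r (G * (1 - PowerSeries.C a * PowerSeries.X)) c) :
    Lead p r G (c / (1 - (a : ℚ_[p]))) :=
  lead_of_mul (psum_one_sub_C_mul_X a) (one_sub_ne_zero ha) h

/-- The zeta function of `o ^ n`. -/
theorem lead_zeta {q n : ℕ} (hq : p ∣ q) (hn : 1 ≤ n) {G : PowerSeries ℤ}
    (hG : G * ∏ k ∈ Finset.range n, (1 - PowerSeries.C ((q : ℤ) ^ k) * PowerSeries.X) = 1) :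
    Lead p 1 G (1 / ∏ j ∈ Finset.Ico 1 n, (1 - (q : ℚ_[p]) ^ j)) := by
  have hr : Finset.range n = insert 0 (Finset.Ico 1 n) := by
    ext i; simp only [Finset.mem_range, Finset.mem_insert, Finset.mem_Ico]; omega
  have h0 : (0 : ℕ) ∉ Finset.Ico 1 n := by simp
  rw [hr, Finset.prod_insert h0] at hG
  have hval : ∀ j ∈ Finset.Ico 1 n, (1 - (q : ℚ_[p]) ^ j) ≠ 0 := by
    intro j hj
    have h1 : (p : ℤ) ∣ (q : ℤ) ^ j :=
      dvd_pow (by exact_mod_cast hq) (by have := (Finset.mem_Ico.1 hj).1; omega)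
    have := one_sub_ne_zero (p := p) h1
    simpa using this
  have hne : ∏ j ∈ Finset.Ico 1 n, (1 - (q : ℚ_[p]) ^ j) ≠ 0 := Finset.prod_ne_zero_iff.2 hval
  refine ⟨∏ k ∈ Finset.Ico 1 n, (1 - PowerSeries.C ((q : ℤ) ^ k) * PowerSeries.X), 1,
    ∏ j ∈ Finset.Ico 1 n, (1 - (q : ℚ_[p]) ^ j), ?_, hne, ?_, ?_⟩
  · refine psum_finset_prod _ fun j _ => ?_
    have := psum_one_sub_C_mul_X (p := p) ((q : ℤ) ^ j)
    simpa using this
  · rw [one_div, inv_mul_cancel₀ hne]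
    exact psum_one
  · rw [pow_zero, map_one, one_mul] at hG
    rw [pow_one]
    exact hG

/-- `X ^ n` has value `1`. -/
theorem lead_X_pow (n : ℕ) : Lead p 0 ((PowerSeries.X : PowerSeries ℤ) ^ n) 1 := by
  have h := psum_pow (psum_X (p := p)) n
  rw [one_pow] at h
  exact lead_of_psum h

/-- Limits: `G` is congruent modulo `p ^ k` to series `G k`, all with the same multiplier. -/
theorem lead_lim {r : ℕ} {G A : PowerSeries ℤ} {a : ℚ_[p]} (hA : PSum p A a) (ha : a ≠ 0)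
    (Gk Fk : ℕ → PowerSeries ℤ) (c : ℕ → ℚ_[p]) (c0 : ℚ_[p])
    (h1 : ∀ k n, (p : ℤ) ^ k ∣ PowerSeries.coeff n (G - Gk k))
    (h2 : ∀ k, Gk k * ((1 - PowerSeries.X) ^ r * A) = Fk k) (h3 : ∀ k, PSum p (Fk k) (c k))
    (h4 : Filter.Tendsto c Filter.atTop (nhds c0)) : Lead p r G (c0 / a) := by
  have hp1 : (1 : ℝ) < p := by exact_mod_cast (Fact.out : p.Prime).one_lt
  have hsmall : ∀ ε : ℝ, 0 < ε → ∃ k : ℕ, ∀ k', k ≤ k' → (p : ℝ) ^ (-(k' : ℤ)) < ε := by
    intro ε hε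
    obtain ⟨k, hk⟩ := exists_pow_lt_of_lt_one hε (inv_lt_one_of_one_lt₀ hp1)
    refine ⟨k, fun k' hk' => ?_⟩
    rw [zpow_neg, zpow_natCast, ← inv_pow]
    refine lt_of_le_of_lt ?_ hk
    exact pow_le_pow_of_le_one (inv_nonneg.2 (by linarith)) (inv_le_one_of_one_le₀ hp1.le) hk'
  set F : PowerSeries ℤ := G * ((1 - PowerSeries.X) ^ r * A) with hF
  have hcong : ∀ k n, (p : ℤ) ^ k ∣ PowerSeries.coeff n (F - Fk k) := by
    intro k n
    have h5 : F - Fk k = (G - Gk k) * ((1 - PowerSeries.X) ^ r * A) := by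
      rw [hF, ← h2 k]; ring
    rw [h5, PowerSeries.coeff_mul]
    exact Finset.dvd_sum fun x _ => Dvd.dvd.mul_right (h1 k x.1) _
  have hnorm : ∀ k n, ‖((PowerSeries.coeff n (F - Fk k) : ℤ) : ℚ_[p])‖ ≤ (p : ℝ) ^ (-(k : ℤ)) :=
    fun k n => (Padic.norm_int_le_pow_iff_dvd _ _).2 (hcong k n)
  have hFsum : Summable fun n : ℕ => ((PowerSeries.coeff n F : ℤ) : ℚ_[p]) := by
    refine NonarchimedeanAddGroup.summable_of_tendsto_cofinite_zero ?_
    rw [Nat.cofinite_eq_atTop, Metric.tendsto_atTop]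
    intro ε hε
    obtain ⟨k, hk⟩ := hsmall ε hε
    have h5 := (h3 k).summable.tendsto_atTop_zero
    rw [Metric.tendsto_atTop] at h5
    obtain ⟨N, hN⟩ := h5 ε hε
    refine ⟨N, fun n hn => ?_⟩
    have h6 := hN n hn
    rw [dist_zero_right] at h6 ⊢
    have h7 : ((PowerSeries.coeff n F : ℤ) : ℚ_[p]) =
        ((PowerSeries.coeff n (F - Fk k) : ℤ) : ℚ_[p]) +
          ((PowerSeries.coeff n (Fk k) : ℤ) : ℚ_[p]) := by
      rw [map_sub]; push_cast; ring
    rw [h7]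
    refine lt_of_le_of_lt (Padic.nonarchimedean _ _) (max_lt ?_ h6)
    exact (hnorm k n).trans_lt (hk k le_rfl)
  obtain ⟨S', hS'⟩ := hFsum
  have hS'' : PSum p F S' := hS'
  have hdist : ∀ k, ‖S' - c k‖ ≤ (p : ℝ) ^ (-(k : ℤ)) := by
    intro k
    have h5 : PSum p (F - Fk k) (S' - c k) := psum_sub hS'' (h3 k)
    have h6 := (HasSum.tendsto_sum_nat h5).norm
    refine le_of_tendsto h6 (Filter.Eventually.of_forall fun n => ?_)
    have h7 : (p : ℤ) ^ k ∣ ∑ i ∈ Finset.range n, PowerSeries.coeff i (F - Fk k) :=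
      Finset.dvd_sum fun i _ => hcong k i
    have h8 := (Padic.norm_int_le_pow_iff_dvd (p := p) _ _).2 h7
    push_cast at h8
    exact h8
  have hlim : Filter.Tendsto c Filter.atTop (nhds S') := by
    rw [Metric.tendsto_atTop]
    intro ε hε
    obtain ⟨k, hk⟩ := hsmall ε hε
    refine ⟨k, fun k' hk' => ?_⟩
    rw [dist_comm, dist_eq_norm]
    exact (hdist k').trans_lt (hk k' hk')
  have heq : S' = c0 := tendsto_nhds_unique hlim h4
  refine ⟨A, F, a, hA, ha, ?_, rfl⟩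
  rw [div_mul_cancel₀ _ ha, ← heq]
  exact hS''

end Pool.Agent.TZ8
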