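import Pool.Agent.TZ.PS

set_option autoImplicit false

/-!
Lattices in a `p`-torsion free module over an arbitrary ring and their flags: definitions.
-/

namespace Pool.Agent.TZ8

open Pool.Agent.TZ

section flags

variable {R : Type} [Ring R] {N : Type} [AddCommGroup N] [Module R N]

/-- Multiplication by `p ^ k`. -/
def mulp (R : Type) [Ring R] (N : Type) [AddCommGroup N] [Module R N] (p k : ℕ) : N →ₗ[R] N where
  toFun x := p ^ k • x
  map_add' x y := smul_add _ x y
  map_smul' r x := (smul_comm r (p ^ k) x).symm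

/-- The submodule `p ^ k N`. -/
def pN (R : Type) [Ring R] (N : Type) [AddCommGroup N] [Module R N] (p k : ℕ) : Submodule R N :=
  LinearMap.range (mulp R N p k)

/-- `I` contains `p ^ k N` for some `k`. -/
def IsLat (p : ℕ) (I : Submodule R N) : Prop := ∃ k : ℕ, pN R N p k ≤ I

/-- The flag of `I`: the `j`-th term is `(p ^ {-j} I ∩ N) + p N`. -/
def fl (p : ℕ) (I : Submodule R N) (j : ℕ) : Submodule R N :=
  I.comap (mulp R N p j) ⊔ pN R N p 1

/-- Proper submodules containing `p N`. -/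
abbrev Lay (R : Type) [Ring R] (N : Type) [AddCommGroup N] [Module R N] (p : ℕ) : Type :=
  {V : Submodule R N // pN R N p 1 ≤ V ∧ V ≠ ⊤}

/-- Lattices. -/
abbrev LatR (R : Type) [Ring R] (N : Type) [AddCommGroup N] [Module R N] (p : ℕ) : Type :=
  {I : Submodule R N // IsLat p I}

/-- The multiplicity of `V` in the flag of `I`. -/
noncomputable def lay (p : ℕ) (I : Submodule R N) (V : Lay R N p) : ℕ :=
  Nat.card {j : ℕ // fl p I j = V.1}

/-- Standing hypotheses: `N` is `p`-torsion free and `N / p N` is finite. -/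
structure NHyp (R : Type) [Ring R] (N : Type) [AddCommGroup N] [Module R N] (p : ℕ) : Prop where
  prime : p.Prime
  tf : ∀ x : N, p • x = 0 → x = 0
  fin : Finite (N ⧸ pN R N p 1)

/-- There is no nonzero homomorphism from `V / p N` to `N / V'`. -/
def Rig (p : ℕ) (V V' : Submodule R N) : Prop :=
  ∀ f : ↥V →ₗ[R] N ⧸ V', (∀ x : ↥V, (x : N) ∈ pN R N p 1 → f x = 0) → ∀ x, f x = 0

/-- The stretching map at `U` (at depth `s`). -/
def stre (p : ℕ) (U : Submodule R N) (s : ℕ) (I : Submodule R N) : Submodule R N where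
  carrier := {x | ∃ u ∈ U, ∃ n : N, u + p ^ s • n ∈ I ∧ x = u + p ^ (s + 1) • n}
  add_mem' := by
    rintro x y ⟨u, hu, n, hn, rfl⟩ ⟨u', hu', n', hn', rfl⟩
    refine ⟨u + u', U.add_mem hu hu', n + n', ?_, ?_⟩
    · have := I.add_mem hn hn'
      rw [smul_add]
      convert this using 1
      abel
    · rw [smul_add]
      abel
  zero_mem' := ⟨0, U.zero_mem, 0, by simp, by simp⟩
  smul_mem' := by
    rintro r x ⟨u, hu, n, hn, rfl⟩
    refine ⟨r • u, U.smul_mem r hu, r • n, ?_, ?_⟩
    · have := I.smul_mem r hn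
      rw [smul_add, smul_comm r (p ^ s) n] at this
      exact this
    · rw [smul_add, smul_comm r (p ^ (s + 1)) n]

end flags

/-- The number of lattices with flag multiplicities `l`. -/
noncomputable def cnt {R : Type} [Ring R] {N : Type} [AddCommGroup N] [Module R N] (p : ℕ)
    (l : Lay R N p → ℕ) : ℤ :=
  (Nat.card {I : Submodule R N // IsLat p I ∧ lay p I = l} : ℤ)

/-- The number of layers strictly below `V`. -/
noncomputable def start {R : Type} [Ring R] {N : Type} [AddCommGroup N] [Module R N] {p : ℕ}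
    (l : Lay R N p → ℕ) (V : Lay R N p) : ℕ :=
  ∑ᶠ W : {W : Lay R N p // W.1 < V.1}, l W.1

section series

/-- The series `∑ c(l) X ^ (∑ l(V) nu(V))`. -/
noncomputable def gs {S : Type} [Fintype S] (c : (S → ℕ) → ℤ) (nu : S → ℕ) : PowerSeries ℤ :=
  PowerSeries.mk fun n => ∑ᶠ l : {l : S → ℕ // ∑ V, l V * nu V = n}, c l.1

/-- `p`-adically, `(1 - t) ^ r G(t)` tends to `c` as `t` tends to `1`. -/
def Lead (p : ℕ) [Fact p.Prime] (r : ℕ) (G : PowerSeries ℤ) (c : ℚ_[p]) : Prop :=
  ∃ (A F : PowerSeries ℤ) (a : ℚ_[p]), PSum p A a ∧ a ≠ 0 ∧ PSum p F (c * a) ∧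
    G * ((1 - PowerSeries.X) ^ r * A) = F

end series

end Pool.Agent.TZ8
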