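import Pool.Agent.TZ.PR
import Pool.Agent.TZ.GF
import Pool.Agent.TZ8.CDefs

set_option autoImplicit false

/-! The exponent of a lattice and lattices deep inside `M`. -/

namespace Pool.Agent.TZ8

open Pool.Agent.TZ

/-- The exponent of a submodule: the smallest `b` with `p ^ b M ≤ L`. -/
noncomputable def expo {o : Type} [CommRing o] {M : Type} [AddCommGroup M] [Module o M] (p : ℕ)
    (L : Submodule o M) : ℕ :=
  sInf {b : ℕ | ∀ x : M, (p : o) ^ b • x ∈ L}

/-- Pairs of a lattice of `M` and an element `x` of `α`, the lattice being contained in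
`p ^ (e x + 1) M`. -/
abbrev StepT (o : Type) [CommRing o] (p : ℕ) (M : Type) [AddCommGroup M] [Module o M] {α : Type}
    (e : α → ℕ) : Type :=
  {y : Lat o M × α // ∀ x ∈ y.1.1, ∃ z : M, x = (p : o) ^ (e y.2 + 1) • z}

variable {o : Type} [CommRing o] [IsDomain o] [IsDiscreteValuationRing o] {p q : ℕ}
  {M : Type} [AddCommGroup M] [Module o M]

theorem pow_expo_mem (h : RingHyp o p q) [Module.Finite o M] (L : Submodule o M)
    (hL : Finite (M ⧸ L)) (x : M) : (p : o) ^ expo p L • x ∈ L := by
  have hne : {b : ℕ | ∀ x : M, (p : o) ^ b • x ∈ L}.Nonempty := lat_pow_mem h L hL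
  exact Nat.sInf_mem hne x

theorem expo_le_iff (h : RingHyp o p q) [Module.Finite o M] (L : Submodule o M)
    (hL : Finite (M ⧸ L)) (b : ℕ) : expo p L ≤ b ↔ ∀ x : M, (p : o) ^ b • x ∈ L := by
  constructor
  · intro hb x
    obtain ⟨r, rfl⟩ := Nat.exists_eq_add_of_le hb
    rw [add_comm, pow_add, mul_smul]
    exact L.smul_mem _ (pow_expo_mem h L hL x)
  · intro hb
    exact Nat.sInf_le hb

/-- The exponent does not change under isomorphisms. -/
theorem expo_map_equiv {M' : Type} [AddCommGroup M'] [Module o M'] (e : M ≃ₗ[o] M')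
    (L : Submodule o M) : expo p (L.map (e : M →ₗ[o] M')) = expo p L := by
  unfold expo
  congr 1
  ext b
  simp only [Set.mem_ofPred_eq, Submodule.mem_map]
  constructor
  · intro hb x
    obtain ⟨y, hy, hxy⟩ := hb (e x)
    have h1 : y = (p : o) ^ b • x := by
      apply e.injective
      rw [map_smul]
      exact hxy
    rw [← h1]
    exact hy
  · intro hb x
    refine ⟨(p : o) ^ b • e.symm x, hb _, ?_⟩
    simp

/-- Finitely many lattices of given colength. -/
theorem finite_len (h : RingHyp o p q) [Module.Free o M] [Module.Finite o M] (n : ℕ) :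
    Finite {L : Lat o M // len q L.1 = n} := lat_finite h n

/-- Larger weights have finite fibres. -/
theorem finite_add {α : Type} (w v : α → ℕ) (hw : ∀ n, Finite {x : α // w x = n}) (n : ℕ) :
    Finite {x : α // w x + v x = n} := by
  have h : {x : α | w x + v x = n}.Finite := by
    refine (setFinite_le w hw n).subset ?_
    intro x hx
    simp only [Set.mem_ofPred_eq] at hx ⊢
    omega
  exact h.to_subtype

private theorem gf_shift {X : Type} (c : ℕ) (u : X → ℕ) :
    gf (fun x => c + u x) = PowerSeries.X ^ c * gf u := by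
  ext n
  rw [PowerSeries.coeff_X_pow_mul']
  unfold gf
  rw [PowerSeries.coeff_mk, PowerSeries.coeff_mk]
  split_ifs with hc
  · congr 1
    apply Nat.card_congr
    exact Equiv.subtypeEquivRight fun x => by
      show c + u x = n ↔ u x = n - c
      omega
  · have : IsEmpty {x : X // c + u x = n} := ⟨fun x => hc (by have := x.2; omega)⟩
    rw [Nat.card_of_isEmpty]
    rfl

private theorem expo_mp (h : RingHyp o p q) [Module.Free o M] [Module.Finite o M]
    (hm1 : 0 < Module.finrank o M) (L : Submodule o M) (hL : Finite (M ⧸ L)) (k : ℕ) :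
    expo p (L.map (PR.mp o p M k)) = k + expo p L := by
  have hf := PR.finite_mp h L hL k
  apply le_antisymm
  · rw [expo_le_iff h _ hf]
    intro x
    rw [PR.mem_map_mp]
    exact ⟨(p : o) ^ expo p L • x, pow_expo_mem h L hL x, by rw [pow_add, mul_smul]⟩
  · have h1 := (expo_le_iff h _ hf _).1 (le_refl (expo p (L.map (PR.mp o p M k))))
    set b := expo p (L.map (PR.mp o p M k)) with hb
    obtain ⟨x0, hx0⟩ := PR.exists_not_div (M := M) h hm1
    have hkb : k ≤ b := by
      by_contra hlt
      push Not at hlt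
      obtain ⟨r, hr⟩ := Nat.exists_eq_add_of_lt hlt
      obtain ⟨y, _, hy⟩ := (PR.mem_map_mp k L _).1 (h1 x0)
      apply hx0 ((p : o) ^ r • y)
      apply PR.smul_cancel h b
      rw [hy, hr, smul_smul, smul_smul]
      congr 1
      ring
    obtain ⟨r, hr⟩ := Nat.exists_eq_add_of_le hkb
    have h2 : expo p L ≤ r := by
      rw [expo_le_iff h L hL]
      intro x
      obtain ⟨y, hy, hxy⟩ := (PR.mem_map_mp k L _).1 (h1 x)
      rw [hr, pow_add, mul_smul] at hxy
      rw [PR.smul_cancel h k hxy]
      exact hy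
    omega

/-- Scaling. -/
private noncomputable def stepFun (h : RingHyp o p q) [Module.Free o M] [Module.Finite o M]
    {α : Type} (e : α → ℕ) (z : Lat o M × α) : StepT o p M e :=
  ⟨(⟨z.1.1.map (PR.mp o p M (e z.2 + 1)), PR.finite_mp h _ z.1.2 _⟩, z.2), by
    intro x hx
    obtain ⟨y, _, hy⟩ := (PR.mem_map_mp _ _ x).1 hx
    exact ⟨y, hy⟩⟩

private theorem stepFun_bij (h : RingHyp o p q) [Module.Free o M] [Module.Finite o M]
    {α : Type} (e : α → ℕ) : Function.Bijective (stepFun (M := M) h e) := by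
  constructor
  · rintro ⟨L, x⟩ ⟨L', x'⟩ hxy
    have h1 : x = x' := congrArg (fun z => z.1.2) hxy
    subst h1
    have h2 : L.1.map (PR.mp o p M (e x + 1)) = L'.1.map (PR.mp o p M (e x + 1)) :=
      congrArg (fun z => z.1.1.1) hxy
    have h3 : L.1 = L'.1 := Submodule.map_injective_of_injective (PR.mp_inj h _) h2
    rw [Subtype.ext h3]
  · rintro ⟨⟨⟨N, hN⟩, x⟩, hx⟩
    have hNL : N ≤ N.comap (PR.mp o p M (e x + 1)) := fun y hy => N.smul_mem _ hy
    obtain ⟨n, hn⟩ := lat_pow_mem h N hN
    have hfin : Finite (M ⧸ N.comap (PR.mp o p M (e x + 1))) :=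
      finite_quot_of_pow_mem h _ n (fun y => hNL (hn y))
    refine ⟨(⟨N.comap (PR.mp o p M (e x + 1)), hfin⟩, x), ?_⟩
    apply Subtype.ext
    refine Prod.ext (Subtype.ext ?_) rfl
    show (N.comap (PR.mp o p M (e x + 1))).map (PR.mp o p M (e x + 1)) = N
    ext y
    rw [PR.mem_map_mp]
    constructor
    · rintro ⟨z, hz, rfl⟩
      exact hz
    · intro hy
      obtain ⟨z, rfl⟩ := hx y hy
      exact ⟨z, hy, rfl⟩

theorem gf_stepT (h : RingHyp o p q) [Module.Free o M] [Module.Finite o M] (m : ℕ)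
    (hm : Module.finrank o M = m) (hm1 : 1 ≤ m) {α : Type} (w e : α → ℕ)
    (hw : ∀ n, Finite {x : α // w x = n}) (r : ℕ) :
    gf (fun y : StepT o p M e => len q y.1.1.1 + w y.1.2 + r * expo p y.1.1.1) =
      PowerSeries.X ^ (m + r) * (gf (fun L : Lat o M => len q L.1 + r * expo p L.1) *
        gf (fun x : α => w x + (m + r) * e x)) := by
  rw [← gf_equiv (Equiv.ofBijective _ (stepFun_bij (M := M) h e)), ← gf_prod _ _
    (fun n => finite_add _ _ (fun n => finite_len h n) n) (fun n => finite_add _ _ hw n),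
    ← gf_shift]
  congr 1
  funext z
  obtain ⟨L, x⟩ := z
  show len q (L.1.map (PR.mp o p M (e x + 1))) + w x +
    r * expo p (L.1.map (PR.mp o p M (e x + 1))) = _
  rw [PR.len_mp h L.1 L.2, expo_mp h (by omega) L.1 L.2, hm]
  ring

end Pool.Agent.TZ8
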