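import Pool.Agent.TZ8.CDefs
import Pool.Agent.TZ.Base

set_option autoImplicit false

/-!
Towers `M 0 → M 1 → ...` as modules over a free algebra: definitions.
-/

namespace Pool.Agent.TZ8

open Pool.Agent.TZ

section graded

variable {o : Type} [CommRing o] {d : ℕ} {M : ℕ → Type} [∀ i, AddCommGroup (M i)]
  [∀ i, Module o (M i)]

/-- The sum of the first `c` terms of the tower. -/
def NN (_ad : ∀ i, Fin d → M i →ₗ[o] M (i + 1)) (c : ℕ) : Type := ∀ i : Fin c, M i

variable (ad : ∀ i, Fin d → M i →ₗ[o] M (i + 1)) (c : ℕ)

instance : AddCommGroup (NN ad c) := inferInstanceAs (AddCommGroup (∀ i : Fin c, M i))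

instance : Module o (NN ad c) := inferInstanceAs (Module o (∀ i : Fin c, M i))

/-- The projection to the component `k`. -/
def prE (k : Fin c) : Module.End o (NN ad c) where
  toFun v := fun i => if i = k then v i else 0
  map_add' v w := by
    funext i
    show (if i = k then v i + w i else 0) = (if i = k then v i else 0) + (if i = k then w i else 0)
    split_ifs <;> simp
  map_smul' a v := by
    funext i
    show (if i = k then a • v i else 0) = a • (if i = k then v i else 0)
    split_ifs <;> simp

/-- The shifted vector. -/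
def shiftFun (j : Fin d) (v : NN ad c) : ∀ i : ℕ, i < c → M i
  | 0, _ => 0
  | k + 1, h => ad k j (v ⟨k, Nat.lt_of_succ_lt h⟩)

/-- The action of the generator `j`. -/
def prX (j : Fin d) : Module.End o (NN ad c) where
  toFun v := fun i => shiftFun ad c j v i i.2
  map_add' v w := by
    funext ⟨i, hi⟩
    show shiftFun ad c j (v + w) i hi = shiftFun ad c j v i hi + shiftFun ad c j w i hi
    cases i with
    | zero => simp [shiftFun]
    | succ k =>
      show ad k j ((v + w) ⟨k, _⟩) = ad k j (v ⟨k, _⟩) + ad k j (w ⟨k, _⟩)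
      exact map_add _ _ _
  map_smul' a v := by
    funext ⟨i, hi⟩
    show shiftFun ad c j (a • v) i hi = a • shiftFun ad c j v i hi
    cases i with
    | zero => simp [shiftFun]
    | succ k =>
      show ad k j ((a • v) ⟨k, _⟩) = a • ad k j (v ⟨k, _⟩)
      exact map_smul _ _ _

/-- The acting ring. -/
abbrev RR (o : Type) [CommRing o] (c d : ℕ) : Type := FreeAlgebra o (Fin c ⊕ Fin d)

/-- The action. -/
noncomputable def rep : RR o c d →ₐ[o] Module.End o (NN ad c) :=
  FreeAlgebra.lift o (Sum.elim (prE ad c) (prX ad c))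

noncomputable instance : Module (RR o c d) (NN ad c) :=
  Module.compHom (NN ad c) (rep ad c).toRingHom

/-- Families of submodules stable under the maps of the tower. -/
def Clo (I : ∀ i : Fin c, Submodule o (M i)) : Prop :=
  ∀ (i : ℕ) (h : i + 1 < c), ∀ j : Fin d, ∀ x ∈ I ⟨i, Nat.lt_of_succ_lt h⟩,
    ad i j x ∈ I ⟨i + 1, h⟩

end graded

end Pool.Agent.TZ8
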