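import Pool.Agent.TZ8.FL
import Pool.Agent.TZ8.GDefs
import Pool.Agent.TZ.LC

set_option autoImplicit false

/-! Submodules of the module of a tower are closed families. -/

namespace Pool.Agent.TZ8

open Pool.Agent.TZ

section basic

variable {o : Type} [CommRing o] {d : ℕ} {M : ℕ → Type} [∀ i, AddCommGroup (M i)]
  [∀ i, Module o (M i)] (ad : ∀ i, Fin d → M i →ₗ[o] M (i + 1)) (c : ℕ)

theorem RR_smul_def (r : RR o c d) (v : NN ad c) : r • v = rep ad c r v := rfl

theorem algebraMap_smul' (a : o) (v : NN ad c) : algebraMap o (RR o c d) a • v = a • v := by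
  rw [RR_smul_def, AlgHom.commutes, Module.algebraMap_end_apply]

theorem iotaE_smul (k : Fin c) (v : NN ad c) :
    (FreeAlgebra.ι o (Sum.inl k : Fin c ⊕ Fin d) : RR o c d) • v = prE ad c k v := by
  rw [RR_smul_def, rep, FreeAlgebra.lift_ι_apply, Sum.elim_inl]

theorem iotaX_smul (j : Fin d) (v : NN ad c) :
    (FreeAlgebra.ι o (Sum.inr j : Fin c ⊕ Fin d) : RR o c d) • v = prX ad c j v := by
  rw [RR_smul_def, rep, FreeAlgebra.lift_ι_apply, Sum.elim_inr]

/-- An `o`-submodule stable under the operators is a submodule. -/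
theorem smul_mem_of_op (I : Submodule o (NN ad c)) (hE : ∀ k, ∀ v ∈ I, prE ad c k v ∈ I)
    (hX : ∀ j, ∀ v ∈ I, prX ad c j v ∈ I) (r : RR o c d) (v : NN ad c) (hv : v ∈ I) :
    r • v ∈ I := by
  induction r using FreeAlgebra.induction generalizing v with
  | grade0 a =>
    rw [algebraMap_smul']
    exact I.smul_mem a hv
  | grade1 x =>
    rcases x with k | j
    · rw [iotaE_smul]
      exact hE k v hv
    · rw [iotaX_smul]
      exact hX j v hv
  | mul a b iha ihb =>
    rw [mul_smul]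
    exact iha _ (ihb v hv)
  | add a b iha ihb =>
    rw [add_smul]
    exact I.add_mem (iha v hv) (ihb v hv)

/-- The vector concentrated in degree `i`. -/
def sgl (i : Fin c) : M i →ₗ[o] NN ad c := LinearMap.single o (fun i : Fin c => M i) i

variable {ad c}

theorem sgl_same (i : Fin c) (x : M i) : sgl ad c i x i = x :=
  Pi.single_eq_same (M := fun i : Fin c => M i) i x

theorem sgl_ne {i i' : Fin c} (h : i' ≠ i) (x : M i) : sgl ad c i x i' = 0 :=
  Pi.single_eq_of_ne (M := fun i : Fin c => M i) h x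

theorem prE_eq_sgl (k : Fin c) (v : NN ad c) : prE ad c k v = sgl ad c k (v k) := by
  funext i
  show (if i = k then v i else 0) = sgl ad c k (v k) i
  split_ifs with h
  · subst h
    exact (sgl_same (ad := ad) i (v i)).symm
  · exact (sgl_ne (ad := ad) h (v k)).symm

theorem sum_sgl (v : NN ad c) : ∑ i, sgl ad c i (v i) = v :=
  Finset.univ_sum_single (M := fun i : Fin c => M i) v

theorem prX_sgl (i : ℕ) (h : i + 1 < c) (j : Fin d) (x : M i) :
    prX ad c j (sgl ad c ⟨i, Nat.lt_of_succ_lt h⟩ x) = sgl ad c ⟨i + 1, h⟩ (ad i j x) := by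
  funext ⟨k, hk⟩
  show shiftFun ad c j (sgl ad c ⟨i, Nat.lt_of_succ_lt h⟩ x) k hk =
    sgl ad c ⟨i + 1, h⟩ (ad i j x) ⟨k, hk⟩
  cases k with
  | zero =>
    refine Eq.trans ?_ (sgl_ne (ad := ad) (i := ⟨i + 1, h⟩) (i' := ⟨0, hk⟩) ?_ (ad i j x)).symm
    · rfl
    · intro h0
      have := congrArg Fin.val h0
      simp at this
  | succ k =>
    show ad k j (sgl ad c ⟨i, Nat.lt_of_succ_lt h⟩ x ⟨k, Nat.lt_of_succ_lt hk⟩) = _
    by_cases hki : k = i
    · subst hki
      exact (congrArg (ad k j) (sgl_same (ad := ad) ⟨k, Nat.lt_of_succ_lt h⟩ x)).trans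
        (sgl_same (ad := ad) ⟨k + 1, h⟩ (ad k j x)).symm
    · have h1 : sgl ad c ⟨i, Nat.lt_of_succ_lt h⟩ x ⟨k, Nat.lt_of_succ_lt hk⟩ = 0 :=
        sgl_ne (ad := ad) (i := ⟨i, Nat.lt_of_succ_lt h⟩) (i' := ⟨k, Nat.lt_of_succ_lt hk⟩)
          (fun h0 => hki (congrArg Fin.val h0)) x
      have h2 : sgl ad c ⟨i + 1, h⟩ (ad i j x) ⟨k + 1, hk⟩ = 0 :=
        sgl_ne (ad := ad) (i := ⟨i + 1, h⟩) (i' := ⟨k + 1, hk⟩)
          (fun h0 => hki (Nat.succ_injective (congrArg Fin.val h0))) (ad i j x)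
      exact ((congrArg (ad k j) h1).trans (map_zero _)).trans h2.symm

/-- The submodule of a closed family. -/
def toS (I : ∀ i : Fin c, Submodule o (M i)) (hI : Clo ad c I) :
    Submodule (RR o c d) (NN ad c) where
  carrier := {v | ∀ i : Fin c, v i ∈ I i}
  add_mem' := fun {a b} ha hb i => (I i).add_mem (ha i) (hb i)
  zero_mem' := fun i => (I i).zero_mem
  smul_mem' := by
    intro r v hv
    let I' : Submodule o (NN ad c) :=
      { carrier := {v | ∀ i : Fin c, v i ∈ I i}
        add_mem' := fun {a b} ha hb i => (I i).add_mem (ha i) (hb i)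
        zero_mem' := fun i => (I i).zero_mem
        smul_mem' := fun a v hv i => (I i).smul_mem a (hv i) }
    refine smul_mem_of_op ad c I' ?_ ?_ r v hv
    · intro k w hw i
      show (if i = k then w i else 0) ∈ I i
      split_ifs
      · exact hw i
      · exact (I i).zero_mem
    · rintro j w hw ⟨i, hi⟩
      show shiftFun ad c j w i hi ∈ I ⟨i, hi⟩
      cases i with
      | zero => exact (I _).zero_mem
      | succ k => exact hI k hi j _ (hw _)

/-- The components of a submodule. -/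
def comp (V : Submodule (RR o c d) (NN ad c)) (i : Fin c) : Submodule o (M i) where
  carrier := {x | sgl ad c i x ∈ V}
  add_mem' := by
    intro a b ha hb
    show sgl ad c i (a + b) ∈ V
    rw [map_add]
    exact V.add_mem ha hb
  zero_mem' := by
    show sgl ad c i 0 ∈ V
    rw [map_zero]
    exact V.zero_mem
  smul_mem' := by
    intro a x hx
    show sgl ad c i (a • x) ∈ V
    rw [map_smul, ← algebraMap_smul']
    exact V.smul_mem _ hx

theorem mem_toS {I : ∀ i : Fin c, Submodule o (M i)} {hI : Clo ad c I} {v : NN ad c} :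
    v ∈ toS I hI ↔ ∀ i : Fin c, v i ∈ I i := Iff.rfl

theorem mem_comp {V : Submodule (RR o c d) (NN ad c)} {i : Fin c} {x : M i} :
    x ∈ comp V i ↔ sgl ad c i x ∈ V := Iff.rfl

theorem mem_iff_comp {V : Submodule (RR o c d) (NN ad c)} {v : NN ad c} :
    v ∈ V ↔ ∀ i : Fin c, v i ∈ comp V i := by
  constructor
  · intro hv i
    rw [mem_comp, ← prE_eq_sgl, ← iotaE_smul]
    exact V.smul_mem _ hv
  · intro hv
    rw [← sum_sgl v]
    exact V.sum_mem fun i _ => hv i

theorem comp_clo (V : Submodule (RR o c d) (NN ad c)) : Clo ad c (comp V) := by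
  intro i h j x hx
  rw [mem_comp, ← prX_sgl, ← iotaX_smul]
  exact V.smul_mem _ hx

theorem comp_toS (I : ∀ i : Fin c, Submodule o (M i)) (hI : Clo ad c I) (i : Fin c) :
    comp (toS I hI) i = I i := by
  ext x
  rw [mem_comp, mem_toS]
  constructor
  · intro h
    have := h i
    rwa [sgl_same] at this
  · intro h i'
    by_cases hi : i' = i
    · subst hi
      rwa [sgl_same]
    · rw [sgl_ne hi]
      exact (I i').zero_mem

theorem toS_comp (V : Submodule (RR o c d) (NN ad c)) : toS (comp V) (comp_clo V) = V := by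
  ext v
  rw [mem_toS, mem_iff_comp]

theorem comp_le_iff {V W : Submodule (RR o c d) (NN ad c)} :
    V ≤ W ↔ ∀ i, comp V i ≤ comp W i := by
  constructor
  · intro h i x hx
    exact h hx
  · intro h v hv
    rw [mem_iff_comp] at hv ⊢
    exact fun i => h i (hv i)

theorem comp_inj {V W : Submodule (RR o c d) (NN ad c)} (h : ∀ i, comp V i = comp W i) :
    V = W :=
  le_antisymm (comp_le_iff.2 fun i => (h i).le) (comp_le_iff.2 fun i => (h i).ge)

theorem comp_top (i : Fin c) : comp (⊤ : Submodule (RR o c d) (NN ad c)) i = ⊤ := by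
  ext x
  rw [mem_comp]
  exact ⟨fun _ => trivial, fun _ => trivial⟩

theorem comp_bot (i : Fin c) : comp (⊥ : Submodule (RR o c d) (NN ad c)) i = ⊥ := by
  ext x
  rw [mem_comp, Submodule.mem_bot, Submodule.mem_bot]
  constructor
  · intro h
    rw [← sgl_same (ad := ad) i x, h]
    rfl
  · rintro rfl
    rw [map_zero]

theorem comp_sup (V W : Submodule (RR o c d) (NN ad c)) (i : Fin c) :
    comp (V ⊔ W) i = comp V i ⊔ comp W i := by
  ext x
  rw [mem_comp, Submodule.mem_sup, Submodule.mem_sup]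
  constructor
  · rintro ⟨v, hv, w, hw, h⟩
    refine ⟨v i, mem_iff_comp.1 hv i, w i, mem_iff_comp.1 hw i, ?_⟩
    rw [← sgl_same (ad := ad) i x, ← h]
    rfl
  · rintro ⟨y, hy, z, hz, rfl⟩
    exact ⟨_, hy, _, hz, (map_add _ _ _).symm⟩

theorem natCast_pow_smul {A : Type} [AddCommGroup A] [Module o A] (p k : ℕ) (x : A) :
    (p : o) ^ k • x = (p ^ k : ℕ) • x := by
  rw [← Nat.cast_pow, Nat.cast_smul_eq_nsmul]

theorem mem_comp_pN {p k : ℕ} {i : Fin c} {x : M i} :
    x ∈ comp (pN (RR o c d) (NN ad c) p k) i ↔ ∃ y : M i, x = (p : o) ^ k • y := by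
  rw [mem_comp]
  constructor
  · rintro ⟨w, hw⟩
    refine ⟨w i, ?_⟩
    rw [← sgl_same (ad := ad) i x, ← hw, natCast_pow_smul]
    rfl
  · rintro ⟨y, rfl⟩
    refine ⟨sgl ad c i y, ?_⟩
    show p ^ k • sgl ad c i y = sgl ad c i ((p : o) ^ k • y)
    rw [natCast_pow_smul, map_nsmul]

theorem mem_comp_comap {p j : ℕ} {V : Submodule (RR o c d) (NN ad c)} {i : Fin c} {y : M i} :
    y ∈ comp (V.comap (mulp (RR o c d) (NN ad c) p j)) i ↔ (p : o) ^ j • y ∈ comp V i := by
  rw [mem_comp, mem_comp, Submodule.mem_comap, natCast_pow_smul, map_nsmul]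
  exact Iff.rfl

theorem mem_comp_fl {p : ℕ} {V : Submodule (RR o c d) (NN ad c)} {j : ℕ} {i : Fin c} {x : M i} :
    x ∈ comp (fl p V j) i ↔ ∃ y z : M i, x = y + (p : o) • z ∧ (p : o) ^ j • y ∈ comp V i := by
  rw [fl, comp_sup, Submodule.mem_sup]
  constructor
  · rintro ⟨y, hy, w, hw, rfl⟩
    obtain ⟨z, rfl⟩ := mem_comp_pN.1 hw
    exact ⟨y, z, by rw [pow_one], mem_comp_comap.1 hy⟩
  · rintro ⟨y, z, rfl, hy⟩
    exact ⟨y, mem_comp_comap.2 hy, (p : o) • z, mem_comp_pN.2 ⟨z, by rw [pow_one]⟩, rfl⟩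

end basic

section dvr

variable {o : Type} [CommRing o] [IsDomain o] [IsDiscreteValuationRing o] {p q : ℕ} {d : ℕ}
  {M : ℕ → Type} [∀ i, AddCommGroup (M i)] [∀ i, Module o (M i)]
  {ad : ∀ i, Fin d → M i →ₗ[o] M (i + 1)} {c : ℕ}

/-- All terms are free of finite rank. -/
structure Fre (o : Type) [CommRing o] (M : ℕ → Type) [∀ i, AddCommGroup (M i)]
    [∀ i, Module o (M i)] (c : ℕ) : Prop where
  free : ∀ i < c, Module.Free o (M i)
  fin : ∀ i < c, Module.Finite o (M i)

omit [IsDomain o] [IsDiscreteValuationRing o] in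
theorem finite_quot_of_comp (V : Submodule (RR o c d) (NN ad c))
    (hV : ∀ i : Fin c, Finite (M i ⧸ comp V i)) : Finite (NN ad c ⧸ V) := by
  refine Finite.of_injective
    (fun x : NN ad c ⧸ V => fun i : Fin c => (Submodule.Quotient.mk (x.out i) : M i ⧸ comp V i)) ?_
  intro x y hxy
  have h1 : x.out - y.out ∈ V := by
    rw [mem_iff_comp]
    intro i
    have := congrFun hxy i
    rw [Submodule.Quotient.eq] at this
    exact this
  rw [← Submodule.Quotient.eq] at h1
  have hx : (Submodule.Quotient.mk x.out : NN ad c ⧸ V) = x := Quotient.out_eq x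
  have hy : (Submodule.Quotient.mk y.out : NN ad c ⧸ V) = y := Quotient.out_eq y
  rw [← hx, ← hy, h1]

theorem nHyp (h : RingHyp o p q) (hM : Fre o M c) : NHyp (RR o c d) (NN ad c) p where
  prime := h.prime
  tf := by
    intro x hx
    funext i
    have hf := hM.free i i.2
    have h1 : (p : o) • x i = 0 := by
      rw [Nat.cast_smul_eq_nsmul]
      exact congrFun hx i
    exact (smul_eq_zero.1 h1).resolve_left h.irr.ne_zero
  fin := by
    refine finite_quot_of_comp _ fun i => ?_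
    have := hM.fin i i.2
    exact finite_quot_of_pow_mem h _ 1 fun x => mem_comp_pN.2 ⟨x, rfl⟩

theorem isLat_iff (h : RingHyp o p q) (hM : Fre o M c) (V : Submodule (RR o c d) (NN ad c)) :
    IsLat p V ↔ ∀ i : Fin c, Finite (M i ⧸ comp V i) := by
  constructor
  · rintro ⟨k, hk⟩ i
    have := hM.fin i i.2
    exact finite_quot_of_pow_mem h _ k fun x => comp_le_iff.1 hk i (mem_comp_pN.2 ⟨x, rfl⟩)
  · intro hV
    have h1 : ∀ i : Fin c, ∃ n : ℕ, ∀ x : M i, (p : o) ^ n • x ∈ comp V i := by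
      intro i
      have := hM.fin i i.2
      exact lat_pow_mem h _ (hV i)
    choose n hn using h1
    refine ⟨∑ i, n i, comp_le_iff.2 fun i x hx => ?_⟩
    obtain ⟨y, rfl⟩ := mem_comp_pN.1 hx
    have h2 : n i ≤ ∑ i, n i := Finset.single_le_sum (fun _ _ => Nat.zero_le _) (Finset.mem_univ i)
    rw [← Nat.sub_add_cancel h2, pow_add, mul_smul]
    exact (comp V i).smul_mem _ (hn i y)

/-- Graded tuples are lattices. -/
noncomputable def tupEquiv (h : RingHyp o p q) (hM : Fre o M c) :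
    Tup (c := c) ad ≃ LatR (RR o c d) (NN ad c) p where
  toFun I := ⟨toS (fun i => (I.1 i).1) I.2, (isLat_iff h hM _).2 (by
    intro i
    have h1 := comp_toS (ad := ad) (fun i => (I.1 i).1) I.2 i
    have h2 := (I.1 i).2
    exact h1.symm ▸ h2)⟩
  invFun V := ⟨fun i => ⟨comp V.1 i, (isLat_iff h hM _).1 V.2 i⟩, comp_clo V.1⟩
  left_inv I := by
    refine Subtype.ext (funext fun i => Subtype.ext ?_)
    exact comp_toS (fun i => (I.1 i).1) I.2 i
  right_inv V := by
    exact Subtype.ext (toS_comp V.1)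

end dvr

end Pool.Agent.TZ8
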