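import Pool.Agent.TZ8.GR1
import Pool.Agent.TZ.PR

set_option autoImplicit false
set_option linter.unusedSectionVars false

/-! Lengths and exponents in terms of the flag. -/

namespace Pool.Agent.TZ8

open Pool.Agent.TZ

namespace GR3

section one

variable {o : Type} [CommRing o] [IsDomain o] [IsDiscreteValuationRing o] {p q : ℕ}
  {M : Type} [AddCommGroup M] [Module o M]

/-- The flag of a submodule of one module. -/
def flo (p : ℕ) (L : Submodule o M) (j : ℕ) : Submodule o M :=
  L.comap (PR.mp o p M j) ⊔ LinearMap.range (PR.mp o p M 1)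

theorem mem_flo {L : Submodule o M} {j : ℕ} {x : M} :
    x ∈ flo p L j ↔ ∃ y z : M, x = y + (p : o) • z ∧ (p : o) ^ j • y ∈ L := by
  unfold flo
  rw [Submodule.mem_sup]
  constructor
  · rintro ⟨y, hy, w, ⟨z, hz⟩, hw⟩
    refine ⟨y, z, ?_, hy⟩
    rw [← hw, ← hz, PR.mp_apply, pow_one]
  · rintro ⟨y, z, hx, hy⟩
    refine ⟨y, hy, (p : o) • z, ⟨z, ?_⟩, hx.symm⟩
    rw [PR.mp_apply, pow_one]

theorem card_step (L : Submodule o M) :
    Nat.card (M ⧸ L) = Nat.card (M ⧸ L.comap (PR.mp o p M 1)) * Nat.card (M ⧸ flo p L 0) := by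
  have h0 : flo p L 0 = L ⊔ LinearMap.range (PR.mp o p M 1) := by
    unfold flo
    congr 1
    ext x
    rw [Submodule.mem_comap, PR.mp_apply, pow_zero, one_smul]
  rw [h0]
  rw [← Submodule.card_quotient_mul_card_quotient (L ⊔ LinearMap.range (PR.mp o p M 1)) L
    le_sup_left]
  congr 1
  let f : M →ₗ[o] M ⧸ L := L.mkQ.comp (PR.mp o p M 1)
  have hker : f.ker = L.comap (PR.mp o p M 1) := by
    show LinearMap.ker (L.mkQ.comp (PR.mp o p M 1)) = _
    rw [LinearMap.ker_comp, Submodule.ker_mkQ]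
  have hran : LinearMap.range f = (L ⊔ LinearMap.range (PR.mp o p M 1)).map L.mkQ := by
    show LinearMap.range (L.mkQ.comp (PR.mp o p M 1)) = _
    rw [LinearMap.range_comp, Submodule.map_sup, Submodule.mkQ_map_self, bot_sup_eq]
  rw [← hran, ← hker]
  exact (Nat.card_congr f.quotKerEquivRange.toEquiv).symm

variable [Module.Finite o M]

theorem len_step (h : RingHyp o p q) (L : Submodule o M) (hL : Finite (M ⧸ L))
    (h1 : Finite (M ⧸ L.comap (PR.mp o p M 1))) (h2 : Finite (M ⧸ flo p L 0)) :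
    len q L = len q (L.comap (PR.mp o p M 1)) + len q (flo p L 0) := by
  have e := card_step (p := p) L
  rw [card_quot h _ hL, card_quot h _ h1, card_quot h _ h2, ← pow_add] at e
  exact Nat.pow_right_injective h.one_lt e

theorem flo_succ (L : Submodule o M) (j : ℕ) :
    flo p L (j + 1) = flo p (L.comap (PR.mp o p M 1)) j := by
  unfold flo
  congr 1
  ext x
  rw [Submodule.mem_comap, Submodule.mem_comap, Submodule.mem_comap, PR.mp_apply, PR.mp_apply,
    PR.mp_apply, smul_smul, ← pow_add, Nat.add_comm 1 j]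

theorem fin_flo (h : RingHyp o p q) (L : Submodule o M) (j : ℕ) : Finite (M ⧸ flo p L j) := by
  refine finite_quot_of_pow_mem h _ 1 fun x => ?_
  rw [mem_flo]
  exact ⟨0, x, by rw [zero_add, pow_one], by rw [smul_zero]; exact L.zero_mem⟩

theorem len_eq_sum (h : RingHyp o p q) (K : ℕ) : ∀ L : Submodule o M,
    (∀ x : M, (p : o) ^ K • x ∈ L) → len q L = ∑ j ∈ Finset.range K, len q (flo p L j) := by
  induction K with
  | zero =>
    intro L hL
    have : L = ⊤ := by
      rw [eq_top_iff]
      intro x _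
      have := hL x
      rwa [pow_zero, one_smul] at this
    rw [this, Finset.range_zero, Finset.sum_empty]
    unfold len
    have hs : Nat.card (M ⧸ (⊤ : Submodule o M)) = 1 := by
      rw [Nat.card_eq_one_iff_unique]
      exact ⟨Submodule.Quotient.subsingleton_iff.2 rfl, ⟨0⟩⟩
    rw [hs, Nat.log_one_right]
  | succ K ih =>
    intro L hL
    have hL' : ∀ x : M, (p : o) ^ K • x ∈ L.comap (PR.mp o p M 1) := by
      intro x
      rw [Submodule.mem_comap, PR.mp_apply, smul_smul, ← pow_add, Nat.add_comm 1 K]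
      exact hL x
    have f1 : Finite (M ⧸ L) := finite_quot_of_pow_mem h L (K + 1) hL
    have f2 : Finite (M ⧸ L.comap (PR.mp o p M 1)) := finite_quot_of_pow_mem h _ K hL'
    rw [len_step h L f1 f2 (fin_flo h L 0), ih _ hL', Finset.sum_range_succ']
    simp only [flo_succ]

theorem flo_top (L : Submodule o M) (K : ℕ) (hL : ∀ x : M, (p : o) ^ K • x ∈ L) (j : ℕ)
    (hj : K ≤ j) : flo p L j = ⊤ := by
  rw [eq_top_iff]
  intro x _
  rw [mem_flo]
  refine ⟨x, 0, by rw [smul_zero, add_zero], ?_⟩
  rw [← Nat.sub_add_cancel hj, pow_add, mul_smul]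
  exact L.smul_mem _ (hL x)

theorem flo_mono (L : Submodule o M) {i j : ℕ} (hij : i ≤ j) : flo p L i ≤ flo p L j := by
  intro x hx
  rw [mem_flo] at hx ⊢
  obtain ⟨y, z, hx, hy⟩ := hx
  refine ⟨y, z, hx, ?_⟩
  rw [← Nat.sub_add_cancel hij, pow_add, mul_smul]
  exact L.smul_mem _ hy

theorem pow_mem_iff (L : Submodule o M) (K : ℕ) (hL : ∀ x : M, (p : o) ^ K • x ∈ L) (b : ℕ) :
    (∀ x : M, (p : o) ^ b • x ∈ L) ↔ flo p L b = ⊤ := by
  refine ⟨fun hb => flo_top L b hb b le_rfl, fun hb => ?_⟩
  have key : ∀ n j : ℕ, b ≤ j → K ≤ j + n → ∀ x : M, (p : o) ^ j • x ∈ L := by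
    intro n
    induction n with
    | zero =>
      intro j _ hj x
      rw [← Nat.sub_add_cancel (show K ≤ j by omega), pow_add, mul_smul]
      exact L.smul_mem _ (hL x)
    | succ n ih =>
      intro j hj hn x
      have hx : x ∈ flo p L j := flo_mono L hj (by rw [hb]; trivial)
      rw [mem_flo] at hx
      obtain ⟨y, z, rfl, hy⟩ := hx
      rw [smul_add, smul_smul, ← pow_succ]
      exact L.add_mem hy (ih (j + 1) (by omega) (by omega) z)
  exact key K b le_rfl (by omega)

theorem top_iff (h : RingHyp o p q) (L : Submodule o M) (hL : Finite (M ⧸ L)) :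
    L = ⊤ ↔ len q L = 0 := by
  have hc := card_quot h L hL
  constructor
  · intro hT
    have hs : Nat.card (M ⧸ L) = 1 := by
      rw [Nat.card_eq_one_iff_unique]
      exact ⟨Submodule.Quotient.subsingleton_iff.2 hT, ⟨0⟩⟩
    unfold len
    rw [hs, Nat.log_one_right]
  · intro h0
    rw [h0, pow_zero, Nat.card_eq_one_iff_unique] at hc
    exact Submodule.Quotient.subsingleton_iff.1 hc.1

end one

section two

variable {R : Type} [Ring R] {N : Type} [AddCommGroup N] [Module R N] {p : ℕ}

/-- Sums over the flag are sums over the layers. -/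
theorem sum_fl (hN : NHyp R N p) {I : Submodule R N} (hI : IsLat p I) (g : Submodule R N → ℕ)
    (hg : g ⊤ = 0) (K : ℕ) (hK : ∀ j, K ≤ j → fl p I j = ⊤) :
    ∑ j ∈ Finset.range K, g (fl p I j) = ∑ᶠ V : Lay R N p, lay p I V * g V.1 := by
  classical
  have := finite_lay hN
  have : Fintype (Lay R N p) := Fintype.ofFinite _
  rw [finsum_eq_sum_of_fintype]
  have hlay : ∀ V : Lay R N p, lay p I V =
      ((Finset.range K).filter fun j => fl p I j = V.1).card := by
    intro V
    unfold lay
    refine Nat.subtype_card _ fun j => ?_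
    rw [Finset.mem_filter, Finset.mem_range]
    constructor
    · exact fun h => h.2
    · intro h
      refine ⟨?_, h⟩
      by_contra hj
      exact V.2.2 (h.symm.trans (hK j (by omega)))
  have hsum : ∀ j ∈ Finset.range K, g (fl p I j) =
      ∑ V : Lay R N p, if fl p I j = V.1 then g V.1 else 0 := by
    intro j _
    by_cases ht : fl p I j = ⊤
    · rw [ht, hg]
      symm
      refine Finset.sum_eq_zero fun V _ => ?_
      rw [if_neg (fun h => V.2.2 h.symm)]
    · have hV : pN R N p 1 ≤ fl p I j ∧ fl p I j ≠ ⊤ := ⟨pN_le_fl I j, ht⟩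
      rw [Finset.sum_eq_single (⟨fl p I j, hV⟩ : Lay R N p)]
      · rw [if_pos rfl]
      · intro V _ hne
        rw [if_neg]
        intro h
        exact hne (Subtype.ext h.symm)
      · intro h
        exact absurd (Finset.mem_univ _) h
  rw [Finset.sum_congr rfl hsum, Finset.sum_comm]
  refine Finset.sum_congr rfl fun V _ => ?_
  rw [hlay V, ← Finset.sum_filter, Finset.sum_const, smul_eq_mul]

end two

end GR3

variable {o : Type} [CommRing o] [IsDomain o] [IsDiscreteValuationRing o] {p q : ℕ} {d : ℕ}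
  {M : ℕ → Type} [∀ i, AddCommGroup (M i)] [∀ i, Module o (M i)]
  {ad : ∀ i, Fin d → M i →ₗ[o] M (i + 1)} {c : ℕ}

theorem GR3.comp_fl (I : Submodule (RR o c d) (NN ad c)) (j : ℕ) (i : Fin c) :
    comp (fl p I j) i = GR3.flo p (comp I i) j := by
  ext x
  rw [mem_comp_fl, GR3.mem_flo]

theorem GR3.pow_mem {I : Submodule (RR o c d) (NN ad c)} {K : ℕ}
    (hK : pN (RR o c d) (NN ad c) p K ≤ I) (i : Fin c) (x : M i) :
    (p : o) ^ K • x ∈ comp I i := by
  have h1 : (p : o) ^ K • x ∈ comp (pN (RR o c d) (NN ad c) p K) i :=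
    mem_comp_pN.2 ⟨x, rfl⟩
  exact comp_le_iff.1 hK i h1

theorem GR3.fl_top {I : Submodule (RR o c d) (NN ad c)} {K : ℕ} (hN : NHyp (RR o c d) (NN ad c) p)
    (hI : IsLat p I) (hK : pN (RR o c d) (NN ad c) p K ≤ I) (j : ℕ) (hj : K ≤ j) :
    fl p I j = ⊤ :=
  (fl_eq_top_iff hN hI j).2 ((pN_anti hj).trans hK)

/-- The colength in degree `i` is the sum of the codimensions of the layers. -/
theorem len_comp (h : RingHyp o p q) (hM : Fre o M c) {I : Submodule (RR o c d) (NN ad c)}
    (hI : IsLat p I) (i : Fin c) :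
    len q (comp I i) = ∑ᶠ V : Lay (RR o c d) (NN ad c) p, lay p I V * len q (comp V.1 i) := by
  have hN : NHyp (RR o c d) (NN ad c) p := nHyp h hM
  have := hM.fin i i.2
  obtain ⟨K, hK⟩ := hI
  have hI : IsLat p I := ⟨K, hK⟩
  rw [← GR3.sum_fl hN hI (fun V => len q (comp V i)) ?_ K (GR3.fl_top hN hI hK)]
  · rw [GR3.len_eq_sum h K (comp I i) (GR3.pow_mem hK i)]
    simp only [GR3.comp_fl]
  · rw [comp_top]
    exact (GR3.top_iff h ⊤ inferInstance).1 rfl

theorem comp_ne_top_iff (h : RingHyp o p q) (hM : Fre o M c)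
    (V : Submodule (RR o c d) (NN ad c)) (hV : pN (RR o c d) (NN ad c) p 1 ≤ V) (i : Fin c) :
    comp V i = ⊤ ↔ len q (comp V i) = 0 := by
  have := hM.fin i i.2
  exact GR3.top_iff h _ (finite_quot_of_pow_mem h _ 1 (GR3.pow_mem hV i))

open Classical in
/-- The exponent in degree `i` is the number of layers which are not everything in degree `i`. -/
theorem exp_comp (h : RingHyp o p q) (hM : Fre o M c) {I : Submodule (RR o c d) (NN ad c)}
    (hI : IsLat p I) (i : Fin c) (b : ℕ) :
    (∀ x : M i, (p : o) ^ b • x ∈ comp I i) ↔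
      ∑ᶠ V : Lay (RR o c d) (NN ad c) p, lay p I V * (if comp V.1 i = ⊤ then 0 else 1) ≤ b := by
  have hN : NHyp (RR o c d) (NN ad c) p := nHyp h hM
  have := hM.fin i i.2
  obtain ⟨K, hK⟩ := hI
  have hI : IsLat p I := ⟨K, hK⟩
  rw [← GR3.sum_fl hN hI (fun V => if comp V i = ⊤ then 0 else 1) (if_pos (comp_top i)) K
    (GR3.fl_top hN hI hK)]
  rw [GR3.pow_mem_iff _ K (GR3.pow_mem hK i) b]
  simp only [GR3.comp_fl]
  have h1 : ∑ j ∈ Finset.range K, (if GR3.flo p (comp I i) j = ⊤ then 0 else 1) =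
      ((Finset.range K).filter fun j => ¬ GR3.flo p (comp I i) j = ⊤).card := by
    rw [Finset.card_filter]
    refine Finset.sum_congr rfl fun j _ => ?_
    split_ifs <;> simp_all
  rw [h1]
  constructor
  · intro hb
    have hsub : ((Finset.range K).filter fun j => ¬ GR3.flo p (comp I i) j = ⊤) ⊆
        Finset.range b := by
      intro j hj
      rw [Finset.mem_filter] at hj
      rw [Finset.mem_range]
      by_contra hjb
      apply hj.2
      rw [eq_top_iff, ← hb]
      exact GR3.flo_mono _ (by omega)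
    have := Finset.card_le_card hsub
    rwa [Finset.card_range] at this
  · intro hle
    by_contra hb
    have hbK : b < K := by
      by_contra hbK
      exact hb (GR3.flo_top _ K (GR3.pow_mem hK i) b (by omega))
    have hsub : Finset.range (b + 1) ⊆
        ((Finset.range K).filter fun j => ¬ GR3.flo p (comp I i) j = ⊤) := by
      intro j hj
      rw [Finset.mem_range] at hj
      rw [Finset.mem_filter, Finset.mem_range]
      refine ⟨by omega, fun ht => hb ?_⟩
      rw [eq_top_iff, ← ht]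
      exact GR3.flo_mono _ (by omega)
    have := Finset.card_le_card hsub
    rw [Finset.card_range] at this
    omega

/-- Ranks: the codimension of `pN` is the rank. -/
theorem len_comp_pN (h : RingHyp o p q) (hM : Fre o M c) (i : Fin c) :
    len q (comp (pN (RR o c d) (NN ad c) p 1) i) = Module.finrank o (M i) := by
  have := hM.fin i i.2
  have := hM.free i i.2
  have h1 : comp (pN (RR o c d) (NN ad c) p 1) i = LinearMap.range (PR.mp o p (M i) 1) := by
    ext x
    rw [mem_comp_pN, LinearMap.mem_range]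
    constructor
    · rintro ⟨y, hy⟩
      exact ⟨y, hy.symm⟩
    · rintro ⟨y, hy⟩
      exact ⟨y, hy.symm⟩
  have h2 := PR.index_p (M := M i) h
  have h3 : Nat.card (M i ⧸ LinearMap.range (PR.mp o p (M i) 1)) = q ^ Module.finrank o (M i) := h2
  rw [h1]
  unfold len
  rw [h3, Nat.log_pow h.one_lt]

end Pool.Agent.TZ8
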