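import Pool.Agent.TZ8.GEN
import Pool.Agent.TZ8.GR1
import Pool.Agent.TZ8.GR3
import Pool.Agent.TZ8.EXPO

set_option autoImplicit false

/-! The zeta functions of a tower in terms of lattices and in terms of tuples. -/

namespace Pool.Agent.TZ8

open Pool.Agent.TZ

variable {o : Type} [CommRing o] [IsDomain o] [IsDiscreteValuationRing o] {p q : ℕ} {d : ℕ}
  {M : ℕ → Type} [∀ i, AddCommGroup (M i)] [∀ i, Module o (M i)]
  {ad : ∀ i, Fin d → M i →ₗ[o] M (i + 1)} {c : ℕ}

open Classical in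
/-- The weight of a layer: the total codimension, plus `r` if the layer is not everything in
degree `0`. -/
noncomputable def nuR (q r : ℕ) (hc : 0 < c) (V : Lay (RR o c d) (NN ad c) p) : ℕ :=
  ∑ i : Fin c, len q (comp V.1 i) + r * (if comp V.1 ⟨0, hc⟩ = ⊤ then 0 else 1)

theorem nuR_pos (h : RingHyp o p q) (hM : Fre o M c) (r : ℕ) (hc : 0 < c)
    (V : Lay (RR o c d) (NN ad c) p) : 0 < nuR q r hc V := by
  classical
  have h1 : ∃ i : Fin c, comp V.1 i ≠ ⊤ := by
    by_contra hcon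
    push Not at hcon
    exact V.2.2 (comp_inj fun i => by rw [hcon i, comp_top])
  obtain ⟨i, hi⟩ := h1
  have h2 : len q (comp V.1 i) ≠ 0 := fun h0 => hi ((comp_ne_top_iff h hM V.1 V.2.1 i).2 h0)
  have h3 : len q (comp V.1 i) ≤ ∑ i : Fin c, len q (comp V.1 i) :=
    Finset.single_le_sum (f := fun i : Fin c => len q (comp V.1 i)) (fun _ _ => Nat.zero_le _)
      (Finset.mem_univ i)
  unfold nuR
  omega

theorem sum_nuR (h : RingHyp o p q) (hM : Fre o M c) (r : ℕ) (hc : 0 < c)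
    {I : Submodule (RR o c d) (NN ad c)} (hI : IsLat p I) :
    ∑ᶠ V : Lay (RR o c d) (NN ad c) p, lay p I V * nuR q r hc V =
      ∑ i : Fin c, len q (comp I i) + r * expo p (comp I ⟨0, hc⟩) := by
  classical
  have hN : NHyp (RR o c d) (NN ad c) p := nHyp h hM
  have := finite_lay hN
  have : Fintype (Lay (RR o c d) (NN ad c) p) := Fintype.ofFinite _
  have hexp : expo p (comp I ⟨0, hc⟩) =
      ∑ᶠ V : Lay (RR o c d) (NN ad c) p, lay p I V * (if comp V.1 ⟨0, hc⟩ = ⊤ then 0 else 1) := by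
    have h1 : {b : ℕ | ∀ x : M (⟨0, hc⟩ : Fin c), (p : o) ^ b • x ∈ comp I ⟨0, hc⟩} =
        Set.Ici (∑ᶠ V : Lay (RR o c d) (NN ad c) p,
          lay p I V * (if comp V.1 ⟨0, hc⟩ = ⊤ then 0 else 1)) := by
      ext b
      rw [Set.mem_ofPred_eq, Set.mem_Ici]
      exact exp_comp h hM hI ⟨0, hc⟩ b
    unfold expo
    rw [h1]
    exact csInf_Ici
  rw [hexp, finsum_eq_sum_of_fintype, finsum_eq_sum_of_fintype]
  have hl : ∀ i : Fin c, len q (comp I i) =
      ∑ V : Lay (RR o c d) (NN ad c) p, lay p I V * len q (comp V.1 i) := by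
    intro i
    rw [len_comp h hM hI i, finsum_eq_sum_of_fintype]
  rw [Finset.sum_congr rfl fun i _ => hl i, Finset.sum_comm, Finset.mul_sum,
    ← Finset.sum_add_distrib]
  refine Finset.sum_congr rfl fun V _ => ?_
  unfold nuR
  rw [mul_add, Finset.mul_sum, mul_left_comm]

theorem lgs_nuR (h : RingHyp o p q) (hM : Fre o M c) (hc : 0 < c)
    (P : (Lay (RR o c d) (NN ad c) p → ℕ) → Prop) (r : ℕ) :
    lgs p P (nuR q r hc) =
      gf (fun I : {I : Tup (c := c) ad // P (lay p (tupEquiv h hM I).1)} =>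
        ∑ i : Fin c, len q (I.1.1 i).1 + r * expo p (I.1.1 ⟨0, hc⟩).1) := by
  classical
  ext n
  unfold lgs gf
  rw [PowerSeries.coeff_mk, PowerSeries.coeff_mk]
  symm
  have hcomp : ∀ (I : Tup (c := c) ad) (i : Fin c),
      comp (tupEquiv h hM I).1 i = (I.1 i).1 := fun I i =>
    comp_toS (fun i => (I.1 i).1) I.2 i
  have hw : ∀ I : Tup (c := c) ad,
      ∑ᶠ V, lay p (tupEquiv h hM I).1 V * nuR q r hc V =
        ∑ i : Fin c, len q (I.1 i).1 + r * expo p (I.1 ⟨0, hc⟩).1 := by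
    intro I
    rw [sum_nuR h hM r hc (tupEquiv h hM I).2, hcomp]
    exact congrArg (· + _) (Finset.sum_congr rfl fun i _ => by rw [hcomp])
  refine congrArg Nat.cast (Nat.card_congr ?_)
  exact
    { toFun := fun I => ⟨(tupEquiv h hM I.1.1).1, (tupEquiv h hM I.1.1).2, I.1.2,
        (hw I.1.1).trans I.2⟩
      invFun := fun J => ⟨⟨(tupEquiv h hM).symm ⟨J.1, J.2.1⟩, by
        rw [Equiv.apply_symm_apply]; exact J.2.2.1⟩, by
        show ∑ i : Fin c, len q (((tupEquiv h hM).symm ⟨J.1, J.2.1⟩).1 i).1 +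
          r * expo p (((tupEquiv h hM).symm ⟨J.1, J.2.1⟩).1 ⟨0, hc⟩).1 = n
        rw [← hw, Equiv.apply_symm_apply]
        exact J.2.2.2⟩
      left_inv := by
        rintro ⟨⟨I, hI⟩, hn⟩
        refine Subtype.ext (Subtype.ext ?_)
        exact (tupEquiv h hM).symm_apply_apply I
      right_inv := by
        rintro ⟨J, hJ⟩
        refine Subtype.ext ?_
        show (tupEquiv h hM ((tupEquiv h hM).symm ⟨J, hJ.1⟩)).1 = J
        rw [Equiv.apply_symm_apply] }

/-- The submodule `p N` is the reduction of a saturated submodule. -/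
theorem sat_pN {R : Type} [Ring R] {N : Type} [AddCommGroup N] [Module R N]
    (hN : NHyp R N p) : ∃ U : Submodule R N, (∀ x : N, p • x ∈ U → x ∈ U) ∧
      U ⊔ pN R N p 1 = pN R N p 1 := by
  refine ⟨⊥, fun x hx => ?_, bot_sup_eq _⟩
  rw [Submodule.mem_bot] at hx ⊢
  exact hN.tf x hx

theorem rig_pN {R : Type} [Ring R] {N : Type} [AddCommGroup N] [Module R N]
    (V' : Submodule R N) : Rig p (pN R N p 1) V' := by
  intro f hf x
  exact hf x x.2

end Pool.Agent.TZ8
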