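import Pool.Agent.TZ8.VDefs

set_option autoImplicit false

/-! The actions of `GL(F)` and `GL(V)` on the standard model. -/

namespace Pool.Agent.TZ8

open Pool.Agent.TZ

section act

variable {o : Type} [CommRing o] {a b : ℕ}

theorem G8_apply' (g : Matrix (Fin b) (Fin b) o) (x : A8 o a b) :
    G8 g x = (x.1, (g.mulVec x.2.1, g.mulVec x.2.2)) := rfl

theorem G7_apply' (g : Matrix (Fin b) (Fin b) o) (x : A7 o a b) :
    G7 g x = (x.1, g.mulVec x.2) := rfl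

theorem H7_apply' (h : Matrix (Fin 2) (Fin 2) o) (x : A7 o a b) :
    H7 h x = ((h 0 0 • x.1.1 + h 0 1 • x.1.2, h 1 0 • x.1.1 + h 1 1 • x.1.2), x.2) := rfl

theorem HS_apply' (h : Matrix (Fin 2) (Fin 2) o) (t : S8 o a) :
    HS h t = ((h 0 0 * h 0 0) • t.1 + (h 0 0 * h 0 1) • t.2.1 + (h 0 1 * h 0 1) • t.2.2,
      (2 * h 0 0 * h 1 0) • t.1 + (h 0 0 * h 1 1 + h 1 0 * h 0 1) • t.2.1 +
        (2 * h 0 1 * h 1 1) • t.2.2,
      (h 1 0 * h 1 0) • t.1 + (h 1 0 * h 1 1) • t.2.1 + (h 1 1 * h 1 1) • t.2.2) := rfl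

theorem HQ_apply' (h : Matrix (Fin 2) (Fin 2) o) (z : Q8 o b) :
    HQ h z = (h 0 0 • z.1 + h 0 1 • z.2, h 1 0 • z.1 + h 1 1 • z.2) := rfl

theorem H8_apply' (h : Matrix (Fin 2) (Fin 2) o) (x : A8 o a b) :
    H8 h x = (HS h x.1, HQ h x.2) := rfl

theorem G8_one : (G8 (1 : Matrix (Fin b) (Fin b) o) : A8 o a b →ₗ[o] A8 o a b) =
    LinearMap.id := by
  refine LinearMap.ext fun x => ?_
  rw [G8_apply', Matrix.one_mulVec, Matrix.one_mulVec]
  rfl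

theorem G8_mul (g g' : Matrix (Fin b) (Fin b) o) :
    (G8 (g * g') : A8 o a b →ₗ[o] A8 o a b) = G8 g ∘ₗ G8 g' := by
  refine LinearMap.ext fun x => ?_
  rw [LinearMap.comp_apply, G8_apply', G8_apply', G8_apply', Matrix.mulVec_mulVec,
    Matrix.mulVec_mulVec]

theorem G7_one : (G7 (1 : Matrix (Fin b) (Fin b) o) : A7 o a b →ₗ[o] A7 o a b) =
    LinearMap.id := by
  refine LinearMap.ext fun x => ?_
  rw [G7_apply', Matrix.one_mulVec]
  rfl

theorem G7_mul (g g' : Matrix (Fin b) (Fin b) o) :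
    (G7 (g * g') : A7 o a b →ₗ[o] A7 o a b) = G7 g ∘ₗ G7 g' := by
  refine LinearMap.ext fun x => ?_
  rw [LinearMap.comp_apply, G7_apply', G7_apply', G7_apply', Matrix.mulVec_mulVec]

theorem one_val : ((1 : Matrix (Fin 2) (Fin 2) o) 0 0 = 1 ∧ (1 : Matrix (Fin 2) (Fin 2) o) 0 1 = 0) ∧
    ((1 : Matrix (Fin 2) (Fin 2) o) 1 0 = 0 ∧ (1 : Matrix (Fin 2) (Fin 2) o) 1 1 = 1) := by
  refine ⟨⟨?_, ?_⟩, ?_, ?_⟩ <;> simp

theorem mul_val (g g' : Matrix (Fin 2) (Fin 2) o) (i j : Fin 2) :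
    (g * g') i j = g i 0 * g' 0 j + g i 1 * g' 1 j := by
  rw [Matrix.mul_apply, Fin.sum_univ_two]

theorem H8_one : (H8 (1 : Matrix (Fin 2) (Fin 2) o) : A8 o a b →ₗ[o] A8 o a b) =
    LinearMap.id := by
  obtain ⟨⟨h1, h2⟩, h3, h4⟩ := one_val (o := o)
  refine LinearMap.ext fun x => ?_
  rw [H8_apply', HS_apply', HQ_apply', h1, h2, h3, h4]
  refine Prod.ext (Prod.ext ?_ (Prod.ext ?_ ?_)) (Prod.ext ?_ ?_) <;>
    simp only [LinearMap.id_apply] <;> module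

theorem H8_mul (g g' : Matrix (Fin 2) (Fin 2) o) :
    (H8 (g * g') : A8 o a b →ₗ[o] A8 o a b) = H8 g ∘ₗ H8 g' := by
  refine LinearMap.ext fun x => ?_
  rw [LinearMap.comp_apply, H8_apply', H8_apply', H8_apply', HS_apply', HQ_apply', HS_apply',
    HQ_apply', HS_apply', HQ_apply']
  simp only [mul_val]
  refine Prod.ext (Prod.ext ?_ (Prod.ext ?_ ?_)) (Prod.ext ?_ ?_) <;> dsimp only <;> module

theorem H7_one : (H7 (1 : Matrix (Fin 2) (Fin 2) o) : A7 o a b →ₗ[o] A7 o a b) =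
    LinearMap.id := by
  obtain ⟨⟨h1, h2⟩, h3, h4⟩ := one_val (o := o)
  refine LinearMap.ext fun x => ?_
  rw [H7_apply', h1, h2, h3, h4]
  refine Prod.ext (Prod.ext ?_ ?_) ?_ <;> simp only [LinearMap.id_apply] <;> module

theorem H7_mul (g g' : Matrix (Fin 2) (Fin 2) o) :
    (H7 (g * g') : A7 o a b →ₗ[o] A7 o a b) = H7 g ∘ₗ H7 g' := by
  refine LinearMap.ext fun x => ?_
  rw [LinearMap.comp_apply, H7_apply', H7_apply', H7_apply']
  simp only [mul_val]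
  refine Prod.ext (Prod.ext ?_ ?_) rfl <;> dsimp only <;> module

theorem G8_adV (g : Matrix (Fin b) (Fin b) o) (j : Fin 2) (x : A7 o a b) :
    G8 g (adV j x) = adV j (G7 g x) := by
  fin_cases j
  · show G8 g (adV 0 x) = adV 0 (G7 g x)
    rw [adV_zero, adV_zero, G8_apply', G7_apply', Matrix.mulVec_zero]
  · show G8 g (adV 1 x) = adV 1 (G7 g x)
    rw [adV_one, adV_one, G8_apply', G7_apply', Matrix.mulVec_zero]

theorem H8_adV (g : Matrix (Fin 2) (Fin 2) o) (j : Fin 2) (x : A7 o a b) :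
    H8 g (adV j x) = g 0 j • adV 0 (H7 g x) + g 1 j • adV 1 (H7 g x) := by
  rw [adV_zero, adV_one, H7_apply']
  fin_cases j
  · show H8 g (adV 0 x) = g 0 0 • _ + g 1 0 • _
    rw [adV_zero, H8_apply', HS_apply', HQ_apply']
    refine Prod.ext (Prod.ext ?_ (Prod.ext ?_ ?_)) (Prod.ext ?_ ?_) <;>
      simp only [Prod.fst_add, Prod.snd_add, Prod.smul_fst, Prod.smul_snd] <;> module
  · show H8 g (adV 1 x) = g 0 1 • _ + g 1 1 • _
    rw [adV_one, H8_apply', HS_apply', HQ_apply']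
    refine Prod.ext (Prod.ext ?_ (Prod.ext ?_ ?_)) (Prod.ext ?_ ?_) <;>
      simp only [Prod.fst_add, Prod.snd_add, Prod.smul_fst, Prod.smul_snd] <;> module

theorem G8_H8 (g : Matrix (Fin b) (Fin b) o) (k : Matrix (Fin 2) (Fin 2) o) (x : A8 o a b) :
    G8 g (H8 k x) = H8 k (G8 g x) := by
  rw [G8_apply', G8_apply', H8_apply', H8_apply', HQ_apply', HQ_apply']
  simp only [Matrix.mulVec_add, Matrix.mulVec_smul]

theorem mem_map_iff {M : Type} [AddCommGroup M] [Module o M] {f f' : M →ₗ[o] M}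
    (h1 : f ∘ₗ f' = LinearMap.id) (h2 : f' ∘ₗ f = LinearMap.id) (L : Submodule o M) (x : M) :
    x ∈ L.map f ↔ f' x ∈ L := by
  constructor
  · rintro ⟨y, hy, rfl⟩
    have := LinearMap.congr_fun h2 y
    rw [LinearMap.comp_apply, LinearMap.id_apply] at this
    rw [this]
    exact hy
  · intro hx
    refine ⟨f' x, hx, ?_⟩
    have := LinearMap.congr_fun h1 x
    rw [LinearMap.comp_apply, LinearMap.id_apply] at this
    exact this

theorem mem_map_G8 (g : (Matrix (Fin b) (Fin b) o)ˣ) (L : Submodule o (A8 o a b)) (x : A8 o a b) :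
    x ∈ L.map (G8 (g : Matrix (Fin b) (Fin b) o)) ↔
      G8 ((g⁻¹ : (Matrix (Fin b) (Fin b) o)ˣ) : Matrix (Fin b) (Fin b) o) x ∈ L := by
  refine mem_map_iff ?_ ?_ L x
  · rw [← G8_mul, Units.mul_inv, G8_one]
  · rw [← G8_mul, Units.inv_mul, G8_one]

theorem mem_map_G7 (g : (Matrix (Fin b) (Fin b) o)ˣ) (L : Submodule o (A7 o a b)) (x : A7 o a b) :
    x ∈ L.map (G7 (g : Matrix (Fin b) (Fin b) o)) ↔
      G7 ((g⁻¹ : (Matrix (Fin b) (Fin b) o)ˣ) : Matrix (Fin b) (Fin b) o) x ∈ L := by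
  refine mem_map_iff ?_ ?_ L x
  · rw [← G7_mul, Units.mul_inv, G7_one]
  · rw [← G7_mul, Units.inv_mul, G7_one]

theorem mem_map_H8 (g : (Matrix (Fin 2) (Fin 2) o)ˣ) (L : Submodule o (A8 o a b)) (x : A8 o a b) :
    x ∈ L.map (H8 (g : Matrix (Fin 2) (Fin 2) o)) ↔
      H8 ((g⁻¹ : (Matrix (Fin 2) (Fin 2) o)ˣ) : Matrix (Fin 2) (Fin 2) o) x ∈ L := by
  refine mem_map_iff ?_ ?_ L x
  · rw [← H8_mul, Units.mul_inv, H8_one]
  · rw [← H8_mul, Units.inv_mul, H8_one]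

theorem mem_map_H7 (g : (Matrix (Fin 2) (Fin 2) o)ˣ) (L : Submodule o (A7 o a b)) (x : A7 o a b) :
    x ∈ L.map (H7 (g : Matrix (Fin 2) (Fin 2) o)) ↔
      H7 ((g⁻¹ : (Matrix (Fin 2) (Fin 2) o)ˣ) : Matrix (Fin 2) (Fin 2) o) x ∈ L := by
  refine mem_map_iff ?_ ?_ L x
  · rw [← H7_mul, Units.mul_inv, H7_one]
  · rw [← H7_mul, Units.inv_mul, H7_one]

theorem mem_vcol' (L : Submodule o (A8 o a b)) (x : A7 o a b) :
    x ∈ vcol L ↔ adV 0 x ∈ L ∧ adV 1 x ∈ L := Iff.rfl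

/-- Compatibility with the colon submodule. -/
theorem vcol_G8 (g : (Matrix (Fin b) (Fin b) o)ˣ) (L : Submodule o (A8 o a b)) :
    vcol (L.map (G8 (g : Matrix (Fin b) (Fin b) o))) =
      (vcol L).map (G7 (g : Matrix (Fin b) (Fin b) o)) := by
  ext x
  rw [mem_vcol', mem_map_G8, mem_map_G8, mem_map_G7, mem_vcol', G8_adV, G8_adV]

theorem vcol_H8 (g : (Matrix (Fin 2) (Fin 2) o)ˣ) (L : Submodule o (A8 o a b)) :
    vcol (L.map (H8 (g : Matrix (Fin 2) (Fin 2) o))) =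
      (vcol L).map (H7 (g : Matrix (Fin 2) (Fin 2) o)) := by
  ext x
  rw [mem_vcol', mem_map_H8, mem_map_H8, mem_map_H7, mem_vcol', H8_adV, H8_adV]
  set k : Matrix (Fin 2) (Fin 2) o := ((g⁻¹ : (Matrix (Fin 2) (Fin 2) o)ˣ) :
    Matrix (Fin 2) (Fin 2) o) with hk
  set m : Matrix (Fin 2) (Fin 2) o := (g : Matrix (Fin 2) (Fin 2) o) with hm
  have hkm : k * m = 1 := Units.inv_mul g
  obtain ⟨⟨h1, h2⟩, h3, h4⟩ := one_val (o := o)
  rw [← hkm, mul_val] at h1 h2 h3 h4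
  generalize adV 0 (H7 k x) = u
  generalize adV 1 (H7 k x) = w
  constructor
  · rintro ⟨hu, hw⟩
    constructor
    · have h := L.add_mem (L.smul_mem (m 0 0) hu) (L.smul_mem (m 1 0) hw)
      have e : m 0 0 • (k 0 0 • u + k 1 0 • w) + m 1 0 • (k 0 1 • u + k 1 1 • w) =
          (k 0 0 * m 0 0 + k 0 1 * m 1 0) • u + (k 1 0 * m 0 0 + k 1 1 * m 1 0) • w := by
        module
      rw [e, h1, h3, one_smul, zero_smul, add_zero] at h
      exact h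
    · have h := L.add_mem (L.smul_mem (m 0 1) hu) (L.smul_mem (m 1 1) hw)
      have e : m 0 1 • (k 0 0 • u + k 1 0 • w) + m 1 1 • (k 0 1 • u + k 1 1 • w) =
          (k 0 0 * m 0 1 + k 0 1 * m 1 1) • u + (k 1 0 * m 0 1 + k 1 1 * m 1 1) • w := by
        module
      rw [e, h2, h4, one_smul, zero_smul, zero_add] at h
      exact h
  · rintro ⟨hu, hw⟩
    exact ⟨L.add_mem (L.smul_mem _ hu) (L.smul_mem _ hw),
      L.add_mem (L.smul_mem _ hu) (L.smul_mem _ hw)⟩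

theorem G8_cong (p n : ℕ) (X : Matrix (Fin b) (Fin b) o) (x : A8 o a b) :
    ∃ y, G8 (1 + (p : o) ^ n • X) x = x + (p : o) ^ n • y := by
  refine ⟨(0, (X.mulVec x.2.1, X.mulVec x.2.2)), ?_⟩
  rw [G8_apply', Matrix.add_mulVec, Matrix.add_mulVec, Matrix.one_mulVec, Matrix.one_mulVec,
    Matrix.smul_mulVec, Matrix.smul_mulVec]
  refine Prod.ext ?_ rfl
  simp

theorem H8_cong (p n : ℕ) (X : Matrix (Fin 2) (Fin 2) o) (x : A8 o a b) :
    ∃ y, H8 (1 + (p : o) ^ n • X) x = x + (p : o) ^ n • y := by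
  generalize (p : o) ^ n = P
  obtain ⟨⟨h1, h2⟩, h3, h4⟩ := one_val (o := o)
  refine ⟨(((2 * X 0 0 + P * (X 0 0 * X 0 0)) • x.1.1 + ((1 + P * X 0 0) * X 0 1) • x.1.2.1 +
      (P * (X 0 1 * X 0 1)) • x.1.2.2,
    (2 * (1 + P * X 0 0) * X 1 0) • x.1.1 +
      (X 0 0 + X 1 1 + P * (X 0 0 * X 1 1) + P * (X 1 0 * X 0 1)) • x.1.2.1 +
      (2 * X 0 1 * (1 + P * X 1 1)) • x.1.2.2,
    (P * (X 1 0 * X 1 0)) • x.1.1 + (X 1 0 * (1 + P * X 1 1)) • x.1.2.1 +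
      (2 * X 1 1 + P * (X 1 1 * X 1 1)) • x.1.2.2),
    (X 0 0 • x.2.1 + X 0 1 • x.2.2, X 1 0 • x.2.1 + X 1 1 • x.2.2)), ?_⟩
  rw [H8_apply', HS_apply', HQ_apply']
  simp only [Matrix.add_apply, Matrix.smul_apply, smul_eq_mul, h1, h2, h3, h4]
  refine Prod.ext (Prod.ext ?_ (Prod.ext ?_ ?_)) (Prod.ext ?_ ?_) <;>
    simp only [Prod.fst_add, Prod.snd_add, Prod.smul_fst, Prod.smul_snd] <;> module

end act

end Pool.Agent.TZ8
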