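import Pool.Agent.TZ8.VAL2
import Pool.Agent.TZ8.VAL3a
import Pool.Agent.TZ.CM

set_option autoImplicit false

/-! Orbits of `GL(F)` and `GL(V)`: change of the weight. -/

namespace Pool.Agent.TZ8

open Pool.Agent.TZ

variable {o : Type} [CommRing o] [IsDomain o] [IsDiscreteValuationRing o] {p q a b : ℕ}

/-- The two elements `(0, p ^ n (f, β f))` and `(0, p ^ (2n) (0, f))` generate enough. -/
private theorem v3_big {e n : ℕ} {N : Submodule o (A8 o a b)}
    (hS : ∀ s : S8 o a, (p : o) ^ e • ((s, 0) : A8 o a b) ∈ N)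
    (h1 : ∀ f : F7 o b, ((0, (p : o) ^ (2 * n) • (f, 0)) : A8 o a b) ∈ N)
    (h2 : ∀ f : F7 o b, ((0, (p : o) ^ (2 * n) • (0, f)) : A8 o a b) ∈ N) (x : A8 o a b) :
    (p : o) ^ (2 * n + e) • x ∈ N := by
  have e1 : (p : o) ^ (2 * n + e) • x = (p : o) ^ (2 * n) • ((p : o) ^ e • ((x.1, 0) : A8 o a b))
      + (p : o) ^ e • ((0, (p : o) ^ (2 * n) • (x.2.1, 0)) : A8 o a b)
      + (p : o) ^ e • ((0, (p : o) ^ (2 * n) • (0, x.2.2)) : A8 o a b) := by
    obtain ⟨s, z1, z2⟩ := x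
    simp only [Prod.smul_mk, smul_zero, Prod.mk_add_mk, add_zero, zero_add, smul_smul]
    rw [← pow_add, ← pow_add, add_comm e (2 * n)]
  rw [e1]
  exact N.add_mem (N.add_mem (N.smul_mem _ (hS _)) (N.smul_mem _ (h1 _))) (N.smul_mem _ (h2 _))

/-- A lattice stable under both congruence subgroups is large. -/
theorem irr_LEP (h : RingHyp o p q) (e n : ℕ) (hn : 1 ≤ n) (L : LEP o a b p e)
    (hG : ∀ g ∈ Gam o p b n, ∀ x ∈ L.1.1.1, G8 (g : Matrix (Fin b) (Fin b) o) x ∈ L.1.1.1)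
    (hH : ∀ g ∈ Gam o p 2 n, ∀ x ∈ L.1.1.1, H8 (g : Matrix (Fin 2) (Fin 2) o) x ∈ L.1.1.1)
    (x : A8 o a b) : (p : o) ^ (2 * n + e) • x ∈ L.1.1.1 := by
  classical
  set N := L.1.1.1 with hN
  have hS : ∀ s : S8 o a, (p : o) ^ e • ((s, 0) : A8 o a b) ∈ N := L.1.2
  obtain ⟨x0, hx0, hx0p⟩ := L.2
  -- moving by `1 + p ^ n X`
  have hmove : ∀ X : Matrix (Fin b) (Fin b) o,
      ((0, (p : o) ^ n • (X.mulVec x0.2.1, X.mulVec x0.2.2)) : A8 o a b) ∈ N := by
    intro X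
    obtain ⟨g, hg⟩ := cm_isUnit_one_add h hn X
    have h1 := N.sub_mem (hG g ⟨X, hg⟩ x0 hx0) hx0
    have h2 : G8 (g : Matrix (Fin b) (Fin b) o) x0 - x0 =
        ((0, (p : o) ^ n • (X.mulVec x0.2.1, X.mulVec x0.2.2)) : A8 o a b) := by
      rw [hg]
      show ((x0.1, ((1 + (p : o) ^ n • X).mulVec x0.2.1, (1 + (p : o) ^ n • X).mulVec x0.2.2)) :
        A8 o a b) - x0 = _
      obtain ⟨s, z1, z2⟩ := x0
      simp only [Matrix.add_mulVec, Matrix.one_mulVec, Matrix.smul_mulVec, Prod.mk_sub_mk,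
        sub_self, add_sub_cancel_left, Prod.smul_mk]
    rw [h2] at h1
    exact h1
  -- the elementary matrices of size two
  have hE : ∀ (Y : Matrix (Fin 2) (Fin 2) o) (z : Q8 o b), ((0, z) : A8 o a b) ∈ N →
      ((0, (p : o) ^ n • (Y 0 0 • z.1 + Y 0 1 • z.2, Y 1 0 • z.1 + Y 1 1 • z.2)) :
        A8 o a b) ∈ N := by
    intro Y z hz
    obtain ⟨g, hg⟩ := cm_isUnit_one_add h hn Y
    have h1 := N.sub_mem (hH g ⟨Y, hg⟩ _ hz) hz
    have h2 : H8 (g : Matrix (Fin 2) (Fin 2) o) ((0, z) : A8 o a b) - ((0, z) : A8 o a b) =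
        ((0, (p : o) ^ n • (Y 0 0 • z.1 + Y 0 1 • z.2, Y 1 0 • z.1 + Y 1 1 • z.2)) :
          A8 o a b) := by
      have h3 : H8 (g : Matrix (Fin 2) (Fin 2) o) ((0, z) : A8 o a b) =
          (HS (g : Matrix (Fin 2) (Fin 2) o) 0, HQ (g : Matrix (Fin 2) (Fin 2) o) z) := rfl
      rw [h3, map_zero, hg]
      show ((0, ((1 + (p : o) ^ n • Y) 0 0 • z.1 + (1 + (p : o) ^ n • Y) 0 1 • z.2,
        (1 + (p : o) ^ n • Y) 1 0 • z.1 + (1 + (p : o) ^ n • Y) 1 1 • z.2)) : A8 o a b) - _ = _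
      have a1 : (1 + (p : o) ^ n • Y) 0 0 = 1 + (p : o) ^ n * Y 0 0 := by simp
      have a2 : (1 + (p : o) ^ n • Y) 0 1 = (p : o) ^ n * Y 0 1 := by simp
      have a3 : (1 + (p : o) ^ n • Y) 1 0 = (p : o) ^ n * Y 1 0 := by simp
      have a4 : (1 + (p : o) ^ n • Y) 1 1 = 1 + (p : o) ^ n * Y 1 1 := by simp
      rw [a1, a2, a3, a4]
      obtain ⟨z1, z2⟩ := z
      refine Prod.ext (by simp) (Prod.ext ?_ ?_)
      · show (1 + (p : o) ^ n * Y 0 0) • z1 + ((p : o) ^ n * Y 0 1) • z2 - z1 =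
          (p : o) ^ n • (Y 0 0 • z1 + Y 0 1 • z2)
        simp only [add_smul, one_smul, smul_add, smul_smul]
        abel
      · show ((p : o) ^ n * Y 1 0) • z1 + (1 + (p : o) ^ n * Y 1 1) • z2 - z2 =
          (p : o) ^ n • (Y 1 0 • z1 + Y 1 1 • z2)
        simp only [add_smul, one_smul, smul_add, smul_smul]
        abel
    rw [h2] at h1
    exact h1
  -- a coordinate which is a unit
  have hsum : ∀ (P : F7 o b → Prop), (∀ j, P (Pi.single j 1)) → (∀ (c : o) f, P f → P (c • f)) →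
      (∀ f f', P f → P f' → P (f + f')) → P 0 → ∀ f, P f := by
    intro P hs hc ha h0 f
    have h1 : f = ∑ j, f j • (Pi.single j (1 : o) : F7 o b) := by
      ext i
      simp [Finset.sum_apply, Pi.single_apply]
    rw [h1]
    exact Finset.sum_induction _ P ha h0 (fun j _ => hc _ _ (hs j))
  by_cases hc1 : ∃ y : F7 o b, x0.2.1 = (p : o) • y
  · -- the second component is not divisible
    have hc2 : ¬ ∃ y : F7 o b, x0.2.2 = (p : o) • y := by
      rintro ⟨y2, hy2⟩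
      obtain ⟨y1, hy1⟩ := hc1
      exact hx0p ⟨(y1, y2), Prod.ext hy1 hy2⟩
    have h1 : ∃ l, ¬ (p : o) ∣ x0.2.2 l := by
      by_contra hcon
      push Not at hcon
      choose y hy using hcon
      exact hc2 ⟨y, funext fun l => by rw [hy l]; simp⟩
    obtain ⟨l, hl⟩ := h1
    obtain ⟨u, hu⟩ := cm_isUnit_of_not_dvd h hl
    have hb : ∀ f : F7 o b, ((0, (p : o) ^ n • ((((u⁻¹ : oˣ) : o) * x0.2.1 l) • f, f)) :
        A8 o a b) ∈ N := by
      refine hsum _ (fun j => ?_) (fun c f hf => ?_) (fun f f' hf hf' => ?_) ?_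
      · have h2 := N.smul_mem ((u⁻¹ : oˣ) : o) (hmove (Matrix.single j l (1 : o)))
        refine (congrArg (· ∈ N) ?_).mp h2
        have h4 : ∀ v : F7 o b, (Matrix.single j l (1 : o)).mulVec v =
            v l • (Pi.single j (1 : o) : F7 o b) := by
          intro v
          rw [Matrix.single_mulVec]
          ext i
          by_cases hi : i = j
          · simp [hi]
          · simp [hi, Function.update_apply, Pi.single_apply]
        rw [h4, h4, ← hu]
        refine Prod.ext (by simp) (Prod.ext ?_ ?_)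
        · show ((u⁻¹ : oˣ) : o) • ((p : o) ^ n • (x0.2.1 l • (Pi.single j (1 : o) : F7 o b))) =
            (p : o) ^ n • ((((u⁻¹ : oˣ) : o) * x0.2.1 l) • (Pi.single j (1 : o) : F7 o b))
          rw [smul_comm, smul_smul ((u⁻¹ : oˣ) : o)]
        · show ((u⁻¹ : oˣ) : o) • ((p : o) ^ n • ((u : o) • (Pi.single j (1 : o) : F7 o b))) =
            (p : o) ^ n • (Pi.single j (1 : o) : F7 o b)
          rw [smul_comm, smul_smul ((u⁻¹ : oˣ) : o), Units.inv_mul, one_smul]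
      · have h2 := N.smul_mem c hf
        refine (congrArg (· ∈ N) ?_).mp h2
        refine Prod.ext (by simp) (Prod.ext ?_ ?_)
        · show c • ((p : o) ^ n • ((((u⁻¹ : oˣ) : o) * x0.2.1 l) • f)) =
            (p : o) ^ n • ((((u⁻¹ : oˣ) : o) * x0.2.1 l) • (c • f))
          simp only [smul_smul]; congr 1; ring
        · show c • ((p : o) ^ n • f) = (p : o) ^ n • (c • f)
          rw [smul_comm]
      · have h2 := N.add_mem hf hf'
        refine (congrArg (· ∈ N) ?_).mp h2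
        refine Prod.ext (by simp) (Prod.ext ?_ ?_)
        · show (p : o) ^ n • ((((u⁻¹ : oˣ) : o) * x0.2.1 l) • f) +
            (p : o) ^ n • ((((u⁻¹ : oˣ) : o) * x0.2.1 l) • f') =
            (p : o) ^ n • ((((u⁻¹ : oˣ) : o) * x0.2.1 l) • (f + f'))
          simp only [smul_add]
        · show (p : o) ^ n • f + (p : o) ^ n • f' = (p : o) ^ n • (f + f')
          rw [smul_add]
      · have : ((0, (p : o) ^ n • ((((u⁻¹ : oˣ) : o) * x0.2.1 l) • (0 : F7 o b), (0 : F7 o b))) :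
          A8 o a b) = 0 := by simp
        rw [this]
        exact N.zero_mem
    have h5 : ∀ f : F7 o b, ((0, (p : o) ^ (2 * n) • (f, 0)) : A8 o a b) ∈ N := by
      intro f
      have h6 := hE (Matrix.single 0 1 (1 : o)) _ (hb f)
      refine (congrArg (· ∈ N) ?_).mp h6
      refine Prod.ext rfl ?_
      simp only [Prod.smul_mk]
      refine Prod.ext ?_ ?_
      · simp only [Matrix.single_apply]
        simp [smul_smul, ← pow_add, two_mul]
      · simp only [Matrix.single_apply]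
        simp
    have h6 : ∀ f : F7 o b, ((0, (p : o) ^ (2 * n) • (0, f)) : A8 o a b) ∈ N := by
      intro f
      have h7 := N.sub_mem (N.smul_mem ((p : o) ^ n) (hb f))
        (N.smul_mem (((u⁻¹ : oˣ) : o) * x0.2.1 l) (h5 f))
      refine (congrArg (· ∈ N) ?_).mp h7
      refine Prod.ext (by simp) (Prod.ext ?_ ?_)
      · show (p : o) ^ n • ((p : o) ^ n • ((((u⁻¹ : oˣ) : o) * x0.2.1 l) • f)) -
          (((u⁻¹ : oˣ) : o) * x0.2.1 l) • ((p : o) ^ (2 * n) • f) = (p : o) ^ (2 * n) • (0 : F7 o b)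
        rw [smul_zero, sub_eq_zero]
        simp only [smul_smul]
        congr 1
        ring
      · show (p : o) ^ n • ((p : o) ^ n • f) -
          (((u⁻¹ : oˣ) : o) * x0.2.1 l) • ((p : o) ^ (2 * n) • (0 : F7 o b)) =
          (p : o) ^ (2 * n) • f
        rw [smul_zero, smul_zero, sub_zero, smul_smul, ← pow_add, two_mul]
    exact v3_big hS h5 h6 x
  · have h1 : ∃ l, ¬ (p : o) ∣ x0.2.1 l := by
      by_contra hcon
      push Not at hcon
      choose y hy using hcon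
      exact hc1 ⟨y, funext fun l => by rw [hy l]; simp⟩
    obtain ⟨l, hl⟩ := h1
    obtain ⟨u, hu⟩ := cm_isUnit_of_not_dvd h hl
    have hb : ∀ f : F7 o b, ((0, (p : o) ^ n • (f, (((u⁻¹ : oˣ) : o) * x0.2.2 l) • f)) :
        A8 o a b) ∈ N := by
      refine hsum _ (fun j => ?_) (fun c f hf => ?_) (fun f f' hf hf' => ?_) ?_
      · have h2 := N.smul_mem ((u⁻¹ : oˣ) : o) (hmove (Matrix.single j l (1 : o)))
        refine (congrArg (· ∈ N) ?_).mp h2
        have h4 : ∀ v : F7 o b, (Matrix.single j l (1 : o)).mulVec v =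
            v l • (Pi.single j (1 : o) : F7 o b) := by
          intro v
          rw [Matrix.single_mulVec]
          ext i
          by_cases hi : i = j
          · simp [hi]
          · simp [hi, Function.update_apply, Pi.single_apply]
        rw [h4, h4, ← hu]
        refine Prod.ext (by simp) (Prod.ext ?_ ?_)
        · show ((u⁻¹ : oˣ) : o) • ((p : o) ^ n • ((u : o) • (Pi.single j (1 : o) : F7 o b))) =
            (p : o) ^ n • (Pi.single j (1 : o) : F7 o b)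
          rw [smul_comm, smul_smul ((u⁻¹ : oˣ) : o), Units.inv_mul, one_smul]
        · show ((u⁻¹ : oˣ) : o) • ((p : o) ^ n • (x0.2.2 l • (Pi.single j (1 : o) : F7 o b))) =
            (p : o) ^ n • ((((u⁻¹ : oˣ) : o) * x0.2.2 l) • (Pi.single j (1 : o) : F7 o b))
          rw [smul_comm, smul_smul ((u⁻¹ : oˣ) : o)]
      · have h2 := N.smul_mem c hf
        refine (congrArg (· ∈ N) ?_).mp h2
        refine Prod.ext (by simp) (Prod.ext ?_ ?_)
        · show c • ((p : o) ^ n • f) = (p : o) ^ n • (c • f)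
          rw [smul_comm]
        · show c • ((p : o) ^ n • ((((u⁻¹ : oˣ) : o) * x0.2.2 l) • f)) =
            (p : o) ^ n • ((((u⁻¹ : oˣ) : o) * x0.2.2 l) • (c • f))
          simp only [smul_smul]; congr 1; ring
      · have h2 := N.add_mem hf hf'
        refine (congrArg (· ∈ N) ?_).mp h2
        refine Prod.ext (by simp) (Prod.ext ?_ ?_)
        · show (p : o) ^ n • f + (p : o) ^ n • f' = (p : o) ^ n • (f + f')
          rw [smul_add]
        · show (p : o) ^ n • ((((u⁻¹ : oˣ) : o) * x0.2.2 l) • f) +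
            (p : o) ^ n • ((((u⁻¹ : oˣ) : o) * x0.2.2 l) • f') =
            (p : o) ^ n • ((((u⁻¹ : oˣ) : o) * x0.2.2 l) • (f + f'))
          simp only [smul_add]
      · have : ((0, (p : o) ^ n • ((0 : F7 o b), (((u⁻¹ : oˣ) : o) * x0.2.2 l) • (0 : F7 o b))) :
          A8 o a b) = 0 := by simp
        rw [this]
        exact N.zero_mem
    have h5 : ∀ f : F7 o b, ((0, (p : o) ^ (2 * n) • (0, f)) : A8 o a b) ∈ N := by
      intro f
      have h6 := hE (Matrix.single 1 0 (1 : o)) _ (hb f)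
      refine (congrArg (· ∈ N) ?_).mp h6
      refine Prod.ext rfl ?_
      simp only [Prod.smul_mk]
      refine Prod.ext ?_ ?_
      · simp only [Matrix.single_apply]
        simp
      · simp only [Matrix.single_apply]
        simp [smul_smul, ← pow_add, two_mul]
    have h6 : ∀ f : F7 o b, ((0, (p : o) ^ (2 * n) • (f, 0)) : A8 o a b) ∈ N := by
      intro f
      have h7 := N.sub_mem (N.smul_mem ((p : o) ^ n) (hb f))
        (N.smul_mem (((u⁻¹ : oˣ) : o) * x0.2.2 l) (h5 f))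
      refine (congrArg (· ∈ N) ?_).mp h7
      refine Prod.ext (by simp) (Prod.ext ?_ ?_)
      · show (p : o) ^ n • ((p : o) ^ n • f) -
          (((u⁻¹ : oˣ) : o) * x0.2.2 l) • ((p : o) ^ (2 * n) • (0 : F7 o b)) =
          (p : o) ^ (2 * n) • f
        rw [smul_zero, smul_zero, sub_zero, smul_smul, ← pow_add, two_mul]
      · show (p : o) ^ n • ((p : o) ^ n • ((((u⁻¹ : oˣ) : o) * x0.2.2 l) • f)) -
          (((u⁻¹ : oˣ) : o) * x0.2.2 l) • ((p : o) ^ (2 * n) • f) = (p : o) ^ (2 * n) • (0 : F7 o b)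
        rw [smul_zero, sub_eq_zero]
        simp only [smul_smul]
        congr 1
        ring
    exact v3_big hS h6 h5 x

section act

/-- A multiplicative family of linear maps gives an action of the invertible matrices. -/
private noncomputable def v3_act {d : ℕ} {M : Type} [AddCommGroup M] [Module o M]
    (φ : Matrix (Fin d) (Fin d) o → M →ₗ[o] M) (h1 : φ 1 = LinearMap.id)
    (hm : ∀ g g', φ (g * g') = φ g ∘ₗ φ g') :
    (Matrix (Fin d) (Fin d) o)ˣ →* (M ≃ₗ[o] M) where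
  toFun g := LinearEquiv.ofLinearMap (φ (g : Matrix (Fin d) (Fin d) o))
    (φ ((g⁻¹ : (Matrix (Fin d) (Fin d) o)ˣ) : Matrix (Fin d) (Fin d) o))
    (by rw [← hm, Units.mul_inv, h1]) (by rw [← hm, Units.inv_mul, h1])
  map_one' := by
    ext x
    show φ 1 x = x
    rw [h1]
    rfl
  map_mul' g g' := by
    ext x
    show φ ((g * g' : (Matrix (Fin d) (Fin d) o)ˣ) : Matrix (Fin d) (Fin d) o) x = φ g (φ g' x)
    rw [Units.val_mul, hm]
    rfl

private theorem v3_act_coe {d : ℕ} {M : Type} [AddCommGroup M] [Module o M]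
    (φ : Matrix (Fin d) (Fin d) o → M →ₗ[o] M) (h1 : φ 1 = LinearMap.id)
    (hm : ∀ g g', φ (g * g') = φ g ∘ₗ φ g') (g : (Matrix (Fin d) (Fin d) o)ˣ) :
    ((v3_act φ h1 hm g : M ≃ₗ[o] M) : M →ₗ[o] M) = φ (g : Matrix (Fin d) (Fin d) o) :=
  LinearMap.ext fun _ => rfl

/-- The data of an action on the standard model. -/
private structure V3Dat (o : Type) [CommRing o] (p a b d : ℕ) where
  s8 : (Matrix (Fin d) (Fin d) o)ˣ →* (A8 o a b ≃ₗ[o] A8 o a b)
  s7 : (Matrix (Fin d) (Fin d) o)ˣ → (A7 o a b ≃ₗ[o] A7 o a b)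
  sQ : (Matrix (Fin d) (Fin d) o)ˣ → (Q8 o b ≃ₗ[o] Q8 o b)
  hv : ∀ (g : (Matrix (Fin d) (Fin d) o)ˣ) (L : Submodule o (A8 o a b)),
    vcol (L.map (s8 g : A8 o a b →ₗ[o] A8 o a b)) = (vcol L).map (s7 g : A7 o a b →ₗ[o] A7 o a b)
  hQ : ∀ g x, (s8 g x).2 = sQ g x.2
  hS : ∀ g s, ∃ s' : S8 o a, s8 g (s', 0) = (s, 0)
  hc : ∀ n, ∀ g ∈ Gam o p d n, ∀ x, ∃ y, s8 g x = x + (p : o) ^ n • y

/-- The action on lattices. -/
private def V3Dat.map {d e : ℕ} (D : V3Dat o p a b d) (g : (Matrix (Fin d) (Fin d) o)ˣ)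
    (L : LEP o a b p e) : LEP o a b p e :=
  ⟨⟨⟨L.1.1.1.map (D.s8 g : A8 o a b →ₗ[o] A8 o a b), finite_quot_map_equiv _ _ L.1.1.2⟩, by
    intro s
    obtain ⟨s', hs'⟩ := D.hS g s
    refine ⟨(p : o) ^ e • ((s', 0) : A8 o a b), L.1.2 s', ?_⟩
    rw [map_smul]
    exact congrArg _ hs'⟩, by
    obtain ⟨x, hx, hxp⟩ := L.2
    refine ⟨D.s8 g x, ⟨x, hx, rfl⟩, ?_⟩
    rintro ⟨y, hy⟩
    apply hxp
    refine ⟨(D.sQ g).symm y, ?_⟩
    rw [D.hQ] at hy
    rw [← map_smul, ← hy, LinearEquiv.symm_apply_apply]⟩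

private theorem V3Dat.map_val {d e : ℕ} (D : V3Dat o p a b d) (g : (Matrix (Fin d) (Fin d) o)ˣ)
    (L : LEP o a b p e) :
    (D.map g L).1.1.1 = L.1.1.1.map (D.s8 g : A8 o a b →ₗ[o] A8 o a b) := rfl

private theorem v3_ext {e : ℕ} {L L' : LEP o a b p e} (h : L.1.1.1 = L'.1.1.1) : L = L' :=
  Subtype.ext (Subtype.ext (Subtype.ext h))

private theorem V3Dat.map_one {d e : ℕ} (D : V3Dat o p a b d) (L : LEP o a b p e) :
    D.map 1 L = L := by
  apply v3_ext
  rw [V3Dat.map_val, _root_.map_one]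
  ext x
  constructor
  · rintro ⟨y, hy, rfl⟩
    exact hy
  · intro hx
    exact ⟨x, hx, rfl⟩

private theorem V3Dat.map_mul {d e : ℕ} (D : V3Dat o p a b d)
    (g g' : (Matrix (Fin d) (Fin d) o)ˣ) (L : LEP o a b p e) :
    D.map (g * g') L = D.map g (D.map g' L) := by
  apply v3_ext
  rw [V3Dat.map_val, V3Dat.map_val, V3Dat.map_val, _root_.map_mul]
  ext x
  constructor
  · rintro ⟨y, hy, rfl⟩
    exact ⟨D.s8 g' y, ⟨y, hy, rfl⟩, rfl⟩
  · rintro ⟨_, ⟨y, hy, rfl⟩, rfl⟩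
    exact ⟨y, hy, rfl⟩

/-- The orbit of the first congruence subgroup. -/
private def V3Dat.orb {d e : ℕ} (D : V3Dat o p a b d) (L : LEP o a b p e) :
    Set (LEP o a b p e) := {L' | ∃ g ∈ Gam o p d 1, L' = D.map g L}

private theorem V3Dat.orb_refl {d e : ℕ} (D : V3Dat o p a b d) (L : LEP o a b p e) :
    L ∈ D.orb L := ⟨1, (Gam o p d 1).one_mem, (D.map_one L).symm⟩

private theorem V3Dat.orb_symm {d e : ℕ} (D : V3Dat o p a b d) {L L' : LEP o a b p e}
    (hL : L' ∈ D.orb L) : L ∈ D.orb L' := by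
  obtain ⟨g, hg, rfl⟩ := hL
  refine ⟨g⁻¹, (Gam o p d 1).inv_mem hg, ?_⟩
  rw [← D.map_mul, inv_mul_cancel, D.map_one]

private theorem V3Dat.orb_trans {d e : ℕ} (D : V3Dat o p a b d) {L L' L'' : LEP o a b p e}
    (hL : L' ∈ D.orb L) (hL' : L'' ∈ D.orb L') : L'' ∈ D.orb L := by
  obtain ⟨g, hg, rfl⟩ := hL
  obtain ⟨g', hg', rfl⟩ := hL'
  exact ⟨g' * g, (Gam o p d 1).mul_mem hg' hg, (D.map_mul _ _ _).symm⟩

private theorem V3Dat.orb_eq {d e : ℕ} (D : V3Dat o p a b d) {L L' : LEP o a b p e}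
    (hL : L' ∈ D.orb L) : D.orb L' = D.orb L := by
  ext x
  exact ⟨fun hx => D.orb_trans hL hx, fun hx => D.orb_trans (D.orb_symm hL) hx⟩

private theorem V3Dat.map_inj {d e : ℕ} (D : V3Dat o p a b d) (g : (Matrix (Fin d) (Fin d) o)ˣ) :
    Function.Injective (D.map (e := e) g) := by
  intro L L' hL
  have h1 := congrArg (D.map (e := e) g⁻¹) hL
  rwa [← D.map_mul, ← D.map_mul, inv_mul_cancel, D.map_one, D.map_one] at h1

private theorem V3Dat.orb_comm {d d' e : ℕ} (D : V3Dat o p a b d) (D' : V3Dat o p a b d')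
    (hcomm : ∀ g g' x, D.s8 g (D'.s8 g' x) = D'.s8 g' (D.s8 g x)) {L L' : LEP o a b p e}
    (hL : L' ∈ D'.orb L) : Nat.card (D.orb L') = Nat.card (D.orb L) := by
  obtain ⟨g', hg', rfl⟩ := hL
  have hc : ∀ g, D.map g (D'.map g' L) = D'.map g' (D.map g L) := by
    intro g
    apply v3_ext
    rw [V3Dat.map_val, V3Dat.map_val, V3Dat.map_val, V3Dat.map_val]
    ext x
    constructor
    · rintro ⟨_, ⟨y, hy, rfl⟩, rfl⟩
      exact ⟨D.s8 g y, ⟨y, hy, rfl⟩, (hcomm g g' y).symm⟩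
    · rintro ⟨_, ⟨y, hy, rfl⟩, rfl⟩
      exact ⟨D'.s8 g' y, ⟨y, hy, rfl⟩, hcomm g g' y⟩
  have h1 : D.orb (D'.map g' L) = D'.map g' '' D.orb L := by
    ext x
    constructor
    · rintro ⟨g, hg, rfl⟩
      exact ⟨D.map g L, ⟨g, hg, rfl⟩, (hc g).symm⟩
    · rintro ⟨_, ⟨g, hg, rfl⟩, rfl⟩
      exact ⟨g, hg, (hc g).symm⟩
  rw [h1, Nat.card_image_of_injective (D'.map_inj g')]

private noncomputable def v3_GQ : (Matrix (Fin b) (Fin b) o)ˣ →* (Q8 o b ≃ₗ[o] Q8 o b) :=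
  v3_act (fun g => LinearMap.prodMap g.mulVecLin g.mulVecLin)
    (by rw [Matrix.mulVecLin_one, LinearMap.prodMap_id])
    (fun g g' => by rw [Matrix.mulVecLin_mul, LinearMap.prodMap_comp])

private noncomputable def v3_G7 : (Matrix (Fin b) (Fin b) o)ˣ →* (A7 o a b ≃ₗ[o] A7 o a b) :=
  v3_act G7 G7_one G7_mul

private noncomputable def v3_G8 : (Matrix (Fin b) (Fin b) o)ˣ →* (A8 o a b ≃ₗ[o] A8 o a b) :=
  v3_act G8 G8_one G8_mul

/-- The action of `GL(F)`. -/
private noncomputable def v3_G : V3Dat o p a b b where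
  s8 := v3_G8
  s7 := v3_G7
  sQ := v3_GQ
  hv g L := by
    unfold v3_G8 v3_G7
    rw [v3_act_coe, v3_act_coe]
    exact vcol_G8 g L
  hQ g x := rfl
  hS g s := ⟨s, by
    show ((s, ((g : Matrix (Fin b) (Fin b) o).mulVec 0, (g : Matrix (Fin b) (Fin b) o).mulVec 0)) :
      A8 o a b) = (s, 0)
    rw [Matrix.mulVec_zero]
    rfl⟩
  hc n g hg x := by
    obtain ⟨X, hX⟩ := hg
    obtain ⟨y, hy⟩ := G8_cong p n X x
    refine ⟨y, ?_⟩
    rw [← hy, ← hX]
    rfl

private theorem v3_HQ_one : (HQ (1 : Matrix (Fin 2) (Fin 2) o) : Q8 o b →ₗ[o] Q8 o b) =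
    LinearMap.id := by
  refine LinearMap.ext (fun z => ?_)
  have h1 := congrArg Prod.snd (LinearMap.congr_fun (H8_one (o := o) (a := 0) (b := b)) (0, z))
  exact h1

private theorem v3_HQ_mul (g g' : Matrix (Fin 2) (Fin 2) o) :
    (HQ (g * g') : Q8 o b →ₗ[o] Q8 o b) = HQ g ∘ₗ HQ g' := by
  refine LinearMap.ext (fun z => ?_)
  have h1 := congrArg Prod.snd (LinearMap.congr_fun (H8_mul (a := 0) (b := b) g g') (0, z))
  exact h1

private noncomputable def v3_HQ : (Matrix (Fin 2) (Fin 2) o)ˣ →* (Q8 o b ≃ₗ[o] Q8 o b) :=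
  v3_act HQ v3_HQ_one v3_HQ_mul

private noncomputable def v3_H7 : (Matrix (Fin 2) (Fin 2) o)ˣ →* (A7 o a b ≃ₗ[o] A7 o a b) :=
  v3_act H7 H7_one H7_mul

private noncomputable def v3_H8 : (Matrix (Fin 2) (Fin 2) o)ˣ →* (A8 o a b ≃ₗ[o] A8 o a b) :=
  v3_act H8 H8_one H8_mul

/-- The action of `GL(V)`. -/
private noncomputable def v3_H : V3Dat o p a b 2 where
  s8 := v3_H8
  s7 := v3_H7
  sQ := v3_HQ
  hv g L := by
    unfold v3_H8 v3_H7
    rw [v3_act_coe, v3_act_coe]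
    exact vcol_H8 g L
  hQ g x := rfl
  hS g s := by
    refine ⟨HS ((g⁻¹ : (Matrix (Fin 2) (Fin 2) o)ˣ) : Matrix (Fin 2) (Fin 2) o) s, ?_⟩
    have h1 := LinearMap.congr_fun (H8_mul (a := a) (b := b) (g : Matrix (Fin 2) (Fin 2) o)
      ((g⁻¹ : (Matrix (Fin 2) (Fin 2) o)ˣ) : Matrix (Fin 2) (Fin 2) o)) (s, 0)
    rw [Units.mul_inv, H8_one] at h1
    have h2 : (H8 (g : Matrix (Fin 2) (Fin 2) o) ∘ₗ
        H8 ((g⁻¹ : (Matrix (Fin 2) (Fin 2) o)ˣ) : Matrix (Fin 2) (Fin 2) o)) ((s, 0) : A8 o a b) =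
        H8 (g : Matrix (Fin 2) (Fin 2) o)
          ((HS ((g⁻¹ : (Matrix (Fin 2) (Fin 2) o)ˣ) : Matrix (Fin 2) (Fin 2) o) s, 0) :
            A8 o a b) := by
      show H8 (g : Matrix (Fin 2) (Fin 2) o)
        ((HS ((g⁻¹ : (Matrix (Fin 2) (Fin 2) o)ˣ) : Matrix (Fin 2) (Fin 2) o) s,
          HQ ((g⁻¹ : (Matrix (Fin 2) (Fin 2) o)ˣ) : Matrix (Fin 2) (Fin 2) o) 0) : A8 o a b) = _
      rw [_root_.map_zero]
    rw [h2] at h1
    exact h1.symm
  hc n g hg x := by
    obtain ⟨X, hX⟩ := hg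
    obtain ⟨y, hy⟩ := H8_cong p n X x
    refine ⟨y, ?_⟩
    rw [← hy, ← hX]
    rfl

end act

/-- The size of an orbit, and elements fixing a point. -/
private theorem V3Dat.orbit (h : RingHyp o p q) (hp : p ≠ 2) {d e : ℕ} (D : V3Dat o p a b d)
    (L : LEP o a b p e) : ∃ j : ℕ, Nat.card (D.orb L) = p ^ j ∧
      ∀ g ∈ Gam o p d (1 + j), D.map g L = L := by
  obtain ⟨m, hm⟩ := lat_pow_mem h L.1.1.1 L.1.1.2
  let actG : MulAction (Gam o p d 1) (LEP o a b p e) :=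
    { smul := fun g x => D.map (g : (Matrix (Fin d) (Fin d) o)ˣ) x
      one_smul := fun x => D.map_one x
      mul_smul := fun g g' x => D.map_mul _ _ x }
  have hdef : ∀ (g : Gam o p d 1) (x : LEP o a b p e),
      g • x = D.map (g : (Matrix (Fin d) (Fin d) o)ˣ) x := fun _ _ => rfl
  obtain ⟨j, hj1, hj2⟩ := orbit_lemma h hp (le_refl 1) L m (fun g hg => by
    rw [hdef]
    apply v3_ext
    refine map_eq_of_cong _ m (D.hc m _ hg) ?_ _ hm
    have h2 := D.hc m _ ((Gam o p d m).inv_mem hg)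
    intro z
    obtain ⟨z', hz'⟩ := h2 z
    refine ⟨z', ?_⟩
    rw [← hz', _root_.map_inv]
    rfl)
  refine ⟨j, ?_, ?_⟩
  · rw [← hj1]
    have h1 : D.orb L = MulAction.orbit (Gam o p d 1) L := by
      ext x
      constructor
      · rintro ⟨g, hg, rfl⟩
        exact ⟨⟨g, hg⟩, rfl⟩
      · rintro ⟨g, rfl⟩
        exact ⟨g, g.2, rfl⟩
    rw [h1]
  · intro g hg
    have hg' : g ∈ Gam o p d 1 := gaMono (by omega) hg
    exact hj2 ⟨g, hg'⟩ hg

private theorem V3Dat.wO_eq {d e : ℕ} (D : V3Dat o p a b d) {L L' : LEP o a b p e}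
    (hL : L' ∈ D.orb L) : wO q L.1.1.1 = wO q L'.1.1.1 := by
  obtain ⟨g, -, rfl⟩ := hL
  unfold wO
  rw [V3Dat.map_val, D.hv, len_map_equiv, len_map_equiv]

private theorem V3Dat.len_eq {d e : ℕ} (D : V3Dat o p a b d) {L L' : LEP o a b p e}
    (hL : L' ∈ D.orb L) : len q (imQ L.1.1.1) = len q (imQ L'.1.1.1) := by
  obtain ⟨g, -, rfl⟩ := hL
  have h1 : imQ (D.map g L).1.1.1 = (imQ L.1.1.1).map (D.sQ g : Q8 o b →ₗ[o] Q8 o b) := by
    rw [V3Dat.map_val]
    ext z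
    constructor
    · rintro ⟨_, ⟨x, hx, rfl⟩, rfl⟩
      exact ⟨x.2, ⟨x, hx, rfl⟩, (D.hQ g x).symm⟩
    · rintro ⟨_, ⟨x, hx, rfl⟩, rfl⟩
      exact ⟨D.s8 g x, ⟨x, hx, rfl⟩, D.hQ g x⟩
  rw [h1, len_map_equiv]

private theorem v3_finite_wO (h : RingHyp o p q) (e n : ℕ) :
    Finite {L : LEP o a b p e // wO q L.1.1.1 = n} := by
  have := finite_wO (a := a) (b := b) h n
  refine Finite.of_injective (β := {L : Lat o (A8 o a b) // wO q L.1 = n})
    (fun L => ⟨L.1.1.1, L.2⟩) ?_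
  intro L L' he
  apply Subtype.ext
  apply Subtype.ext
  apply Subtype.ext
  exact Subtype.mk.inj he

private theorem v3_finite_im (h : RingHyp o p q) (e n : ℕ) :
    Finite {L : LEP o a b p e // len q (imQ L.1.1.1) = n} := by
  have hfin := finite_setOf_pow_mem h (M := A8 o a b) (q ^ n + e)
  have := hfin.to_subtype
  refine Finite.of_injective
    (β := {N : Submodule o (A8 o a b) | ∀ x : A8 o a b, (p : o) ^ (q ^ n + e) • x ∈ N})
    (fun L => ⟨L.1.1.1.1, ?_⟩) ?_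
  · rintro ⟨s, z⟩
    obtain ⟨m, hm⟩ := lat_pow_mem h L.1.1.1.1 L.1.1.1.2
    have hf : Finite (Q8 o b ⧸ imQ L.1.1.1.1) :=
      finite_quot_of_pow_mem h (imQ L.1.1.1.1) m
        (fun y => ⟨(p : o) ^ m • ((0, y) : A8 o a b), hm _, rfl⟩)
    have h1 := LC.pow_card_smul h (Submodule.Quotient.mk (p := imQ L.1.1.1.1) z)
    rw [card_quot h (imQ L.1.1.1.1) hf, L.2, ← Submodule.Quotient.mk_smul,
      Submodule.Quotient.mk_eq_zero] at h1
    obtain ⟨⟨s', z'⟩, hs', hz'⟩ := h1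
    have hz'' : z' = (p : o) ^ (q ^ n) • z := hz'
    subst hz''
    have h2 := L.1.1.1.1.add_mem (L.1.1.1.1.smul_mem ((p : o) ^ e) hs')
      (L.1.1.2 ((p : o) ^ (q ^ n) • s - s'))
    refine (congrArg (· ∈ L.1.1.1.1) ?_).mp h2
    refine Prod.ext ?_ ?_
    · show (p : o) ^ e • s' + (p : o) ^ e • ((p : o) ^ (q ^ n) • s - s') =
        (p : o) ^ (q ^ n + e) • s
      rw [← smul_add, add_sub_cancel, smul_smul, ← pow_add, add_comm e]
    · show (p : o) ^ e • ((p : o) ^ (q ^ n) • z) + (p : o) ^ e • (0 : Q8 o b) =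
        (p : o) ^ (q ^ n + e) • z
      rw [smul_zero, add_zero, smul_smul, ← pow_add, add_comm e]
  · intro L L' he
    apply Subtype.ext
    apply Subtype.ext
    apply Subtype.ext
    apply Subtype.ext
    exact Subtype.mk.inj he

/-- The two weights have the same value at `1`. -/
theorem padicEq_LEP (h : RingHyp o p q) (hp : p ≠ 2) (e : ℕ) :
    PadicEq p (gf (fun L : LEP o a b p e => wO q L.1.1.1))
      (gf (fun L : LEP o a b p e => len q (imQ L.1.1.1))) := by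
  classical
  refine padicEq_of_partition p _ _ (fun n => v3_finite_wO h e n) (fun n => v3_finite_im h e n)
    (fun k => ?_)
  let G : V3Dat o p a b b := v3_G
  let H : V3Dat o p a b 2 := v3_H
  have hcomm : ∀ g g' x, G.s8 g (H.s8 g' x) = H.s8 g' (G.s8 g x) := fun g g' x => G8_H8 _ _ x
  have hBG : ∀ L L' : LEP o a b p e, L' ∈ G.orb L → Nat.card (G.orb L') = Nat.card (G.orb L) :=
    fun L L' hL => by rw [G.orb_eq hL]
  have hBH : ∀ L L' : LEP o a b p e, L' ∈ H.orb L → Nat.card (G.orb L') = Nat.card (G.orb L) :=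
    fun L L' hL => G.orb_comm H hcomm hL
  let r : Setoid (LEP o a b p e) :=
    { r := fun x y => (p ^ k ∣ Nat.card (G.orb x) ∧ y ∈ G.orb x) ∨
        (¬ p ^ k ∣ Nat.card (G.orb x) ∧ y ∈ H.orb x)
      iseqv := by
        refine ⟨?_, ?_, ?_⟩
        · intro x
          by_cases hx : p ^ k ∣ Nat.card (G.orb x)
          · exact Or.inl ⟨hx, G.orb_refl x⟩
          · exact Or.inr ⟨hx, H.orb_refl x⟩
        · rintro x y (⟨hx, hy⟩ | ⟨hx, hy⟩)
          · exact Or.inl ⟨by rwa [hBG x y hy], G.orb_symm hy⟩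
          · exact Or.inr ⟨by rwa [hBH x y hy], H.orb_symm hy⟩
        · rintro x y z (⟨hx, hy⟩ | ⟨hx, hy⟩) (⟨hy', hz⟩ | ⟨hy', hz⟩)
          · exact Or.inl ⟨hx, G.orb_trans hy hz⟩
          · rw [hBG x y hy] at hy'
            exact absurd hx hy'
          · rw [hBH x y hy] at hy'
            exact absurd hy' hx
          · exact Or.inr ⟨hx, H.orb_trans hy hz⟩ }
  have hr : ∀ x y, r x y ↔ (p ^ k ∣ Nat.card (G.orb x) ∧ y ∈ G.orb x) ∨
        (¬ p ^ k ∣ Nat.card (G.orb x) ∧ y ∈ H.orb x) := fun _ _ => Iff.rfl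
  refine ⟨r, ?_, ?_⟩
  · intro x y hxy
    rcases (hr x y).1 hxy with ⟨-, hy⟩ | ⟨-, hy⟩
    · exact ⟨G.wO_eq hy, G.len_eq hy⟩
    · exact ⟨H.wO_eq hy, H.len_eq hy⟩
  · have hfin : {L : LEP o a b p e |
        ∀ x : A8 o a b, (p : o) ^ (2 * k + e) • x ∈ L.1.1.1}.Finite := by
      have h1 := finite_setOf_pow_mem h (M := A8 o a b) (2 * k + e)
      have h2 : Set.InjOn (fun L : LEP o a b p e => L.1.1.1)
          ((fun L : LEP o a b p e => L.1.1.1) ⁻¹'
            {N : Submodule o (A8 o a b) | ∀ x : A8 o a b, (p : o) ^ (2 * k + e) • x ∈ N}) :=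
        fun x _ y _ hxy => v3_ext hxy
      exact h1.preimage h2
    refine hfin.subset ?_
    intro L hL
    have hL' : ¬ p ^ k ∣ Nat.card {y : LEP o a b p e // r L y} := hL
    have hG : ¬ p ^ k ∣ Nat.card (G.orb L) := by
      intro hc
      apply hL'
      have h1 : Nat.card {y : LEP o a b p e // r L y} = Nat.card (G.orb L) :=
        Nat.card_congr (Equiv.subtypeEquivRight (fun y => by rw [hr]; tauto))
      rwa [h1]
    have hH : ¬ p ^ k ∣ Nat.card (H.orb L) := by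
      intro hc
      apply hL'
      have h1 : Nat.card {y : LEP o a b p e // r L y} = Nat.card (H.orb L) :=
        Nat.card_congr (Equiv.subtypeEquivRight (fun y => by rw [hr]; tauto))
      rwa [h1]
    obtain ⟨j, hj1, hj2⟩ := G.orbit h hp L
    obtain ⟨j', hj1', hj2'⟩ := H.orbit h hp L
    have hjk : j < k := by
      by_contra hc
      apply hG
      rw [hj1]
      exact pow_dvd_pow p (by omega)
    have hjk' : j' < k := by
      by_contra hc
      apply hH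
      rw [hj1']
      exact pow_dvd_pow p (by omega)
    refine irr_LEP h e k (by omega) L ?_ ?_
    · intro g hg x hx
      have h1 := hj2 g (gaMono (by omega) hg)
      have h2 : G.s8 g x ∈ (G.map g L).1.1.1 := ⟨x, hx, rfl⟩
      rw [h1] at h2
      exact h2
    · intro g hg x hx
      have h1 := hj2' g (gaMono (by omega) hg)
      have h2 : H.s8 g x ∈ (H.map g L).1.1.1 := ⟨x, hx, rfl⟩
      rw [h1] at h2
      exact h2

end Pool.Agent.TZ8
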