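import Pool.Agent.TZ8.VDefs
import Pool.Agent.TZ.LC
import Pool.Agent.TZ.GF

set_option autoImplicit false

/-! Lattices with small intersection with `K ⊗ S²V` do not count. -/

namespace Pool.Agent.TZ8

open Pool.Agent.TZ

/-- Divisibility of the number of elements from that of the fibres. -/
theorem v5_dvd_of_fibres {α β : Type*} [Finite α] (f : α → β) (d : ℕ)
    (h : ∀ y, d ∣ Nat.card {x : α // f x = y}) : d ∣ Nat.card α := by
  classical
  have := Fintype.ofFinite α
  have h1 : Nat.card α = ∑ y ∈ Finset.univ.image f, Nat.card {x : α // f x = y} := by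
    rw [Nat.card_eq_fintype_card, ← Finset.card_univ, Finset.card_eq_sum_card_image f]
    apply Finset.sum_congr rfl
    intro y _
    rw [Nat.card_eq_fintype_card, Fintype.card_subtype]
  rw [h1]
  exact Finset.dvd_sum fun y _ => h y

section prod

variable {o : Type} [CommRing o] {A B : Type} [AddCommGroup A] [Module o A] [AddCommGroup B]
  [Module o B]

theorem v5_index (L : Submodule o (A × B)) :
    Nat.card ((A × B) ⧸ L) = Nat.card (A ⧸ L.comap (LinearMap.inl o A B)) *
      Nat.card (B ⧸ L.map (LinearMap.snd o A B)) := by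
  have e1 : Nat.card ((A × B) ⧸ L) = L.toAddSubgroup.index := rfl
  have e2 : Nat.card (A ⧸ L.comap (LinearMap.inl o A B)) =
      (L.toAddSubgroup.comap (AddMonoidHom.inl A B)).index := rfl
  have e3 : Nat.card (B ⧸ L.map (LinearMap.snd o A B)) =
      (L.toAddSubgroup.map (AddMonoidHom.snd A B)).index := rfl
  rw [e1, e2, e3, AddSubgroup.index_comap, AddSubgroup.index_map]
  have h1 : (AddMonoidHom.snd A B).ker = (AddMonoidHom.inl A B).range := by
    ext x
    constructor
    · intro hx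
      have : x.2 = 0 := hx
      exact ⟨x.1, Prod.ext rfl this.symm⟩
    · rintro ⟨y, rfl⟩
      rfl
  have h2 : (AddMonoidHom.snd A B).range.index = 1 := by
    rw [AddMonoidHom.range_eq_top.2 (fun y => ⟨(0, y), rfl⟩)]
    exact AddSubgroup.index_top
  rw [h1, h2, mul_one]
  set R := (AddMonoidHom.inl A B).range
  have h3 : L.toAddSubgroup.relIndex (L.toAddSubgroup ⊔ R) = L.toAddSubgroup.relIndex R := by
    rw [sup_comm]
    exact AddSubgroup.relIndex_sup_right _ _
  rw [← h3]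
  exact (AddSubgroup.relIndex_mul_index le_sup_left).symm

/-- The submodule with intersection `X`, image `Z` and gluing homomorphism `φ`. -/
def v5gr (X : Submodule o A) (Z : Submodule o B) (φ : Z →ₗ[o] A ⧸ X) : Submodule o (A × B) where
  carrier := {x | ∃ hz : x.2 ∈ Z, φ ⟨x.2, hz⟩ = X.mkQ x.1}
  add_mem' := by
    rintro x y ⟨hx, hx'⟩ ⟨hy, hy'⟩
    refine ⟨Z.add_mem hx hy, ?_⟩
    have : (⟨(x + y).2, Z.add_mem hx hy⟩ : Z) = ⟨x.2, hx⟩ + ⟨y.2, hy⟩ := rfl
    rw [this, map_add, hx', hy', ← map_add]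
    rfl
  zero_mem' := ⟨Z.zero_mem, by
    have : (⟨(0 : A × B).2, Z.zero_mem⟩ : Z) = 0 := rfl
    rw [this, map_zero]
    exact (map_zero X.mkQ).symm⟩
  smul_mem' := by
    rintro c x ⟨hx, hx'⟩
    refine ⟨Z.smul_mem c hx, ?_⟩
    have : (⟨(c • x).2, Z.smul_mem c hx⟩ : Z) = c • ⟨x.2, hx⟩ := rfl
    rw [this, map_smul, hx', ← map_smul]
    rfl

theorem v5gr_mem {X : Submodule o A} {Z : Submodule o B} {φ : Z →ₗ[o] A ⧸ X} {s : A} {z : B} :
    (s, z) ∈ v5gr X Z φ ↔ ∃ hz : z ∈ Z, φ ⟨z, hz⟩ = X.mkQ s := Iff.rfl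

theorem v5gr_comap (X : Submodule o A) (Z : Submodule o B) (φ : Z →ₗ[o] A ⧸ X) :
    (v5gr X Z φ).comap (LinearMap.inl o A B) = X := by
  ext s
  rw [Submodule.mem_comap, LinearMap.inl_apply, v5gr_mem]
  constructor
  · rintro ⟨hz, h⟩
    have : (⟨0, hz⟩ : Z) = 0 := rfl
    rw [this, map_zero] at h
    exact (Submodule.Quotient.mk_eq_zero X).1 h.symm
  · intro hs
    refine ⟨Z.zero_mem, ?_⟩
    have : (⟨0, Z.zero_mem⟩ : Z) = 0 := rfl
    rw [this, map_zero]
    exact ((Submodule.Quotient.mk_eq_zero X).2 hs).symm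

theorem v5gr_map (X : Submodule o A) (Z : Submodule o B) (φ : Z →ₗ[o] A ⧸ X) :
    (v5gr X Z φ).map (LinearMap.snd o A B) = Z := by
  ext z
  rw [Submodule.mem_map]
  constructor
  · rintro ⟨x, ⟨hx, -⟩, rfl⟩
    exact hx
  · intro hz
    obtain ⟨s, hs⟩ := X.mkQ_surjective (φ ⟨z, hz⟩)
    exact ⟨(s, z), ⟨hz, hs.symm⟩, rfl⟩

theorem v5gr_inj (X : Submodule o A) (Z : Submodule o B) {φ ψ : Z →ₗ[o] A ⧸ X}
    (h : v5gr X Z φ = v5gr X Z ψ) : φ = ψ := by
  ext z
  obtain ⟨s, hs⟩ := X.mkQ_surjective (φ z)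
  have h1 : (s, (z : B)) ∈ v5gr X Z φ := ⟨z.2, hs.symm⟩
  rw [h] at h1
  obtain ⟨_, h2⟩ := h1
  rw [← hs]
  exact h2.symm

theorem v5gr_surj (L : Submodule o (A × B)) (X : Submodule o A) (Z : Submodule o B)
    (hX : L.comap (LinearMap.inl o A B) = X) (hZ : L.map (LinearMap.snd o A B) = Z) :
    ∃ φ : Z →ₗ[o] A ⧸ X, v5gr X Z φ = L := by
  have hex : ∀ z : Z, ∃ s : A, (s, (z : B)) ∈ L := by
    rintro ⟨z, hz⟩
    rw [← hZ] at hz
    obtain ⟨x, hx, rfl⟩ := hz
    exact ⟨x.1, hx⟩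
  have huniq : ∀ (z : B) (s s' : A), (s, z) ∈ L → (s', z) ∈ L → X.mkQ s = X.mkQ s' := by
    intro z s s' h1 h2
    have h3 : (s - s', (0 : B)) ∈ L := by
      have := L.sub_mem h1 h2
      simpa using this
    have h4 : s - s' ∈ X := by
      rw [← hX]
      exact h3
    exact (Submodule.Quotient.eq X).2 h4
  choose f hf using hex
  refine ⟨{ toFun := fun z => X.mkQ (f z), map_add' := ?_, map_smul' := ?_ }, ?_⟩
  · intro x y
    rw [← map_add]
    exact huniq _ _ _ (hf (x + y)) (L.add_mem (hf x) (hf y))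
  · intro c x
    rw [RingHom.id_apply, ← map_smul]
    exact huniq _ _ _ (hf (c • x)) (L.smul_mem c (hf x))
  · ext ⟨s, z⟩
    rw [v5gr_mem]
    constructor
    · rintro ⟨hz, h⟩
      have h1 : X.mkQ (f ⟨z, hz⟩) = X.mkQ s := h
      have h2 : f ⟨z, hz⟩ - s ∈ X := (Submodule.Quotient.eq X).1 h1
      rw [← hX] at h2
      have h3 : (f ⟨z, hz⟩ - s, (0 : B)) ∈ L := h2
      have h4 := L.sub_mem (hf ⟨z, hz⟩) h3
      simpa using h4
    · intro h
      have hz : z ∈ Z := by
        rw [← hZ]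
        exact ⟨(s, z), h, rfl⟩
      exact ⟨hz, huniq z _ _ (hf ⟨z, hz⟩) h⟩

end prod

/-- The image of the colon module in `F`. -/
def v5F {o : Type} [CommRing o] {a b : ℕ} (L : Submodule o (A8 o a b)) : Submodule o (F7 o b) :=
  (vcol L).map (LinearMap.snd o _ _)

section basic

variable {o : Type} [CommRing o] {a b : ℕ}

theorem v5_vcol_mem (L : Submodule o (A8 o a b)) (s : S7 o a) (f : F7 o b) :
    (s, f) ∈ vcol L ↔ ((sX s, (f, 0)) : A8 o a b) ∈ L ∧ ((sY s, (0, f)) : A8 o a b) ∈ L :=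
  Iff.rfl

theorem v5_comap_vcol (L : Submodule o (A8 o a b)) :
    (vcol L).comap (LinearMap.inl o (S7 o a) (F7 o b)) = scol (inS L) := by
  ext s
  exact Iff.rfl

theorem v5_wO_eq {q : ℕ} (L L' : Submodule o (A8 o a b)) (h1 : inS L = inS L')
    (h2 : imQ L = imQ L') (h3 : v5F L = v5F L') : wO q L = wO q L' := by
  have e1 : Nat.card (A8 o a b ⧸ L) = Nat.card (S8 o a ⧸ inS L) * Nat.card (Q8 o b ⧸ imQ L) :=
    v5_index L
  have e1' : Nat.card (A8 o a b ⧸ L') = Nat.card (S8 o a ⧸ inS L') *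
      Nat.card (Q8 o b ⧸ imQ L') := v5_index L'
  have e2 : Nat.card (A7 o a b ⧸ vcol L) = Nat.card (S7 o a ⧸ scol (inS L)) *
      Nat.card (F7 o b ⧸ v5F L) := v5_index (vcol L)
  have e2' : Nat.card (A7 o a b ⧸ vcol L') = Nat.card (S7 o a ⧸ scol (inS L')) *
      Nat.card (F7 o b ⧸ v5F L') := v5_index (vcol L')
  unfold wO len
  rw [e1, e1', e2, e2', h1, h2, h3]

/-- The map `s ↦ (s X, s Y)` modulo `X`. -/
def v5tau (X : Submodule o (S8 o a)) : S7 o a →ₗ[o] (S8 o a ⧸ X) × (S8 o a ⧸ X) :=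
  (X.mkQ ∘ₗ sX).prod (X.mkQ ∘ₗ sY)

theorem v5tau_ker (X : Submodule o (S8 o a)) : LinearMap.ker (v5tau X) = scol X := by
  unfold v5tau scol
  rw [LinearMap.ker_prod, LinearMap.ker_comp, LinearMap.ker_comp, Submodule.ker_mkQ]

theorem v5_finite_scol (X : Submodule o (S8 o a)) (hX : Finite (S8 o a ⧸ X)) :
    Finite (S7 o a ⧸ scol X) := by
  rw [← v5tau_ker]
  exact Finite.of_injective _ (LinearMap.quotKerEquivRange (v5tau X)).injective

theorem v5_card_range_tau (X : Submodule o (S8 o a)) :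
    Nat.card (LinearMap.range (v5tau X)) = Nat.card (S7 o a ⧸ scol X) := by
  rw [← v5tau_ker]
  exact (Nat.card_congr (LinearMap.quotKerEquivRange (v5tau X)).toEquiv).symm

theorem v5_finite_inS (L : Submodule o (A8 o a b)) (hL : Finite (A8 o a b ⧸ L)) :
    Finite (S8 o a ⧸ inS L) := by
  have h : inS L ≤ L.comap (LinearMap.inl o (S8 o a) (Q8 o b)) := le_rfl
  refine Finite.of_injective (Submodule.mapQ (inS L) L (LinearMap.inl o (S8 o a) (Q8 o b)) h) ?_
  rw [← LinearMap.ker_eq_bot]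
  rw [Submodule.ker_mapQ]
  unfold inS
  exact Submodule.mkQ_map_self _

end basic

section count

variable {o : Type} [CommRing o] [IsDomain o] [IsDiscreteValuationRing o] {p q a b : ℕ}

/-- A submodule of finite index has the same rank. -/
theorem v5_rank (h : RingHyp o p q) {M : Type} [AddCommGroup M] [Module o M] [Module.Free o M]
    [Module.Finite o M] (N : Submodule o M) (hN : Finite (M ⧸ N)) :
    Module.finrank o N = Module.finrank o M := by
  obtain ⟨n, hn⟩ := lat_pow_mem h N hN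
  apply le_antisymm (Submodule.finrank_le N)
  let f : M →ₗ[o] N := LinearMap.codRestrict N (LinearMap.lsmul o M ((p : o) ^ n)) hn
  have hf : Function.Injective f := by
    intro x y hxy
    have h1 : (p : o) ^ n • x = (p : o) ^ n • y := congrArg Subtype.val hxy
    exact smul_right_injective M (pow_ne_zero n h.irr.ne_zero) h1
  exact LinearMap.finrank_le_finrank_of_injective hf

theorem v5_card_hom {Z Y : Type} [AddCommGroup Z] [Module o Z] [AddCommGroup Y] [Module o Y]
    [Module.Free o Z] [Module.Finite o Z] [Finite Y] :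
    Finite (Z →ₗ[o] Y) ∧ Nat.card (Z →ₗ[o] Y) = Nat.card Y ^ Module.finrank o Z := by
  let B := Module.finBasis o Z
  let e : (Fin (Module.finrank o Z) → Y) ≃ₗ[o] (Z →ₗ[o] Y) := B.constr o
  constructor
  · exact Finite.of_equiv _ e.toEquiv
  · rw [← Nat.card_congr e.toEquiv, Nat.card_fun, Nat.card_fin]

omit [IsDomain o] [IsDiscreteValuationRing o] in
/-- Counting homomorphisms: the kernel of a linear map. -/
theorem v5_ker_card {U W : Type} [AddCommGroup U] [Module o U] [AddCommGroup W] [Module o W]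
    [Finite U] (ρ : U →ₗ[o] W) :
    Nat.card (LinearMap.ker ρ) * Nat.card (LinearMap.range ρ) = Nat.card U := by
  rw [Submodule.card_eq_card_quotient_mul_card (LinearMap.ker ρ),
    Nat.card_congr (LinearMap.quotKerEquivRange ρ).toEquiv]

theorem v5_ge (h : RingHyp o p q) (X : Lat o (S8 o a)) (Z : Submodule o (Q8 o b))
    (hZ : Finite (Q8 o b ⧸ Z)) (D : Submodule o (F7 o b)) (hD : Finite (F7 o b ⧸ D)) :
    Nat.card (S7 o a ⧸ scol X.1) ^ b ∣
      Nat.card {L : Lat o (A8 o a b) // inS L.1 = X.1 ∧ imQ L.1 = Z ∧ D ≤ v5F L.1} := by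
  classical
  have hX := X.2
  by_cases hDZ : ∀ f ∈ D, ((f, 0) : Q8 o b) ∈ Z ∧ ((0, f) : Q8 o b) ∈ Z
  · let iX : D →ₗ[o] Z := LinearMap.codRestrict Z
      ((LinearMap.inl o (F7 o b) (F7 o b)).domRestrict D) (fun f => (hDZ f.1 f.2).1)
    let iY : D →ₗ[o] Z := LinearMap.codRestrict Z
      ((LinearMap.inr o (F7 o b) (F7 o b)).domRestrict D) (fun f => (hDZ f.1 f.2).2)
    set Y8 := S8 o a ⧸ X.1
    set R : Submodule o (Y8 × Y8) := LinearMap.range (v5tau X.1)
    let ρ : (Z →ₗ[o] Y8) →ₗ[o] (D →ₗ[o] (Y8 × Y8) ⧸ R) :=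
      { toFun := fun φ => R.mkQ ∘ₗ ((φ ∘ₗ iX).prod (φ ∘ₗ iY))
        map_add' := fun φ ψ => by
          ext f
          rfl
        map_smul' := fun c φ => by
          ext f
          rfl }
    have hmem : ∀ φ : Z →ₗ[o] Y8, φ ∈ LinearMap.ker ρ ↔ D ≤ v5F (v5gr X.1 Z φ) := by
      intro φ
      constructor
      · intro hφ f hf
        have h1 : R.mkQ (φ (iX ⟨f, hf⟩), φ (iY ⟨f, hf⟩)) = 0 :=
          congrArg (fun g : D →ₗ[o] (Y8 × Y8) ⧸ R => g ⟨f, hf⟩) hφ
        have h2 : (φ (iX ⟨f, hf⟩), φ (iY ⟨f, hf⟩)) ∈ R := (Submodule.Quotient.mk_eq_zero R).1 h1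
        obtain ⟨s, hs⟩ := h2
        refine ⟨(s, f), ?_, rfl⟩
        rw [SetLike.mem_coe, v5_vcol_mem]
        have h3 : X.1.mkQ (sX s) = φ (iX ⟨f, hf⟩) := congrArg Prod.fst hs
        have h4 : X.1.mkQ (sY s) = φ (iY ⟨f, hf⟩) := congrArg Prod.snd hs
        exact ⟨⟨(hDZ f hf).1, h3.symm⟩, ⟨(hDZ f hf).2, h4.symm⟩⟩
      · intro hφ
        rw [LinearMap.mem_ker]
        ext f
        obtain ⟨⟨s, f'⟩, hx, hf'⟩ := hφ f.2
        have hf'' : f' = f.1 := hf'
        subst hf''
        rw [SetLike.mem_coe, v5_vcol_mem] at hx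
        obtain ⟨⟨hz1, h3⟩, ⟨hz2, h4⟩⟩ := hx
        have h2 : (φ (iX f), φ (iY f)) ∈ R := ⟨s, Prod.ext h3.symm h4.symm⟩
        exact (Submodule.Quotient.mk_eq_zero R).2 h2
    have hfin : ∀ φ : Z →ₗ[o] Y8, Finite (A8 o a b ⧸ v5gr X.1 Z φ) := by
      intro φ
      apply Nat.finite_of_card_ne_zero
      rw [v5_index, v5gr_comap, v5gr_map]
      exact mul_ne_zero Nat.card_pos.ne' Nat.card_pos.ne'
    let Φ : LinearMap.ker ρ →
        {L : Lat o (A8 o a b) // inS L.1 = X.1 ∧ imQ L.1 = Z ∧ D ≤ v5F L.1} := fun φ =>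
      ⟨⟨v5gr X.1 Z φ.1, hfin φ.1⟩, v5gr_comap _ _ _, v5gr_map _ _ _, (hmem φ.1).1 φ.2⟩
    have hΦ : Function.Bijective Φ := by
      constructor
      · intro φ ψ hφψ
        have h1 : v5gr X.1 Z φ.1 = v5gr X.1 Z ψ.1 := congrArg (fun L => L.1.1) hφψ
        exact Subtype.ext (v5gr_inj _ _ h1)
      · rintro ⟨L, h1, h2, h3⟩
        obtain ⟨φ, hφ⟩ := v5gr_surj L.1 X.1 Z h1 h2
        refine ⟨⟨φ, (hmem φ).2 ?_⟩, ?_⟩
        · rw [hφ]
          exact h3
        · exact Subtype.ext (Subtype.ext hφ)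
    rw [← Nat.card_eq_of_bijective Φ hΦ]
    have hY8 : Finite Y8 := hX
    have hYR : Finite ((Y8 × Y8) ⧸ R) := Finite.of_surjective _ (Submodule.mkQ_surjective R)
    obtain ⟨hf1, hc1⟩ := v5_card_hom (o := o) (Z := Z) (Y := Y8)
    obtain ⟨hf2, hc2⟩ := v5_card_hom (o := o) (Z := D) (Y := (Y8 × Y8) ⧸ R)
    have h1 := v5_ker_card ρ
    have h2 : Nat.card (LinearMap.range ρ) ∣ Nat.card (D →ₗ[o] (Y8 × Y8) ⧸ R) := by
      rw [Submodule.card_eq_card_quotient_mul_card (LinearMap.range ρ)]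
      exact Dvd.intro _ rfl
    obtain ⟨m, hm⟩ := h2
    have h3 : Nat.card (Y8 × Y8) = Nat.card R * Nat.card ((Y8 × Y8) ⧸ R) :=
      Submodule.card_eq_card_quotient_mul_card R
    have h4 : Nat.card R = Nat.card (S7 o a ⧸ scol X.1) := v5_card_range_tau X.1
    have hrZ : Module.finrank o Z = 2 * b := by
      rw [v5_rank h Z hZ]
      simp [two_mul]
    have hrD : Module.finrank o D = b := by
      rw [v5_rank h D hD]
      simp
    rw [hrZ] at hc1
    rw [hrD] at hc2
    rw [hc1] at h1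
    rw [hc2] at hm
    rw [Nat.card_prod, h4] at h3
    have h5 : 0 < Nat.card (LinearMap.range ρ) := Nat.card_pos
    refine ⟨m, ?_⟩
    apply Nat.eq_of_mul_eq_mul_right h5
    rw [h1, pow_mul, pow_two, h3, mul_pow, hm]
    ring
  · have : IsEmpty {L : Lat o (A8 o a b) // inS L.1 = X.1 ∧ imQ L.1 = Z ∧ D ≤ v5F L.1} := by
      refine ⟨?_⟩
      rintro ⟨L, h1, h2, h3⟩
      apply hDZ
      intro f hf
      obtain ⟨⟨s, f'⟩, hx, hf'⟩ := h3 hf
      have hf'' : f' = f := hf'
      subst hf''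
      rw [SetLike.mem_coe, v5_vcol_mem] at hx
      rw [← h2]
      exact ⟨⟨_, hx.1, rfl⟩, ⟨_, hx.2, rfl⟩⟩
    have h0 : Nat.card {L : Lat o (A8 o a b) //
        inS L.1 = X.1 ∧ imQ L.1 = Z ∧ D ≤ v5F L.1} = 0 := Nat.card_of_isEmpty
    rw [h0]
    exact dvd_zero _

theorem v5_finite_wO (h : RingHyp o p q) (n : ℕ) :
    Finite {L : Lat o (A8 o a b) // wO q L.1 = n} := by
  have h1 := setFinite_le (fun L : Lat o (A8 o a b) => len q L.1) (fun k => lat_finite h k) n
  have h2 : {L : Lat o (A8 o a b) | wO q L.1 = n}.Finite := by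
    refine h1.subset ?_
    intro L hL
    have h3 : wO q L.1 = n := hL
    show len q L.1 ≤ n
    unfold wO at h3
    omega
  exact h2.to_subtype

omit [IsDomain o] [IsDiscreteValuationRing o] in
theorem v5_index_lt {M : Type} [AddCommGroup M] [Module o M] {D D' : Submodule o M}
    (hD : Finite (M ⧸ D)) (hlt : D < D') : Nat.card (M ⧸ D') < Nat.card (M ⧸ D) := by
  have e1 : Nat.card (M ⧸ D) = D.toAddSubgroup.index := rfl
  have e2 : Nat.card (M ⧸ D') = D'.toAddSubgroup.index := rfl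
  have h0 : Nat.card (M ⧸ D) ≠ 0 := Nat.card_pos.ne'
  have hle : D.toAddSubgroup ≤ D'.toAddSubgroup := hlt.le
  have h1 := AddSubgroup.relIndex_mul_index hle
  rw [e1] at h0
  rw [e1, e2]
  have h2 : D.toAddSubgroup.relIndex D'.toAddSubgroup ≠ 1 := by
    intro h3
    rw [AddSubgroup.relIndex_eq_one] at h3
    exact absurd h3 (not_le_of_gt hlt)
  have h3 : D.toAddSubgroup.relIndex D'.toAddSubgroup ≠ 0 := by
    intro h4
    rw [h4, zero_mul] at h1
    exact h0 h1.symm
  have h4 : D'.toAddSubgroup.index ≠ 0 := by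
    intro h5
    rw [h5, mul_zero] at h1
    exact h0 h1.symm
  rw [← h1]
  have h5 : 2 ≤ D.toAddSubgroup.relIndex D'.toAddSubgroup := by omega
  have h6 : 0 < D'.toAddSubgroup.index := Nat.pos_of_ne_zero h4
  nlinarith

/-- The number of lattices with given intersection, image and colon image. -/
theorem v5_eq (h : RingHyp o p q) (X : Lat o (S8 o a)) (Z : Submodule o (Q8 o b))
    (hZ : Finite (Q8 o b ⧸ Z)) (m : ℕ) : ∀ D : Submodule o (F7 o b), Finite (F7 o b ⧸ D) →
    Nat.card (F7 o b ⧸ D) = m → Nat.card (S7 o a ⧸ scol X.1) ^ b ∣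
      Nat.card {L : Lat o (A8 o a b) // inS L.1 = X.1 ∧ imQ L.1 = Z ∧ v5F L.1 = D} := by
  classical
  induction m using Nat.strong_induction_on with
  | _ m ih =>
    intro D hD hm
    set T : Type := {L : Lat o (A8 o a b) // inS L.1 = X.1 ∧ imQ L.1 = Z ∧ D ≤ v5F L.1} with hT
    have hfin : Finite T := by
      have hf := lat_finite h (M := A8 o a b)
        (Nat.log q (Nat.card (S8 o a ⧸ X.1) * Nat.card (Q8 o b ⧸ Z)))
      refine Finite.of_injective (β := {N : Lat o (A8 o a b) // len q N.1 =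
        Nat.log q (Nat.card (S8 o a ⧸ X.1) * Nat.card (Q8 o b ⧸ Z))})
        (fun L => ⟨L.1, ?_⟩) ?_
      · have e1 : Nat.card (A8 o a b ⧸ L.1.1) =
            Nat.card (S8 o a ⧸ inS L.1.1) * Nat.card (Q8 o b ⧸ imQ L.1.1) := v5_index L.1.1
        unfold len
        rw [e1, L.2.1, L.2.2.1]
      · intro L L' hLL
        exact Subtype.ext (congrArg (fun z => z.1) hLL)
    have hge : Nat.card (S7 o a ⧸ scol X.1) ^ b ∣ Nat.card T := v5_ge h X Z hZ D hD
    have hsplit : Nat.card T = Nat.card {L : T // v5F L.1.1 = D} +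
        Nat.card {L : T // ¬ v5F L.1.1 = D} := by
      rw [← Nat.card_sum]
      exact (Nat.card_congr (Equiv.sumCompl fun L : T => v5F L.1.1 = D)).symm
    have heq : Nat.card {L : T // v5F L.1.1 = D} =
        Nat.card {L : Lat o (A8 o a b) // inS L.1 = X.1 ∧ imQ L.1 = Z ∧ v5F L.1 = D} :=
      Nat.card_congr
        { toFun := fun y => ⟨y.1.1, y.1.2.1, y.1.2.2.1, y.2⟩
          invFun := fun L => ⟨⟨L.1, L.2.1, L.2.2.1, L.2.2.2.ge⟩, L.2.2.2⟩
          left_inv := fun _ => rfl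
          right_inv := fun _ => rfl }
    have hgt : Nat.card (S7 o a ⧸ scol X.1) ^ b ∣ Nat.card {L : T // ¬ v5F L.1.1 = D} := by
      apply v5_dvd_of_fibres (fun y : {L : T // ¬ v5F L.1.1 = D} => v5F y.1.1.1)
      intro D'
      by_cases hne : D < D' ∧ Finite (F7 o b ⧸ D')
      · have hlt := v5_index_lt hD hne.1
        rw [hm] at hlt
        have h1 := ih _ hlt D' hne.2 rfl
        have h2 : Nat.card {y : {L : T // ¬ v5F L.1.1 = D} // v5F y.1.1.1 = D'} =
            Nat.card {L : Lat o (A8 o a b) // inS L.1 = X.1 ∧ imQ L.1 = Z ∧ v5F L.1 = D'} :=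
          Nat.card_congr
            { toFun := fun y => ⟨y.1.1.1, y.1.1.2.1, y.1.1.2.2.1, y.2⟩
              invFun := fun L => ⟨⟨⟨L.1, L.2.1, L.2.2.1, by rw [L.2.2.2]; exact hne.1.le⟩, by
                rw [L.2.2.2]; exact hne.1.ne'⟩, L.2.2.2⟩
              left_inv := fun _ => rfl
              right_inv := fun _ => rfl }
        rw [h2]
        exact h1
      · have : IsEmpty {y : {L : T // ¬ v5F L.1.1 = D} // v5F y.1.1.1 = D'} := by
          refine ⟨?_⟩
          rintro ⟨⟨⟨L, h1, h2, h3⟩, h4⟩, h5⟩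
          apply hne
          have h6 : v5F L.1 = D' := h5
          have h7 : ¬ v5F L.1 = D := h4
          rw [h6] at h3 h7
          exact ⟨lt_of_le_of_ne h3 (Ne.symm h7), Finite.of_surjective
            (Submodule.mapQ D D' LinearMap.id h3) (by
              intro y
              obtain ⟨x, rfl⟩ := Submodule.mkQ_surjective D' y
              exact ⟨Submodule.Quotient.mk x, rfl⟩)⟩
        have h0 : Nat.card {y : {L : T // ¬ v5F L.1.1 = D} // v5F y.1.1.1 = D'} = 0 :=
          Nat.card_of_isEmpty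
        rw [h0]
        exact dvd_zero _
    rw [hsplit] at hge
    rw [← heq]
    exact (Nat.dvd_add_left hgt).1 hge

theorem v5_card_scol (h : RingHyp o p q) (X : Lat o (S8 o a)) :
    Nat.card (S7 o a ⧸ scol X.1) = q ^ len q (scol X.1) :=
  card_quot h (scol X.1) (v5_finite_scol X.1 X.2)

theorem v5_dvd_inS (h : RingHyp o p q) (X : Lat o (S8 o a)) (n : ℕ) :
    q ^ (b * len q (scol X.1)) ∣
      Nat.card {L : {L : Lat o (A8 o a b) // inS L.1 = X.1} // wO q L.1.1 = n} := by
  classical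
  have hfin : Finite {L : {L : Lat o (A8 o a b) // inS L.1 = X.1} // wO q L.1.1 = n} := by
    have := v5_finite_wO (a := a) (b := b) h n
    refine Finite.of_injective (β := {L : Lat o (A8 o a b) // wO q L.1 = n})
      (fun L => ⟨L.1.1, L.2⟩) ?_
    intro L L' hLL
    exact Subtype.ext (Subtype.ext (congrArg (fun z => z.1) hLL))
  apply v5_dvd_of_fibres
    (fun L : {L : {L : Lat o (A8 o a b) // inS L.1 = X.1} // wO q L.1.1 = n} =>
      (imQ L.1.1.1, v5F L.1.1.1))
  rintro ⟨Z, D⟩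
  by_cases hne : Nonempty {y : {L : {L : Lat o (A8 o a b) // inS L.1 = X.1} // wO q L.1.1 = n} //
      (imQ y.1.1.1, v5F y.1.1.1) = (Z, D)}
  · obtain ⟨⟨⟨⟨L0, h1⟩, h2⟩, h3⟩⟩ := hne
    have h4 : imQ L0.1 = Z := congrArg Prod.fst h3
    have h5 : v5F L0.1 = D := congrArg Prod.snd h3
    have h6 : wO q L0.1 = n := h2
    have hL0 := L0.2
    have hZ : Finite (Q8 o b ⧸ Z) := by
      apply Nat.finite_of_card_ne_zero
      intro h7
      have e1 : Nat.card (A8 o a b ⧸ L0.1) =
            Nat.card (S8 o a ⧸ inS L0.1) * Nat.card (Q8 o b ⧸ imQ L0.1) := v5_index L0.1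
      rw [h4, h7, mul_zero] at e1
      exact Nat.card_pos.ne' e1
    have hv : Finite (A7 o a b ⧸ vcol L0.1) := by
      let τ : A7 o a b →ₗ[o] (A8 o a b ⧸ L0.1) × (A8 o a b ⧸ L0.1) :=
        (L0.1.mkQ ∘ₗ adV 0).prod (L0.1.mkQ ∘ₗ adV 1)
      have hτ : LinearMap.ker τ = vcol L0.1 := by
        unfold vcol
        rw [LinearMap.ker_prod, LinearMap.ker_comp, LinearMap.ker_comp, Submodule.ker_mkQ]
      rw [← hτ]
      exact Finite.of_injective _ (LinearMap.quotKerEquivRange τ).injective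
    have hD : Finite (F7 o b ⧸ D) := by
      apply Nat.finite_of_card_ne_zero
      intro h7
      have e1 : Nat.card (A7 o a b ⧸ vcol L0.1) =
            Nat.card (S7 o a ⧸ scol (inS L0.1)) * Nat.card (F7 o b ⧸ v5F L0.1) :=
        v5_index (vcol L0.1)
      rw [h5, h7, mul_zero] at e1
      exact Nat.card_pos.ne' e1
    have h8 : Nat.card {y : {L : {L : Lat o (A8 o a b) // inS L.1 = X.1} // wO q L.1.1 = n} //
        (imQ y.1.1.1, v5F y.1.1.1) = (Z, D)} =
        Nat.card {L : Lat o (A8 o a b) // inS L.1 = X.1 ∧ imQ L.1 = Z ∧ v5F L.1 = D} :=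
      Nat.card_congr
        { toFun := fun y => ⟨y.1.1.1, y.1.1.2, congrArg Prod.fst y.2, congrArg Prod.snd y.2⟩
          invFun := fun L => ⟨⟨⟨L.1, L.2.1⟩, by
            have : wO q L.1.1 = wO q L0.1 := v5_wO_eq _ _ (L.2.1.trans h1.symm)
              (L.2.2.1.trans h4.symm) (L.2.2.2.trans h5.symm)
            rw [← h6]
            exact this⟩, Prod.ext L.2.2.1 L.2.2.2⟩
          left_inv := fun _ => rfl
          right_inv := fun _ => rfl }
    rw [h8]
    have h9 := v5_eq h X Z hZ _ D hD rfl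
    rw [v5_card_scol h X, ← pow_mul, mul_comm] at h9
    exact h9
  · have := not_nonempty_iff.1 hne
    have h0 : Nat.card {y : {L : {L : Lat o (A8 o a b) // inS L.1 = X.1} // wO q L.1.1 = n} //
      (imQ y.1.1.1, v5F y.1.1.1) = (Z, D)} = 0 := Nat.card_of_isEmpty
    rw [h0]
    exact dvd_zero _

/-- The lattices with a given intersection. -/
theorem dvd_inS (h : RingHyp o p q) (X : Lat o (S8 o a)) (n : ℕ) :
    (q : ℤ) ^ (b * len q (scol X.1)) ∣
      PowerSeries.coeff n (gf (fun L : {L : Lat o (A8 o a b) // inS L.1 = X.1} =>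
        wO q L.1.1)) := by
  unfold gf
  rw [PowerSeries.coeff_mk]
  have h1 := v5_dvd_inS (b := b) h X n
  have h2 := Int.natCast_dvd_natCast.2 h1
  rw [Nat.cast_pow] at h2
  exact h2

/-- A finite module with `q ^ k` elements is killed by `p ^ k`. -/
theorem v5_exponent (h : RingHyp o p q) (k : ℕ) : ∀ (Y : Type) [AddCommGroup Y] [Module o Y]
    [Finite Y], Nat.card Y = q ^ k → ∀ y : Y, (p : o) ^ k • y = 0 := by
  induction k using Nat.strong_induction_on with
  | _ k ih =>
    intro Y _ _ _ hc y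
    rcases Nat.eq_zero_or_pos k with hk | hk
    · subst hk
      rw [pow_zero] at hc
      have := (Nat.card_eq_one_iff_unique.1 hc).1
      exact Subsingleton.elim _ _
    · let f : Y →ₗ[o] Y := LinearMap.lsmul o Y (p : o)
      have hf : ∀ x, f x = (p : o) • x := fun x => rfl
      have hne : LinearMap.range f ≠ ⊤ := by
        intro htop
        have hsurj : Function.Surjective f := LinearMap.range_eq_top.1 htop
        have hs : ∀ j : ℕ, ∀ y : Y, ∃ x : Y, (p : o) ^ j • x = y := by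
          intro j
          induction j with
          | zero => intro y; exact ⟨y, by rw [pow_zero, one_smul]⟩
          | succ j ihj =>
            intro y
            obtain ⟨x, hx⟩ := ihj y
            obtain ⟨x', hx'⟩ := hsurj x
            refine ⟨x', ?_⟩
            rw [pow_succ, mul_smul, ← hf, hx', hx]
        have h0 : ∀ y : Y, y = 0 := by
          intro y
          obtain ⟨x, hx⟩ := hs (Nat.card Y) y
          rw [← hx]
          exact LC.pow_card_smul h x
        have h1 : Nat.card Y = 1 := by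
          rw [Nat.card_eq_one_iff_unique]
          exact ⟨⟨fun u v => by rw [h0 u, h0 v]⟩, ⟨0⟩⟩
        rw [h1] at hc
        have := Nat.one_lt_pow hk.ne' h.one_lt
        omega
      obtain ⟨k', hk'⟩ := LC.exists_card_eq h _ (LinearMap.range f) rfl
      have hlt : Nat.card (LinearMap.range f) < Nat.card Y := by
        obtain ⟨y0, hy0⟩ : ∃ y0, y0 ∉ LinearMap.range f := by
          by_contra hcon
          rw [not_exists] at hcon
          exact hne (Submodule.eq_top_iff'.2 fun y0 => not_not.1 (hcon y0))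
        exact Finite.card_subtype_lt hy0
      rw [hc, hk'] at hlt
      have hkk : k' < k := (Nat.pow_lt_pow_iff_right h.one_lt).1 hlt
      have h5 := ih k' hkk (LinearMap.range f) hk' ⟨f y, ⟨y, rfl⟩⟩
      have h6 : (p : o) ^ k' • (p : o) • y = 0 := congrArg Subtype.val h5
      obtain ⟨j, rfl⟩ : ∃ j, k = j + (k' + 1) := ⟨k - (k' + 1), by omega⟩
      rw [pow_add, pow_succ, mul_smul, mul_smul, h6, smul_zero]

theorem len_scol (h : RingHyp o p q) (X : Lat o (S8 o a)) (e : ℕ)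
    (hX : ¬ ∀ s : S8 o a, (p : o) ^ e • s ∈ X.1) : e + 1 ≤ len q (scol X.1) := by
  by_contra hcon
  apply hX
  have hfin := v5_finite_scol X.1 X.2
  have h1 := v5_exponent h _ (S7 o a ⧸ scol X.1) (v5_card_scol h X)
  have h2 : ∀ t : S7 o a, (p : o) ^ e • t ∈ scol X.1 := by
    intro t
    obtain ⟨j, hj⟩ : ∃ j, e = j + len q (scol X.1) := ⟨e - len q (scol X.1), by omega⟩
    have h3 := h1 (Submodule.Quotient.mk t)
    rw [← Submodule.Quotient.mk_smul, Submodule.Quotient.mk_eq_zero] at h3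
    rw [hj, pow_add, mul_smul]
    exact Submodule.smul_mem _ _ h3
  rintro ⟨s1, s2, s3⟩
  have h3 := (h2 (s1, s2)).1
  have h4 := (h2 (0, s3)).2
  have h5 := X.1.add_mem h3 h4
  have h6 : (p : o) ^ e • ((s1, s2, s3) : S8 o a) = sX ((p : o) ^ e • ((s1, s2) : S7 o a)) +
      sY ((p : o) ^ e • ((0, s3) : S7 o a)) := by
    rw [map_smul, map_smul, ← smul_add]
    congr 1
    show (s1, s2, s3) = (s1, s2, (0 : Fin a → o)) + ((0 : Fin a → o), (0 : Fin a → o), s3)
    simp
  rw [h6]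
  exact h5

theorem dvd_LE (h : RingHyp o p q) (hq : p ∣ q) (hb : 1 ≤ b) (e n : ℕ) :
    (p : ℤ) ^ e ∣ PowerSeries.coeff n (gf (fun L : Lat o (A8 o a b) => wO q L.1) -
      gf (fun L : LE o a b p e => wO q L.1.1)) := by
  classical
  rw [map_sub]
  unfold gf
  rw [PowerSeries.coeff_mk, PowerSeries.coeff_mk]
  have hfin := v5_finite_wO (a := a) (b := b) h n
  set P : {L : Lat o (A8 o a b) // wO q L.1 = n} → Prop :=
    fun L => ∀ s : S8 o a, (p : o) ^ e • ((s, 0) : A8 o a b) ∈ L.1.1 with hP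
  have h1 : Nat.card {L : Lat o (A8 o a b) // wO q L.1 = n} =
      Nat.card {L : {L : Lat o (A8 o a b) // wO q L.1 = n} // P L} +
      Nat.card {L : {L : Lat o (A8 o a b) // wO q L.1 = n} // ¬ P L} := by
    rw [← Nat.card_sum]
    exact (Nat.card_congr (Equiv.sumCompl P)).symm
  have h2 : Nat.card {L : {L : Lat o (A8 o a b) // wO q L.1 = n} // P L} =
      Nat.card {L : LE o a b p e // wO q L.1.1 = n} :=
    Nat.card_congr
      { toFun := fun y => ⟨⟨y.1.1, y.2⟩, y.1.2⟩
        invFun := fun L => ⟨⟨L.1.1, L.2⟩, L.1.2⟩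
        left_inv := fun _ => rfl
        right_inv := fun _ => rfl }
  have h3 : p ^ e ∣ Nat.card {L : {L : Lat o (A8 o a b) // wO q L.1 = n} // ¬ P L} := by
    apply v5_dvd_of_fibres
      (fun L : {L : {L : Lat o (A8 o a b) // wO q L.1 = n} // ¬ P L} => inS L.1.1.1)
    intro X
    by_cases hX : Finite (S8 o a ⧸ X) ∧ ¬ ∀ s : S8 o a, (p : o) ^ e • s ∈ X
    · have h4 : Nat.card {y : {L : {L : Lat o (A8 o a b) // wO q L.1 = n} // ¬ P L} //
          inS y.1.1.1 = X} =
          Nat.card {L : {L : Lat o (A8 o a b) // inS L.1 = X} // wO q L.1.1 = n} :=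
        Nat.card_congr
          { toFun := fun y => ⟨⟨y.1.1.1, y.2⟩, y.1.1.2⟩
            invFun := fun L => ⟨⟨⟨L.1.1, L.2⟩, by
              intro h5
              apply hX.2
              intro s
              have h6 := h5 s
              have h7 : (p : o) ^ e • s ∈ inS L.1.1.1 := by
                have h8 : ((p : o) ^ e • s, (0 : Q8 o b)) =
                    (p : o) ^ e • ((s, 0) : A8 o a b) :=
                  Prod.ext rfl (smul_zero ((p : o) ^ e)).symm
                show ((p : o) ^ e • s, (0 : Q8 o b)) ∈ L.1.1.1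
                rw [h8]
                exact h6
              rw [L.1.2] at h7
              exact h7⟩, L.1.2⟩
            left_inv := fun _ => rfl
            right_inv := fun _ => rfl }
      rw [h4]
      have h5 := v5_dvd_inS (b := b) h ⟨X, hX.1⟩ n
      have h6 := len_scol h ⟨X, hX.1⟩ e hX.2
      refine dvd_trans ?_ h5
      refine dvd_trans (pow_dvd_pow_of_dvd hq e) (pow_dvd_pow q ?_)
      calc e ≤ 1 * len q (scol X) := by
            rw [one_mul]
            exact (Nat.le_succ e).trans h6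
        _ ≤ b * len q (scol X) := Nat.mul_le_mul_right _ hb
    · have : IsEmpty {y : {L : {L : Lat o (A8 o a b) // wO q L.1 = n} // ¬ P L} //
          inS y.1.1.1 = X} := by
        refine ⟨?_⟩
        rintro ⟨⟨⟨L, h4⟩, h5⟩, h6⟩
        apply hX
        have h7 : inS L.1 = X := h6
        rw [← h7]
        refine ⟨v5_finite_inS L.1 L.2, ?_⟩
        intro h8
        apply h5
        intro s
        have h9 : ((p : o) ^ e • s, (0 : Q8 o b)) =
            (p : o) ^ e • ((s, 0) : A8 o a b) :=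
          Prod.ext rfl (smul_zero ((p : o) ^ e)).symm
        rw [← h9]
        exact h8 s
      have h0 : Nat.card {y : {L : {L : Lat o (A8 o a b) // wO q L.1 = n} // ¬ P L} //
          inS y.1.1.1 = X} = 0 := Nat.card_of_isEmpty
      rw [h0]
      exact dvd_zero _
  rw [h1, h2]
  push_cast
  rw [add_sub_cancel_left]
  have h4 := Int.natCast_dvd_natCast.2 h3
  rw [Nat.cast_pow] at h4
  exact h4

end count

end Pool.Agent.TZ8
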