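import Pool.Agent.TZ8.VAL4

set_option autoImplicit false

/-! The limit of `N_e`. -/

namespace Pool.Agent.TZ8

open Pool.Agent.TZ

namespace VAL6

section expo

variable {o : Type} [CommRing o] [IsDomain o] [IsDiscreteValuationRing o] {p q : ℕ}

/-- A module with `q ^ m` elements is killed by `p ^ m`. -/
theorem pow_smul_of_card (h : RingHyp o p q) (m : ℕ) : ∀ (Q : Type) [AddCommGroup Q] [Module o Q]
    [Finite Q], Nat.card Q = q ^ m → ∀ x : Q, (p : o) ^ m • x = 0 := by
  induction m using Nat.strong_induction_on with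
  | _ m ih =>
    intro Q _ _ _ hm x
    by_cases hs : Subsingleton Q
    · exact Subsingleton.elim _ _
    · rw [not_subsingleton_iff_nontrivial] at hs
      set P : Submodule o Q := LinearMap.range (LinearMap.lsmul o Q (p : o)) with hP
      have hPm : ∀ y : Q, (p : o) • y ∈ P := fun y => ⟨y, rfl⟩
      have hne : P ≠ ⊤ := by
        intro htop
        have hall : ∀ n : ℕ, ∀ y : Q, ∃ z : Q, (p : o) ^ n • z = y := by
          intro n
          induction n with
          | zero => exact fun y => ⟨y, by simp⟩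
          | succ n ihn =>
            intro y
            have hy : y ∈ P := by rw [htop]; trivial
            obtain ⟨z, hz⟩ := hy
            obtain ⟨w, hw⟩ := ihn z
            refine ⟨w, ?_⟩
            rw [pow_succ', mul_smul, hw]
            exact hz
        obtain ⟨y, hy⟩ := exists_ne (0 : Q)
        obtain ⟨z, hz⟩ := hall (Nat.card Q) y
        rw [LC.pow_card_smul h z] at hz
        exact hy hz.symm
      have hlt : Nat.card P < Nat.card Q := by
        have hmul : Nat.card Q = Nat.card P * Nat.card (Q ⧸ P) :=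
          Submodule.card_eq_card_quotient_mul_card _
        have : Nontrivial (Q ⧸ P) := Submodule.Quotient.nontrivial_iff.2 hne
        have : Finite (Q ⧸ P) := Finite.of_surjective _ (Submodule.mkQ_surjective _)
        have h2 : 1 < Nat.card (Q ⧸ P) := Finite.one_lt_card
        have h3 : 0 < Nat.card P := Nat.card_pos
        rw [hmul]
        nlinarith
      obtain ⟨k, hk⟩ := LC.exists_card_eq h _ P rfl
      have hkm : k < m := by
        rw [hk, hm] at hlt
        exact (Nat.pow_lt_pow_iff_right h.one_lt).1 hlt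
      have h1 := ih k hkm P hk ⟨(p : o) • x, hPm x⟩
      have h2 : (p : o) ^ k • ((p : o) • x) = 0 := congrArg Subtype.val h1
      rw [show m = (m - (k + 1)) + (k + 1) by omega, pow_add, mul_smul, pow_succ, mul_smul, h2,
        smul_zero]

/-- A lattice of colength at most `e` contains `p ^ e M`. -/
theorem pow_smul_mem_of_len (h : RingHyp o p q) {M : Type} [AddCommGroup M] [Module o M]
    [Module.Finite o M] (L : Lat o M) (e : ℕ) (he : len q L.1 ≤ e) (x : M) :
    (p : o) ^ e • x ∈ L.1 := by
  have := L.2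
  have h1 := pow_smul_of_card h _ (M ⧸ L.1) (card_quot h L.1 L.2) (Submodule.Quotient.mk x)
  rw [← Submodule.Quotient.mk_smul, Submodule.Quotient.mk_eq_zero] at h1
  rw [show e = (e - len q L.1) + len q L.1 by omega, pow_add, mul_smul]
  exact L.1.smul_mem _ h1

end expo

section vals

variable {o : Type} [CommRing o] [IsDomain o] [IsDiscreteValuationRing o] {p q : ℕ}

/-- The twisted zeta function converges. -/
theorem psum_twist [Fact p.Prime] (h : RingHyp o p q) (hq : p ∣ q) {c : ℕ} (hc : 1 ≤ c)
    {M : Type} [AddCommGroup M] [Module o M] [Module.Free o M] [Module.Finite o M] :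
    PSum p (PowerSeries.rescale ((q : ℤ) ^ c) (gf (fun N : Lat o M => len q N.1)))
      (1 / ∏ j ∈ Finset.range (Module.finrank o M), (1 - (q : ℚ_[p]) ^ (j + c))) := by
  have h1 := congrArg (PowerSeries.rescale ((q : ℤ) ^ c)) (gf_lat h (M := M))
  rw [map_mul, map_one, map_prod] at h1
  set G := PowerSeries.rescale ((q : ℤ) ^ c) (gf (fun N : Lat o M => len q N.1)) with hG
  have h2 : ∀ k : ℕ, PowerSeries.rescale ((q : ℤ) ^ c)
      (1 - PowerSeries.C ((q : ℤ) ^ k) * PowerSeries.X) =
      1 - PowerSeries.C ((q : ℤ) ^ (k + c)) * PowerSeries.X := by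
    intro k
    rw [map_sub, map_one, map_mul, PowerSeries.rescale_X]
    have : PowerSeries.rescale ((q : ℤ) ^ c) (PowerSeries.C ((q : ℤ) ^ k)) =
        PowerSeries.C ((q : ℤ) ^ k) := by
      ext m
      rw [PowerSeries.coeff_rescale, PowerSeries.coeff_C]
      split_ifs with hm
      · rw [hm]; simp
      · simp
    rw [this, ← mul_assoc, ← map_mul, pow_add]
  rw [Finset.prod_congr rfl fun k _ => h2 k] at h1
  have h3 : G = ∏ k ∈ Finset.range (Module.finrank o M), geo ((q : ℤ) ^ (k + c)) := by
    have h4 : (∏ k ∈ Finset.range (Module.finrank o M),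
        (1 - PowerSeries.C ((q : ℤ) ^ (k + c)) * PowerSeries.X)) *
        ∏ k ∈ Finset.range (Module.finrank o M), geo ((q : ℤ) ^ (k + c)) = 1 := by
      rw [← Finset.prod_mul_distrib]
      exact Finset.prod_eq_one fun k _ => one_sub_mul_geo _
    calc G = G * ((∏ k ∈ Finset.range (Module.finrank o M),
        (1 - PowerSeries.C ((q : ℤ) ^ (k + c)) * PowerSeries.X)) *
        ∏ k ∈ Finset.range (Module.finrank o M), geo ((q : ℤ) ^ (k + c))) := by rw [h4, mul_one]
      _ = _ := by rw [← mul_assoc, h1, one_mul]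
  rw [h3]
  have hval : (1 / ∏ j ∈ Finset.range (Module.finrank o M), (1 - (q : ℚ_[p]) ^ (j + c))) =
      ∏ j ∈ Finset.range (Module.finrank o M), (1 - (((q : ℤ) ^ (j + c) : ℤ) : ℚ_[p]))⁻¹ := by
    rw [one_div, ← Finset.prod_inv_distrib]
    push_cast
    rfl
  rw [hval]
  refine psum_finset_prod _ fun k _ => psum_geo ?_
  push_cast
  rw [norm_pow]
  refine pow_lt_one₀ (norm_nonneg _) ?_ (by omega)
  exact Padic.norm_natCast_lt_one_iff.2 hq

end vals

end VAL6

open VAL6

variable {o : Type} [CommRing o] [IsDomain o] [IsDiscreteValuationRing o] {p q a b : ℕ}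

theorem tendsto_Ne [Fact p.Prime] (h : RingHyp o p q) (hq : p ∣ q) (hb : 1 ≤ b) :
    Filter.Tendsto (fun e : ℕ => (Ne o q a b p e : ℚ_[p])) Filter.atTop
      (nhds (1 / ∏ j ∈ Finset.range (3 * a), (1 - (q : ℚ_[p]) ^ (j + 2 * b)))) := by
  classical
  have hrank : Module.finrank o (S8 o a) = 3 * a := by
    rw [Module.finrank_prod, Module.finrank_prod, Module.finrank_fin_fun]
    omega
  have hp := psum_twist h hq (c := 2 * b) (by omega) (M := S8 o a)
  rw [hrank] at hp
  have hlim := hp.tendsto_sum_nat
  have hlim1 := hlim.comp (Filter.tendsto_add_atTop_nat 1)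
  -- the difference
  have hdiv : ∀ e : ℕ, (p : ℤ) ^ (e + 1) ∣ (Ne o q a b p e : ℤ) -
      ∑ i ∈ Finset.range (e + 1), PowerSeries.coeff i (PowerSeries.rescale ((q : ℤ) ^ (2 * b))
        (gf (fun N : Lat o (S8 o a) => len q N.1))) := by
    intro e
    have hfin : Finite (XE o a p e) := finite_XE h e
    have hF := Fintype.ofFinite (XE o a p e)
    have h1 : (Ne o q a b p e : ℤ) = ∑ X : XE o a p e, (q : ℤ) ^ (2 * b * len q X.1.1) := by
      rw [Ne, finsum_eq_sum_of_fintype]
      push_cast
      rfl
    have h2 : ∑ i ∈ Finset.range (e + 1), PowerSeries.coeff i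
        (PowerSeries.rescale ((q : ℤ) ^ (2 * b)) (gf (fun N : Lat o (S8 o a) => len q N.1))) =
        ∑ X : XE o a p e, if len q X.1.1 ≤ e then (q : ℤ) ^ (2 * b * len q X.1.1) else 0 := by
      have h3 : ∀ i ∈ Finset.range (e + 1), PowerSeries.coeff i
          (PowerSeries.rescale ((q : ℤ) ^ (2 * b)) (gf (fun N : Lat o (S8 o a) => len q N.1))) =
          ∑ X : XE o a p e, if len q X.1.1 = i then (q : ℤ) ^ (2 * b * len q X.1.1) else 0 := by
        intro i hi
        rw [Finset.mem_range] at hi
        rw [PowerSeries.coeff_rescale, gf, PowerSeries.coeff_mk, ← Finset.sum_filter]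
        have h4 : ∑ X : XE o a p e with len q X.1.1 = i, (q : ℤ) ^ (2 * b * len q X.1.1) =
            ∑ X : XE o a p e with len q X.1.1 = i, (q : ℤ) ^ (2 * b * i) := by
          refine Finset.sum_congr rfl fun X hX => ?_
          rw [Finset.mem_filter] at hX
          rw [hX.2]
        rw [h4, Finset.sum_const, nsmul_eq_mul, pow_mul (q : ℤ) (2 * b) i, mul_comm]
        congr 1
        have h5 : {N : Lat o (S8 o a) // len q N.1 = i} ≃ {X : XE o a p e // len q X.1.1 = i} :=
          { toFun := fun N => ⟨⟨N.1, fun s => pow_smul_mem_of_len h N.1 e (by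
              rw [N.2]; omega) s⟩, N.2⟩
            invFun := fun X => ⟨X.1.1, X.2⟩
            left_inv := fun N => rfl
            right_inv := fun X => rfl }
        rw [Nat.card_congr h5, Nat.card_eq_fintype_card, Fintype.card_subtype]
      rw [Finset.sum_congr rfl h3, Finset.sum_comm]
      refine Finset.sum_congr rfl fun X _ => ?_
      rw [Finset.sum_ite_eq]
      by_cases hX : len q X.1.1 ≤ e
      · rw [if_pos hX, if_pos (Finset.mem_range.2 (by omega))]
      · rw [if_neg hX, if_neg (by rw [Finset.mem_range]; omega)]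
    rw [h1, h2, ← Finset.sum_sub_distrib]
    refine Finset.dvd_sum fun X _ => ?_
    split_ifs with hX
    · rw [sub_self]; exact dvd_zero _
    · rw [sub_zero]
      refine (pow_dvd_pow_of_dvd (by exact_mod_cast hq : (p : ℤ) ∣ (q : ℤ)) (e + 1)).trans
        (pow_dvd_pow _ ?_)
      rw [not_le] at hX
      nlinarith
  have hzero : Filter.Tendsto (fun e : ℕ => (Ne o q a b p e : ℚ_[p]) -
      ∑ i ∈ Finset.range (e + 1), ((PowerSeries.coeff i (PowerSeries.rescale ((q : ℤ) ^ (2 * b))
        (gf (fun N : Lat o (S8 o a) => len q N.1))) : ℤ) : ℚ_[p])) Filter.atTop (nhds 0) := by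
    rw [tendsto_zero_iff_norm_tendsto_zero]
    have hp1 : (1 : ℝ) < p := by exact_mod_cast (Fact.out : p.Prime).one_lt
    have hg : Filter.Tendsto (fun e : ℕ => ((p : ℝ)⁻¹) ^ (e + 1)) Filter.atTop (nhds 0) :=
      (tendsto_pow_atTop_nhds_zero_of_lt_one (by positivity) (inv_lt_one_of_one_lt₀ hp1)).comp
        (Filter.tendsto_add_atTop_nat 1)
    refine squeeze_zero (fun e => norm_nonneg _) (fun e => ?_) hg
    have h2 := (Padic.norm_int_le_pow_iff_dvd (p := p) _ _).2 (hdiv e)
    rw [zpow_neg, zpow_natCast, ← inv_pow] at h2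
    refine le_trans (le_of_eq ?_) h2
    push_cast
    rfl
  have := hzero.add hlim1
  rw [zero_add] at this
  refine this.congr fun e => ?_
  simp only [Function.comp]
  ring

end Pool.Agent.TZ8
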