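import Pool.Agent.TZ8.VAL1
import Pool.Agent.TZ8.VAL3
import Pool.Agent.TZ8.VAL5
import Pool.Agent.TZ8.VAL6
import Pool.Agent.TZ8.LD

set_option autoImplicit false

/-! The leading coefficient of the zeta function of the standard model. -/

namespace Pool.Agent.TZ8

open Pool.Agent.TZ

/-- `K_n = 1 / ∏_{1 ≤ j < n} (1 - q ^ j)`. -/
noncomputable def kap (p : ℕ) [Fact p.Prime] (q n : ℕ) : ℚ_[p] :=
  1 / ∏ j ∈ Finset.Ico 1 n, (1 - (q : ℚ_[p]) ^ j)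

variable {o : Type} [CommRing o] [IsDomain o] [IsDiscreteValuationRing o] {p q a b : ℕ}

private theorem one_sub_q_pow_ne_zero [Fact p.Prime] (hq : p ∣ q) {j : ℕ} (hj : 1 ≤ j) :
    (1 - (q : ℚ_[p]) ^ j) ≠ 0 := by
  have h1 : (p : ℤ) ∣ (q : ℤ) ^ j := dvd_pow (by exact_mod_cast hq) (by omega)
  have := one_sub_ne_zero (p := p) h1
  simpa using this

private theorem prod_Ico_ne_zero [Fact p.Prime] (hq : p ∣ q) (n : ℕ) :
    ∏ j ∈ Finset.Ico 1 n, (1 - (q : ℚ_[p]) ^ j) ≠ 0 :=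
  Finset.prod_ne_zero_iff.2 fun _ hj => one_sub_q_pow_ne_zero hq (Finset.mem_Ico.1 hj).1

private theorem kap_split [Fact p.Prime] (hb : 1 ≤ b) :
    (1 / ∏ j ∈ Finset.range (3 * a), (1 - (q : ℚ_[p]) ^ (j + 2 * b))) *
      (1 / ∏ j ∈ Finset.Ico 1 (2 * b), (1 - (q : ℚ_[p]) ^ j)) = kap p q (3 * a + 2 * b) := by
  have h1 : ∏ j ∈ Finset.range (3 * a), (1 - (q : ℚ_[p]) ^ (j + 2 * b)) =
      ∏ j ∈ Finset.Ico (2 * b) (3 * a + 2 * b), (1 - (q : ℚ_[p]) ^ j) := by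
    have h3 := Finset.prod_Ico_add' (fun j : ℕ => (1 - (q : ℚ_[p]) ^ j)) 0 (3 * a) (2 * b)
    rw [Nat.zero_add] at h3
    rw [Finset.range_eq_Ico, ← h3]
  have h2 := Finset.prod_Ico_consecutive (fun j : ℕ => (1 - (q : ℚ_[p]) ^ j))
    (show 1 ≤ 2 * b by omega) (show 2 * b ≤ 3 * a + 2 * b by omega)
  rw [kap, ← h2, h1]
  ring

private theorem lead_wO [Fact p.Prime] (h : RingHyp o p q) (hq : p ∣ q) (hp : p ≠ 2)
    (hb : 1 ≤ b) :
    Lead p 1 (gf (fun L : Lat o (A8 o a b) => wO q L.1))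
      ((2 / 3 : ℚ_[p]) * kap p q (3 * a + 2 * b)) := by
  have hb0 : (b : ℚ_[p]) ≠ 0 := by exact_mod_cast (show b ≠ 0 by omega)
  have h3b : ((3 * b : ℕ) : ℚ_[p]) ≠ 0 := by exact_mod_cast (show 3 * b ≠ 0 by omega)
  have hlim := lead_lim (p := p) (r := 1) (G := gf (fun L : Lat o (A8 o a b) => wO q L.1))
    (psum_geom (p := p) (3 * b)) h3b
    (fun e => gf (fun L : LE o a b p e => wO q L.1.1))
    (fun e => gf (fun L : LEP o a b p e => wO q L.1.1.1))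
    (fun e => (Ne o q a b p e : ℚ_[p]) * (((2 * b : ℕ) : ℚ_[p]) /
        ∏ j ∈ Finset.Ico 1 (2 * b), (1 - (q : ℚ_[p]) ^ j)))
    ((1 / ∏ j ∈ Finset.range (3 * a), (1 - (q : ℚ_[p]) ^ (j + 2 * b))) *
      (((2 * b : ℕ) : ℚ_[p]) / ∏ j ∈ Finset.Ico 1 (2 * b), (1 - (q : ℚ_[p]) ^ j)))
    (fun e n => dvd_LE h hq hb e n)
    (fun e => by
      rw [← gf_scale h e, pow_one, mul_comm (1 - PowerSeries.X) _, geom_sum_mul_neg])
    (fun e => psum_of_padicEq (padicEq_LEP h hp e) (psum_LEP_im h hq hb e))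
    ((tendsto_Ne h hq hb).mul_const _)
  convert hlim using 1
  rw [← kap_split (a := a) hb]
  have hn1 : ∏ j ∈ Finset.range (3 * a), (1 - (q : ℚ_[p]) ^ (j + 2 * b)) ≠ 0 :=
    Finset.prod_ne_zero_iff.2 fun _ _ => one_sub_q_pow_ne_zero hq (by omega)
  have hn2 := prod_Ico_ne_zero (p := p) hq (2 * b)
  have h30 : (3 : ℚ_[p]) ≠ 0 := by
    exact_mod_cast (show (3 : ℕ) ≠ 0 by norm_num)
  push_cast
  field_simp

theorem lead_val [Fact p.Prime] (h : RingHyp o p q) (hq : p ∣ q) (hp : p ≠ 2) (hb : 1 ≤ b) :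
    Lead p 2 (gf (fun x : PairV o a b => len q x.1.1.1 + len q x.1.2.1))
      ((2 / 3 : ℚ_[p]) * kap p q (2 * a + b) * kap p q (3 * a + 2 * b)) := by
  obtain ⟨A, F, α, hA, hα, hF, hG⟩ := lead_wO (o := o) (a := a) h hq hp hb
  have hpair := gf_pair (o := o) (a := a) (b := b) h
  have hr : Finset.range (2 * a + b) = insert 0 (Finset.Ico 1 (2 * a + b)) := by
    ext i; simp only [Finset.mem_range, Finset.mem_insert, Finset.mem_Ico]; omega
  have h0 : (0 : ℕ) ∉ Finset.Ico 1 (2 * a + b) := by simp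
  rw [hr, Finset.prod_insert h0, pow_zero, map_one, one_mul] at hpair
  have hne := prod_Ico_ne_zero (p := p) hq (2 * a + b)
  refine ⟨(∏ k ∈ Finset.Ico 1 (2 * a + b),
      (1 - PowerSeries.C ((q : ℤ) ^ k) * PowerSeries.X)) * A, F,
    (∏ j ∈ Finset.Ico 1 (2 * a + b), (1 - (q : ℚ_[p]) ^ j)) * α, psum_mul ?_ hA,
    mul_ne_zero hne hα, ?_, ?_⟩
  · refine psum_finset_prod _ fun j _ => ?_
    have := psum_one_sub_C_mul_X (p := p) ((q : ℤ) ^ j)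
    simpa using this
  · convert hF using 1
    rw [kap]
    field_simp
  · rw [← hG, ← hpair]
    ring

end Pool.Agent.TZ8
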