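import Pool.Agent.TZ8.GR1

set_option autoImplicit false

/-! Rigidity in terms of families. -/

namespace Pool.Agent.TZ8

open Pool.Agent.TZ

variable {o : Type} [CommRing o] {p : ℕ} {d : ℕ}
  {M : ℕ → Type} [∀ i, AddCommGroup (M i)] [∀ i, Module o (M i)]
  {ad : ∀ i, Fin d → M i →ₗ[o] M (i + 1)} {c : ℕ}

theorem GR5_sgl_self (i : Fin c) (x : M i) : sgl ad c i x i = x :=
  Pi.single_eq_same (M := fun i : Fin c => M i) i x

theorem GR5_sgl_ne {i k : Fin c} (h : k ≠ i) (x : M i) : sgl ad c i x k = 0 :=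
  Pi.single_eq_of_ne (M := fun i : Fin c => M i) h x

theorem GR5_opE (i : Fin c) (v : NN ad c) : prE ad c i v = sgl ad c i (v i) := by
  funext k
  show (if k = i then v k else 0) = _
  by_cases h : k = i
  · subst h
    rw [if_pos rfl, GR5_sgl_self]
  · rw [if_neg h, GR5_sgl_ne h]

theorem GR5_opX (i : ℕ) (hi : i + 1 < c) (j : Fin d) (x : M i) :
    prX ad c j (sgl ad c ⟨i, Nat.lt_of_succ_lt hi⟩ x) = sgl ad c ⟨i + 1, hi⟩ (ad i j x) := by
  funext ⟨k, hk⟩
  show shiftFun ad c j _ k hk = _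
  cases k with
  | zero =>
    rw [GR5_sgl_ne]
    · rfl
    · intro h
      have := congrArg Fin.val h
      simp at this
  | succ k =>
    show ad k j (sgl ad c ⟨i, Nat.lt_of_succ_lt hi⟩ x ⟨k, _⟩) = _
    by_cases h : k = i
    · subst h
      rw [GR5_sgl_self, GR5_sgl_self]
    · rw [GR5_sgl_ne, GR5_sgl_ne, map_zero]
      · intro h1
        exact h (by simpa using congrArg Fin.val h1)
      · intro h1
        exact h (by simpa using congrArg Fin.val h1)

/-- Enough: every compatible family of maps is zero. -/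
theorem rig_of_graded (V V' : Submodule (RR o c d) (NN ad c))
    (H : ∀ φ : ∀ i : Fin c, ↥(comp V i) →ₗ[o] M i ⧸ comp V' i,
      (∀ (i : ℕ) (hi : i + 1 < c) (j : Fin d) (x : M i)
        (hx : x ∈ comp V ⟨i, Nat.lt_of_succ_lt hi⟩) (y : M i),
        φ ⟨i, Nat.lt_of_succ_lt hi⟩ ⟨x, hx⟩ = Submodule.Quotient.mk y →
        φ ⟨i + 1, hi⟩ ⟨ad i j x, comp_clo V i hi j x hx⟩ = Submodule.Quotient.mk (ad i j y)) →
      (∀ (i : Fin c) (x : ↥(comp V i)), (∃ y : M i, (x : M i) = (p : o) • y) → φ i x = 0) →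
      ∀ i x, φ i x = 0) :
    Rig p V V' := by
  intro f hf
  have hsurj : ∀ (i : Fin c) (x : ↥(comp V i)), ∃ w : NN ad c,
      f ⟨sgl ad c i (x : M i), x.2⟩ = Submodule.Quotient.mk w := fun i x =>
    (Submodule.Quotient.mk_surjective V' _).imp fun w h => h.symm
  choose W hW using hsurj
  have key : ∀ (i : Fin c) (x : ↥(comp V i)) (w : NN ad c),
      f ⟨sgl ad c i (x : M i), x.2⟩ = Submodule.Quotient.mk w →
      (Submodule.Quotient.mk (W i x i) : M i ⧸ comp V' i) = Submodule.Quotient.mk (w i) := by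
    intro i x w h
    rw [Submodule.Quotient.eq]
    have h1 : W i x - w ∈ V' := by
      rw [← Submodule.Quotient.eq, ← hW, h]
    exact mem_iff_comp.1 h1 i
  let φ : ∀ i : Fin c, ↥(comp V i) →ₗ[o] M i ⧸ comp V' i := fun i =>
    { toFun := fun x => Submodule.Quotient.mk (W i x i)
      map_add' := by
        intro x y
        have h1 : f ⟨sgl ad c i ((x + y : ↥(comp V i)) : M i), (x + y).2⟩ =
            Submodule.Quotient.mk (W i x + W i y) := by
          rw [Submodule.Quotient.mk_add, ← hW, ← hW, ← map_add]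
          congr 1
          apply Subtype.ext
          exact map_add (sgl ad c i) (x : M i) (y : M i)
        rw [key i (x + y) _ h1]
        exact Submodule.Quotient.mk_add _
      map_smul' := by
        intro a x
        have h1 : f ⟨sgl ad c i ((a • x : ↥(comp V i)) : M i), (a • x).2⟩ =
            Submodule.Quotient.mk (a • W i x) := by
          rw [← algebraMap_smul', Submodule.Quotient.mk_smul, ← hW, ← map_smul]
          congr 1
          apply Subtype.ext
          show sgl ad c i (a • (x : M i)) = algebraMap o (RR o c d) a • sgl ad c i (x : M i)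
          rw [algebraMap_smul', map_smul]
        rw [key i (a • x) _ h1]
        exact Submodule.Quotient.mk_smul _ a _ }
  have hφ : ∀ (i : Fin c) (x : ↥(comp V i)), φ i x = Submodule.Quotient.mk (W i x i) :=
    fun _ _ => rfl
  have h0 : ∀ i x, φ i x = 0 := by
    refine H φ ?_ ?_
    · intro i hi j x hx y hy
      rw [hφ, Submodule.Quotient.eq] at hy
      set w := W ⟨i, Nat.lt_of_succ_lt hi⟩ ⟨x, hx⟩ with hw
      have h1 : f ⟨sgl ad c ⟨i + 1, hi⟩ (ad i j x), comp_clo V i hi j x hx⟩ =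
          Submodule.Quotient.mk (prX ad c j w) := by
        rw [← iotaX_smul, Submodule.Quotient.mk_smul, hw, ← hW, ← map_smul]
        congr 1
        apply Subtype.ext
        show sgl ad c ⟨i + 1, hi⟩ (ad i j x) =
          (FreeAlgebra.ι o (Sum.inr j : Fin c ⊕ Fin d) : RR o c d) •
            sgl ad c ⟨i, Nat.lt_of_succ_lt hi⟩ x
        rw [iotaX_smul, GR5_opX]
      have hx' : ad i j x ∈ comp V ⟨i + 1, hi⟩ := comp_clo V i hi j x hx
      refine (key ⟨i + 1, hi⟩ (⟨ad i j x, hx'⟩ : ↥(comp V ⟨i + 1, hi⟩)) _ h1).trans ?_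
      rw [Submodule.Quotient.eq]
      have h2 := comp_clo V' i hi j _ hy
      rw [map_sub] at h2
      exact h2
    · intro i x hx
      obtain ⟨y, hy⟩ := hx
      have h1 : f ⟨sgl ad c i (x : M i), x.2⟩ = Submodule.Quotient.mk 0 := by
        rw [Submodule.Quotient.mk_zero]
        apply hf
        refine ⟨sgl ad c i y, ?_⟩
        show p ^ 1 • sgl ad c i y = sgl ad c i (x : M i)
        rw [pow_one, hy, map_smul, Nat.cast_smul_eq_nsmul]
      rw [hφ, key i x _ h1]
      exact Submodule.Quotient.mk_zero _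
  rintro ⟨v, hv⟩
  obtain ⟨w, hw⟩ := Submodule.Quotient.mk_surjective V' (f ⟨v, hv⟩)
  rw [← hw, Submodule.Quotient.mk_eq_zero, mem_iff_comp]
  intro i
  have hvi : v i ∈ comp V i := mem_iff_comp.1 hv i
  have h1 : f ⟨sgl ad c i (v i), hvi⟩ = Submodule.Quotient.mk (prE ad c i w) := by
    rw [← iotaE_smul, Submodule.Quotient.mk_smul, hw, ← map_smul]
    congr 1
    apply Subtype.ext
    show sgl ad c i (v i) = (FreeAlgebra.ι o (Sum.inl i : Fin c ⊕ Fin d) : RR o c d) • v
    rw [iotaE_smul, GR5_opE]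
  have h2 := key i ⟨v i, hvi⟩ _ h1
  rw [← hφ, h0, GR5_opE, GR5_sgl_self, eq_comm, Submodule.Quotient.mk_eq_zero] at h2
  exact h2

end Pool.Agent.TZ8
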