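import Pool.Agent.TZ8.ZDefs
import Pool.Agent.TZ8.GR5
import Pool.Agent.TZ8.GR3

set_option autoImplicit false
set_option linter.unusedSectionVars false
set_option linter.unusedVariables false

/-! Saturation, rigidity, codimensions and order of the layers of the standard model. -/

namespace Pool.Agent.TZ8

open Pool.Agent.TZ

variable {o : Type} [CommRing o] [IsDomain o] [IsDiscreteValuationRing o] {p q a b : ℕ}

section aux

omit [IsDomain o] [IsDiscreteValuationRing o]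

theorem ZS2.comp_zF (i : Fin 2) : comp (zF o p a b) i = fF o p a b i :=
  comp_toS (ad := VA o a b) (fun i : Fin 2 => fF o p a b i) (clo_fF o p a b) i

theorem ZS2.comp_zS (i : Fin 2) : comp (zS o p a b) i = fS o p a b i :=
  comp_toS (ad := VA o a b) (fun i : Fin 2 => fS o p a b i) (clo_fS o p a b) i

theorem ZS2.mem_zF0 {x : A7 o a b} :
    (show VT o a b ((0 : Fin 2) : ℕ) from x) ∈ comp (zF o p a b) 0 ↔
      ∃ y : A7 o a b, (p : o) • y = x := by
  rw [ZS2.comp_zF]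
  exact mem_range_mp

theorem ZS2.mem_zF1 {x : A8 o a b} :
    (show VT o a b ((1 : Fin 2) : ℕ) from x) ∈ comp (zF o p a b) 1 := by
  rw [ZS2.comp_zF]
  trivial

theorem ZS2.mem_zS0 {x : A7 o a b} :
    (show VT o a b ((0 : Fin 2) : ℕ) from x) ∈ comp (zS o p a b) 0 ↔
      ∃ y : F7 o b, (p : o) • y = x.2 := by
  rw [ZS2.comp_zS]
  exact mem_fS_zero

theorem ZS2.mem_zS1 {x : A8 o a b} :
    (show VT o a b ((1 : Fin 2) : ℕ) from x) ∈ comp (zS o p a b) 1 ↔
      ∃ y : Q8 o b, (p : o) • y = x.2 := by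
  rw [ZS2.comp_zS]
  exact mem_fS_one

theorem ZS2.mem_pN0 {x : A7 o a b} :
    (show VT o a b ((0 : Fin 2) : ℕ) from x) ∈ comp (pN (RR o 2 2) (NN (VA o a b) 2) p 1) 0 ↔
      ∃ y : A7 o a b, x = (p : o) • y := by
  rw [mem_comp_pN, pow_one]
  exact Iff.rfl

theorem ZS2.mem_pN1 {x : A8 o a b} :
    (show VT o a b ((1 : Fin 2) : ℕ) from x) ∈ comp (pN (RR o 2 2) (NN (VA o a b) 2) p 1) 1 ↔
      ∃ y : A8 o a b, x = (p : o) • y := by
  rw [mem_comp_pN, pow_one]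
  exact Iff.rfl

/-- The saturated family for `zF`. -/
def ZS2.gF (o : Type) [CommRing o] (a b : ℕ) : ∀ i, Submodule o (VT o a b i)
  | 0 => (⊥ : Submodule o (A7 o a b))
  | _ + 1 => ⊤

/-- The saturated family for `zS`. -/
def ZS2.gS (o : Type) [CommRing o] (a b : ℕ) : ∀ i, Submodule o (VT o a b i)
  | 0 => LinearMap.ker (LinearMap.snd o (S7 o a) (F7 o b))
  | 1 => LinearMap.ker (LinearMap.snd o (S8 o a) (Q8 o b))
  | _ + 2 => ⊤

theorem ZS2.clo_gF : Clo (VA o a b) 2 (fun i : Fin 2 => ZS2.gF o a b i) := by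
  intro i hi j x hx
  exact trivial

theorem ZS2.mem_gS0 {x : A7 o a b} : x ∈ ZS2.gS o a b 0 ↔ x.2 = 0 := Iff.rfl

theorem ZS2.mem_gS1 {x : A8 o a b} : x ∈ ZS2.gS o a b 1 ↔ x.2 = 0 := Iff.rfl

theorem ZS2.clo_gS : Clo (VA o a b) 2 (fun i : Fin 2 => ZS2.gS o a b i) := by
  intro i hi j x hx
  obtain rfl : i = 0 := by omega
  have hx' : (show A7 o a b from x).2 = 0 := hx
  show (adV j (show A7 o a b from x) : A8 o a b).2 = 0
  unfold adV
  split_ifs
  · exact Prod.ext hx' rfl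
  · exact Prod.ext rfl hx'

end aux

theorem ZS2.tf7 (h : RingHyp o p q) (x : A7 o a b) (hx : p • x = 0) : x = 0 := by
  rw [← Nat.cast_smul_eq_nsmul o] at hx
  exact (smul_eq_zero.1 hx).resolve_left h.irr.ne_zero

theorem ZS2.tf8 (h : RingHyp o p q) (x : Q8 o b) (hx : p • x = 0) : x = 0 := by
  rw [← Nat.cast_smul_eq_nsmul o] at hx
  exact (smul_eq_zero.1 hx).resolve_left h.irr.ne_zero

theorem ZS2.tf7' (h : RingHyp o p q) (x : F7 o b) (hx : p • x = 0) : x = 0 := by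
  rw [← Nat.cast_smul_eq_nsmul o] at hx
  exact (smul_eq_zero.1 hx).resolve_left h.irr.ne_zero

theorem sat_zF (h : RingHyp o p q) : ∃ U : Submodule (RR o 2 2) (NN (VA o a b) 2),
    (∀ x, p • x ∈ U → x ∈ U) ∧ U ⊔ pN (RR o 2 2) (NN (VA o a b) 2) p 1 = zF o p a b := by
  refine ⟨toS (fun i : Fin 2 => ZS2.gF o a b i) ZS2.clo_gF, ?_, ?_⟩
  · intro x hx
    rw [mem_toS] at hx ⊢
    intro i
    have h0 := hx i
    match i with
    | ⟨0, _⟩ => exact ZS2.tf7 h _ h0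
    | ⟨1, _⟩ => trivial
  · apply comp_inj
    intro i
    rw [comp_sup, comp_toS]
    match i with
    | ⟨0, _⟩ =>
      ext x
      constructor
      · intro hx
        obtain ⟨y, hy, z, hz, rfl⟩ := Submodule.mem_sup.1 hx
        have hy0 : y = 0 := hy
        obtain ⟨w, hw⟩ := ZS2.mem_pN0.1 hz
        refine ZS2.mem_zF0.2 ⟨w, ?_⟩
        rw [← hw, hy0]
        exact (zero_add _).symm
      · intro hx
        obtain ⟨w, hw⟩ := ZS2.mem_zF0.1 hx
        exact Submodule.mem_sup_right (ZS2.mem_pN0.2 ⟨w, hw.symm⟩)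
    | ⟨1, _⟩ =>
      refine le_antisymm (fun x _ => ZS2.mem_zF1) ?_
      intro x _
      exact Submodule.mem_sup_left trivial

theorem sat_zS (h : RingHyp o p q) : ∃ U : Submodule (RR o 2 2) (NN (VA o a b) 2),
    (∀ x, p • x ∈ U → x ∈ U) ∧ U ⊔ pN (RR o 2 2) (NN (VA o a b) 2) p 1 = zS o p a b := by
  refine ⟨toS (fun i : Fin 2 => ZS2.gS o a b i) ZS2.clo_gS, ?_, ?_⟩
  · intro x hx
    rw [mem_toS] at hx ⊢
    intro i
    have h0 := hx i
    match i with
    | ⟨0, _⟩ => exact ZS2.tf7' h _ h0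
    | ⟨1, _⟩ => exact ZS2.tf8 h _ h0
  · apply comp_inj
    intro i
    rw [comp_sup, comp_toS]
    match i with
    | ⟨0, _⟩ =>
      ext x
      constructor
      · intro hx
        obtain ⟨y, hy, z, hz, rfl⟩ := Submodule.mem_sup.1 hx
        have hy0 : (show A7 o a b from y).2 = 0 := hy
        obtain ⟨w, hw⟩ := ZS2.mem_pN0.1 hz
        refine ZS2.mem_zS0.2 ⟨w.2, ?_⟩
        show _ = (show A7 o a b from y).2 + (show A7 o a b from z).2
        rw [hy0, zero_add, hw]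
        rfl
      · intro hx
        obtain ⟨w, hw⟩ := ZS2.mem_zS0.1 hx
        refine Submodule.mem_sup.2 ⟨(show A7 o a b from ((show A7 o a b from x).1, 0)), ?_,
          (show A7 o a b from (0, (show A7 o a b from x).2)), ?_, ?_⟩
        · exact ZS2.mem_gS0.2 rfl
        · refine ZS2.mem_pN0.2 ⟨(0, w), ?_⟩
          exact Prod.ext (smul_zero _).symm hw.symm
        · exact Prod.ext (add_zero _) (zero_add _)
    | ⟨1, _⟩ =>
      ext x
      constructor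
      · intro hx
        obtain ⟨y, hy, z, hz, rfl⟩ := Submodule.mem_sup.1 hx
        have hy0 : (show A8 o a b from y).2 = 0 := hy
        obtain ⟨w, hw⟩ := ZS2.mem_pN1.1 hz
        refine ZS2.mem_zS1.2 ⟨w.2, ?_⟩
        show _ = (show A8 o a b from y).2 + (show A8 o a b from z).2
        rw [hy0, zero_add, hw]
        rfl
      · intro hx
        obtain ⟨w, hw⟩ := ZS2.mem_zS1.1 hx
        refine Submodule.mem_sup.2 ⟨(show A8 o a b from ((show A8 o a b from x).1, 0)), ?_,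
          (show A8 o a b from (0, (show A8 o a b from x).2)), ?_, ?_⟩
        · exact ZS2.mem_gS1.2 rfl
        · refine ZS2.mem_pN1.2 ⟨(0, w), ?_⟩
          exact Prod.ext (smul_zero _).symm hw.symm
        · exact Prod.ext (add_zero _) (zero_add _)

theorem rig_zF (h : RingHyp o p q) : Rig p (zF o p a b) (zF o p a b) := by
  refine rig_of_graded _ _ ?_
  intro φ _ hφ i x
  match i with
  | ⟨0, _⟩ =>
    apply hφ
    obtain ⟨y, hy⟩ := ZS2.mem_zF0.1 x.2
    exact ⟨y, hy.symm⟩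
  | ⟨1, _⟩ =>
    obtain ⟨w, hw⟩ := Submodule.Quotient.mk_surjective _ (φ ⟨1, by norm_num⟩ x)
    rw [← hw, Submodule.Quotient.mk_eq_zero]
    exact ZS2.mem_zF1

theorem ZS2.rel (s : Fin a → o) : (adV 0 (((0, s), 0) : A7 o a b) : A8 o a b) =
    adV 1 (((s, 0), 0) : A7 o a b) := rfl

theorem rig_zS (h : RingHyp o p q) : Rig p (zS o p a b) (zS o p a b) := by
  refine rig_of_graded _ _ ?_
  intro φ hc hφ
  -- degree zero, elements of `K ⊗ V`
  have m0 : ∀ s : S7 o a, (show VT o a b ((0 : Fin 2) : ℕ) from ((s, 0) : A7 o a b)) ∈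
      comp (zS o p a b) 0 := fun s => ZS2.mem_zS0.2 ⟨0, smul_zero _⟩
  have h1 : ∀ s : Fin a → o, φ 0 ⟨_, m0 (0, s)⟩ = 0 ∧ φ 0 ⟨_, m0 (s, 0)⟩ = 0 := by
    intro s
    obtain ⟨y1, hy1⟩ := Submodule.Quotient.mk_surjective _ (φ 0 ⟨_, m0 (0, s)⟩)
    obtain ⟨y2, hy2⟩ := Submodule.Quotient.mk_surjective _ (φ 0 ⟨_, m0 (s, 0)⟩)
    have e1 := hc 0 (by norm_num) 0 _ (m0 (0, s)) y1 hy1.symm
    have e2 := hc 0 (by norm_num) 1 _ (m0 (s, 0)) y2 hy2.symm
    have e3 : (Submodule.Quotient.mk (VA o a b 0 0 y1) : VT o a b 1 ⧸ comp (zS o p a b) 1) =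
        Submodule.Quotient.mk (VA o a b 0 1 y2) := e1.symm.trans e2
    rw [Submodule.Quotient.eq] at e3
    obtain ⟨w, hw⟩ := ZS2.mem_zS1.1 e3
    have e4 : (show A8 o a b from VA o a b 0 0 y1 - VA o a b 0 1 y2).2 =
        ((show A7 o a b from y1).2, -(show A7 o a b from y2).2) := by
      show ((show A7 o a b from y1).2 - 0, 0 - (show A7 o a b from y2).2) = _
      rw [sub_zero, zero_sub]
    have e5 : (p : o) • w = ((show A7 o a b from y1).2, -(show A7 o a b from y2).2) := hw.trans e4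
    constructor
    · rw [← hy1, Submodule.Quotient.mk_eq_zero]
      exact ZS2.mem_zS0.2 ⟨w.1, congrArg Prod.fst e5⟩
    · rw [← hy2, Submodule.Quotient.mk_eq_zero]
      refine ZS2.mem_zS0.2 ⟨-w.2, ?_⟩
      have e6 : (p : o) • w.2 = -(show A7 o a b from y2).2 := congrArg Prod.snd e5
      rw [smul_neg, e6, neg_neg]
  have h2 : ∀ s : S7 o a, φ 0 ⟨_, m0 s⟩ = 0 := by
    intro s
    have e : (⟨_, m0 s⟩ : ↥(comp (zS o p a b) 0)) = ⟨_, m0 (s.1, 0)⟩ + ⟨_, m0 (0, s.2)⟩ := by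
      apply Subtype.ext
      show ((s, 0) : A7 o a b) = ((s.1, 0), 0) + ((0, s.2), 0)
      exact Prod.ext (Prod.ext (add_zero _).symm (zero_add _).symm) (add_zero _).symm
    rw [e, map_add, (h1 s.1).2, (h1 s.2).1, add_zero]
  -- degree one, elements of `K ⊗ S²V`
  have m1 : ∀ t : S8 o a, (show VT o a b ((1 : Fin 2) : ℕ) from ((t, 0) : A8 o a b)) ∈
      comp (zS o p a b) 1 := fun t => ZS2.mem_zS1.2 ⟨0, smul_zero _⟩
  have h3 : ∀ (j : Fin 2) (s : S7 o a) (ht : (show VT o a b ((1 : Fin 2) : ℕ) from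
      (adV j ((s, 0) : A7 o a b) : A8 o a b)) ∈ comp (zS o p a b) 1), φ 1 ⟨_, ht⟩ = 0 := by
    intro j s ht
    have e1 := hc 0 (by norm_num) j _ (m0 s) 0 (by
      rw [Submodule.Quotient.mk_zero]
      exact h2 s)
    rw [map_zero, Submodule.Quotient.mk_zero] at e1
    exact e1
  have h4 : ∀ t : S8 o a, φ 1 ⟨_, m1 t⟩ = 0 := by
    intro t
    have ha : (show VT o a b ((1 : Fin 2) : ℕ) from
        (adV 0 (((t.1, t.2.1), 0) : A7 o a b) : A8 o a b)) ∈ comp (zS o p a b) 1 :=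
      ZS2.mem_zS1.2 ⟨0, smul_zero _⟩
    have hb : (show VT o a b ((1 : Fin 2) : ℕ) from
        (adV 1 (((0, t.2.2), 0) : A7 o a b) : A8 o a b)) ∈ comp (zS o p a b) 1 :=
      ZS2.mem_zS1.2 ⟨0, smul_zero _⟩
    have e : (⟨_, m1 t⟩ : ↥(comp (zS o p a b) 1)) = ⟨_, ha⟩ + ⟨_, hb⟩ := by
      apply Subtype.ext
      show ((t, 0) : A8 o a b) = ((t.1, t.2.1, 0), (0, 0)) + ((0, 0, t.2.2), (0, 0))
      exact Prod.ext (Prod.ext (add_zero _).symm (Prod.ext (add_zero _).symm (zero_add _).symm))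
        (Prod.ext (add_zero _).symm (add_zero _).symm)
    rw [e, map_add, h3 0 _ ha, h3 1 _ hb, add_zero]
  have k0 : ∀ x : ↥(comp (zS o p a b) 0), φ 0 x = 0 := by
    intro x
    obtain ⟨w, hw⟩ := ZS2.mem_zS0.1 x.2
    have hm : (show VT o a b ((0 : Fin 2) : ℕ) from ((0, (show A7 o a b from x.1).2) : A7 o a b)) ∈
        comp (zS o p a b) 0 := ZS2.mem_zS0.2 ⟨w, hw⟩
    have e : x = (⟨_, m0 (show A7 o a b from x.1).1⟩ : ↥(comp (zS o p a b) 0)) + ⟨_, hm⟩ := by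
      apply Subtype.ext
      show (show A7 o a b from x.1) = ((show A7 o a b from x.1).1, 0) +
        (0, (show A7 o a b from x.1).2)
      exact Prod.ext (add_zero _).symm (zero_add _).symm
    have e2 : φ 0 ⟨_, hm⟩ = 0 := hφ 0 ⟨_, hm⟩ ⟨((0, w) : A7 o a b),
      Prod.ext (smul_zero _).symm hw.symm⟩
    rw [e, map_add, h2, e2, add_zero]
  have k1 : ∀ x : ↥(comp (zS o p a b) 1), φ 1 x = 0 := by
    intro x
    obtain ⟨w, hw⟩ := ZS2.mem_zS1.1 x.2
    have hm : (show VT o a b ((1 : Fin 2) : ℕ) from ((0, (show A8 o a b from x.1).2) : A8 o a b)) ∈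
        comp (zS o p a b) 1 := ZS2.mem_zS1.2 ⟨w, hw⟩
    have e : x = (⟨_, m1 (show A8 o a b from x.1).1⟩ : ↥(comp (zS o p a b) 1)) + ⟨_, hm⟩ := by
      apply Subtype.ext
      show (show A8 o a b from x.1) = ((show A8 o a b from x.1).1, 0) +
        (0, (show A8 o a b from x.1).2)
      exact Prod.ext (add_zero _).symm (zero_add _).symm
    have e2 : φ 1 ⟨_, hm⟩ = 0 := hφ 1 ⟨_, hm⟩ ⟨((0, w) : A8 o a b),
      Prod.ext (smul_zero _).symm hw.symm⟩
    rw [e, map_add, h4, e2, add_zero]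
  intro i x
  match i with
  | ⟨0, _⟩ => exact k0 x
  | ⟨1, _⟩ => exact k1 x

theorem pN_le_zF : pN (RR o 2 2) (NN (VA o a b) 2) p 1 ≤ zF o p a b := by
  rw [comp_le_iff]
  intro i x hx
  match i with
  | ⟨0, _⟩ =>
    obtain ⟨w, hw⟩ := ZS2.mem_pN0.1 hx
    exact ZS2.mem_zF0.2 ⟨w, hw.symm⟩
  | ⟨1, _⟩ => exact ZS2.mem_zF1

theorem pN_le_zS : pN (RR o 2 2) (NN (VA o a b) 2) p 1 ≤ zS o p a b := by
  rw [comp_le_iff]
  intro i x hx
  match i with
  | ⟨0, _⟩ =>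
    obtain ⟨w, hw⟩ := ZS2.mem_pN0.1 hx
    exact ZS2.mem_zS0.2 ⟨w.2, congrArg Prod.snd hw.symm⟩
  | ⟨1, _⟩ =>
    obtain ⟨w, hw⟩ := ZS2.mem_pN1.1 hx
    exact ZS2.mem_zS1.2 ⟨w.2, congrArg Prod.snd hw.symm⟩

theorem ZS2.one_ne (h : RingHyp o p q) {n : ℕ} (hn : 1 ≤ n) (y : Fin n → o) :
    (p : o) • y ≠ fun _ => 1 := by
  intro hy
  have h1 : (p : o) * y ⟨0, hn⟩ = 1 := congrFun hy ⟨0, hn⟩
  exact h.irr.not_isUnit (IsUnit.of_mul_eq_one _ h1)

/-- A vector of `K ⊗ V`. -/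
def ZS2.vS (o : Type) [CommRing o] (a b : ℕ) : A7 o a b := ((fun _ => 1, 0), 0)

/-- A vector of `F`. -/
def ZS2.vF (o : Type) [CommRing o] (a b : ℕ) : A7 o a b := ((0, 0), fun _ => 1)

theorem ZS2.vS_mem_zS : (show VT o a b ((0 : Fin 2) : ℕ) from ZS2.vS o a b) ∈
    comp (zS o p a b) 0 := ZS2.mem_zS0.2 ⟨0, smul_zero _⟩

theorem ZS2.vS_notMem_zF (h : RingHyp o p q) (ha : 1 ≤ a) :
    (show VT o a b ((0 : Fin 2) : ℕ) from ZS2.vS o a b) ∉ comp (zF o p a b) 0 := by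
  intro h1
  obtain ⟨y, hy⟩ := ZS2.mem_zF0.1 h1
  exact ZS2.one_ne h ha y.1.1 (congrArg (fun z => z.1.1) hy)

theorem ZS2.vF_notMem_zS (h : RingHyp o p q) (hb : 1 ≤ b) :
    (show VT o a b ((0 : Fin 2) : ℕ) from ZS2.vF o a b) ∉ comp (zS o p a b) 0 := by
  intro h1
  obtain ⟨y, hy⟩ := ZS2.mem_zS0.1 h1
  exact ZS2.one_ne h hb y hy

theorem zF_ne_top (h : RingHyp o p q) (ha : 1 ≤ a) : zF o p a b ≠ ⊤ := by
  intro h1
  apply ZS2.vS_notMem_zF (b := b) h ha
  rw [h1]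
  trivial

theorem zS_ne_top (h : RingHyp o p q) (hb : 1 ≤ b) : zS o p a b ≠ ⊤ := by
  intro h1
  apply ZS2.vF_notMem_zS (a := a) h hb
  rw [h1]
  trivial

theorem not_zF_le_zS (h : RingHyp o p q) (hb : 1 ≤ b) : ¬ zF o p a b ≤ zS o p a b := by
  intro h1
  have h2 : (show VT o a b ((1 : Fin 2) : ℕ) from ((0, (fun _ => 1, 0)) : A8 o a b)) ∈
      comp (zS o p a b) 1 := comp_le_iff.1 h1 1 ZS2.mem_zF1
  obtain ⟨y, hy⟩ := ZS2.mem_zS1.1 h2
  exact ZS2.one_ne h hb y.1 (congrArg (fun z => z.1) hy)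

theorem not_zS_le_zF (h : RingHyp o p q) (ha : 1 ≤ a) : ¬ zS o p a b ≤ zF o p a b := fun h1 =>
  ZS2.vS_notMem_zF h ha (comp_le_iff.1 h1 0 ZS2.vS_mem_zS)

theorem not_zF_le_pN (h : RingHyp o p q) (ha : 1 ≤ a) :
    ¬ zF o p a b ≤ pN (RR o 2 2) (NN (VA o a b) 2) p 1 := by
  intro h1
  have h2 : (show VT o a b ((1 : Fin 2) : ℕ) from (((fun _ => 1, 0, 0), 0) : A8 o a b)) ∈
      comp (pN (RR o 2 2) (NN (VA o a b) 2) p 1) 1 := comp_le_iff.1 h1 1 ZS2.mem_zF1
  obtain ⟨y, hy⟩ := ZS2.mem_pN1.1 h2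
  exact ZS2.one_ne h ha y.1.1 (congrArg (fun z => z.1.1) hy.symm)

theorem not_zS_le_pN (h : RingHyp o p q) (ha : 1 ≤ a) :
    ¬ zS o p a b ≤ pN (RR o 2 2) (NN (VA o a b) 2) p 1 := fun h1 =>
  not_zS_le_zF h ha (h1.trans pN_le_zF)

theorem ZS2.len_comap_snd {A B : Type} [AddCommGroup A] [Module o A] [AddCommGroup B]
    [Module o B] (P : Submodule o B) :
    len q (P.comap (LinearMap.snd o A B)) = len q P := by
  unfold len
  congr 1
  exact AddSubgroup.index_comap_of_surjective P.toAddSubgroup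
    (f := (LinearMap.snd o A B).toAddMonoidHom) Prod.snd_surjective

theorem ZS2.len_range (h : RingHyp o p q) {A : Type} [AddCommGroup A] [Module o A]
    [Module.Free o A] [Module.Finite o A] :
    len q (LinearMap.range (PR.mp o p A 1)) = Module.finrank o A := by
  have h3 : Nat.card (A ⧸ LinearMap.range (PR.mp o p A 1)) = q ^ Module.finrank o A :=
    PR.index_p (M := A) h
  unfold len
  rw [h3, Nat.log_pow h.one_lt]

theorem len_zF (h : RingHyp o p q) : len q (comp (zF o p a b) 0) = 2 * a + b ∧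
    len q (comp (zF o p a b) 1) = 0 := by
  constructor
  · rw [ZS2.comp_zF]
    have h1 := ZS2.len_range h (A := A7 o a b)
    have h2 : Module.finrank o (A7 o a b) = 2 * a + b := by
      simp only [Module.finrank_prod, Module.finrank_fintype_fun_eq_card, Fintype.card_fin]
      ring
    exact h1.trans h2
  · rw [ZS2.comp_zF]
    exact (GR3.top_iff h (⊤ : Submodule o (A8 o a b)) inferInstance).1 rfl

theorem len_zS (h : RingHyp o p q) : len q (comp (zS o p a b) 0) = b ∧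
    len q (comp (zS o p a b) 1) = 2 * b := by
  constructor
  · rw [ZS2.comp_zS]
    have h1 := ZS2.len_comap_snd (q := q) (A := S7 o a)
      (LinearMap.range (PR.mp o p (F7 o b) 1))
    have h2 : Module.finrank o (F7 o b) = b := by
      simp only [Module.finrank_fintype_fun_eq_card, Fintype.card_fin]
    exact h1.trans ((ZS2.len_range h).trans h2)
  · rw [ZS2.comp_zS]
    have h1 := ZS2.len_comap_snd (q := q) (A := S8 o a)
      (LinearMap.range (PR.mp o p (Q8 o b) 1))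
    have h2 : Module.finrank o (Q8 o b) = 2 * b := by
      simp only [Module.finrank_prod, Module.finrank_fintype_fun_eq_card, Fintype.card_fin]
      ring
    exact h1.trans ((ZS2.len_range h).trans h2)

end Pool.Agent.TZ8
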