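import Pool.Agent.TZ8.ZS1
import Pool.Agent.TZ8.ZS2
import Pool.Agent.TZ8.LGF
import Pool.Agent.TZ8.LD
import Pool.Agent.TZ8.VAL7

set_option autoImplicit false

/-! The leading coefficient of the zeta function of the standard model, with an additional weight
by the exponent of the first lattice. -/

namespace Pool.Agent.TZ8

open Pool.Agent.TZ

variable {o : Type} [CommRing o] [IsDomain o] [IsDiscreteValuationRing o] {p q : ℕ}

/-- The zeta function of all lattices in the module of the standard model. -/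
private theorem lgs_pairV (h : RingHyp o p q) (a : ℕ) (r : ℕ) :
    lgs p (fun _ : Lay (RR o 2 2) (NN (VA o a a) 2) p → ℕ => True)
        (nuR q r (show 0 < 2 by norm_num)) =
      gf (fun x : PairV o a a => len q x.1.1.1 + len q x.1.2.1 + r * expo p x.1.1.1) := by
  rw [lgs_nuR h (fre_VT 2 le_rfl)]
  rw [← gf_equiv ((Equiv.subtypeUnivEquiv (fun _ => trivial)).trans (tupPair o a a))]
  congr 1

private theorem nuR_pN (h : RingHyp o p q) {a : ℕ} (ha : 1 ≤ a) (r : ℕ)
    (V : Lay (RR o 2 2) (NN (VA o a a) 2) p)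
    (hV : V.1 = pN (RR o 2 2) (NN (VA o a a) 2) p 1) :
    nuR q r (show 0 < 2 by norm_num) V = 8 * a + r := by
  have h0 : len q (comp V.1 (0 : Fin 2)) = 3 * a := by
    rw [hV, len_comp_pN h (fre_VT 2 le_rfl)]
    have := finrank_A7 (o := o) (a := a) (b := a)
    show Module.finrank o (A7 o a a) = _
    omega
  have h1 : len q (comp V.1 (1 : Fin 2)) = 5 * a := by
    rw [hV, len_comp_pN h (fre_VT 2 le_rfl)]
    have := finrank_A8 (o := o) (a := a) (b := a)
    show Module.finrank o (A8 o a a) = _
    omega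
  have h2 : comp V.1 (0 : Fin 2) ≠ ⊤ := by
    intro h2
    rw [comp_ne_top_iff h (fre_VT 2 le_rfl) V.1 V.2.1] at h2
    omega
  unfold nuR
  rw [Fin.sum_univ_two, h0, h1]
  rw [show (⟨0, by norm_num⟩ : Fin 2) = 0 from rfl, if_neg h2]
  omega

private theorem nuR_zF (h : RingHyp o p q) {a : ℕ} (ha : 1 ≤ a) (r : ℕ)
    (V : Lay (RR o 2 2) (NN (VA o a a) 2) p) (hV : V.1 = zF o p a a) :
    nuR q r (show 0 < 2 by norm_num) V = 3 * a + r := by
  have h0 : len q (comp V.1 (0 : Fin 2)) = 3 * a := by
    rw [hV, (len_zF h).1]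
    omega
  have h1 : len q (comp V.1 (1 : Fin 2)) = 0 := by
    rw [hV, (len_zF h).2]
  have h2 : comp V.1 (0 : Fin 2) ≠ ⊤ := by
    intro h2
    rw [comp_ne_top_iff h (fre_VT 2 le_rfl) V.1 V.2.1] at h2
    omega
  unfold nuR
  rw [Fin.sum_univ_two, h0, h1]
  rw [show (⟨0, by norm_num⟩ : Fin 2) = 0 from rfl, if_neg h2]
  omega

private theorem nuR_zS (h : RingHyp o p q) {a : ℕ} (ha : 1 ≤ a) (r : ℕ)
    (V : Lay (RR o 2 2) (NN (VA o a a) 2) p) (hV : V.1 = zS o p a a) :
    nuR q r (show 0 < 2 by norm_num) V = 3 * a + r := by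
  have h0 : len q (comp V.1 (0 : Fin 2)) = a := by
    rw [hV, (len_zS h).1]
  have h1 : len q (comp V.1 (1 : Fin 2)) = 2 * a := by
    rw [hV, (len_zS h).2]
  have h2 : comp V.1 (0 : Fin 2) ≠ ⊤ := by
    intro h2
    rw [comp_ne_top_iff h (fre_VT 2 le_rfl) V.1 V.2.1] at h2
    omega
  unfold nuR
  rw [Fin.sum_univ_two, h0, h1]
  rw [show (⟨0, by norm_num⟩ : Fin 2) = 0 from rfl, if_neg h2]
  omega

/-- The sum over two element subsets of a set with three elements. -/
private theorem sum_two {S : Type} [DecidableEq S] {x y z : S} (hxy : x ≠ y) (hxz : x ≠ z)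
    (hyz : y ≠ z) {K : Type} [AddCommMonoid K] (f : Finset S → K) :
    ∑ σ ∈ ({x, y, z} : Finset S).powersetCard 2, f σ = f {x, y} + f {x, z} + f {y, z} := by
  have h1 : ({x, y, z} : Finset S).powersetCard 2 = {{x, y}, {x, z}, {y, z}} := by
    have hc : ({{x, y}, {x, z}, {y, z}} : Finset (Finset S)).card = 3 := by
      rw [Finset.card_eq_three]
      refine ⟨_, _, _, ?_, ?_, ?_, rfl⟩
      · intro h
        have : y ∈ ({x, z} : Finset S) := h ▸ (by simp)
        simp only [Finset.mem_insert, Finset.mem_singleton] at this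
        rcases this with h | h
        · exact hxy h.symm
        · exact hyz h
      · intro h
        have : x ∈ ({y, z} : Finset S) := h ▸ (by simp)
        simp only [Finset.mem_insert, Finset.mem_singleton] at this
        rcases this with h | h
        · exact hxy h
        · exact hxz h
      · intro h
        have : x ∈ ({y, z} : Finset S) := h ▸ (by simp)
        simp only [Finset.mem_insert, Finset.mem_singleton] at this
        rcases this with h | h
        · exact hxy h
        · exact hxz h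
    symm
    apply Finset.eq_of_subset_of_card_le
    · intro σ hσ
      simp only [Finset.mem_insert, Finset.mem_singleton] at hσ
      rw [Finset.mem_powersetCard]
      rcases hσ with rfl | rfl | rfl
      · exact ⟨by intro w hw; simp only [Finset.mem_insert, Finset.mem_singleton] at hw ⊢; tauto,
          Finset.card_pair hxy⟩
      · exact ⟨by intro w hw; simp only [Finset.mem_insert, Finset.mem_singleton] at hw ⊢; tauto,
          Finset.card_pair hxz⟩
      · exact ⟨by intro w hw; simp only [Finset.mem_insert, Finset.mem_singleton] at hw ⊢; tauto,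
          Finset.card_pair hyz⟩
    · rw [Finset.card_powersetCard, hc]
      have : ({x, y, z} : Finset S).card = 3 :=
        Finset.card_eq_three.2 ⟨x, y, z, hxy, hxz, hyz, rfl⟩
      rw [this]
      decide
  rw [h1]
  have n1 : ({x, y} : Finset S) ∉ ({{x, z}, {y, z}} : Finset (Finset S)) := by
    intro h
    simp only [Finset.mem_insert, Finset.mem_singleton] at h
    rcases h with h | h
    · have : y ∈ ({x, z} : Finset S) := h ▸ (by simp)
      simp only [Finset.mem_insert, Finset.mem_singleton] at this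
      rcases this with h | h
      · exact hxy h.symm
      · exact hyz h
    · have : x ∈ ({y, z} : Finset S) := h ▸ (by simp)
      simp only [Finset.mem_insert, Finset.mem_singleton] at this
      rcases this with h | h
      · exact hxy h
      · exact hxz h
  have n2 : ({x, z} : Finset S) ∉ ({{y, z}} : Finset (Finset S)) := by
    intro h
    simp only [Finset.mem_singleton] at h
    have : x ∈ ({y, z} : Finset S) := h ▸ (by simp)
    simp only [Finset.mem_insert, Finset.mem_singleton] at this
    rcases this with h | h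
    · exact hxy h
    · exact hxz h
  rw [Finset.sum_insert n1, Finset.sum_insert n2, Finset.sum_singleton, add_assoc]

/-- The shape of the leading coefficient. -/
private theorem exists_lead_zs [Fact p.Prime] (h : RingHyp o p q) (a : ℕ) (ha : 1 ≤ a) :
    ∃ C : ℚ_[p], ∀ r : ℕ,
      Lead p 2 (gf (fun x : PairV o a a => len q x.1.1.1 + len q x.1.2.1 + r * expo p x.1.1.1))
        (C / (((3 * a + r : ℕ) : ℚ_[p]) * ((8 * a + r : ℕ) : ℚ_[p]))) := by
  classical
  have hN : NHyp (RR o 2 2) (NN (VA o a a) 2) p := nHyp h (fre_VT 2 le_rfl)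
  have hFt := zF_ne_top (a := a) (b := a) h ha
  have hSt := zS_ne_top (a := a) (b := a) h ha
  have hpt : pN (RR o 2 2) (NN (VA o a a) 2) p 1 ≠ ⊤ := by
    intro h1
    apply hFt
    rw [eq_top_iff, ← h1]
    exact pN_le_zF
  let x : Lay (RR o 2 2) (NN (VA o a a) 2) p := ⟨pN _ _ p 1, le_rfl, hpt⟩
  let y : Lay (RR o 2 2) (NN (VA o a a) 2) p := ⟨zF o p a a, pN_le_zF, hFt⟩
  let z : Lay (RR o 2 2) (NN (VA o a a) 2) p := ⟨zS o p a a, pN_le_zS, hSt⟩
  have hFS := not_zF_le_zS (a := a) (b := a) h ha
  have hSF := not_zS_le_zF (a := a) (b := a) h ha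
  have hFp := not_zF_le_pN (a := a) (b := a) h ha
  have hSp := not_zS_le_pN (a := a) (b := a) h ha
  have hxy : x ≠ y := by
    intro h1
    have h2 : pN (RR o 2 2) (NN (VA o a a) 2) p 1 = zF o p a a := congrArg Subtype.val h1
    exact hFp h2.ge
  have hxz : x ≠ z := by
    intro h1
    have h2 : pN (RR o 2 2) (NN (VA o a a) 2) p 1 = zS o p a a := congrArg Subtype.val h1
    exact hSp h2.ge
  have hyz : y ≠ z := by
    intro h1
    have h2 : zF o p a a = zS o p a a := congrArg Subtype.val h1
    exact hFS h2.le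
  have hnch : ∀ σ : Finset (Lay (RR o 2 2) (NN (VA o a a) 2) p), y ∈ σ → z ∈ σ →
      ¬ IsChain (· ≤ ·) ((fun V : Lay (RR o 2 2) (NN (VA o a a) 2) p => V.1) ''
        (σ : Set (Lay (RR o 2 2) (NN (VA o a a) 2) p))) := by
    intro σ hy hz hch
    have h1 := hch (Set.mem_image_of_mem _ (Finset.mem_coe.2 hy))
      (Set.mem_image_of_mem _ (Finset.mem_coe.2 hz)) (fun h2 => hFS (show zF o p a a ≤ _ from
        le_of_eq h2))
    rcases h1 with h1 | h1
    · exact hFS h1
    · exact hSF h1
  obtain ⟨C, hC1, hC2⟩ := gen hN {x, y, z} (by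
      intro V hV
      simp only [Finset.mem_insert, Finset.mem_singleton] at hV
      rcases hV with rfl | rfl | rfl
      · exact sat_pN hN
      · exact sat_zF h
      · exact sat_zS h) (by
      intro V hV V' hV' hVV'
      simp only [Finset.mem_insert, Finset.mem_singleton] at hV hV'
      rcases hV with rfl | rfl | rfl
      · exact rig_pN _
      · rcases hV' with rfl | rfl | rfl
        · exact absurd hVV' hFp
        · exact rig_zF h
        · exact absurd hVV' hFS
      · rcases hV' with rfl | rfl | rfl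
        · exact absurd hVV' hSp
        · exact absurd hVV' hSF
        · exact rig_zS h) (by
      intro V hV
      simp only [Finset.mem_insert, Finset.mem_singleton, not_or] at hV
      exact kill_zs h ha V (fun h1 => hV.1 (Subtype.ext h1)) (fun h1 => hV.2.1 (Subtype.ext h1))
        (fun h1 => hV.2.2 (Subtype.ext h1))) (fun _ => True) (fun _ _ _ _ => trivial)
  refine ⟨C {x, y} + C {x, z}, fun r => ?_⟩
  have h1 := hC2 (nuR q r (show 0 < 2 by norm_num)) (fun V => nuR_pos h (fre_VT 2 le_rfl) r _ V) 2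
    (by
      intro σ hσ l _ _ hcard
      have hc3 : ({x, y, z} : Finset (Lay (RR o 2 2) (NN (VA o a a) 2) p)).card = 3 :=
        Finset.card_eq_three.2 ⟨x, y, z, hxy, hxz, hyz, rfl⟩
      have hσ' : σ = {x, y, z} := Finset.eq_of_subset_of_card_le hσ (by rw [hc3]; exact hcard)
      subst hσ'
      exact hnch _ (by simp) (by simp))
  rw [lgs_pairV h, sum_two hxy hxz hyz, hC1 {y, z} (by
      intro w hw
      simp only [Finset.mem_insert, Finset.mem_singleton] at hw ⊢
      tauto) (hnch _ (by simp) (by simp)),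
    Finset.prod_pair hxy, Finset.prod_pair hxz, nuR_pN h ha r x rfl, nuR_zF h ha r y rfl,
    nuR_zS h ha r z rfl, zero_div, add_zero, ← add_div] at h1
  rw [mul_comm ((3 * a + r : ℕ) : ℚ_[p])]
  exact h1

theorem lead_zs [Fact p.Prime] (h : RingHyp o p q) (hq : p ∣ q) (hp : p ≠ 2) (a : ℕ) (ha : 1 ≤ a)
    (r : ℕ) :
    Lead p 2 (gf (fun x : PairV o a a => len q x.1.1.1 + len q x.1.2.1 + r * expo p x.1.1.1))
      (16 * (a : ℚ_[p]) ^ 2 * kap p q (3 * a) * kap p q (5 * a) /
        (((3 * a + r : ℕ) : ℚ_[p]) * ((8 * a + r : ℕ) : ℚ_[p]))) := by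
  obtain ⟨C, hC⟩ := exists_lead_zs (o := o) h a ha
  have h0 := hC 0
  have h1 := lead_val (o := o) (a := a) (b := a) h hq hp ha
  have h2 : gf (fun x : PairV o a a => len q x.1.1.1 + len q x.1.2.1 + 0 * expo p x.1.1.1) =
      gf (fun x : PairV o a a => len q x.1.1.1 + len q x.1.2.1) := by
    congr 1
    funext x
    rw [Nat.zero_mul, Nat.add_zero]
  rw [h2] at h0
  have h3 := lead_unique h0 h1
  have ha0 : (a : ℚ_[p]) ≠ 0 := by exact_mod_cast (show a ≠ 0 by omega)
  have h4 : C = 16 * (a : ℚ_[p]) ^ 2 * kap p q (3 * a) * kap p q (5 * a) := by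
    rw [show 2 * a + a = 3 * a by ring, show 3 * a + 2 * a = 5 * a by ring] at h3
    have h30 : (3 : ℚ_[p]) ≠ 0 := by exact_mod_cast (show (3 : ℕ) ≠ 0 by norm_num)
    have h80 : (8 : ℚ_[p]) ≠ 0 := by exact_mod_cast (show (8 : ℕ) ≠ 0 by norm_num)
    push_cast at h3
    simp only [add_zero] at h3
    rw [div_eq_iff (mul_ne_zero (mul_ne_zero h30 ha0) (mul_ne_zero h80 ha0))] at h3
    rw [h3]
    field_simp
    ring
  rw [← h4]
  exact hC r

end Pool.Agent.TZ8
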