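import Pool.Agent.TZ8.GG
import Pool.Agent.TZ8.ZS3
import Pool.Agent.TZ8.LStd

set_option autoImplicit false

/-! The last two levels of the model are the standard model. -/

namespace Pool.Agent.TZ8

open Pool.Agent.TZ

variable {o : Type} [CommRing o] [IsDomain o] [IsDiscreteValuationRing o] {p q : ℕ}

namespace PBASE

/-- Pairs of lattices of two modules compatible with given maps. -/
private abbrev PairM {d : ℕ} {A B : Type} [AddCommGroup A] [Module o A] [AddCommGroup B]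
    [Module o B] (f : Fin d → A →ₗ[o] B) : Type :=
  {x : Lat o A × Lat o B // ∀ j, ∀ v ∈ x.1.1, f j v ∈ x.2.1}

/-- Families of length two without gaps are pairs. -/
private def ggPair {d : ℕ} {M : ℕ → Type} [∀ i, AddCommGroup (M i)]
    [∀ i, Module o (M i)] (p : ℕ) (ad : ∀ i, Fin d → M i →ₗ[o] M (i + 1)) :
    GG p ad 0 2 ≃ PairM (o := o) (ad 0) where
  toFun I := ⟨(I.1 0, I.1 1), fun j v hv => I.2.2 0 (by norm_num) (le_refl 0) j v hv⟩
  invFun x := ⟨fun i => match i with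
    | ⟨0, _⟩ => x.1.1
    | ⟨1, _⟩ => x.1.2, by
      refine ⟨fun i hi h0 => absurd h0 (Nat.not_lt_zero i), ?_⟩
      intro i hi _ j v hv
      obtain rfl : i = 0 := by omega
      exact x.2 j v hv⟩
  left_inv I := by
    apply Subtype.ext
    funext i
    match i with
    | ⟨0, _⟩ => rfl
    | ⟨1, _⟩ => rfl
  right_inv x := rfl

private theorem gf_pair (q r : ℕ) {d : ℕ} {M : ℕ → Type} [∀ i, AddCommGroup (M i)]
    [∀ i, Module o (M i)] (p : ℕ) (ad : ∀ i, Fin d → M i →ₗ[o] M (i + 1))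
    {A B : Type} [AddCommGroup A] [Module o A] [AddCommGroup B] [Module o B]
    (eA : A ≃ₗ[o] M 0) (eB : B ≃ₗ[o] M 1) (f : Fin d → A →ₗ[o] B)
    (hf : ∀ j x, ad 0 j (eA x) = eB (f j x)) :
    gf (fun I : GG p ad 0 2 => ∑ i, len q (I.1 i).1 + r * expo p (I.1 0).1) =
      gf (fun x : PairM f => len q x.1.1.1 + len q x.1.2.1 + r * expo p x.1.1.1) := by
  have h1 : gf (fun I : GG p ad 0 2 => ∑ i, len q (I.1 i).1 + r * expo p (I.1 0).1) =
      gf (fun x : PairM (o := o) (ad 0) =>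
        len q x.1.1.1 + len q x.1.2.1 + r * expo p x.1.1.1) := by
    rw [← gf_equiv (ggPair p ad)]
    simp only [Fin.sum_univ_two]
    rfl
  rw [h1]
  have hF : ∀ x : Lat o A × Lat o B, (∀ j, ∀ v ∈ x.1.1, f j v ∈ x.2.1) ↔
      (∀ j, ∀ v ∈ ((Equiv.prodCongr (LC.latEquiv eA) (LC.latEquiv eB)) x).1.1,
        ad 0 j v ∈ ((Equiv.prodCongr (LC.latEquiv eA) (LC.latEquiv eB)) x).2.1) := by
    intro x
    refine forall_congr' fun j => ?_
    have h1 : ∀ y, y ∈ ((Equiv.prodCongr (LC.latEquiv eA) (LC.latEquiv eB)) x).1.1 ↔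
        ∃ z ∈ x.1.1, eA z = y := fun y => Submodule.mem_map
    have h2 : ∀ y, y ∈ ((Equiv.prodCongr (LC.latEquiv eA) (LC.latEquiv eB)) x).2.1 ↔
        ∃ z ∈ x.2.1, eB z = y := fun y => Submodule.mem_map
    constructor
    · intro H y hy
      obtain ⟨v, hv, rfl⟩ := (h1 y).1 hy
      exact (h2 _).2 ⟨_, H v hv, (hf j v).symm⟩
    · intro H v hv
      obtain ⟨y, hy, hvy⟩ := (h2 _).1 (H _ ((h1 _).2 ⟨v, hv, rfl⟩))
      rw [hf j v] at hvy
      rw [← eB.injective hvy]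
      exact hy
  rw [← gf_equiv (Equiv.subtypeEquiv (Equiv.prodCongr (LC.latEquiv eA) (LC.latEquiv eB)) hF)]
  congr 1
  funext x
  show len q (x.1.1.1.map (eA : A →ₗ[o] M 0)) + len q (x.1.2.1.map (eB : B →ₗ[o] M 1)) +
    r * expo p (x.1.1.1.map (eA : A →ₗ[o] M 0)) = _
  rw [len_map_equiv, len_map_equiv, expo_map_equiv]

/-- Coordinates of the first level. -/
private def c7 (o : Type) [CommRing o] :
    A7 o 6 6 ≃ₗ[o] ((Fin 6 → Fin 2 → o) × (Fin 6 → Fin 1 → o)) where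
  toFun x := (fun e i => if (i : ℕ) = 0 then x.1.1 e else x.1.2 e, fun e _ => x.2 e)
  map_add' x y := by
    refine Prod.ext ?_ ?_
    · funext e i
      show (if (i : ℕ) = 0 then (x.1.1 + y.1.1) e else (x.1.2 + y.1.2) e) =
        (if (i : ℕ) = 0 then x.1.1 e else x.1.2 e) + (if (i : ℕ) = 0 then y.1.1 e else y.1.2 e)
      split_ifs <;> rfl
    · rfl
  map_smul' r x := by
    refine Prod.ext ?_ ?_
    · funext e i
      show (if (i : ℕ) = 0 then (r • x.1.1) e else (r • x.1.2) e) =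
        r • (if (i : ℕ) = 0 then x.1.1 e else x.1.2 e)
      split_ifs <;> rfl
    · rfl
  invFun y := ((fun e => y.1 e 0, fun e => y.1 e 1), fun e => y.2 e 0)
  left_inv x := rfl
  right_inv y := by
    refine Prod.ext ?_ ?_
    · funext e i
      match i with
      | ⟨0, _⟩ => rfl
      | ⟨1, _⟩ => rfl
    · funext e i
      match i with
      | ⟨0, _⟩ => rfl

/-- Coordinates of the second level. -/
private def c8 (o : Type) [CommRing o] :
    A8 o 6 6 ≃ₗ[o] ((Fin 6 → Fin 3 → o) × (Fin 6 → Fin 2 → o)) where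
  toFun x := (fun e i => if (i : ℕ) = 0 then x.1.1 e else if (i : ℕ) = 1 then x.1.2.1 e
    else x.1.2.2 e, fun e i => if (i : ℕ) = 0 then x.2.1 e else x.2.2 e)
  map_add' x y := by
    refine Prod.ext ?_ ?_
    · funext e i
      show (if (i : ℕ) = 0 then (x.1.1 + y.1.1) e else if (i : ℕ) = 1 then (x.1.2.1 + y.1.2.1) e
          else (x.1.2.2 + y.1.2.2) e) =
        (if (i : ℕ) = 0 then x.1.1 e else if (i : ℕ) = 1 then x.1.2.1 e else x.1.2.2 e) +
        (if (i : ℕ) = 0 then y.1.1 e else if (i : ℕ) = 1 then y.1.2.1 e else y.1.2.2 e)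
      split_ifs <;> rfl
    · funext e i
      show (if (i : ℕ) = 0 then (x.2.1 + y.2.1) e else (x.2.2 + y.2.2) e) =
        (if (i : ℕ) = 0 then x.2.1 e else x.2.2 e) + (if (i : ℕ) = 0 then y.2.1 e else y.2.2 e)
      split_ifs <;> rfl
  map_smul' r x := by
    refine Prod.ext ?_ ?_
    · funext e i
      show (if (i : ℕ) = 0 then (r • x.1.1) e else if (i : ℕ) = 1 then (r • x.1.2.1) e
          else (r • x.1.2.2) e) =
        r • (if (i : ℕ) = 0 then x.1.1 e else if (i : ℕ) = 1 then x.1.2.1 e else x.1.2.2 e)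
      split_ifs <;> rfl
    · funext e i
      show (if (i : ℕ) = 0 then (r • x.2.1) e else (r • x.2.2) e) =
        r • (if (i : ℕ) = 0 then x.2.1 e else x.2.2 e)
      split_ifs <;> rfl
  invFun y := ((fun e => y.1 e 0, fun e => y.1 e 1, fun e => y.1 e 2),
    (fun e => y.2 e 0, fun e => y.2 e 1))
  left_inv x := rfl
  right_inv y := by
    refine Prod.ext ?_ ?_
    · funext e i
      match i with
      | ⟨0, _⟩ => rfl
      | ⟨1, _⟩ => rfl
      | ⟨2, _⟩ => rfl
    · funext e i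
      match i with
      | ⟨0, _⟩ => rfl
      | ⟨1, _⟩ => rfl

private theorem c8_adV (o : Type) [CommRing o] (j : Fin 2) (x : A7 o 6 6) :
    c8 o (adV j x) = (shf (c7 o x).1 j, shf (c7 o x).2 j) := by
  match j with
  | ⟨0, _⟩ =>
    refine Prod.ext ?_ ?_
    · funext e i
      match i with
      | ⟨0, _⟩ => rfl
      | ⟨1, _⟩ => rfl
      | ⟨2, _⟩ => rfl
    · funext e i
      match i with
      | ⟨0, _⟩ => rfl
      | ⟨1, _⟩ => rfl
  | ⟨1, _⟩ =>
    refine Prod.ext ?_ ?_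
    · funext e i
      match i with
      | ⟨0, _⟩ => rfl
      | ⟨1, _⟩ => rfl
      | ⟨2, _⟩ => rfl
    · funext e i
      match i with
      | ⟨0, _⟩ => rfl
      | ⟨1, _⟩ => rfl

end PBASE

/-- Transport of the zeta function of the last two levels to the standard model. -/
theorem gf_base (h : RingHyp o p q) (hp : 11 ≤ p) (r : ℕ) :
    gf (fun I : GG (M := fun i => MT o (i + 1 + 1 + 1 + 1 + 1 + 1)) p
        (fun i => adT o (i + 1 + 1 + 1 + 1 + 1 + 1)) 0 2 =>
          ∑ i, len q (I.1 i).1 + r * expo p (I.1 0).1) =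
      gf (fun x : PairV o 6 6 => len q x.1.1.1 + len q x.1.2.1 + r * expo p x.1.1.1) := by
  obtain ⟨e6, e7, he, -, -⟩ := exists_std h hp
  refine PBASE.gf_pair (M := fun i => MT o (i + 1 + 1 + 1 + 1 + 1 + 1)) q r p
    (fun i => adT o (i + 1 + 1 + 1 + 1 + 1 + 1)) ((PBASE.c7 o).trans e6)
    ((PBASE.c8 o).trans e7) adV ?_
  intro j x
  show adT o 6 j (e6 (PBASE.c7 o x)) = e7 (PBASE.c8 o (adV j x))
  rw [PBASE.c8_adV, ← he]

theorem lead_base [Fact p.Prime] (h : RingHyp o p q) (hq : p ∣ q) (hp : 11 ≤ p) (r : ℕ) :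
    Lead p 2 (gf (fun I : GG (M := fun i => MT o (i + 1 + 1 + 1 + 1 + 1 + 1)) p
        (fun i => adT o (i + 1 + 1 + 1 + 1 + 1 + 1)) 0 2 =>
          ∑ i, len q (I.1 i).1 + r * expo p (I.1 0).1))
      (16 * ((6 : ℕ) : ℚ_[p]) ^ 2 * kap p q (3 * 6) * kap p q (5 * 6) /
        (((3 * 6 + r : ℕ) : ℚ_[p]) * ((8 * 6 + r : ℕ) : ℚ_[p]))) := by
  rw [gf_base h hp r]
  exact lead_zs h hq (by omega) 6 (by norm_num) r

end Pool.Agent.TZ8
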