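import Pool.Agent.TZ8.PBAD
import Pool.Agent.TZ8.PBASE
import Pool.Agent.TZ8.LCount
import Pool.Agent.TZ8.Fin8

set_option autoImplicit false

/-! The leading coefficient of the zeta function of class 8 and rank 2. -/

namespace Pool.Agent.TZ8

open Pool.Agent.TZ

variable {o : Type} [CommRing o] [IsDomain o] [IsDiscreteValuationRing o] {p q : ℕ}

theorem fre_shift {M : ℕ → Type} [∀ i, AddCommGroup (M i)] [∀ i, Module o (M i)] {c : ℕ}
    (hM : Fre o M (c + 1)) : Fre o (fun i => M (i + 1)) c where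
  free i hi := hM.free (i + 1) (by omega)
  fin i hi := hM.fin (i + 1) (by omega)

theorem lead_good [Fact p.Prime] (h : RingHyp o p q) (hq : p ∣ q) (hp : 11 ≤ p) :
    Lead p 8 (lgs p (GoodP h) (nuR q 0 (by norm_num)))
      (((2 : ℕ) : ℚ_[p]) * kap p q 2 / ((2 + 0 : ℕ) : ℚ_[p]) *
      (((1 : ℕ) : ℚ_[p]) * kap p q 1 / ((1 + (2 + 0) : ℕ) : ℚ_[p]) *
      (((2 : ℕ) : ℚ_[p]) * kap p q 2 / ((2 + (1 + (2 + 0)) : ℕ) : ℚ_[p]) *
      (((3 : ℕ) : ℚ_[p]) * kap p q 3 / ((3 + (2 + (1 + (2 + 0))) : ℕ) : ℚ_[p]) *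
      (((6 : ℕ) : ℚ_[p]) * kap p q 6 / ((6 + (3 + (2 + (1 + (2 + 0)))) : ℕ) : ℚ_[p]) *
      (((9 : ℕ) : ℚ_[p]) * kap p q 9 / ((9 + (6 + (3 + (2 + (1 + (2 + 0))))) : ℕ) : ℚ_[p]) *
      (16 * ((6 : ℕ) : ℚ_[p]) ^ 2 * kap p q (3 * 6) * kap p q (5 * 6) /
        (((3 * 6 + (9 + (6 + (3 + (2 + (1 + (2 + 0)))))) : ℕ) : ℚ_[p]) *
          ((8 * 6 + (9 + (6 + (3 + (2 + (1 + (2 + 0)))))) : ℕ) : ℚ_[p]))))))))) := by
  have hM : Fre o (MT o) 8 := fre_MT
  have h1 := lgs_good (ad := adT o) h hM (fun i hi => by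
    have := hM.free i hi
    refine Module.nontrivial_of_finrank_pos (R := o) ?_
    rw [finrank_MT]
    interval_cases i <;> decide) (fun i hi => gen_MT h hp i hi) 6 (by norm_num) (by norm_num) 0
    (GoodP h) (fun I hI => goodP_iff h I hI)
  rw [h1]
  refine lead_GG_succ (k := 7) h hq (adT o) 5 6 hM 2 (finrank_MT 0) (by norm_num) 0 _ ?_
  refine lead_GG_succ (k := 6) h hq (fun i => adT o (i + 1)) 4 5 (fre_shift hM) 1 (finrank_MT 1)
    (by norm_num) _ _ ?_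
  refine lead_GG_succ (k := 5) h hq (fun i => adT o (i + 1 + 1)) 3 4 (fre_shift (fre_shift hM))
    2 (finrank_MT 2) (by norm_num) _ _ ?_
  refine lead_GG_succ (k := 4) h hq (fun i => adT o (i + 1 + 1 + 1)) 2 3
    (fre_shift (fre_shift (fre_shift hM))) 3 (finrank_MT 3) (by norm_num) _ _ ?_
  refine lead_GG_succ (k := 3) h hq (fun i => adT o (i + 1 + 1 + 1 + 1)) 1 2
    (fre_shift (fre_shift (fre_shift (fre_shift hM)))) 6 (finrank_MT 4) (by norm_num) _ _ ?_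
  refine lead_GG_succ (k := 2) h hq (fun i => adT o (i + 1 + 1 + 1 + 1 + 1)) 0 1
    (fre_shift (fre_shift (fre_shift (fre_shift (fre_shift hM))))) 9 (finrank_MT 5)
    (by norm_num) _ _ ?_
  exact lead_base h hq hp _

theorem lead_total [Fact p.Prime] (h : RingHyp o p q) (hq : p ∣ q) (hp : 11 ≤ p) :
    Lead p 8 (gf (fun I : Tup (c := 8) (adT o) => ∑ i, len q (I.1 i).1))
      (∏ i, (W8 i : ℚ_[p]) / ((R8 i : ℚ_[p]) *
        ∏ j ∈ Finset.Ico 1 (W8 i), (1 - (q : ℚ_[p]) ^ j))) := by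
  have hM : Fre o (MT o) 8 := fre_MT
  have hN : NHyp (RR o 8 2) (NN (adT o) 8) p := nHyp h hM
  have h1 := lgs_nuR (ad := adT o) h hM (by norm_num) (fun _ => True) 0
  have h2 : gf (fun I : {I : Tup (c := 8) (adT o) //
      (fun _ : Lay (RR o 8 2) (NN (adT o) 8) p → ℕ => True) (lay p (tupEquiv h hM I).1)} =>
        ∑ i : Fin 8, len q (I.1.1 i).1 + 0 * expo p (I.1.1 ⟨0, by norm_num⟩).1) =
      gf (fun I : Tup (c := 8) (adT o) => ∑ i, len q (I.1 i).1) := by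
    rw [← gf_equiv (Equiv.subtypeUnivEquiv
      (p := fun I : Tup (c := 8) (adT o) => (fun _ : Lay (RR o 8 2) (NN (adT o) 8) p → ℕ => True)
        (lay p (tupEquiv h hM I).1)) (fun _ => trivial))
      (fun I : Tup (c := 8) (adT o) => ∑ i, len q (I.1 i).1)]
    congr 1
    funext I
    simp only [zero_mul, add_zero]
    rfl
  rw [← h2, ← h1, lgs_split hN (GoodP h) _ (fun V => nuR_pos h hM 0 (by norm_num) V)]
  have h3 := lead_add (lead_good h hq hp) (lead_bad h hp (nuR q 0 (by norm_num))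
    (fun V => nuR_pos h hM 0 (by norm_num) V))
  convert h3 using 1
  simp only [kap]
  rw [Fin.prod_univ_eight, show W8 0 = 2 from rfl, show W8 1 = 1 from rfl, show W8 2 = 2 from rfl,
    show W8 3 = 3 from rfl, show W8 4 = 6 from rfl, show W8 5 = 9 from rfl, show W8 6 = 18 from rfl,
    show W8 7 = 30 from rfl, show R8 0 = 15 from rfl, show R8 1 = 3 from rfl,
    show R8 2 = 5 from rfl, show R8 3 = 1 from rfl, show R8 4 = 14 from rfl,
    show R8 5 = 23 from rfl, show R8 6 = 41 from rfl, show R8 7 = 71 from rfl]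
  have hne : ∀ n : ℕ, ∏ j ∈ Finset.Ico 1 n, (1 - (q : ℚ_[p]) ^ j) ≠ 0 := by
    intro n
    refine Finset.prod_ne_zero_iff.2 fun j hj => ?_
    have hj1 := (Finset.mem_Ico.1 hj).1
    have h4 : (p : ℤ) ∣ (q : ℤ) ^ j := dvd_pow (by exact_mod_cast hq) (by omega)
    have := one_sub_ne_zero (p := p) h4
    simpa using this
  have h1' := hne 1
  have h2' := hne 2
  have h3' := hne 3
  have h6' := hne 6
  have h9' := hne 9
  have h18' := hne 18
  have h30' := hne 30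
  rw [show 3 * 6 = 18 from rfl, show 5 * 6 = 30 from rfl]
  generalize ∏ j ∈ Finset.Ico 1 1, (1 - (q : ℚ_[p]) ^ j) = k1 at *
  generalize ∏ j ∈ Finset.Ico 1 2, (1 - (q : ℚ_[p]) ^ j) = k2 at *
  generalize ∏ j ∈ Finset.Ico 1 3, (1 - (q : ℚ_[p]) ^ j) = k3 at *
  generalize ∏ j ∈ Finset.Ico 1 6, (1 - (q : ℚ_[p]) ^ j) = k6 at *
  generalize ∏ j ∈ Finset.Ico 1 9, (1 - (q : ℚ_[p]) ^ j) = k9 at *
  generalize ∏ j ∈ Finset.Ico 1 18, (1 - (q : ℚ_[p]) ^ j) = k18 at *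
  generalize ∏ j ∈ Finset.Ico 1 30, (1 - (q : ℚ_[p]) ^ j) = k30 at *
  push_cast
  field_simp
  norm_num

theorem hloc (p f : ℕ) [Fact p.Prime] (hp : 11 ≤ p) (hf : 1 ≤ f) :
    Lead p 8 (PowerSeries.mk (fun n => (idealCount 8 2 p f n : ℤ)))
      (∏ i, (W8 i : ℚ_[p]) / ((R8 i : ℚ_[p]) *
        ∏ j ∈ Finset.Ico 1 (W8 i), (1 - ((p ^ f : ℕ) : ℚ_[p]) ^ j))) := by
  have h := ringHyp_unram p f hf
  rw [idealCount_eq_gf8 p f hf hp]
  exact lead_total h (dvd_pow_self p (by omega)) hp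

end Pool.Agent.TZ8
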