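import Pool.Agent.TZ8.Fin8
import Pool.Agent.TZ8.LD

set_option autoImplicit false

/-! The local theorem in class 8 and rank 2, in terms of the Witt function. -/

namespace Pool.Agent.TZ8

open Pool.Agent.TZ

/-- The local leading coefficient in terms of the Witt function. -/
theorem val8 {K : Type} [Field K] [CharZero K] (x : K) :
    16 / 15 * (∏ i ∈ Finset.Icc 1 8, (wittFn 2 i : K) / ((wittSum 2 i : K) *
      ∏ j ∈ Finset.Ico 1 (wittFn 2 i), (1 - x ^ j))) =
      ∏ i, (W8 i : K) / ((R8 i : K) * ∏ j ∈ Finset.Ico 1 (W8 i), (1 - x ^ j)) := by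
  obtain ⟨h1, h2, h3, h4, h5, h6, h7, h8⟩ := wittFn_2
  obtain ⟨s1, s2, s3, s4, s5, s6, s7, s8⟩ := wittSum_2
  have hI : Finset.Icc 1 8 = {1, 2, 3, 4, 5, 6, 7, 8} := by decide
  rw [hI]
  rw [Finset.prod_insert (by decide), Finset.prod_insert (by decide),
    Finset.prod_insert (by decide), Finset.prod_insert (by decide), Finset.prod_insert (by decide),
    Finset.prod_insert (by decide), Finset.prod_pair (by norm_num), h1, h2, h3, h4, h5, h6, h7, h8,
    s1, s2, s3, s4, s5, s6, s7, s8, Fin.prod_univ_eight, show W8 0 = 2 from rfl,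
    show W8 1 = 1 from rfl, show W8 2 = 2 from rfl,
    show W8 3 = 3 from rfl, show W8 4 = 6 from rfl, show W8 5 = 9 from rfl, show W8 6 = 18 from rfl,
    show W8 7 = 30 from rfl, show R8 0 = 15 from rfl, show R8 1 = 3 from rfl,
    show R8 2 = 5 from rfl, show R8 3 = 1 from rfl, show R8 4 = 14 from rfl,
    show R8 5 = 23 from rfl, show R8 6 = 41 from rfl, show R8 7 = 71 from rfl]
  generalize ∏ j ∈ Finset.Ico 1 1, (1 - x ^ j) = k1
  generalize ∏ j ∈ Finset.Ico 1 2, (1 - x ^ j) = k2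
  generalize ∏ j ∈ Finset.Ico 1 3, (1 - x ^ j) = k3
  generalize ∏ j ∈ Finset.Ico 1 6, (1 - x ^ j) = k6
  generalize ∏ j ∈ Finset.Ico 1 9, (1 - x ^ j) = k9
  generalize ∏ j ∈ Finset.Ico 1 18, (1 - x ^ j) = k18
  generalize ∏ j ∈ Finset.Ico 1 30, (1 - x ^ j) = k30
  push_cast
  simp only [div_eq_mul_inv, mul_inv]
  ring

/-- The local leading coefficient: for `p ≥ 11`, `q = p ^ f`, the generating function `Z(t)` of the
numbers of graded ideals satisfies `Z(t) (1 - t) ^ 8 A(t) = B(t)` with integral power series `A`, `B`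
whose coefficients have `p`-adic sums `a ≠ 0` and
`(16 / 15) a ∏ W(i) / (R_i ∏_{1 ≤ j < W(i)} (1 - q ^ j))`. -/
theorem local8 {p f : ℕ} [Fact p.Prime]
    (hloc : Lead p 8 (PowerSeries.mk (fun n => (idealCount 8 2 p f n : ℤ)))
        (∏ i, (W8 i : ℚ_[p]) / ((R8 i : ℚ_[p]) *
          ∏ j ∈ Finset.Ico 1 (W8 i), (1 - ((p ^ f : ℕ) : ℚ_[p]) ^ j)))) :
    ∃ (A B : PowerSeries ℤ) (a : ℚ_[p]), a ≠ 0 ∧
      HasSum (fun n : ℕ => ((PowerSeries.coeff n A : ℤ) : ℚ_[p])) a ∧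
      HasSum (fun n : ℕ => ((PowerSeries.coeff n B : ℤ) : ℚ_[p]))
        (16 / 15 * (∏ i ∈ Finset.Icc 1 8, (wittFn 2 i : ℚ_[p]) / ((wittSum 2 i : ℚ_[p]) *
          ∏ j ∈ Finset.Ico 1 (wittFn 2 i), (1 - ((p ^ f : ℕ) : ℚ_[p]) ^ j))) * a) ∧
      PowerSeries.mk (fun n => (idealCount 8 2 p f n : ℤ)) *
        ((1 - PowerSeries.X) ^ 8 * A) = B := by
  obtain ⟨A, B, a, hA, ha, hB, hAB⟩ := hloc
  refine ⟨A, B, a, ha, hA, ?_, hAB⟩
  rw [val8]
  exact hB

/-- The sum of the coefficients of a polynomial. -/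
theorem psum_polyZ {p : ℕ} [Fact p.Prime] (P : Polynomial ℤ) :
    TZ.PSum p (P : PowerSeries ℤ) ((P.eval 1 : ℤ) : ℚ_[p]) := by
  have h1 : P.eval 1 = ∑ n ∈ P.support, P.coeff n := by
    rw [Polynomial.eval_eq_sum, Polynomial.sum]
    simp
  unfold TZ.PSum
  rw [h1]
  push_cast
  have h2 : ∀ n ∉ P.support, ((PowerSeries.coeff n (P : PowerSeries ℤ) : ℤ) : ℚ_[p]) = 0 := by
    intro n hn
    rw [Polynomial.coeff_coe, Polynomial.notMem_support_iff.1 hn, Int.cast_zero]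
  have h3 : HasSum (fun n : ℕ => ((PowerSeries.coeff n (P : PowerSeries ℤ) : ℤ) : ℚ_[p]))
      (∑ n ∈ P.support, ((PowerSeries.coeff n (P : PowerSeries ℤ) : ℤ) : ℚ_[p])) :=
    hasSum_sum_of_ne_finset_zero h2
  simpa using h3

/-- A nonzero polynomial is a power of `1 - X` times a polynomial which does not vanish at `1`. -/
theorem exists_factor (P : Polynomial ℤ) (hP : P ≠ 0) :
    ∃ (k : ℕ) (Q : Polynomial ℤ), P = (1 - Polynomial.X) ^ k * Q ∧ Q.eval 1 ≠ 0 := by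
  obtain ⟨Q, hQ, hQ1⟩ := Polynomial.exists_eq_pow_rootMultiplicity_mul_and_not_dvd P hP 1
  set k := P.rootMultiplicity 1
  refine ⟨k, (-1) ^ k * Q, ?_, ?_⟩
  · rw [← mul_assoc, ← mul_pow, show (1 - Polynomial.X) * (-1 : Polynomial ℤ) =
      Polynomial.X - Polynomial.C 1 by rw [map_one]; ring]
    exact hQ
  · rw [Polynomial.eval_mul]
    apply mul_ne_zero
    · simp
    · intro h
      exact hQ1 (Polynomial.dvd_iff_isRoot.2 h)

/-- If the generating function is a rational function, it has a pole of order exactly `8` at `1`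
with the given leading coefficient. -/
theorem rat_of_lead {p : ℕ} [Fact p.Prime] {G : PowerSeries ℤ} {r : ℕ} {v : ℚ} (hv : v ≠ 0)
    (hG : Lead p r G (v : ℚ_[p])) (P D : Polynomial ℤ) (hD : D ≠ 0)
    (hPD : G * (D : PowerSeries ℤ) = (P : PowerSeries ℤ)) :
    ∃ (k : ℕ) (P' D' : Polynomial ℤ), P = (1 - Polynomial.X) ^ k * P' ∧
      D = (1 - Polynomial.X) ^ (k + r) * D' ∧ D'.eval 1 ≠ 0 ∧
      ((P'.eval 1 : ℤ) : ℚ) / ((D'.eval 1 : ℤ) : ℚ) = v := by
  obtain ⟨A, B, a, hA, ha, hB, hAB⟩ := hG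
  have hv' : (v : ℚ_[p]) ≠ 0 := by exact_mod_cast hv
  -- `P` is not zero
  have hA0 : A ≠ 0 := by
    rintro rfl
    exact ha (psum_unique hA psum_zero)
  have hB0 : B ≠ 0 := by
    rintro rfl
    exact mul_ne_zero hv' ha (psum_unique hB psum_zero)
  have h1X : (1 - PowerSeries.X : PowerSeries ℤ) ≠ 0 := by
    intro h
    have := congrArg (PowerSeries.coeff 0) h
    simp at this
  have hDs : (D : PowerSeries ℤ) ≠ 0 := fun h => hD (Polynomial.coe_injective ℤ (by simpa using h))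
  have key : (P : PowerSeries ℤ) * ((1 - PowerSeries.X) ^ r * A) = (D : PowerSeries ℤ) * B := by
    rw [← hPD, ← hAB]
    ring
  have hP : P ≠ 0 := by
    rintro rfl
    rw [Polynomial.coe_zero, zero_mul] at key
    exact mul_ne_zero hDs hB0 key.symm
  obtain ⟨k, P', rfl, hP'⟩ := exists_factor P hP
  obtain ⟨l, D', rfl, hD'⟩ := exists_factor D hD
  have hc : ((1 - Polynomial.X : Polynomial ℤ) : PowerSeries ℤ) = 1 - PowerSeries.X := by
    rw [Polynomial.coe_sub, Polynomial.coe_one, Polynomial.coe_X]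
  rw [Polynomial.coe_mul, Polynomial.coe_mul, Polynomial.coe_pow, Polynomial.coe_pow, hc] at key
  have hsP := psum_polyZ (p := p) P'
  have hsD := psum_polyZ (p := p) D'
  have hP'' : ((P'.eval 1 : ℤ) : ℚ_[p]) ≠ 0 := by exact_mod_cast hP'
  have hD'' : ((D'.eval 1 : ℤ) : ℚ_[p]) ≠ 0 := by exact_mod_cast hD'
  have hlk : l = k + r := by
    rcases lt_trichotomy l (k + r) with h | h | h
    · exfalso
      obtain ⟨j, hj⟩ := Nat.exists_eq_add_of_lt h
      have h2 : (1 - PowerSeries.X) ^ (j + 1) * ((P' : PowerSeries ℤ) * A) =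
          (D' : PowerSeries ℤ) * B := by
        apply mul_left_cancel₀ (pow_ne_zero l h1X)
        calc (1 - PowerSeries.X) ^ l * ((1 - PowerSeries.X) ^ (j + 1) * ((P' : PowerSeries ℤ) * A))
            = (1 - PowerSeries.X) ^ (k + r) * ((P' : PowerSeries ℤ) * A) := by
              rw [hj, ← mul_assoc, ← pow_add, ← add_assoc]
          _ = _ := by
              rw [pow_add]
              linear_combination key
      have h3 := psum_mul (psum_pow (psum_one_sub_X (p := p)) (j + 1)) (psum_mul hsP hA)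
      rw [h2, zero_pow (Nat.succ_ne_zero j), zero_mul] at h3
      have h4 := psum_unique h3 (psum_mul hsD hB)
      exact mul_ne_zero hD'' (mul_ne_zero hv' ha) h4.symm
    · exact h
    · exfalso
      obtain ⟨j, hj⟩ := Nat.exists_eq_add_of_lt h
      have h2 : (1 - PowerSeries.X) ^ (j + 1) * ((D' : PowerSeries ℤ) * B) =
          (P' : PowerSeries ℤ) * A := by
        apply mul_left_cancel₀ (pow_ne_zero (k + r) h1X)
        calc (1 - PowerSeries.X) ^ (k + r) *
              ((1 - PowerSeries.X) ^ (j + 1) * ((D' : PowerSeries ℤ) * B))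
            = (1 - PowerSeries.X) ^ l * ((D' : PowerSeries ℤ) * B) := by
              rw [hj, ← mul_assoc, ← pow_add, ← add_assoc]
          _ = _ := by
              rw [pow_add]
              linear_combination -key
      have h3 := psum_mul (psum_pow (psum_one_sub_X (p := p)) (j + 1)) (psum_mul hsD hB)
      rw [h2, zero_pow (Nat.succ_ne_zero j), zero_mul] at h3
      have h4 := psum_unique h3 (psum_mul hsP hA)
      exact mul_ne_zero hP'' ha h4.symm
  subst hlk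
  refine ⟨k, P', D', rfl, rfl, hD', ?_⟩
  have h2 : (P' : PowerSeries ℤ) * A = (D' : PowerSeries ℤ) * B := by
    apply mul_left_cancel₀ (pow_ne_zero (k + r) h1X)
    rw [pow_add]
    linear_combination key
  have h3 := psum_mul hsP hA
  rw [h2] at h3
  have h4 := psum_unique h3 (psum_mul hsD hB)
  have h5 : ((P'.eval 1 : ℤ) : ℚ_[p]) = ((D'.eval 1 : ℤ) : ℚ_[p]) * (v : ℚ_[p]) := by
    apply mul_right_cancel₀ ha
    rw [h4]
    ring
  have h6 : ((P'.eval 1 : ℤ) : ℚ) = ((D'.eval 1 : ℤ) : ℚ) * v := by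
    exact_mod_cast h5
  have h7 : ((D'.eval 1 : ℤ) : ℚ) ≠ 0 := by exact_mod_cast hD'
  rw [h6]
  field_simp

/-- If the local zeta function is a rational function of `t = q ^ (-s)`, it has a pole of order
exactly `8` at `t = 1` with leading coefficient `16 / 15` times the expected one. -/
theorem local8_rat {p f : ℕ} [Fact p.Prime] (hf : 1 ≤ f)
    (hloc : Lead p 8 (PowerSeries.mk (fun n => (idealCount 8 2 p f n : ℤ)))
        (∏ i, (W8 i : ℚ_[p]) / ((R8 i : ℚ_[p]) *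
          ∏ j ∈ Finset.Ico 1 (W8 i), (1 - ((p ^ f : ℕ) : ℚ_[p]) ^ j))))
    (P D : Polynomial ℤ) (hD : D ≠ 0)
    (hPD : PowerSeries.mk (fun n => (idealCount 8 2 p f n : ℤ)) * (D : PowerSeries ℤ) =
      (P : PowerSeries ℤ)) :
    ∃ (k : ℕ) (P' D' : Polynomial ℤ), P = (1 - Polynomial.X) ^ k * P' ∧
      D = (1 - Polynomial.X) ^ (k + 8) * D' ∧ D'.eval 1 ≠ 0 ∧
      ((P'.eval 1 : ℤ) : ℚ) / ((D'.eval 1 : ℤ) : ℚ) =
        16 / 15 * ∏ i ∈ Finset.Icc 1 8, (wittFn 2 i : ℚ) / ((wittSum 2 i : ℚ) *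
          ∏ j ∈ Finset.Ico 1 (wittFn 2 i), (1 - ((p ^ f : ℕ) : ℚ) ^ j)) := by
  have hq : 1 < p ^ f := Nat.one_lt_pow (by omega) (Fact.out (p := p.Prime)).one_lt
  have h1 : ((loc8 (p ^ f) : ℚ) : ℚ_[p]) = ∏ i, (W8 i : ℚ_[p]) / ((R8 i : ℚ_[p]) *
          ∏ j ∈ Finset.Ico 1 (W8 i), (1 - ((p ^ f : ℕ) : ℚ_[p]) ^ j)) := by
    unfold loc8
    push_cast
    rfl
  rw [← h1] at hloc
  rw [val8]
  exact rat_of_lead (loc8_ne _ hq) hloc P D hD hPD

end Pool.Agent.TZ8
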