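import Pool.Agent.TZ8.ORB

set_option autoImplicit false

/-! Classes of lattices with the same `I ∩ p ^ c N` and `I + p ^ c N`. -/

namespace Pool.Agent.TZ8

variable {R : Type} [Ring R] {N : Type} [AddCommGroup N] [Module R N] {p : ℕ}

/-- Homomorphisms `D / P → P / C`. -/
def Hgrp (C D P : Submodule R N) : AddSubgroup (↥D →ₗ[R] N ⧸ C) where
  carrier := {f | (∀ x : ↥D, (x : N) ∈ P → f x = 0) ∧ ∀ x, f x ∈ P.map C.mkQ}
  add_mem' := by
    rintro f g ⟨hf, hf'⟩ ⟨hg, hg'⟩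
    refine ⟨fun x hx => by simp [hf x hx, hg x hx], fun x => ?_⟩
    exact (P.map C.mkQ).add_mem (hf' x) (hg' x)
  zero_mem' := ⟨fun _ _ => rfl, fun _ => (P.map C.mkQ).zero_mem⟩
  neg_mem' := by
    rintro f ⟨hf, hf'⟩
    refine ⟨fun x hx => by simp [hf x hx], fun x => ?_⟩
    exact (P.map C.mkQ).neg_mem (hf' x)

/-- The projection of `J + P` to `J / (J ∩ P)`. -/
theorem exists_proj (J P C D : Submodule R N) (hC : J ⊓ P = C) (hD : J ⊔ P = D) :
    ∃ π : ↥D →ₗ[R] N ⧸ C, ∀ (x : ↥D) (j : N), j ∈ J → (x : N) - j ∈ P →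
      π x = C.mkQ j := by
  classical
  have hex : ∀ x : ↥D, ∃ j, j ∈ J ∧ (x : N) - j ∈ P := by
    rintro ⟨x, hx⟩
    rw [← hD] at hx
    obtain ⟨j, hj, a, ha, rfl⟩ := Submodule.mem_sup.1 hx
    exact ⟨j, hj, by simpa using ha⟩
  choose f hfJ hfP using hex
  have key : ∀ (x : ↥D) (j : N), j ∈ J → (x : N) - j ∈ P → C.mkQ (f x) = C.mkQ j := by
    intro x j hj hx
    rw [← sub_eq_zero, ← map_sub, Submodule.mkQ_apply, Submodule.Quotient.mk_eq_zero, ← hC]
    refine ⟨J.sub_mem (hfJ x) hj, ?_⟩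
    have := P.sub_mem hx (hfP x)
    have e : (x : N) - j - ((x : N) - f x) = f x - j := by abel
    rw [e] at this
    exact this
  refine ⟨{ toFun := fun x => C.mkQ (f x), map_add' := ?_, map_smul' := ?_ }, ?_⟩
  · intro x y
    rw [← map_add]
    refine key (x + y) _ (J.add_mem (hfJ x) (hfJ y)) ?_
    have := P.add_mem (hfP x) (hfP y)
    have e : (x : N) - f x + ((y : N) - f y) = ((x + y : ↥D) : N) - (f x + f y) := by
      push_cast
      abel
    rw [e] at this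
    exact this
  · intro r x
    rw [RingHom.id_apply, ← map_smul]
    refine key (r • x) _ (J.smul_mem r (hfJ x)) ?_
    have := P.smul_mem r (hfP x)
    rw [smul_sub] at this
    exact this
  · intro x j hj hx
    exact key x j hj hx

/-- The class of `I` has as many elements as there are homomorphisms. -/
theorem card_cls (I P : Submodule R N) :
    Nat.card {I' : Submodule R N // I' ⊓ P = I ⊓ P ∧ I' ⊔ P = I ⊔ P} =
      Nat.card (Hgrp (I ⊓ P) (I ⊔ P) P) := by
  classical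
  have hπ : ∀ J : {I' : Submodule R N // I' ⊓ P = I ⊓ P ∧ I' ⊔ P = I ⊔ P},
      ∃ π : ↥(I ⊔ P) →ₗ[R] N ⧸ (I ⊓ P), ∀ (x : ↥(I ⊔ P)) (j : N), j ∈ J.1 → (x : N) - j ∈ P →
        π x = (I ⊓ P).mkQ j := fun J => exists_proj J.1 P _ _ J.2.1 J.2.2
  choose π hπ using hπ
  have hex : ∀ (J : {I' : Submodule R N // I' ⊓ P = I ⊓ P ∧ I' ⊔ P = I ⊔ P}) (x : ↥(I ⊔ P)),
      ∃ j, j ∈ J.1 ∧ (x : N) - j ∈ P := by
    rintro J ⟨x, hx⟩
    rw [← J.2.2] at hx
    obtain ⟨j, hj, a, ha, rfl⟩ := Submodule.mem_sup.1 hx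
    exact ⟨j, hj, by simpa using ha⟩
  have hmem : ∀ (J : {I' : Submodule R N // I' ⊓ P = I ⊓ P ∧ I' ⊔ P = I ⊔ P}) (x : ↥(I ⊔ P)),
      (x : N) ∈ J.1 ↔ π J x = (I ⊓ P).mkQ (x : N) := by
    intro J x
    constructor
    · intro hx
      exact hπ J x x hx (by simp)
    · intro hx
      obtain ⟨j, hj, hj'⟩ := hex J x
      rw [hπ J x j hj hj', ← sub_eq_zero, ← map_sub, Submodule.mkQ_apply,
        Submodule.Quotient.mk_eq_zero, ← J.2.1] at hx
      have := J.1.sub_mem hj hx.1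
      simpa using this
  let I0 : {I' : Submodule R N // I' ⊓ P = I ⊓ P ∧ I' ⊔ P = I ⊔ P} := ⟨I, rfl, rfl⟩
  have hP0 : ∀ (J : {I' : Submodule R N // I' ⊓ P = I ⊓ P ∧ I' ⊔ P = I ⊔ P}) (x : ↥(I ⊔ P)),
      (x : N) ∈ P → π J x = 0 := by
    intro J x hx
    rw [hπ J x 0 J.1.zero_mem (by simpa using hx), map_zero]
  refine Nat.card_congr (Equiv.ofBijective
    (fun J => (⟨π J - π I0, ?_, ?_⟩ : Hgrp (I ⊓ P) (I ⊔ P) P)) ⟨?_, ?_⟩)
  · intro x hx
    rw [LinearMap.sub_apply, hP0 J x hx, hP0 I0 x hx, sub_zero]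
  · intro x
    obtain ⟨j, hj, hj'⟩ := hex J x
    obtain ⟨i, hi, hi'⟩ := hex I0 x
    rw [LinearMap.sub_apply, hπ J x j hj hj', hπ I0 x i hi hi', ← map_sub]
    refine Submodule.mem_map_of_mem ?_
    have := P.sub_mem hi' hj'
    have e : (x : N) - i - ((x : N) - j) = j - i := by abel
    rw [e] at this
    exact this
  · intro J J' h
    have h' : π J = π J' := by
      have := congrArg Subtype.val h
      simpa using this
    apply Subtype.ext
    apply le_antisymm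
    · intro x hx
      have hxD : x ∈ I ⊔ P := by
        rw [← J.2.2]
        exact Submodule.mem_sup_left hx
      have := (hmem J ⟨x, hxD⟩).1 hx
      rw [h'] at this
      exact (hmem J' ⟨x, hxD⟩).2 this
    · intro x hx
      have hxD : x ∈ I ⊔ P := by
        rw [← J'.2.2]
        exact Submodule.mem_sup_left hx
      have := (hmem J' ⟨x, hxD⟩).1 hx
      rw [← h'] at this
      exact (hmem J ⟨x, hxD⟩).2 this
  · rintro ⟨f, hf, hf'⟩
    -- the submodule of fixed points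
    let ρ : ↥(I ⊔ P) →ₗ[R] N ⧸ (I ⊓ P) := π I0 + f
    have hρP : ∀ x : ↥(I ⊔ P), (x : N) ∈ P → ρ x = 0 := by
      intro x hx
      simp only [ρ, LinearMap.add_apply, hP0 I0 x hx, hf x hx, add_zero]
    let E : Submodule R ↥(I ⊔ P) :=
      LinearMap.ker (ρ - (I ⊓ P).mkQ.comp (I ⊔ P).subtype)
    have hE : ∀ x : ↥(I ⊔ P), x ∈ E ↔ ρ x = (I ⊓ P).mkQ (x : N) := by
      intro x
      simp only [E, LinearMap.mem_ker, LinearMap.sub_apply, LinearMap.comp_apply,
        Submodule.subtype_apply, sub_eq_zero]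
    let J : Submodule R N := E.map (I ⊔ P).subtype
    have hJ : ∀ x : N, x ∈ J ↔ ∃ h : x ∈ I ⊔ P, ρ ⟨x, h⟩ = (I ⊓ P).mkQ x := by
      intro x
      constructor
      · rintro ⟨y, hy, rfl⟩
        exact ⟨y.2, (hE y).1 hy⟩
      · rintro ⟨h, h'⟩
        exact ⟨⟨x, h⟩, (hE _).2 h', rfl⟩
    have hJD : ∀ x : ↥(I ⊔ P), ∃ y : N, y ∈ J ∧ (x : N) - y ∈ P := by
      intro x
      obtain ⟨i, hi, hi'⟩ := hex I0 x
      obtain ⟨a, ha, ha'⟩ := hf' x
      have hy : i + a ∈ I ⊔ P :=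
        Submodule.add_mem _ (Submodule.mem_sup_left hi) (Submodule.mem_sup_right ha)
      have hxy : (x : N) - (i + a) ∈ P := by
        have := P.sub_mem hi' ha
        have e : (x : N) - i - a = (x : N) - (i + a) := by abel
        rw [e] at this
        exact this
      refine ⟨i + a, (hJ _).2 ⟨hy, ?_⟩, hxy⟩
      have h1 : ρ (x - ⟨i + a, hy⟩) = 0 := hρP _ (by simpa using hxy)
      rw [map_sub, sub_eq_zero] at h1
      rw [← h1]
      simp only [ρ, LinearMap.add_apply, hπ I0 x i hi hi', ← ha', map_add]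
    have hJ1 : J ⊓ P = I ⊓ P := by
      apply le_antisymm
      · rintro x ⟨hx, hxP⟩
        obtain ⟨h, h'⟩ := (hJ x).1 hx
        rw [hρP ⟨x, h⟩ hxP] at h'
        rw [← Submodule.Quotient.mk_eq_zero (I ⊓ P), ← Submodule.mkQ_apply]
        exact h'.symm
      · intro x hx
        refine ⟨(hJ x).2 ⟨Submodule.mem_sup_right hx.2, ?_⟩, hx.2⟩
        rw [hρP _ hx.2]
        symm
        rw [Submodule.mkQ_apply, Submodule.Quotient.mk_eq_zero]
        exact hx
    have hJ2 : J ⊔ P = I ⊔ P := by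
      apply le_antisymm
      · refine sup_le ?_ le_sup_right
        intro x hx
        exact ((hJ x).1 hx).1
      · intro x hx
        obtain ⟨y, hy, hxy⟩ := hJD ⟨x, hx⟩
        have : x = y + (x - y) := by abel
        rw [this]
        exact Submodule.add_mem _ (Submodule.mem_sup_left hy) (Submodule.mem_sup_right hxy)
    refine ⟨⟨J, hJ1, hJ2⟩, ?_⟩
    apply Subtype.ext
    apply LinearMap.ext
    intro x
    obtain ⟨y, hy, hxy⟩ := hJD x
    obtain ⟨h, h'⟩ := (hJ y).1 hy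
    have h1 : ρ (x - ⟨y, h⟩) = 0 := hρP _ (by simpa using hxy)
    rw [map_sub, sub_eq_zero, h'] at h1
    simp only [LinearMap.sub_apply]
    rw [hπ ⟨J, hJ1, hJ2⟩ x y hy hxy, ← h1]
    simp only [ρ, LinearMap.add_apply]
    abel

theorem isLat_of_cls {I I' : Submodule R N} {c : ℕ} (hI : IsLat p I)
    (h : I' ⊓ pN R N p c = I ⊓ pN R N p c) : IsLat p I' := by
  obtain ⟨k, hk⟩ := hI
  refine ⟨max k c, ?_⟩
  have h1 : pN R N p (max k c) ≤ I ⊓ pN R N p c :=
    le_inf ((pN_anti (le_max_left k c)).trans hk) (pN_anti (le_max_right k c))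
  rw [← h] at h1
  exact h1.trans inf_le_left

theorem fl_le_of_cls {I I' : Submodule R N} {c : ℕ}
    (h1 : I' ⊓ pN R N p c = I ⊓ pN R N p c) (h2 : I' ⊔ pN R N p c = I ⊔ pN R N p c) (j : ℕ) :
    fl p I' j ≤ fl p I j := by
  refine sup_le ?_ le_sup_right
  intro x hx
  have hx' : p ^ j • x ∈ I' := hx
  by_cases hj : c ≤ j
  · have h3 : p ^ j • x ∈ I' ⊓ pN R N p c :=
      ⟨hx', pN_anti hj (mem_pN.2 ⟨x, rfl⟩)⟩
    rw [h1] at h3
    exact Submodule.mem_sup_left h3.1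
  · push Not at hj
    have h3 : p ^ j • x ∈ I ⊔ pN R N p c := by
      rw [← h2]
      exact Submodule.mem_sup_left hx'
    obtain ⟨i, hi, a, ha, hia⟩ := Submodule.mem_sup.1 h3
    obtain ⟨n, rfl⟩ := mem_pN.1 ha
    obtain ⟨d, rfl⟩ := Nat.exists_eq_add_of_lt hj
    rw [mem_fl]
    refine ⟨x - p ^ (d + 1) • n, p ^ d • n, ?_, ?_⟩
    · rw [← mul_smul, pow_succ', sub_add_cancel]
    · have e : p ^ j • (x - p ^ (d + 1) • n) = i := by
        rw [smul_sub, ← hia, ← mul_smul, ← pow_add, ← add_assoc]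
        abel
      rw [e]
      exact hi

theorem fl_of_cls (hN : NHyp R N p) {I I' : Submodule R N} {c : ℕ}
    (h1 : I' ⊓ pN R N p c = I ⊓ pN R N p c) (h2 : I' ⊔ pN R N p c = I ⊔ pN R N p c) (j : ℕ) :
    fl p I' j = fl p I j :=
  le_antisymm (fl_le_of_cls h1 h2 j) (fl_le_of_cls h1.symm h2.symm j)

/-- Killing: if a long stretch at `V` gives many homomorphisms, the number of lattices with a long
stretch at `V` is divisible by a high power of `p`. -/
theorem kill_of_hom (hN : NHyp R N p) (V : Lay R N p)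
    (hV : ∀ m : ℕ, ∃ g K : ℕ, ∀ (I : Submodule R N) (x : ℕ), IsLat p I →
      (∀ j, x ≤ j → j < x + g → fl p I j = V.1) →
      p ^ m ∣ Nat.card (Hgrp (I ⊓ pN R N p (x + K)) (I ⊔ pN R N p (x + K))
        (pN R N p (x + K)))) :
    Kill V := by
  classical
  intro m
  obtain ⟨g, K, hg⟩ := hV m
  refine ⟨g, fun l hl => ?_⟩
  haveI := finite_lat_lay hN l
  haveI := Fintype.ofFinite {I : Submodule R N // IsLat p I ∧ lay p I = l}
  unfold cnt
  rw [Nat.card_eq_fintype_card]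
  rw [← Nat.cast_pow, Int.natCast_dvd_natCast]
  let P := pN R N p (start l V + K)
  let F : {I : Submodule R N // IsLat p I ∧ lay p I = l} → Submodule R N × Submodule R N :=
    fun I => (I.1 ⊓ P, I.1 ⊔ P)
  rw [← Finset.card_univ, Finset.card_eq_sum_card_image F Finset.univ]
  refine Finset.dvd_sum fun b hb => ?_
  obtain ⟨I, -, rfl⟩ := Finset.mem_image.1 hb
  have hcard : (Finset.univ.filter fun J => F J = F I).card =
      Nat.card {I' : Submodule R N // I' ⊓ P = I.1 ⊓ P ∧ I' ⊔ P = I.1 ⊔ P} := by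
    rw [← Fintype.card_subtype, ← Nat.card_eq_fintype_card]
    refine Nat.card_congr
      { toFun := fun J => ⟨J.1.1, (Prod.ext_iff.1 J.2).1, (Prod.ext_iff.1 J.2).2⟩
        invFun := fun J => ⟨⟨J.1, isLat_of_cls I.2.1 J.2.1, ?_⟩, Prod.ext J.2.1 J.2.2⟩
        left_inv := fun J => rfl
        right_inv := fun J => rfl }
    exact (lay_congr fun j => fl_of_cls hN J.2.1 J.2.2 j).trans I.2.2
  rw [hcard, card_cls]
  refine hg I.1 (start l V) I.2.1 ?_
  intro j hj hj'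
  rw [fl_eq_iff hN I.2.1 V j, I.2.2]
  exact ⟨hj, hj'.trans_le (by omega)⟩

end Pool.Agent.TZ8
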