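import Pool.Agent.TZ8.LD

set_option autoImplicit false

/-! The combinatorial theorem: from stability and `p`-adic decay to leading coefficients. -/

namespace Pool.Agent.TZ8

open Pool.Agent.TZ

variable {p : ℕ} [Fact p.Prime] {S : Type} [Fintype S] [DecidableEq S]

/-- A function is null if modulo every power of `p` it has finite support. -/
def Null (p : ℕ) (f : (S → ℕ) → ℤ) : Prop := ∀ m : ℕ, {l : S → ℕ | ¬ (p : ℤ) ^ m ∣ f l}.Finite

/-- Difference operator in the direction `V`. -/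
def dif (V : S) (f : (S → ℕ) → ℤ) (l : S → ℕ) : ℤ :=
  f l - if l V = 0 then 0 else f (l - Pi.single V 1)

/-- The multiplicities of weight `n`. -/
def fib (nu : S → ℕ) (n : ℕ) : Finset (S → ℕ) :=
  (Fintype.piFinset fun _ : S => Finset.range (n + 1)).filter fun l => ∑ V, l V * nu V = n

omit [Fact p.Prime] in
theorem mem_fib {nu : S → ℕ} (hnu : ∀ V, 0 < nu V) {n : ℕ} {l : S → ℕ} :
    l ∈ fib nu n ↔ ∑ V, l V * nu V = n := by
  rw [fib, Finset.mem_filter, Fintype.mem_piFinset]
  refine ⟨fun h => h.2, fun h => ⟨fun V => ?_, h⟩⟩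
  rw [Finset.mem_range]
  have h1 : l V * nu V ≤ n := by
    rw [← h]
    exact Finset.single_le_sum (f := fun V => l V * nu V) (fun _ _ => Nat.zero_le _)
      (Finset.mem_univ V)
  have := Nat.le_mul_of_pos_right (l V) (hnu V)
  omega

theorem coeff_gs (f : (S → ℕ) → ℤ) {nu : S → ℕ} (hnu : ∀ V, 0 < nu V) (n : ℕ) :
    PowerSeries.coeff n (gs f nu) = ∑ l ∈ fib nu n, f l := by
  rw [gs, PowerSeries.coeff_mk,
    finsum_subtype_eq_finsum_cond (fun l : S → ℕ => ∑ V, l V * nu V = n)]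
  exact finsum_cond_eq_sum_of_cond_iff f fun {l} _ => (mem_fib hnu).symm

theorem wt_add_single (nu l : S → ℕ) (V : S) :
    ∑ W, (l + Pi.single V 1 : S → ℕ) W * nu W = (∑ W, l W * nu W) + nu V := by
  simp [add_mul, Finset.sum_add_distrib, Pi.single_apply]

theorem sub_add_single {l : S → ℕ} {V : S} (h : l V ≠ 0) :
    l - Pi.single V 1 + Pi.single V 1 = l := by
  funext W
  simp only [Pi.add_apply, Pi.sub_apply, Pi.single_apply]
  split_ifs with h1
  · subst h1; omega
  · omega

theorem add_sub_single (l : S → ℕ) (V : S) : l + Pi.single V 1 - Pi.single V 1 = l := by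
  funext W
  simp only [Pi.add_apply, Pi.sub_apply]
  omega

theorem gs_dif (V : S) (f : (S → ℕ) → ℤ) (nu : S → ℕ) (hnu : ∀ V, 0 < nu V) :
    gs f nu * (1 - PowerSeries.X ^ nu V) = gs (dif V f) nu := by
  ext n
  rw [mul_sub, mul_one, map_sub, PowerSeries.coeff_mul_X_pow', coeff_gs f hnu n,
    coeff_gs (dif V f) hnu n]
  unfold dif
  rw [Finset.sum_sub_distrib]
  congr 1
  split_ifs with h
  · rw [coeff_gs f hnu, Finset.sum_ite, Finset.sum_const_zero, zero_add]
    refine Finset.sum_bij' (fun l _ => l + Pi.single V 1) (fun l _ => l - Pi.single V 1)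
      ?_ ?_ ?_ ?_ ?_
    · intro l hl
      rw [mem_fib hnu] at hl
      rw [Finset.mem_filter, mem_fib hnu, wt_add_single]
      refine ⟨by omega, by simp⟩
    · intro l hl
      rw [Finset.mem_filter, mem_fib hnu] at hl
      rw [mem_fib hnu]
      have h1 := wt_add_single nu (l - Pi.single V 1 : S → ℕ) V
      rw [sub_add_single hl.2, hl.1] at h1
      omega
    · intro l _
      exact add_sub_single l V
    · intro l hl
      rw [Finset.mem_filter] at hl
      exact sub_add_single hl.2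
    · intro l _
      rw [add_sub_single]
  · symm
    refine Finset.sum_eq_zero fun l hl => ?_
    rw [if_pos]
    by_contra h1
    rw [mem_fib hnu] at hl
    have h2 := wt_add_single nu (l - Pi.single V 1 : S → ℕ) V
    rw [sub_add_single h1] at h2
    omega

theorem gs_sum {ι : Type} (s : Finset ι) (f : ι → (S → ℕ) → ℤ) (nu : S → ℕ)
    (hnu : ∀ V, 0 < nu V) : gs (fun l => ∑ i ∈ s, f i l) nu = ∑ i ∈ s, gs (f i) nu := by
  ext n
  rw [coeff_gs _ hnu, map_sum, Finset.sum_comm]
  exact Finset.sum_congr rfl fun i _ => (coeff_gs _ hnu n).symm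

/-- The value at `1` of the series of a null function does not depend on the weights. -/
theorem null_psum {f : (S → ℕ) → ℤ} (hf : Null p f) :
    ∃ C : ℚ_[p], ∀ nu : S → ℕ, (∀ V, 0 < nu V) → PSum p (gs f nu) C := by
  have hp1 : (1 : ℝ) < p := by exact_mod_cast (Fact.out : p.Prime).one_lt
  have hsum : Summable fun l : S → ℕ => ((f l : ℤ) : ℚ_[p]) := by
    refine NonarchimedeanAddGroup.summable_of_tendsto_cofinite_zero ?_
    rw [Metric.tendsto_nhds]
    intro ε hε
    obtain ⟨k, hk⟩ := exists_pow_lt_of_lt_one hε (inv_lt_one_of_one_lt₀ hp1)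
    rw [Filter.eventually_cofinite]
    refine (hf k).subset fun l hl hd => hl ?_
    rw [dist_zero_right]
    refine ((Padic.norm_int_le_pow_iff_dvd _ _).2 hd).trans_lt ?_
    rw [zpow_neg, zpow_natCast, ← inv_pow]
    exact hk
  refine ⟨∑' l, ((f l : ℤ) : ℚ_[p]), fun nu hnu => ?_⟩
  have h1 := (Equiv.sigmaFiberEquiv fun l : S → ℕ => ∑ V, l V * nu V).hasSum_iff.2 hsum.hasSum
  refine HasSum.sigma h1 fun n => ?_
  have hfin : Finite {l : S → ℕ // ∑ V, l V * nu V = n} :=
    Finite.of_injective (fun l => (⟨l.1, (mem_fib hnu).2 l.2⟩ : fib nu n)) fun a b h =>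
      Subtype.ext (congrArg (fun x : fib nu n => x.1) h)
  have : Fintype {l : S → ℕ // ∑ V, l V * nu V = n} := Fintype.ofFinite _
  have h2 := hasSum_fintype fun c : {l : S → ℕ // ∑ V, l V * nu V = n} =>
    ((f c.1 : ℤ) : ℚ_[p])
  have h3 : ∑ c : {l : S → ℕ // ∑ V, l V * nu V = n}, ((f c.1 : ℤ) : ℚ_[p]) =
      ((PowerSeries.coeff n (gs f nu) : ℤ) : ℚ_[p]) := by
    rw [coeff_gs f hnu]
    push_cast
    rw [← Finset.sum_subtype (fib nu n) (p := fun l : S → ℕ => ∑ V, l V * nu V = n)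
      (fun l => mem_fib hnu) (fun l => ((f l : ℤ) : ℚ_[p]))]
  rw [h3] at h2
  exact h2

/-- iterated differences -/
def difs (L : List S) (f : (S → ℕ) → ℤ) : (S → ℕ) → ℤ := L.foldr dif f

theorem gs_difs (L : List S) (f : (S → ℕ) → ℤ) (nu : S → ℕ) (hnu : ∀ V, 0 < nu V) :
    gs f nu * (L.map fun V => (1 - PowerSeries.X ^ nu V : PowerSeries ℤ)).prod =
      gs (difs L f) nu := by
  induction L with
  | nil => simp [difs]
  | cons V L ih =>
    rw [List.map_cons, List.prod_cons, mul_left_comm, ih, mul_comm, gs_dif V _ nu hnu]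
    rfl

theorem dif_zero (V : S) : dif V (fun _ => 0) = fun _ => 0 := by
  funext l
  simp [dif]

theorem difs_zero (L : List S) : difs L (fun _ => 0) = fun _ => 0 := by
  induction L with
  | nil => rfl
  | cons V L ih =>
    rw [difs, List.foldr_cons]
    rw [difs] at ih
    rw [ih, dif_zero]

theorem sub_single_ne (l : S → ℕ) {V W : S} (h : W ≠ V) : (l - Pi.single V 1 : S → ℕ) W = l W := by
  simp [Pi.single_apply, h]

/-- divisibility for large coordinate `W` is preserved -/
theorem dvd_difs {L : List S} {f : (S → ℕ) → ℤ} {W : S} (hW : W ∉ L) {P : ℕ → Prop} {d : ℤ}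
    (h : ∀ l : S → ℕ, P (l W) → d ∣ f l) : ∀ l : S → ℕ, P (l W) → d ∣ difs L f l := by
  induction L with
  | nil => exact h
  | cons V L ih =>
    rw [List.mem_cons, not_or] at hW
    have ih := ih hW.2
    intro l hl
    rw [difs, List.foldr_cons, dif]
    refine dvd_sub (ih l hl) ?_
    split_ifs with h1
    · exact dvd_zero _
    · refine ih _ ?_
      rw [sub_single_ne l hW.1]
      exact hl

/-- stability in the direction `V`, for multiplicities in `D` -/
def Stab (D : (S → ℕ) → Prop) (τ : ℕ) (V : S) (f : (S → ℕ) → ℤ) : Prop :=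
  ∀ l : S → ℕ, D l → τ ≤ l V → f (l + Pi.single V 1) = f l

/-- vanishing in the direction `V`, for multiplicities in `D` -/
def Vanish (D : (S → ℕ) → Prop) (τ : ℕ) (V : S) (f : (S → ℕ) → ℤ) : Prop :=
  ∀ l : S → ℕ, D l → τ ≤ l V → f l = 0

theorem Stab.dif {D : (S → ℕ) → Prop} {τ : ℕ} {V W : S} {f : (S → ℕ) → ℤ} (hWV : W ≠ V)
    (hD : ∀ l : S → ℕ, D l → D (l - Pi.single W 1)) (h : Stab D τ V f) :
    Stab D τ V (dif W f) := by
  intro l hl hV
  rw [TZ8.dif, TZ8.dif, h l hl hV]
  have e1 : (l + Pi.single V 1 : S → ℕ) W = l W := by simp [Pi.single_apply, hWV]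
  rw [e1]
  split_ifs with h1
  · rfl
  · have e2 : l + Pi.single V 1 - Pi.single W 1 = (l - Pi.single W 1) + Pi.single V 1 := by
      funext Y
      simp only [Pi.add_apply, Pi.sub_apply, Pi.single_apply]
      split_ifs with h2 h3 h3
      · exact absurd (h3.symm.trans h2) hWV
      · omega
      · subst h3; omega
      · omega
    rw [e2, h _ (hD l hl) (by rw [sub_single_ne l hWV.symm]; exact hV)]

theorem Vanish.dif {D : (S → ℕ) → Prop} {τ : ℕ} {V W : S} {f : (S → ℕ) → ℤ} (hWV : W ≠ V)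
    (hD : ∀ l : S → ℕ, D l → D (l - Pi.single W 1)) (h : Vanish D τ V f) :
    Vanish D τ V (dif W f) := by
  intro l hl hV
  rw [TZ8.dif, h l hl hV, h _ (hD l hl) (by rw [sub_single_ne l hWV.symm]; exact hV), ite_self,
    sub_zero]

theorem Stab.vanish {D : (S → ℕ) → Prop} {τ : ℕ} {V : S} {f : (S → ℕ) → ℤ}
    (hD : ∀ l : S → ℕ, D l → D (l - Pi.single V 1)) (h : Stab D τ V f) :
    Vanish D (τ + 1) V (Pool.Agent.TZ8.dif V f) := by
  intro l hl hV
  have h0 : l V ≠ 0 := by omega
  have h1 := h (l - Pi.single V 1) (hD l hl) (by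
    have : (l - Pi.single V 1 : S → ℕ) V = l V - 1 := by simp
    omega)
  rw [sub_add_single h0] at h1
  rw [TZ8.dif, if_neg h0, h1, sub_self]

theorem Stab.difs {D : (S → ℕ) → Prop} {τ : ℕ} {V : S} {L : List S} {f : (S → ℕ) → ℤ}
    (hV : V ∉ L) (hD : ∀ (W : S) (l : S → ℕ), D l → D (l - Pi.single W 1)) (h : Stab D τ V f) :
    Stab D τ V (difs L f) := by
  induction L with
  | nil => exact h
  | cons W L ih =>
    rw [List.mem_cons, not_or] at hV
    exact Stab.dif (Ne.symm hV.1) (hD W) (ih hV.2)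

theorem vanish_difs {D : (S → ℕ) → Prop} {τ : ℕ} {L : List S} {f : (S → ℕ) → ℤ}
    (hL : L.Nodup) (hD : ∀ (W : S) (l : S → ℕ), D l → D (l - Pi.single W 1))
    (h : ∀ V ∈ L, Stab D τ V f) : ∀ V ∈ L, Vanish D (τ + 1) V (difs L f) := by
  induction L with
  | nil => intro V hV; exact absurd hV List.not_mem_nil
  | cons W L ih =>
    rw [List.nodup_cons] at hL
    intro V hV
    by_cases hVW : V = W
    · subst hVW
      exact Stab.vanish (hD V) (Stab.difs hL.1 hD (h V List.mem_cons_self))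
    · have hVL : V ∈ L := (List.mem_cons.1 hV).resolve_left hVW
      exact Vanish.dif (Ne.symm hVW) (hD W)
        (ih hL.2 (fun V hV => h V (List.mem_cons_of_mem _ hV)) V hVL)

open Classical in
/-- the part of `c` with support `σ` in `UU` -/
noncomputable def part (UU : Finset S) (c : (S → ℕ) → ℤ) (σ : Finset S) (l : S → ℕ) : ℤ :=
  if UU.filter (fun V => l V ≠ 0) = σ then c l else 0

theorem sum_part (UU : Finset S) (c : (S → ℕ) → ℤ) (l : S → ℕ) :
    ∑ σ ∈ UU.powerset, part UU c σ l = c l := by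
  classical
  rw [Finset.sum_eq_single (UU.filter fun V => l V ≠ 0)]
  · rw [part, if_pos rfl]
  · intro σ _ h
    rw [part, if_neg (Ne.symm h)]
  · intro h
    exact absurd (Finset.mem_powerset.2 (Finset.filter_subset _ _)) h

theorem null_part (UU : Finset S) (c : (S → ℕ) → ℤ)
    (hK : ∀ V, V ∉ UU → ∀ m : ℕ, ∃ g : ℕ, ∀ l : S → ℕ, g ≤ l V → (p : ℤ) ^ m ∣ c l)
    (hS : ∀ V ∈ UU, ∀ B : ℕ, ∃ τ : ℕ, ∀ l : S → ℕ, ∑ W ∈ UUᶜ, l W ≤ B → τ ≤ l V →
      c (l + Pi.single V 1) = c l) {σ : Finset S} (hσ : σ ⊆ UU) :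
    Null p (difs σ.toList (part UU c σ)) := by
  classical
  intro m
  choose! g hg using fun V hV => hK V hV m
  let G := ∑ V, g V
  have hG : ∀ V, V ∉ UU → ∀ l : S → ℕ, G ≤ l V → (p : ℤ) ^ m ∣ c l := by
    intro V hV l hl
    refine hg V hV l (le_trans ?_ hl)
    exact Finset.single_le_sum (f := g) (fun _ _ => Nat.zero_le _) (Finset.mem_univ V)
  let B := ∑ _W ∈ UUᶜ, G
  choose! τ hτ using fun V hV => hS V hV B
  let T := ∑ V, τ V + 1
  let D : (S → ℕ) → Prop := fun l => ∑ W ∈ UUᶜ, l W ≤ B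
  have hD : ∀ (W : S) (l : S → ℕ), D l → D (l - Pi.single W 1) := by
    intro W l hl
    refine le_trans (Finset.sum_le_sum fun V _ => ?_) hl
    simp
  have hst : ∀ V ∈ σ.toList, Stab D T V (part UU c σ) := by
    intro V hV l hl hlV
    rw [Finset.mem_toList] at hV
    have h1 : τ V ≤ ∑ V, τ V :=
      Finset.single_le_sum (f := τ) (fun _ _ => Nat.zero_le _) (Finset.mem_univ V)
    have h2 : UU.filter (fun W => (l + Pi.single V 1 : S → ℕ) W ≠ 0) = UU.filter (fun W => l W ≠ 0) := by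
      refine Finset.filter_congr fun W _ => ?_
      by_cases hW : W = V
      · subst hW
        simp only [Pi.add_apply, Pi.single_eq_same]
        omega
      · simp [Pi.single_apply, hW]
    rw [part, part, h2, hτ V (hσ hV) l hl (by omega)]
  have hv := vanish_difs (Finset.nodup_toList σ) hD hst
  refine (Set.Finite.subset (Fintype.piFinset fun _ : S =>
    Finset.range (G + T + 2)).finite_toSet ?_)
  intro l hl
  rw [Finset.mem_coe, Fintype.mem_piFinset]
  by_contra hcon
  push Not at hcon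
  obtain ⟨V, hV⟩ := hcon
  rw [Finset.mem_range, not_lt] at hV
  refine hl ?_
  by_cases h1 : ∀ W, W ∉ UU → l W < G
  · by_cases hVU : V ∈ UU
    · by_cases hVσ : V ∈ σ
      · have hl0 : difs σ.toList (part UU c σ) l = 0 := by
          refine hv V (Finset.mem_toList.2 hVσ) l ?_ (by omega)
          exact Finset.sum_le_sum fun W hW => (h1 W (Finset.mem_compl.1 hW)).le
        rw [hl0]
        exact dvd_zero _
      · refine dvd_difs (W := V) (P := fun n => n ≠ 0) (by rwa [Finset.mem_toList]) ?_ l (by omega)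
        intro l' hl'
        rw [part, if_neg]
        · exact dvd_zero _
        · intro h
          apply hVσ
          rw [← h, Finset.mem_filter]
          exact ⟨hVU, hl'⟩
    · have := h1 V hVU
      omega
  · push Not at h1
    obtain ⟨W, hW, hWl⟩ := h1
    refine dvd_difs (W := W) (P := fun n => G ≤ n) ?_ ?_ l hWl
    · rw [Finset.mem_toList]
      exact fun h => hW (hσ h)
    · intro l' hl'
      rw [part]
      split_ifs
      · exact hG W hW l' hl'
      · exact dvd_zero _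

theorem comb_psum_zero : PSum p 0 0 := by
  rw [TZ.PSum]
  simp

theorem gs_zero (nu : S → ℕ) : gs (fun _ => 0) nu = 0 := by
  ext n
  simp [gs]

theorem comb (UU : Finset S) (c : (S → ℕ) → ℤ)
    (hK : ∀ V, V ∉ UU → ∀ m : ℕ, ∃ g : ℕ, ∀ l : S → ℕ, g ≤ l V → (p : ℤ) ^ m ∣ c l)
    (hS : ∀ V ∈ UU, ∀ B : ℕ, ∃ τ : ℕ, ∀ l : S → ℕ, ∑ W ∈ UUᶜ, l W ≤ B → τ ≤ l V →
      c (l + Pi.single V 1) = c l) :
    ∃ C : Finset S → ℚ_[p],
      (∀ σ ⊆ UU, (∀ l : S → ℕ, (∀ V ∈ UU, l V ≠ 0 ↔ V ∈ σ) → c l = 0) → C σ = 0) ∧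
      ∀ nu : S → ℕ, (∀ V, 0 < nu V) → ∀ r : ℕ,
        (∀ l : S → ℕ, c l ≠ 0 → (UU.filter fun V => l V ≠ 0).card ≤ r) →
        Lead p r (gs c nu) (∑ σ ∈ UU.powersetCard r, C σ / ∏ V ∈ σ, (nu V : ℚ_[p])) := by
  classical
  choose! C hC using fun σ (hσ : σ ⊆ UU) => null_psum (null_part (p := p) UU c hK hS hσ)
  refine ⟨C, ?_, ?_⟩
  · intro σ hσ h
    have h0 : part UU c σ = fun _ => 0 := by
      funext l
      rw [part]
      split_ifs with h1
      · refine h l fun V hV => ?_
        rw [← h1, Finset.mem_filter]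
        exact ⟨fun h2 => ⟨hV, h2⟩, fun h2 => h2.2⟩
      · rfl
    have h1 := hC σ hσ (fun _ => 1) fun _ => Nat.one_pos
    rw [h0, difs_zero, gs_zero] at h1
    exact HasSum.unique h1 comb_psum_zero
  · intro nu hnu r hr
    have h0 : ∀ σ ⊆ UU, r < σ.card → part UU c σ = fun _ => 0 := by
      intro σ hσ hc
      funext l
      rw [part]
      split_ifs with h1
      · by_contra h2
        have := hr l h2
        rw [h1] at this
        omega
      · rfl
    have h1 : gs c nu = ∑ σ ∈ UU.powerset, gs (part UU c σ) nu := by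
      rw [← gs_sum _ _ _ hnu]
      congr 1
      funext l
      exact (sum_part UU c l).symm
    have h2 : ∑ σ ∈ UU.powersetCard r, C σ / ∏ V ∈ σ, (nu V : ℚ_[p]) =
        ∑ σ ∈ UU.powerset, if σ.card = r then C σ / ∏ V ∈ σ, (nu V : ℚ_[p]) else 0 := by
      rw [← Finset.sum_filter, Finset.powersetCard_eq_filter]
    rw [h1, h2]
    refine lead_sum _ fun σ hσ => ?_
    rw [Finset.mem_powerset] at hσ
    have h3 : Lead p σ.card (gs (part UU c σ) nu) (C σ / ∏ V ∈ σ, (nu V : ℚ_[p])) := by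
      refine lead_of_prod σ nu (fun V _ => hnu V) ?_ (hC σ hσ nu hnu)
      rw [← gs_difs _ _ _ hnu, Finset.prod_map_toList]
    split_ifs with h4
    · rw [← h4]
      exact h3
    · rcases lt_or_gt_of_ne h4 with h5 | h5
      · exact lead_lt h5 h3
      · rw [h0 σ hσ h5, gs_zero]
        refine ⟨1, 0, 1, psum_one, one_ne_zero, ?_, ?_⟩
        · rw [zero_mul]; exact comb_psum_zero
        · rw [zero_mul]

end Pool.Agent.TZ8
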