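import Pool.Agent.TZ8.CDefs

set_option autoImplicit false

/-! Basic facts on flags. -/

namespace Pool.Agent.TZ8

variable {R : Type} [Ring R] {N : Type} [AddCommGroup N] [Module R N] {p : ℕ}

@[simp] theorem mulp_apply (k : ℕ) (x : N) : mulp R N p k x = p ^ k • x := rfl

theorem mem_pN {k : ℕ} {x : N} : x ∈ pN R N p k ↔ ∃ y : N, x = p ^ k • y := by
  unfold pN
  rw [LinearMap.mem_range]
  constructor
  · rintro ⟨y, hy⟩
    exact ⟨y, hy.symm⟩
  · rintro ⟨y, hy⟩
    exact ⟨y, hy.symm⟩

theorem mem_fl {I : Submodule R N} {j : ℕ} {x : N} :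
    x ∈ fl p I j ↔ ∃ y z : N, x = y + p • z ∧ p ^ j • y ∈ I := by
  unfold fl
  rw [Submodule.mem_sup]
  constructor
  · rintro ⟨y, hy, w, hw, rfl⟩
    obtain ⟨z, rfl⟩ := mem_pN.1 hw
    exact ⟨y, z, by rw [pow_one], hy⟩
  · rintro ⟨y, z, rfl, hy⟩
    exact ⟨y, hy, p • z, mem_pN.2 ⟨z, by rw [pow_one]⟩, rfl⟩

theorem pN_anti {i j : ℕ} (h : i ≤ j) : pN R N p j ≤ pN R N p i := by
  intro x hx
  obtain ⟨y, rfl⟩ := mem_pN.1 hx
  exact mem_pN.2 ⟨p ^ (j - i) • y, by rw [smul_smul, ← pow_add]; congr 2; omega⟩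

theorem pN_le_fl (I : Submodule R N) (j : ℕ) : pN R N p 1 ≤ fl p I j := le_sup_right

theorem fl_mono (I : Submodule R N) {i j : ℕ} (h : i ≤ j) : fl p I i ≤ fl p I j := by
  intro x hx
  obtain ⟨y, z, rfl, hy⟩ := mem_fl.1 hx
  refine mem_fl.2 ⟨y, z, rfl, ?_⟩
  have : p ^ j • y = p ^ (j - i) • (p ^ i • y) := by
    rw [smul_smul, ← pow_add]; congr 2; omega
  rw [this]
  exact nsmul_mem hy _

/-- Torsion freeness. -/
theorem smul_cancel (hN : NHyp R N p) (k : ℕ) {x y : N} (h : p ^ k • x = p ^ k • y) : x = y := by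
  induction k with
  | zero => simpa using h
  | succ k ih =>
    apply ih
    rw [← sub_eq_zero]
    apply hN.tf
    rw [smul_sub, smul_smul, smul_smul, ← pow_succ', h, sub_self]

theorem finite_lay (hN : NHyp R N p) : Finite (Lay R N p) := by
  have := hN.fin
  have : Finite (Submodule R (N ⧸ pN R N p 1)) :=
    Finite.of_injective (fun S => (S : Set (N ⧸ pN R N p 1))) SetLike.coe_injective
  refine Finite.of_injective
    (fun V : Lay R N p => V.1.map (pN R N p 1).mkQ) ?_
  intro V W h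
  have h1 : (V.1.map (pN R N p 1).mkQ).comap (pN R N p 1).mkQ =
      (W.1.map (pN R N p 1).mkQ).comap (pN R N p 1).mkQ := congrArg _ h
  rw [Submodule.comap_map_mkQ, Submodule.comap_map_mkQ, sup_eq_right.2 V.2.1,
    sup_eq_right.2 W.2.1] at h1
  exact Subtype.ext h1

/-- Lattices contain `p ^ k N` exactly when the flag is everything from `k` on. -/
theorem fl_eq_top_iff (hN : NHyp R N p) {I : Submodule R N} (hI : IsLat p I) (k : ℕ) :
    fl p I k = ⊤ ↔ pN R N p k ≤ I := by
  constructor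
  · intro h
    obtain ⟨K, hK⟩ := hI
    have key : ∀ n, pN R N p (k + n) ≤ I → pN R N p k ≤ I := by
      intro n
      induction n with
      | zero => exact fun h => h
      | succ n ih =>
        intro h1
        apply ih
        intro x hx
        obtain ⟨y, rfl⟩ := mem_pN.1 hx
        have hy : y ∈ fl p I k := by rw [h]; trivial
        obtain ⟨a, b, rfl, ha⟩ := mem_fl.1 hy
        rw [smul_add]
        apply I.add_mem
        · rw [pow_add, mul_comm, mul_smul]
          exact nsmul_mem ha _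
        · apply h1
          exact mem_pN.2 ⟨b, by rw [smul_smul, ← pow_succ]; rfl⟩
    apply key K
    exact (pN_anti (Nat.le_add_left K k)).trans hK
  · intro h
    rw [eq_top_iff]
    intro x _
    exact mem_fl.2 ⟨x, 0, by simp, h (mem_pN.2 ⟨x, rfl⟩)⟩

theorem finite_fl_ne_top (hN : NHyp R N p) {I : Submodule R N} (hI : IsLat p I)
    (P : Submodule R N → Prop) (hP : ¬ P ⊤) : Finite {j : ℕ // P (fl p I j)} := by
  obtain ⟨K, hK⟩ := hI
  have : Set.Finite {j : ℕ | P (fl p I j)} := by
    refine (Set.finite_lt_nat K).subset ?_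
    intro j hj
    by_contra hlt
    have hKj : K ≤ j := not_lt.1 hlt
    have h1 : fl p I j = ⊤ := (fl_eq_top_iff hN ⟨K, hK⟩ j).2 ((pN_anti hKj).trans hK)
    apply hP
    rw [← h1]
    exact hj
  exact this

theorem finite_fl_eq (hN : NHyp R N p) {I : Submodule R N} (hI : IsLat p I) (V : Lay R N p) :
    Finite {j : ℕ // fl p I j = V.1} :=
  finite_fl_ne_top hN hI (fun W => W = V.1) (fun h => V.2.2 h.symm)

/-- The number of layers satisfying a condition. -/
theorem card_fl_eq (hN : NHyp R N p) {I : Submodule R N} (hI : IsLat p I)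
    (P : Submodule R N → Prop) (hP : ¬ P ⊤) :
    Nat.card {j : ℕ // P (fl p I j)} = ∑ᶠ V : {V : Lay R N p // P V.1}, lay p I V.1 := by
  have := finite_lay hN
  have : Fintype {V : Lay R N p // P V.1} := Fintype.ofFinite _
  have e : {j : ℕ // P (fl p I j)} ≃ Σ V : {V : Lay R N p // P V.1}, {j : ℕ // fl p I j = V.1.1} :=
    { toFun := fun j => ⟨⟨⟨fl p I j.1, pN_le_fl I j.1, fun h => hP (h ▸ j.2)⟩, j.2⟩, ⟨j.1, rfl⟩⟩
      invFun := fun x => ⟨x.2.1, by rw [x.2.2]; exact x.1.2⟩
      left_inv := fun j => rfl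
      right_inv := by
        rintro ⟨⟨⟨V, hV⟩, hPV⟩, ⟨j, (rfl : fl p I j = V)⟩⟩
        rfl }
  have : ∀ V : {V : Lay R N p // P V.1}, Finite {j : ℕ // fl p I j = V.1.1} :=
    fun V => finite_fl_eq hN hI V.1
  rw [Nat.card_congr e, Nat.card_sigma, finsum_eq_sum_of_fintype]
  rfl

/-- A finite initial segment of `ℕ` is determined by its cardinality. -/
private theorem mem_iff_lt_card (A : ℕ → Prop) (hA : ∀ i j, i ≤ j → A j → A i)
    (hf : Finite {j : ℕ // A j}) (j : ℕ) : A j ↔ j < Nat.card {j : ℕ // A j} := by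
  have hfin : ({j | A j}).Finite := hf
  have hex : ∃ n, ¬ A n := by
    by_contra hall
    push Not at hall
    have : {j | A j} = Set.univ := Set.eq_univ_of_forall hall
    rw [this] at hfin
    exact Set.infinite_univ hfin
  classical
  let n := Nat.find hex
  have hn : ∀ i, A i ↔ i < n := by
    intro i
    constructor
    · intro hi
      by_contra hlt
      exact Nat.find_spec hex (hA n i (not_lt.1 hlt) hi)
    · intro hi
      by_contra hi2
      exact Nat.find_min hex hi hi2
  have hc : Nat.card {j : ℕ // A j} = n := by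
    have : {j : ℕ // A j} ≃ Fin n :=
      { toFun := fun j => ⟨j.1, (hn _).1 j.2⟩
        invFun := fun j => ⟨j.1, (hn _).2 j.2⟩
        left_inv := fun j => rfl
        right_inv := fun j => rfl }
    rw [Nat.card_congr this, Nat.card_eq_fintype_card, Fintype.card_fin]
  rw [hc]
  exact hn j

/-- The position of the layers equal to `V`. -/
theorem fl_eq_iff (hN : NHyp R N p) {I : Submodule R N} (hI : IsLat p I) (V : Lay R N p) (j : ℕ) :
    fl p I j = V.1 ↔ start (lay p I) V ≤ j ∧ j < start (lay p I) V + lay p I V := by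
  have hs : start (lay p I) V = Nat.card {j : ℕ // fl p I j < V.1} :=
    (card_fl_eq hN hI (fun W => W < V.1) (fun h => not_top_lt h)).symm
  have hlt := mem_iff_lt_card (fun j => fl p I j < V.1)
    (fun i j hij hj => lt_of_le_of_lt (fl_mono I hij) hj)
    (finite_fl_ne_top hN hI (fun W => W < V.1) (fun h => not_top_lt h)) j
  have hle := mem_iff_lt_card (fun j => fl p I j < V.1 ∨ fl p I j = V.1)
    (fun i j hij hj => by
      have h1 : fl p I j ≤ V.1 := le_iff_lt_or_eq.2 hj
      exact le_iff_lt_or_eq.1 ((fl_mono I hij).trans h1))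
    (finite_fl_ne_top hN hI (fun W => W < V.1 ∨ W = V.1)
      (fun h => h.elim (fun h => not_top_lt h) (fun h => V.2.2 h.symm))) j
  have hcard : Nat.card {j : ℕ // fl p I j < V.1 ∨ fl p I j = V.1} =
      start (lay p I) V + lay p I V := by
    have := finite_fl_ne_top hN hI (fun W => W < V.1) (fun h => not_top_lt h)
    have := finite_fl_eq hN hI V
    classical
    have e : {j : ℕ // fl p I j < V.1 ∨ fl p I j = V.1} ≃
        {j : ℕ // fl p I j < V.1} ⊕ {j : ℕ // fl p I j = V.1} :=
      subtypeOrEquiv _ _ (by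
        intro q h1 h2 j hj
        exact absurd (h2 j hj) (h1 j hj).ne)
    rw [Nat.card_congr e, Nat.card_sum, hs]
    rfl
  rw [hcard] at hle
  rw [hs.symm] at hlt
  constructor
  · intro h
    exact ⟨not_lt.1 fun h1 => (hlt.2 h1).ne h, hle.1 (Or.inr h)⟩
  · rintro ⟨h1, h2⟩
    rcases hle.2 h2 with h3 | h3
    · exact absurd (hlt.1 h3) (not_lt.2 h1)
    · exact h3

/-- The exponent is the number of layers. -/
theorem pN_le_iff (hN : NHyp R N p) {I : Submodule R N} (hI : IsLat p I) (k : ℕ) :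
    pN R N p k ≤ I ↔ ∑ᶠ V, lay p I V ≤ k := by
  have h1 := card_fl_eq hN hI (fun W => W ≠ ⊤) (fun h => h rfl)
  have h2 : ∑ᶠ V : {V : Lay R N p // V.1 ≠ ⊤}, lay p I V.1 = ∑ᶠ V, lay p I V := by
    have e : {V : Lay R N p // V.1 ≠ ⊤} ≃ Lay R N p :=
      { toFun := fun V => V.1
        invFun := fun V => ⟨V, V.2.2⟩
        left_inv := fun V => rfl
        right_inv := fun V => rfl }
    exact finsum_comp_equiv (⟨fun V => V.1, fun V => ⟨V, V.2.2⟩, fun V => rfl, fun V => rfl⟩ :
      {V : Lay R N p // V.1 ≠ ⊤} ≃ Lay R N p) (f := lay p I)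
  have h3 := mem_iff_lt_card (fun j => fl p I j ≠ ⊤)
    (fun i j hij hj h => hj (top_le_iff.1 (h ▸ fl_mono I hij)))
    (finite_fl_ne_top hN hI (fun W => W ≠ ⊤) (fun h => h rfl)) k
  rw [h1, h2] at h3
  rw [← fl_eq_top_iff hN hI k, ← not_lt, ← h3, not_not]

theorem finite_quot (hN : NHyp R N p) (k : ℕ) : Finite (N ⧸ pN R N p k) := by
  induction k with
  | zero =>
    have : pN R N p 0 = ⊤ := by
      rw [eq_top_iff]
      intro x _
      exact mem_pN.2 ⟨x, by simp⟩
    rw [this]
    infer_instance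
  | succ k ih =>
    have := ih
    have := hN.fin
    refine Finite.of_surjective
      (fun x : (N ⧸ pN R N p 1) × (N ⧸ pN R N p k) =>
        (Submodule.Quotient.mk (Quotient.out x.1 + p • Quotient.out x.2) : N ⧸ pN R N p (k + 1))) ?_
    intro x
    obtain ⟨x, rfl⟩ := Submodule.Quotient.mk_surjective _ x
    have h1 : (Submodule.Quotient.mk (Quotient.out (Submodule.Quotient.mk x : N ⧸ pN R N p 1)) :
        N ⧸ pN R N p 1) = Submodule.Quotient.mk x := Quotient.out_eq _
    rw [eq_comm, Submodule.Quotient.eq] at h1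
    obtain ⟨y, hy⟩ := mem_pN.1 h1
    have h2 : (Submodule.Quotient.mk (Quotient.out (Submodule.Quotient.mk y : N ⧸ pN R N p k)) :
        N ⧸ pN R N p k) = Submodule.Quotient.mk y := Quotient.out_eq _
    rw [Submodule.Quotient.eq] at h2
    obtain ⟨z, hz⟩ := mem_pN.1 h2
    refine ⟨(Submodule.Quotient.mk x, Submodule.Quotient.mk y), ?_⟩
    rw [Submodule.Quotient.eq]
    refine mem_pN.2 ⟨z, ?_⟩
    rw [pow_one] at hy
    rw [pow_succ', mul_smul, ← hz, smul_sub]
    generalize Quotient.out (Submodule.Quotient.mk x : N ⧸ pN R N p 1) = a at hy ⊢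
    have hx : x = a + p • y := by rw [← hy]; abel
    rw [hx]
    abel

theorem finite_lat_lay (hN : NHyp R N p) (l : Lay R N p → ℕ) :
    Finite {I : Submodule R N // IsLat p I ∧ lay p I = l} := by
  set k := ∑ᶠ V, l V with hk
  have := finite_quot hN k
  have : Finite (Submodule R (N ⧸ pN R N p k)) :=
    Finite.of_injective (fun S => (S : Set (N ⧸ pN R N p k))) SetLike.coe_injective
  have hle : ∀ I : {I : Submodule R N // IsLat p I ∧ lay p I = l}, pN R N p k ≤ I.1 := by
    intro I
    rw [pN_le_iff hN I.2.1, I.2.2]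
  refine Finite.of_injective
    (fun I : {I : Submodule R N // IsLat p I ∧ lay p I = l} => I.1.map (pN R N p k).mkQ) ?_
  intro V W h
  have h1 : (V.1.map (pN R N p k).mkQ).comap (pN R N p k).mkQ =
      (W.1.map (pN R N p k).mkQ).comap (pN R N p k).mkQ := congrArg _ h
  rw [Submodule.comap_map_mkQ, Submodule.comap_map_mkQ, sup_eq_right.2 (hle V),
    sup_eq_right.2 (hle W)] at h1
  exact Subtype.ext h1

theorem lay_congr {I I' : Submodule R N} (h : ∀ j, fl p I j = fl p I' j) :
    lay p I = lay p I' := by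
  funext V
  unfold lay
  simp only [h]

theorem fl_congr (hN : NHyp R N p) {I I' : Submodule R N} (hI : IsLat p I) (hI' : IsLat p I')
    (h : lay p I = lay p I') (j : ℕ) : fl p I j = fl p I' j := by
  by_cases h1 : fl p I j = ⊤
  · by_cases h2 : fl p I' j = ⊤
    · rw [h1, h2]
    · have h3 := (fl_eq_iff hN hI' ⟨fl p I' j, pN_le_fl I' j, h2⟩ j).1 rfl
      rw [← h] at h3
      exact (fl_eq_iff hN hI _ j).2 h3
  · have h3 := (fl_eq_iff hN hI ⟨fl p I j, pN_le_fl I j, h1⟩ j).1 rfl
    rw [h] at h3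
    exact ((fl_eq_iff hN hI' _ j).2 h3).symm

end Pool.Agent.TZ8
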