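import Pool.Agent.TZ8.GR3
import Pool.Agent.TZ8.CLS
import Pool.Agent.TZ.PR

set_option autoImplicit false
set_option linter.unusedSectionVars false

/-! Killing by counting homomorphisms. -/

namespace Pool.Agent.TZ8

open Pool.Agent.TZ

namespace GR4

section hom

variable {o : Type} [CommRing o] [IsDomain o] [IsDiscreteValuationRing o] {p q : ℕ}

/-- A finite module killed by `p` with `q ^ u` elements is generated by `u` elements. -/
theorem exists_gen (h : RingHyp o p q) (u : ℕ) : ∀ (Z : Type) [AddCommGroup Z] [Module o Z]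
    [Finite Z], (∀ z : Z, (p : o) • z = 0) → Nat.card Z = q ^ u →
    ∃ z : Fin u → Z, Submodule.span o (Set.range z) = ⊤ := by
  induction u with
  | zero =>
    intro Z _ _ _ _ hc
    rw [pow_zero] at hc
    have hs : Subsingleton Z := (Nat.card_eq_one_iff_unique.1 hc).1
    refine ⟨fun i => i.elim0, ?_⟩
    rw [eq_top_iff]
    intro z _
    rw [Subsingleton.elim z 0]
    exact Submodule.zero_mem _
  | succ u ih =>
    intro Z _ _ _ hp hc
    have hq := h.one_lt
    have hnt : Nontrivial Z := by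
      rw [← Finite.one_lt_card_iff_nontrivial, hc]
      exact Nat.one_lt_pow (by omega) hq
    obtain ⟨x, hx⟩ := exists_ne (0 : Z)
    have h1 := LC.card_span_singleton h x hx (hp x)
    have h2 : Nat.card Z = Nat.card (Submodule.span o {x}) * Nat.card (Z ⧸ Submodule.span o {x}) :=
      Submodule.card_eq_card_quotient_mul_card _
    rw [hc, h1, pow_succ'] at h2
    have h3 : Nat.card (Z ⧸ Submodule.span o {x}) = q ^ u :=
      (Nat.eq_of_mul_eq_mul_left (by omega) h2).symm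
    have hfZ : Finite (Z ⧸ Submodule.span o {x}) :=
      Finite.of_surjective _ (Submodule.mkQ_surjective _)
    obtain ⟨z', hz'⟩ := ih (Z ⧸ Submodule.span o {x}) (by
      intro z
      obtain ⟨y, rfl⟩ := Submodule.mkQ_surjective _ z
      rw [← map_smul, hp, map_zero]) h3
    choose z hz using fun i => Submodule.mkQ_surjective (Submodule.span o {x}) (z' i)
    refine ⟨Fin.cons x z, ?_⟩
    rw [eq_top_iff]
    intro y _
    have h4 : (Submodule.span o (Set.range z)).map (Submodule.span o {x}).mkQ = ⊤ := by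
      rw [Submodule.map_span, ← Set.range_comp, ← hz']
      congr 2
      funext i
      exact hz i
    have h5 : (Submodule.span o {x}).mkQ y ∈
        (Submodule.span o (Set.range z)).map (Submodule.span o {x}).mkQ := by
      rw [h4]; trivial
    obtain ⟨w, hw, hwy⟩ := h5
    have h6 : y - w ∈ Submodule.span o {x} := by
      rw [← Submodule.ker_mkQ (Submodule.span o {x}), LinearMap.mem_ker, map_sub, hwy, sub_self]
    have h7 : Submodule.span o {x} ≤ Submodule.span o (Set.range (Fin.cons x z : Fin (u + 1) → Z)) := by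
      apply Submodule.span_mono
      rintro _ rfl
      exact ⟨0, rfl⟩
    have h8 : Submodule.span o (Set.range z) ≤
        Submodule.span o (Set.range (Fin.cons x z : Fin (u + 1) → Z)) := by
      apply Submodule.span_mono
      rintro _ ⟨i, rfl⟩
      exact ⟨i.succ, rfl⟩
    have := Submodule.add_mem _ (h7 h6) (h8 hw)
    rwa [sub_add_cancel] at this

/-- The map from a free module over `o / p ^ K` given by a family. -/
noncomputable def famMap {W : Type} [AddCommGroup W] [Module o W] (p K : ℕ) {u : ℕ}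
    (hW : ∀ w : W, (p : o) ^ K • w = 0) (w : Fin u → W) :
    (Fin u → o ⧸ Ideal.span {(p : o) ^ K}) →ₗ[o] W :=
  ∑ i, ((Submodule.liftQ (Ideal.span {(p : o) ^ K}) (LinearMap.toSpanSingleton o W (w i)) (by
    rw [Ideal.span_le, Set.singleton_subset_iff]
    exact hW (w i))).comp (LinearMap.proj i))

theorem famMap_single {W : Type} [AddCommGroup W] [Module o W] (p K : ℕ) {u : ℕ}
    (hW : ∀ w : W, (p : o) ^ K • w = 0) (w : Fin u → W) (i : Fin u) :
    famMap p K hW w (Pi.single i 1) = w i := by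
  unfold famMap
  rw [LinearMap.sum_apply, Finset.sum_eq_single i]
  · rw [LinearMap.comp_apply, LinearMap.proj_apply, Pi.single_eq_same]
    show LinearMap.toSpanSingleton o W (w i) 1 = w i
    rw [LinearMap.toSpanSingleton_apply, one_smul]
  · intro j _ hj
    rw [LinearMap.comp_apply, LinearMap.proj_apply, Pi.single_eq_of_ne hj, map_zero]
  · intro hi
    exact absurd (Finset.mem_univ i) hi

end hom

end GR4

/-- A finite `o`-module `X` with `|X| = |X / pX| ^ K`, killed by `p ^ K`, is free over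
`o / p ^ K`: it has `q`-rank many generators which determine homomorphisms freely. -/
theorem card_hom_free {o : Type} [CommRing o] [IsDomain o] [IsDiscreteValuationRing o] {p q : ℕ}
    (h : RingHyp o p q) {X Y : Type} [AddCommGroup X] [Module o X] [AddCommGroup Y] [Module o Y]
    [Finite X] [Finite Y] (K u : ℕ) (hX : ∀ x : X, (p : o) ^ K • x = 0)
    (hY : ∀ y : Y, (p : o) ^ K • y = 0) (hc : Nat.card X = q ^ (K * u))
    (hu : Nat.card (X ⧸ LinearMap.range (LinearMap.lsmul o X (p : o))) = q ^ u) :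
    Nat.card (X →ₗ[o] Y) = Nat.card Y ^ u := by
  have hfZ : Finite (X ⧸ LinearMap.range (LinearMap.lsmul o X (p : o))) :=
    Finite.of_surjective _ (Submodule.mkQ_surjective _)
  obtain ⟨z, hz⟩ := GR4.exists_gen h u (X ⧸ LinearMap.range (LinearMap.lsmul o X (p : o))) (by
    intro w
    obtain ⟨y, rfl⟩ := Submodule.mkQ_surjective _ w
    rw [← map_smul, Submodule.mkQ_apply, Submodule.Quotient.mk_eq_zero]
    exact ⟨y, rfl⟩) hu
  choose x hx using fun i => Submodule.mkQ_surjective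
    (LinearMap.range (LinearMap.lsmul o X (p : o))) (z i)
  have step : ∀ y : X, ∃ s ∈ Submodule.span o (Set.range x), ∃ y' : X, y = s + (p : o) • y' := by
    intro y
    have h4 : (Submodule.span o (Set.range x)).map
        (LinearMap.range (LinearMap.lsmul o X (p : o))).mkQ = ⊤ := by
      rw [Submodule.map_span, ← Set.range_comp, ← hz]
      congr 2
      funext i
      exact hx i
    have h5 : (LinearMap.range (LinearMap.lsmul o X (p : o))).mkQ y ∈
        (Submodule.span o (Set.range x)).map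
          (LinearMap.range (LinearMap.lsmul o X (p : o))).mkQ := by
      rw [h4]; trivial
    obtain ⟨w, hw, hwy⟩ := h5
    have h6 : y - w ∈ LinearMap.range (LinearMap.lsmul o X (p : o)) := by
      rw [← Submodule.ker_mkQ (LinearMap.range (LinearMap.lsmul o X (p : o))),
        LinearMap.mem_ker, map_sub, hwy, sub_self]
    obtain ⟨y', hy'⟩ := h6
    refine ⟨w, hw, y', ?_⟩
    have : (p : o) • y' = y - w := hy'
    rw [this]
    abel
  have stepn : ∀ (n : ℕ) (y : X), ∃ s ∈ Submodule.span o (Set.range x), ∃ y' : X,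
      y = s + (p : o) ^ n • y' := by
    intro n
    induction n with
    | zero =>
      intro y
      exact ⟨0, Submodule.zero_mem _, y, by simp⟩
    | succ n ih =>
      intro y
      obtain ⟨s, hs, y', hy'⟩ := ih y
      obtain ⟨s', hs', y'', hy''⟩ := step y'
      refine ⟨s + (p : o) ^ n • s', Submodule.add_mem _ hs (Submodule.smul_mem _ _ hs'), y'', ?_⟩
      rw [hy', hy'', smul_add, smul_smul, ← pow_succ]
      abel
  have hspan : Submodule.span o (Set.range x) = ⊤ := by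
    rw [eq_top_iff]
    intro y _
    obtain ⟨s, hs, y', hy'⟩ := stepn K y
    rw [hy', hX, add_zero]
    exact hs
  have hfin : Finite (o ⧸ Ideal.span {(p : o) ^ K}) := by
    have := LC.finite_res_pow h K
    rwa [Ideal.span_singleton_pow] at this
  have hsurj : Function.Surjective (GR4.famMap p K hX x) := by
    rw [← LinearMap.range_eq_top, eq_top_iff, ← hspan, Submodule.span_le]
    rintro _ ⟨i, rfl⟩
    exact ⟨Pi.single i 1, GR4.famMap_single p K hX x i⟩
  have hbij : Function.Bijective (GR4.famMap p K hX x) := by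
    apply Function.Surjective.bijective_of_nat_card_le hsurj
    rw [hc, Nat.card_fun, LC.card_res_pow h K, Nat.card_eq_fintype_card, Fintype.card_fin, pow_mul]
  let e := LinearEquiv.ofBijective (GR4.famMap p K hX x) hbij
  have h1 : Nat.card (X →ₗ[o] Y) = Nat.card (Fin u → Y) := by
    apply Nat.card_congr
    refine Equiv.ofBijective (fun f i => f (x i)) ⟨?_, ?_⟩
    · intro f g hfg
      exact LinearMap.ext_on_range hspan (fun i => congrFun hfg i)
    · intro y
      refine ⟨(GR4.famMap p K hY y).comp (e.symm : X →ₗ[o] _), ?_⟩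
      funext i
      have : e.symm (x i) = Pi.single i 1 := by
        rw [LinearEquiv.symm_apply_eq]
        exact (GR4.famMap_single p K hX x i).symm
      show GR4.famMap p K hY y (e.symm (x i)) = y i
      rw [this, GR4.famMap_single]
  rw [h1, Nat.card_fun, Nat.card_fin]

namespace GR4

section idx

variable {o : Type} [CommRing o] [IsDomain o] [IsDiscreteValuationRing o] {p q : ℕ}
variable {M : Type} [AddCommGroup M] [Module o M]

/-- The submodule `p ^ k M`. -/
def pm (o : Type) [CommRing o] (p : ℕ) (M : Type) [AddCommGroup M] [Module o M] (k : ℕ) :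
    Submodule o M := LinearMap.range (PR.mp o p M k)

/-- The elements whose multiples by `p ^ k` are in `A`. -/
def cm (p : ℕ) (A : Submodule o M) (k : ℕ) : Submodule o M := A.comap (PR.mp o p M k)

/-- The index. -/
noncomputable def ix (A : Submodule o M) : ℕ := A.toAddSubgroup.index

theorem ix_eq (A : Submodule o M) : ix A = Nat.card (M ⧸ A) := rfl

theorem mem_pm {k : ℕ} {x : M} : x ∈ pm o p M k ↔ ∃ y : M, x = (p : o) ^ k • y := by
  constructor
  · rintro ⟨y, rfl⟩; exact ⟨y, rfl⟩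
  · rintro ⟨y, rfl⟩; exact ⟨y, rfl⟩

theorem mem_cm {A : Submodule o M} {k : ℕ} {x : M} : x ∈ cm p A k ↔ (p : o) ^ k • x ∈ A := Iff.rfl

theorem relIndex_sup_eq (A B : Submodule o M) :
    A.toAddSubgroup.relIndex (A ⊔ B).toAddSubgroup = A.toAddSubgroup.relIndex B.toAddSubgroup := by
  rw [Submodule.sup_toAddSubgroup]
  exact AddSubgroup.relIndex_sup_left _ _

theorem ix_sup (A : Submodule o M) (k : ℕ) : ix A = ix (cm p A k) * ix (A ⊔ pm o p M k) := by
  unfold ix
  have hle : A.toAddSubgroup ≤ (A ⊔ pm o p M k).toAddSubgroup := fun x hx =>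
    (le_sup_left : A ≤ A ⊔ pm o p M k) hx
  rw [← AddSubgroup.relIndex_mul_index hle, relIndex_sup_eq]
  congr 1
  have e1 : (cm p A k).toAddSubgroup =
      A.toAddSubgroup.comap (PR.mp o p M k).toAddMonoidHom := rfl
  rw [e1, AddSubgroup.index_comap]
  rfl

theorem ix_quot (A S : Submodule o M) :
    Nat.card (↥A ⧸ S.comap A.subtype) * ix (A ⊔ S) = ix S := by
  have e1 : Nat.card (↥A ⧸ S.comap A.subtype) = S.toAddSubgroup.relIndex A.toAddSubgroup := rfl
  have hle : S.toAddSubgroup ≤ (A ⊔ S).toAddSubgroup := fun x hx =>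
    (le_sup_right : S ≤ A ⊔ S) hx
  rw [e1]
  unfold ix
  rw [← AddSubgroup.relIndex_mul_index hle, sup_comm, relIndex_sup_eq]

theorem cm_cm (A : Submodule o M) (i j : ℕ) : cm p (cm p A i) j = cm p A (i + j) := by
  ext x
  rw [mem_cm, mem_cm, mem_cm, smul_smul, ← pow_add]

theorem ix_step (A : Submodule o M) (j : ℕ) :
    ix (cm p A j) = ix (cm p A (j + 1)) * ix (cm p A j ⊔ pm o p M 1) := by
  rw [ix_sup (p := p) (cm p A j) 1, cm_cm]

theorem ix_stretch (A : Submodule o M) (x g w : ℕ)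
    (hst : ∀ j, x ≤ j → j < x + g → ix (cm p A j ⊔ pm o p M 1) = q ^ w) (y : ℕ) (hy : x ≤ y) :
    ∀ k, y + k ≤ x + g → ix (cm p A y) = ix (cm p A (y + k)) * q ^ (w * k) := by
  intro k
  induction k with
  | zero => intro _; simp
  | succ k ih =>
    intro hk
    rw [ih (by omega), ix_step A (y + k), hst (y + k) (by omega) (by omega), Nat.mul_succ,
      pow_add]
    rw [show y + (k + 1) = y + k + 1 from rfl]
    ring

section free

variable [Module.Free o M] [Module.Finite o M]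

theorem map_sup_pm (A : Submodule o M) (x K : ℕ) :
    (A ⊔ pm o p M x).map (PR.mp o p M K) = A.map (PR.mp o p M K) ⊔ pm o p M (x + K) := by
  rw [Submodule.map_sup]
  congr 1
  ext z
  rw [PR.mem_map_mp, mem_pm]
  constructor
  · rintro ⟨y, hy, rfl⟩
    rw [mem_pm] at hy
    obtain ⟨w, rfl⟩ := hy
    exact ⟨w, by rw [smul_smul, ← pow_add, add_comm]⟩
  · rintro ⟨w, rfl⟩
    refine ⟨(p : o) ^ x • w, mem_pm.2 ⟨w, rfl⟩, ?_⟩
    rw [smul_smul, ← pow_add, add_comm]

theorem sup_map (A : Submodule o M) (k K : ℕ) :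
    A ⊔ (A.map (PR.mp o p M K) ⊔ pm o p M k) = A ⊔ pm o p M k := by
  rw [← sup_assoc]
  congr 1
  rw [sup_eq_left]
  rintro _ ⟨y, hy, rfl⟩
  exact A.smul_mem _ hy

theorem card_X (h : RingHyp o p q) (A : Submodule o M) (hA : Finite (M ⧸ A)) (x K : ℕ) :
    Nat.card (↥A ⧸ (A.map (PR.mp o p M K) ⊔ pm o p M (x + K)).comap A.subtype) *
      ix (cm p A x) = q ^ (Module.finrank o M * K) * ix (cm p A (x + K)) := by
  have h1 := ix_quot A (A.map (PR.mp o p M K) ⊔ pm o p M (x + K))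
  rw [sup_map, ← map_sup_pm] at h1
  have h2 : ix ((A ⊔ pm o p M x).map (PR.mp o p M K)) =
      ix (A ⊔ pm o p M x) * q ^ (Module.finrank o M * K) := PR.index_mp h _ K
  rw [h2, map_sup_pm] at h1
  have h3 := ix_sup (p := p) A x
  have h4 := ix_sup (p := p) A (x + K)
  have h5 : 0 < ix A := by
    rw [ix_eq]; exact Nat.card_pos
  have h6 : 0 < ix (A ⊔ pm o p M (x + K)) := by
    rw [h4] at h5
    exact Nat.pos_of_mul_pos_left h5
  apply Nat.eq_of_mul_eq_mul_right h6
  calc _ = (Nat.card (↥A ⧸ (A.map (PR.mp o p M K) ⊔ pm o p M (x + K)).comap A.subtype) *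
        ix (A ⊔ pm o p M (x + K))) * ix (cm p A x) := by ring
    _ = (ix (cm p A x) * ix (A ⊔ pm o p M x)) * q ^ (Module.finrank o M * K) := by
        rw [h1]; ring
    _ = (ix (cm p A (x + K)) * ix (A ⊔ pm o p M (x + K))) * q ^ (Module.finrank o M * K) := by
        rw [← h3, ← h4]
    _ = _ := by ring

end free

theorem card_Y (p : ℕ) (B : Submodule o M) (s K : ℕ) :
    Nat.card (LinearMap.ker (LinearMap.lsmul o (M ⧸ cm p B s) ((p : o) ^ K))) *
      ix (cm p B (s + K)) = ix (cm p B s) := by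
  have hle : cm p B s ≤ cm p B (s + K) := by
    intro x hx
    rw [mem_cm] at hx ⊢
    rw [pow_add, mul_comm, mul_smul]
    exact B.smul_mem _ hx
  have h1 : LinearMap.ker (LinearMap.lsmul o (M ⧸ cm p B s) ((p : o) ^ K)) =
      (cm p B (s + K)).map (cm p B s).mkQ := by
    ext y
    obtain ⟨x, rfl⟩ := Submodule.mkQ_surjective _ y
    rw [LinearMap.mem_ker, LinearMap.lsmul_apply, ← map_smul, Submodule.mkQ_apply,
      Submodule.Quotient.mk_eq_zero, mem_cm, smul_smul, ← pow_add]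
    constructor
    · intro hx
      exact ⟨x, hx, rfl⟩
    · rintro ⟨x', hx', he⟩
      have he' : x' - x ∈ cm p B s := by
        rw [← Submodule.ker_mkQ (cm p B s), LinearMap.mem_ker, map_sub, he, sub_self]
      have h2 : x' - x ∈ cm p B (s + K) := hle he'
      have h3 := (cm p B (s + K)).sub_mem hx' h2
      rw [sub_sub_cancel] at h3
      exact h3
  rw [h1]
  exact Submodule.card_quotient_mul_card_quotient _ _ hle

end idx

section hm

variable {o : Type} [CommRing o] [IsDomain o] [IsDiscreteValuationRing o] {p q : ℕ}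
variable {M M' : Type} [AddCommGroup M] [Module o M] [AddCommGroup M'] [Module o M']

/-- Homomorphisms `A → M' / p ^ (-s) B` which vanish on `A ∩ p ^ s M` and are killed by
`p ^ K`. -/
def Hm (p : ℕ) (A : Submodule o M) (B : Submodule o M') (s K : ℕ) :
    AddSubgroup (↥A →ₗ[o] M' ⧸ cm p B s) where
  carrier := {f | (∀ a : ↥A, (a : M) ∈ pm o p M s → f a = 0) ∧ ∀ a, (p : o) ^ K • f a = 0}
  add_mem' := by
    rintro f g ⟨hf, hf'⟩ ⟨hg, hg'⟩
    refine ⟨fun a ha => ?_, fun a => ?_⟩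
    · rw [LinearMap.add_apply, hf a ha, hg a ha, add_zero]
    · rw [LinearMap.add_apply, smul_add, hf' a, hg' a, add_zero]
  zero_mem' := ⟨fun _ _ => rfl, fun _ => smul_zero _⟩
  neg_mem' := by
    rintro f ⟨hf, hf'⟩
    refine ⟨fun a ha => ?_, fun a => ?_⟩
    · rw [LinearMap.neg_apply, hf a ha, neg_zero]
    · rw [LinearMap.neg_apply, smul_neg, hf' a, neg_zero]

theorem mem_Hm {A : Submodule o M} {B : Submodule o M'} {s K : ℕ} {f : ↥A →ₗ[o] M' ⧸ cm p B s} :
    f ∈ Hm p A B s K ↔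
      (∀ a : ↥A, (a : M) ∈ pm o p M s → f a = 0) ∧ ∀ a, (p : o) ^ K • f a = 0 := Iff.rfl

/-- The submodule of `A` to divide by. -/
def LK (p : ℕ) (A : Submodule o M) (s K : ℕ) : Submodule o ↥A :=
  (A.map (PR.mp o p M K) ⊔ pm o p M s).comap A.subtype

theorem mem_LK {A : Submodule o M} {s K : ℕ} {a : ↥A} :
    a ∈ LK p A s K ↔ ∃ b : ↥A, ((a - (p : o) ^ K • b : ↥A) : M) ∈ pm o p M s := by
  unfold LK
  rw [Submodule.mem_comap, Submodule.mem_sup]
  constructor
  · rintro ⟨y, hy, z, hz, hyz⟩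
    rw [PR.mem_map_mp] at hy
    obtain ⟨b, hb, rfl⟩ := hy
    refine ⟨⟨b, hb⟩, ?_⟩
    have : ((a - (p : o) ^ K • (⟨b, hb⟩ : ↥A) : ↥A) : M) = z := by
      rw [Submodule.coe_sub, Submodule.coe_smul]
      show (A.subtype a : M) - (p : o) ^ K • b = z
      rw [← hyz]
      abel
    rw [this]
    exact hz
  · rintro ⟨b, hb⟩
    refine ⟨(p : o) ^ K • (b : M), (PR.mem_map_mp K A _).2 ⟨b, b.2, rfl⟩, _, hb, ?_⟩
    rw [Submodule.coe_sub, Submodule.coe_smul]
    show _ = (a : M)
    abel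

theorem card_Hm_eq (A : Submodule o M) (B : Submodule o M') (s K : ℕ) :
    Nat.card (Hm p A B s K) = Nat.card ((↥A ⧸ LK p A s K) →ₗ[o]
      ↥(LinearMap.ker (LinearMap.lsmul o (M' ⧸ cm p B s) ((p : o) ^ K)))) := by
  symm
  apply Nat.card_congr
  refine Equiv.ofBijective (fun f => ⟨((LinearMap.ker (LinearMap.lsmul o (M' ⧸ cm p B s)
    ((p : o) ^ K))).subtype.comp f).comp (LK p A s K).mkQ, ?_, ?_⟩) ⟨?_, ?_⟩
  · intro a ha
    have : (LK p A s K).mkQ a = 0 := by
      rw [Submodule.mkQ_apply, Submodule.Quotient.mk_eq_zero, mem_LK]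
      exact ⟨0, by simpa using ha⟩
    rw [LinearMap.comp_apply, this, map_zero]
  · intro a
    exact (f ((LK p A s K).mkQ a)).2
  · intro f g hfg
    have h1 := Subtype.mk.inj hfg
    apply LinearMap.ext
    intro x
    obtain ⟨a, rfl⟩ := Submodule.mkQ_surjective _ x
    apply Subtype.ext
    exact LinearMap.congr_fun h1 a
  · rintro ⟨φ, hφ, hφ'⟩
    refine ⟨(LK p A s K).liftQ (φ.codRestrict _ fun a => hφ' a) ?_, ?_⟩
    · intro a ha
      obtain ⟨b, hb⟩ := mem_LK.1 ha
      rw [LinearMap.mem_ker]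
      apply Subtype.ext
      show φ a = 0
      have h1 := hφ _ hb
      rw [map_sub, map_smul, hφ', sub_zero] at h1
      exact h1
    · apply Subtype.ext
      apply LinearMap.ext
      intro a
      rfl

theorem LK_le (A : Submodule o M) (s k : ℕ) : LK p A s (k + 1) ≤ LK p A s 1 := by
  intro a ha
  obtain ⟨b, hb⟩ := mem_LK.1 ha
  refine mem_LK.2 ⟨(p : o) ^ k • b, ?_⟩
  rwa [smul_smul, pow_one, ← pow_succ']

theorem finite_LK (h : RingHyp o p q) [Module.Finite o M] (A : Submodule o M) (s K : ℕ) :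
    Finite (↥A ⧸ LK p A s K) := by
  apply finite_quot_of_pow_mem h _ s
  intro a
  refine mem_LK.2 ⟨0, ?_⟩
  rw [smul_zero, sub_zero, Submodule.coe_smul]
  exact mem_pm.2 ⟨_, rfl⟩

theorem finite_cm (A : Submodule o M) (hA : Finite (M ⧸ A)) (s : ℕ) :
    Finite (M ⧸ cm p A s) := by
  have hle : A ≤ cm p A s := fun x hx => A.smul_mem _ hx
  exact Finite.of_surjective _ (Submodule.factor_surjective hle)

theorem card_Hm (h : RingHyp o p q) [Module.Free o M] [Module.Finite o M]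
    (A : Submodule o M) (hA : Finite (M ⧸ A)) (B : Submodule o M') (hB : Finite (M' ⧸ B))
    (x k u w w' : ℕ) (hr : Module.finrank o M = u + w)
    (hst : ∀ j, x ≤ j → j < x + 2 * (k + 1) → ix (cm p A j ⊔ pm o p M 1) = q ^ w)
    (hst' : ∀ j, x ≤ j → j < x + 2 * (k + 1) → ix (cm p B j ⊔ pm o p M' 1) = q ^ w') :
    Nat.card (Hm p A B (x + (k + 1)) (k + 1)) = q ^ ((k + 1) * (u * w')) := by
  have hq := h.one_lt
  have hXf := finite_LK h A (x + (k + 1)) (k + 1)
  have hBf := finite_cm (p := p) B hB (x + (k + 1))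
  have hpos : ∀ {C : Submodule o M} , Finite (M ⧸ C) → 0 < ix C := fun _ => by
    rw [ix_eq]; exact Nat.card_pos
  -- the cardinality of `X`
  have hX : Nat.card (↥A ⧸ LK p A (x + (k + 1)) (k + 1)) = q ^ ((k + 1) * u) := by
    have h1 := card_X h A hA x (k + 1)
    have h2 := ix_stretch A x (2 * (k + 1)) w hst x le_rfl (k + 1) (by omega)
    rw [h2, hr] at h1
    have h3 : 0 < ix (cm p A (x + (k + 1))) := hpos (finite_cm A hA _)
    have h4 : 0 < q ^ (w * (k + 1)) := Nat.pow_pos (by omega)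
    apply Nat.eq_of_mul_eq_mul_right (Nat.mul_pos h3 h4)
    show Nat.card (↥A ⧸ (A.map (PR.mp o p M (k + 1)) ⊔ pm o p M (x + (k + 1))).comap
      A.subtype) * _ = _
    rw [h1]
    rw [show (u + w) * (k + 1) = (k + 1) * u + w * (k + 1) by ring, pow_add]
    ring
  have hX1 : Nat.card (↥A ⧸ LK p A (x + (k + 1)) 1) = q ^ u := by
    have h1 := card_X h A hA (x + k) 1
    have h2 := ix_stretch A x (2 * (k + 1)) w hst (x + k) (by omega) 1 (by omega)
    rw [h2, hr] at h1
    have h3 : 0 < ix (cm p A (x + k + 1)) := hpos (finite_cm A hA _)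
    have h4 : 0 < q ^ (w * 1) := Nat.pow_pos (by omega)
    apply Nat.eq_of_mul_eq_mul_right (Nat.mul_pos h3 h4)
    show Nat.card (↥A ⧸ (A.map (PR.mp o p M 1) ⊔ pm o p M (x + k + 1)).comap
      A.subtype) * _ = _
    rw [h1]
    rw [mul_one, mul_one, pow_add]
    ring
  have hu : Nat.card ((↥A ⧸ LK p A (x + (k + 1)) (k + 1)) ⧸ LinearMap.range
      (LinearMap.lsmul o (↥A ⧸ LK p A (x + (k + 1)) (k + 1)) (p : o))) = q ^ u := by
    have hle := LK_le (p := p) A (x + (k + 1)) k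
    have h1 : LinearMap.range
        (LinearMap.lsmul o (↥A ⧸ LK p A (x + (k + 1)) (k + 1)) (p : o)) =
        (LK p A (x + (k + 1)) 1).map (LK p A (x + (k + 1)) (k + 1)).mkQ := by
      ext y
      constructor
      · rintro ⟨z, rfl⟩
        obtain ⟨a, rfl⟩ := Submodule.mkQ_surjective _ z
        refine ⟨(p : o) • a, ?_, by rw [map_smul]; rfl⟩
        refine mem_LK.2 ⟨a, ?_⟩
        rw [pow_one, sub_self]
        exact Submodule.zero_mem _
      · rintro ⟨a, ha, rfl⟩
        obtain ⟨b, hb⟩ := mem_LK.1 ha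
        refine ⟨(LK p A (x + (k + 1)) (k + 1)).mkQ b, ?_⟩
        rw [LinearMap.lsmul_apply, ← map_smul, ← sub_eq_zero, ← map_sub, Submodule.mkQ_apply,
          Submodule.Quotient.mk_eq_zero]
        refine mem_LK.2 ⟨0, ?_⟩
        rw [smul_zero, sub_zero]
        rw [pow_one] at hb
        have := (pm o p M (x + (k + 1))).neg_mem hb
        rwa [← Submodule.coe_neg, neg_sub] at this
    rw [h1, Nat.card_congr (Submodule.quotientQuotientEquivQuotient _ _ hle).toEquiv, hX1]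
  have hY : Nat.card (LinearMap.ker (LinearMap.lsmul o (M' ⧸ cm p B (x + (k + 1)))
      ((p : o) ^ (k + 1)))) = q ^ (w' * (k + 1)) := by
    have h1 := card_Y p B (x + (k + 1)) (k + 1)
    have h2 := ix_stretch B x (2 * (k + 1)) w' hst' (x + (k + 1)) (by omega) (k + 1) (by omega)
    rw [h2] at h1
    have h3 : 0 < ix (cm p B (x + (k + 1) + (k + 1))) := by
      have := finite_cm (p := p) B hB (x + (k + 1) + (k + 1))
      rw [ix_eq]; exact Nat.card_pos
    apply Nat.eq_of_mul_eq_mul_right h3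
    rw [h1]
    ring
  rw [card_Hm_eq, card_hom_free h (k + 1) u ?_ ?_ hX hu, hY, ← pow_mul]
  · congr 1
    ring
  · intro z
    obtain ⟨a, rfl⟩ := Submodule.mkQ_surjective _ z
    rw [← map_smul, Submodule.mkQ_apply, Submodule.Quotient.mk_eq_zero]
    refine mem_LK.2 ⟨a, ?_⟩
    rw [sub_self]
    exact Submodule.zero_mem _
  · rintro ⟨y, hy⟩
    apply Subtype.ext
    exact hy

end hm

end GR4

namespace GR4

section gr

variable {o : Type} [CommRing o] [IsDomain o] [IsDiscreteValuationRing o] {p q : ℕ}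
variable {M : Type} [AddCommGroup M] [Module o M]

/-- The lattice obtained by moving `A` with `φ`. -/
def gr {A : Submodule o M} {s : ℕ} (φ : ↥A →ₗ[o] M ⧸ cm p A s) : Submodule o M where
  carrier := {x | ∃ (a : ↥A) (m : M), (cm p A s).mkQ m = φ a ∧ x = a + (p : o) ^ s • m}
  add_mem' := by
    rintro x y ⟨a, m, h1, rfl⟩ ⟨a', m', h1', rfl⟩
    refine ⟨a + a', m + m', by rw [map_add, map_add, h1, h1'], ?_⟩
    rw [Submodule.coe_add, smul_add]
    abel
  zero_mem' := ⟨0, 0, by simp, by simp⟩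
  smul_mem' := by
    rintro t x ⟨a, m, h1, rfl⟩
    refine ⟨t • a, t • m, by rw [map_smul, map_smul, h1], ?_⟩
    rw [Submodule.coe_smul, smul_add, smul_comm]

theorem mem_gr {A : Submodule o M} {s : ℕ} {φ : ↥A →ₗ[o] M ⧸ cm p A s} {x : M} :
    x ∈ gr φ ↔ ∃ (a : ↥A) (m : M), (cm p A s).mkQ m = φ a ∧ x = a + (p : o) ^ s • m := Iff.rfl

theorem gr_inf {A : Submodule o M} {s : ℕ} {φ : ↥A →ₗ[o] M ⧸ cm p A s}
    (hφ : ∀ a : ↥A, (a : M) ∈ pm o p M s → φ a = 0) :
    gr φ ⊓ pm o p M s = A ⊓ pm o p M s := by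
  ext x
  rw [Submodule.mem_inf, Submodule.mem_inf]
  constructor
  · rintro ⟨⟨a, m, h1, h2⟩, hx⟩
    refine ⟨?_, hx⟩
    have ha : (a : M) ∈ pm o p M s := by
      have h3 : (a : M) = x - (p : o) ^ s • m := by rw [h2]; abel
      rw [h3]
      exact Submodule.sub_mem _ hx (mem_pm.2 ⟨m, rfl⟩)
    rw [hφ a ha, Submodule.mkQ_apply, Submodule.Quotient.mk_eq_zero, mem_cm] at h1
    rw [h2]
    exact A.add_mem a.2 h1
  · rintro ⟨hx, hx'⟩
    refine ⟨⟨⟨x, hx⟩, 0, ?_, ?_⟩, hx'⟩
    · rw [map_zero, hφ _ hx']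
    · rw [smul_zero, add_zero]

theorem gr_sup {A : Submodule o M} {s : ℕ} {φ : ↥A →ₗ[o] M ⧸ cm p A s} :
    gr φ ⊔ pm o p M s = A ⊔ pm o p M s := by
  apply le_antisymm
  · refine sup_le ?_ le_sup_right
    rintro x ⟨a, m, h1, rfl⟩
    exact Submodule.add_mem _ (le_sup_left (a := A) a.2)
      (le_sup_right (a := A) (mem_pm.2 ⟨m, rfl⟩))
  · refine sup_le ?_ le_sup_right
    intro a ha
    obtain ⟨m, hm⟩ := Submodule.mkQ_surjective _ (φ ⟨a, ha⟩)
    have h1 : a + (p : o) ^ s • m ∈ gr φ := ⟨⟨a, ha⟩, m, hm, rfl⟩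
    have h2 : (p : o) ^ s • m ∈ pm o p M s := mem_pm.2 ⟨m, rfl⟩
    have h3 := Submodule.sub_mem _ (le_sup_left (b := pm o p M s) h1)
      (le_sup_right (a := gr φ) h2)
    rwa [add_sub_cancel_right] at h3

theorem gr_inj {A : Submodule o M} {s : ℕ} {φ ψ : ↥A →ₗ[o] M ⧸ cm p A s}
    (hψ : ∀ a : ↥A, (a : M) ∈ pm o p M s → ψ a = 0) (he : gr φ = gr ψ) : φ = ψ := by
  apply LinearMap.ext
  intro a
  obtain ⟨m, hm⟩ := Submodule.mkQ_surjective _ (φ a)
  have h1 : (a : M) + (p : o) ^ s • m ∈ gr φ := ⟨a, m, hm, rfl⟩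
  rw [he] at h1
  obtain ⟨a', m', h2, h3⟩ := h1
  have h4 : ((a - a' : ↥A) : M) = (p : o) ^ s • (m' - m) := by
    rw [Submodule.coe_sub, smul_sub, sub_eq_sub_iff_add_eq_add, h3]
    abel
  have h5 : ψ (a - a') = 0 := hψ _ (by rw [h4]; exact mem_pm.2 ⟨_, rfl⟩)
  have h6 : m' - m ∈ cm p A s := by
    rw [mem_cm, ← h4]
    exact (a - a').2
  have h7 : (cm p A s).mkQ (m' - m) = 0 := by
    rw [Submodule.mkQ_apply, Submodule.Quotient.mk_eq_zero]
    exact h6
  rw [map_sub, sub_eq_zero] at h5 h7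
  rw [← hm, ← h7, h2, h5]

end gr

section tower

variable {o : Type} [CommRing o] [IsDomain o] [IsDiscreteValuationRing o] {p q : ℕ} {d : ℕ}
  {M : ℕ → Type} [∀ i, AddCommGroup (M i)] [∀ i, Module o (M i)]
  {ad : ∀ i, Fin d → M i →ₗ[o] M (i + 1)} {c : ℕ}

/-- The bracket on a closed family. -/
def adA {A : ∀ i : Fin c, Submodule o (M i)} (hA : Clo ad c A) (i : Fin c)
    (hi : (i : ℕ) + 1 < c) (j : Fin d) : ↥(A i) →ₗ[o] ↥(A ⟨(i : ℕ) + 1, hi⟩) :=
  (ad i j).restrict (hA i hi j)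

/-- The bracket on the quotients. -/
def adQ (p : ℕ) {A : ∀ i : Fin c, Submodule o (M i)} (hA : Clo ad c A) (s : ℕ) (i : Fin c)
    (hi : (i : ℕ) + 1 < c) (j : Fin d) :
    (M i ⧸ cm p (A i) s) →ₗ[o] (M ((i : ℕ) + 1) ⧸ cm p (A ⟨(i : ℕ) + 1, hi⟩) s) :=
  Submodule.mapQ _ _ (ad i j) (by
    intro x hx
    rw [mem_cm] at hx
    rw [Submodule.mem_comap, mem_cm, ← map_smul]
    exact hA i hi j _ hx)

/-- The obstruction to being compatible with the brackets. -/
def Th (p : ℕ) {A : ∀ i : Fin c, Submodule o (M i)} (hA : Clo ad c A) (s K : ℕ) :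
    (∀ i : Fin c, ↥(Hm p (A i) (A i) s K)) →+
    (∀ (i : {i : Fin c // (i : ℕ) + 1 < c}), Fin d →
      ↥(Hm p (A i.1) (A ⟨(i.1 : ℕ) + 1, i.2⟩) s K)) where
  toFun φ := fun i j => ⟨(φ ⟨(i.1 : ℕ) + 1, i.2⟩).1.comp (adA hA i.1 i.2 j) -
    (adQ p hA s i.1 i.2 j).comp (φ i.1).1, by
      constructor
      · intro a ha
        obtain ⟨y, hy⟩ := mem_pm.1 ha
        rw [LinearMap.sub_apply, LinearMap.comp_apply, LinearMap.comp_apply,
          (φ i.1).2.1 a ha, map_zero, sub_zero]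
        refine (φ ⟨(i.1 : ℕ) + 1, i.2⟩).2.1 _ ?_
        show ad i.1 j (a : M i.1) ∈ _
        rw [hy, map_smul]
        exact mem_pm.2 ⟨_, rfl⟩
      · intro a
        rw [LinearMap.sub_apply, LinearMap.comp_apply, LinearMap.comp_apply, smul_sub,
          ← map_smul (adQ p hA s i.1 i.2 j), (φ i.1).2.2 a, map_zero, sub_zero]
        exact (φ ⟨(i.1 : ℕ) + 1, i.2⟩).2.2 _⟩
  map_zero' := by
    funext i j
    apply Subtype.ext
    apply LinearMap.ext
    intro a
    show (0 : _) - adQ p hA s i.1 i.2 j 0 = 0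
    rw [map_zero, sub_zero]
  map_add' φ ψ := by
    funext i j
    apply Subtype.ext
    apply LinearMap.ext
    intro a
    show ((φ ⟨(i.1 : ℕ) + 1, i.2⟩).1 (adA hA i.1 i.2 j a) +
        (ψ ⟨(i.1 : ℕ) + 1, i.2⟩).1 (adA hA i.1 i.2 j a)) -
        adQ p hA s i.1 i.2 j ((φ i.1).1 a + (ψ i.1).1 a) =
      ((φ ⟨(i.1 : ℕ) + 1, i.2⟩).1 (adA hA i.1 i.2 j a) - adQ p hA s i.1 i.2 j ((φ i.1).1 a)) +
      ((ψ ⟨(i.1 : ℕ) + 1, i.2⟩).1 (adA hA i.1 i.2 j a) - adQ p hA s i.1 i.2 j ((ψ i.1).1 a))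
    rw [map_add]
    abel

theorem Th_ker {A : ∀ i : Fin c, Submodule o (M i)} {hA : Clo ad c A} {s K : ℕ}
    {φ : ∀ i : Fin c, ↥(Hm p (A i) (A i) s K)} (hφ : φ ∈ (Th p hA s K).ker) (i : Fin c)
    (hi : (i : ℕ) + 1 < c) (j : Fin d) (a : ↥(A i)) :
    (φ ⟨(i : ℕ) + 1, hi⟩).1 (adA hA i hi j a) = adQ p hA s i hi j ((φ i).1 a) := by
  rw [AddMonoidHom.mem_ker] at hφ
  have h1 := congrArg Subtype.val (congrFun (congrFun hφ ⟨i, hi⟩) j)
  have h2 := LinearMap.congr_fun h1 a
  exact sub_eq_zero.1 h2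

theorem clo_gr {A : ∀ i : Fin c, Submodule o (M i)} {hA : Clo ad c A} {s K : ℕ}
    {φ : ∀ i : Fin c, ↥(Hm p (A i) (A i) s K)} (hφ : φ ∈ (Th p hA s K).ker) :
    Clo ad c (fun i => gr (φ i).1) := by
  intro i hi j x hx
  obtain ⟨a, m, h1, rfl⟩ := hx
  refine ⟨adA hA ⟨i, Nat.lt_of_succ_lt hi⟩ hi j a, ad i j m, ?_, ?_⟩
  · have h2 := Th_ker hφ ⟨i, Nat.lt_of_succ_lt hi⟩ hi j a
    refine Eq.trans ?_ h2.symm
    rw [← h1]
    rfl
  · rw [map_add, map_smul]
    rfl

theorem comp_inf' (V W : Submodule (RR o c d) (NN ad c)) (i : Fin c) :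
    comp (V ⊓ W) i = comp V i ⊓ comp W i := rfl

theorem comp_pN' (s : ℕ) (i : Fin c) :
    comp (pN (RR o c d) (NN ad c) p s) i = pm o p (M i) s := by
  ext x
  rw [mem_comp_pN, mem_pm]

theorem comp_fl' (I : Submodule (RR o c d) (NN ad c)) (j : ℕ) (i : Fin c) :
    comp (fl p I j) i = cm p (comp I i) j ⊔ pm o p (M i) 1 := by
  ext x
  rw [mem_comp_fl, Submodule.mem_sup]
  constructor
  · rintro ⟨y, z, rfl, hy⟩
    exact ⟨y, hy, (p : o) • z, mem_pm.2 ⟨z, by rw [pow_one]⟩, rfl⟩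
  · rintro ⟨y, hy, w, hw, rfl⟩
    obtain ⟨z, rfl⟩ := mem_pm.1 hw
    exact ⟨y, z, by rw [pow_one], hy⟩

/-- The class of lattices obtained from compatible families. -/
noncomputable def toCls (I : Submodule (RR o c d) (NN ad c)) (s K : ℕ)
    (φ : (Th p (comp_clo I) s K).ker) :
    {I' : Submodule (RR o c d) (NN ad c) //
      I' ⊓ pN (RR o c d) (NN ad c) p s = I ⊓ pN (RR o c d) (NN ad c) p s ∧
      I' ⊔ pN (RR o c d) (NN ad c) p s = I ⊔ pN (RR o c d) (NN ad c) p s} :=
  ⟨toS (fun i => gr (φ.1 i).1) (clo_gr φ.2), by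
    constructor
    · apply comp_inj
      intro i
      rw [comp_inf', comp_inf', comp_toS, comp_pN']
      exact gr_inf (φ.1 i).2.1
    · apply comp_inj
      intro i
      rw [comp_sup, comp_sup, comp_toS, comp_pN']
      exact gr_sup⟩

theorem toCls_inj (I : Submodule (RR o c d) (NN ad c)) (s K : ℕ) :
    Function.Injective (toCls (p := p) I s K) := by
  intro φ ψ he
  have h1 : toS (fun i => gr (φ.1 i).1) (clo_gr φ.2) = toS (fun i => gr (ψ.1 i).1) (clo_gr ψ.2) :=
    congrArg Subtype.val he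
  apply Subtype.ext
  funext i
  apply Subtype.ext
  apply gr_inj (ψ.1 i).2.1
  have h2 : comp (toS (fun i => gr (φ.1 i).1) (clo_gr φ.2)) i =
      comp (toS (fun i => gr (ψ.1 i).1) (clo_gr ψ.2)) i := by rw [h1]
  rwa [comp_toS, comp_toS] at h2

theorem card_ker_ge {G H : Type} [AddCommGroup G] [AddCommGroup H] [Finite G] [Finite H]
    (f : G →+ H) : Nat.card G ≤ Nat.card f.ker * Nat.card H := by
  rw [AddSubgroup.card_eq_card_quotient_mul_card_addSubgroup f.ker, mul_comm]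
  apply Nat.mul_le_mul_left
  rw [Nat.card_congr (QuotientAddGroup.quotientKerEquivRange f).toEquiv]
  exact Nat.card_le_card_of_injective (fun x : f.range => (x : H)) Subtype.val_injective

theorem finite_Hm (h : RingHyp o p q) {M M' : Type} [AddCommGroup M] [Module o M]
    [AddCommGroup M'] [Module o M'] [Module.Finite o M]
    (A : Submodule o M) (B : Submodule o M') (hB : Finite (M' ⧸ B)) (s K : ℕ) :
    Finite (Hm p A B s K) := by
  have h1 := finite_LK h A s K
  have h2 := finite_cm (p := p) B hB s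
  by_contra hf
  rw [not_finite_iff_infinite] at hf
  have h3 := card_Hm_eq (p := p) A B s K
  rw [Nat.card_eq_zero_of_infinite] at h3
  have h4 : Finite ((↥A ⧸ LK p A s K) →ₗ[o]
      ↥(LinearMap.ker (LinearMap.lsmul o (M' ⧸ cm p B s) ((p : o) ^ K)))) :=
    Finite.of_injective (fun f => (f : (↥A ⧸ LK p A s K) →
      ↥(LinearMap.ker (LinearMap.lsmul o (M' ⧸ cm p B s) ((p : o) ^ K)))))
      DFunLike.coe_injective
  have h5 := Nat.card_pos (α := (↥A ⧸ LK p A s K) →ₗ[o]
      ↥(LinearMap.ker (LinearMap.lsmul o (M' ⧸ cm p B s) ((p : o) ^ K))))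
  omega

/-- A finite additive group killed by a power of `p` has `p`-power order. -/
theorem card_pow_of_killed {G : Type} [AddCommGroup G] [Finite G] (hp : p.Prime) (B : ℕ)
    (hB : ∀ g : G, p ^ B • g = 0) : ∃ n : ℕ, Nat.card G = p ^ n := by
  have := Fact.mk hp
  have h1 : IsPGroup p (Multiplicative G) := fun g => ⟨B, by
    have := hB (Multiplicative.toAdd g)
    exact congrArg Multiplicative.ofAdd this⟩
  obtain ⟨n, hn⟩ := IsPGroup.iff_card.1 h1
  exact ⟨n, hn⟩

end tower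

end GR4

variable {o : Type} [CommRing o] [IsDomain o] [IsDiscreteValuationRing o] {p q : ℕ} {d : ℕ}
  {M : ℕ → Type} [∀ i, AddCommGroup (M i)] [∀ i, Module o (M i)]
  {ad : ∀ i, Fin d → M i →ₗ[o] M (i + 1)} {c : ℕ}

/-- Codimension in degree `i`. -/
noncomputable def wd (q : ℕ) (V : Submodule (RR o c d) (NN ad c)) (i : Fin c) : ℕ :=
  len q (comp V i)

/-- Dimension (modulo `p`) in degree `i`. -/
noncomputable def ud (q : ℕ) (V : Submodule (RR o c d) (NN ad c)) (i : Fin c) : ℕ :=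
  Module.finrank o (M i) - len q (comp V i)

namespace GR4

theorem finite_comp (h : RingHyp o p q) (hM : Fre o M c)
    {V : Submodule (RR o c d) (NN ad c)} (hV : pN (RR o c d) (NN ad c) p 1 ≤ V) (i : Fin c) :
    Finite (M i ⧸ comp V i) := by
  have := hM.fin i i.2
  apply finite_quot_of_pow_mem h _ 1
  intro x
  exact comp_le_iff.1 hV i (mem_comp_pN.2 ⟨x, rfl⟩)

theorem ud_add_wd (h : RingHyp o p q) (hM : Fre o M c)
    {V : Submodule (RR o c d) (NN ad c)} (hV : pN (RR o c d) (NN ad c) p 1 ≤ V) (i : Fin c) :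
    Module.finrank o (M i) = ud q V i + wd q V i := by
  have := hM.fin i i.2
  have h1 : len q (comp V i) ≤ Module.finrank o (M i) := by
    rw [← len_comp_pN (ad := ad) h hM i]
    have f1 := finite_comp h hM hV i
    have f2 := finite_comp h hM (le_refl (pN (RR o c d) (NN ad c) p 1)) i
    have h2 := card_quot h _ f1
    have h3 := card_quot h _ f2
    have h4 : Nat.card (M i ⧸ comp V i) ≤
        Nat.card (M i ⧸ comp (pN (RR o c d) (NN ad c) p 1) i) :=
      Nat.card_le_card_of_surjective _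
        (Submodule.factor_surjective (comp_le_iff.1 hV i))
    rw [h2, h3] at h4
    exact (Nat.pow_le_pow_iff_right h.one_lt).1 h4
  unfold ud wd
  omega

theorem sum_subtype_dite (c : ℕ) (f : ∀ i : Fin c, (i : ℕ) + 1 < c → ℕ) :
    (∑ i : Fin c, if hi : (i : ℕ) + 1 < c then f i hi else 0) =
      ∑ i : {i : Fin c // (i : ℕ) + 1 < c}, f i.1 i.2 := by
  classical
  have h1 : ∑ i : {i : Fin c // (i : ℕ) + 1 < c}, f i.1 i.2 =
      ∑ i : {i : Fin c // (i : ℕ) + 1 < c}, (fun i : Fin c =>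
        if hi : (i : ℕ) + 1 < c then f i hi else 0) i := by
    refine Finset.sum_congr rfl fun i _ => ?_
    exact (dif_pos i.2).symm
  rw [h1, ← Finset.sum_subtype (Finset.univ.filter fun i : Fin c => (i : ℕ) + 1 < c)
    (fun i => by simp) (fun i : Fin c => if hi : (i : ℕ) + 1 < c then f i hi else 0)]
  symm
  apply Finset.sum_subset (Finset.filter_subset _ _)
  intro i _ hi
  rw [Finset.mem_filter, not_and] at hi
  exact dif_neg (hi (Finset.mem_univ i))

/-- The number of homomorphisms is large. -/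
theorem card_ker (h : RingHyp o p q) (hM : Fre o M c)
    (V : Lay (RR o c d) (NN ad c) p)
    (hV : d * ∑ i : Fin c, (if hi : (i : ℕ) + 1 < c then
        ud q V.1 i * wd q V.1 ⟨(i : ℕ) + 1, hi⟩ else 0) < ∑ i : Fin c, ud q V.1 i * wd q V.1 i)
    (I : Submodule (RR o c d) (NN ad c)) (hI : IsLat p I) (x k : ℕ)
    (hst : ∀ j, x ≤ j → j < x + 2 * (k + 1) → fl p I j = V.1) :
    q ^ (k + 1) ≤ Nat.card (Th p (comp_clo I) (x + (k + 1)) (k + 1)).ker := by
  have iF : ∀ i : Fin c, Module.Free o (M i) := fun i => hM.free i i.2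
  have iN : ∀ i : Fin c, Module.Finite o (M i) := fun i => hM.fin i i.2
  have hq := h.one_lt
  have hfin : ∀ i : Fin c, Finite (M i ⧸ comp I i) := (isLat_iff h hM I).1 hI
  have hst' : ∀ i : Fin c, ∀ j, x ≤ j → j < x + 2 * (k + 1) →
      ix (cm p (comp I i) j ⊔ pm o p (M i) 1) = q ^ wd q V.1 i := by
    intro i j hj hj'
    rw [← comp_fl' (ad := ad) I j i, hst j hj hj', ix_eq]
    exact card_quot h _ (finite_comp h hM V.2.1 i)
  have hcard : ∀ i i' : Fin c, Nat.card (Hm p (comp I i) (comp I i') (x + (k + 1)) (k + 1)) =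
      q ^ ((k + 1) * (ud q V.1 i * wd q V.1 i')) := fun i i' =>
    card_Hm h (comp I i) (hfin i) (comp I i') (hfin i') x k (ud q V.1 i) (wd q V.1 i)
      (wd q V.1 i') (ud_add_wd h hM V.2.1 i) (hst' i) (hst' i')
  have hf1 : ∀ i i' : Fin c, Finite (Hm p (comp I i) (comp I i') (x + (k + 1)) (k + 1)) :=
    fun i i' => finite_Hm h (comp I i) (comp I i') (hfin i') _ _
  have hf2 : ∀ (i : {i : Fin c // (i : ℕ) + 1 < c}),
      Finite (Hm p (comp I i.1) (comp I ⟨(i.1 : ℕ) + 1, i.2⟩) (x + (k + 1)) (k + 1)) :=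
    fun i => hf1 i.1 ⟨(i.1 : ℕ) + 1, i.2⟩
  have h1 := card_ker_ge (Th p (comp_clo I) (x + (k + 1)) (k + 1))
  rw [Nat.card_pi, Nat.card_pi] at h1
  have h2 : (∏ i : Fin c, Nat.card (Hm p (comp I i) (comp I i) (x + (k + 1)) (k + 1))) =
      q ^ ((k + 1) * ∑ i : Fin c, ud q V.1 i * wd q V.1 i) := by
    rw [Finset.mul_sum, ← Finset.prod_pow_eq_pow_sum]
    exact Finset.prod_congr rfl fun i _ => hcard i i
  have h3 : (∏ i : {i : Fin c // (i : ℕ) + 1 < c}, Nat.card (Fin d →
      Hm p (comp I i.1) (comp I ⟨(i.1 : ℕ) + 1, i.2⟩) (x + (k + 1)) (k + 1))) =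
      q ^ ((k + 1) * (d * ∑ i : {i : Fin c // (i : ℕ) + 1 < c},
        ud q V.1 i.1 * wd q V.1 ⟨(i.1 : ℕ) + 1, i.2⟩)) := by
    rw [Finset.mul_sum, Finset.mul_sum, ← Finset.prod_pow_eq_pow_sum]
    refine Finset.prod_congr rfl fun i _ => ?_
    rw [Nat.card_fun, Nat.card_fin]
    have := hcard i.1 ⟨(i.1 : ℕ) + 1, i.2⟩
    refine (congrArg (· ^ d) this).trans ?_
    show (q ^ _) ^ d = _
    rw [← pow_mul]
    congr 1
    ring
  rw [h2, h3] at h1
  rw [sum_subtype_dite c (fun i hi => ud q V.1 i * wd q V.1 ⟨(i : ℕ) + 1, hi⟩)] at hV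
  set S1 := ∑ i : Fin c, ud q V.1 i * wd q V.1 i
  set S2 := d * ∑ i : {i : Fin c // (i : ℕ) + 1 < c},
        ud q V.1 i.1 * wd q V.1 ⟨(i.1 : ℕ) + 1, i.2⟩
  have h4 : q ^ (k + 1) * q ^ ((k + 1) * S2) ≤ q ^ ((k + 1) * S1) := by
    rw [← pow_add]
    apply Nat.pow_le_pow_right (by omega)
    calc (k + 1) + (k + 1) * S2 = (k + 1) * (S2 + 1) := by ring
      _ ≤ (k + 1) * S1 := Nat.mul_le_mul_left _ hV
  have h5 := h4.trans h1
  exact Nat.le_of_mul_le_mul_right h5 (Nat.pow_pos (by omega))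

end GR4

/-- Numerical killing lemma. -/
theorem kill_of_dim (h : RingHyp o p q) (hM : Fre o M c)
    (V : Lay (RR o c d) (NN ad c) p)
    (hV : d * ∑ i : Fin c, (if hi : (i : ℕ) + 1 < c then
        ud q V.1 i * wd q V.1 ⟨(i : ℕ) + 1, hi⟩ else 0) < ∑ i : Fin c, ud q V.1 i * wd q V.1 i) :
    Kill V := by
  have hN := nHyp (ad := ad) h hM
  apply kill_of_hom hN V
  intro m
  refine ⟨2 * (p ^ m + 1), p ^ m + 1, fun I x hI hst => ?_⟩
  set k := p ^ m with hk
  by_cases hfin : Finite (Hgrp (I ⊓ pN (RR o c d) (NN ad c) p (x + (k + 1)))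
      (I ⊔ pN (RR o c d) (NN ad c) p (x + (k + 1)))
      (pN (RR o c d) (NN ad c) p (x + (k + 1))))
  swap
  · rw [not_finite_iff_infinite] at hfin
    rw [Nat.card_eq_zero_of_infinite]
    exact dvd_zero _
  obtain ⟨B, hB⟩ := hI
  obtain ⟨n, hn⟩ := GR4.card_pow_of_killed h.prime B (G := Hgrp (I ⊓ pN (RR o c d) (NN ad c) p
      (x + (k + 1))) (I ⊔ pN (RR o c d) (NN ad c) p (x + (k + 1)))
      (pN (RR o c d) (NN ad c) p (x + (k + 1)))) (by
    intro f
    apply Subtype.ext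
    apply LinearMap.ext
    intro z
    obtain ⟨y, hy, hyz⟩ := f.2.2 z
    show p ^ B • f.1 z = 0
    rw [← hyz, ← map_nsmul, Submodule.mkQ_apply, Submodule.Quotient.mk_eq_zero]
    exact ⟨hB ⟨y, rfl⟩, Submodule.smul_of_tower_mem _ _ hy⟩)
  have h1 := card_cls (R := RR o c d) I (pN (RR o c d) (NN ad c) p (x + (k + 1)))
  have h2 := GR4.card_ker h hM V hV I ⟨B, hB⟩ x k hst
  have hfin2 : Finite {I' : Submodule (RR o c d) (NN ad c) //
      I' ⊓ pN (RR o c d) (NN ad c) p (x + (k + 1)) = I ⊓ pN (RR o c d) (NN ad c) p (x + (k + 1)) ∧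
      I' ⊔ pN (RR o c d) (NN ad c) p (x + (k + 1)) =
        I ⊔ pN (RR o c d) (NN ad c) p (x + (k + 1))} := by
    apply Nat.finite_of_card_ne_zero
    rw [h1, hn]
    exact pow_ne_zero _ h.prime.ne_zero
  have h3 := Nat.card_le_card_of_injective _ (GR4.toCls_inj (p := p) I (x + (k + 1)) (k + 1))
  rw [h1, hn] at h3
  rw [hn]
  apply pow_dvd_pow
  by_contra hlt
  push Not at hlt
  have h4 : p ^ n < p ^ m := Nat.pow_lt_pow_right h.prime.one_lt hlt
  have h5 : k < 2 ^ (k + 1) := lt_of_lt_of_le Nat.lt_two_pow_self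
    (Nat.pow_le_pow_right (by norm_num) (Nat.le_succ k))
  have h6 : 2 ^ (k + 1) ≤ q ^ (k + 1) := Nat.pow_le_pow_left h.one_lt _
  omega

end Pool.Agent.TZ8
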