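import Pool.Agent.TZ8.LGF
import Pool.Agent.TZ8.GR4
import Pool.Agent.TZ8.LD
import Pool.Agent.TZ8.VAL7
import Pool.Agent.TZ.LC

set_option autoImplicit false

/-! Leading coefficients for one free module. -/

namespace Pool.Agent.TZ8

open Pool.Agent.TZ

variable {o : Type} [CommRing o] [IsDomain o] [IsDiscreteValuationRing o] {p q : ℕ}

namespace LEV

/-- The tower with constant terms and no operators. -/
def ad0 (o : Type) [CommRing o] (M : Type) [AddCommGroup M] [Module o M] :
    ∀ i : ℕ, Fin 0 → (fun _ : ℕ => M) i →ₗ[o] (fun _ : ℕ => M) (i + 1) := fun _ j => j.elim0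

section

variable (M : Type) [AddCommGroup M] [Module o M]

omit [IsDomain o] [IsDiscreteValuationRing o] in
theorem fre [Module.Free o M] [Module.Finite o M] (c : ℕ) : Fre o (fun _ : ℕ => M) c :=
  ⟨fun _ _ => inferInstance, fun _ _ => inferInstance⟩

theorem eq_top_of_len (h : RingHyp o p q) [Module.Finite o M] {L : Submodule o M} (hL : Finite (M ⧸ L))
    (h0 : len q L = 0) : L = ⊤ := by
  have h1 := card_quot h L hL
  rw [h0, pow_zero] at h1
  have h2 : Subsingleton (M ⧸ L) := (Nat.card_eq_one_iff_unique.1 h1).1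
  exact Submodule.Quotient.subsingleton_iff.1 h2

theorem eq_of_len (h : RingHyp o p q) [Module.Finite o M] {L L' : Submodule o M} (hL : Finite (M ⧸ L))
    (hL' : Finite (M ⧸ L')) (hle : L ≤ L') (h0 : len q L = len q L') : L = L' := by
  have h1 := card_quot h L hL
  have h2 := card_quot h L' hL'
  rw [← h0, ← h1] at h2
  have h3 : Function.Injective (Submodule.factor hle) :=
    ((Nat.bijective_iff_surjective_and_card (Submodule.factor hle)).2
      ⟨Submodule.factor_surjective hle, h2.symm⟩).1
  refine le_antisymm hle fun x hx => ?_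
  have h4 : Submodule.factor hle (Submodule.Quotient.mk x) = 0 := by
    rw [← Submodule.mkQ_apply, Submodule.factor_mk]
    exact (Submodule.Quotient.mk_eq_zero _).2 hx
  have h5 := h3 (h4.trans (map_zero _).symm)
  exact (Submodule.Quotient.mk_eq_zero _).1 h5

theorem kill_all (h : RingHyp o p q) [Module.Free o M] [Module.Finite o M]
    (V : Lay (RR o 1 0) (NN (ad0 o M) 1) p) (hV : V.1 ≠ pN (RR o 1 0) (NN (ad0 o M) 1) p 1) :
    Kill V := by
  apply kill_of_dim h (fre M 1) V
  have hfin := GR4.finite_comp (ad := ad0 o M) h (fre M 1) V.2.1 0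
  have hfin' := GR4.finite_comp (ad := ad0 o M) h (fre M 1)
    (le_refl (pN (RR o 1 0) (NN (ad0 o M) 1) p 1)) 0
  rw [zero_mul, Fintype.sum_unique]
  apply Nat.mul_pos
  · apply Nat.pos_of_ne_zero
    intro h0
    have h1 := GR4.ud_add_wd (ad := ad0 o M) h (fre M 1) V.2.1 0
    have h2 : ud q V.1 (default : Fin 1) = ud q V.1 0 := rfl
    rw [h2] at h0
    rw [h0, zero_add] at h1
    have h3 := len_comp_pN (ad := ad0 o M) (p := p) h (fre M 1) 0
    apply hV
    apply comp_inj
    intro i
    have hi : i = 0 := Subsingleton.elim _ _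
    subst hi
    exact (eq_of_len M h hfin' hfin (comp_le_iff.1 V.2.1 0) (h3.trans h1)).symm
  · apply Nat.pos_of_ne_zero
    intro h0
    apply V.2.2
    apply comp_inj
    intro i
    have hi : i = 0 := Subsingleton.elim _ _
    subst hi
    rw [comp_top]
    exact eq_top_of_len M h hfin h0

end

end LEV

theorem lead_lev [Fact p.Prime] (h : RingHyp o p q) (hq : p ∣ q) (M : Type) [AddCommGroup M]
    [Module o M] [Module.Free o M] [Module.Finite o M] (m : ℕ) (hm : Module.finrank o M = m)
    (hm1 : 1 ≤ m) (r : ℕ) :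
    Lead p 1 (gf (fun L : Lat o M => len q L.1 + r * expo p L.1))
      ((m : ℚ_[p]) * kap p q m / ((m + r : ℕ) : ℚ_[p])) := by
  classical
  subst hm
  have hM := LEV.fre (o := o) M 1
  have hN := nHyp (ad := LEV.ad0 o M) h hM
  have hlen := len_comp_pN (ad := LEV.ad0 o M) (p := p) h hM 0
  have htop : pN (RR o 1 0) (NN (LEV.ad0 o M) 1) p 1 ≠ ⊤ := by
    intro h0
    rw [h0, comp_top] at hlen
    have h1 : len q (⊤ : Submodule o M) = 0 := by
      unfold len
      rw [Nat.card_unique, Nat.log_one_right]
    have h2 : len q (⊤ : Submodule o M) = Module.finrank o M := hlen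
    omega
  have htop' : comp (pN (RR o 1 0) (NN (LEV.ad0 o M) 1) p 1) 0 ≠ ⊤ := by
    intro h0
    apply htop
    apply comp_inj
    intro i
    have hi : i = 0 := Subsingleton.elim _ _
    subst hi
    rw [h0, comp_top]
  let V0 : Lay (RR o 1 0) (NN (LEV.ad0 o M) 1) p := ⟨pN _ _ p 1, le_refl _, htop⟩
  obtain ⟨C, -, hC⟩ := gen hN {V0}
    (fun V hV => by
      rw [Finset.mem_singleton] at hV
      subst hV
      exact sat_pN hN)
    (fun V hV V' _ _ => by
      rw [Finset.mem_singleton] at hV
      subst hV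
      exact rig_pN V'.1)
    (fun V hV => LEV.kill_all M h V fun h0 => hV (by
      rw [Finset.mem_singleton]
      exact Subtype.ext h0))
    (fun _ => True) (fun _ _ _ _ => trivial)
  have key : ∀ s : ℕ, Lead p 1 (gf (fun L : Lat o M => len q L.1 + s * expo p L.1))
      (C {V0} / ((Module.finrank o M + s : ℕ) : ℚ_[p])) := by
    intro s
    have h1 := hC (nuR q s Nat.one_pos) (nuR_pos h hM s Nat.one_pos) 1 (by
      intro σ hσ l _ _ hcard
      have := Finset.card_le_card hσ
      rw [Finset.card_singleton] at this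
      omega)
    rw [lgs_nuR h hM Nat.one_pos (fun _ => True) s, Finset.powersetCard_one,
      Finset.map_singleton, Finset.sum_singleton] at h1
    have h2 : nuR q s Nat.one_pos V0 = Module.finrank o M + s := by
      unfold nuR
      have h4 : (if comp V0.1 (⟨0, Nat.one_pos⟩ : Fin 1) = ⊤ then 0 else 1) = 1 := if_neg htop'
      rw [h4, mul_one, Fintype.sum_unique]
      exact congrArg (fun x => x + s) hlen
    have h3 : ∏ V ∈ (({V0} : Finset (Lay (RR o 1 0) (NN (LEV.ad0 o M) 1) p))),
        (nuR q s Nat.one_pos V : ℚ_[p]) = ((Module.finrank o M + s : ℕ) : ℚ_[p]) := by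
      rw [Finset.prod_singleton, h2]
    rw [← h3]
    refine Eq.mp ?_ h1
    refine congrArg (fun G => Lead p 1 G (C {V0} /
      ∏ V ∈ (({V0} : Finset (Lay (RR o 1 0) (NN (LEV.ad0 o M) 1) p))),
        (nuR q s Nat.one_pos V : ℚ_[p]))) ?_
    let e : {I : Tup (c := 1) (LEV.ad0 o M) // True} ≃ Lat o M :=
      { toFun := fun I => I.1.1 0
        invFun := fun L => ⟨⟨fun _ => L, fun i hi => absurd hi (by omega)⟩, trivial⟩
        left_inv := by
          rintro ⟨⟨I, hI⟩, _⟩
          apply Subtype.ext
          apply Subtype.ext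
          funext i
          have hi : i = 0 := Subsingleton.elim _ _
          subst hi
          rfl
        right_inv := fun L => rfl }
    rw [← gf_equiv e]
    refine congrArg gf (funext fun I => ?_)
    rw [Fintype.sum_unique]
    rfl
  have h0 := key 0
  have h1 : (fun L : Lat o M => len q L.1 + 0 * expo p L.1) = fun L : Lat o M => len q L.1 := by
    funext L
    rw [zero_mul, add_zero]
  rw [h1, add_zero] at h0
  have h2 := lead_unique h0 (lead_zeta hq hm1 (gf_lat (q := q) h (M := M)))
  have hm0 : (Module.finrank o M : ℚ_[p]) ≠ 0 := by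
    exact_mod_cast (show Module.finrank o M ≠ 0 by omega)
  have h3 : C {V0} = (Module.finrank o M : ℚ_[p]) * kap p q (Module.finrank o M) := by
    rw [div_eq_iff hm0] at h2
    rw [h2, kap]
    ring
  rw [← h3]
  exact key r

end Pool.Agent.TZ8
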