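import Pool.Agent.TZ8.EXPO
import Pool.Agent.TZ8.GR1
import Pool.Agent.TZ8.LEV

set_option autoImplicit false

/-! Families of lattices with gaps between the first levels. -/

namespace Pool.Agent.TZ8

open Pool.Agent.TZ

/-- Families of lattices of the first `c` levels: `I i ≤ p ^ (expo (I (i + 1)) + 1) M i` for
`i < n`, and the maps of the tower send `I i` to `I (i + 1)` for `n ≤ i`. -/
abbrev GG {o : Type} [CommRing o] {d : ℕ} {M : ℕ → Type} [∀ i, AddCommGroup (M i)]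
    [∀ i, Module o (M i)] (p : ℕ) (ad : ∀ i, Fin d → M i →ₗ[o] M (i + 1)) (n c : ℕ) : Type :=
  {I : ∀ i : Fin c, Lat o (M i) //
    (∀ (i : ℕ) (h : i + 1 < c), i < n → ∀ x ∈ (I ⟨i, Nat.lt_of_succ_lt h⟩).1, ∃ z : M i,
      x = (p : o) ^ (expo p (I ⟨i + 1, h⟩).1 + 1) • z) ∧
    (∀ (i : ℕ) (h : i + 1 < c), n ≤ i → ∀ j : Fin d, ∀ x ∈ (I ⟨i, Nat.lt_of_succ_lt h⟩).1,
      ad i j x ∈ (I ⟨i + 1, h⟩).1)}

variable {o : Type} [CommRing o] [IsDomain o] [IsDiscreteValuationRing o] {p q : ℕ} {d : ℕ}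
  {M : ℕ → Type} [∀ i, AddCommGroup (M i)] [∀ i, Module o (M i)]

/-- The first level and the other levels. -/
private def peel (ad : ∀ i, Fin d → M i →ₗ[o] M (i + 1)) (n c : ℕ) :
    GG p ad (n + 1) (c + 2) ≃ StepT o p (M 0)
      (fun I : GG (M := fun i => M (i + 1)) p (fun i => ad (i + 1)) n (c + 1) =>
        expo p (I.1 0).1) where
  toFun I := ⟨(I.1 0, ⟨fun i => I.1 i.succ,
      fun i hi hn x hx => I.2.1 (i + 1) (Nat.succ_lt_succ hi) (Nat.succ_lt_succ hn) x hx,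
      fun i hi hn j x hx => I.2.2 (i + 1) (Nat.succ_lt_succ hi) (Nat.succ_le_succ hn) j x hx⟩),
    fun x hx => I.2.1 0 (Nat.succ_lt_succ (Nat.succ_pos c)) (Nat.succ_pos n) x hx⟩
  invFun y := ⟨fun i => match i with
      | ⟨0, _⟩ => y.1.1
      | ⟨k + 1, hk⟩ => y.1.2.1 ⟨k, Nat.lt_of_succ_lt_succ hk⟩, by
    refine ⟨?_, ?_⟩
    · intro i hi hn x hx
      cases i with
      | zero => exact y.2 x hx
      | succ k => exact y.1.2.2.1 k (Nat.lt_of_succ_lt_succ hi) (Nat.lt_of_succ_lt_succ hn) x hx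
    · intro i hi hn j x hx
      cases i with
      | zero => exact absurd hn (Nat.not_succ_le_zero n)
      | succ k => exact y.1.2.2.2 k (Nat.lt_of_succ_lt_succ hi) (Nat.le_of_succ_le_succ hn) j x hx⟩
  left_inv I := by
    apply Subtype.ext
    funext i
    match i with
    | ⟨0, _⟩ => rfl
    | ⟨k + 1, _⟩ => rfl
  right_inv y := rfl

/-- Peeling off the first level. -/
theorem gf_GG_succ (h : RingHyp o p q) (ad : ∀ i, Fin d → M i →ₗ[o] M (i + 1)) (n c : ℕ)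
    (hM : Fre o M (c + 2)) (m0 : ℕ) (hm : Module.finrank o (M 0) = m0) (hm1 : 1 ≤ m0) (r : ℕ) :
    gf (fun I : GG p ad (n + 1) (c + 2) => ∑ i, len q (I.1 i).1 + r * expo p (I.1 0).1) =
      PowerSeries.X ^ (m0 + r) * (gf (fun L : Lat o (M 0) => len q L.1 + r * expo p L.1) *
        gf (fun I : GG (M := fun i => M (i + 1)) p (fun i => ad (i + 1)) n (c + 1) =>
          ∑ i, len q (I.1 i).1 + (m0 + r) * expo p (I.1 0).1)) := by
  have := hM.free 0 (Nat.succ_pos _)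
  have := hM.fin 0 (Nat.succ_pos _)
  have hw : ∀ k, Finite {I : GG (M := fun i => M (i + 1)) p (fun i => ad (i + 1)) n (c + 1) //
      ∑ i, len q (I.1 i).1 = k} := by
    intro k
    have hf : Finite {z : ∀ i : Fin (c + 1), Lat o (M (i + 1)) // ∑ i, len q (z i).1 = k} := by
      refine finite_pi (X := fun i : Fin (c + 1) => Lat o (M (i + 1)))
        (fun i L => len q L.1) (fun i k => ?_) k
      have := hM.free (i + 1) (Nat.succ_lt_succ i.2)
      have := hM.fin (i + 1) (Nat.succ_lt_succ i.2)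
      exact lat_finite h k
    refine Finite.of_injective
      (β := {z : ∀ i : Fin (c + 1), Lat o (M (i + 1)) // ∑ i, len q (z i).1 = k})
      (fun I => ⟨I.1.1, I.2⟩) ?_
    intro I I' he
    exact Subtype.ext (Subtype.ext (Subtype.mk.inj he))
  rw [← gf_stepT h m0 hm hm1 _ (fun I : GG (M := fun i => M (i + 1)) p
    (fun i => ad (i + 1)) n (c + 1) => expo p (I.1 0).1) hw r, ← gf_equiv (peel ad n c)]
  congr 1
  funext I
  rw [Fin.sum_univ_succ]
  rfl

theorem lead_GG_succ [Fact p.Prime] (h : RingHyp o p q) (hq : p ∣ q)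
    (ad : ∀ i, Fin d → M i →ₗ[o] M (i + 1)) (n c : ℕ) (hM : Fre o M (c + 2)) (m0 : ℕ)
    (hm : Module.finrank o (M 0) = m0) (hm1 : 1 ≤ m0) (r k : ℕ) (B : ℚ_[p])
    (hB : Lead p k (gf (fun I : GG (M := fun i => M (i + 1)) p (fun i => ad (i + 1)) n (c + 1) =>
          ∑ i, len q (I.1 i).1 + (m0 + r) * expo p (I.1 0).1)) B) :
    Lead p (k + 1)
      (gf (fun I : GG p ad (n + 1) (c + 2) => ∑ i, len q (I.1 i).1 + r * expo p (I.1 0).1))
      ((m0 : ℚ_[p]) * kap p q m0 / ((m0 + r : ℕ) : ℚ_[p]) * B) := by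
  have := hM.free 0 (Nat.succ_pos _)
  have := hM.fin 0 (Nat.succ_pos _)
  rw [gf_GG_succ h ad n c hM m0 hm hm1 r]
  have h1 := lead_mul (lead_X_pow (p := p) (m0 + r))
    (lead_mul (lead_lev h hq (M 0) m0 hm hm1 r) hB)
  rw [one_mul, zero_add, add_comm 1 k] at h1
  exact h1

end Pool.Agent.TZ8
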