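import Pool.Agent.TZ8.VDefs
import Pool.Agent.TZ8.GR1
import Pool.Agent.TZ.PR

set_option autoImplicit false

/-! The standard model as a tower of height two. -/

namespace Pool.Agent.TZ8

open Pool.Agent.TZ

/-- The tower. -/
def VT (o : Type) [CommRing o] (a b : ℕ) : ℕ → Type
  | 0 => A7 o a b
  | 1 => A8 o a b
  | _ + 2 => PUnit

instance (o : Type) [CommRing o] (a b : ℕ) : ∀ i, AddCommGroup (VT o a b i)
  | 0 => inferInstanceAs (AddCommGroup (A7 o a b))
  | 1 => inferInstanceAs (AddCommGroup (A8 o a b))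
  | _ + 2 => inferInstanceAs (AddCommGroup PUnit)

instance (o : Type) [CommRing o] (a b : ℕ) : ∀ i, Module o (VT o a b i)
  | 0 => inferInstanceAs (Module o (A7 o a b))
  | 1 => inferInstanceAs (Module o (A8 o a b))
  | _ + 2 => inferInstanceAs (Module o PUnit)

/-- The maps of the tower. -/
def VA (o : Type) [CommRing o] (a b : ℕ) : ∀ i, Fin 2 → VT o a b i →ₗ[o] VT o a b (i + 1)
  | 0, j => (adV j : A7 o a b →ₗ[o] A8 o a b)
  | _ + 1, _ => 0

theorem VA_zero (o : Type) [CommRing o] (a b : ℕ) (j : Fin 2) (x : A7 o a b) :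
    VA o a b 0 j x = (adV j x : A8 o a b) := rfl

/-- The family `(p A7, A8)`. -/
def fF (o : Type) [CommRing o] (p a b : ℕ) : ∀ i, Submodule o (VT o a b i)
  | 0 => LinearMap.range (PR.mp o p (A7 o a b) 1)
  | _ + 1 => ⊤

/-- The family `(K ⊗ V + p A7, K ⊗ S²V + p A8)`. -/
def fS (o : Type) [CommRing o] (p a b : ℕ) : ∀ i, Submodule o (VT o a b i)
  | 0 => (LinearMap.range (PR.mp o p (F7 o b) 1)).comap (LinearMap.snd o (S7 o a) (F7 o b))
  | 1 => (LinearMap.range (PR.mp o p (Q8 o b) 1)).comap (LinearMap.snd o (S8 o a) (Q8 o b))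
  | _ + 2 => ⊤

theorem clo_fF (o : Type) [CommRing o] (p a b : ℕ) :
    Clo (VA o a b) 2 (fun i : Fin 2 => fF o p a b i) := by
  intro i hi j x hx
  exact trivial

theorem mem_range_mp {o : Type} [CommRing o] {p : ℕ} {M : Type} [AddCommGroup M] [Module o M]
    {x : M} : x ∈ LinearMap.range (PR.mp o p M 1) ↔ ∃ y : M, (p : o) • y = x := by
  constructor
  · rintro ⟨y, hy⟩
    refine ⟨y, ?_⟩
    rw [← hy]
    show _ = (p : o) ^ 1 • y
    rw [pow_one]
  · rintro ⟨y, hy⟩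
    refine ⟨y, ?_⟩
    rw [← hy]
    show (p : o) ^ 1 • y = _
    rw [pow_one]

theorem mem_fS_zero {o : Type} [CommRing o] {p a b : ℕ} {x : A7 o a b} :
    x ∈ fS o p a b 0 ↔ ∃ y : F7 o b, (p : o) • y = x.2 := by
  show x.2 ∈ LinearMap.range (PR.mp o p (F7 o b) 1) ↔ _
  exact mem_range_mp

theorem mem_fS_one {o : Type} [CommRing o] {p a b : ℕ} {x : A8 o a b} :
    x ∈ fS o p a b 1 ↔ ∃ y : Q8 o b, (p : o) • y = x.2 := by
  show x.2 ∈ LinearMap.range (PR.mp o p (Q8 o b) 1) ↔ _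
  exact mem_range_mp

theorem clo_fS (o : Type) [CommRing o] (p a b : ℕ) :
    Clo (VA o a b) 2 (fun i : Fin 2 => fS o p a b i) := by
  intro i hi j x hx
  obtain rfl : i = 0 := by omega
  obtain ⟨y, hy⟩ := mem_fS_zero.1 hx
  refine mem_fS_one.2 ?_
  show ∃ z : Q8 o b, (p : o) • z = (adV j (x : A7 o a b) : A8 o a b).2
  unfold adV
  split_ifs
  · exact ⟨(y, 0), Prod.ext hy (smul_zero _)⟩
  · exact ⟨(0, y), Prod.ext (smul_zero _) hy⟩

/-- The layer `(p A7, A8)`. -/
def zF (o : Type) [CommRing o] (p a b : ℕ) : Submodule (RR o 2 2) (NN (VA o a b) 2) :=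
  toS (fun i : Fin 2 => fF o p a b i) (clo_fF o p a b)

/-- The layer `(K ⊗ V + p A7, K ⊗ S²V + p A8)`. -/
def zS (o : Type) [CommRing o] (p a b : ℕ) : Submodule (RR o 2 2) (NN (VA o a b) 2) :=
  toS (fun i : Fin 2 => fS o p a b i) (clo_fS o p a b)

/-- Closed pairs are tuples of length two. -/
def tupPair (o : Type) [CommRing o] (a b : ℕ) : Tup (c := 2) (VA o a b) ≃ PairV o a b where
  toFun I := ⟨(I.1 0, I.1 1), fun j v hv => I.2 0 (by norm_num) j v hv⟩
  invFun x := ⟨fun i => match i with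
    | ⟨0, _⟩ => x.1.1
    | ⟨1, _⟩ => x.1.2, by
      intro i hi j v hv
      obtain rfl : i = 0 := by omega
      exact x.2 j v hv⟩
  left_inv I := by
    apply Subtype.ext
    funext i
    match i with
    | ⟨0, _⟩ => rfl
    | ⟨1, _⟩ => rfl
  right_inv x := rfl

end Pool.Agent.TZ8
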