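import Pool.Agent.TZ8.LGF
import Pool.Agent.TZ8.GG
import Pool.Agent.TZ8.ZDefs

set_option autoImplicit false

/-! Lattices with all the cuts among their layers. -/

namespace Pool.Agent.TZ8

open Pool.Agent.TZ

section cut

variable {o : Type} [CommRing o] {d : ℕ} {M : ℕ → Type} [∀ i, AddCommGroup (M i)]
  [∀ i, Module o (M i)]

/-- The family which is `p M` in degrees `< n` and everything in degrees `≥ n`. -/
def cutF (o : Type) [CommRing o] (p : ℕ) (M : ℕ → Type) [∀ i, AddCommGroup (M i)]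
    [∀ i, Module o (M i)] (n : ℕ) (k : ℕ) : Submodule o (M k) :=
  if n ≤ k then ⊤ else LinearMap.range (PR.mp o p (M k) 1)

theorem clo_cutF (p : ℕ) (ad : ∀ i, Fin d → M i →ₗ[o] M (i + 1)) (c n : ℕ) :
    Clo ad c (fun k : Fin c => cutF o p M n k) := by
  intro i hi j x hx
  show ad i j x ∈ cutF o p M n (i + 1)
  unfold cutF
  split_ifs with h1
  · trivial
  · have hx' : x ∈ cutF o p M n i := hx
    unfold cutF at hx'
    rw [if_neg (by omega), mem_range_mp] at hx'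
    obtain ⟨y, rfl⟩ := hx'
    rw [mem_range_mp]
    exact ⟨ad i j y, by rw [map_smul]⟩

/-- The submodule `p N + N_{≥ n}`. -/
def cutS (p : ℕ) (ad : ∀ i, Fin d → M i →ₗ[o] M (i + 1)) (c n : ℕ) :
    Submodule (RR o c d) (NN ad c) :=
  toS (fun k : Fin c => cutF o p M n k) (clo_cutF p ad c n)

end cut

variable {o : Type} [CommRing o] [IsDomain o] [IsDiscreteValuationRing o] {p q : ℕ} {d : ℕ}
  {M : ℕ → Type} [∀ i, AddCommGroup (M i)] [∀ i, Module o (M i)]
  {ad : ∀ i, Fin d → M i →ₗ[o] M (i + 1)} {c : ℕ}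

namespace GDE

section one

variable {A : Type} [AddCommGroup A] [Module o A]

omit [IsDomain o] [IsDiscreteValuationRing o] in
theorem mem_range' {x : A} : x ∈ LinearMap.range (PR.mp o p A 1) ↔ ∃ y : A, (p : o) • y = x :=
  mem_range_mp

omit [IsDomain o] [IsDiscreteValuationRing o] in
theorem range_le_flo (L : Submodule o A) (j : ℕ) :
    LinearMap.range (PR.mp o p A 1) ≤ GR3.flo p L j := le_sup_right

/-- The flag at `j` is `p M` iff the lattice is contained in `p ^ (j + 1) M`. -/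
theorem flo_eq_range (h : RingHyp o p q) [Module.Free o A] [Module.Finite o A]
    (L : Submodule o A) (j : ℕ) :
    GR3.flo p L j = LinearMap.range (PR.mp o p A 1) ↔
      ∀ x ∈ L, ∃ z : A, x = (p : o) ^ (j + 1) • z := by
  constructor
  · intro hj x hx
    have key : ∀ i ≤ j + 1, ∃ z : A, x = (p : o) ^ i • z := by
      intro i
      induction i with
      | zero => exact fun _ => ⟨x, by rw [pow_zero, one_smul]⟩
      | succ i ih =>
        intro hi
        obtain ⟨y, hy⟩ := ih (by omega)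
        have h1 : y ∈ GR3.flo p L i := by
          rw [GR3.mem_flo]
          exact ⟨y, 0, by rw [smul_zero, add_zero], by rw [← hy]; exact hx⟩
        have h2 : y ∈ GR3.flo p L j := GR3.flo_mono L (by omega) h1
        rw [hj, mem_range'] at h2
        obtain ⟨z, hz⟩ := h2
        exact ⟨z, by rw [hy, ← hz, smul_smul, ← pow_succ]⟩
    exact key (j + 1) le_rfl
  · intro hL
    refine le_antisymm ?_ (range_le_flo L j)
    intro x hx
    rw [GR3.mem_flo] at hx
    obtain ⟨y, z, rfl, hy⟩ := hx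
    obtain ⟨w, hw⟩ := hL _ hy
    rw [pow_succ, mul_smul] at hw
    have h1 : y = (p : o) • w := PR.smul_cancel h j hw
    rw [mem_range']
    exact ⟨w + z, by rw [h1, smul_add]⟩

end one

/-- The flag of `I` at `j` is the cut `i`. -/
theorem fl_eq_cut (h : RingHyp o p q) (hM : Fre o M c)
    (I : Submodule (RR o c d) (NN ad c)) (hI : IsLat p I) (i j : ℕ) :
    fl p I j = cutS p ad c i ↔
      (∀ k : Fin c, i ≤ k → expo p (comp I k) ≤ j) ∧
      ∀ k : Fin c, (k : ℕ) < i → ∀ x ∈ comp I k, ∃ z : M k, x = (p : o) ^ (j + 1) • z := by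
  have hfin := (isLat_iff h hM I).1 hI
  obtain ⟨K, hK⟩ := hI
  have h1 : fl p I j = cutS p ad c i ↔ ∀ k : Fin c, GR3.flo p (comp I k) j = cutF o p M i k := by
    constructor
    · intro he k
      rw [← GR3.comp_fl, he]
      exact comp_toS (ad := ad) (fun k : Fin c => cutF o p M i k) (clo_cutF p ad c i) k
    · intro he
      refine comp_inj fun k => ?_
      rw [GR3.comp_fl, he k]
      exact (comp_toS (ad := ad) (fun k : Fin c => cutF o p M i k) (clo_cutF p ad c i) k).symm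
  rw [h1]
  constructor
  · intro hc
    refine ⟨fun k hk => ?_, fun k hk => ?_⟩
    · have hfk := hM.fin k k.2
      rw [expo_le_iff h _ (hfin k), GR3.pow_mem_iff _ K (GR3.pow_mem hK k) j, hc k, cutF, if_pos hk]
    · have hfk := hM.free k k.2
      have hfk' := hM.fin k k.2
      rw [← flo_eq_range h, hc k, cutF, if_neg (by omega)]
  · rintro ⟨ha, hb⟩ k
    by_cases hk : i ≤ k
    · have hfk := hM.fin k k.2
      rw [cutF, if_pos hk, ← GR3.pow_mem_iff _ K (GR3.pow_mem hK k) j, ← expo_le_iff h _ (hfin k)]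
      exact ha k hk
    · have hfk := hM.free k k.2
      have hfk' := hM.fin k k.2
      rw [cutF, if_neg hk, flo_eq_range h]
      exact hb k (by omega)

/-- The exponents decrease. -/
theorem expo_succ_le (h : RingHyp o p q) (hM : Fre o M c)
    (hgen : ∀ i, i + 1 < c → br (ad i) ⊤ = ⊤) (I : Submodule (RR o c d) (NN ad c))
    (hI : IsLat p I) (k : ℕ) (hk : k + 1 < c) :
    expo p (comp I ⟨k + 1, hk⟩) ≤ expo p (comp I ⟨k, Nat.lt_of_succ_lt hk⟩) := by
  have hfin := (isLat_iff h hM I).1 hI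
  have f1 := hM.fin (k + 1) hk
  have f0 := hM.fin k (Nat.lt_of_succ_lt hk)
  rw [expo_le_iff h _ (hfin ⟨k + 1, hk⟩)]
  set b := expo p (comp I ⟨k, Nat.lt_of_succ_lt hk⟩) with hb
  have h0 : ∀ x : M k, (p : o) ^ b • x ∈ comp I ⟨k, Nat.lt_of_succ_lt hk⟩ :=
    fun x => pow_expo_mem h _ (hfin ⟨k, Nat.lt_of_succ_lt hk⟩) x
  intro x
  have hx : x ∈ br (ad k) ⊤ := by rw [hgen k hk]; trivial
  have hle : br (ad k) ⊤ ≤ (comp I ⟨k + 1, hk⟩).comap (PR.mp o p (M (k + 1)) b) := by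
    unfold br
    refine iSup_le fun j => ?_
    rintro _ ⟨y, -, rfl⟩
    rw [Submodule.mem_comap, PR.mp_apply, ← map_smul]
    exact comp_clo I k hk j _ (h0 y)
  exact hle hx

theorem expo_anti (h : RingHyp o p q) (hM : Fre o M c)
    (hgen : ∀ i, i + 1 < c → br (ad i) ⊤ = ⊤) (I : Submodule (RR o c d) (NN ad c))
    (hI : IsLat p I) (i : ℕ) : ∀ (t : ℕ) (hk : i + t < c),
    expo p (comp I ⟨i + t, hk⟩) ≤ expo p (comp I ⟨i, by omega⟩) := by
  intro t
  induction t with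
  | zero => exact fun hk => le_rfl
  | succ t ih =>
    intro hk
    exact (expo_succ_le h hM hgen I hI (i + t) hk).trans (ih (by omega))

theorem expo_anti' (h : RingHyp o p q) (hM : Fre o M c)
    (hgen : ∀ i, i + 1 < c → br (ad i) ⊤ = ⊤) (I : Submodule (RR o c d) (NN ad c))
    (hI : IsLat p I) (i k : Fin c) (hik : (i : ℕ) ≤ k) :
    expo p (comp I k) ≤ expo p (comp I i) := by
  obtain ⟨i, hi⟩ := i
  obtain ⟨k, hk⟩ := k
  obtain ⟨t, rfl⟩ := Nat.exists_eq_add_of_le hik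
  exact expo_anti h hM hgen I hI i t hk

end GDE

/-- All cuts `1, ..., n` occur among the layers iff there are gaps between the levels. -/
theorem good_iff (h : RingHyp o p q) (hM : Fre o M c) (hnt : ∀ i < c, Nontrivial (M i))
    (hgen : ∀ i, i + 1 < c → br (ad i) ⊤ = ⊤) (n : ℕ) (hn : n < c)
    (I : Submodule (RR o c d) (NN ad c)) (hI : IsLat p I) :
    (∀ i, 1 ≤ i → i ≤ n → ∃ j, fl p I j = cutS p ad c i) ↔
      ∀ (k : ℕ) (hk : k + 1 < c), k < n → ∀ x ∈ comp I ⟨k, Nat.lt_of_succ_lt hk⟩, ∃ z : M k,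
        x = (p : o) ^ (expo p (comp I ⟨k + 1, hk⟩) + 1) • z := by
  constructor
  · intro hg k hk hkn x hx
    obtain ⟨j, hj⟩ := hg (k + 1) (by omega) (by omega)
    obtain ⟨ha, hb⟩ := (GDE.fl_eq_cut h hM I hI (k + 1) j).1 hj
    have h1 : expo p (comp I ⟨k + 1, hk⟩) ≤ j := ha ⟨k + 1, hk⟩ le_rfl
    obtain ⟨z, hz⟩ := hb ⟨k, Nat.lt_of_succ_lt hk⟩ (Nat.lt_succ_self k) x hx
    refine ⟨(p : o) ^ (j - expo p (comp I ⟨k + 1, hk⟩)) • z, ?_⟩
    rw [hz, smul_smul, ← pow_add]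
    congr 2
    omega
  · intro hg i hi1 hin
    refine ⟨expo p (comp I ⟨i, by omega⟩), (GDE.fl_eq_cut h hM I hI i _).2 ⟨?_, ?_⟩⟩
    · intro k hk
      exact GDE.expo_anti' h hM hgen I hI ⟨i, by omega⟩ k hk
    · rintro ⟨k, hkc⟩ hk x hx
      have hk' : k < i := hk
      have hk1 : k + 1 < c := by omega
      obtain ⟨z, hz⟩ := hg k hk1 (by omega) x hx
      have h1 : expo p (comp I ⟨i, by omega⟩) ≤ expo p (comp I ⟨k + 1, hk1⟩) :=
        GDE.expo_anti' h hM hgen I hI ⟨k + 1, hk1⟩ ⟨i, by omega⟩ hk'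
      refine ⟨(p : o) ^ (expo p (comp I ⟨k + 1, hk1⟩) - expo p (comp I ⟨i, by omega⟩)) • z, ?_⟩
      rw [hz, smul_smul, ← pow_add]
      congr 2
      omega

theorem lgs_good (h : RingHyp o p q) (hM : Fre o M c) (hnt : ∀ i < c, Nontrivial (M i))
    (hgen : ∀ i, i + 1 < c → br (ad i) ⊤ = ⊤) (n : ℕ) (hn : n < c) (hc : 0 < c) (r : ℕ)
    (P : (Lay (RR o c d) (NN ad c) p → ℕ) → Prop)
    (hP : ∀ I : Submodule (RR o c d) (NN ad c), IsLat p I →
      (P (lay p I) ↔ ∀ i, 1 ≤ i → i ≤ n → ∃ j, fl p I j = cutS p ad c i)) :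
    lgs p P (nuR q r hc) =
      gf (fun I : GG p ad n c => ∑ i, len q (I.1 i).1 + r * expo p (I.1 ⟨0, hc⟩).1) := by
  have key : ∀ I : Tup (c := c) ad, P (lay p (tupEquiv h hM I).1) ↔
      ∀ (i : ℕ) (h : i + 1 < c), i < n → ∀ x ∈ (I.1 ⟨i, Nat.lt_of_succ_lt h⟩).1, ∃ z : M i,
        x = (p : o) ^ (expo p (I.1 ⟨i + 1, h⟩).1 + 1) • z := by
    intro I
    rw [hP _ (tupEquiv h hM I).2, good_iff h hM hnt hgen n hn _ (tupEquiv h hM I).2]
    have hcomp : ∀ k : Fin c, comp (tupEquiv h hM I).1 k = (I.1 k).1 := fun k =>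
      comp_toS (ad := ad) (fun i => (I.1 i).1) I.2 k
    simp only [hcomp]
  have hclo : ∀ I : GG p ad n c, ∀ (i : ℕ) (h : i + 1 < c), ∀ j : Fin d,
      ∀ x ∈ (I.1 ⟨i, Nat.lt_of_succ_lt h⟩).1, ad i j x ∈ (I.1 ⟨i + 1, h⟩).1 := by
    intro I i hi j x hx
    by_cases hin : i < n
    · obtain ⟨z, hz⟩ := I.2.1 i hi hin x hx
      have hfi := hM.fin (i + 1) hi
      rw [hz, map_smul, pow_succ', mul_smul]
      exact Submodule.smul_mem _ _ (pow_expo_mem h _ (I.1 ⟨i + 1, hi⟩).2 _)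
    · exact I.2.2 i hi (by omega) j x hx
  rw [lgs_nuR h hM hc P r]
  let e : {I : Tup (c := c) ad // P (lay p (tupEquiv h hM I).1)} ≃ GG p ad n c :=
    { toFun := fun I => ⟨I.1.1, (key I.1).1 I.2, fun i hi _ j x hx => I.1.2 i hi j x hx⟩
      invFun := fun I => ⟨⟨I.1, hclo I⟩, (key ⟨I.1, hclo I⟩).2 I.2.1⟩
      left_inv := fun I => rfl
      right_inv := fun I => rfl }
  exact gf_equiv e (fun I : GG p ad n c =>
    ∑ i, len q (I.1 i).1 + r * expo p (I.1 ⟨0, hc⟩).1)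

end Pool.Agent.TZ8
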