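import Pool.Agent.TZ8.FL

set_option autoImplicit false

/-! Stretching a lattice at a rigid layer. -/

namespace Pool.Agent.TZ8

variable {R : Type} [Ring R] {N : Type} [AddCommGroup N] [Module R N] {p : ℕ}

/-- Rigidity for linear relations. -/
theorem LEN_rig_graph {V W : Submodule R N} (h : Rig p V W) (G : Submodule R (N × N))
    (htot : ∀ x ∈ V, ∃ n, (x, n) ∈ G)
    (hker : ∀ x n, x ∈ pN R N p 1 → (x, n) ∈ G → n ∈ W) :
    ∀ x ∈ V, ∀ n, (x, n) ∈ G → n ∈ W := by
  classical
  choose c hc using fun x : ↥V => htot x.1 x.2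
  have huniq : ∀ x n n', (x, n) ∈ G → (x, n') ∈ G → n - n' ∈ W := by
    intro x n n' h1 h2
    have h3 := G.sub_mem h1 h2
    rw [Prod.mk_sub_mk, sub_self] at h3
    exact hker 0 _ (Submodule.zero_mem _) h3
  have hf := h
    { toFun := fun x => W.mkQ (c x)
      map_add' := fun x y => by
        rw [← map_add]
        exact (Submodule.Quotient.eq W).mpr
          (huniq _ _ _ (hc (x + y)) (G.add_mem (hc x) (hc y)))
      map_smul' := fun r x => by
        rw [RingHom.id_apply, ← map_smul]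
        exact (Submodule.Quotient.eq W).mpr
          (huniq _ _ _ (hc (r • x)) (G.smul_mem r (hc x))) }
    (fun x hx => (Submodule.Quotient.mk_eq_zero W).mpr (hker _ _ hx (hc x)))
  intro x hx n hn
  have h1 : W.mkQ (c ⟨x, hx⟩) = 0 := hf ⟨x, hx⟩
  have h2 : c ⟨x, hx⟩ ∈ W := (Submodule.Quotient.mk_eq_zero W).mp h1
  have h3 := huniq _ _ _ hn (hc ⟨x, hx⟩)
  have := W.add_mem h3 h2
  rwa [sub_add_cancel] at this

theorem LEN_sat {U : Submodule R N} (hsat : ∀ x : N, p • x ∈ U → x ∈ U) (k : ℕ) (x : N)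
    (h : p ^ k • x ∈ U) : x ∈ U := by
  induction k with
  | zero => simpa using h
  | succ k ih =>
    apply ih
    apply hsat
    rwa [smul_smul, ← pow_succ']

theorem LEN_nsmul_mem (V : Submodule R N) {x : N} (h : x ∈ V) (k : ℕ) : k • x ∈ V :=
  V.toAddSubmonoid.nsmul_mem h k

theorem LEN_mem_sup {U : Submodule R N} {k : ℕ} {x : N} :
    x ∈ U ⊔ pN R N p k ↔ ∃ u ∈ U, ∃ n : N, x = u + p ^ k • n := by
  rw [Submodule.mem_sup]
  constructor
  · rintro ⟨u, hu, z, hz, rfl⟩
    obtain ⟨n, rfl⟩ := mem_pN.mp hz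
    exact ⟨u, hu, n, rfl⟩
  · rintro ⟨u, hu, n, rfl⟩
    exact ⟨u, hu, _, mem_pN.mpr ⟨n, rfl⟩, rfl⟩

/-- the relation used for the first containment -/
def LEN_G1 (p : ℕ) (U I : Submodule R N) (a y : ℕ) : Submodule R (N × N) where
  carrier := {v | ∃ u ∈ U, ∃ z : N, v.1 = u + p • z ∧ p ^ a • u - p ^ y • v.2 ∈ I}
  add_mem' := by
    rintro v w ⟨u, hu, z, h1, h2⟩ ⟨u', hu', z', h1', h2'⟩
    refine ⟨u + u', U.add_mem hu hu', z + z', ?_, ?_⟩
    · rw [Prod.fst_add, h1, h1', smul_add]
      abel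
    · have := I.add_mem h2 h2'
      rw [Prod.snd_add, smul_add, smul_add]
      convert this using 1
      abel
  zero_mem' := ⟨0, U.zero_mem, 0, by simp, by simp⟩
  smul_mem' := by
    rintro r v ⟨u, hu, z, h1, h2⟩
    refine ⟨r • u, U.smul_mem r hu, r • z, ?_, ?_⟩
    · rw [Prod.smul_fst, h1, smul_add, smul_comm r p]
    · have := I.smul_mem r h2
      rw [smul_sub, smul_comm r (p ^ a) u, smul_comm r (p ^ y) v.2] at this
      exact this

theorem LEN_mem_G1 {U I : Submodule R N} {a y : ℕ} {x n : N} :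
    (x, n) ∈ LEN_G1 p U I a y ↔
      ∃ u ∈ U, ∃ z : N, x = u + p • z ∧ p ^ a • u - p ^ y • n ∈ I := Iff.rfl

/-- First containment: a lift of a rigid layer is contained in the lattice, up to the number of
bad layers. -/
theorem len_mem (hN : NHyp R N p) {I : Submodule R N} (hI : IsLat p I) (U : Submodule R N)
    (hsat : ∀ x : N, p • x ∈ U → x ∈ U) (good : ℕ → Prop) (x : ℕ)
    (hg : ∀ j, x ≤ j → good j → Rig p (U ⊔ pN R N p 1) (fl p I j))
    (hbad : {j : ℕ | x ≤ j ∧ ¬ good j}.Finite) :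
    ∀ u ∈ U, p ^ (x + Nat.card {j : ℕ // x ≤ j ∧ ¬ good j}) • u ∈ I := by
  classical
  -- the partial counts
  have key : ∀ y, x ≤ y → ∀ u ∈ U, ∃ n : N,
      p ^ (x + ((Finset.Ico x y).filter fun j => ¬ good j).card) • u - p ^ y • n ∈ I := by
    intro y hy
    induction y, hy using Nat.le_induction with
    | base =>
      intro u _
      refine ⟨u, ?_⟩
      simp
    | succ y hy ih =>
      set a := x + ((Finset.Ico x y).filter fun j => ¬ good j).card with ha
      have hins : Finset.Ico x (y + 1) = insert y (Finset.Ico x y) :=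
        (Finset.insert_Ico_right_eq_Ico_add_one hy).symm
      intro u hu
      by_cases hgy : good y
      · have e1 : ((Finset.Ico x (y + 1)).filter fun j => ¬ good j).card =
            ((Finset.Ico x y).filter fun j => ¬ good j).card := by
          rw [hins, Finset.filter_insert, if_neg (not_not.mpr hgy)]
        rw [e1, ← ha]
        obtain ⟨n, hn⟩ := ih u hu
        have h1 := LEN_rig_graph (hg y hy hgy) (LEN_G1 p U I a y) (by
            intro v hv
            obtain ⟨u', hu', z, rfl⟩ := LEN_mem_sup.mp hv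
            obtain ⟨n', hn'⟩ := ih u' hu'
            exact ⟨n', LEN_mem_G1.mpr ⟨u', hu', z, by rw [pow_one], hn'⟩⟩) (by
            intro v n' hv hvn
            obtain ⟨u', hu', z, rfl, h2⟩ := LEN_mem_G1.mp hvn
            obtain ⟨w, hw⟩ := mem_pN.mp hv
            rw [pow_one] at hw
            have h3 : u' = p • (w - z) := by
              rw [smul_sub, ← hw]
              abel
            have h4 : w - z ∈ U := hsat _ (h3 ▸ hu')
            obtain ⟨n'', h5⟩ := ih _ h4
            refine mem_fl.mpr ⟨n' - p • n'', n'', by abel, ?_⟩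
            have h6 := LEN_nsmul_mem I h5 p
            have h7 := I.sub_mem h6 h2
            rw [h3] at h7
            convert h7 using 1
            simp only [smul_sub]
            rw [smul_comm p (p ^ y) n'', smul_comm (p ^ a) p w, smul_comm (p ^ a) p z]
            abel) u (Submodule.mem_sup_left hu) n
            (LEN_mem_G1.mpr ⟨u, hu, 0, by simp, hn⟩)
        obtain ⟨n1, z, rfl, h2⟩ := mem_fl.mp h1
        refine ⟨z, ?_⟩
        have h3 := I.add_mem hn h2
        convert h3 using 1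
        rw [smul_add, smul_smul, ← pow_succ]
        abel
      · have e1 : ((Finset.Ico x (y + 1)).filter fun j => ¬ good j).card =
            ((Finset.Ico x y).filter fun j => ¬ good j).card + 1 := by
          rw [hins, Finset.filter_insert, if_pos hgy, Finset.card_insert_of_notMem]
          simp
        rw [e1, ← add_assoc, ← ha]
        obtain ⟨n, hn⟩ := ih u hu
        refine ⟨n, ?_⟩
        have h3 := LEN_nsmul_mem I hn p
        rw [smul_sub, smul_smul, smul_smul, ← pow_succ', ← pow_succ'] at h3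
        exact h3
  obtain ⟨k, hk⟩ := hI
  -- a large bound
  obtain ⟨Y, hY1, hY2, hY3⟩ : ∃ Y, x ≤ Y ∧ k ≤ Y ∧ ∀ j, x ≤ j → ¬ good j → j < Y := by
    refine ⟨max (max x k) (hbad.toFinset.sup id + 1), ?_, ?_, ?_⟩
    · exact le_max_of_le_left (le_max_left _ _)
    · exact le_max_of_le_left (le_max_right _ _)
    · intro j h1 h2
      refine lt_max_of_lt_right (Nat.lt_succ_of_le ?_)
      exact Finset.le_sup (f := id) (hbad.mem_toFinset.mpr ⟨h1, h2⟩)
  have hcard : Nat.card {j : ℕ // x ≤ j ∧ ¬ good j} =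
      ((Finset.Ico x Y).filter fun j => ¬ good j).card := by
    refine Nat.subtype_card _ fun j => ?_
    rw [Finset.mem_filter, Finset.mem_Ico]
    exact ⟨fun h => ⟨h.1.1, h.2⟩, fun h => ⟨⟨h.1, hY3 j h.1 h.2⟩, h.2⟩⟩
  intro u hu
  obtain ⟨n, hn⟩ := key Y hY1 u hu
  rw [hcard]
  have h1 : p ^ Y • n ∈ I := hk (pN_anti hY2 (mem_pN.mpr ⟨n, rfl⟩))
  have := I.add_mem hn h1
  rwa [sub_add_cancel] at this

/-- the relation used for the second containment -/
def LEN_G2 (p : ℕ) (U I : Submodule R N) (j z : ℕ) : Submodule R (N × N) where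
  carrier := {v | ∃ x w : N, p ^ j • x ∈ I ∧ v.1 = x + p • w ∧ p ^ j • x - p ^ z • v.2 ∈ U}
  add_mem' := by
    rintro v v' ⟨x, w, h1, h2, h3⟩ ⟨x', w', h1', h2', h3'⟩
    refine ⟨x + x', w + w', ?_, ?_, ?_⟩
    · rw [smul_add]
      exact I.add_mem h1 h1'
    · rw [Prod.fst_add, h2, h2', smul_add]
      abel
    · have := U.add_mem h3 h3'
      rw [Prod.snd_add, smul_add, smul_add]
      convert this using 1
      abel
  zero_mem' := ⟨0, 0, by simp, by simp, by simp⟩
  smul_mem' := by
    rintro r v ⟨x, w, h1, h2, h3⟩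
    refine ⟨r • x, r • w, ?_, ?_, ?_⟩
    · rw [smul_comm]
      exact I.smul_mem r h1
    · rw [Prod.smul_fst, h2, smul_add, smul_comm r p]
    · have := U.smul_mem r h3
      rw [smul_sub, smul_comm r (p ^ j) x, smul_comm r (p ^ z) v.2] at this
      exact this

theorem LEN_mem_G2 {U I : Submodule R N} {j z : ℕ} {v n : N} :
    (v, n) ∈ LEN_G2 p U I j z ↔
      ∃ x w : N, p ^ j • x ∈ I ∧ v = x + p • w ∧ p ^ j • x - p ^ z • n ∈ U := Iff.rfl

/-- Second containment. -/
theorem len_le (hN : NHyp R N p) {I : Submodule R N} (hI : IsLat p I) (U : Submodule R N)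
    (hsat : ∀ x : N, p • x ∈ U → x ∈ U) (good : ℕ → Prop) (y : ℕ)
    (hg : ∀ j, j < y → good j → Rig p (fl p I j) (U ⊔ pN R N p 1)) :
    I ≤ U ⊔ pN R N p (y - Nat.card {j : ℕ // j < y ∧ ¬ good j}) := by
  classical
  have key : ∀ k, k ≤ y → ∀ x : N, p ^ (y - k) • x ∈ I →
      ∃ n : N, p ^ (y - k) • x -
        p ^ (y - ((Finset.Ico (y - k) y).filter fun j => ¬ good j).card) • n ∈ U := by
    intro k hk
    induction k with
    | zero =>
      intro x _
      refine ⟨x, ?_⟩
      simp
    | succ k ih =>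
      specialize ih (by omega)
      set j := y - (k + 1) with hj
      have hj1 : y - k = j + 1 := by omega
      have hjy : j < y := by omega
      rw [hj1] at ih
      set c := ((Finset.Ico (j + 1) y).filter fun j => ¬ good j).card with hc
      have hcle : c ≤ y - (j + 1) := by
        rw [hc]
        refine (Finset.card_filter_le _ _).trans ?_
        rw [Nat.card_Ico]
      obtain ⟨z, hz⟩ : ∃ z, y - c = z + 1 := ⟨y - c - 1, by omega⟩
      rw [hz] at ih
      have hins : Finset.Ico j y = insert j (Finset.Ico (j + 1) y) :=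
        (Finset.insert_Ico_add_one_left_eq_Ico hjy).symm
      -- the elements of the intersection
      have step : ∀ x : N, p ^ j • x ∈ I → ∃ n : N, p ^ j • x - p ^ z • n ∈ U := by
        intro x hx
        have h1 : p ^ (j + 1) • x ∈ I := by
          rw [pow_succ', ← smul_smul]
          exact LEN_nsmul_mem I hx p
        obtain ⟨n, hn⟩ := ih x h1
        refine ⟨n, hsat _ ?_⟩
        rw [smul_sub, smul_smul, smul_smul, ← pow_succ', ← pow_succ']
        exact hn
      intro x hx
      by_cases hgj : good j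
      · have e1 : ((Finset.Ico j y).filter fun j => ¬ good j).card = c := by
          rw [hins, Finset.filter_insert, if_neg (not_not.mpr hgj)]
        rw [e1, hz]
        obtain ⟨n, hn⟩ := step x hx
        have h1 := LEN_rig_graph (hg j hjy hgj) (LEN_G2 p U I j z) (by
            intro v hv
            obtain ⟨x', w, rfl, h2⟩ := mem_fl.mp hv
            obtain ⟨n', hn'⟩ := step x' h2
            exact ⟨n', LEN_mem_G2.mpr ⟨x', w, h2, rfl, hn'⟩⟩) (by
            intro v n' hv hvn
            obtain ⟨x', w, h2, rfl, h3⟩ := LEN_mem_G2.mp hvn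
            obtain ⟨w', hw'⟩ := mem_pN.mp hv
            rw [pow_one] at hw'
            have h4 : x' = p • (w' - w) := by
              rw [smul_sub, ← hw']
              abel
            have h5 : p ^ (j + 1) • (w' - w) ∈ I := by
              rw [pow_succ, ← smul_smul, ← h4]
              exact h2
            obtain ⟨n'', h6⟩ := ih _ h5
            rw [pow_succ p j, ← smul_smul, ← h4, pow_succ p z, ← smul_smul] at h6
            have h7 := U.sub_mem h6 h3
            have h8 : p ^ z • (n' - p • n'') ∈ U := by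
              convert h7 using 1
              rw [smul_sub]
              abel
            have h9 := LEN_sat hsat z _ h8
            rw [LEN_mem_sup]
            refine ⟨_, h9, n'', ?_⟩
            rw [pow_one]
            abel) x
            (mem_fl.mpr ⟨x, 0, by simp, hx⟩) n
            (LEN_mem_G2.mpr ⟨x, 0, hx, by simp, hn⟩)
        obtain ⟨u, hu, n1, rfl⟩ := LEN_mem_sup.mp h1
        refine ⟨n1, ?_⟩
        have h3 := U.add_mem hn (LEN_nsmul_mem U hu (p ^ z))
        convert h3 using 1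
        rw [smul_add, pow_one, smul_smul, ← pow_succ]
        abel
      · have e1 : ((Finset.Ico j y).filter fun j => ¬ good j).card = c + 1 := by
          rw [hins, Finset.filter_insert, if_pos hgj, Finset.card_insert_of_notMem]
          simp
        have e2 : y - (c + 1) = z := by omega
        rw [e1, e2]
        exact step x hx
  have hcard : Nat.card {j : ℕ // j < y ∧ ¬ good j} =
      ((Finset.Ico 0 y).filter fun j => ¬ good j).card := by
    refine Nat.subtype_card _ fun j => ?_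
    rw [Finset.mem_filter, Finset.mem_Ico]
    exact ⟨fun h => ⟨h.1.2, h.2⟩, fun h => ⟨⟨Nat.zero_le _, h.1⟩, h.2⟩⟩
  intro i hi
  obtain ⟨n, hn⟩ := key y le_rfl i (by simpa using hi)
  rw [Nat.sub_self, pow_zero, one_smul, ← hcard] at hn
  rw [LEN_mem_sup]
  exact ⟨_, hn, n, by abel⟩

theorem LEN_mem_stre {U I : Submodule R N} {s : ℕ} {x : N} :
    x ∈ stre p U s I ↔ ∃ u ∈ U, ∃ n : N, u + p ^ s • n ∈ I ∧ x = u + p ^ (s + 1) • n := Iff.rfl

/-- above the stretch -/
theorem LEN_stre_above (hN : NHyp R N p) {I : Submodule R N} (U : Submodule R N)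
    (hsat : ∀ x : N, p • x ∈ U → x ∈ U) (s : ℕ) (h1 : ∀ u ∈ U, p ^ s • u ∈ I) (j : ℕ)
    (hj : s ≤ j) (x : N) : p ^ (j + 1) • x ∈ stre p U s I ↔ p ^ j • x ∈ I := by
  obtain ⟨d, rfl⟩ := Nat.exists_eq_add_of_le hj
  constructor
  · intro h
    obtain ⟨u, hu, n, h2, h3⟩ := LEN_mem_stre.mp h
    have h4 : u = p ^ (s + 1) • (p ^ d • x - n) := by
      have : p ^ (s + d + 1) • x = p ^ (s + 1) • p ^ d • x := by
        rw [smul_smul, ← pow_add]
        congr 2
        omega
      rw [this] at h3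
      rw [smul_sub, h3]
      abel
    have h5 : p ^ d • x - n ∈ U := LEN_sat hsat (s + 1) _ (h4 ▸ hu)
    have h6 := h1 _ h5
    have h7 := I.sub_mem (I.add_mem h2 h6) (LEN_nsmul_mem I h6 p)
    convert h7 using 1
    rw [h4, pow_succ', ← smul_smul, smul_sub, smul_smul (p ^ s) (p ^ d), ← pow_add]
    abel
  · intro h
    refine LEN_mem_stre.mpr ⟨0, U.zero_mem, p ^ d • x, ?_, ?_⟩
    · rw [zero_add, smul_smul, ← pow_add]
      exact h
    · rw [zero_add, smul_smul, ← pow_add]
      congr 2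
      omega

/-- The flag of a stretched lattice. -/
theorem fl_stre (hN : NHyp R N p) {I : Submodule R N} (U : Submodule R N)
    (hsat : ∀ x : N, p • x ∈ U → x ∈ U) (s : ℕ) (h1 : ∀ u ∈ U, p ^ s • u ∈ I)
    (h2 : I ≤ U ⊔ pN R N p s) :
    (∀ j, j < s → fl p (stre p U s I) j = fl p I j) ∧
    fl p (stre p U s I) s = U ⊔ pN R N p 1 ∧
    (∀ j, s ≤ j → fl p (stre p U s I) (j + 1) = fl p I j) ∧
    (∀ u ∈ U, p ^ s • u ∈ stre p U s I) ∧ stre p U s I ≤ U ⊔ pN R N p (s + 1) := by
  have h4 : ∀ u ∈ U, p ^ s • u ∈ stre p U s I := by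
    intro u hu
    refine LEN_mem_stre.mpr ⟨p ^ s • u, LEN_nsmul_mem U hu _, 0, ?_, ?_⟩
    · rw [smul_zero, add_zero]
      exact h1 u hu
    · rw [smul_zero, add_zero]
  refine ⟨?_, ?_, ?_, h4, ?_⟩
  · intro j hj
    obtain ⟨d, rfl⟩ := Nat.exists_eq_add_of_lt hj
    ext x
    rw [mem_fl, mem_fl]
    constructor
    · rintro ⟨y, z, rfl, hy⟩
      obtain ⟨u, hu, n, h5, h6⟩ := LEN_mem_stre.mp hy
      have h7 : u = p ^ j • (y - p ^ (d + 2) • n) := by
        rw [smul_sub, h6, smul_smul, ← pow_add, show j + (d + 2) = j + d + 1 + 1 by ring]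
        abel
      refine ⟨y - p ^ (d + 2) • n + p ^ (d + 1) • n,
        z + p ^ (d + 1) • n - p ^ d • n, ?_, ?_⟩
      · rw [smul_sub, smul_add, smul_smul, smul_smul, ← pow_succ', ← pow_succ',
          show d + 1 + 1 = d + 2 by ring]
        abel
      · rw [smul_add, ← h7, smul_smul, ← pow_add, show j + (d + 1) = j + d + 1 by ring]
        exact h5
    · rintro ⟨y, z, rfl, hy⟩
      obtain ⟨u, hu, n, h5⟩ := LEN_mem_sup.mp (h2 hy)
      have h7 : u = p ^ j • (y - p ^ (d + 1) • n) := by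
        rw [smul_sub, h5, smul_smul, ← pow_add, show j + (d + 1) = j + d + 1 by ring]
        abel
      refine ⟨y - p ^ (d + 1) • n + p ^ (d + 2) • n,
        z - p ^ (d + 1) • n + p ^ d • n, ?_, ?_⟩
      · rw [smul_add, smul_sub, smul_smul, smul_smul, ← pow_succ', ← pow_succ',
          show d + 1 + 1 = d + 2 by ring]
        abel
      · refine LEN_mem_stre.mpr ⟨u, hu, n, ?_, ?_⟩
        · rw [← h5]
          exact hy
        · rw [smul_add, ← h7, smul_smul, ← pow_add,
            show j + (d + 2) = j + d + 1 + 1 by ring]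
  · ext x
    rw [mem_fl, LEN_mem_sup]
    constructor
    · rintro ⟨y, z, rfl, hy⟩
      obtain ⟨u, hu, n, h5, h6⟩ := LEN_mem_stre.mp hy
      have h7 : u = p ^ s • (y - p • n) := by
        rw [smul_sub, h6, smul_smul, ← pow_succ]
        abel
      refine ⟨y - p • n, LEN_sat hsat s _ (h7 ▸ hu), n + z, ?_⟩
      rw [pow_one, smul_add]
      abel
    · rintro ⟨u, hu, n, rfl⟩
      exact ⟨u, n, by rw [pow_one], h4 u hu⟩
  · intro j hj
    ext x
    rw [mem_fl, mem_fl]
    constructor
    · rintro ⟨y, z, rfl, hy⟩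
      exact ⟨y, z, rfl, (LEN_stre_above hN U hsat s h1 j hj y).mp hy⟩
    · rintro ⟨y, z, rfl, hy⟩
      exact ⟨y, z, rfl, (LEN_stre_above hN U hsat s h1 j hj y).mpr hy⟩
  · intro x hx
    obtain ⟨u, hu, n, -, rfl⟩ := LEN_mem_stre.mp hx
    exact LEN_mem_sup.mpr ⟨u, hu, n, rfl⟩

/-- the inverse of the stretching map -/
def LEN_inv (p : ℕ) (U : Submodule R N) (s : ℕ) (I : Submodule R N) : Submodule R N where
  carrier := {x | ∃ u ∈ U, ∃ n : N, u + p ^ (s + 1) • n ∈ I ∧ x = u + p ^ s • n}
  add_mem' := by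
    rintro x y ⟨u, hu, n, hn, rfl⟩ ⟨u', hu', n', hn', rfl⟩
    refine ⟨u + u', U.add_mem hu hu', n + n', ?_, ?_⟩
    · have := I.add_mem hn hn'
      rw [smul_add]
      convert this using 1
      abel
    · rw [smul_add]
      abel
  zero_mem' := ⟨0, U.zero_mem, 0, by simp, by simp⟩
  smul_mem' := by
    rintro r x ⟨u, hu, n, hn, rfl⟩
    refine ⟨r • u, U.smul_mem r hu, r • n, ?_, ?_⟩
    · have := I.smul_mem r hn
      rw [smul_add, smul_comm r (p ^ (s + 1)) n] at this
      exact this
    · rw [smul_add, smul_comm r (p ^ s) n]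

theorem LEN_mem_inv {U I : Submodule R N} {s : ℕ} {x : N} :
    x ∈ LEN_inv p U s I ↔ ∃ u ∈ U, ∃ n : N, u + p ^ (s + 1) • n ∈ I ∧ x = u + p ^ s • n :=
  Iff.rfl

/-- Stretching is a bijection. -/
theorem stre_bij (hN : NHyp R N p) (U : Submodule R N) (hsat : ∀ x : N, p • x ∈ U → x ∈ U)
    (s : ℕ) : Set.BijOn (stre p U s)
      {I : Submodule R N | (∀ u ∈ U, p ^ s • u ∈ I) ∧ I ≤ U ⊔ pN R N p s}
      {I : Submodule R N | (∀ u ∈ U, p ^ s • u ∈ I) ∧ I ≤ U ⊔ pN R N p (s + 1)} := by
  refine ⟨?_, ?_, ?_⟩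
  · rintro I ⟨h1, h2⟩
    exact (fl_stre hN U hsat s h1 h2).2.2.2
  · rintro I ⟨h1, h2⟩ I' ⟨h1', h2'⟩ hII
    -- one inclusion
    have aux : ∀ I I' : Submodule R N, I ≤ U ⊔ pN R N p s → (∀ u ∈ U, p ^ s • u ∈ I') →
        stre p U s I = stre p U s I' → I ≤ I' := by
      intro I I' h2 h1' h w hw
      obtain ⟨u, hu, n, rfl⟩ := LEN_mem_sup.mp (h2 hw)
      have h3 : u + p ^ (s + 1) • n ∈ stre p U s I' := by
        rw [← h]
        exact LEN_mem_stre.mpr ⟨u, hu, n, hw, rfl⟩
      obtain ⟨u', hu', n', h4, h5⟩ := LEN_mem_stre.mp h3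
      have h6 : u - u' = p ^ (s + 1) • (n' - n) := by
        rw [smul_sub, sub_eq_sub_iff_add_eq_add, h5]
        abel
      have h7 : n' - n ∈ U := LEN_sat hsat (s + 1) _ (h6 ▸ U.sub_mem hu hu')
      have h8 := h1' _ h7
      have h9 := I'.sub_mem (I'.add_mem h4 (LEN_nsmul_mem I' h8 p)) h8
      convert h9 using 1
      have h10 : u = u' + p ^ (s + 1) • (n' - n) := by
        rw [← h6]
        abel
      rw [h10, pow_succ', ← smul_smul, smul_sub (p ^ s)]
      abel
    exact le_antisymm (aux I I' h2 h1' hII) (aux I' I h2' h1 hII.symm)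
  · rintro I' ⟨h1, h2⟩
    refine ⟨LEN_inv p U s I', ⟨?_, ?_⟩, ?_⟩
    · intro u hu
      refine LEN_mem_inv.mpr ⟨p ^ s • u, LEN_nsmul_mem U hu _, 0, ?_, ?_⟩
      · rw [smul_zero, add_zero]
        exact h1 u hu
      · rw [smul_zero, add_zero]
    · intro x hx
      obtain ⟨u, hu, n, -, rfl⟩ := LEN_mem_inv.mp hx
      exact LEN_mem_sup.mpr ⟨u, hu, n, rfl⟩
    · ext x
      constructor
      · intro hx
        obtain ⟨u, hu, n, h3, rfl⟩ := LEN_mem_stre.mp hx
        obtain ⟨u', hu', n', h4, h5⟩ := LEN_mem_inv.mp h3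
        have h6 : u - u' = p ^ s • (n' - n) := by
          rw [smul_sub, sub_eq_sub_iff_add_eq_add, h5]
          abel
        have h7 : n' - n ∈ U := LEN_sat hsat s _ (h6 ▸ U.sub_mem hu hu')
        have h8 := h1 _ h7
        have h9 := I'.sub_mem (I'.add_mem h4 h8) (LEN_nsmul_mem I' h8 p)
        convert h9 using 1
        have h10 : u = u' + p ^ s • (n' - n) := by
          rw [← h6]
          abel
        rw [h10, pow_succ', ← smul_smul, ← smul_smul, smul_sub (p ^ s), smul_sub p]
        abel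
      · intro hx
        obtain ⟨u, hu, n, rfl⟩ := LEN_mem_sup.mp (h2 hx)
        exact LEN_mem_stre.mpr ⟨u, hu, n, LEN_mem_inv.mpr ⟨u, hu, n, hx, rfl⟩, rfl⟩

/-- the lengths of a stretched lattice -/
theorem LEN_lay_stre (hN : NHyp R N p) {I : Submodule R N} (hI : IsLat p I) (U : Submodule R N)
    (hsat : ∀ x : N, p • x ∈ U → x ∈ U) (s : ℕ) (h1 : ∀ u ∈ U, p ^ s • u ∈ I)
    (h2 : I ≤ U ⊔ pN R N p s) (V : Lay R N p) (hV : U ⊔ pN R N p 1 = V.1)
    [DecidableEq (Lay R N p)] :
    lay p (stre p U s I) = lay p I + Pi.single V 1 := by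
  classical
  obtain ⟨f1, f2, f3, -, -⟩ := fl_stre hN U hsat s h1 h2
  rw [hV] at f2
  funext W
  have hfin := finite_fl_eq hN hI W
  -- the set of indices
  set A : Set ℕ := {j | fl p I j = W.1} with hA
  have hAf : A.Finite := hfin
  have e1 : lay p I W = A.ncard := rfl
  have e2 : lay p (stre p U s I) W = {j | fl p (stre p U s I) j = W.1}.ncard := rfl
  have e3 : {j | fl p (stre p U s I) j = W.1} =
      ((fun j => if j < s then j else j + 1) '' A) ∪ (if V = W then {s} else ∅) := by
    ext j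
    rw [Set.mem_ofPred_eq, Set.mem_union, Set.mem_image]
    rcases lt_trichotomy j s with hj | hj | hj
    · rw [f1 j hj]
      constructor
      · intro h
        exact Or.inl ⟨j, h, if_pos hj⟩
      · rintro (⟨i, hi, h⟩ | h)
        · by_cases his : i < s
          · rw [if_pos his] at h
            rw [← h]
            exact hi
          · rw [if_neg his] at h
            omega
        · split_ifs at h with hVW
          · rw [Set.mem_singleton_iff] at h
            omega
          · exact absurd h (Set.notMem_empty _)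
    · subst hj
      rw [f2]
      constructor
      · intro h
        right
        rw [if_pos (Subtype.ext h)]
        rfl
      · rintro (⟨i, hi, h⟩ | h)
        · split_ifs at h with his
          · omega
          · omega
        · split_ifs at h with hVW
          · rw [hVW]
          · exact absurd h (Set.notMem_empty _)
    · obtain ⟨i, rfl⟩ : ∃ i, j = i + 1 := ⟨j - 1, by omega⟩
      rw [f3 i (by omega)]
      constructor
      · intro h
        exact Or.inl ⟨i, h, if_neg (by omega)⟩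
      · rintro (⟨i', hi, h⟩ | h)
        · by_cases his : i' < s
          · rw [if_pos his] at h
            omega
          · rw [if_neg his] at h
            have : i' = i := by omega
            rw [← this]
            exact hi
        · split_ifs at h with hVW
          · rw [Set.mem_singleton_iff] at h
            omega
          · exact absurd h (Set.notMem_empty _)
  have hinj : Function.Injective fun j : ℕ => if j < s then j else j + 1 := by
    intro a b h
    simp only at h
    split_ifs at h <;> omega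
  have hns : s ∉ (fun j => if j < s then j else j + 1) '' A := by
    rintro ⟨i, -, h⟩
    simp only at h
    split_ifs at h <;> omega
  rw [Pi.add_apply, e1, e2, e3]
  by_cases hVW : V = W
  · subst hVW
    rw [if_pos rfl, Pi.single_eq_same, Set.ncard_union_eq _ (hAf.image _) (Set.finite_singleton s),
      Set.ncard_image_of_injective A hinj, Set.ncard_singleton]
    rw [Set.disjoint_singleton_right]
    exact hns
  · rw [if_neg hVW, Set.union_empty, Set.ncard_image_of_injective A hinj,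
      Pi.single_eq_of_ne' hVW, add_zero]

/-- sums over subtypes -/
theorem LEN_finsum_sub {S : Type} [Fintype S] (P : S → Prop) [DecidablePred P] (l : S → ℕ) :
    ∑ᶠ W : {W : S // P W}, l W.1 = ∑ W ∈ Finset.univ.filter P, l W := by
  classical
  rw [finsum_eq_sum_of_fintype]
  exact (Finset.sum_subtype _ (fun x => by simp) l).symm

/-- the two containments -/
theorem LEN_contain (hN : NHyp R N p) (UU : Set (Lay R N p))
    (hrig : ∀ V ∈ UU, ∀ V' ∈ UU, V.1 ≤ V'.1 → Rig p V.1 V'.1)
    (l : Lay R N p → ℕ) (V : Lay R N p) (hV : V ∈ UU) (h1 : 1 ≤ l V)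
    (U : Submodule R N) (hsat : ∀ x : N, p • x ∈ U → x ∈ U) (hU : U ⊔ pN R N p 1 = V.1)
    {I : Submodule R N} (hI : IsLat p I) (hl : lay p I = l) :
    (∀ u ∈ U, p ^ (start l V + ∑ᶠ W : {W : Lay R N p // W ∉ UU ∧ V.1 < W.1}, l W.1) • u ∈ I) ∧
      I ≤ U ⊔ pN R N p (start l V + l V -
        ∑ᶠ W : {W : Lay R N p // W ∉ UU ∧ W.1 < V.1}, l W.1) := by
  classical
  have := finite_lay (R := R) (N := N) hN
  have := Fintype.ofFinite (Lay R N p)
  set good : ℕ → Prop := fun j => fl p I j = ⊤ ∨ ∃ W ∈ UU, fl p I j = W.1 with hgood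
  set x := start l V with hx
  have hpos : ∀ j, fl p I j = V.1 ↔ x ≤ j ∧ j < x + l V := by
    intro j
    rw [hx, ← hl]
    exact fl_eq_iff hN hI V j
  have hVx : fl p I x = V.1 := (hpos x).mpr ⟨le_rfl, by omega⟩
  constructor
  · have e1 : Nat.card {j : ℕ // x ≤ j ∧ ¬ good j} =
        ∑ᶠ W : {W : Lay R N p // W ∉ UU ∧ V.1 < W.1}, l W.1 := by
      have e2 := card_fl_eq hN hI (fun Y => V.1 < Y ∧ Y ≠ ⊤ ∧ ∀ W ∈ UU, Y ≠ W.1) (by simp)
      rw [hl, LEN_finsum_sub (fun W : Lay R N p => V.1 < W.1 ∧ W.1 ≠ ⊤ ∧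
        ∀ W' ∈ UU, W.1 ≠ W'.1) l] at e2
      rw [LEN_finsum_sub (fun W : Lay R N p => W ∉ UU ∧ V.1 < W.1) l]
      have e3 : Nat.card {j : ℕ // x ≤ j ∧ ¬ good j} =
          Nat.card {j : ℕ // V.1 < fl p I j ∧ fl p I j ≠ ⊤ ∧ ∀ W ∈ UU, fl p I j ≠ W.1} := by
        refine Nat.card_congr (Equiv.subtypeEquivRight fun j => ?_)
        constructor
        · rintro ⟨h2, h3⟩
          rw [hgood] at h3
          push Not at h3
          refine ⟨lt_of_le_of_ne ?_ (Ne.symm (h3.2 V hV)), h3.1, h3.2⟩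
          rw [← hVx]
          exact fl_mono I h2
        · rintro ⟨h2, h3, h4⟩
          constructor
          · by_contra h5
            have h6 := fl_mono (p := p) I (not_le.mp h5).le
            rw [hVx] at h6
            exact absurd h2 (not_lt_of_ge h6)
          · rw [hgood]
            push Not
            exact ⟨h3, h4⟩
      rw [e3, e2]
      refine Finset.sum_congr ?_ fun _ _ => rfl
      ext W
      rw [Finset.mem_filter, Finset.mem_filter]
      constructor
      · rintro ⟨-, h2, -, h4⟩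
        exact ⟨Finset.mem_univ _, fun h => h4 W h rfl, h2⟩
      · rintro ⟨-, h2, h3⟩
        exact ⟨Finset.mem_univ _, h3, W.2.2, fun W' h h' => h2 (Subtype.ext h' ▸ h)⟩
    rw [← e1]
    refine len_mem hN hI U hsat good x ?_ ?_
    · intro j hj hgj
      rw [hU]
      rcases hgj with h | ⟨W, hW, h⟩
      · rw [h]
        intro f _ v
        exact Subsingleton.elim _ _
      · rw [h]
        refine hrig V hV W hW ?_
        rw [← h, ← hVx]
        exact fl_mono I hj
    · obtain ⟨k, hk⟩ := hI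
      refine (Set.finite_Iio k).subset ?_
      rintro j ⟨-, h2⟩
      rw [Set.mem_Iio]
      by_contra h3
      apply h2
      left
      exact (fl_eq_top_iff hN ⟨k, hk⟩ j).mpr ((pN_anti (not_lt.mp h3)).trans hk)
  · have hlt : ∀ j, j < x + l V → fl p I j ≤ V.1 := by
      intro j hj
      have h2 : fl p I (x + l V - 1) = V.1 := (hpos _).mpr ⟨by omega, by omega⟩
      rw [← h2]
      exact fl_mono I (by omega)
    have e1 : Nat.card {j : ℕ // j < x + l V ∧ ¬ good j} =
        ∑ᶠ W : {W : Lay R N p // W ∉ UU ∧ W.1 < V.1}, l W.1 := by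
      have e2 := card_fl_eq hN hI (fun Y => Y < V.1 ∧ Y ≠ ⊤ ∧ ∀ W ∈ UU, Y ≠ W.1)
        (by simp)
      rw [hl, LEN_finsum_sub (fun W : Lay R N p => W.1 < V.1 ∧ W.1 ≠ ⊤ ∧
        ∀ W' ∈ UU, W.1 ≠ W'.1) l] at e2
      rw [LEN_finsum_sub (fun W : Lay R N p => W ∉ UU ∧ W.1 < V.1) l]
      have e3 : Nat.card {j : ℕ // j < x + l V ∧ ¬ good j} =
          Nat.card {j : ℕ // fl p I j < V.1 ∧ fl p I j ≠ ⊤ ∧ ∀ W ∈ UU, fl p I j ≠ W.1} := by
        refine Nat.card_congr (Equiv.subtypeEquivRight fun j => ?_)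
        constructor
        · rintro ⟨h2, h3⟩
          rw [hgood] at h3
          push Not at h3
          exact ⟨lt_of_le_of_ne (hlt j h2) (h3.2 V hV), h3.1, h3.2⟩
        · rintro ⟨h2, h3, h4⟩
          constructor
          · by_contra h5
            have h6 := fl_mono (p := p) I (show x ≤ j by omega)
            rw [hVx] at h6
            exact absurd h2 (not_lt_of_ge h6)
          · rw [hgood]
            push Not
            exact ⟨h3, h4⟩
      rw [e3, e2]
      refine Finset.sum_congr ?_ fun _ _ => rfl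
      ext W
      rw [Finset.mem_filter, Finset.mem_filter]
      constructor
      · rintro ⟨-, h2, -, h4⟩
        exact ⟨Finset.mem_univ _, fun h => h4 W h rfl, h2⟩
      · rintro ⟨-, h2, h3⟩
        exact ⟨Finset.mem_univ _, h3, W.2.2, fun W' h h' => h2 (Subtype.ext h' ▸ h)⟩
    rw [← e1]
    refine len_le hN hI U hsat good (x + l V) ?_
    intro j hj hgj
    rw [hU]
    rcases hgj with h | ⟨W, hW, h⟩
    · exfalso
      have h2 := hlt j hj
      rw [h] at h2
      exact V.2.2 (top_le_iff.mp h2)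
    · rw [h]
      refine hrig W hW V hV ?_
      rw [← h]
      exact hlt j hj

/-- The lengthening theorem: the number of lattices does not change when one layer is added to
a long enough rigid stretch. -/
theorem cnt_add_single (hN : NHyp R N p) (UU : Set (Lay R N p))
    (hsat : ∀ V ∈ UU, ∃ U : Submodule R N, (∀ x : N, p • x ∈ U → x ∈ U) ∧ U ⊔ pN R N p 1 = V.1)
    (hrig : ∀ V ∈ UU, ∀ V' ∈ UU, V.1 ≤ V'.1 → Rig p V.1 V'.1)
    (l : Lay R N p → ℕ) (V : Lay R N p) (hV : V ∈ UU) (h1 : 1 ≤ l V)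
    (h2 : ∑ᶠ W : {W : Lay R N p // W ∉ UU}, l W.1 ≤ l V) [DecidableEq (Lay R N p)] :
    cnt p (l + Pi.single V 1) = cnt p l := by
  classical
  have := finite_lay (R := R) (N := N) hN
  have := Fintype.ofFinite (Lay R N p)
  obtain ⟨U, hU1, hU2⟩ := hsat V hV
  set b := ∑ᶠ W : {W : Lay R N p // W ∉ UU ∧ V.1 < W.1}, l W.1 with hb
  set b' := ∑ᶠ W : {W : Lay R N p // W ∉ UU ∧ W.1 < V.1}, l W.1 with hb'
  have hbb : b + b' ≤ l V := by
    refine le_trans ?_ h2
    rw [hb, hb', LEN_finsum_sub (fun W : Lay R N p => W ∉ UU ∧ V.1 < W.1) l,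
      LEN_finsum_sub (fun W : Lay R N p => W ∉ UU ∧ W.1 < V.1) l,
      LEN_finsum_sub (fun W : Lay R N p => W ∉ UU) l, ← Finset.sum_union]
    · refine Finset.sum_le_sum_of_subset ?_
      intro W hW
      rw [Finset.mem_union, Finset.mem_filter, Finset.mem_filter] at hW
      rw [Finset.mem_filter]
      rcases hW with h | h
      · exact ⟨h.1, h.2.1⟩
      · exact ⟨h.1, h.2.1⟩
    · rw [Finset.disjoint_left]
      intro W hW hW'
      rw [Finset.mem_filter] at hW hW'
      exact lt_asymm hW.2.2 hW'.2.2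
  set s := start l V + b with hs
  -- the data do not change
  set l' : Lay R N p → ℕ := l + Pi.single V 1 with hl'
  have hsame : ∀ W, W ∉ UU → l' W = l W := by
    intro W hW
    have : V ≠ W := fun h => hW (h ▸ hV)
    rw [hl', Pi.add_apply, Pi.single_eq_of_ne' this, add_zero]
  have hstart : start l' V = start l V := by
    unfold start
    refine finsum_congr fun W => ?_
    have : V ≠ W.1 := by
      intro h
      have h3 := W.2
      rw [← h] at h3
      exact lt_irrefl _ h3
    rw [hl', Pi.add_apply, Pi.single_eq_of_ne' this, add_zero]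
  have hlV : l' V = l V + 1 := by
    rw [hl', Pi.add_apply, Pi.single_eq_same]
  have hc1 : ∀ I : Submodule R N, IsLat p I → lay p I = l →
      (∀ u ∈ U, p ^ s • u ∈ I) ∧ I ≤ U ⊔ pN R N p s := by
    intro I hI hl
    obtain ⟨h3, h4⟩ := LEN_contain hN UU hrig l V hV h1 U hU1 hU2 hI hl
    refine ⟨h3, h4.trans (sup_le_sup_left (pN_anti ?_) _)⟩
    rw [hs]
    omega
  have hc2 : ∀ I : Submodule R N, IsLat p I → lay p I = l' →
      (∀ u ∈ U, p ^ s • u ∈ I) ∧ I ≤ U ⊔ pN R N p (s + 1) := by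
    intro I hI hl
    obtain ⟨h3, h4⟩ := LEN_contain hN UU hrig l' V hV (by omega) U hU1 hU2 hI hl
    have e1 : ∑ᶠ W : {W : Lay R N p // W ∉ UU ∧ V.1 < W.1}, l' W.1 = b :=
      finsum_congr fun W => hsame _ W.2.1
    have e2 : ∑ᶠ W : {W : Lay R N p // W ∉ UU ∧ W.1 < V.1}, l' W.1 = b' :=
      finsum_congr fun W => hsame _ W.2.1
    rw [hstart, e1] at h3
    rw [hstart, e2, hlV] at h4
    refine ⟨h3, h4.trans (sup_le_sup_left (pN_anti ?_) _)⟩
    rw [hs]
    omega
  have hlat : ∀ I : Submodule R N, (∀ u ∈ U, p ^ s • u ∈ I) →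
      (IsLat p (stre p U s I) ↔ IsLat p I) := by
    intro I hI
    constructor
    · rintro ⟨k, hk⟩
      refine ⟨max k s, ?_⟩
      intro y hy
      obtain ⟨n, rfl⟩ := mem_pN.mp hy
      rw [← LEN_stre_above hN U hU1 s hI _ (le_max_right _ _)]
      exact hk (pN_anti (show k ≤ max k s + 1 by omega) (mem_pN.mpr ⟨n, rfl⟩))
    · rintro ⟨k, hk⟩
      refine ⟨max k s + 1, ?_⟩
      intro y hy
      obtain ⟨n, rfl⟩ := mem_pN.mp hy
      rw [LEN_stre_above hN U hU1 s hI _ (le_max_right _ _)]
      exact hk (pN_anti (le_max_left k s) (mem_pN.mpr ⟨n, rfl⟩))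
  have hbij : Set.BijOn (stre p U s) {I : Submodule R N | IsLat p I ∧ lay p I = l}
      {I : Submodule R N | IsLat p I ∧ lay p I = l'} := by
    have hB := stre_bij hN U hU1 s
    refine ⟨?_, ?_, ?_⟩
    · rintro I ⟨h3, h4⟩
      obtain ⟨h5, h6⟩ := hc1 I h3 h4
      refine ⟨(hlat I h5).mpr h3, ?_⟩
      rw [LEN_lay_stre hN h3 U hU1 s h5 h6 V hU2, h4]
    · exact hB.injOn.mono fun I hI => hc1 I hI.1 hI.2
    · rintro I' ⟨h3, h4⟩
      obtain ⟨I, ⟨h5, h6⟩, h7⟩ := hB.surjOn (hc2 I' h3 h4)
      subst h7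
      have h8 := (hlat I h5).mp h3
      refine ⟨I, ⟨h8, ?_⟩, rfl⟩
      rw [LEN_lay_stre hN h8 U hU1 s h5 h6 V hU2] at h4
      exact add_right_cancel h4
  unfold cnt
  exact congrArg Nat.cast (Nat.card_congr hbij.equiv.symm)

end Pool.Agent.TZ8
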