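import Pool.Agent.TZ8.COMB
import Pool.Agent.TZ8.LEN
import Pool.Agent.TZ8.GR4

set_option autoImplicit false

/-! The general theorem on leading coefficients of lattice zeta functions. -/

namespace Pool.Agent.TZ8

open Pool.Agent.TZ

variable {R : Type} [Ring R] {N : Type} [AddCommGroup N] [Module R N] {p : ℕ}

/-- The zeta function of the lattices whose multiplicity function satisfies `P`, with weights
`nu`. -/
noncomputable def lgs (p : ℕ) (P : (Lay R N p → ℕ) → Prop) (nu : Lay R N p → ℕ) :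
    PowerSeries ℤ :=
  PowerSeries.mk fun n => (Nat.card {I : Submodule R N // IsLat p I ∧ P (lay p I) ∧
    ∑ᶠ V, lay p I V * nu V = n} : ℤ)

/-- The layers of a lattice form a chain. -/
theorem isChain_lay {I : Submodule R N} {s : Set (Lay R N p)} (h : ∀ V ∈ s, lay p I V ≠ 0) :
    IsChain (· ≤ ·) ((fun V : Lay R N p => V.1) '' s) := by
  rintro _ ⟨V, hV, rfl⟩ _ ⟨W, hW, rfl⟩ -
  have h1 : ∀ X ∈ s, ∃ j : ℕ, fl p I j = X.1 := by
    intro X hX
    have h2 := h X hX
    have h3 : Nonempty {j : ℕ // fl p I j = X.1} := by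
      by_contra h3
      rw [not_nonempty_iff] at h3
      exact h2 (Nat.card_of_isEmpty)
    obtain ⟨j, hj⟩ := h3
    exact ⟨j, hj⟩
  obtain ⟨i, hi⟩ := h1 V hV
  obtain ⟨j, hj⟩ := h1 W hW
  simp only
  rw [← hi, ← hj]
  rcases le_total i j with h2 | h2
  · exact Or.inl (fl_mono I h2)
  · exact Or.inr (fl_mono I h2)

/-- If no lattice has the multiplicities `l` then `cnt p l = 0`. -/
theorem exists_of_cnt_ne_zero {l : Lay R N p → ℕ} (h : cnt p l ≠ 0) :
    ∃ I : Submodule R N, IsLat p I ∧ lay p I = l := by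
  by_contra h1
  apply h
  unfold cnt
  have : IsEmpty {I : Submodule R N // IsLat p I ∧ lay p I = l} :=
    ⟨fun I => h1 ⟨I.1, I.2⟩⟩
  rw [Nat.card_of_isEmpty]
  rfl

theorem finite_weight {S : Type} [Fintype S] (nu : S → ℕ) (hnu : ∀ V, 0 < nu V) (n : ℕ) :
    Finite {l : S → ℕ // ∑ V, l V * nu V = n} := by
  classical
  have : ∀ l : {l : S → ℕ // ∑ V, l V * nu V = n}, ∀ V, l.1 V < n + 1 := by
    rintro ⟨l, hl⟩ V
    have h1 : l V * nu V ≤ ∑ W, l W * nu W :=
      Finset.single_le_sum (f := fun W => l W * nu W) (fun _ _ => Nat.zero_le _)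
        (Finset.mem_univ V)
    have h2 : l V ≤ l V * nu V := Nat.le_mul_of_pos_right _ (hnu V)
    simp only
    omega
  refine Finite.of_injective
    (fun l : {l : S → ℕ // ∑ V, l V * nu V = n} => fun V : S => (⟨l.1 V, this l V⟩ : Fin (n + 1)))
    ?_
  intro l l' h
  apply Subtype.ext
  funext V
  have := congrFun h V
  simpa using this

theorem gs_eq_lgs (hN : NHyp R N p) [Fintype (Lay R N p)] (P : (Lay R N p → ℕ) → Prop)
    [DecidablePred P] (nu : Lay R N p → ℕ) (hnu : ∀ V, 0 < nu V) :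
    gs (fun l => if P l then cnt p l else 0) nu = lgs p P nu := by
  classical
  ext n
  unfold gs lgs
  rw [PowerSeries.coeff_mk, PowerSeries.coeff_mk]
  have := finite_weight nu hnu n
  let _ := Fintype.ofFinite {l : Lay R N p → ℕ // ∑ V, l V * nu V = n}
  rw [finsum_eq_sum_of_fintype]
  have : ∀ l : {l : Lay R N p → ℕ // ∑ V, l V * nu V = n},
      Finite {I : Submodule R N // IsLat p I ∧ P (lay p I) ∧ lay p I = l.1} := by
    intro l
    have := finite_lat_lay hN l.1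
    exact Finite.of_injective
      (fun I : {I : Submodule R N // IsLat p I ∧ P (lay p I) ∧ lay p I = l.1} =>
        (⟨I.1, I.2.1, I.2.2.2⟩ : {I : Submodule R N // IsLat p I ∧ lay p I = l.1}))
      (fun I I' h => Subtype.ext (congrArg (fun x => x.1) h))
  let e : {I : Submodule R N // IsLat p I ∧ P (lay p I) ∧ ∑ᶠ V, lay p I V * nu V = n} ≃
      Σ l : {l : Lay R N p → ℕ // ∑ V, l V * nu V = n},
        {I : Submodule R N // IsLat p I ∧ P (lay p I) ∧ lay p I = l.1} :=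
    { toFun := fun I => ⟨⟨lay p I.1, by
          have := I.2.2.2
          rwa [finsum_eq_sum_of_fintype] at this⟩, ⟨I.1, I.2.1, I.2.2.1, rfl⟩⟩
      invFun := fun x => ⟨x.2.1, x.2.2.1, x.2.2.2.1, by
          rw [finsum_eq_sum_of_fintype, x.2.2.2.2]
          exact x.1.2⟩
      left_inv := fun I => rfl
      right_inv := by
        rintro ⟨⟨l, hl⟩, ⟨I, h1, h2, h3⟩⟩
        simp only at h3
        subst h3
        rfl }
  rw [Nat.card_congr e, Nat.card_sigma]
  push_cast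
  refine Finset.sum_congr rfl fun l _ => ?_
  split_ifs with h
  · unfold cnt
    congr 1
    refine Nat.card_congr (Equiv.subtypeEquivRight fun I => ?_)
    constructor
    · rintro ⟨h1, h2⟩
      exact ⟨h1, by rw [h2]; exact h, h2⟩
    · rintro ⟨h1, _, h2⟩
      exact ⟨h1, h2⟩
  · have : IsEmpty {I : Submodule R N // IsLat p I ∧ P (lay p I) ∧ lay p I = l.1} :=
      ⟨fun I => h (by rw [← I.2.2.2]; exact I.2.2.1)⟩
    rw [Nat.card_of_isEmpty]
    rfl

theorem gen [Fact p.Prime] (hN : NHyp R N p) (UU : Finset (Lay R N p))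
    (hsat : ∀ V ∈ UU, ∃ U : Submodule R N, (∀ x : N, p • x ∈ U → x ∈ U) ∧ U ⊔ pN R N p 1 = V.1)
    (hrig : ∀ V ∈ UU, ∀ V' ∈ UU, V.1 ≤ V'.1 → Rig p V.1 V'.1)
    (hkill : ∀ V, V ∉ UU → Kill V)
    (P : (Lay R N p → ℕ) → Prop)
    (hP : ∀ l l' : Lay R N p → ℕ, (∀ V, l V = 0 ↔ l' V = 0) → P l → P l') :
    ∃ C : Finset (Lay R N p) → ℚ_[p],
      (∀ σ ⊆ UU, ¬ IsChain (· ≤ ·) ((fun V : Lay R N p => V.1) '' (σ : Set (Lay R N p))) →
        C σ = 0) ∧
      ∀ nu : Lay R N p → ℕ, (∀ V, 0 < nu V) → ∀ r : ℕ,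
        (∀ σ ⊆ UU, (∀ l, P l → (∀ V ∈ UU, l V ≠ 0 ↔ V ∈ σ) → r < σ.card →
          ¬ IsChain (· ≤ ·) ((fun V : Lay R N p => V.1) '' (σ : Set (Lay R N p))))) →
        Lead p r (lgs p P nu) (∑ σ ∈ UU.powersetCard r, C σ / ∏ V ∈ σ, (nu V : ℚ_[p])) := by
  classical
  have := finite_lay hN
  let _ := Fintype.ofFinite (Lay R N p)
  set c : (Lay R N p → ℕ) → ℤ := fun l => if P l then cnt p l else 0 with hc
  have hc0 : ∀ l, c l ≠ 0 → P l ∧ ∃ I : Submodule R N, IsLat p I ∧ lay p I = l := by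
    intro l hl
    simp only [hc] at hl
    by_cases h : P l
    · rw [if_pos h] at hl
      exact ⟨h, exists_of_cnt_ne_zero hl⟩
    · rw [if_neg h] at hl
      exact absurd rfl hl
  have hK : ∀ V, V ∉ UU → ∀ m : ℕ, ∃ g : ℕ, ∀ l : Lay R N p → ℕ, g ≤ l V →
      (p : ℤ) ^ m ∣ c l := by
    intro V hV m
    obtain ⟨g, hg⟩ := hkill V hV m
    refine ⟨g, fun l hl => ?_⟩
    simp only [hc]
    split_ifs
    · exact hg l hl
    · exact dvd_zero _
  have hS : ∀ V ∈ UU, ∀ B : ℕ, ∃ τ : ℕ, ∀ l : Lay R N p → ℕ, ∑ W ∈ UUᶜ, l W ≤ B → τ ≤ l V →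
      c (l + Pi.single V 1) = c l := by
    intro V hV B
    refine ⟨max B 1, fun l hB hl => ?_⟩
    have h1 : 1 ≤ l V := (le_max_right _ _).trans hl
    have h2 : ∑ᶠ W : {W : Lay R N p // W ∉ (UU : Set (Lay R N p))}, l W.1 ≤ l V := by
      refine le_trans (le_of_eq ?_) (hB.trans ((le_max_left _ _).trans hl))
      rw [finsum_eq_sum_of_fintype]
      refine (Finset.sum_subtype _ (fun x => ?_) _).symm
      simp
    have h3 := cnt_add_single hN (UU : Set (Lay R N p)) (fun V hV => hsat V hV)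
      (fun V hV V' hV' h => hrig V hV V' hV' h) l V hV h1 h2
    have h4 : ∀ W, (l + Pi.single V 1 : Lay R N p → ℕ) W = 0 ↔ l W = 0 := by
      intro W
      by_cases hW : W = V
      · subst hW
        simp only [Pi.add_apply, Pi.single_eq_same]
        omega
      · simp [hW]
    have h5 : P (l + Pi.single V 1) ↔ P l :=
      ⟨hP _ _ h4, hP _ _ fun W => (h4 W).symm⟩
    simp only [hc, h5, h3]
  obtain ⟨C, hC1, hC2⟩ := comb UU c hK hS
  refine ⟨C, fun σ hσ hch => hC1 σ hσ fun l hl => ?_, fun nu hnu r hr => ?_⟩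
  · by_contra h
    obtain ⟨-, I, -, rfl⟩ := hc0 l h
    exact hch (isChain_lay fun V hV => (hl V (hσ hV)).2 hV)
  · rw [← gs_eq_lgs hN P nu hnu]
    refine hC2 nu hnu r fun l hl => ?_
    by_contra h
    push Not at h
    obtain ⟨hPl, I, -, rfl⟩ := hc0 l hl
    refine hr (UU.filter fun V => lay p I V ≠ 0) (Finset.filter_subset _ _) _ hPl
      (fun V hV => ?_) h (isChain_lay (I := I) fun V hV => ?_)
    · simp [hV]
    · have := Finset.mem_coe.1 hV
      exact (Finset.mem_filter.1 this).2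

end Pool.Agent.TZ8
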