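import Pool.Agent.TZ8.FL
import Pool.Agent.TZ.Base
import Pool.Agent.TZ.LC

set_option autoImplicit false

/-! Killing of layers that are not invariant, by orbits of one-parameter groups. -/

namespace Pool.Agent.TZ8

open Pool.Agent.TZ

/-- The orbit of a point under `p o`, if the point is fixed by `p ^ K o`, has `p ^ j` elements, and
the point is fixed by `p ^ (j + 1) o`. -/
theorem orb_add {o : Type} [CommRing o] [IsDomain o] [IsDiscreteValuationRing o] {p q : ℕ}
    (h : RingHyp o p q) {Ω : Type} (act : o → Ω → Ω) (h0 : ∀ x, act 0 x = x)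
    (hadd : ∀ s t x, act (s + t) x = act s (act t x)) (ω : Ω) (K : ℕ)
    (hK : ∀ t : o, act ((p : o) ^ K * t) ω = ω) :
    ∃ j : ℕ, Nat.card {x : Ω // ∃ t : o, x = act ((p : o) * t) ω} = p ^ j ∧
      ∀ t : o, act ((p : o) ^ (j + 1) * t) ω = ω := by
  classical
  have hp : Fact p.Prime := ⟨h.prime⟩
  -- the stabiliser
  let S : AddSubgroup o :=
    { carrier := {t | act ((p : o) * t) ω = ω}
      add_mem' := by
        intro a b ha hb
        change act ((p : o) * (a + b)) ω = ω
        change act ((p : o) * a) ω = ω at ha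
        change act ((p : o) * b) ω = ω at hb
        rw [mul_add, hadd, hb, ha]
      zero_mem' := by
        change act ((p : o) * 0) ω = ω
        rw [mul_zero, h0]
      neg_mem' := by
        intro a ha
        change act ((p : o) * a) ω = ω at ha
        change act ((p : o) * (-a)) ω = ω
        calc act ((p : o) * (-a)) ω = act ((p : o) * (-a)) (act ((p : o) * a) ω) := by rw [ha]
          _ = act ((p : o) * (-a) + (p : o) * a) ω := (hadd _ _ _).symm
          _ = ω := by rw [mul_neg, neg_add_cancel, h0] }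
  have hSmem : ∀ t, t ∈ S ↔ act ((p : o) * t) ω = ω := fun t => Iff.rfl
  have hS : ∀ t : o, (p : o) ^ K * t ∈ S := by
    intro t
    rw [hSmem]
    have := hK ((p : o) * t)
    rw [show (p : o) * ((p : o) ^ K * t) = (p : o) ^ K * ((p : o) * t) by ring]
    exact this
  -- the quotient is finite
  have hfin : Finite (o ⧸ S) := by
    have hc := LC.card_res_pow h K
    have hq : 0 < q ^ K := pow_pos (lt_trans zero_lt_one h.one_lt) K
    have : Finite (o ⧸ Ideal.span {(p : o) ^ K}) := Nat.finite_of_card_ne_zero (by omega)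
    refine Finite.of_surjective
      (fun c : o ⧸ Ideal.span {(p : o) ^ K} => (QuotientAddGroup.mk (Quotient.out c) : o ⧸ S)) ?_
    intro y
    obtain ⟨a, rfl⟩ := QuotientAddGroup.mk_surjective y
    refine ⟨Submodule.Quotient.mk (p := Ideal.span {(p : o) ^ K}) a, ?_⟩
    have e1 : Submodule.Quotient.mk (p := Ideal.span {(p : o) ^ K})
        (Quotient.out (Submodule.Quotient.mk (p := Ideal.span {(p : o) ^ K}) a)) =
        Submodule.Quotient.mk (p := Ideal.span {(p : o) ^ K}) a := Quotient.out_eq _
    rw [Submodule.Quotient.eq, Ideal.mem_span_singleton'] at e1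
    obtain ⟨t, ht⟩ := e1
    refine (QuotientAddGroup.eq).2 ?_
    have h2 := hS (-t)
    have h3 : -(Quotient.out (Submodule.Quotient.mk (p := Ideal.span {(p : o) ^ K}) a)) + a =
        (p : o) ^ K * (-t) := by
      rw [mul_neg, mul_comm, ht]
      ring
    rw [h3]
    exact h2
  -- the quotient is a p-group
  have hpk : ∀ x : o ⧸ S, p ^ K • x = 0 := by
    intro x
    obtain ⟨a, rfl⟩ := QuotientAddGroup.mk_surjective x
    have h1 : (p ^ K • (QuotientAddGroup.mk a : o ⧸ S)) = QuotientAddGroup.mk (p ^ K • a) := rfl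
    rw [h1, QuotientAddGroup.eq_zero_iff, nsmul_eq_mul, Nat.cast_pow]
    exact hS a
  obtain ⟨j, hj⟩ : ∃ j : ℕ, Nat.card (o ⧸ S) = p ^ j := by
    have h1 : IsPGroup p (Multiplicative (o ⧸ S)) := by
      intro g
      refine ⟨K, ?_⟩
      have := hpk (Multiplicative.toAdd g)
      exact this
    have : Finite (Multiplicative (o ⧸ S)) := hfin
    obtain ⟨j, hj⟩ := (IsPGroup.iff_card (p := p) (G := Multiplicative (o ⧸ S))).1 h1
    exact ⟨j, hj⟩
  refine ⟨j, ?_, ?_⟩
  · rw [← hj]
    symm
    refine Nat.card_congr (Equiv.ofBijective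
      (fun c : o ⧸ S => (⟨act ((p : o) * Quotient.out c) ω, Quotient.out c, rfl⟩ :
        {x : Ω // ∃ t : o, x = act ((p : o) * t) ω})) ?_)
    have key : ∀ a b : o, act ((p : o) * a) ω = act ((p : o) * b) ω ↔
        (QuotientAddGroup.mk a : o ⧸ S) = QuotientAddGroup.mk b := by
      intro a b
      rw [QuotientAddGroup.eq, hSmem]
      constructor
      · intro e
        calc act ((p : o) * (-a + b)) ω = act ((p : o) * (-a) + (p : o) * b) ω := by rw [mul_add]
          _ = act ((p : o) * (-a)) (act ((p : o) * b) ω) := hadd _ _ _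
          _ = act ((p : o) * (-a)) (act ((p : o) * a) ω) := by rw [e]
          _ = act ((p : o) * (-a) + (p : o) * a) ω := (hadd _ _ _).symm
          _ = ω := by rw [mul_neg, neg_add_cancel, h0]
      · intro e
        calc act ((p : o) * a) ω = act ((p : o) * a) (act ((p : o) * (-a + b)) ω) := by rw [e]
          _ = act ((p : o) * a + (p : o) * (-a + b)) ω := (hadd _ _ _).symm
          _ = act ((p : o) * b) ω := by
            congr 1
            ring
    constructor
    · intro c c' e
      have e1 := congrArg Subtype.val e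
      simp only at e1
      have e2 := (key _ _).1 e1
      rw [QuotientAddGroup.out_eq', QuotientAddGroup.out_eq'] at e2
      exact e2
    · rintro ⟨x, t, rfl⟩
      refine ⟨QuotientAddGroup.mk t, ?_⟩
      apply Subtype.ext
      simp only
      exact (key _ _).2 (QuotientAddGroup.out_eq' _)
  · intro t
    have h1 : (p ^ j • (QuotientAddGroup.mk t : o ⧸ S)) = 0 := by
      rw [← hj]
      exact card_nsmul_eq_zero'
    have h2 : (p ^ j • (QuotientAddGroup.mk t : o ⧸ S)) = QuotientAddGroup.mk (p ^ j • t) := rfl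
    rw [h2, QuotientAddGroup.eq_zero_iff, nsmul_eq_mul, Nat.cast_pow, hSmem] at h1
    rw [pow_succ', mul_assoc]
    exact h1

variable {R : Type} [Ring R] {N : Type} [AddCommGroup N] [Module R N] {p : ℕ}

/-- The killing condition: the number of lattices with a long stretch at `V` is divisible by a
high power of `p`. -/
def Kill (V : Lay R N p) : Prop :=
  ∀ m : ℕ, ∃ g : ℕ, ∀ l : Lay R N p → ℕ, g ≤ l V → (p : ℤ) ^ m ∣ cnt p l

/-- A finite type that is a union of classes of size divisible by `m` has size divisible by `m`. -/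
private theorem orb_dvd_card_of_classes {Ω : Type} [Finite Ω] (m : ℕ) (r : Setoid Ω)
    (hd : ∀ x, m ∣ Nat.card {y : Ω // r x y}) : m ∣ Nat.card Ω := by
  classical
  have := Fintype.ofFinite Ω
  rw [Nat.card_eq_fintype_card, ← Finset.card_univ,
    Finset.card_eq_sum_card_image (Quotient.mk r) (Finset.univ : Finset Ω)]
  refine Finset.dvd_sum fun c hc => ?_
  obtain ⟨x, hx, rfl⟩ := Finset.mem_image.1 hc
  have h : Nat.card {y : Ω // r x y}
      = ((Finset.univ : Finset Ω).filter fun y => Quotient.mk r y = Quotient.mk r x).card := by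
    refine Nat.subtype_card _ fun y => ?_
    rw [Finset.mem_filter]
    constructor
    · rintro ⟨-, hy⟩
      exact r.symm (Quotient.exact hy)
    · intro hy
      exact ⟨Finset.mem_univ _, Quotient.sound (r.symm hy)⟩
  rw [← h]
  exact hd x

theorem kill_of_orbit {o : Type} [CommRing o] [IsDomain o] [IsDiscreteValuationRing o] {q : ℕ}
    (h : RingHyp o p q) (hN : NHyp R N p)
    (act : o → Submodule R N → Submodule R N) (h0 : ∀ I, act 0 I = I)
    (hadd : ∀ s t I, act (s + t) I = act s (act t I))
    (hlat : ∀ t I, IsLat p I → IsLat p (act t I))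
    (hfl : ∀ (t : o) I, IsLat p I → ∀ j, fl p (act ((p : o) * t) I) j = fl p I j)
    (htriv : ∀ (k : ℕ) (t : o) I, pN R N p k ≤ I → act ((p : o) ^ k * t) I = I)
    (V : Lay R N p)
    (hV : ∀ m : ℕ, 1 ≤ m → ∃ g : ℕ, ∀ (I : Submodule R N) (x : ℕ), IsLat p I →
      (∀ j, x ≤ j → j < x + g → fl p I j = V.1) → ¬ ∀ t : o, act ((p : o) ^ m * t) I = I) :
    Kill V := by
  classical
  intro m
  rcases Nat.eq_zero_or_pos m with rfl | hm
  · exact ⟨0, fun l _ => by simp⟩
  obtain ⟨g, hg⟩ := hV m hm
  refine ⟨g, fun l hl => ?_⟩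
  have hsuff : p ^ m ∣ Nat.card {I : Submodule R N // IsLat p I ∧ lay p I = l} := by
    have := finite_lat_lay hN l
    let r : Setoid {I : Submodule R N // IsLat p I ∧ lay p I = l} :=
      { r := fun I J => ∃ t : o, J.1 = act ((p : o) * t) I.1
        iseqv := by
          refine ⟨?_, ?_, ?_⟩
          · intro I
            exact ⟨0, by rw [mul_zero, h0]⟩
          · rintro I J ⟨t, ht⟩
            refine ⟨-t, ?_⟩
            rw [ht, ← hadd, mul_neg, neg_add_cancel, h0]
          · rintro I J L ⟨t, ht⟩ ⟨s, hs⟩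
            refine ⟨s + t, ?_⟩
            rw [hs, ht, ← hadd, mul_add] }
    refine orb_dvd_card_of_classes (p ^ m) r fun I => ?_
    obtain ⟨⟨I, hI, hIl⟩, rfl⟩ : ∃ J : {I : Submodule R N // IsLat p I ∧ lay p I = l}, J = I :=
      ⟨I, rfl⟩
    obtain ⟨K, hK⟩ := hI
    obtain ⟨j, hj, hjt⟩ := orb_add h act h0 hadd I K fun t => htriv K t I hK
    have hcard : Nat.card {y : {I : Submodule R N // IsLat p I ∧ lay p I = l} //
        r ⟨I, ⟨K, hK⟩, hIl⟩ y} = p ^ j := by
      rw [← hj]
      refine Nat.card_congr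
        { toFun := fun y => ⟨y.1.1, y.2⟩
          invFun := fun x => ⟨⟨x.1, ?_, ?_⟩, x.2⟩
          left_inv := fun y => rfl
          right_inv := fun x => rfl }
      · obtain ⟨x, t, rfl⟩ := x
        exact hlat _ _ ⟨K, hK⟩
      · obtain ⟨x, t, rfl⟩ := x
        rw [← hIl]
        exact lay_congr fun j => hfl t I ⟨K, hK⟩ j
    rw [hcard]
    apply pow_dvd_pow
    by_contra hlt
    push Not at hlt
    refine hg I (start (lay p I) V) ⟨K, hK⟩ ?_ ?_
    · intro i hi1 hi2
      refine (fl_eq_iff hN ⟨K, hK⟩ V i).2 ⟨hi1, ?_⟩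
      rw [hIl] at hi2 ⊢
      omega
    · intro t
      have h1 := hjt ((p : o) ^ (m - (j + 1)) * t)
      rw [← mul_assoc, ← pow_add, show j + 1 + (m - (j + 1)) = m by omega] at h1
      exact h1
  unfold cnt
  exact_mod_cast hsuff

end Pool.Agent.TZ8
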