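import Pool.Agent.TZ8.GR3
import Pool.Agent.TZ8.ORB

set_option autoImplicit false

/-! Killing of non invariant layers for a tower with a one-parameter group. -/

namespace Pool.Agent.TZ8

open Pool.Agent.TZ

namespace GR6

variable {o : Type} [CommRing o] {d : ℕ}
  {M : ℕ → Type} [∀ i, AddCommGroup (M i)] [∀ i, Module o (M i)]
  {ad : ∀ i, Fin d → M i →ₗ[o] M (i + 1)} {c : ℕ}

/-- The transformed family is closed. -/
theorem act_clo (gam : o → ∀ i, M i →ₗ[o] M i)
    (hbr : ∀ t i, i + 1 < c → ∀ N : Submodule o (M i),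
      br (ad i) (N.map (gam t i)) ≤ (br (ad i) N).map (gam t (i + 1)))
    (t : o) (I : Submodule (RR o c d) (NN ad c)) :
    Clo ad c (fun i : Fin c => (comp I i).map (gam t i)) := by
  intro i h j x hx
  have h1 : ad i j x ∈ br (ad i) ((comp I ⟨i, Nat.lt_of_succ_lt h⟩).map (gam t i)) :=
    (le_iSup (fun j => ((comp I ⟨i, Nat.lt_of_succ_lt h⟩).map (gam t i)).map (ad i j)) j)
      (Submodule.mem_map_of_mem hx)
  have h2 := hbr t i h _ h1
  have h3 : br (ad i) (comp I ⟨i, Nat.lt_of_succ_lt h⟩) ≤ comp I ⟨i + 1, h⟩ := by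
    apply iSup_le
    intro j'
    rintro _ ⟨y, hy, rfl⟩
    exact comp_clo I i h j' y hy
  exact Submodule.map_mono h3 h2

/-- The action of the one-parameter group on submodules. -/
noncomputable def act (gam : o → ∀ i, M i →ₗ[o] M i)
    (hbr : ∀ t i, i + 1 < c → ∀ N : Submodule o (M i),
      br (ad i) (N.map (gam t i)) ≤ (br (ad i) N).map (gam t (i + 1)))
    (t : o) (I : Submodule (RR o c d) (NN ad c)) : Submodule (RR o c d) (NN ad c) :=
  toS (fun i : Fin c => (comp I i).map (gam t i)) (act_clo gam hbr t I)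

variable (gam : o → ∀ i, M i →ₗ[o] M i)
    (hbr : ∀ t i, i + 1 < c → ∀ N : Submodule o (M i),
      br (ad i) (N.map (gam t i)) ≤ (br (ad i) N).map (gam t (i + 1)))

theorem comp_act (t : o) (I : Submodule (RR o c d) (NN ad c)) (i : Fin c) :
    comp (act gam hbr t I) i = (comp I i).map (gam t i) := comp_toS _ _ i

theorem act_zero (h0 : ∀ i < c, gam 0 i = LinearMap.id) (I : Submodule (RR o c d) (NN ad c)) :
    act gam hbr 0 I = I := by
  apply comp_inj
  intro i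
  rw [comp_act, h0 i i.2, Submodule.map_id]

theorem act_add (hadd : ∀ s t, ∀ i < c, gam (s + t) i = gam s i ∘ₗ gam t i) (s t : o)
    (I : Submodule (RR o c d) (NN ad c)) :
    act gam hbr (s + t) I = act gam hbr s (act gam hbr t I) := by
  apply comp_inj
  intro i
  rw [comp_act, comp_act, comp_act, hadd s t i i.2, Submodule.map_comp]

theorem gam_neg (h0 : ∀ i < c, gam 0 i = LinearMap.id)
    (hadd : ∀ s t, ∀ i < c, gam (s + t) i = gam s i ∘ₗ gam t i) (t : o) (i : ℕ) (hi : i < c)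
    (x : M i) : gam t i (gam (-t) i x) = x := by
  have h := hadd t (-t) i hi
  rw [add_neg_cancel, h0 i hi] at h
  have h' := LinearMap.congr_fun h x
  exact h'.symm

theorem mem_act (h0 : ∀ i < c, gam 0 i = LinearMap.id)
    (hadd : ∀ s t, ∀ i < c, gam (s + t) i = gam s i ∘ₗ gam t i) (t : o)
    (I : Submodule (RR o c d) (NN ad c)) (i : Fin c) (x : M i) :
    x ∈ comp (act gam hbr t I) i ↔ gam (-t) i x ∈ comp I i := by
  rw [comp_act]
  constructor
  · rintro ⟨y, hy, rfl⟩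
    have h := gam_neg gam h0 hadd (-t) i i.2 y
    rw [neg_neg] at h
    rw [h]
    exact hy
  · intro hx
    exact ⟨_, hx, gam_neg gam h0 hadd t i i.2 x⟩

theorem mem_comp_of_pN {p k : ℕ} {I : Submodule (RR o c d) (NN ad c)}
    (hI : pN (RR o c d) (NN ad c) p k ≤ I) (i : Fin c) (y : M i) : (p : o) ^ k • y ∈ comp I i :=
  comp_le_iff.1 hI i (mem_comp_pN.2 ⟨y, rfl⟩)

theorem act_lat (h0 : ∀ i < c, gam 0 i = LinearMap.id)
    (hadd : ∀ s t, ∀ i < c, gam (s + t) i = gam s i ∘ₗ gam t i) {p : ℕ} (t : o)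
    (I : Submodule (RR o c d) (NN ad c)) (hI : IsLat p I) : IsLat p (act gam hbr t I) := by
  obtain ⟨k, hk⟩ := hI
  refine ⟨k, comp_le_iff.2 ?_⟩
  intro i x hx
  obtain ⟨y, rfl⟩ := mem_comp_pN.1 hx
  rw [mem_act gam hbr h0 hadd, map_smul]
  exact mem_comp_of_pN hk i _

theorem act_triv (h0 : ∀ i < c, gam 0 i = LinearMap.id)
    (hadd : ∀ s t, ∀ i < c, gam (s + t) i = gam s i ∘ₗ gam t i)
    (D : ∀ i, M i →ₗ[o] M i)
    (hD : ∀ t, ∀ i < c, ∀ x : M i, ∃ y : M i, gam t i x = x + t • D i x + t ^ 2 • y)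
    {p : ℕ} (k : ℕ) (t : o) (I : Submodule (RR o c d) (NN ad c))
    (hI : pN (RR o c d) (NN ad c) p k ≤ I) : act gam hbr ((p : o) ^ k * t) I = I := by
  have key : ∀ (t : o) (i : Fin c) (x : M i), gam ((p : o) ^ k * t) i x - x ∈ comp I i := by
    intro t i x
    obtain ⟨y, hy⟩ := hD ((p : o) ^ k * t) i i.2 x
    have h1 : gam ((p : o) ^ k * t) i x - x =
        (p : o) ^ k • (t • D i x + (t * ((p : o) ^ k * t)) • y) := by
      rw [hy, smul_add, smul_smul, smul_smul]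
      have : ((p : o) ^ k * t) ^ 2 = (p : o) ^ k * (t * ((p : o) ^ k * t)) := by ring
      rw [this]
      abel
    rw [h1]
    exact mem_comp_of_pN hI i _
  apply comp_inj
  intro i
  ext x
  rw [mem_act gam hbr h0 hadd]
  have h2 : -((p : o) ^ k * t) = (p : o) ^ k * (-t) := by ring
  rw [h2]
  constructor
  · intro hx
    have h3 := (comp I i).sub_mem hx (key (-t) i x)
    rwa [sub_sub_cancel] at h3
  · intro hx
    have h3 := (comp I i).add_mem (key (-t) i x) hx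
    rwa [sub_add_cancel] at h3

theorem act_fl_le (h0 : ∀ i < c, gam 0 i = LinearMap.id)
    (hadd : ∀ s t, ∀ i < c, gam (s + t) i = gam s i ∘ₗ gam t i)
    (D : ∀ i, M i →ₗ[o] M i)
    (hD : ∀ t, ∀ i < c, ∀ x : M i, ∃ y : M i, gam t i x = x + t • D i x + t ^ 2 • y)
    {p : ℕ} (t : o) (I : Submodule (RR o c d) (NN ad c)) (j : ℕ) :
    fl p (act gam hbr ((p : o) * t) I) j ≤ fl p I j := by
  rw [comp_le_iff]
  intro i x hx
  obtain ⟨y, z, rfl, hy⟩ := mem_comp_fl.1 hx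
  rw [mem_act gam hbr h0 hadd, map_smul] at hy
  obtain ⟨y', hy'⟩ := hD (-((p : o) * t)) i i.2 y
  refine mem_comp_fl.2 ⟨_, z + (t • D i y - (t * ((p : o) * t)) • y'), ?_, hy⟩
  rw [hy']
  have h1 : (-((p : o) * t)) ^ 2 = (p : o) * (t * ((p : o) * t)) := by ring
  rw [h1, neg_smul, mul_smul, mul_smul (p : o) (t * ((p : o) * t)), smul_add, smul_sub]
  abel

theorem act_fl (h0 : ∀ i < c, gam 0 i = LinearMap.id)
    (hadd : ∀ s t, ∀ i < c, gam (s + t) i = gam s i ∘ₗ gam t i)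
    (D : ∀ i, M i →ₗ[o] M i)
    (hD : ∀ t, ∀ i < c, ∀ x : M i, ∃ y : M i, gam t i x = x + t • D i x + t ^ 2 • y)
    {p : ℕ} (t : o) (I : Submodule (RR o c d) (NN ad c)) (j : ℕ) :
    fl p (act gam hbr ((p : o) * t) I) j = fl p I j := by
  apply le_antisymm (act_fl_le gam hbr h0 hadd D hD t I j)
  have h1 : act gam hbr ((p : o) * (-t)) (act gam hbr ((p : o) * t) I) = I := by
    rw [← act_add gam hbr hadd]
    have h2 : (p : o) * (-t) + (p : o) * t = 0 := by ring
    rw [h2, act_zero gam hbr h0]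
  have h3 := act_fl_le gam hbr h0 hadd D hD (p := p) (-t) (act gam hbr ((p : o) * t) I) j
  rwa [h1] at h3

theorem stable_of_fixed
    (D : ∀ i, M i →ₗ[o] M i)
    (hD : ∀ t, ∀ i < c, ∀ x : M i, ∃ y : M i, gam t i x = x + t • D i x + t ^ 2 • y)
    {p : ℕ} (V : Submodule (RR o c d) (NN ad c)) (m : ℕ) (hm : 1 ≤ m)
    (I : Submodule (RR o c d) (NN ad c)) (x : ℕ)
    (hfl : ∀ j, x ≤ j → j < x + (m + 1) → fl p I j = V)
    (hfix : ∀ t : o, act gam hbr ((p : o) ^ m * t) I = I) (i : Fin c) (v : M i)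
    (hv : v ∈ comp V i) : D i v ∈ comp V i := by
  have h1 := hfl x le_rfl (by omega)
  have h2 := hfl (x + m) (by omega) (by omega)
  rw [← h1] at hv
  obtain ⟨y, z, rfl, hy⟩ := mem_comp_fl.1 hv
  obtain ⟨y', hy'⟩ := hD ((p : o) ^ m * 1) i i.2 y
  have h3 : gam ((p : o) ^ m * 1) i ((p : o) ^ x • y) ∈ comp I i := by
    have h4 : gam ((p : o) ^ m * 1) i ((p : o) ^ x • y) ∈
        comp (act gam hbr ((p : o) ^ m * 1) I) i := by
      rw [comp_act]
      exact Submodule.mem_map_of_mem hy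
    rwa [hfix 1] at h4
  have h5 := (comp I i).sub_mem h3 hy
  have h6 : gam ((p : o) ^ m * 1) i ((p : o) ^ x • y) - (p : o) ^ x • y =
      (p : o) ^ (x + m) • (D i y + (p : o) ^ m • y') := by
    rw [map_smul, hy', pow_add, mul_one, smul_add, smul_add, smul_add, smul_smul, smul_smul,
      smul_smul]
    have h7 : (p : o) ^ x * ((p : o) ^ m) ^ 2 = (p : o) ^ x * (p : o) ^ m * (p : o) ^ m := by ring
    rw [h7]
    abel
  rw [h6] at h5
  rw [← h2]
  refine mem_comp_fl.2 ⟨_, D i z - (p : o) ^ (m - 1) • y', ?_, h5⟩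
  rw [map_add, map_smul, smul_sub, smul_smul, ← pow_succ', Nat.sub_add_cancel hm]
  abel

end GR6

variable {o : Type} [CommRing o] [IsDomain o] [IsDiscreteValuationRing o] {p q : ℕ} {d : ℕ}
  {M : ℕ → Type} [∀ i, AddCommGroup (M i)] [∀ i, Module o (M i)]
  {ad : ∀ i, Fin d → M i →ₗ[o] M (i + 1)} {c : ℕ}

/-- The layers which are not stable under the derivation `D` of a one-parameter group are
killed. -/
theorem kill_of_not_stable (h : RingHyp o p q) (hM : Fre o M c)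
    (gam : o → ∀ i, M i →ₗ[o] M i) (h0 : ∀ i < c, gam 0 i = LinearMap.id)
    (hadd : ∀ s t, ∀ i < c, gam (s + t) i = gam s i ∘ₗ gam t i)
    (hbr : ∀ t i, i + 1 < c → ∀ N : Submodule o (M i),
      br (ad i) (N.map (gam t i)) ≤ (br (ad i) N).map (gam t (i + 1)))
    (D : ∀ i, M i →ₗ[o] M i)
    (hD : ∀ t, ∀ i < c, ∀ x : M i, ∃ y : M i, gam t i x = x + t • D i x + t ^ 2 • y)
    (V : Lay (RR o c d) (NN ad c) p)
    (hV : ¬ ∀ i : Fin c, ∀ x ∈ comp V.1 i, D i x ∈ comp V.1 i) :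
    Kill V := by
  refine kill_of_orbit h (nHyp h hM) (GR6.act gam hbr) (GR6.act_zero gam hbr h0)
    (GR6.act_add gam hbr hadd) (fun t I hI => GR6.act_lat gam hbr h0 hadd t I hI)
    (fun t I _ j => GR6.act_fl gam hbr h0 hadd D hD t I j)
    (fun k t I hI => GR6.act_triv gam hbr h0 hadd D hD k t I hI) V ?_
  intro m hm
  refine ⟨m + 1, ?_⟩
  intro I x _ hfl hfix
  exact hV (fun i v hv => GR6.stable_of_fixed gam hbr D hD V.1 m hm I x hfl hfix i v hv)

end Pool.Agent.TZ8
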