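import Pool.Agent.TZ8.LFam
import Pool.Agent.TZ.LC

set_option autoImplicit false
set_option linter.unusedSectionVars false

/-! Basic facts on coefficients in the model. -/

namespace Pool.Agent.TZ8

open Pool.Agent.TZ

theorem cm_dg (k a b : ℕ) (h : cm k a b ≠ 0) : dg (k + 1) b = dg k a + 1 := by
  unfold cm at h
  split at h <;> first | rfl | exact absurd rfl h

theorem cc_dg (k a b : ℕ) (h : cc k a b ≠ 0) : dg (k + 1) b + 1 = dg k a := by
  unfold cc at h
  split at h <;> first | rfl | exact absurd rfl h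

variable {o : Type} [CommRing o]

theorem cf_eq {k : ℕ} (x : MT o k) (a : Fin (nc k)) (i : Fin (dg k a + 1)) :
    cf x a i = x a i := by
  unfold cf
  rw [dif_pos ⟨a.2, i.2⟩]

theorem cf_of_lt {k : ℕ} (x : MT o k) (a i : ℕ) (ha : a < nc k) (hi : i < dg k a + 1) :
    cf x a i = x ⟨a, ha⟩ ⟨i, hi⟩ := by
  unfold cf
  rw [dif_pos ⟨ha, hi⟩]

theorem cf_deg {k : ℕ} (x : MT o k) (a i : ℕ) (h : dg k a < i) : cf x a i = 0 := by
  unfold cf
  rw [dif_neg]
  omega

theorem cf_nc {k : ℕ} (x : MT o k) (a i : ℕ) (h : nc k ≤ a) : cf x a i = 0 := by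
  unfold cf
  rw [dif_neg]
  omega

theorem cf_zero {k : ℕ} (a i : ℕ) : cf (0 : MT o k) a i = 0 := by
  unfold cf
  split_ifs <;> rfl

theorem cf_neg {k : ℕ} (x : MT o k) (a i : ℕ) : cf (-x) a i = - cf x a i := by
  unfold cf
  split_ifs <;> simp

theorem cf_sub {k : ℕ} (x y : MT o k) (a i : ℕ) : cf (x - y) a i = cf x a i - cf y a i := by
  unfold cf
  split_ifs <;> simp

theorem MT_ext {k : ℕ} {x y : MT o k} (h : ∀ a i, a < nc k → i ≤ dg k a → cf x a i = cf y a i) :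
    x = y := by
  funext a i
  rw [← cf_eq x, ← cf_eq y]
  exact h a i a.2 (Nat.lt_succ_iff.1 i.2)

theorem mulC_of_gt {k : ℕ} (x : MT o k) (a j l : ℕ) (h : dg k a + 1 < l) : mulC x a j l = 0 := by
  unfold mulC
  split_ifs with h1 h2
  · exact cf_deg _ _ _ (by omega)
  · rfl
  · exact cf_deg _ _ _ (by omega)

theorem conC_of_gt {k : ℕ} (x : MT o k) (a j l : ℕ) (h : dg k a < l + 1) :
    conC x a j l = 0 := by
  unfold conC
  split_ifs with h1
  · rw [cf_deg _ _ _ h, mul_zero, neg_zero]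
  · rcases Nat.lt_or_ge (dg k a) l with h2 | h2
    · rw [cf_deg _ _ _ h2, mul_zero]
    · rw [show dg k a - l = 0 by omega, Nat.cast_zero, zero_mul]

/-- The coefficients of `adT o k j x`. -/
theorem cf_adT (k : ℕ) (j : Fin 2) (x : MT o k) (b l : ℕ) (hb : b < nc (k + 1)) :
    cf (adT o k j x) b l = ∑ a : Fin (nc k),
      ((cm k a b : o) * mulC x a j l + (cc k a b : o) * conC x a j l) := by
  rcases Nat.lt_or_ge l (dg (k + 1) b + 1) with hl | hl
  · rw [cf_of_lt _ _ _ hb hl]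
    rfl
  · rw [cf_deg _ _ _ hl]
    symm
    refine Finset.sum_eq_zero fun a _ => ?_
    have h1 : (cm k a b : o) * mulC x a j l = 0 := by
      by_cases h : cm k a b = 0
      · rw [h, Int.cast_zero, zero_mul]
      · have := cm_dg _ _ _ h
        rw [mulC_of_gt _ _ _ _ (by omega), mul_zero]
    have h2 : (cc k a b : o) * conC x a j l = 0 := by
      by_cases h : cc k a b = 0
      · rw [h, Int.cast_zero, zero_mul]
      · have := cc_dg _ _ _ h
        rw [conC_of_gt _ _ _ _ (by omega), mul_zero]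
    rw [h1, h2, add_zero]

theorem cf_opE (k : ℕ) (x : MT o k) (a l : ℕ) :
    cf (opE o k x) a l = ((l + 1 : ℕ) : o) * cf x a (l + 1) := by
  by_cases h : a < nc k ∧ l < dg k a + 1
  · rw [cf_of_lt _ _ _ h.1 h.2]
    rfl
  · have h1 : cf (opE o k x) a l = 0 := by
      unfold cf
      rw [dif_neg h]
    have h2 : cf x a (l + 1) = 0 := by
      unfold cf
      rw [dif_neg]
      omega
    rw [h1, h2, mul_zero]

theorem cf_opF (k : ℕ) (x : MT o k) (a l : ℕ) :
    cf (opF o k x) a l = if l = 0 then 0 else ((dg k a + 1 - l : ℕ) : o) * cf x a (l - 1) := by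
  by_cases h : a < nc k ∧ l < dg k a + 1
  · rw [cf_of_lt _ _ _ h.1 h.2]
    rfl
  · have h1 : cf (opF o k x) a l = 0 := by
      unfold cf
      rw [dif_neg h]
    rw [h1]
    split_ifs with h2
    · rfl
    · rcases Nat.lt_or_ge a (nc k) with h3 | h3
      · rcases Nat.lt_or_ge (dg k a + 1) l with h4 | h4
        · rw [cf_deg _ _ _ (by omega), mul_zero]
        · rw [show dg k a + 1 - l = 0 by omega, Nat.cast_zero, zero_mul]
      · rw [cf_nc _ _ _ h3, mul_zero]

theorem mem_coB (s : ℕ → ℕ → Bool) (k : ℕ) (x : MT o k) :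
    x ∈ coB o s k ↔ ∀ a, a < nc k → s k a = false → ∀ i, cf x a i = 0 := by
  constructor
  · intro hx a ha hs i
    unfold cf
    split_ifs with h
    · have := hx ⟨a, ha⟩ hs
      rw [this]
      rfl
    · rfl
  · intro hx a hs
    funext i
    rw [← cf_eq x]
    exact hx a a.2 hs i

theorem mem_coP (p : ℕ) (s : ℕ → ℕ → Bool) (k : ℕ) (x : MT o k) :
    x ∈ coP o p s k ↔ ∀ a, a < nc k → s k a = false → ∀ i, (p : o) ∣ cf x a i := by
  constructor
  · intro hx a ha hs i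
    unfold cf
    split_ifs with h
    · exact hx ⟨a, ha⟩ hs ⟨i, h.2⟩
    · exact dvd_zero _
  · intro hx a hs i
    rw [← cf_eq x]
    exact hx a a.2 hs i

theorem exists_smul_iff (p : ℕ) {k : ℕ} (x : MT o k) :
    (∃ y : MT o k, x = (p : o) • y) ↔ ∀ a, a < nc k → ∀ i, (p : o) ∣ cf x a i := by
  constructor
  · rintro ⟨y, rfl⟩ a _ i
    rw [cf_smul]
    exact dvd_mul_right _ _
  · intro hx
    have h1 : ∀ (a : Fin (nc k)) (i : Fin (dg k a + 1)), ∃ c, x a i = (p : o) * c := by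
      intro a i
      rw [← cf_eq x]
      exact hx a a.2 i
    choose y hy using h1
    exact ⟨y, by funext a i; exact hy a i⟩

/-- The basis vector. -/
def bv (o : Type) [CommRing o] (k a i : ℕ) : MT o k :=
  fun b l => if (b : ℕ) = a ∧ (l : ℕ) = i then 1 else 0

theorem cf_bv (k a i b l : ℕ) (ha : a < nc k) (hi : i ≤ dg k a) :
    cf (bv o k a i) b l = if b = a ∧ l = i then 1 else 0 := by
  unfold cf
  split_ifs with h1 h2 h3
  · simp [bv, h2]
  · simp only [bv]
    rw [if_neg h2]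
  · exfalso
    apply h1
    obtain ⟨rfl, rfl⟩ := h3
    exact ⟨ha, by omega⟩
  · rfl

theorem eq_sum_bv {k : ℕ} (x : MT o k) :
    x = ∑ a : Fin (nc k), ∑ i : Fin (dg k a + 1), x a i • bv o k a i := by
  funext b l
  rw [Finset.sum_apply, Finset.sum_apply, Finset.sum_eq_single b]
  · rw [Finset.sum_apply, Finset.sum_apply, Finset.sum_eq_single l]
    · simp [bv]
    · intro i _ hi
      have : ¬ ((l : ℕ) = i) := fun h => hi (Fin.ext h.symm)
      simp [bv, this]
    · intro h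
      exact absurd (Finset.mem_univ _) h
  · intro a _ ha
    have : ¬ ((b : ℕ) = a) := fun h => ha (Fin.ext h.symm)
    rw [Finset.sum_apply, Finset.sum_apply]
    refine Finset.sum_eq_zero fun i _ => ?_
    simp [bv, this]
  · intro h
    exact absurd (Finset.mem_univ _) h

theorem ad0_0 (j : Fin 2) (x : MT o 0) (l : ℕ) :
    cf (adT o 0 j x) 0 l = conC x 0 j l := by
  rw [cf_adT 0 j x 0 l (by decide)]
  refine (Fin.sum_univ_one _).trans ?_
  simp [cm, cc, add_comm]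

theorem ad1_0 (j : Fin 2) (x : MT o 1) (l : ℕ) :
    cf (adT o 1 j x) 0 l = mulC x 0 j l := by
  rw [cf_adT 1 j x 0 l (by decide)]
  refine (Fin.sum_univ_one _).trans ?_
  simp [cm, cc, add_comm]

theorem ad2_0 (j : Fin 2) (x : MT o 2) (l : ℕ) :
    cf (adT o 2 j x) 0 l = mulC x 0 j l := by
  rw [cf_adT 2 j x 0 l (by decide)]
  refine (Fin.sum_univ_one _).trans ?_
  simp [cm, cc, add_comm]

theorem ad3_0 (j : Fin 2) (x : MT o 3) (l : ℕ) :
    cf (adT o 3 j x) 0 l = mulC x 0 j l := by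
  rw [cf_adT 3 j x 0 l (by decide)]
  refine (Fin.sum_univ_one _).trans ?_
  simp [cm, cc, add_comm]

theorem ad3_1 (j : Fin 2) (x : MT o 3) (l : ℕ) :
    cf (adT o 3 j x) 1 l = conC x 0 j l := by
  rw [cf_adT 3 j x 1 l (by decide)]
  refine (Fin.sum_univ_one _).trans ?_
  simp [cm, cc, add_comm]

theorem ad4_0 (j : Fin 2) (x : MT o 4) (l : ℕ) :
    cf (adT o 4 j x) 0 l = mulC x 0 j l := by
  rw [cf_adT 4 j x 0 l (by decide)]
  refine (Fin.sum_univ_two _).trans ?_
  simp [cm, cc, add_comm]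

theorem ad4_1 (j : Fin 2) (x : MT o 4) (l : ℕ) :
    cf (adT o 4 j x) 1 l = 5 * conC x 0 j l + 4 * mulC x 1 j l := by
  rw [cf_adT 4 j x 1 l (by decide)]
  refine (Fin.sum_univ_two _).trans ?_
  simp [cm, cc, add_comm]

theorem ad4_2 (j : Fin 2) (x : MT o 4) (l : ℕ) :
    cf (adT o 4 j x) 2 l = conC x 1 j l := by
  rw [cf_adT 4 j x 2 l (by decide)]
  refine (Fin.sum_univ_two _).trans ?_
  simp [cm, cc, add_comm]

theorem ad5_0 (j : Fin 2) (x : MT o 5) (l : ℕ) :
    cf (adT o 5 j x) 0 l = mulC x 0 j l := by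
  rw [cf_adT 5 j x 0 l (by decide)]
  refine (Fin.sum_univ_three _).trans ?_
  simp [cm, cc, add_comm]

theorem ad5_1 (j : Fin 2) (x : MT o 5) (l : ℕ) :
    cf (adT o 5 j x) 1 l = conC x 0 j l := by
  rw [cf_adT 5 j x 1 l (by decide)]
  refine (Fin.sum_univ_three _).trans ?_
  simp [cm, cc, add_comm]

theorem ad5_2 (j : Fin 2) (x : MT o 5) (l : ℕ) :
    cf (adT o 5 j x) 2 l = 3 * conC x 0 j l + mulC x 1 j l := by
  rw [cf_adT 5 j x 2 l (by decide)]
  refine (Fin.sum_univ_three _).trans ?_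
  simp [cm, cc, add_comm]

theorem ad5_3 (j : Fin 2) (x : MT o 5) (l : ℕ) :
    cf (adT o 5 j x) 3 l = conC x 1 j l + 3 * mulC x 2 j l := by
  rw [cf_adT 5 j x 3 l (by decide)]
  refine (Fin.sum_univ_three _).trans ?_
  simp [cm, cc, add_comm]

theorem ad5_4 (j : Fin 2) (x : MT o 5) (l : ℕ) :
    cf (adT o 5 j x) 4 l = mulC x 2 j l := by
  rw [cf_adT 5 j x 4 l (by decide)]
  refine (Fin.sum_univ_three _).trans ?_
  simp [cm, cc, add_comm]

theorem ad6_0 (j : Fin 2) (x : MT o 6) (l : ℕ) :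
    cf (adT o 6 j x) 0 l = mulC x 0 j l := by
  rw [cf_adT 6 j x 0 l (by decide)]
  refine (Fin.sum_univ_five _).trans ?_
  simp [cm, cc, add_comm]

theorem ad6_1 (j : Fin 2) (x : MT o 6) (l : ℕ) :
    cf (adT o 6 j x) 1 l = 7 * conC x 0 j l + 3 * mulC x 1 j l := by
  rw [cf_adT 6 j x 1 l (by decide)]
  refine (Fin.sum_univ_five _).trans ?_
  simp [cm, cc, add_comm]

theorem ad6_2 (j : Fin 2) (x : MT o 6) (l : ℕ) :
    cf (adT o 6 j x) 2 l = mulC x 2 j l := by
  rw [cf_adT 6 j x 2 l (by decide)]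
  refine (Fin.sum_univ_five _).trans ?_
  simp [cm, cc, add_comm]

theorem ad6_3 (j : Fin 2) (x : MT o 6) (l : ℕ) :
    cf (adT o 6 j x) 3 l = conC x 1 j l := by
  rw [cf_adT 6 j x 3 l (by decide)]
  refine (Fin.sum_univ_five _).trans ?_
  simp [cm, cc, add_comm]

theorem ad6_4 (j : Fin 2) (x : MT o 6) (l : ℕ) :
    cf (adT o 6 j x) 4 l = conC x 2 j l := by
  rw [cf_adT 6 j x 4 l (by decide)]
  refine (Fin.sum_univ_five _).trans ?_
  simp [cm, cc, add_comm]

theorem ad6_5 (j : Fin 2) (x : MT o 6) (l : ℕ) :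
    cf (adT o 6 j x) 5 l = mulC x 3 j l := by
  rw [cf_adT 6 j x 5 l (by decide)]
  refine (Fin.sum_univ_five _).trans ?_
  simp [cm, cc, add_comm]

theorem ad6_6 (j : Fin 2) (x : MT o 6) (l : ℕ) :
    cf (adT o 6 j x) 6 l = mulC x 4 j l := by
  rw [cf_adT 6 j x 6 l (by decide)]
  refine (Fin.sum_univ_five _).trans ?_
  simp [cm, cc, add_comm]

theorem ad6_7 (j : Fin 2) (x : MT o 6) (l : ℕ) :
    cf (adT o 6 j x) 7 l = conC x 3 j l := by
  rw [cf_adT 6 j x 7 l (by decide)]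
  refine (Fin.sum_univ_five _).trans ?_
  simp [cm, cc, add_comm]

end Pool.Agent.TZ8
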