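import Pool.Agent.TZ.LieDefs

set_option autoImplicit false

/-!
The explicit model of the components of degrees `1, ..., 8` of the free Lie algebra on two
generators by binary forms. Level `k` is the component of degree `k + 1`.
-/

namespace Pool.Agent.TZ8

/-- The number of summands of level `k`. -/
def nc : ℕ → ℕ
  | 0 => 1
  | 1 => 1
  | 2 => 1
  | 3 => 1
  | 4 => 2
  | 5 => 3
  | 6 => 5
  | 7 => 8
  | _ => 0

/-- The degree of the binary forms in the summand `a` of level `k`. -/
def dg : ℕ → ℕ → ℕ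
  | 0, 0 => 1
  | 2, 0 => 1
  | 3, 0 => 2
  | 4, 0 => 3
  | 4, 1 => 1
  | 5, 0 => 4
  | 5, 1 => 2
  | 6, 0 => 5
  | 6, 1 => 3
  | 6, 2 => 3
  | 6, 3 => 1
  | 6, 4 => 1
  | 7, 0 => 6
  | 7, 1 => 4
  | 7, 2 => 4
  | 7, 3 => 2
  | 7, 4 => 2
  | 7, 5 => 2
  | 7, 6 => 2
  | _, _ => 0

/-- The coefficient of the multiplication of forms by linear forms, from the summand `a` of level
`k` to the summand `b` of level `k + 1`. -/
def cm : ℕ → ℕ → ℕ → ℤ
  | 1, 0, 0 => 1
  | 2, 0, 0 => 1
  | 3, 0, 0 => 1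
  | 4, 0, 0 => 1
  | 4, 1, 1 => 4
  | 5, 0, 0 => 1
  | 5, 1, 2 => 1
  | 5, 2, 3 => 3
  | 5, 2, 4 => 1
  | 6, 0, 0 => 1
  | 6, 1, 1 => 3
  | 6, 2, 2 => 1
  | 6, 3, 5 => 1
  | 6, 4, 6 => 1
  | _, _, _ => 0

/-- The coefficient of the contraction of forms with linear forms, from the summand `a` of level
`k` to the summand `b` of level `k + 1`. -/
def cc : ℕ → ℕ → ℕ → ℤ
  | 0, 0, 0 => 1
  | 3, 0, 1 => 1
  | 4, 0, 1 => 5
  | 4, 1, 2 => 1
  | 5, 0, 1 => 1
  | 5, 0, 2 => 3
  | 5, 1, 3 => 1
  | 6, 0, 1 => 7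
  | 6, 1, 3 => 1
  | 6, 2, 4 => 1
  | 6, 3, 7 => 1
  | _, _, _ => 0

/-- Level `k` of the model: the value of `x` at `a`, `i` is the coefficient of `X ^ (n - i) Y ^ i`
(`n = dg k a`) of the form in the summand `a`. -/
abbrev MT (o : Type) (k : ℕ) : Type := ∀ a : Fin (nc k), Fin (dg k a + 1) → o

section

variable {o : Type} [CommRing o]

/-- The coefficient of `X ^ (n - i) Y ^ i` of the form in the summand `a` (`0` if there is none). -/
def cf {k : ℕ} (x : MT o k) (a i : ℕ) : o :=
  if h : a < nc k ∧ i < dg k a + 1 then x ⟨a, h.1⟩ ⟨i, h.2⟩ else 0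

/-- The coefficients of `x_a v`, where `v = X` for `j = 0` and `v = Y` for `j = 1`. -/
def mulC {k : ℕ} (x : MT o k) (a j l : ℕ) : o :=
  if j = 0 then cf x a l else if l = 0 then 0 else cf x a (l - 1)

/-- The coefficients of the contraction of `x_a` with `v`: of `- ∂ x_a / ∂ Y` for `v = X`
(`j = 0`) and of `∂ x_a / ∂ X` for `v = Y` (`j = 1`). -/
def conC {k : ℕ} (x : MT o k) (a j l : ℕ) : o :=
  if j = 0 then - (((l + 1 : ℕ) : o) * cf x a (l + 1)) else ((dg k a - l : ℕ) : o) * cf x a l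

theorem cf_add {k : ℕ} (x y : MT o k) (a i : ℕ) : cf (x + y) a i = cf x a i + cf y a i := by
  unfold cf; split_ifs <;> simp

theorem cf_smul {k : ℕ} (c : o) (x : MT o k) (a i : ℕ) : cf (c • x) a i = c * cf x a i := by
  unfold cf; split_ifs <;> simp

theorem mulC_add {k : ℕ} (x y : MT o k) (a j l : ℕ) :
    mulC (x + y) a j l = mulC x a j l + mulC y a j l := by
  unfold mulC; split_ifs <;> simp [cf_add]

theorem mulC_smul {k : ℕ} (c : o) (x : MT o k) (a j l : ℕ) :
    mulC (c • x) a j l = c * mulC x a j l := by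
  unfold mulC; split_ifs <;> simp [cf_smul]

theorem conC_add {k : ℕ} (x y : MT o k) (a j l : ℕ) :
    conC (x + y) a j l = conC x a j l + conC y a j l := by
  unfold conC; split_ifs <;> simp only [cf_add] <;> ring

theorem conC_smul {k : ℕ} (c : o) (x : MT o k) (a j l : ℕ) :
    conC (c • x) a j l = c * conC x a j l := by
  unfold conC; split_ifs <;> simp only [cf_smul] <;> ring

/-- The operators of the model (bracket with the generators). -/
def adT (o : Type) [CommRing o] (k : ℕ) (j : Fin 2) : MT o k →ₗ[o] MT o (k + 1) where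
  toFun x := fun b l => ∑ a : Fin (nc k),
    ((cm k a b : o) * mulC x a j l + (cc k a b : o) * conC x a j l)
  map_add' x y := by
    funext b l
    simp only [Pi.add_apply, mulC_add, conC_add, ← Finset.sum_add_distrib]
    refine Finset.sum_congr rfl fun a _ => ?_
    ring
  map_smul' c x := by
    funext b l
    simp only [Pi.smul_apply, mulC_smul, conC_smul, RingHom.id_apply, smul_eq_mul, Finset.mul_sum]
    refine Finset.sum_congr rfl fun a _ => ?_
    ring

/-- The derivation `X ∂ / ∂ Y`. -/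
def opE (o : Type) [CommRing o] (k : ℕ) : MT o k →ₗ[o] MT o k where
  toFun x := fun a l => ((l + 1 : ℕ) : o) * cf x a (l + 1)
  map_add' x y := by
    funext b l
    simp only [Pi.add_apply, cf_add]
    ring
  map_smul' c x := by
    funext b l
    simp only [Pi.smul_apply, cf_smul, RingHom.id_apply, smul_eq_mul]
    ring

/-- The derivation `Y ∂ / ∂ X`. -/
def opF (o : Type) [CommRing o] (k : ℕ) : MT o k →ₗ[o] MT o k where
  toFun x := fun a l => if (l : ℕ) = 0 then 0 else ((dg k a + 1 - l : ℕ) : o) * cf x a (l - 1)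
  map_add' x y := by
    funext b l
    simp only [Pi.add_apply, cf_add]
    split_ifs <;> ring
  map_smul' c x := by
    funext b l
    simp only [Pi.smul_apply, cf_smul, RingHom.id_apply, smul_eq_mul]
    split_ifs <;> ring

end

end Pool.Agent.TZ8
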