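import Pool.Agent.TZ8.LDefs

set_option autoImplicit false

/-!
Coordinate families in the model and the Euler form.
-/

namespace Pool.Agent.TZ8

open Pool.Agent.TZ

/-- The rank of level `k`. -/
def mm : ℕ → ℕ
  | 0 => 2
  | 1 => 1
  | 2 => 2
  | 3 => 3
  | 4 => 6
  | 5 => 9
  | 6 => 18
  | 7 => 30
  | _ => 0

section

variable (o : Type) [CommRing o]

/-- The coordinate submodule of the summands selected by `s`. -/
def coB (s : ℕ → ℕ → Bool) (k : ℕ) : Submodule o (MT o k) where
  carrier := {x | ∀ a : Fin (nc k), s k a = false → x a = 0}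
  zero_mem' := fun _ _ => rfl
  add_mem' := by
    intro x y hx hy a ha
    rw [Pi.add_apply, hx a ha, hy a ha, add_zero]
  smul_mem' := by
    intro c x hx a ha
    rw [Pi.smul_apply, hx a ha, smul_zero]

/-- The coordinate submodule of the summands selected by `s`, plus `p` times everything. -/
def coP (p : ℕ) (s : ℕ → ℕ → Bool) (k : ℕ) : Submodule o (MT o k) where
  carrier := {x | ∀ a : Fin (nc k), s k a = false → ∀ i, (p : o) ∣ x a i}
  zero_mem' := fun _ _ _ => dvd_zero _
  add_mem' := by
    intro x y hx hy a ha i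
    exact dvd_add (hx a ha i) (hy a ha i)
  smul_mem' := by
    intro c x hx a ha i
    exact (hx a ha i).mul_left c

end

/-- The levels `≥ i`. -/
def sC (i : ℕ) : ℕ → ℕ → Bool := fun k _ => decide (i ≤ k)

/-- The submodule with ranks `12, 18` in levels `6, 7`. -/
def sS : ℕ → ℕ → Bool
  | 6, 0 => true
  | 6, 1 => true
  | 6, 4 => true
  | 7, 0 => true
  | 7, 1 => true
  | 7, 3 => true
  | 7, 6 => true
  | _, _ => false

/-- The submodule with ranks `8, 16, 27` in levels `5, 6, 7`. -/
def sT : ℕ → ℕ → Bool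
  | 5, 0 => true
  | 5, 1 => true
  | 6, 0 => true
  | 6, 1 => true
  | 6, 2 => true
  | 6, 3 => true
  | 7, 0 => true
  | 7, 1 => true
  | 7, 2 => true
  | 7, 3 => true
  | 7, 4 => true
  | 7, 5 => true
  | 7, 7 => true
  | _, _ => false

/-- The submodule with ranks `4, 8, 16, 27` in levels `4, 5, 6, 7`. -/
def sF : ℕ → ℕ → Bool
  | 4, 0 => true
  | k, a => sT k a

/-- The submodule with ranks `2, 4, 8, 15` in levels `4, 5, 6, 7`. -/
def sG : ℕ → ℕ → Bool
  | 4, 1 => true
  | 5, 1 => true
  | 5, 2 => true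
  | 6, 2 => true
  | 6, 3 => true
  | 6, 4 => true
  | 7, 2 => true
  | 7, 4 => true
  | 7, 5 => true
  | 7, 6 => true
  | 7, 7 => true
  | _, _ => false

section

variable {o : Type} [CommRing o]

/-- The Euler form of a graded submodule `V` between `p M` and `M` with the quotient. -/
noncomputable def chi (q : ℕ) (V : ∀ k, Submodule o (MT o k)) : ℤ :=
  ∑ k ∈ Finset.range 8, ((mm k : ℤ) - len q (V k)) * len q (V k) -
    2 * ∑ k ∈ Finset.range 7, ((mm k : ℤ) - len q (V k)) * len q (V (k + 1))

/-- There are no nonzero homomorphisms from the coordinate submodule `s` to the quotient of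
`M / p M` by the coordinate submodule `s'`. -/
def NoHom (o : Type) [CommRing o] (p : ℕ) (s s' : ℕ → ℕ → Bool) : Prop :=
  ∀ f : ∀ k, MT o k →ₗ[o] MT o k,
    (∀ k, ∀ j : Fin 2, ∀ x ∈ coB o s k,
      f (k + 1) (adT o k j x) - adT o k j (f k x) ∈ coP o p s' (k + 1)) →
    ∀ k, ∀ x ∈ coB o s k, f k x ∈ coP o p s' k

/-- The element of level `k` obtained by moving the coefficients with index `i` of the forms of
degree `n` to index `l` (all other coefficients are `0`). -/
def slc {k : ℕ} (n i l : ℕ) (x : MT o k) : MT o k :=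
  fun a m => if dg k a = n ∧ (m : ℕ) = l then cf x a i else 0

end

end Pool.Agent.TZ8
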