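import Pool.Agent.TZ8.LCf
import Pool.Agent.TZ.Base

set_option autoImplicit false

/-! The one-parameter groups of the model. -/

namespace Pool.Agent.TZ8

open Pool.Agent.TZ Polynomial

variable {o : Type} [CommRing o]

/-- The dehomogenized form in the summand `a`. -/
noncomputable def pf {k : ℕ} (x : MT o k) (a : ℕ) : o[X] :=
  ∑ l ∈ Finset.range (dg k a + 1), C (cf x a l) * X ^ l

theorem coeff_pf {k : ℕ} (x : MT o k) (a l : ℕ) : (pf x a).coeff l = cf x a l := by
  unfold pf
  simp only [finsetSum_coeff, coeff_C_mul, coeff_X_pow]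
  by_cases h : l < dg k a + 1
  · rw [Finset.sum_eq_single l]
    · simp
    · intro b _ hb
      simp [Ne.symm hb]
    · intro hn
      exact absurd (Finset.mem_range.2 h) hn
  · rw [cf_deg x a l (by omega)]
    apply Finset.sum_eq_zero
    intro b hb
    have : l ≠ b := by
      intro h'
      rw [Finset.mem_range] at hb
      omega
    simp [this]

theorem natDegree_pf {k : ℕ} (x : MT o k) (a : ℕ) : (pf x a).natDegree ≤ dg k a := by
  rw [natDegree_le_iff_coeff_eq_zero]
  intro N hN
  rw [coeff_pf, cf_deg x a N hN]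

theorem pf_add {k : ℕ} (x y : MT o k) (a : ℕ) : pf (x + y) a = pf x a + pf y a := by
  ext l
  rw [coeff_add, coeff_pf, coeff_pf, coeff_pf, cf_add]

theorem pf_smul {k : ℕ} (c : o) (x : MT o k) (a : ℕ) : pf (c • x) a = C c * pf x a := by
  ext l
  rw [coeff_C_mul, coeff_pf, coeff_pf, cf_smul]

theorem pf_nc {k : ℕ} (x : MT o k) (a : ℕ) (ha : nc k ≤ a) : pf x a = 0 := by
  ext l
  rw [coeff_pf, cf_nc x a l ha, coeff_zero]

theorem eq_of_pf {k : ℕ} {x y : MT o k} (h : ∀ a, a < nc k → pf x a = pf y a) : x = y := by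
  apply MT_ext
  intro a i ha _
  rw [← coeff_pf, ← coeff_pf, h a ha]

/-- The group of the derivation `X ∂ / ∂ Y`. -/
noncomputable def gE (o : Type) [CommRing o] (t : o) (k : ℕ) : MT o k →ₗ[o] MT o k where
  toFun x := fun a l => (taylor t (pf x a)).coeff l
  map_add' x y := by
    funext a l
    rw [pf_add, map_add, coeff_add]
    rfl
  map_smul' c x := by
    funext a l
    rw [pf_smul, taylor_mul, taylor_C, coeff_C_mul]
    rfl

theorem pf_gE {k : ℕ} (t : o) (x : MT o k) (a : ℕ) : pf (gE o t k x) a = taylor t (pf x a) := by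
  rcases Nat.lt_or_ge a (nc k) with ha | ha
  · ext l
    rw [coeff_pf]
    rcases Nat.lt_or_ge l (dg k a + 1) with hl | hl
    · rw [cf_of_lt _ _ _ ha hl]
      rfl
    · rw [cf_deg _ _ _ hl]
      symm
      apply coeff_eq_zero_of_natDegree_lt
      rw [natDegree_taylor]
      have := natDegree_pf x a
      omega
  · rw [pf_nc _ _ ha, pf_nc _ _ ha, map_zero]

theorem gE_zero (k : ℕ) : gE o 0 k = LinearMap.id := by
  apply LinearMap.ext
  intro x
  apply eq_of_pf
  intro a _
  rw [pf_gE, taylor_zero]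
  rfl

theorem gE_add (s t : o) (k : ℕ) : gE o (s + t) k = gE o s k ∘ₗ gE o t k := by
  apply LinearMap.ext
  intro x
  apply eq_of_pf
  intro a _
  rw [pf_gE, LinearMap.comp_apply, pf_gE, pf_gE, taylor_taylor]

theorem gE_D (t : o) (k : ℕ) (x : MT o k) :
    ∃ y : MT o k, gE o t k x = x + t • opE o k x + t ^ 2 • y := by
  have key : ∀ f : o[X], ∃ g : o[X], taylor t f = f + C t * derivative f + C (t ^ 2) * g := by
    intro f
    obtain ⟨g, hg⟩ := Polynomial.binomExpansion (f.map (C : o →+* o[X])) X (C t)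
    refine ⟨g, ?_⟩
    rw [taylor_apply, comp_eq_aeval]
    have h1 : (aeval (X + C t) f : o[X]) = (f.map (C : o →+* o[X])).eval (X + C t) := by
      rw [eval_map]
      rfl
    have h2 : (f.map (C : o →+* o[X])).eval X = f := by
      rw [eval_map]
      exact eval₂_C_X
    have h3 : (derivative (f.map (C : o →+* o[X]))).eval X = derivative f := by
      rw [derivative_map, eval_map]
      exact eval₂_C_X
    rw [h1, hg, h2, h3, C_pow]
    ring
  choose g hg using fun a => key (pf x a)
  refine ⟨fun a l => (g a).coeff l, ?_⟩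
  funext a l
  show (taylor t (pf x a)).coeff l = _
  rw [hg, coeff_add, coeff_add, coeff_C_mul, coeff_C_mul, coeff_derivative, coeff_pf, coeff_pf,
    cf_eq]
  show _ = x a l + t * (((((l : ℕ) + 1 : ℕ) : o)) * cf x a ((l : ℕ) + 1)) + t ^ 2 * (g a).coeff l
  push_cast
  ring

theorem pf_adT_zero (k : ℕ) (x : MT o k) (b : ℕ) (hb : b < nc (k + 1)) :
    pf (adT o k 0 x) b = ∑ a : Fin (nc k),
      (C (cm k a b : o) * pf x a - C (cc k a b : o) * derivative (pf x a)) := by
  ext l
  rw [coeff_pf, cf_adT k 0 x b l hb, finsetSum_coeff]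
  apply Finset.sum_congr rfl
  intro a _
  rw [coeff_sub, coeff_C_mul, coeff_C_mul, coeff_derivative, coeff_pf, coeff_pf]
  have h1 : mulC x a (0 : Fin 2) l = cf x a l := by
    unfold mulC
    rw [if_pos (by rfl)]
  have h2 : conC x a (0 : Fin 2) l = -(((l + 1 : ℕ) : o) * cf x a (l + 1)) := by
    unfold conC
    rw [if_pos (by rfl)]
  rw [h1, h2]
  push_cast
  ring

theorem pf_adT_one (k : ℕ) (x : MT o k) (b : ℕ) (hb : b < nc (k + 1)) :
    pf (adT o k 1 x) b = ∑ a : Fin (nc k),
      (C (cm k a b : o) * (X * pf x a) + C (cc k a b : o) *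
        (C ((dg k a : ℕ) : o) * pf x a - X * derivative (pf x a))) := by
  ext l
  rw [coeff_pf, cf_adT k 1 x b l hb, finsetSum_coeff]
  apply Finset.sum_congr rfl
  intro a _
  have h1 : mulC x a (1 : Fin 2) l = (X * pf x a).coeff l := by
    unfold mulC
    rw [if_neg (by decide)]
    rcases l with _ | l
    · simp
    · rw [if_neg (by omega), coeff_X_mul, coeff_pf]
      rfl
  have h2 : conC x a (1 : Fin 2) l =
      (C ((dg k a : ℕ) : o) * pf x a - X * derivative (pf x a)).coeff l := by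
    unfold conC
    rw [if_neg (by decide), coeff_sub, coeff_C_mul, coeff_pf]
    have h3 : (X * derivative (pf x a)).coeff l = (l : o) * cf x a l := by
      rcases l with _ | l
      · simp
      · rw [coeff_X_mul, coeff_derivative, coeff_pf]
        push_cast
        ring
    rw [h3]
    rcases Nat.lt_or_ge (dg k a) l with h | h
    · rw [cf_deg x a l h]
      ring
    · rw [Nat.cast_sub h]
      ring
  rw [h1, h2, coeff_add, coeff_C_mul, coeff_C_mul]

theorem taylor_derivative (t : o) (f : o[X]) :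
    taylor t (derivative f) = derivative (taylor t f) := by
  rw [taylor_apply, taylor_apply, derivative_comp]
  simp

theorem gE_ad_zero (t : o) (k : ℕ) (x : MT o k) :
    gE o t (k + 1) (adT o k 0 x) = adT o k 0 (gE o t k x) := by
  apply eq_of_pf
  intro b hb
  rw [pf_gE, pf_adT_zero k x b hb, pf_adT_zero k _ b hb, map_sum]
  apply Finset.sum_congr rfl
  intro a _
  rw [map_sub, taylor_mul, taylor_mul, taylor_C, taylor_C, taylor_derivative, pf_gE]

theorem gE_ad_one (t : o) (k : ℕ) (x : MT o k) :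
    gE o t (k + 1) (adT o k 1 x) = adT o k 1 (gE o t k x) + t • adT o k 0 (gE o t k x) := by
  apply eq_of_pf
  intro b hb
  rw [pf_add, pf_smul, pf_gE, pf_adT_one k x b hb, pf_adT_one k _ b hb, pf_adT_zero k _ b hb,
    map_sum, Finset.mul_sum, ← Finset.sum_add_distrib]
  apply Finset.sum_congr rfl
  intro a _
  rw [map_add, taylor_mul, taylor_mul, taylor_mul, map_sub, taylor_mul, taylor_mul, taylor_C,
    taylor_C, taylor_C, taylor_X, taylor_derivative, pf_gE]
  ring

/-- The sign of the swap. -/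
def sg (k a : ℕ) : ℤ := (-1) ^ ((k + 1 - dg k a) / 2)

theorem sg_sq (k a : ℕ) : sg k a * sg k a = 1 := by
  unfold sg
  rw [← mul_pow]
  norm_num

theorem sg_cm (k a b : ℕ) (h : cm k a b ≠ 0) : sg (k + 1) b = sg k a := by
  unfold cm at h
  split at h <;> first | rfl | decide | exact absurd rfl h

theorem sg_cc (k a b : ℕ) (h : cc k a b ≠ 0) : sg (k + 1) b = - sg k a := by
  unfold cc at h
  split at h <;> first | rfl | decide | exact absurd rfl h

/-- The swap of the two variables. -/
def swp (o : Type) [CommRing o] (k : ℕ) : MT o k →ₗ[o] MT o k where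
  toFun x := fun a l => (sg k a : o) * cf x a (dg k a - l)
  map_add' x y := by
    funext a l
    simp only [Pi.add_apply, cf_add]
    ring
  map_smul' c x := by
    funext a l
    simp only [Pi.smul_apply, cf_smul, RingHom.id_apply, smul_eq_mul]
    ring

theorem cf_swp {k : ℕ} (x : MT o k) (a l : ℕ) (hl : l ≤ dg k a) :
    cf (swp o k x) a l = (sg k a : o) * cf x a (dg k a - l) := by
  rcases Nat.lt_or_ge a (nc k) with ha | ha
  · rw [cf_of_lt _ _ _ ha (by omega)]
    rfl
  · rw [cf_nc _ _ _ ha, cf_nc _ _ _ ha, mul_zero]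

theorem swp_swp {k : ℕ} (x : MT o k) : swp o k (swp o k x) = x := by
  apply MT_ext
  intro a i _ hi
  rw [cf_swp _ _ _ hi, cf_swp _ _ _ (by omega), ← mul_assoc, ← Int.cast_mul, sg_sq,
    Int.cast_one, one_mul]
  congr 1
  omega

theorem swp_adT_zero (k : ℕ) (x : MT o k) :
    swp o (k + 1) (adT o k 0 x) = adT o k 1 (swp o k x) := by
  apply MT_ext
  intro b l hb hl
  rw [cf_swp _ _ _ hl, cf_adT k 0 x b _ hb, cf_adT k 1 _ b _ hb, Finset.mul_sum]
  apply Finset.sum_congr rfl
  intro a _
  rw [mul_add]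
  congr 1
  · by_cases hc : cm k a b = 0
    · rw [hc, Int.cast_zero, zero_mul, zero_mul, mul_zero]
    · have h1 := cm_dg _ _ _ hc
      have h2 := sg_cm _ _ _ hc
      have h3 : mulC x a (0 : Fin 2) (dg (k + 1) b - l) = cf x a (dg (k + 1) b - l) := by
        unfold mulC
        rw [if_pos (by rfl)]
      rw [h3, h2]
      unfold mulC
      rw [if_neg (by decide)]
      split_ifs with h0
      · rw [cf_deg x a _ (by omega)]
        ring
      · rw [cf_swp _ _ _ (by omega)]
        have h4 : dg (k + 1) b - l = dg k a - (l - 1) := by omega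
        rw [h4]
        ring
  · by_cases hc : cc k a b = 0
    · rw [hc, Int.cast_zero, zero_mul, zero_mul, mul_zero]
    · have h1 := cc_dg _ _ _ hc
      have h2 := sg_cc _ _ _ hc
      have h3 : conC x a (0 : Fin 2) (dg (k + 1) b - l) =
          -(((dg (k + 1) b - l + 1 : ℕ) : o) * cf x a (dg (k + 1) b - l + 1)) := by
        unfold conC
        rw [if_pos (by rfl)]
      have h4 : conC (swp o k x) a (1 : Fin 2) l =
          ((dg k a - l : ℕ) : o) * cf (swp o k x) a l := by
        unfold conC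
        rw [if_neg (by decide)]
      rw [h3, h4, h2, cf_swp _ _ _ (by omega)]
      have h5 : dg (k + 1) b - l + 1 = dg k a - l := by omega
      rw [h5]
      push_cast
      ring

theorem swp_adT_one (k : ℕ) (x : MT o k) :
    swp o (k + 1) (adT o k 1 x) = adT o k 0 (swp o k x) := by
  have h := swp_adT_zero k (swp o k x)
  rw [swp_swp] at h
  rw [← h, swp_swp]

theorem swp_opE {k : ℕ} (x : MT o k) : swp o k (opE o k (swp o k x)) = opF o k x := by
  apply MT_ext
  intro a l ha hl
  rw [cf_swp _ _ _ hl, cf_opE, cf_opF]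
  split_ifs with h0
  · rw [h0, cf_deg _ _ _ (by omega)]
    ring
  · rw [cf_swp _ _ _ (by omega)]
    have h1 : dg k a - (dg k a - l + 1) = l - 1 := by omega
    have h2 : dg k a - l + 1 = dg k a + 1 - l := by omega
    have h3 : ((sg k a : ℤ) : o) * ((sg k a : ℤ) : o) = 1 := by
      rw [← Int.cast_mul, sg_sq, Int.cast_one]
    rw [h1, h2]
    calc (sg k a : o) * (((dg k a + 1 - l : ℕ) : o) * ((sg k a : o) * cf x a (l - 1)))
        = ((sg k a : o) * (sg k a : o)) * (((dg k a + 1 - l : ℕ) : o) * cf x a (l - 1)) := by ring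
      _ = _ := by rw [h3, one_mul]

/-- The group of the derivation `Y ∂ / ∂ X`. -/
noncomputable def gF (o : Type) [CommRing o] (t : o) (k : ℕ) : MT o k →ₗ[o] MT o k :=
  swp o k ∘ₗ gE o t k ∘ₗ swp o k

theorem gF_zero (k : ℕ) : gF o 0 k = LinearMap.id := by
  apply LinearMap.ext
  intro x
  unfold gF
  rw [gE_zero, LinearMap.id_comp, LinearMap.comp_apply, swp_swp, LinearMap.id_apply]

theorem gF_add (s t : o) (k : ℕ) : gF o (s + t) k = gF o s k ∘ₗ gF o t k := by
  apply LinearMap.ext
  intro x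
  unfold gF
  simp only [LinearMap.comp_apply]
  rw [swp_swp, gE_add]
  rfl

theorem gF_D (t : o) (k : ℕ) (x : MT o k) :
    ∃ y : MT o k, gF o t k x = x + t • opF o k x + t ^ 2 • y := by
  obtain ⟨y, hy⟩ := gE_D t k (swp o k x)
  refine ⟨swp o k y, ?_⟩
  unfold gF
  simp only [LinearMap.comp_apply]
  rw [hy, map_add, map_add, map_smul, map_smul, swp_swp, swp_opE]

theorem gF_ad_one (t : o) (k : ℕ) (x : MT o k) :
    gF o t (k + 1) (adT o k 1 x) = adT o k 1 (gF o t k x) := by
  unfold gF
  simp only [LinearMap.comp_apply]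
  rw [swp_adT_one, gE_ad_zero, swp_adT_zero]

theorem gF_ad_zero (t : o) (k : ℕ) (x : MT o k) :
    gF o t (k + 1) (adT o k 0 x) = adT o k 0 (gF o t k x) + t • adT o k 1 (gF o t k x) := by
  unfold gF
  simp only [LinearMap.comp_apply]
  rw [swp_adT_zero, gE_ad_one, map_add, map_smul, swp_adT_zero, swp_adT_one]

theorem gE_br (t : o) (k : ℕ) (N : Submodule o (MT o k)) :
    br (adT o k) (N.map (gE o t k)) ≤ (br (adT o k) N).map (gE o t (k + 1)) := by
  unfold br
  apply iSup_le
  intro j
  rintro _ ⟨_, ⟨n, hn, rfl⟩, rfl⟩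
  have h0 : adT o k 0 n ∈ ⨆ j, N.map (adT o k j) :=
    Submodule.mem_iSup_of_mem 0 (Submodule.mem_map_of_mem hn)
  have h1 : adT o k 1 n ∈ ⨆ j, N.map (adT o k j) :=
    Submodule.mem_iSup_of_mem 1 (Submodule.mem_map_of_mem hn)
  have hj : j = 0 ∨ j = 1 := by
    rcases (show (j : ℕ) = 0 ∨ (j : ℕ) = 1 by have := j.isLt; omega) with h | h
    · left; exact Fin.ext h
    · right; exact Fin.ext h
  rcases hj with rfl | rfl
  · exact ⟨adT o k 0 n, h0, gE_ad_zero t k n⟩
  · refine ⟨adT o k 1 n - t • adT o k 0 n, Submodule.sub_mem _ h1 (Submodule.smul_mem _ _ h0), ?_⟩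
    rw [map_sub, map_smul, gE_ad_one, gE_ad_zero]
    abel

theorem gF_br (t : o) (k : ℕ) (N : Submodule o (MT o k)) :
    br (adT o k) (N.map (gF o t k)) ≤ (br (adT o k) N).map (gF o t (k + 1)) := by
  unfold br
  apply iSup_le
  intro j
  rintro _ ⟨_, ⟨n, hn, rfl⟩, rfl⟩
  have h0 : adT o k 0 n ∈ ⨆ j, N.map (adT o k j) :=
    Submodule.mem_iSup_of_mem 0 (Submodule.mem_map_of_mem hn)
  have h1 : adT o k 1 n ∈ ⨆ j, N.map (adT o k j) :=
    Submodule.mem_iSup_of_mem 1 (Submodule.mem_map_of_mem hn)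
  have hj : j = 0 ∨ j = 1 := by
    rcases (show (j : ℕ) = 0 ∨ (j : ℕ) = 1 by have := j.isLt; omega) with h | h
    · left; exact Fin.ext h
    · right; exact Fin.ext h
  rcases hj with rfl | rfl
  · refine ⟨adT o k 0 n - t • adT o k 1 n, Submodule.sub_mem _ h0 (Submodule.smul_mem _ _ h1), ?_⟩
    rw [map_sub, map_smul, gF_ad_one, gF_ad_zero]
    abel
  · exact ⟨adT o k 1 n, h1, gF_ad_one t k n⟩

end Pool.Agent.TZ8
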