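import Pool.Agent.TZ8.LList5

set_option autoImplicit false
set_option linter.unusedSectionVars false
set_option synthInstance.maxSize 2000

namespace Pool.Agent.TZ8

open Pool.Agent.TZ

variable {o : Type} [CommRing o] [IsDomain o] [IsDiscreteValuationRing o] {p q : ℕ}
  {V : ∀ k, Submodule o (MT o k)}

theorem num_check' (x0 x1 x2 x3 g f P Q R P6 A B : ℕ) (tA tB : Bool) (P7 C D E : ℕ)
    (h0 : x0 < 2) (h1 : x1 < x0 + 1) (h2 : x2 < x1 + 1) (h3 : x3 < x2 + 1) (h4 : g < x3 + 1)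
    (h5 : f < x3 + 1) (h6 : P < g + 1) (h7 : Q < g + 1) (h8 : Q ≤ f) (h9 : R < f + 1)
    (h10 : P6 < P + 1) (h11 : A < 3)
    (h12 : (P = 0 → A ≤ 1) ∧ (Q = 0 → A ≤ 1) ∧ (P = 0 → Q = 0 → A = 0)) (h13 : B < 3)
    (h14 : (Q = 0 → B ≤ 1) ∧ (R = 0 → B ≤ 1) ∧ (Q = 0 → R = 0 → B = 0)) (h15 : P7 < P6 + 1)
    (h16 : C < A + 1) (h17 : (P6 = 0 → C ≤ 1) ∧ (P6 = 0 → P = 0 → C = 0) ∧
      (P6 = 0 → Q = 0 → C = 0) ∧ (P6 = 0 → A ≤ 1 → tA = false → C = 0))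
    (h18 : D < A + B + 1) (h19 : E < 2) (h20 : (Q = 0 → E = 0) ∧ (R = 0 → E = 0) ∧
      (B = 0 → E = 0) ∧ (B ≤ 1 → tB = false → E = 0)) :
    Cn [x0, x1, x2, x3, g, f, P, Q, R, P6, A, B, P7, C, D, E] tA tB := by
  have k2 : N2 x0 x1 x2 x3 g f := num_check x0 h0 x1 h1 x2 h2 x3 h3 g h4 f h5
  have k3 : N3 x0 x1 x2 x3 g f P Q R P6 := k2 P h6 Q h7 h8 R h9 P6 h10
  have k4 : N4 x0 x1 x2 x3 g f P Q R P6 A B tA tB := k3 A h11 h12 B h13 h14 tA tB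
  have k5 : N5 x0 x1 x2 x3 g f P Q R P6 A B tA tB P7 C := k4 P7 h15 C h16 h17
  exact k5 D h18 E h19 h20

open Classical in
theorem key_aux (h : RingHyp o p q) (hp : 11 ≤ p) (hV : StabL o p V) :
    Cn (nums q V) (decide (ev1 o 6 1 ∈ WW (V 6) 3)) (decide (ev1 o 6 4 ∈ WW (V 6) 1)) := by
  have c := cst_of h hp hV
  exact num_check' _ _ _ _ _ _ _ _ _ _ _ _ _ _ _ _ _ _ c.b0 c.i1 c.i2 c.i3 c.ig c.jf c.iP
    c.iQ c.jQ c.iR c.iP6 c.bA ⟨cA1 h hp hV, cA2 h hp hV, cA3 h hp hV⟩ c.bB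
    ⟨cB1 h hp hV, cB2 h hp hV, cB3 h hp hV⟩ c.iP7 c.bC
    ⟨cC1 h hp hV, cC3 h hp hV, cC4 h hp hV, cC5 h hp hV⟩ c.bD c.bE
    ⟨cE1 h hp hV, cE2 h hp hV, cE3 h hp hV, cE4 h hp hV⟩

theorem numC1 : ∀ i < 9, ∀ k < 8, ∀ a < nc k, sC i k a = true → wl (patC i) k (dg k a) = 0 := by
  decide +kernel

theorem numC2 : ∀ i < 9, ∀ k < 8, ∀ n < 7, cnt0 (sC i k) k n ≤ wl (patC i) k n := by
  decide +kernel

theorem numS1 : ∀ k < 8, ∀ a < nc k, sS k a = true → wl patE k (dg k a) = 0 ∨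
    (k = 6 ∧ a = 1) ∨ (k = 6 ∧ a = 4) ∨ (k = 7 ∧ a = 1) ∨ (k = 7 ∧ a = 3) ∨
    (k = 7 ∧ a = 6) := by
  decide +kernel

theorem numS2 : ∀ k < 8, ∀ n < 7, cnt0 (sS k) k n ≤ wl patE k n := by
  decide +kernel

theorem numT1 : ∀ k < 8, ∀ a < nc k, sT k a = true → wl patT k (dg k a) = 0 ∨
    (k = 6 ∧ a = 3) ∨ (k = 7 ∧ a = 3) ∨ (k = 7 ∧ a = 4) ∨ (k = 7 ∧ a = 5) := by
  decide +kernel

theorem numT2 : ∀ k < 8, ∀ n < 7, cnt0 (sT k) k n ≤ wl patT k n := by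
  decide +kernel

theorem numF1 : ∀ k < 8, ∀ a < nc k, sF k a = true → wl patF k (dg k a) = 0 ∨
    (k = 6 ∧ a = 3) ∨ (k = 7 ∧ a = 3) ∨ (k = 7 ∧ a = 4) ∨ (k = 7 ∧ a = 5) := by
  decide +kernel

theorem numF2 : ∀ k < 8, ∀ n < 7, cnt0 (sF k) k n ≤ wl patF k n := by
  decide +kernel

theorem numG1 : ∀ k < 8, ∀ a < nc k, sG k a = true → wl patG k (dg k a) = 0 ∨
    (k = 6 ∧ a = 2) ∨ (k = 7 ∧ a = 2) ∨ (k = 7 ∧ a = 4) ∨ (k = 7 ∧ a = 5) ∨
    (k = 7 ∧ a = 6) := by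
  decide +kernel

theorem numG2 : ∀ k < 8, ∀ n < 7, cnt0 (sG k) k n ≤ wl patG k n := by
  decide +kernel

theorem topn (h : RingHyp o p q) (hV : StabL o p V) (k a : ℕ) (hk : k < 8)
    (hl : wl (nums q V) k (dg k a) = 0) : ev1 o k a ∈ WW (V k) (dg k a) := by
  have hd6 := dg_le_six k a
  rw [← wl_nums k (dg k a) hk (by omega)] at hl
  exact topm h hV k _ a hl

theorem pat_C (h : RingHyp o p q) (hp : 11 ≤ p) (hV : StabL o p V) (i : ℕ) (hi : i < 9)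
    (hL : nums q V = patC i) : V = coP o p (sC i) := by
  apply eq_coP h hp hV
  · intro k hk a ha hsa
    apply topn h hV k a hk
    rw [hL]
    exact numC1 i hi k hk a ha hsa
  · rw [hL]
    exact numC2 i hi

theorem pat_S (h : RingHyp o p q) (hp : 11 ≤ p) (hV : StabL o p V) (hL : nums q V = patE)
    (htA : ev1 o 6 1 ∈ WW (V 6) 3) (htB : ev1 o 6 4 ∈ WW (V 6) 1) : V = coP o p sS := by
  apply eq_coP h hp hV
  · intro k hk a ha hsa
    have l65 : len q (WW (V 6) 5) = 0 := by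
      rw [wl_nums 6 5 (by norm_num) (by norm_num), hL]
      rfl
    have hor := numS1 k hk a ha hsa
    rw [← hL] at hor
    rcases hor with h0 | ⟨rfl, rfl⟩ | ⟨rfl, rfl⟩ | ⟨rfl, rfl⟩ | ⟨rfl, rfl⟩ | ⟨rfl, rfl⟩
    · exact topn h hV k a hk h0
    · exact htA
    · exact htB
    · exact m71 h hp hV l65
    · exact Kstep h hp hV 6 1 3 3 (by decide) (by decide) htA
    · exact Mstep h hp hV 6 4 6 1 (by decide) htB
  · rw [hL]
    exact numS2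

theorem pat_T (h : RingHyp o p q) (hp : 11 ≤ p) (hV : StabL o p V) (hL : nums q V = patT) :
    V = coP o p sT := by
  apply eq_coP h hp hV
  · intro k hk a ha hsa
    have l52 : len q (WW (V 5) 2) = 0 := by
      rw [wl_nums 5 2 (by norm_num) (by norm_num), hL]
      rfl
    have l63 : len q (WW (V 6) 3) = 0 := by
      rw [wl_nums 6 3 (by norm_num) (by norm_num), hL]
      rfl
    have hor := numT1 k hk a ha hsa
    rw [← hL] at hor
    rcases hor with h0 | ⟨rfl, rfl⟩ | ⟨rfl, rfl⟩ | ⟨rfl, rfl⟩ | ⟨rfl, rfl⟩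
    · exact topn h hV k a hk h0
    · exact m63 h hp hV l52
    · exact Kstep h hp hV 6 1 3 3 (by decide) (by decide) (topm h hV 6 3 1 l63)
    · exact Kstep h hp hV 6 2 4 3 (by decide) (by decide) (topm h hV 6 3 2 l63)
    · exact Mstep h hp hV 6 3 5 1 (by decide) (m63 h hp hV l52)
  · rw [hL]
    exact numT2

theorem pat_F (h : RingHyp o p q) (hp : 11 ≤ p) (hV : StabL o p V) (hL : nums q V = patF) :
    V = coP o p sF := by
  apply eq_coP h hp hV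
  · intro k hk a ha hsa
    have l52 : len q (WW (V 5) 2) = 0 := by
      rw [wl_nums 5 2 (by norm_num) (by norm_num), hL]
      rfl
    have l63 : len q (WW (V 6) 3) = 0 := by
      rw [wl_nums 6 3 (by norm_num) (by norm_num), hL]
      rfl
    have hor := numF1 k hk a ha hsa
    rw [← hL] at hor
    rcases hor with h0 | ⟨rfl, rfl⟩ | ⟨rfl, rfl⟩ | ⟨rfl, rfl⟩ | ⟨rfl, rfl⟩
    · exact topn h hV k a hk h0
    · exact m63 h hp hV l52
    · exact Kstep h hp hV 6 1 3 3 (by decide) (by decide) (topm h hV 6 3 1 l63)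
    · exact Kstep h hp hV 6 2 4 3 (by decide) (by decide) (topm h hV 6 3 2 l63)
    · exact Mstep h hp hV 6 3 5 1 (by decide) (m63 h hp hV l52)
  · rw [hL]
    exact numF2

theorem pat_G (h : RingHyp o p q) (hp : 11 ≤ p) (hV : StabL o p V) (hL : nums q V = patG) :
    V = coP o p sG := by
  apply eq_coP h hp hV
  · intro k hk a ha hsa
    have l52 : len q (WW (V 5) 2) = 0 := by
      rw [wl_nums 5 2 (by norm_num) (by norm_num), hL]
      rfl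
    have l61 : len q (WW (V 6) 1) = 0 := by
      rw [wl_nums 6 1 (by norm_num) (by norm_num), hL]
      rfl
    have hor := numG1 k hk a ha hsa
    rw [← hL] at hor
    rcases hor with h0 | ⟨rfl, rfl⟩ | ⟨rfl, rfl⟩ | ⟨rfl, rfl⟩ | ⟨rfl, rfl⟩ | ⟨rfl, rfl⟩
    · exact topn h hV k a hk h0
    · exact m62 h hp hV l52
    · exact Mstep h hp hV 6 2 2 3 (by decide) (m62 h hp hV l52)
    · exact Kstep h hp hV 6 2 4 3 (by decide) (by decide) (m62 h hp hV l52)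
    · exact Mstep h hp hV 6 3 5 1 (by decide) (topm h hV 6 1 3 l61)
    · exact Mstep h hp hV 6 4 6 1 (by decide) (topm h hV 6 1 4 l61)
  · rw [hL]
    exact numG2

open Classical in
theorem list_aux (h : RingHyp o p q) (hp : 11 ≤ p) (hV : StabL o p V) :
    1 ≤ chi q V ∨ (∃ i ≤ 8, V = coP o p (sC i)) ∨ V = coP o p sS ∨ V = coP o p sT ∨
      V = coP o p sF ∨ V = coP o p sG := by
  rcases key_aux h hp hV with hchi | ⟨i, hi, hL⟩ | ⟨hL, htA, htB⟩ | hL | hL | hL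
  · left
    rw [chi_nums h hp hV]
    exact hchi
  · exact Or.inr (Or.inl ⟨i, by omega, pat_C h hp hV i hi hL⟩)
  · rw [decide_eq_true_eq] at htA htB
    exact Or.inr (Or.inr (Or.inl (pat_S h hp hV hL htA htB)))
  · exact Or.inr (Or.inr (Or.inr (Or.inl (pat_T h hp hV hL))))
  · exact Or.inr (Or.inr (Or.inr (Or.inr (Or.inl (pat_F h hp hV hL)))))
  · exact Or.inr (Or.inr (Or.inr (Or.inr (Or.inr (pat_G h hp hV hL)))))

theorem list8 (h : RingHyp o p q) (hp : 11 ≤ p) (V : ∀ k, Submodule o (MT o k))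
    (hpV : ∀ k, ∀ x : MT o k, (p : o) • x ∈ V k)
    (hT : ∀ k, ∀ j : Fin 2, ∀ x ∈ V k, adT o k j x ∈ V (k + 1))
    (hEF : ∀ k, ∀ x ∈ V k, opE o k x ∈ V k ∧ opF o k x ∈ V k) :
    1 ≤ chi q V ∨ (∃ i ≤ 8, V = coP o p (sC i)) ∨ V = coP o p sS ∨ V = coP o p sT ∨
      V = coP o p sF ∨ V = coP o p sG :=
  list_aux h hp ⟨hpV, hT, fun k x hx => (hEF k x hx).1, fun k x hx => (hEF k x hx).2⟩

end Pool.Agent.TZ8
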