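import Pool.Agent.TZ8.LSl2
import Pool.Agent.TZ8.LCf
import Pool.Agent.TZ8.LGen

set_option autoImplicit false
set_option linter.unusedSectionVars false

/-! Lengths of stable submodules of the model in terms of the multiplicity spaces. -/

namespace Pool.Agent.TZ8

open Pool.Agent.TZ

section tools

variable {o : Type} [CommRing o] [IsDomain o] [IsDiscreteValuationRing o] {p q : ℕ}
  {M : Type} [AddCommGroup M] [Module o M] {M' : Type} [AddCommGroup M'] [Module o M']

theorem ll_len_anti {U W : Submodule o M} (hle : U ≤ W) (hU : Finite (M ⧸ U)) :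
    len q W ≤ len q U := by
  unfold len
  apply Nat.log_mono_right
  exact Nat.card_le_card_of_surjective _ (Submodule.factor_surjective hle)

theorem ll_finite_of_le {U W : Submodule o M} (hle : U ≤ W) (hU : Finite (M ⧸ U)) :
    Finite (M ⧸ W) :=
  Finite.of_surjective _ (Submodule.factor_surjective hle)

theorem ll_eq_of_len (h : RingHyp o p q) [Module.Finite o M] {U W : Submodule o M} (hle : U ≤ W)
    (hU : Finite (M ⧸ U)) (hlen : len q U ≤ len q W) : U = W := by
  have hW : Finite (M ⧸ W) := ll_finite_of_le hle hU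
  have h1 := card_quot h U hU
  have h2 := card_quot h W hW
  have h3 : Nat.card (M ⧸ U) ≤ Nat.card (M ⧸ W) := by
    rw [h1, h2]
    exact Nat.pow_le_pow_right h.one_lt.le hlen
  have hs := Submodule.factor_surjective hle
  have hcard : Nat.card (M ⧸ U) = Nat.card (M ⧸ W) :=
    le_antisymm h3 (Nat.card_le_card_of_surjective _ hs)
  have hinj : Function.Injective (Submodule.factor hle) :=
    ((Nat.bijective_iff_surjective_and_card _).2 ⟨hs, hcard⟩).1
  apply le_antisymm hle
  intro x hx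
  have h4 : Submodule.factor hle (Submodule.Quotient.mk x) = 0 := by
    show Submodule.Quotient.mk x = 0
    exact (Submodule.Quotient.mk_eq_zero _).2 hx
  have h5 := hinj (h4.trans (map_zero _).symm)
  exact (Submodule.Quotient.mk_eq_zero _).1 h5

theorem ll_len_top : len q (⊤ : Submodule o M) = 0 := by
  unfold len
  have : Nat.card (M ⧸ (⊤ : Submodule o M)) = 1 := Nat.card_unique
  rw [this]
  exact Nat.log_one_right q

theorem ll_top_of_len (h : RingHyp o p q) [Module.Finite o M] {U : Submodule o M}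
    (hU : Finite (M ⧸ U)) (hlen : len q U = 0) : U = ⊤ := by
  apply ll_eq_of_len h le_top hU
  rw [hlen]
  exact Nat.zero_le _

theorem ll_len_comap (f : M' →ₗ[o] M) (W : Submodule o M) (hW : Finite (M ⧸ W)) :
    Finite (M' ⧸ W.comap f) ∧ len q (W.comap f) ≤ len q W := by
  have hinj : Function.Injective (Submodule.mapQ (W.comap f) W f le_rfl) := by
    rw [← LinearMap.ker_eq_bot, Submodule.ker_mapQ, Submodule.mkQ_map_self]
  refine ⟨Finite.of_injective _ hinj, ?_⟩
  unfold len
  apply Nat.log_mono_right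
  exact Nat.card_le_card_of_injective _ hinj

theorem ll_len_inf (h : RingHyp o p q) [Module.Finite o M] (U W : Submodule o M)
    (hU : Finite (M ⧸ U)) (hW : Finite (M ⧸ W)) :
    Finite (M ⧸ U ⊓ W) ∧ len q (U ⊓ W) ≤ len q U + len q W := by
  have hinj : Function.Injective (Submodule.liftQ (U ⊓ W) (U.mkQ.prod W.mkQ) (by
      intro x hx
      rw [LinearMap.mem_ker]
      show ((Submodule.Quotient.mk x : M ⧸ U), (Submodule.Quotient.mk x : M ⧸ W)) = 0
      rw [Prod.mk_eq_zero]
      exact ⟨(Submodule.Quotient.mk_eq_zero _).2 hx.1, (Submodule.Quotient.mk_eq_zero _).2 hx.2⟩))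
      := by
    rw [← LinearMap.ker_eq_bot, Submodule.ker_liftQ_eq_bot]
    intro x hx
    rw [LinearMap.mem_ker] at hx
    change ((Submodule.Quotient.mk x : M ⧸ U), (Submodule.Quotient.mk x : M ⧸ W)) = 0 at hx
    rw [Prod.mk_eq_zero] at hx
    exact ⟨(Submodule.Quotient.mk_eq_zero _).1 hx.1, (Submodule.Quotient.mk_eq_zero _).1 hx.2⟩
  have hfin : Finite (M ⧸ U ⊓ W) := Finite.of_injective _ hinj
  refine ⟨hfin, ?_⟩
  have h1 := Nat.card_le_card_of_injective _ hinj
  rw [Nat.card_prod, card_quot h _ hfin, card_quot h _ hU, card_quot h _ hW, ← pow_add] at h1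
  exact (Nat.pow_le_pow_iff_right h.one_lt).1 h1

/-- The length of a kernel. -/
theorem ll_len_ker (h : RingHyp o p q) [Module.Finite o M] (f : M →ₗ[o] M')
    (hf : Function.Surjective f) [Finite M'] (n : ℕ) (hn : Nat.card M' = q ^ n)
    (U : Submodule o M) (hU : ∀ x, f x = 0 ↔ x ∈ U) : Finite (M ⧸ U) ∧ len q U = n := by
  have hker : LinearMap.ker f = U := by
    ext x
    rw [LinearMap.mem_ker, hU]
  subst hker
  have e := f.quotKerEquivOfSurjective hf
  have hfin : Finite (M ⧸ LinearMap.ker f) := Finite.of_equiv _ e.symm.toEquiv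
  refine ⟨hfin, ?_⟩
  have h1 := card_quot h _ hfin
  rw [Nat.card_congr e.toEquiv, hn] at h1
  exact (Nat.pow_right_injective h.one_lt h1).symm

end tools

section emb

variable {o : Type} [CommRing o]

/-- The element of level `k` with given coefficients of `X ^ n` in the summands of degree `n`. -/
def emb (o : Type) [CommRing o] (k n : ℕ) : (Fin (nc k) → o) →ₗ[o] MT o k where
  toFun c := fun a l => if dg k a = n ∧ (l : ℕ) = 0 then c a else 0
  map_add' c d := by
    funext a l
    simp only [Pi.add_apply]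
    split_ifs <;> simp
  map_smul' r c := by
    funext a l
    simp only [Pi.smul_apply, RingHom.id_apply, smul_eq_mul]
    split_ifs <;> simp

/-- The coefficients with index `i`. -/
def cfv {k : ℕ} (i : ℕ) : MT o k →ₗ[o] (Fin (nc k) → o) where
  toFun x := fun a => cf x a i
  map_add' x y := by
    funext a
    exact cf_add x y a i
  map_smul' r x := by
    funext a
    exact cf_smul r x a i

theorem emb_cfv {k : ℕ} (n i : ℕ) (x : MT o k) : emb o k n (cfv i x) = slc n i 0 x := rfl

theorem cf_emb {k : ℕ} (n : ℕ) (c : Fin (nc k) → o) (a : Fin (nc k)) (l : ℕ) :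
    cf (emb o k n c) a l = if dg k a = n ∧ l = 0 then c a else 0 := by
  unfold cf
  split_ifs with h1 h2 h2
  · show (if dg k a = n ∧ l = 0 then c a else 0) = c a
    rw [if_pos h2]
  · show (if dg k a = n ∧ l = 0 then c a else 0) = 0
    rw [if_neg h2]
  · exfalso
    apply h1
    exact ⟨a.isLt, by omega⟩
  · rfl

theorem slc_slc {k : ℕ} (n i : ℕ) (x : MT o k) :
    slc n 0 i (slc n i 0 x) = slc n i i x := by
  funext a m
  show (if dg k a = n ∧ (m : ℕ) = i then cf (slc n i 0 x) a 0 else 0) =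
    (if dg k a = n ∧ (m : ℕ) = i then cf x a i else 0)
  split_ifs with h
  · rw [cf_of_lt (slc n i 0 x) a 0 a.isLt (Nat.succ_pos _)]
    show (if dg k a = n ∧ (0 : ℕ) = 0 then cf x a i else 0) = cf x a i
    rw [if_pos ⟨h.1, rfl⟩]
  · rfl

theorem dg_le_six (k a : ℕ) : dg k a ≤ 6 := by
  unfold dg
  split <;> norm_num

theorem eq_sum_slc {k : ℕ} (x : MT o k) :
    x = ∑ n ∈ Finset.range 7, ∑ i ∈ Finset.range (n + 1), slc n i i x := by
  funext a m
  simp only [Finset.sum_apply]
  have h6 := dg_le_six k a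
  rw [Finset.sum_eq_single (dg k a), Finset.sum_eq_single (m : ℕ)]
  · show x a m = (if dg k a = dg k a ∧ (m : ℕ) = (m : ℕ) then cf x a m else 0)
    rw [if_pos ⟨rfl, rfl⟩, cf_eq]
  · intro i _ hi
    show (if dg k a = dg k a ∧ (m : ℕ) = i then cf x a i else 0) = 0
    rw [if_neg (fun h => hi h.2.symm)]
  · intro hm
    exact absurd (Finset.mem_range.2 m.isLt) hm
  · intro n _ hn
    apply Finset.sum_eq_zero
    intro i _
    show (if dg k a = n ∧ (m : ℕ) = i then cf x a i else 0) = 0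
    rw [if_neg (fun h => hn h.1.symm)]
  · intro hm
    exact absurd (Finset.mem_range.2 (by omega)) hm

/-- The multiplicity space. -/
def WW {k : ℕ} (V : Submodule o (MT o k)) (n : ℕ) : Submodule o (Fin (nc k) → o) :=
  V.comap (emb o k n)

theorem mem_WW {k : ℕ} {V : Submodule o (MT o k)} {n : ℕ} {c : Fin (nc k) → o} :
    c ∈ WW V n ↔ emb o k n c ∈ V := Iff.rfl

end emb

section len

variable {o : Type} [CommRing o] [IsDomain o] [IsDiscreteValuationRing o] {p q : ℕ}

theorem WW_smul {k : ℕ} (V : Submodule o (MT o k)) (hpV : ∀ x : MT o k, (p : o) • x ∈ V) (n : ℕ)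
    (c : Fin (nc k) → o) : (p : o) • c ∈ WW V n := by
  rw [mem_WW, map_smul]
  exact hpV _

theorem WW_finite (h : RingHyp o p q) {k : ℕ} (V : Submodule o (MT o k))
    (hpV : ∀ x : MT o k, (p : o) • x ∈ V) (n : ℕ) : Finite ((Fin (nc k) → o) ⧸ WW V n) := by
  apply finite_quot_of_pow_mem h _ 1
  intro c
  rw [pow_one]
  exact WW_smul V hpV n c

/-- A stable submodule and its multiplicity spaces. -/
theorem mem_iff_WW (h : RingHyp o p q) (hp : 11 ≤ p) {k : ℕ} (V : Submodule o (MT o k))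
    (hpV : ∀ x : MT o k, (p : o) • x ∈ V) (hE : ∀ x ∈ V, opE o k x ∈ V)
    (hF : ∀ x ∈ V, opF o k x ∈ V) (x : MT o k) :
    x ∈ V ↔ ∀ n < 7, ∀ i ≤ n, cfv i x ∈ WW V n := by
  constructor
  · intro hx n _ i hi
    rw [mem_WW, emb_cfv]
    exact slc_mem h hp V hE hF x hx n i 0 hi (Nat.zero_le _)
  · intro hx
    rw [eq_sum_slc x]
    apply Submodule.sum_mem
    intro n hn
    apply Submodule.sum_mem
    intro i hi
    rw [Finset.mem_range] at hn hi
    rw [← slc_slc]
    have h1 := hx n hn i (by omega)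
    rw [mem_WW, emb_cfv] at h1
    exact slc_mem h hp V hE hF _ h1 n 0 i (Nat.zero_le _) (by omega)

/-- The length of a stable submodule. -/
theorem len_eq_WW (h : RingHyp o p q) (hp : 11 ≤ p) {k : ℕ} (V : Submodule o (MT o k))
    (hpV : ∀ x : MT o k, (p : o) • x ∈ V) (hE : ∀ x ∈ V, opE o k x ∈ V)
    (hF : ∀ x ∈ V, opF o k x ∈ V) :
    len q V = ∑ n ∈ Finset.range 7, (n + 1) * len q (WW V n) := by
  let Φ : MT o k →ₗ[o] (∀ t : (Σ n : Fin 7, Fin ((n : ℕ) + 1)),
      (Fin (nc k) → o) ⧸ WW V (t.1 : ℕ)) :=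
    LinearMap.pi fun t => (WW V (t.1 : ℕ)).mkQ ∘ₗ cfv (t.2 : ℕ)
  have hfin : ∀ n, Finite ((Fin (nc k) → o) ⧸ WW V n) := fun n => WW_finite h V hpV n
  have hcard : Nat.card (∀ t : (Σ n : Fin 7, Fin ((n : ℕ) + 1)),
      (Fin (nc k) → o) ⧸ WW V (t.1 : ℕ)) =
      q ^ (∑ n ∈ Finset.range 7, (n + 1) * len q (WW V n)) := by
    rw [Nat.card_pi, Fintype.prod_sigma, ← Finset.prod_pow_eq_pow_sum, Finset.prod_range]
    apply Finset.prod_congr rfl
    intro n _
    show ∏ y : Fin ((n : ℕ) + 1), Nat.card ((Fin (nc k) → o) ⧸ WW V (n : ℕ)) = _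
    rw [Finset.prod_const, Finset.card_univ, Fintype.card_fin, card_quot h _ (hfin n), ← pow_mul,
      mul_comm]
  have hsurj : Function.Surjective Φ := by
    intro y
    have hy : ∀ t : (Σ n : Fin 7, Fin ((n : ℕ) + 1)), ∃ c : Fin (nc k) → o,
        Submodule.Quotient.mk c = y t := fun t => Submodule.Quotient.mk_surjective _ (y t)
    choose c hc using hy
    refine ⟨fun a l => c ⟨⟨dg k a, Nat.lt_succ_of_le (dg_le_six k a)⟩, l⟩ a, ?_⟩
    funext t
    rw [← hc t]
    show Submodule.Quotient.mk (cfv (t.2 : ℕ) _) = _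
    rw [Submodule.Quotient.eq, mem_WW]
    have h0 : emb o k (t.1 : ℕ) (cfv (t.2 : ℕ)
        (fun (a : Fin (nc k)) (l : Fin (dg k a + 1)) =>
          c ⟨⟨dg k a, Nat.lt_succ_of_le (dg_le_six k a)⟩, l⟩ a) - c t) = 0 := by
      funext a l
      show (if dg k a = (t.1 : ℕ) ∧ (l : ℕ) = 0 then (cf (fun (a : Fin (nc k))
        (l : Fin (dg k a + 1)) => c ⟨⟨dg k a, Nat.lt_succ_of_le (dg_le_six k a)⟩, l⟩ a) a t.2 -
          c t a : o) else 0) = 0
      split_ifs with hh
      · obtain ⟨⟨n, hn⟩, i⟩ := t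
        obtain ⟨h1, h2⟩ := hh
        simp only at h1
        subst h1
        rw [cf_of_lt _ _ _ a.isLt i.isLt]
        show c ⟨⟨dg k a, _⟩, ⟨(i : ℕ), _⟩⟩ a - c ⟨⟨dg k a, _⟩, i⟩ a = 0
        exact sub_self _
      · rfl
    rw [h0]
    exact Submodule.zero_mem _
  refine (ll_len_ker h Φ hsurj _ hcard V ?_).2
  intro x
  rw [mem_iff_WW h hp V hpV hE hF x]
  constructor
  · intro hx n hn i hi
    have h1 := congrFun hx ⟨⟨n, hn⟩, ⟨i, Nat.lt_succ_of_le hi⟩⟩
    exact (Submodule.Quotient.mk_eq_zero _).1 h1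
  · intro hx
    funext t
    have h1 := hx t.1 t.1.isLt t.2 (Nat.le_of_lt_succ t.2.isLt)
    exact (Submodule.Quotient.mk_eq_zero _).2 h1

end len

end Pool.Agent.TZ8
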