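import Pool.Agent.TZ8.LList1

set_option autoImplicit false
set_option linter.unusedSectionVars false

/-! Stability in terms of the multiplicity spaces. -/

namespace Pool.Agent.TZ8

open Pool.Agent.TZ

section

variable {o : Type} [CommRing o]

/-- The multiplication on multiplicity spaces. -/
def Mv (o : Type) [CommRing o] (k : ℕ) : (Fin (nc k) → o) →ₗ[o] (Fin (nc (k + 1)) → o) where
  toFun c := fun b => ∑ a : Fin (nc k), (cm k a b : o) * c a
  map_add' c d := by
    funext b
    simp only [Pi.add_apply, mul_add, Finset.sum_add_distrib]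
  map_smul' r c := by
    funext b
    simp only [Pi.smul_apply, smul_eq_mul, RingHom.id_apply, Finset.mul_sum]
    apply Finset.sum_congr rfl
    intro a _
    ring

/-- The contraction on multiplicity spaces. -/
def Kv (o : Type) [CommRing o] (k : ℕ) : (Fin (nc k) → o) →ₗ[o] (Fin (nc (k + 1)) → o) where
  toFun c := fun b => ∑ a : Fin (nc k), (cc k a b : o) * c a
  map_add' c d := by
    funext b
    simp only [Pi.add_apply, mul_add, Finset.sum_add_distrib]
  map_smul' r c := by
    funext b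
    simp only [Pi.smul_apply, smul_eq_mul, RingHom.id_apply, Finset.mul_sum]
    apply Finset.sum_congr rfl
    intro a _
    ring

theorem adT_zero_emb (k n : ℕ) (c : Fin (nc k) → o) :
    adT o k 0 (emb o k n c) = emb o (k + 1) (n + 1) (Mv o k c) := by
  apply MT_ext
  intro b l hb _
  rw [cf_adT k 0 _ b l hb, cf_emb (k := k + 1) (n + 1) _ ⟨b, hb⟩ l]
  have h1 : ∀ a : Fin (nc k), ((cm k a b : ℤ) : o) * mulC (emb o k n c) a (0 : Fin 2) l +
      ((cc k a b : ℤ) : o) * conC (emb o k n c) a (0 : Fin 2) l =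
      if dg (k + 1) b = n + 1 ∧ l = 0 then ((cm k a b : ℤ) : o) * c a else 0 := by
    intro a
    have h2 : mulC (emb o k n c) a (0 : Fin 2) l = cf (emb o k n c) a l := by
      unfold mulC
      rw [if_pos (by rfl)]
    have h3 : conC (emb o k n c) a (0 : Fin 2) l =
        -(((l + 1 : ℕ) : o) * cf (emb o k n c) a (l + 1)) := by
      unfold conC
      rw [if_pos (by rfl)]
    have h0 : cf (emb o k n c) a (l + 1) = 0 := by
      rw [cf_emb, if_neg (fun h => absurd h.2 (Nat.succ_ne_zero l))]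
    rw [h2, h3, h0, cf_emb, mul_zero, neg_zero, mul_zero, add_zero]
    by_cases hc : cm k a b = 0
    · rw [hc, Int.cast_zero, zero_mul, zero_mul, ite_self]
    · have h4 := cm_dg _ _ _ hc
      by_cases hn : dg k a = n ∧ l = 0
      · rw [if_pos hn, if_pos ⟨by omega, hn.2⟩]
      · rw [if_neg hn, if_neg (fun hh => hn ⟨by omega, hh.2⟩), mul_zero]
  rw [Finset.sum_congr rfl (fun a _ => h1 a)]
  split_ifs with h
  · rfl
  · exact Finset.sum_const_zero

theorem slc_adT_one_emb (k n : ℕ) (hn : 1 ≤ n) (c : Fin (nc k) → o) :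
    slc (n - 1) 0 0 (adT o k 1 (emb o k n c)) = (n : o) • emb o (k + 1) (n - 1) (Kv o k c) := by
  apply MT_ext
  intro b l hb hl
  rw [cf_smul, cf_emb (k := k + 1) (n - 1) _ ⟨b, hb⟩ l, cf_of_lt _ b l hb (by omega)]
  show (if dg (k + 1) b = n - 1 ∧ l = 0 then cf (adT o k 1 (emb o k n c)) b 0 else 0) = _
  by_cases hh : dg (k + 1) b = n - 1 ∧ l = 0
  · rw [if_pos hh, if_pos hh, cf_adT k 1 _ b 0 hb]
    show _ = (n : o) * ∑ a : Fin (nc k), ((cc k a b : ℤ) : o) * c a
    rw [Finset.mul_sum]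
    apply Finset.sum_congr rfl
    intro a _
    have h2 : mulC (emb o k n c) a (1 : Fin 2) 0 = 0 := by
      unfold mulC
      rw [if_neg (by decide), if_pos rfl]
    have h3 : conC (emb o k n c) a (1 : Fin 2) 0 =
        ((dg k a - 0 : ℕ) : o) * cf (emb o k n c) a 0 := by
      unfold conC
      rw [if_neg (by decide)]
    rw [h2, h3, cf_emb, mul_zero, zero_add, Nat.sub_zero]
    by_cases hc : cc k a b = 0
    · rw [hc, Int.cast_zero, zero_mul, zero_mul, mul_zero]
    · have h4 := cc_dg _ _ _ hc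
      have h5 : dg k a = n := by omega
      rw [if_pos ⟨h5, rfl⟩, h5]
      ring
  · rw [if_neg hh, if_neg hh, mul_zero]

theorem cf_slc_self {k : ℕ} (n : ℕ) (x : MT o k) : slc n 0 0 x = emb o k n (cfv 0 x) := rfl

end

section

variable {o : Type} [CommRing o] [IsDomain o] [IsDiscreteValuationRing o] {p q : ℕ}

/-- The hypotheses on a stable family. -/
structure StabL (o : Type) [CommRing o] (p : ℕ) (V : ∀ k, Submodule o (MT o k)) : Prop where
  hpV : ∀ k, ∀ x : MT o k, (p : o) • x ∈ V k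
  hT : ∀ k, ∀ j : Fin 2, ∀ x ∈ V k, adT o k j x ∈ V (k + 1)
  hE : ∀ k, ∀ x ∈ V k, opE o k x ∈ V k
  hF : ∀ k, ∀ x ∈ V k, opF o k x ∈ V k

variable {V : ∀ k, Submodule o (MT o k)}

theorem Mv_mem (hV : StabL o p V) (k n : ℕ) (c : Fin (nc k) → o) (hc : c ∈ WW (V k) n) :
    Mv o k c ∈ WW (V (k + 1)) (n + 1) := by
  rw [mem_WW, ← adT_zero_emb]
  exact hV.hT k 0 _ hc

theorem unit_mem (M : Type) [AddCommGroup M] [Module o M] (U : Submodule o M) (r : o)
    (hr : IsUnit r) (x : M) (hx : r • x ∈ U) : x ∈ U := by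
  obtain ⟨u, rfl⟩ := hr
  have := U.smul_mem ((u⁻¹ : oˣ) : o) hx
  rwa [smul_smul, Units.inv_mul, one_smul] at this

theorem Kv_mem (h : RingHyp o p q) (hp : 11 ≤ p) (hV : StabL o p V) (k n : ℕ) (hn : 1 ≤ n)
    (hn6 : n ≤ 6) (c : Fin (nc k) → o) (hc : c ∈ WW (V k) n) :
    Kv o k c ∈ WW (V (k + 1)) (n - 1) := by
  have h1 := slc_mem h hp (V (k + 1)) (hV.hE (k + 1)) (hV.hF (k + 1)) _ (hV.hT k 1 _ hc)
    (n - 1) 0 0 (Nat.zero_le _) (Nat.zero_le _)
  rw [slc_adT_one_emb k n hn c] at h1
  rw [mem_WW]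
  exact unit_mem _ _ _ (isUnit_small h hp n hn (by omega)) _ h1

/-- Vectors without components of the right degree. -/
theorem mem_WW_of_off {k n : ℕ} (U : Submodule o (MT o k)) (c : Fin (nc k) → o)
    (hc : ∀ a : Fin (nc k), dg k a = n → c a = 0) : c ∈ WW U n := by
  have : emb o k n c = 0 := by
    funext a l
    show (if dg k a = n ∧ (l : ℕ) = 0 then c a else 0) = 0
    split_ifs with hh
    · exact hc a hh.1
    · rfl
  rw [mem_WW, this]
  exact Submodule.zero_mem _

theorem mem_WW_congr {k n : ℕ} (U : Submodule o (MT o k)) (c d : Fin (nc k) → o)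
    (hc : ∀ a : Fin (nc k), dg k a = n → c a = d a) (hd : d ∈ WW U n) : c ∈ WW U n := by
  have h1 : c - d ∈ WW U n := mem_WW_of_off U _ (fun a ha => by
    rw [Pi.sub_apply, hc a ha, sub_self])
  have := (WW U n).add_mem h1 hd
  rwa [sub_add_cancel] at this

/-- The unit vector. -/
def ev1 (o : Type) [CommRing o] (k : ℕ) (a : ℕ) : Fin (nc k) → o :=
  fun b => if (b : ℕ) = a then 1 else 0

/-- The number of summands of degree `n` not selected by `s`. -/
def cnt0 (s : ℕ → Bool) (k n : ℕ) : ℕ :=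
  ((Finset.range (nc k)).filter fun a => dg k a = n ∧ s a = false).card

/-- The coordinate submodule of multiplicity spaces. -/
def coW (o : Type) [CommRing o] (p : ℕ) (s : ℕ → Bool) (k n : ℕ) :
    Submodule o (Fin (nc k) → o) where
  carrier := {c | ∀ a : Fin (nc k), dg k a = n → s a = false → (p : o) ∣ c a}
  zero_mem' := fun _ _ _ => dvd_zero _
  add_mem' := by
    intro x y hx hy a h1 h2
    exact dvd_add (hx a h1 h2) (hy a h1 h2)
  smul_mem' := by
    intro r x hx a h1 h2
    exact (hx a h1 h2).mul_left r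

theorem len_coW (h : RingHyp o p q) (s : ℕ → Bool) (k n : ℕ) :
    Finite ((Fin (nc k) → o) ⧸ coW o p s k n) ∧ len q (coW o p s k n) = cnt0 s k n := by
  classical
  let T : Type := {a : Fin (nc k) // dg k a = n ∧ s a = false}
  let Φ : (Fin (nc k) → o) →ₗ[o] (T → o ⧸ Ideal.span {(p : o)}) :=
    LinearMap.pi fun t => (Ideal.span {(p : o)}).mkQ ∘ₗ LinearMap.proj t.1
  have hfin : Finite (o ⧸ Ideal.span {(p : o)}) := LC.finite_res h
  have hcT : Nat.card T = cnt0 s k n := by
    unfold cnt0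
    rw [Nat.card_eq_fintype_card, Fintype.card_subtype]
    apply Finset.card_bij (fun (a : Fin (nc k)) _ => (a : ℕ))
    · intro a ha
      rw [Finset.mem_filter] at ha ⊢
      exact ⟨Finset.mem_range.2 a.isLt, ha.2⟩
    · intro a _ b _ hab
      exact Fin.ext hab
    · intro b hb
      rw [Finset.mem_filter, Finset.mem_range] at hb
      exact ⟨⟨b, hb.1⟩, Finset.mem_filter.2 ⟨Finset.mem_univ _, hb.2⟩, rfl⟩
  have hcard : Nat.card (T → o ⧸ Ideal.span {(p : o)}) = q ^ cnt0 s k n := by
    rw [Nat.card_fun, h.card, hcT]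
  have hsurj : Function.Surjective Φ := by
    intro y
    have hy : ∀ t : T, ∃ c : o, Submodule.Quotient.mk c = y t := fun t =>
      Submodule.Quotient.mk_surjective _ (y t)
    choose c hc using hy
    refine ⟨fun a => if ha : dg k a = n ∧ s a = false then c ⟨a, ha⟩ else 0, ?_⟩
    funext t
    rw [← hc t]
    show Submodule.Quotient.mk (if ha : dg k t.1 = n ∧ s t.1 = false then c ⟨t.1, ha⟩ else 0) = _
    rw [dif_pos t.2]
  apply ll_len_ker h Φ hsurj _ hcard
  intro x
  constructor
  · intro hx a h1 h2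
    have h3 := congrFun hx ⟨a, h1, h2⟩
    have h4 : (Submodule.Quotient.mk (x a) : o ⧸ Ideal.span {(p : o)}) = 0 := h3
    rw [Submodule.Quotient.mk_eq_zero, Ideal.mem_span_singleton] at h4
    exact h4
  · intro hx
    funext t
    show (Submodule.Quotient.mk (x t.1) : o ⧸ Ideal.span {(p : o)}) = 0
    rw [Submodule.Quotient.mk_eq_zero, Ideal.mem_span_singleton]
    exact hx t.1 t.2.1 t.2.2

theorem coW_le (hV : StabL o p V) (s : ℕ → Bool) (k n : ℕ)
    (hs : ∀ a, a < nc k → dg k a = n → s a = true → ev1 o k a ∈ WW (V k) n) :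
    coW o p s k n ≤ WW (V k) n := by
  intro c hc
  have h1 : c = ∑ a : Fin (nc k), c a • ev1 o k a := by
    funext b
    rw [Finset.sum_apply, Finset.sum_eq_single b]
    · simp [ev1]
    · intro a _ ha
      have : ¬ ((b : ℕ) = (a : ℕ)) := fun h => ha (Fin.ext h.symm)
      simp [ev1, this]
    · intro hn
      exact absurd (Finset.mem_univ _) hn
  rw [h1]
  apply Submodule.sum_mem
  intro a _
  by_cases hd : dg k a = n
  · cases hsa : s a with
    | true => exact Submodule.smul_mem _ _ (hs a a.isLt hd hsa)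
    | false =>
      obtain ⟨r, hr⟩ := hc a hd hsa
      rw [hr, mul_smul]
      exact WW_smul (V k) (hV.hpV k) n _
  · apply mem_WW_of_off
    intro b hb
    have : ¬ ((b : ℕ) = (a : ℕ)) := by
      intro hh
      apply hd
      rw [← hh, hb]
    rw [Pi.smul_apply, ev1, if_neg this, smul_zero]

theorem len_WW_le (h : RingHyp o p q) (hV : StabL o p V) (s : ℕ → Bool) (k n : ℕ)
    (hs : ∀ a, a < nc k → dg k a = n → s a = true → ev1 o k a ∈ WW (V k) n) :
    len q (WW (V k) n) ≤ cnt0 s k n := by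
  rw [← (len_coW h s k n).2]
  exact ll_len_anti (coW_le hV s k n hs) (len_coW h s k n).1

theorem WW_eq_coW (h : RingHyp o p q) (hV : StabL o p V) (s : ℕ → Bool) (k n : ℕ)
    (hs : ∀ a, a < nc k → dg k a = n → s a = true → ev1 o k a ∈ WW (V k) n)
    (hlen : cnt0 s k n ≤ len q (WW (V k) n)) : coW o p s k n = WW (V k) n := by
  apply ll_eq_of_len h (coW_le hV s k n hs) (len_coW h s k n).1
  rw [(len_coW h s k n).2]
  exact hlen

theorem WW_top (h : RingHyp o p q) (hV : StabL o p V) (k n : ℕ)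
    (hlen : len q (WW (V k) n) = 0) (c : Fin (nc k) → o) : c ∈ WW (V k) n := by
  rw [ll_top_of_len h (WW_finite h (V k) (hV.hpV k) n) hlen]
  exact Submodule.mem_top

theorem WW_len_zero (k n : ℕ) (U : Submodule o (MT o k)) (hn : ∀ a : Fin (nc k), dg k a ≠ n) :
    len q (WW U n) = 0 := by
  have : WW U n = ⊤ := by
    rw [eq_top_iff]
    intro c _
    exact mem_WW_of_off _ _ (fun a ha => absurd ha (hn a))
  rw [this]
  exact ll_len_top

end

end Pool.Agent.TZ8
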