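import Pool.Agent.TZ8.LList2

set_option autoImplicit false
set_option linter.unusedSectionVars false
set_option synthInstance.maxSize 2000

/-! The numbers of a stable family and their constraints. -/

namespace Pool.Agent.TZ8

open Pool.Agent.TZ

/-- The position of `(k, n)` in the list of the numbers. -/
def wl (L : List ℕ) : ℕ → ℕ → ℕ
  | 0, 1 => L.getD 0 0
  | 1, 0 => L.getD 1 0
  | 2, 1 => L.getD 2 0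
  | 3, 2 => L.getD 3 0
  | 4, 3 => L.getD 4 0
  | 4, 1 => L.getD 5 0
  | 5, 4 => L.getD 6 0
  | 5, 2 => L.getD 7 0
  | 5, 0 => L.getD 8 0
  | 6, 5 => L.getD 9 0
  | 6, 3 => L.getD 10 0
  | 6, 1 => L.getD 11 0
  | 7, 6 => L.getD 12 0
  | 7, 4 => L.getD 13 0
  | 7, 2 => L.getD 14 0
  | 7, 0 => L.getD 15 0
  | _, _ => 0

/-- The length of level `k`. -/
def ll (L : List ℕ) (k : ℕ) : ℕ := ∑ n ∈ Finset.range 7, (n + 1) * wl L k n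

/-- The Euler form. -/
def chiL (L : List ℕ) : ℤ :=
  ∑ k ∈ Finset.range 8, ((mm k : ℤ) - ll L k) * ll L k -
    2 * ∑ k ∈ Finset.range 7, ((mm k : ℤ) - ll L k) * ll L (k + 1)

/-- The numbers of the families `sC i`. -/
def patC : ℕ → List ℕ
  | 0 => [0, 0, 0, 0, 0, 0, 0, 0, 0, 0, 0, 0, 0, 0, 0, 0]
  | 1 => [1, 0, 0, 0, 0, 0, 0, 0, 0, 0, 0, 0, 0, 0, 0, 0]
  | 2 => [1, 1, 0, 0, 0, 0, 0, 0, 0, 0, 0, 0, 0, 0, 0, 0]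
  | 3 => [1, 1, 1, 0, 0, 0, 0, 0, 0, 0, 0, 0, 0, 0, 0, 0]
  | 4 => [1, 1, 1, 1, 0, 0, 0, 0, 0, 0, 0, 0, 0, 0, 0, 0]
  | 5 => [1, 1, 1, 1, 1, 1, 0, 0, 0, 0, 0, 0, 0, 0, 0, 0]
  | 6 => [1, 1, 1, 1, 1, 1, 1, 1, 1, 0, 0, 0, 0, 0, 0, 0]
  | 7 => [1, 1, 1, 1, 1, 1, 1, 1, 1, 1, 2, 2, 0, 0, 0, 0]
  | _ => [1, 1, 1, 1, 1, 1, 1, 1, 1, 1, 2, 2, 1, 2, 4, 1]

/-- The numbers of the family `sS`. -/
def patE : List ℕ := [1, 1, 1, 1, 1, 1, 1, 1, 1, 0, 1, 1, 0, 1, 2, 1]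

/-- The numbers of the family `sT`. -/
def patT : List ℕ := [1, 1, 1, 1, 1, 1, 0, 0, 1, 0, 0, 1, 0, 0, 1, 0]

/-- The numbers of the family `sF`. -/
def patF : List ℕ := [1, 1, 1, 1, 0, 1, 0, 0, 1, 0, 0, 1, 0, 0, 1, 0]

/-- The numbers of the family `sG`. -/
def patG : List ℕ := [1, 1, 1, 1, 1, 0, 1, 0, 0, 1, 1, 0, 1, 1, 1, 0]

/-- The conclusion. -/
def Cn (L : List ℕ) (tA tB : Bool) : Prop :=
  1 ≤ chiL L ∨ (∃ i < 9, L = patC i) ∨ (L = patE ∧ tA = true ∧ tB = true) ∨ L = patT ∨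
    L = patF ∨ L = patG

instance (L : List ℕ) (tA tB : Bool) : Decidable (Cn L tA tB) := by
  unfold Cn
  infer_instance

/-- Last stage. -/
def N5 (x0 x1 x2 x3 g f P Q R P6 A B : ℕ) (tA tB : Bool) (P7 C : ℕ) : Prop :=
  ∀ D < A + B + 1, ∀ E < 2, ((Q = 0 → E = 0) ∧ (R = 0 → E = 0) ∧ (B = 0 → E = 0) ∧
    (B ≤ 1 → tB = false → E = 0)) →
    Cn [x0, x1, x2, x3, g, f, P, Q, R, P6, A, B, P7, C, D, E] tA tB

instance (x0 x1 x2 x3 g f P Q R P6 A B : ℕ) (tA tB : Bool) (P7 C : ℕ) :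
    Decidable (N5 x0 x1 x2 x3 g f P Q R P6 A B tA tB P7 C) := by
  unfold N5
  infer_instance

/-- Fourth stage. -/
def N4 (x0 x1 x2 x3 g f P Q R P6 A B : ℕ) (tA tB : Bool) : Prop :=
  ∀ P7 < P6 + 1, ∀ C < A + 1, ((P6 = 0 → C ≤ 1) ∧ (P6 = 0 → P = 0 → C = 0) ∧
    (P6 = 0 → Q = 0 → C = 0) ∧ (P6 = 0 → A ≤ 1 → tA = false → C = 0)) →
    N5 x0 x1 x2 x3 g f P Q R P6 A B tA tB P7 C

instance (x0 x1 x2 x3 g f P Q R P6 A B : ℕ) (tA tB : Bool) :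
    Decidable (N4 x0 x1 x2 x3 g f P Q R P6 A B tA tB) := by
  unfold N4
  infer_instance

/-- Third stage. -/
def N3 (x0 x1 x2 x3 g f P Q R P6 : ℕ) : Prop :=
  ∀ A < 3, ((P = 0 → A ≤ 1) ∧ (Q = 0 → A ≤ 1) ∧ (P = 0 → Q = 0 → A = 0)) →
    ∀ B < 3, ((Q = 0 → B ≤ 1) ∧ (R = 0 → B ≤ 1) ∧ (Q = 0 → R = 0 → B = 0)) →
    ∀ tA tB : Bool, N4 x0 x1 x2 x3 g f P Q R P6 A B tA tB

instance (x0 x1 x2 x3 g f P Q R P6 : ℕ) : Decidable (N3 x0 x1 x2 x3 g f P Q R P6) := by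
  unfold N3
  infer_instance

/-- Second stage. -/
def N2 (x0 x1 x2 x3 g f : ℕ) : Prop :=
  ∀ P < g + 1, ∀ Q < g + 1, Q ≤ f → ∀ R < f + 1, ∀ P6 < P + 1, N3 x0 x1 x2 x3 g f P Q R P6

instance (x0 x1 x2 x3 g f : ℕ) : Decidable (N2 x0 x1 x2 x3 g f) := by
  unfold N2
  infer_instance

theorem num_check : ∀ x0 < 2, ∀ x1 < x0 + 1, ∀ x2 < x1 + 1, ∀ x3 < x2 + 1, ∀ g < x3 + 1,
    ∀ f < x3 + 1, N2 x0 x1 x2 x3 g f := by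
  decide +kernel

end Pool.Agent.TZ8
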