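import Pool.Agent.TZ8.LList2

set_option autoImplicit false
set_option linter.unusedSectionVars false

/-! Relations between the multiplicity spaces of consecutive levels. -/

namespace Pool.Agent.TZ8

open Pool.Agent.TZ

variable {o : Type} [CommRing o] [IsDomain o] [IsDiscreteValuationRing o] {p q : ℕ}
  {V : ∀ k, Submodule o (MT o k)}

theorem isUnit_intCast {z : ℤ} (h : IsUnit ((z.natAbs : ℕ) : o)) : IsUnit ((z : ℤ) : o) := by
  rcases Int.natAbs_eq z with h1 | h1
  · rw [h1, Int.cast_natCast]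
    exact h
  · rw [h1, Int.cast_neg, Int.cast_natCast]
    exact h.neg

theorem isUnit_cm (h : RingHyp o p q) (hp : 11 ≤ p) (k a b : ℕ) (h0 : cm k a b ≠ 0) :
    IsUnit ((cm k a b : ℤ) : o) := by
  apply isUnit_intCast
  have h1 : 1 ≤ (cm k a b).natAbs ∧ (cm k a b).natAbs ≤ 10 := by
    unfold cm at h0 ⊢
    split at h0 <;> first | decide | exact absurd rfl h0
  exact isUnit_small h hp _ h1.1 h1.2

theorem isUnit_cc (h : RingHyp o p q) (hp : 11 ≤ p) (k a b : ℕ) (h0 : cc k a b ≠ 0) :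
    IsUnit ((cc k a b : ℤ) : o) := by
  apply isUnit_intCast
  have h1 : 1 ≤ (cc k a b).natAbs ∧ (cc k a b).natAbs ≤ 10 := by
    unfold cc at h0 ⊢
    split at h0 <;> first | decide | exact absurd rfl h0
  exact isUnit_small h hp _ h1.1 h1.2

theorem Mv_ev1 (k a : ℕ) (ha : a < nc k) (b : Fin (nc (k + 1))) :
    Mv o k (ev1 o k a) b = ((cm k a b : ℤ) : o) := by
  show ∑ a' : Fin (nc k), ((cm k a' b : ℤ) : o) * ev1 o k a a' = _
  rw [Finset.sum_eq_single ⟨a, ha⟩]
  · simp [ev1]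
  · intro a' _ hne
    have : ¬ ((a' : ℕ) = a) := fun hh => hne (Fin.ext hh)
    simp [ev1, this]
  · intro hn
    exact absurd (Finset.mem_univ _) hn

theorem Kv_ev1 (k a : ℕ) (ha : a < nc k) (b : Fin (nc (k + 1))) :
    Kv o k (ev1 o k a) b = ((cc k a b : ℤ) : o) := by
  show ∑ a' : Fin (nc k), ((cc k a' b : ℤ) : o) * ev1 o k a a' = _
  rw [Finset.sum_eq_single ⟨a, ha⟩]
  · simp [ev1]
  · intro a' _ hne
    have : ¬ ((a' : ℕ) = a) := fun hh => hne (Fin.ext hh)
    simp [ev1, this]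
  · intro hn
    exact absurd (Finset.mem_univ _) hn

/-- Multiplication with a single target. -/
theorem Mstep (h : RingHyp o p q) (hp : 11 ≤ p) (hV : StabL o p V) (k a b n : ℕ)
    (hk : a < nc k ∧ b < nc (k + 1) ∧ cm k a b ≠ 0 ∧ ∀ b' < nc (k + 1), b' ≠ b → cm k a b' = 0)
    (hm : ev1 o k a ∈ WW (V k) n) : ev1 o (k + 1) b ∈ WW (V (k + 1)) (n + 1) := by
  obtain ⟨ha, _, h0, h1⟩ := hk
  have h2 := Mv_mem hV k n _ hm
  have h3 : Mv o k (ev1 o k a) = ((cm k a b : ℤ) : o) • ev1 o (k + 1) b := by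
    funext b'
    rw [Mv_ev1 k a ha b', Pi.smul_apply, smul_eq_mul]
    by_cases hb : (b' : ℕ) = b
    · rw [hb]
      simp [ev1, hb]
    · rw [h1 b' b'.isLt hb]
      simp [ev1, hb]
  rw [h3] at h2
  exact unit_mem _ _ _ (isUnit_cm h hp k a b h0) _ h2

/-- Contraction with a single target. -/
theorem Kstep (h : RingHyp o p q) (hp : 11 ≤ p) (hV : StabL o p V) (k a b n : ℕ)
    (hn : 1 ≤ n ∧ n ≤ 6)
    (hk : a < nc k ∧ b < nc (k + 1) ∧ cc k a b ≠ 0 ∧ ∀ b' < nc (k + 1), b' ≠ b → cc k a b' = 0)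
    (hm : ev1 o k a ∈ WW (V k) n) : ev1 o (k + 1) b ∈ WW (V (k + 1)) (n - 1) := by
  obtain ⟨ha, _, h0, h1⟩ := hk
  have h2 := Kv_mem h hp hV k n hn.1 hn.2 _ hm
  have h3 : Kv o k (ev1 o k a) = ((cc k a b : ℤ) : o) • ev1 o (k + 1) b := by
    funext b'
    rw [Kv_ev1 k a ha b', Pi.smul_apply, smul_eq_mul]
    by_cases hb : (b' : ℕ) = b
    · rw [hb]
      simp [ev1, hb]
    · rw [h1 b' b'.isLt hb]
      simp [ev1, hb]
  rw [h3] at h2
  exact unit_mem _ _ _ (isUnit_cc h hp k a b h0) _ h2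

/-- Bound without membership. -/
theorem len_le_cnt (h : RingHyp o p q) (hV : StabL o p V) (k n : ℕ) :
    len q (WW (V k) n) ≤ cnt0 (fun _ => false) k n :=
  len_WW_le h hV _ k n (fun a _ _ hs => absurd hs (by simp))

/-- Bound with one membership. -/
theorem len_le_cnt1 (h : RingHyp o p q) (hV : StabL o p V) (k n a : ℕ)
    (hm : ev1 o k a ∈ WW (V k) n) :
    len q (WW (V k) n) ≤ cnt0 (fun b => decide (b = a)) k n := by
  apply len_WW_le h hV _ k n
  intro b _ _ hs
  rw [decide_eq_true_eq] at hs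
  rw [hs]
  exact hm

/-- Bound with two memberships. -/
theorem len_le_cnt2 (h : RingHyp o p q) (hV : StabL o p V) (k n a a' : ℕ)
    (hm : ev1 o k a ∈ WW (V k) n) (hm' : ev1 o k a' ∈ WW (V k) n) :
    len q (WW (V k) n) ≤ cnt0 (fun b => decide (b = a) || decide (b = a')) k n := by
  apply len_WW_le h hV _ k n
  intro b _ _ hs
  rw [Bool.or_eq_true, decide_eq_true_eq, decide_eq_true_eq] at hs
  rcases hs with hs | hs
  · rw [hs]
    exact hm
  · rw [hs]
    exact hm'

/-- If the length is maximal, all coefficients are divisible by `p`. -/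
theorem dvd_of_len (h : RingHyp o p q) (hV : StabL o p V) (k n : ℕ)
    (hlen : cnt0 (fun _ => false) k n ≤ len q (WW (V k) n)) (c : Fin (nc k) → o)
    (hc : c ∈ WW (V k) n) (a : Fin (nc k)) (ha : dg k a = n) : (p : o) ∣ c a := by
  rw [← WW_eq_coW h hV (fun _ => false) k n (fun a _ _ hs => absurd hs (by simp)) hlen] at hc
  exact hc a ha rfl

/-- A coefficient that is a unit, if a unit vector is missing. -/
theorem exists_unit (h : RingHyp o p q) (hV : StabL o p V) (k n a a' : ℕ) (ha' : a' < nc k)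
    (hk : ∀ b < nc k, dg k b = n → decide (b = a) = false → b = a')
    (hlen : len q (WW (V k) n) ≤ cnt0 (fun b => decide (b = a)) k n)
    (hm : ev1 o k a ∉ WW (V k) n) : ∃ c ∈ WW (V k) n, IsUnit (c ⟨a', ha'⟩) := by
  by_contra hcon
  push Not at hcon
  apply hm
  have hle : WW (V k) n ≤ coW o p (fun b => decide (b = a)) k n := by
    intro c hc b hb1 hb2
    have h1 := hk b b.isLt hb1 hb2
    have h2 : b = ⟨a', ha'⟩ := Fin.ext h1
    rw [h2]
    have h3 := hcon c hc
    have h4 : c ⟨a', ha'⟩ ∈ IsLocalRing.maximalIdeal o := h3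
    rw [h.irr.maximalIdeal_eq, Ideal.mem_span_singleton] at h4
    exact h4
  rw [ll_eq_of_len h hle (WW_finite h (V k) (hV.hpV k) n) (by
    rw [(len_coW h _ k n).2]
    exact hlen)]
  intro b _ hb2
  rw [decide_eq_false_iff_not] at hb2
  show (p : o) ∣ ev1 o k a b
  rw [ev1, if_neg hb2]
  exact dvd_zero _

theorem sum5 (f : Fin (nc 6) → o) : ∑ a : Fin (nc 6), f a =
    f ⟨0, by decide⟩ + f ⟨1, by decide⟩ + f ⟨2, by decide⟩ + f ⟨3, by decide⟩ +
      f ⟨4, by decide⟩ :=
  Fin.sum_univ_five _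

theorem fin8 (b : Fin (nc 7)) : (b : ℕ) = 0 ∨ (b : ℕ) = 1 ∨ (b : ℕ) = 2 ∨ (b : ℕ) = 3 ∨
    (b : ℕ) = 4 ∨ (b : ℕ) = 5 ∨ (b : ℕ) = 6 ∨ (b : ℕ) = 7 := by
  have h : (b : ℕ) < 8 := b.isLt
  omega

/-- First comparison of lengths. -/
theorem len_C_le (h : RingHyp o p q) (hp : 11 ≤ p) (hV : StabL o p V) :
    len q (WW (V 7) 4) ≤ len q (WW (V 6) 3) := by
  let f : (Fin (nc 7) → o) →ₗ[o] (Fin (nc 6) → o) :=
    { toFun := fun c a => if (a : ℕ) = 1 then c ⟨1, by decide⟩ else
        if (a : ℕ) = 2 then 3 * c ⟨2, by decide⟩ else 0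
      map_add' := by
        intro c d
        funext a
        simp only [Pi.add_apply]
        split_ifs <;> ring
      map_smul' := by
        intro r c
        funext a
        simp only [Pi.smul_apply, smul_eq_mul, RingHom.id_apply]
        split_ifs <;> ring }
  have hfin := WW_finite h (V 6) (hV.hpV 6) 3
  obtain ⟨h1, h2⟩ := ll_len_comap (q := q) f (WW (V 6) 3) hfin
  refine le_trans (ll_len_anti ?_ h1) h2
  intro c hc
  have h3 := Mv_mem hV 6 3 _ hc
  have h4 : (3 : o) • c ∈ WW (V 7) 4 := by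
    apply mem_WW_congr _ _ _ _ h3
    intro b hb
    show (3 : o) * c b = ∑ a : Fin (nc 6), ((cm 6 a b : ℤ) : o) * f c a
    rw [sum5]
    rcases fin8 b with hb0 | hb0 | hb0 | hb0 | hb0 | hb0 | hb0 | hb0
    all_goals
      rw [hb0] at hb
      try exact absurd hb (by decide)
    · rw [hb0]
      have hbb : b = ⟨1, by decide⟩ := Fin.ext hb0
      rw [hbb]
      simp [cm, f]
    · rw [hb0]
      have hbb : b = ⟨2, by decide⟩ := Fin.ext hb0
      rw [hbb]
      simp [cm, f]
  have h5 : IsUnit (3 : o) := by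
    have := isUnit_small h hp 3 (by norm_num) (by norm_num)
    exact_mod_cast this
  exact unit_mem _ _ _ h5 _ h4

/-- Second comparison of lengths. -/
theorem len_D_le (h : RingHyp o p q) (hp : 11 ≤ p) (hV : StabL o p V) :
    len q (WW (V 7) 2) ≤ len q (WW (V 6) 3) + len q (WW (V 6) 1) := by
  let f : (Fin (nc 7) → o) →ₗ[o] (Fin (nc 6) → o) :=
    { toFun := fun c a => if (a : ℕ) = 1 then c ⟨3, by decide⟩ else
        if (a : ℕ) = 2 then c ⟨4, by decide⟩ else 0
      map_add' := by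
        intro c d
        funext a
        simp only [Pi.add_apply]
        split_ifs <;> ring
      map_smul' := by
        intro r c
        funext a
        simp only [Pi.smul_apply, smul_eq_mul, RingHom.id_apply]
        split_ifs <;> ring }
  let f' : (Fin (nc 7) → o) →ₗ[o] (Fin (nc 6) → o) :=
    { toFun := fun c a => if (a : ℕ) = 3 then c ⟨5, by decide⟩ else
        if (a : ℕ) = 4 then c ⟨6, by decide⟩ else 0
      map_add' := by
        intro c d
        funext a
        simp only [Pi.add_apply]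
        split_ifs <;> ring
      map_smul' := by
        intro r c
        funext a
        simp only [Pi.smul_apply, smul_eq_mul, RingHom.id_apply]
        split_ifs <;> ring }
  obtain ⟨h1, h2⟩ := ll_len_comap (q := q) f (WW (V 6) 3) (WW_finite h (V 6) (hV.hpV 6) 3)
  obtain ⟨h1', h2'⟩ := ll_len_comap (q := q) f' (WW (V 6) 1) (WW_finite h (V 6) (hV.hpV 6) 1)
  obtain ⟨h6, h7⟩ := ll_len_inf h _ _ h1 h1'
  refine le_trans (ll_len_anti ?_ h6) (le_trans h7 (add_le_add h2 h2'))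
  intro c hc
  have h3 := Kv_mem h hp hV 6 3 (by norm_num) (by norm_num) _ hc.1
  have h3' := Mv_mem hV 6 1 _ hc.2
  apply mem_WW_congr _ _ _ _ ((WW (V 7) 2).add_mem h3 h3')
  intro b hb
  show c b = ∑ a : Fin (nc 6), ((cc 6 a b : ℤ) : o) * f c a +
    ∑ a : Fin (nc 6), ((cm 6 a b : ℤ) : o) * f' c a
  rw [sum5, sum5]
  rcases fin8 b with hb0 | hb0 | hb0 | hb0 | hb0 | hb0 | hb0 | hb0
  all_goals
    rw [hb0] at hb
    try exact absurd hb (by decide)
  · rw [hb0]
    have hbb : b = ⟨3, by decide⟩ := Fin.ext hb0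
    rw [hbb]
    simp [cm, cc, f, f']
  · rw [hb0]
    have hbb : b = ⟨4, by decide⟩ := Fin.ext hb0
    rw [hbb]
    simp [cm, cc, f, f']
  · rw [hb0]
    have hbb : b = ⟨5, by decide⟩ := Fin.ext hb0
    rw [hbb]
    simp [cm, cc, f, f']
  · rw [hb0]
    have hbb : b = ⟨6, by decide⟩ := Fin.ext hb0
    rw [hbb]
    simp [cm, cc, f, f']

end Pool.Agent.TZ8
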