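import Pool.Agent.TZ8.LList3
import Pool.Agent.TZ8.LList4

set_option autoImplicit false
set_option linter.unusedSectionVars false

/-! The stable families with nonpositive Euler form. -/

namespace Pool.Agent.TZ8

open Pool.Agent.TZ

variable {o : Type} [CommRing o] [IsDomain o] [IsDiscreteValuationRing o] {p q : ℕ}
  {V : ∀ k, Submodule o (MT o k)}

/-- The numbers of a family. -/
noncomputable def nums (q : ℕ) (V : ∀ k, Submodule o (MT o k)) : List ℕ :=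
  [len q (WW (V 0) 1), len q (WW (V 1) 0), len q (WW (V 2) 1), len q (WW (V 3) 2),
    len q (WW (V 4) 3), len q (WW (V 4) 1), len q (WW (V 5) 4), len q (WW (V 5) 2),
    len q (WW (V 5) 0), len q (WW (V 6) 5), len q (WW (V 6) 3), len q (WW (V 6) 1),
    len q (WW (V 7) 6), len q (WW (V 7) 4), len q (WW (V 7) 2), len q (WW (V 7) 0)]

theorem wl_nums (k n : ℕ) (hk : k < 8) (hn : n < 7) : len q (WW (V k) n) = wl (nums q V) k n := by
  interval_cases k <;> interval_cases n <;>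
    first
    | rfl
    | exact WW_len_zero _ _ _ (by decide)

theorem len_nums (h : RingHyp o p q) (hp : 11 ≤ p) (hV : StabL o p V) (k : ℕ) (hk : k < 8) :
    len q (V k) = ll (nums q V) k := by
  rw [len_eq_WW h hp (V k) (hV.hpV k) (hV.hE k) (hV.hF k)]
  apply Finset.sum_congr rfl
  intro n hn
  rw [wl_nums k n hk (Finset.mem_range.1 hn)]

theorem chi_nums (h : RingHyp o p q) (hp : 11 ≤ p) (hV : StabL o p V) :
    chi q V = chiL (nums q V) := by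
  unfold chi chiL
  congr 1
  · apply Finset.sum_congr rfl
    intro k hk
    rw [len_nums h hp hV k (Finset.mem_range.1 hk)]
  · congr 1
    apply Finset.sum_congr rfl
    intro k hk
    rw [Finset.mem_range] at hk
    rw [len_nums h hp hV k (by omega), len_nums h hp hV (k + 1) (by omega)]

/-- Identification of a family. -/
theorem eq_coP (h : RingHyp o p q) (hp : 11 ≤ p) (hV : StabL o p V) (s : ℕ → ℕ → Bool)
    (hs : ∀ k < 8, ∀ a < nc k, s k a = true → ev1 o k a ∈ WW (V k) (dg k a))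
    (hlen : ∀ k < 8, ∀ n < 7, cnt0 (s k) k n ≤ wl (nums q V) k n) : V = coP o p s := by
  funext k
  rcases Nat.lt_or_ge k 8 with hk | hk
  · ext x
    rw [mem_iff_WW h hp (V k) (hV.hpV k) (hV.hE k) (hV.hF k) x, mem_coP]
    have h1 : ∀ n < 7, coW o p (s k) k n = WW (V k) n := by
      intro n hn
      apply WW_eq_coW h hV (s k) k n
      · intro a ha hd hsa
        have := hs k hk a ha hsa
        rw [hd] at this
        exact this
      · rw [wl_nums k n hk hn]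
        exact hlen k hk n hn
    constructor
    · intro hx a ha hsa i
      rcases Nat.lt_or_ge (dg k a) i with hi | hi
      · rw [cf_deg _ _ _ hi]
        exact dvd_zero _
      · have hd6 := dg_le_six k a
        have h2 := hx (dg k a) (by omega) i hi
        rw [← h1 (dg k a) (by omega)] at h2
        exact h2 ⟨a, ha⟩ rfl hsa
    · intro hx n hn i _
      rw [← h1 n hn]
      intro a _ hsa
      exact hx a a.isLt hsa i
  · have := subsingleton_MT (o := o) k hk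
    ext x
    have hx0 : x = 0 := Subsingleton.elim _ _
    rw [hx0]
    exact ⟨fun _ => Submodule.zero_mem _, fun _ => Submodule.zero_mem _⟩

theorem dvd_one_false (h : RingHyp o p q) (hd : (p : o) ∣ 1) : False :=
  h.irr.not_isUnit (isUnit_of_dvd_one hd)

theorem vecP (h : RingHyp o p q) (hp : 11 ≤ p) (hV : StabL o p V)
    (hm : ev1 o 5 0 ∈ WW (V 5) 4) :
    ev1 o 6 1 + (3 : o) • ev1 o 6 2 ∈ WW (V 6) 3 := by
  have h1 := Kv_mem h hp hV 5 4 (by norm_num) (by norm_num) _ hm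
  apply mem_WW_congr _ _ _ _ h1
  intro b hb
  rw [Kv_ev1 5 0 (by decide) b]
  have hb5 : (b : ℕ) < 5 := b.isLt
  have hb' : (b : ℕ) = 0 ∨ (b : ℕ) = 1 ∨ (b : ℕ) = 2 ∨ (b : ℕ) = 3 ∨ (b : ℕ) = 4 := by omega
  rcases hb' with hb0 | hb0 | hb0 | hb0 | hb0
  all_goals
    rw [hb0] at hb
    try exact absurd hb (by decide)
  · rw [hb0]
    simp [ev1, cc, hb0]
  · rw [hb0]
    simp [ev1, cc, hb0]

theorem vecR (hV : StabL o p V) (hm : ev1 o 5 2 ∈ WW (V 5) 0) :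
    (3 : o) • ev1 o 6 3 + ev1 o 6 4 ∈ WW (V 6) 1 := by
  have h1 := Mv_mem hV 5 0 _ hm
  apply mem_WW_congr _ _ _ _ h1
  intro b hb
  rw [Mv_ev1 5 2 (by decide) b]
  have hb5 : (b : ℕ) < 5 := b.isLt
  have hb' : (b : ℕ) = 0 ∨ (b : ℕ) = 1 ∨ (b : ℕ) = 2 ∨ (b : ℕ) = 3 ∨ (b : ℕ) = 4 := by omega
  rcases hb' with hb0 | hb0 | hb0 | hb0 | hb0
  all_goals
    rw [hb0] at hb
    try exact absurd hb (by decide)
  · rw [hb0]
    simp [ev1, cm, hb0]
  · rw [hb0]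
    simp [ev1, cm, hb0]

theorem isUnit_three (h : RingHyp o p q) (hp : 11 ≤ p) : IsUnit (3 : o) := by
  have := isUnit_small h hp 3 (by norm_num) (by norm_num)
  exact_mod_cast this

/-- `c` and `e_1` in `W_4` give `e_2`, if the second coordinate of `c` is a unit. -/
theorem e2_mem (U : Submodule o (MT o 7)) (c : Fin (nc 7) → o) (hc : c ∈ WW U 4)
    (h1 : ev1 o 7 1 ∈ WW U 4) (hu : IsUnit (c ⟨2, by decide⟩)) : ev1 o 7 2 ∈ WW U 4 := by
  apply unit_mem _ _ _ hu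
  have h2 : c - c ⟨1, by decide⟩ • ev1 o 7 1 ∈ WW U 4 :=
    Submodule.sub_mem _ hc (Submodule.smul_mem _ _ h1)
  apply mem_WW_congr _ _ _ _ h2
  intro b hb
  rw [Pi.smul_apply, Pi.sub_apply, Pi.smul_apply, smul_eq_mul, smul_eq_mul]
  rcases fin8 b with hb0 | hb0 | hb0 | hb0 | hb0 | hb0 | hb0 | hb0
  all_goals
    rw [hb0] at hb
    try exact absurd hb (by decide)
  · have hbb : b = ⟨1, by decide⟩ := Fin.ext hb0
    rw [hbb]
    simp [ev1]
  · have hbb : b = ⟨2, by decide⟩ := Fin.ext hb0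
    rw [hbb]
    simp [ev1]

theorem Mv6_one (c : Fin (nc 6) → o) : Mv o 6 c ⟨1, by decide⟩ = 3 * c ⟨1, by decide⟩ := by
  show ∑ a : Fin (nc 6), ((cm 6 a 1 : ℤ) : o) * c a = _
  rw [sum5]
  simp [cm]

theorem Mv6_two (c : Fin (nc 6) → o) : Mv o 6 c ⟨2, by decide⟩ = c ⟨2, by decide⟩ := by
  show ∑ a : Fin (nc 6), ((cm 6 a 2 : ℤ) : o) * c a = _
  rw [sum5]
  simp [cm]

theorem Kv6_seven (c : Fin (nc 6) → o) : Kv o 6 c ⟨7, by decide⟩ = c ⟨3, by decide⟩ := by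
  show ∑ a : Fin (nc 6), ((cc 6 a 7 : ℤ) : o) * c a = _
  rw [sum5]
  simp [cc]

theorem e7_mem (h : RingHyp o p q) (hp : 11 ≤ p) (hV : StabL o p V) (c : Fin (nc 6) → o)
    (hc : c ∈ WW (V 6) 1) (hu : IsUnit (c ⟨3, by decide⟩)) : ev1 o 7 7 ∈ WW (V 7) 0 := by
  have h1 := Kv_mem h hp hV 6 1 (by norm_num) (by norm_num) _ hc
  apply unit_mem _ _ _ hu
  apply mem_WW_congr _ _ _ _ h1
  intro b hb
  rcases fin8 b with hb0 | hb0 | hb0 | hb0 | hb0 | hb0 | hb0 | hb0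
  all_goals
    rw [hb0] at hb
    try exact absurd hb (by decide)
  · have hbb : b = ⟨7, by decide⟩ := Fin.ext hb0
    rw [hbb, Kv6_seven]
    simp [ev1]

/-- The constraints. -/
structure Cst (o : Type) [CommRing o] (q : ℕ) (V : ∀ k, Submodule o (MT o k)) : Prop where
  b0 : len q (WW (V 0) 1) < 2
  i1 : len q (WW (V 1) 0) < len q (WW (V 0) 1) + 1
  i2 : len q (WW (V 2) 1) < len q (WW (V 1) 0) + 1
  i3 : len q (WW (V 3) 2) < len q (WW (V 2) 1) + 1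
  ig : len q (WW (V 4) 3) < len q (WW (V 3) 2) + 1
  jf : len q (WW (V 4) 1) < len q (WW (V 3) 2) + 1
  iP : len q (WW (V 5) 4) < len q (WW (V 4) 3) + 1
  iQ : len q (WW (V 5) 2) < len q (WW (V 4) 3) + 1
  jQ : len q (WW (V 5) 2) ≤ len q (WW (V 4) 1)
  iR : len q (WW (V 5) 0) < len q (WW (V 4) 1) + 1
  iP6 : len q (WW (V 6) 5) < len q (WW (V 5) 4) + 1
  bA : len q (WW (V 6) 3) < 3
  bB : len q (WW (V 6) 1) < 3
  iP7 : len q (WW (V 7) 6) < len q (WW (V 6) 5) + 1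
  bC : len q (WW (V 7) 4) < len q (WW (V 6) 3) + 1
  bD : len q (WW (V 7) 2) < len q (WW (V 6) 3) + len q (WW (V 6) 1) + 1
  bE : len q (WW (V 7) 0) < 2

/-- Membership from length zero. -/
theorem topm (h : RingHyp o p q) (hV : StabL o p V) (k n a : ℕ)
    (hl : len q (WW (V k) n) = 0) : ev1 o k a ∈ WW (V k) n := WW_top h hV k n hl _

theorem cst_of (h : RingHyp o p q) (hp : 11 ≤ p) (hV : StabL o p V) : Cst o q V := by
  have b0 : len q (WW (V 0) 1) ≤ 1 := len_le_cnt h hV 0 1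
  have b1 : len q (WW (V 1) 0) ≤ 1 := len_le_cnt h hV 1 0
  have b2 : len q (WW (V 2) 1) ≤ 1 := len_le_cnt h hV 2 1
  have b3 : len q (WW (V 3) 2) ≤ 1 := len_le_cnt h hV 3 2
  have bg : len q (WW (V 4) 3) ≤ 1 := len_le_cnt h hV 4 3
  have bf : len q (WW (V 4) 1) ≤ 1 := len_le_cnt h hV 4 1
  have bP : len q (WW (V 5) 4) ≤ 1 := len_le_cnt h hV 5 4
  have bQ : len q (WW (V 5) 2) ≤ 1 := len_le_cnt h hV 5 2
  have bR : len q (WW (V 5) 0) ≤ 1 := len_le_cnt h hV 5 0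
  have bP6 : len q (WW (V 6) 5) ≤ 1 := len_le_cnt h hV 6 5
  have bA : len q (WW (V 6) 3) ≤ 2 := len_le_cnt h hV 6 3
  have bB : len q (WW (V 6) 1) ≤ 2 := len_le_cnt h hV 6 1
  have bP7 : len q (WW (V 7) 6) ≤ 1 := len_le_cnt h hV 7 6
  have bE : len q (WW (V 7) 0) ≤ 1 := len_le_cnt h hV 7 0
  have hCA := len_C_le h hp hV
  have hDAB := len_D_le h hp hV
  have i1 : len q (WW (V 0) 1) = 0 → len q (WW (V 1) 0) ≤ 0 := fun hl =>
    len_le_cnt1 h hV 1 0 0 (Kstep h hp hV 0 0 0 1 (by decide) (by decide) (topm h hV 0 1 0 hl))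
  have i2 : len q (WW (V 1) 0) = 0 → len q (WW (V 2) 1) ≤ 0 := fun hl =>
    len_le_cnt1 h hV 2 1 0 (Mstep h hp hV 1 0 0 0 (by decide) (topm h hV 1 0 0 hl))
  have i3 : len q (WW (V 2) 1) = 0 → len q (WW (V 3) 2) ≤ 0 := fun hl =>
    len_le_cnt1 h hV 3 2 0 (Mstep h hp hV 2 0 0 1 (by decide) (topm h hV 2 1 0 hl))
  have ig : len q (WW (V 3) 2) = 0 → len q (WW (V 4) 3) ≤ 0 := fun hl =>
    len_le_cnt1 h hV 4 3 0 (Mstep h hp hV 3 0 0 2 (by decide) (topm h hV 3 2 0 hl))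
  have jf : len q (WW (V 3) 2) = 0 → len q (WW (V 4) 1) ≤ 0 := fun hl =>
    len_le_cnt1 h hV 4 1 1 (Kstep h hp hV 3 0 1 2 (by decide) (by decide) (topm h hV 3 2 0 hl))
  have iP : len q (WW (V 4) 3) = 0 → len q (WW (V 5) 4) ≤ 0 := fun hl =>
    len_le_cnt1 h hV 5 4 0 (Mstep h hp hV 4 0 0 3 (by decide) (topm h hV 4 3 0 hl))
  have iQ : len q (WW (V 4) 3) = 0 → len q (WW (V 5) 2) ≤ 0 := fun hl =>
    len_le_cnt1 h hV 5 2 1 (Kstep h hp hV 4 0 1 3 (by decide) (by decide) (topm h hV 4 3 0 hl))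
  have jQ : len q (WW (V 4) 1) = 0 → len q (WW (V 5) 2) ≤ 0 := fun hl =>
    len_le_cnt1 h hV 5 2 1 (Mstep h hp hV 4 1 1 1 (by decide) (topm h hV 4 1 1 hl))
  have iR : len q (WW (V 4) 1) = 0 → len q (WW (V 5) 0) ≤ 0 := fun hl =>
    len_le_cnt1 h hV 5 0 2 (Kstep h hp hV 4 1 2 1 (by decide) (by decide) (topm h hV 4 1 1 hl))
  have iP6 : len q (WW (V 5) 4) = 0 → len q (WW (V 6) 5) ≤ 0 := fun hl =>
    len_le_cnt1 h hV 6 5 0 (Mstep h hp hV 5 0 0 4 (by decide) (topm h hV 5 4 0 hl))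
  have iP7 : len q (WW (V 6) 5) = 0 → len q (WW (V 7) 6) ≤ 0 := fun hl =>
    len_le_cnt1 h hV 7 6 0 (Mstep h hp hV 6 0 0 5 (by decide) (topm h hV 6 5 0 hl))
  constructor <;> omega

theorem m62 (h : RingHyp o p q) (hp : 11 ≤ p) (hV : StabL o p V)
    (hl : len q (WW (V 5) 2) = 0) : ev1 o 6 2 ∈ WW (V 6) 3 :=
  Mstep h hp hV 5 1 2 2 (by decide) (topm h hV 5 2 1 hl)

theorem m63 (h : RingHyp o p q) (hp : 11 ≤ p) (hV : StabL o p V)
    (hl : len q (WW (V 5) 2) = 0) : ev1 o 6 3 ∈ WW (V 6) 1 :=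
  Kstep h hp hV 5 1 3 2 (by decide) (by decide) (topm h hV 5 2 1 hl)

theorem m71 (h : RingHyp o p q) (hp : 11 ≤ p) (hV : StabL o p V)
    (hl : len q (WW (V 6) 5) = 0) : ev1 o 7 1 ∈ WW (V 7) 4 :=
  Kstep h hp hV 6 0 1 5 (by decide) (by decide) (topm h hV 6 5 0 hl)

theorem m77 (h : RingHyp o p q) (hp : 11 ≤ p) (hV : StabL o p V)
    (hm : ev1 o 6 3 ∈ WW (V 6) 1) : ev1 o 7 7 ∈ WW (V 7) 0 :=
  Kstep h hp hV 6 3 7 1 (by decide) (by decide) hm

theorem vP (h : RingHyp o p q) (hp : 11 ≤ p) (hV : StabL o p V)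
    (hl : len q (WW (V 5) 4) = 0) : ev1 o 6 1 + (3 : o) • ev1 o 6 2 ∈ WW (V 6) 3 :=
  vecP h hp hV (topm h hV 5 4 0 hl)

theorem vR (h : RingHyp o p q) (hV : StabL o p V)
    (hl : len q (WW (V 5) 0) = 0) : (3 : o) • ev1 o 6 3 + ev1 o 6 4 ∈ WW (V 6) 1 :=
  vecR hV (topm h hV 5 0 2 hl)

theorem cA1 (h : RingHyp o p q) (hp : 11 ≤ p) (hV : StabL o p V)
    (hl : len q (WW (V 5) 4) = 0) : len q (WW (V 6) 3) ≤ 1 := by
  by_contra hcon
  have h4 := dvd_of_len h hV 6 3 (by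
    have : cnt0 (fun _ => false) 6 3 = 2 := by decide
    rw [this]
    omega) _ (vP h hp hV hl) ⟨1, by decide⟩ (by decide)
  have h5 : (ev1 o 6 1 + (3 : o) • ev1 o 6 2) ⟨1, by decide⟩ = 1 := by simp [ev1]
  rw [h5] at h4
  exact dvd_one_false h h4

theorem cA2 (h : RingHyp o p q) (hp : 11 ≤ p) (hV : StabL o p V)
    (hl : len q (WW (V 5) 2) = 0) : len q (WW (V 6) 3) ≤ 1 :=
  len_le_cnt1 h hV 6 3 2 (m62 h hp hV hl)

theorem cA3 (h : RingHyp o p q) (hp : 11 ≤ p) (hV : StabL o p V)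
    (hl : len q (WW (V 5) 4) = 0) (hl' : len q (WW (V 5) 2) = 0) :
    len q (WW (V 6) 3) = 0 := by
  apply Nat.le_zero.1
  apply len_le_cnt2 h hV 6 3 1 2 _ (m62 h hp hV hl')
  have := (WW (V 6) 3).sub_mem (vP h hp hV hl) ((WW (V 6) 3).smul_mem (3 : o) (m62 h hp hV hl'))
  rwa [add_sub_cancel_right] at this

theorem cB1 (h : RingHyp o p q) (hp : 11 ≤ p) (hV : StabL o p V)
    (hl : len q (WW (V 5) 2) = 0) : len q (WW (V 6) 1) ≤ 1 :=
  len_le_cnt1 h hV 6 1 3 (m63 h hp hV hl)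

theorem cB2 (h : RingHyp o p q) (hp : 11 ≤ p) (hV : StabL o p V)
    (hl : len q (WW (V 5) 0) = 0) : len q (WW (V 6) 1) ≤ 1 := by
  by_contra hcon
  have h4 := dvd_of_len h hV 6 1 (by
    have : cnt0 (fun _ => false) 6 1 = 2 := by decide
    rw [this]
    omega) _ (vR h hV hl) ⟨4, by decide⟩ (by decide)
  have h5 : ((3 : o) • ev1 o 6 3 + ev1 o 6 4) ⟨4, by decide⟩ = 1 := by simp [ev1]
  rw [h5] at h4
  exact dvd_one_false h h4

theorem cB3 (h : RingHyp o p q) (hp : 11 ≤ p) (hV : StabL o p V)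
    (hl : len q (WW (V 5) 2) = 0) (hl' : len q (WW (V 5) 0) = 0) :
    len q (WW (V 6) 1) = 0 := by
  apply Nat.le_zero.1
  apply len_le_cnt2 h hV 6 1 3 4 (m63 h hp hV hl)
  have := (WW (V 6) 1).sub_mem (vR h hV hl') ((WW (V 6) 1).smul_mem (3 : o) (m63 h hp hV hl))
  rwa [add_sub_cancel_left] at this

theorem cC1 (h : RingHyp o p q) (hp : 11 ≤ p) (hV : StabL o p V)
    (hl : len q (WW (V 6) 5) = 0) : len q (WW (V 7) 4) ≤ 1 :=
  len_le_cnt1 h hV 7 4 1 (m71 h hp hV hl)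

theorem cC2 (h : RingHyp o p q) (hp : 11 ≤ p) (hV : StabL o p V)
    (hl : len q (WW (V 6) 5) = 0) (hm : ev1 o 7 2 ∈ WW (V 7) 4) :
    len q (WW (V 7) 4) = 0 :=
  Nat.le_zero.1 (len_le_cnt2 h hV 7 4 1 2 (m71 h hp hV hl) hm)

theorem cC3 (h : RingHyp o p q) (hp : 11 ≤ p) (hV : StabL o p V)
    (hl : len q (WW (V 6) 5) = 0) (hl' : len q (WW (V 5) 4) = 0) :
    len q (WW (V 7) 4) = 0 := by
  apply cC2 h hp hV hl
  apply e2_mem _ _ (Mv_mem hV 6 3 _ (vP h hp hV hl')) (m71 h hp hV hl)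
  rw [Mv6_two]
  have h5 : (ev1 o 6 1 + (3 : o) • ev1 o 6 2) ⟨2, by decide⟩ = 3 := by simp [ev1]
  rw [h5]
  exact isUnit_three h hp

theorem cC4 (h : RingHyp o p q) (hp : 11 ≤ p) (hV : StabL o p V)
    (hl : len q (WW (V 6) 5) = 0) (hl' : len q (WW (V 5) 2) = 0) :
    len q (WW (V 7) 4) = 0 :=
  cC2 h hp hV hl (Mstep h hp hV 6 2 2 3 (by decide) (m62 h hp hV hl'))

open Classical in
theorem cC5 (h : RingHyp o p q) (hp : 11 ≤ p) (hV : StabL o p V)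
    (hl : len q (WW (V 6) 5) = 0) (hl' : len q (WW (V 6) 3) ≤ 1)
    (hm : decide (ev1 o 6 1 ∈ WW (V 6) 3) = false) : len q (WW (V 7) 4) = 0 := by
  rw [decide_eq_false_iff_not] at hm
  obtain ⟨c, hc, hcu⟩ := exists_unit h hV 6 3 1 2 (by decide) (by decide)
    (by
      have : cnt0 (fun b => decide (b = 1)) 6 3 = 1 := by decide
      rw [this]
      exact hl') hm
  apply cC2 h hp hV hl
  apply e2_mem _ _ (Mv_mem hV 6 3 _ hc) (m71 h hp hV hl)
  rw [Mv6_two]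
  exact hcu

theorem cE0 (h : RingHyp o p q) (hV : StabL o p V) (hm : ev1 o 7 7 ∈ WW (V 7) 0) :
    len q (WW (V 7) 0) = 0 :=
  Nat.le_zero.1 (len_le_cnt1 h hV 7 0 7 hm)

theorem cE1 (h : RingHyp o p q) (hp : 11 ≤ p) (hV : StabL o p V)
    (hl : len q (WW (V 5) 2) = 0) : len q (WW (V 7) 0) = 0 :=
  cE0 h hV (m77 h hp hV (m63 h hp hV hl))

theorem cE2 (h : RingHyp o p q) (hp : 11 ≤ p) (hV : StabL o p V)
    (hl : len q (WW (V 5) 0) = 0) : len q (WW (V 7) 0) = 0 := by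
  apply cE0 h hV
  apply e7_mem h hp hV _ (vR h hV hl)
  have h5 : ((3 : o) • ev1 o 6 3 + ev1 o 6 4) ⟨3, by decide⟩ = 3 := by simp [ev1]
  rw [h5]
  exact isUnit_three h hp

theorem cE3 (h : RingHyp o p q) (hp : 11 ≤ p) (hV : StabL o p V)
    (hl : len q (WW (V 6) 1) = 0) : len q (WW (V 7) 0) = 0 :=
  cE0 h hV (m77 h hp hV (topm h hV 6 1 3 hl))

open Classical in
theorem cE4 (h : RingHyp o p q) (hp : 11 ≤ p) (hV : StabL o p V)
    (hl : len q (WW (V 6) 1) ≤ 1) (hm : decide (ev1 o 6 4 ∈ WW (V 6) 1) = false) :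
    len q (WW (V 7) 0) = 0 := by
  rw [decide_eq_false_iff_not] at hm
  obtain ⟨c, hc, hcu⟩ := exists_unit h hV 6 1 4 3 (by decide) (by decide)
    (by
      have : cnt0 (fun b => decide (b = 4)) 6 1 = 1 := by decide
      rw [this]
      exact hl) hm
  exact cE0 h hV (e7_mem h hp hV c hc hcu)

end Pool.Agent.TZ8
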