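import Pool.Agent.TZ8.LRigDG

set_option autoImplicit false

/-! Rigidity of the submodule with ranks 2, 4, 8, 15. -/

namespace Pool.Agent.TZ8

open Pool.Agent.TZ

theorem chk_GG : chkAll sG sG tblG 333 certG = true := by decide +kernel

variable {o : Type} [CommRing o] [IsDomain o] [IsDiscreteValuationRing o] {p q : ℕ}

theorem noHom_GG (h : RingHyp o p q) (hp : 11 ≤ p) : NoHom o p sG sG :=
  noHom_of_chk (isUnit_two_ten h hp) chk_GG

end Pool.Agent.TZ8
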