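import Pool.Agent.TZ8.LRigDT
import Pool.Agent.TZ8.LRigDF

set_option autoImplicit false

/-! Rigidity of the submodules with ranks 8, 16, 27 and 4, 8, 16, 27. -/

namespace Pool.Agent.TZ8

open Pool.Agent.TZ

theorem chk_TT : chkAll sT sT tblT 121 certT = true := by decide +kernel

theorem chk_TF : chkAll sT sF tblT 121 certT = true := by decide +kernel

theorem chk_FF : chkAll sF sF tblF 129 certF = true := by decide +kernel

variable {o : Type} [CommRing o] [IsDomain o] [IsDiscreteValuationRing o] {p q : ℕ}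

theorem noHom_TT (h : RingHyp o p q) (hp : 11 ≤ p) : NoHom o p sT sT :=
  noHom_of_chk (isUnit_two_ten h hp) chk_TT

theorem noHom_TF (h : RingHyp o p q) (hp : 11 ≤ p) : NoHom o p sT sF :=
  noHom_of_chk (isUnit_two_ten h hp) chk_TF

theorem noHom_FF (h : RingHyp o p q) (hp : 11 ≤ p) : NoHom o p sF sF :=
  noHom_of_chk (isUnit_two_ten h hp) chk_FF

end Pool.Agent.TZ8
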