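import Pool.Agent.TZ8.LRigS
import Pool.Agent.TZ8.LRigT
import Pool.Agent.TZ8.LRigG

set_option autoImplicit false
set_option linter.unusedSectionVars false

/-! Rigidity for all comparable pairs. -/

namespace Pool.Agent.TZ8

open Pool.Agent.TZ

variable {o : Type} [CommRing o] [IsDomain o] [IsDiscreteValuationRing o] {p q : ℕ}

/-- The list of the rigid families. -/
def rigL : List (ℕ → ℕ → Bool) :=
  [sC 0, sC 1, sC 2, sC 3, sC 4, sC 5, sC 6, sC 7, sC 8, sS, sT, sF, sG]

/-- Comparison of coordinate families. -/
theorem coP_le_iff (h : RingHyp o p q) (s s' : ℕ → ℕ → Bool) :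
    (∀ k, coP o p s k ≤ coP o p s' k) ↔
      ∀ k < 8, ∀ a < nc k, s k a = true → s' k a = true := by
  constructor
  · intro hle k _ a ha hsa
    by_contra hs'
    have hs'' : s' k a = false := by simpa using hs'
    have h1 : bv o k a 0 ∈ coP o p s k := by
      intro b hb i
      have hba : ¬ ((b : ℕ) = a) := by
        intro hba
        rw [hba, hsa] at hb
        exact absurd hb (by decide)
      simp only [bv]
      rw [if_neg (fun h => hba h.1)]
      exact dvd_zero _
    have h2 := hle k h1
    have h3 := h2 ⟨a, ha⟩ hs'' ⟨0, Nat.succ_pos _⟩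
    simp only [bv, and_self, if_true] at h3
    exact h.irr.not_isUnit (isUnit_of_dvd_one h3)
  · intro hle k x hx a hs' i
    rcases Nat.lt_or_ge k 8 with hk | hk
    · apply hx a _ i
      by_contra hs
      have := hle k hk a a.2 (by simpa using hs)
      rw [this] at hs'
      exact absurd hs' (by decide)
    · have h9 := a.2
      have h10 := nc_ge k hk
      omega

/-- A level-wise condition for the vanishing of all homomorphisms. -/
def condA (s s' : ℕ → ℕ → Bool) : Bool :=
  (List.range 8).all fun k => ((List.range (nc k)).all fun a => !(s k a)) ||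
    ((List.range (nc k)).all fun a => s' k a)

theorem noHom_of_condA {s s' : ℕ → ℕ → Bool} (hA : condA s s' = true) : NoHom o p s s' := by
  intro f _ k x hx a hs' i
  rcases Nat.lt_or_ge k 8 with hk | hk
  · unfold condA at hA
    rw [List.all_eq_true] at hA
    have h1 := hA k (List.mem_range.2 hk)
    rw [Bool.or_eq_true, List.all_eq_true, List.all_eq_true] at h1
    rcases h1 with h1 | h1
    · have h2 : x = 0 := by
        funext b
        apply hx b
        simpa using h1 b (List.mem_range.2 b.2)
      rw [h2, map_zero]
      exact dvd_zero _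
    · have := h1 a (List.mem_range.2 a.2)
      rw [hs'] at this
      exact absurd this (by decide)
  · have h9 := a.2
    have h10 := nc_ge k hk
    omega

/-- Comparison of patterns. -/
def leB (s s' : ℕ → ℕ → Bool) : Bool :=
  (List.range 8).all fun k => (List.range (nc k)).all fun a => !(s k a) || s' k a

theorem leB_of_le (h : RingHyp o p q) {s s' : ℕ → ℕ → Bool}
    (hle : ∀ k, coP o p s k ≤ coP o p s' k) : leB s s' = true := by
  rw [coP_le_iff h] at hle
  unfold leB
  rw [List.all_eq_true]
  intro k hk
  rw [List.all_eq_true]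
  intro a ha
  rw [List.mem_range] at hk ha
  have := hle k hk a ha
  cases hs : s k a
  · rfl
  · rw [this hs]
    rfl

theorem noHom_all (h : RingHyp o p q) (hp : 11 ≤ p) (s s' : ℕ → ℕ → Bool) (hs : s ∈ rigL)
    (hs' : s' ∈ rigL) (hle : ∀ k, coP o p s k ≤ coP o p s' k) : NoHom o p s s' := by
  have hB := leB_of_le h hle
  clear hle
  unfold rigL at hs hs'
  simp only [List.mem_cons, List.not_mem_nil, or_false] at hs hs'
  rcases hs with rfl | rfl | rfl | rfl | rfl | rfl | rfl | rfl | rfl | rfl | rfl | rfl | rfl <;>
  rcases hs' with rfl | rfl | rfl | rfl | rfl | rfl | rfl | rfl | rfl | rfl | rfl | rfl | rfl <;>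
  first
  | exact noHom_SS h hp
  | exact noHom_TT h hp
  | exact noHom_TF h hp
  | exact noHom_FF h hp
  | exact noHom_GG h hp
  | exact absurd hB (by decide)
  | exact noHom_of_condA (by decide)

/-- Colengths of the coordinate families. -/
theorem len_coP (h : RingHyp o p q) (s : ℕ → ℕ → Bool) (k : ℕ) :
    len q (coP o p s k) = ∑ a ∈ Finset.range (nc k), if s k a then 0 else dg k a + 1 := by
  have h1 : coP o p s k = Submodule.pi Set.univ (fun a : Fin (nc k) =>
      if s k a then (⊤ : Submodule o (Fin (dg k a + 1) → o)) else
        Submodule.pi Set.univ (fun _ => Ideal.span {(p : o)})) := by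
    ext x
    simp only [Submodule.mem_pi, Set.mem_univ, forall_true_left]
    constructor
    · intro hx a
      split_ifs with hs
      · trivial
      · intro i _
        exact Ideal.mem_span_singleton.2 (hx a (by simpa using hs) i)
    · intro hx a hs i
      have := hx a
      rw [if_neg (by rw [hs]; decide)] at this
      exact Ideal.mem_span_singleton.1 (this i (Set.mem_univ _))
  have h2 : Nat.card (MT o k ⧸ coP o p s k) =
      q ^ (∑ a ∈ Finset.range (nc k), if s k a then 0 else dg k a + 1) := by
    rw [h1, Nat.card_congr (Submodule.quotientPi _).toEquiv, Nat.card_pi, Finset.sum_range,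
      ← Finset.prod_pow_eq_pow_sum]
    refine Finset.prod_congr rfl fun a _ => ?_
    by_cases hs : s k a = true
    · rw [if_pos hs, if_pos hs, pow_zero]
      have : Subsingleton ((Fin (dg k a + 1) → o) ⧸ (⊤ : Submodule o (Fin (dg k a + 1) → o))) :=
        Submodule.Quotient.subsingleton_iff.2 rfl
      exact Nat.card_unique
    · rw [if_neg hs, if_neg hs, Nat.card_congr (Submodule.quotientPi _).toEquiv, Nat.card_pi]
      simp only [Finset.prod_const, Finset.card_univ, Fintype.card_fin]
      rw [h.card]
  unfold len
  rw [h2, Nat.log_pow h.one_lt]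

end Pool.Agent.TZ8
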