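import Pool.Agent.TZ8.LDefs

set_option autoImplicit false

/-!
Sparse integer certificates for the vanishing of homomorphisms in the model.
-/

namespace Pool.Agent.TZ8

/-- Sparse rows. -/
abbrev SRow : Type := List (ℕ × ℤ)

namespace SRow

variable {κ : Type} [AddCommGroup κ]

/-- The value of a row at `x`. -/
def ev (x : ℕ → κ) (r : SRow) : κ := (r.map fun t => t.2 • x t.1).sum

@[simp] theorem ev_nil (x : ℕ → κ) : ev x [] = 0 := rfl

@[simp] theorem ev_cons (x : ℕ → κ) (a : ℕ × ℤ) (r : SRow) :
    ev x (a :: r) = a.2 • x a.1 + ev x r := by simp [ev]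

theorem ev_append (x : ℕ → κ) (r s : SRow) : ev x (r ++ s) = ev x r + ev x s := by
  simp [ev]

/-- Insert a term. -/
def ins (a : ℕ) (c : ℤ) : SRow → SRow
  | [] => [(a, c)]
  | (b, d) :: r =>
    if a < b then (a, c) :: (b, d) :: r
    else if a = b then (if c + d = 0 then r else (a, c + d) :: r)
    else (b, d) :: ins a c r

theorem ev_ins (x : ℕ → κ) (a : ℕ) (c : ℤ) (r : SRow) :
    ev x (ins a c r) = c • x a + ev x r := by
  induction r with
  | nil => simp [ins]
  | cons h r ih =>
    obtain ⟨b, d⟩ := h
    unfold ins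
    split_ifs with h1 h2 h3
    · simp
    · subst h2
      rw [ev_cons, ← add_assoc, ← add_smul, h3, zero_smul, zero_add]
    · subst h2
      simp only [ev_cons, add_smul, add_assoc]
    · simp only [ev_cons, ih]
      abel

/-- Add a multiple of the first row to the second. -/
def addMul (c : ℤ) : SRow → SRow → SRow
  | [], s => s
  | (a, d) :: r, s => addMul c r (ins a (c * d) s)

theorem ev_addMul (x : ℕ → κ) (c : ℤ) (r s : SRow) :
    ev x (addMul c r s) = c • ev x r + ev x s := by
  induction r generalizing s with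
  | nil => simp [addMul]
  | cons h r ih =>
    obtain ⟨a, d⟩ := h
    simp only [addMul, ih, ev_ins, ev_cons, smul_add, mul_smul]
    abel

/-- The combination of rows given by a certificate. -/
def comb (eq : ℕ → SRow) : List (ℕ × ℤ) → SRow
  | [] => []
  | (e, c) :: l => addMul c (eq e) (comb eq l)

theorem ev_comb (x : ℕ → κ) (eq : ℕ → SRow) (h : ∀ e, ev x (eq e) = 0) (l : List (ℕ × ℤ)) :
    ev x (comb eq l) = 0 := by
  induction l with
  | nil => simp [comb]
  | cons a l ih =>
    obtain ⟨e, c⟩ := a
    simp only [comb, ev_addMul, h, ih, smul_zero, add_zero]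

end SRow

end Pool.Agent.TZ8
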