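import Pool.Agent.TZ8.LGen
import Pool.Agent.TZ8.LRigC

set_option autoImplicit false

/-!
The linear system satisfied by the coordinates of a homomorphism from a coordinate submodule to the
quotient by a coordinate submodule.
-/

namespace Pool.Agent.TZ8

open Pool.Agent.TZ

/-- The code of a tuple. -/
def cde (k a i b l : ℕ) : ℕ := 4096 * k + 512 * a + 64 * i + 8 * b + l

/-- The coefficient of the contraction of a basis vector. -/
def ccj (k a i j : ℕ) : ℤ := if j = 0 then - (i : ℤ) else ((dg k a - i : ℕ) : ℤ)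

/-- The index of the contraction of a basis vector. -/
def icj (i j : ℕ) : ℕ := if j = 0 then i - 1 else i

/-- The coefficient in the coordinates of a contraction. -/
def dcj (k a l j : ℕ) : ℤ := if j = 0 then - ((l : ℤ) + 1) else ((dg k a - l : ℕ) : ℤ)

/-- The index in the coordinates of a contraction. -/
def jcj (l j : ℕ) : ℕ := if j = 0 then l + 1 else l

/-- The linear equation of `a, i, j, b, l` in level `k`. -/
def eqR (s s' : ℕ → ℕ → Bool) (k a i j b l : ℕ) : SRow :=
  if k < 7 ∧ a < nc k ∧ i ≤ dg k a ∧ b < nc (k + 1) ∧ l ≤ dg (k + 1) b ∧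
    s k a = true ∧ s' (k + 1) b = false then
    (List.range (nc (k + 1))).flatMap (fun b' =>
      [(cde (k + 1) b' (i + j) b l, cm k a b'),
        (cde (k + 1) b' (icj i j) b l, cc k a b' * ccj k a i j)]) ++
    (List.range (nc k)).flatMap (fun a' =>
      (if l < j ∨ dg k a' + 1 ≤ l - j then [] else [(cde k a i a' (l - j), - cm k a' b)]) ++
        (if dg k a' + 1 ≤ jcj l j then [] else
          [(cde k a i a' (jcj l j), - (cc k a' b * dcj k a' l j))]))
  else []

/-- Remove the zero terms. -/
def SRow.nz (r : SRow) : SRow := r.filter fun t => t.2 ≠ 0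

theorem SRow.ev_nz {κ : Type} [AddCommGroup κ] (x : ℕ → κ) (r : SRow) :
    SRow.ev x r.nz = SRow.ev x r := by
  induction r with
  | nil => rfl
  | cons a r ih =>
    unfold SRow.nz at ih ⊢
    by_cases h : a.2 = 0
    · rw [List.filter_cons_of_neg (by simpa using h), ih, SRow.ev_cons, h, zero_smul, zero_add]
    · rw [List.filter_cons_of_pos (by simpa using h), SRow.ev_cons, SRow.ev_cons, ih]

/-- The equation with code `e`. -/
def eqN (s s' : ℕ → ℕ → Bool) (e : ℕ) : SRow :=
  (eqR s s' (e / 8192) ((e / 1024) % 8) ((e / 128) % 8) ((e / 64) % 2) ((e / 8) % 8) (e % 8)).nz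

theorem list_sum_range {κ : Type} [AddCommMonoid κ] (f : ℕ → κ) (n : ℕ) :
    ((List.range n).map f).sum = ∑ i ∈ Finset.range n, f i := by
  induction n with
  | zero => rfl
  | succ n ih => rw [List.range_succ, List.map_append, List.sum_append, ih,
      Finset.sum_range_succ]; simp

theorem SRow.ev_flatMap {κ : Type} [AddCommGroup κ] (x : ℕ → κ) (L : List ℕ) (g : ℕ → SRow) :
    SRow.ev x (L.flatMap g) = (L.map fun a => SRow.ev x (g a)).sum := by
  induction L with
  | nil => rfl
  | cons a L ih => rw [List.flatMap_cons, SRow.ev_append, ih, List.map_cons, List.sum_cons]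

theorem nc_le (k : ℕ) : nc k ≤ 8 := by
  unfold nc; split <;> omega

theorem dg_le6 (k a : ℕ) : dg k a ≤ 6 := by
  unfold dg; split <;> omega

section

variable {o : Type} [CommRing o]

theorem adT_bv {k a i : ℕ} (ha : a < nc k) (hi : i ≤ dg k a) (j : Fin 2) :
    adT o k j (bv o k a i) = ∑ b ∈ Finset.range (nc (k + 1)),
      ((cm k a b : ℤ) • bv o (k + 1) b (i + j) +
        (cc k a b * ccj k a i j : ℤ) • bv o (k + 1) b (icj i j)) := by
  funext b l
  have hL : adT o k j (bv o k a i) b l = (cm k a b : o) * mulC (bv o k a i) a j l +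
      (cc k a b : o) * conC (bv o k a i) a j l := by
    change ∑ a' : Fin (nc k), ((cm k a' b : o) * mulC (bv o k a i) a' j l +
      (cc k a' b : o) * conC (bv o k a i) a' j l) = _
    rw [Finset.sum_eq_single (⟨a, ha⟩ : Fin (nc k))]
    · intro c _ hc
      have hc' : (c : ℕ) ≠ a := fun h => hc (Fin.ext h)
      have h0 : ∀ l, cf (bv o k a i) (c : ℕ) l = 0 := fun l => by
        rw [cf_bv k a i _ _ ha hi, if_neg (fun h => hc' h.1)]
      have h1 : mulC (bv o k a i) (c : ℕ) j l = 0 := by
        unfold mulC; simp only [h0, ite_self]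
      have h2 : conC (bv o k a i) (c : ℕ) j l = 0 := by
        unfold conC; simp only [h0, mul_zero, neg_zero, ite_self]
      rw [h1, h2, mul_zero, mul_zero, add_zero]
    · intro h; exact absurd (Finset.mem_univ _) h
  rw [hL]
  rw [Finset.sum_apply, Finset.sum_apply]
  rw [Finset.sum_eq_single (b : ℕ)]
  · simp only [Pi.add_apply, Pi.smul_apply]
    have e1 : ∀ i', (bv o (k + 1) (b : ℕ) i') b l = if (l : ℕ) = i' then 1 else 0 := by
      intro i'; simp [bv]
    rw [e1, e1]
    unfold mulC conC ccj icj
    fin_cases j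
    · simp only [cf_bv k a i _ _ ha hi]
      simp only [if_true, true_and, add_zero]
      congr 1
      · split_ifs <;> simp
      · by_cases h : (l : ℕ) + 1 = i
        · subst h; simp
        · rw [if_neg h]
          by_cases h' : (l : ℕ) = i - 1
          · have : i = 0 := by omega
            subst this; simp
          · simp [h']
    · simp only [cf_bv k a i _ _ ha hi]
      simp only [one_ne_zero, if_false, true_and]
      congr 1
      · by_cases h : (l : ℕ) = 0
        · have : ¬ (l : ℕ) = i + 1 := by omega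
          simp [h]
        · by_cases h' : (l : ℕ) = i + 1
          · have : (l : ℕ) - 1 = i := by omega
            simp [h']
          · have : ¬ (l : ℕ) - 1 = i := by omega
            simp [h, h', this]
      · by_cases h : (l : ℕ) = i
        · simp [h]
        · simp [h]
  · intro c _ hc
    have : ∀ i', (bv o (k + 1) c i') b l = 0 := by
      intro i'
      unfold bv
      rw [if_neg]
      intro h
      exact hc h.1.symm
    simp [this]
  · intro h
    exact absurd (Finset.mem_range.2 b.2) h

end

section sem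

variable {o : Type} [CommRing o] (p : ℕ) (s s' : ℕ → ℕ → Bool)
  (f : ∀ k, MT o k →ₗ[o] MT o k)

/-- The coordinates of `f` modulo `p`, in the summands not in `s'`. -/
noncomputable def rX (k b l : ℕ) : MT o k →+ o ⧸ Ideal.span {(p : o)} where
  toFun x := if s' k b = false then Ideal.Quotient.mk _ (cf (f k x) b l) else 0
  map_zero' := by simp [cf_zero]
  map_add' x y := by
    split_ifs
    · rw [map_add, cf_add, map_add]
    · rw [add_zero]

/-- The unknowns. -/
noncomputable def rU (n : ℕ) : o ⧸ Ideal.span {(p : o)} :=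
  rX p s' f (n / 4096) (n / 8 % 8) (n % 8) (bv o (n / 4096) (n / 512 % 8) (n / 64 % 8))

theorem rU_cde {k a i b l : ℕ} (ha : a < 8) (hi : i < 8) (hb : b < 8) (hl : l < 8) :
    rU p s' f (cde k a i b l) = rX p s' f k b l (bv o k a i) := by
  unfold rU cde
  rw [show (4096 * k + 512 * a + 64 * i + 8 * b + l) / 4096 = k by omega,
    show (4096 * k + 512 * a + 64 * i + 8 * b + l) / 8 % 8 = b by omega,
    show (4096 * k + 512 * a + 64 * i + 8 * b + l) % 8 = l by omega,
    show (4096 * k + 512 * a + 64 * i + 8 * b + l) / 512 % 8 = a by omega,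
    show (4096 * k + 512 * a + 64 * i + 8 * b + l) / 64 % 8 = i by omega]

theorem mk_eq_of_dvd_sub {x y : o} (h : (p : o) ∣ x - y) :
    Ideal.Quotient.mk (Ideal.span {(p : o)}) x = Ideal.Quotient.mk (Ideal.span {(p : o)}) y := by
  rw [Ideal.Quotient.eq, Ideal.mem_span_singleton]
  exact h

variable {p s s' f}

theorem rX_adT (hW : ∀ k a b, k < 7 → a < nc k → b < nc (k + 1) → s' k a = true →
      s' (k + 1) b = false → cm k a b = 0 ∧ cc k a b = 0)
    (hf : ∀ k, ∀ j : Fin 2, ∀ x ∈ coB o s k,
      f (k + 1) (adT o k j x) - adT o k j (f k x) ∈ coP o p s' (k + 1))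
    {k b : ℕ} (hk : k < 7) (hb : b < nc (k + 1)) (hsb : s' (k + 1) b = false) (l : ℕ)
    (j : Fin 2) (x : MT o k) (hx : x ∈ coB o s k) :
    rX p s' f (k + 1) b l (adT o k j x) = ∑ a ∈ Finset.range (nc k),
      ((cm k a b : ℤ) • (if l < (j : ℕ) then 0 else rX p s' f k a (l - j) x) +
        (cc k a b * dcj k a l j : ℤ) • rX p s' f k a (jcj l j) x) := by
  have h1 := (mem_coP p s' (k + 1) _).1 (hf k j x hx) b hb hsb l
  rw [cf_sub] at h1
  have h2 : rX p s' f (k + 1) b l (adT o k j x) =
      Ideal.Quotient.mk _ (cf (adT o k j (f k x)) b l) := by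
    change (if s' (k + 1) b = false then _ else _) = _
    rw [if_pos hsb]
    exact mk_eq_of_dvd_sub p h1
  rw [h2, cf_adT k j _ b l hb, map_sum, Finset.sum_range]
  refine Finset.sum_congr rfl fun a _ => ?_
  by_cases hsa : s' k a = true
  · obtain ⟨h3, h4⟩ := hW k a b hk a.2 hb hsa hsb
    simp [h3, h4]
  · have hsa' : s' k a = false := by simpa using hsa
    have hX : ∀ l, rX p s' f k a l x = Ideal.Quotient.mk _ (cf (f k x) a l) := by
      intro l
      change (if s' k a = false then _ else _) = _
      rw [if_pos hsa']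
    simp only [hX]
    rw [map_add, map_mul, map_mul]
    congr 1
    · rw [zsmul_eq_mul]
      rw [map_intCast]
      congr 1
      unfold mulC
      fin_cases j
      · simp
      · by_cases h0 : l = 0
        · simp [h0]
        · rw [if_neg h0, if_neg (by norm_num), if_neg (by omega)]
    · rw [zsmul_eq_mul, Int.cast_mul, mul_assoc]
      rw [map_intCast]
      congr 1
      unfold conC dcj jcj
      fin_cases j
      · simp
        ring
      · simp

theorem rX_out {k a l : ℕ} (x : MT o k) (h : dg k a + 1 ≤ l) : rX p s' f k a l x = 0 := by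
  change (if s' k a = false then Ideal.Quotient.mk _ (cf (f k x) a l) else 0) = 0
  rw [cf_deg _ _ _ (by omega), map_zero, ite_self]

theorem bv_mem_coB' (s : ℕ → ℕ → Bool) (k a i : ℕ) (h : s k a = true) : bv o k a i ∈ coB o s k := by
  intro b hb
  funext l
  unfold bv
  rw [if_neg]
  · rfl
  · rintro ⟨h1, -⟩
    rw [h1, h] at hb
    exact absurd hb (by decide)

theorem ev_eqR (hW : ∀ k a b, k < 7 → a < nc k → b < nc (k + 1) → s' k a = true →
      s' (k + 1) b = false → cm k a b = 0 ∧ cc k a b = 0)
    (hf : ∀ k, ∀ j : Fin 2, ∀ x ∈ coB o s k,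
      f (k + 1) (adT o k j x) - adT o k j (f k x) ∈ coP o p s' (k + 1))
    (k a i j b l : ℕ) (hj : j < 2) : SRow.ev (rU p s' f) (eqR s s' k a i j b l) = 0 := by
  unfold eqR
  split_ifs with h
  swap
  · rfl
  obtain ⟨hk, ha, hi, hb, hl, hsa, hsb⟩ := h
  have hbv : bv o k a i ∈ coB o s k := bv_mem_coB' s k a i hsa
  have h1 := rX_adT hW hf hk hb hsb l ⟨j, hj⟩ _ hbv
  rw [adT_bv ha hi, map_sum] at h1
  simp only [map_add, map_zsmul] at h1
  have hn1 := nc_le k
  have hn2 := nc_le (k + 1)
  have hd1 := dg_le6 k a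
  have hd2 := dg_le6 (k + 1) b
  rw [SRow.ev_append, SRow.ev_flatMap, SRow.ev_flatMap, list_sum_range, list_sum_range]
  have e1 : ∑ b' ∈ Finset.range (nc (k + 1)), SRow.ev (rU p s' f)
      [(cde (k + 1) b' (i + j) b l, cm k a b'),
        (cde (k + 1) b' (icj i j) b l, cc k a b' * ccj k a i j)] =
      ∑ b' ∈ Finset.range (nc (k + 1)),
        (cm k a b' • rX p s' f (k + 1) b l (bv o (k + 1) b' (i + j)) +
          (cc k a b' * ccj k a i j) • rX p s' f (k + 1) b l (bv o (k + 1) b' (icj i j))) := by
    refine Finset.sum_congr rfl fun b' hb' => ?_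
    have hb'' := Finset.mem_range.1 hb'
    have hic : icj i j < 8 := by unfold icj; split_ifs <;> omega
    rw [SRow.ev_cons, SRow.ev_cons, SRow.ev_nil, add_zero,
      rU_cde p s' f (by omega) (by omega) (by omega) (by omega),
      rU_cde p s' f (by omega) hic (by omega) (by omega)]
  have e2 : ∑ a' ∈ Finset.range (nc k), SRow.ev (rU p s' f)
      ((if l < j ∨ dg k a' + 1 ≤ l - j then [] else [(cde k a i a' (l - j), - cm k a' b)]) ++
        (if dg k a' + 1 ≤ jcj l j then [] else
          [(cde k a i a' (jcj l j), - (cc k a' b * dcj k a' l j))])) =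
      - ∑ a' ∈ Finset.range (nc k),
      ((cm k a' b : ℤ) • (if l < j then 0 else rX p s' f k a' (l - j) (bv o k a i)) +
        (cc k a' b * dcj k a' l j : ℤ) • rX p s' f k a' (jcj l j) (bv o k a i)) := by
    rw [← Finset.sum_neg_distrib]
    refine Finset.sum_congr rfl fun a' ha' => ?_
    have ha'' := Finset.mem_range.1 ha'
    have hic : jcj l j < 8 := by unfold jcj; split_ifs <;> omega
    rw [SRow.ev_append, neg_add]
    congr 1
    · by_cases h2 : l < j
      · rw [if_pos (Or.inl h2), if_pos h2, smul_zero, neg_zero]; rfl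
      · rw [if_neg h2]
        by_cases h3 : dg k a' + 1 ≤ l - j
        · rw [if_pos (Or.inr h3), rX_out _ h3, smul_zero, neg_zero]; rfl
        · rw [if_neg (by tauto), SRow.ev_cons, SRow.ev_nil, add_zero, neg_smul,
            rU_cde p s' f (by omega) (by omega) (by omega) (by omega)]
    · by_cases h3 : dg k a' + 1 ≤ jcj l j
      · rw [if_pos h3, rX_out _ h3, smul_zero, neg_zero]; rfl
      · rw [if_neg h3, SRow.ev_cons, SRow.ev_nil, add_zero, neg_smul,
            rU_cde p s' f (by omega) (by omega) (by omega) hic]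
  rw [e1, e2, ← sub_eq_add_neg, sub_eq_zero]
  exact h1

theorem ev_eqN (hW : ∀ k a b, k < 7 → a < nc k → b < nc (k + 1) → s' k a = true →
      s' (k + 1) b = false → cm k a b = 0 ∧ cc k a b = 0)
    (hf : ∀ k, ∀ j : Fin 2, ∀ x ∈ coB o s k,
      f (k + 1) (adT o k j x) - adT o k j (f k x) ∈ coP o p s' (k + 1))
    (e : ℕ) : SRow.ev (rU p s' f) (eqN s s' e) = 0 := by
  unfold eqN
  rw [SRow.ev_nz]
  exact ev_eqR hW hf _ _ _ _ _ _ (Nat.mod_lt _ (by norm_num))

end sem

/-- Decode a list of words. -/
def decL : ℕ → ℕ → SRow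
  | 0, _ => []
  | n + 1, t => if t = 0 then [] else
      (t % 65536, ((t / 65536 % 65536 : ℕ) : ℤ) - 32768) :: decL n (t / 4294967296)

/-- Entry `i` of a table. -/
def tSlot (t i : ℕ) : ℕ := (t >>> (256 * i)) % 2 ^ 256

/-- The row of entry `i` of a table. -/
def tRow (t i : ℕ) : SRow := decL 8 (tSlot t i / 4294967296)

/-- Check a table of equations. -/
def chkTbl (s s' : ℕ → ℕ → Bool) (t n : ℕ) : Bool :=
  (List.range n).all (fun i => tRow t i == eqN s s' (tSlot t i % 65536)) &&
    (t >>> (256 * n) == 0)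

/-- The unknown of a certificate. -/
def cV (n : ℕ) : ℕ := n % 65536

/-- The multiple of the unknown of a certificate. -/
def cN (n : ℕ) : ℕ := n / 65536 % 65536

/-- Check a certificate. -/
def chk (t n : ℕ) : Bool :=
  SRow.comb (tRow t) (decL 200 (n / 4294967296)) == [(cV n, (cN n : ℤ))] &&
    Nat.gcd (cN n) (210 ^ 6) == cN n

/-- All unknowns. -/
def allV (s s' : ℕ → ℕ → Bool) : List ℕ :=
  (List.range 8).flatMap fun k => (List.range (nc k)).flatMap fun a =>
    if s k a then (List.range (dg k a + 1)).flatMap fun i =>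
      (List.range (nc k)).flatMap fun b =>
        if s' k b then [] else (List.range (dg k b + 1)).map fun l => cde k a i b l
    else []

/-- The quotient family is closed. -/
def chkW (s' : ℕ → ℕ → Bool) : Bool :=
  (List.range 7).all fun k => (List.range (nc k)).all fun a => (List.range (nc (k + 1))).all
    fun b => !(s' k a) || s' (k + 1) b || (cm k a b == 0 && cc k a b == 0)

/-- Check a system. -/
def chkAll (s s' : ℕ → ℕ → Bool) (t n : ℕ) (L : List ℕ) : Bool :=
  chkTbl s s' t n && L.all (chk t) && (L.map cV == allV s s') && chkW s'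

theorem chkW_iff {s' : ℕ → ℕ → Bool} (h : chkW s' = true) (k a b : ℕ) (hk : k < 7)
    (ha : a < nc k) (hb : b < nc (k + 1)) (h1 : s' k a = true) (h2 : s' (k + 1) b = false) :
    cm k a b = 0 ∧ cc k a b = 0 := by
  unfold chkW at h
  rw [List.all_eq_true] at h
  have h3 := h k (List.mem_range.2 hk)
  rw [List.all_eq_true] at h3
  have h4 := h3 a (List.mem_range.2 ha)
  rw [List.all_eq_true] at h4
  have h5 := h4 b (List.mem_range.2 hb)
  rw [h1, h2] at h5
  simpa using h5

section fin

variable {o : Type} [CommRing o] {p : ℕ} {s s' : ℕ → ℕ → Bool}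
  {f : ∀ k, MT o k →ₗ[o] MT o k}

theorem ev_tRow (hW : ∀ k a b, k < 7 → a < nc k → b < nc (k + 1) → s' k a = true →
      s' (k + 1) b = false → cm k a b = 0 ∧ cc k a b = 0)
    (hf : ∀ k, ∀ j : Fin 2, ∀ x ∈ coB o s k,
      f (k + 1) (adT o k j x) - adT o k j (f k x) ∈ coP o p s' (k + 1))
    {t n : ℕ} (h : chkTbl s s' t n = true) (i : ℕ) : SRow.ev (rU p s' f) (tRow t i) = 0 := by
  unfold chkTbl at h
  rw [Bool.and_eq_true] at h
  obtain ⟨h1, h2⟩ := h
  rcases Nat.lt_or_ge i n with hi | hi
  · rw [List.all_eq_true] at h1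
    have h3 := h1 i (List.mem_range.2 hi)
    rw [beq_iff_eq] at h3
    rw [h3]
    exact ev_eqN hW hf _
  · have h3 : t >>> (256 * i) = 0 := by
      rw [beq_iff_eq, Nat.shiftRight_eq_div_pow, Nat.div_eq_zero_iff] at h2
      rw [Nat.shiftRight_eq_div_pow, Nat.div_eq_zero_iff]
      rcases h2 with h2 | h2
      · exact absurd h2 (by positivity)
      · right
        exact lt_of_lt_of_le h2 (Nat.pow_le_pow_right (by norm_num) (by omega))
    have h4 : tRow t i = [] := by
      unfold tRow tSlot
      rw [h3]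
      rfl
    rw [h4]
    rfl

/-- The conclusion from the certificates. -/
theorem noHom_of_chk (hu : IsUnit (210 : o)) {t n : ℕ} {L : List ℕ}
    (h : chkAll s s' t n L = true) : NoHom o p s s' := by
  intro f hf k x hx
  unfold chkAll at h
  simp only [Bool.and_eq_true] at h
  obtain ⟨⟨⟨h1, h2⟩, h3⟩, h4⟩ := h
  have hW := chkW_iff h4
  have hrow := ev_tRow hW hf h1
  rw [beq_iff_eq] at h3
  -- all unknowns vanish
  have hz : ∀ v ∈ allV s s', rU p s' f v = 0 := by
    intro v hv
    rw [← h3, List.mem_map] at hv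
    obtain ⟨m, hm, rfl⟩ := hv
    rw [List.all_eq_true] at h2
    have h5 := h2 m hm
    unfold chk at h5
    rw [Bool.and_eq_true, beq_iff_eq, beq_iff_eq] at h5
    obtain ⟨h5, h6⟩ := h5
    have h7 := SRow.ev_comb (rU p s' f) (tRow t) hrow (decL 200 (m / 4294967296))
    rw [h5, SRow.ev_cons, SRow.ev_nil, add_zero] at h7
    have h8 : cN m ∣ 210 ^ 6 := by
      rw [← h6]
      exact Nat.gcd_dvd_right _ _
    have h9 : IsUnit ((cN m : ℕ) : o) := by
      obtain ⟨c, hc⟩ := h8
      have : IsUnit (((cN m : ℕ) : o) * (c : o)) := by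
        rw [← Nat.cast_mul, ← hc, Nat.cast_pow]
        exact hu.pow 6
      exact isUnit_of_mul_isUnit_left this
    have h10 : ((cN m : ℕ) : o) • rU p s' f (cV m) = 0 := by
      rw [← h7]
      simp [Nat.cast_smul_eq_nsmul]
    exact (h9.smul_eq_zero).1 h10
  -- values on the basis
  have hb : ∀ a i b l, a < nc k → i ≤ dg k a → s k a = true → b < nc k → s' k b = false →
      rX p s' f k b l (bv o k a i) = 0 := by
    intro a i b l ha hi hsa hb hsb
    rcases Nat.lt_or_ge k 8 with hk | hk
    swap
    · rw [nc_ge k hk] at ha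
      omega
    rcases Nat.lt_or_ge l (dg k b + 1) with hl | hl
    swap
    · exact rX_out _ hl
    have hn1 := nc_le k
    have hd1 := dg_le6 k a
    have hd2 := dg_le6 k b
    rw [← rU_cde p s' f (by omega) (by omega) (by omega) (by omega)]
    apply hz
    unfold allV
    simp only [List.mem_flatMap, List.mem_range]
    refine ⟨k, hk, a, ha, ?_⟩
    rw [if_pos hsa, List.mem_flatMap]
    refine ⟨i, List.mem_range.2 (by omega), ?_⟩
    rw [List.mem_flatMap]
    refine ⟨b, List.mem_range.2 hb, ?_⟩
    rw [if_neg (by rw [hsb]; decide), List.mem_map]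
    exact ⟨l, List.mem_range.2 hl, rfl⟩
  rw [mem_coP]
  intro b hb' hsb l
  have h11 : rX p s' f k b l x = 0 := by
    rw [eq_sum_bv x, map_sum]
    refine Finset.sum_eq_zero fun a _ => ?_
    rw [map_sum]
    refine Finset.sum_eq_zero fun i _ => ?_
    by_cases hsa : s k a = true
    · have h12 : rX p s' f k b l (x a i • bv o k a i) =
          x a i • rX p s' f k b l (bv o k a i) := by
        change (if s' k b = false then _ else _) = _ • (if s' k b = false then _ else _)
        rw [if_pos hsb, if_pos hsb, map_smul, cf_smul, map_mul, Algebra.smul_def]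
        rfl
      rw [h12, hb a i b l a.2 (Nat.lt_succ_iff.1 i.2) hsa hb' hsb, smul_zero]
    · have : x a = 0 := hx a (by simpa using hsa)
      rw [this, Pi.zero_apply, zero_smul, map_zero]
  have h13 : Ideal.Quotient.mk (Ideal.span {(p : o)}) (cf (f k x) b l) = 0 := by
    rw [← h11]
    change _ = (if s' k b = false then _ else _)
    rw [if_pos hsb]
  rwa [Ideal.Quotient.eq_zero_iff_mem, Ideal.mem_span_singleton] at h13

end fin

theorem isUnit_two_ten {o : Type} [CommRing o] [IsDomain o] [IsDiscreteValuationRing o] {p q : ℕ}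
    (h : RingHyp o p q) (hp : 11 ≤ p) : IsUnit (210 : o) := by
  have h1 := isUnit_small h hp 10 (by norm_num) (by norm_num)
  have h2 := isUnit_small h hp 7 (by norm_num) (by norm_num)
  have h3 := isUnit_small h hp 3 (by norm_num) (by norm_num)
  have h4 := (h1.mul h2).mul h3
  norm_num at h4
  exact h4

end Pool.Agent.TZ8
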