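import Pool.Agent.TZ8.LGen

set_option autoImplicit false
set_option linter.unusedSectionVars false

/-! Submodules of the model stable under the derivations. -/

namespace Pool.Agent.TZ8

open Pool.Agent.TZ

variable {o : Type} [CommRing o] [IsDomain o] [IsDiscreteValuationRing o] {p q : ℕ}

theorem dg_le (k a : ℕ) : dg k a ≤ 6 := by
  unfold dg
  split <;> omega

theorem cf_opE_pow (k : ℕ) (x : MT o k) (m a l : ℕ) :
    cf ((opE o k ^ m) x) a l = (((l + 1).ascFactorial m : ℕ) : o) * cf x a (l + m) := by
  induction m generalizing l with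
  | zero => simp
  | succ m ih =>
    rw [pow_succ', Module.End.mul_apply, cf_opE, ih, ← mul_assoc, ← Nat.cast_mul]
    congr 2
    · rw [Nat.ascFactorial_succ]
      exact Nat.succ_ascFactorial (l + 1) m
    · rw [show l + 1 + m = l + (m + 1) by omega]

theorem cf_opF_pow (k : ℕ) (x : MT o k) (m a l : ℕ) :
    cf ((opF o k ^ m) x) a l = if m ≤ l then
      (((dg k a - (l - m)).descFactorial m : ℕ) : o) * cf x a (l - m) else 0 := by
  induction m generalizing l with
  | zero => simp
  | succ m ih =>
    rw [pow_succ', Module.End.mul_apply, cf_opF]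
    by_cases hl : l = 0
    · rw [if_pos hl, if_neg (by omega)]
    · rw [if_neg hl, ih]
      by_cases hm : m + 1 ≤ l
      · rw [if_pos (by omega), if_pos hm, show l - 1 - m = l - (m + 1) by omega]
        rcases Nat.lt_or_ge (dg k a) (l - (m + 1)) with h1 | h1
        · rw [cf_deg _ _ _ h1, mul_zero, mul_zero, mul_zero]
        · rw [← mul_assoc, ← Nat.cast_mul, Nat.descFactorial_succ]
          congr 3
          omega
      · rw [if_neg (by omega), if_neg hm, mul_zero]

/-- Keep the forms of degree at most `n`. -/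
def trn {k : ℕ} (n : ℕ) (x : MT o k) : MT o k := fun a m => if dg k a ≤ n then x a m else 0

theorem cf_trn {k : ℕ} (n : ℕ) (x : MT o k) (a i : ℕ) :
    cf (trn n x) a i = if dg k a ≤ n then cf x a i else 0 := by
  unfold cf
  split_ifs with h1 h2 h2
  · simp [trn, h2]
  · simp [trn, h2]
  · rfl
  · rfl

theorem cf_slc {k : ℕ} (n i l : ℕ) (hl : l ≤ n) (x : MT o k) (a m : ℕ) :
    cf (slc n i l x) a m = if dg k a = n ∧ m = l then cf x a i else 0 := by
  by_cases h : a < nc k ∧ m < dg k a + 1
  · rw [cf_of_lt _ _ _ h.1 h.2]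
    rfl
  · have h1 : cf (slc n i l x) a m = 0 := by
      unfold cf
      rw [dif_neg h]
    rw [h1]
    split_ifs with h2
    · obtain ⟨h2, rfl⟩ := h2
      rw [cf_nc]
      by_contra h3
      exact h ⟨by omega, by omega⟩
    · rfl

theorem isUnit_fact (h : RingHyp o p q) (hp : 11 ≤ p) (n : ℕ) (hn : n ≤ 6) :
    IsUnit ((n.factorial : ℕ) : o) := by
  apply isUnit_natCast h
  rw [h.prime.dvd_factorial]
  omega

theorem isUnit_desc (h : RingHyp o p q) (hp : 11 ≤ p) (n m : ℕ) (hn : n ≤ 6) (hm : m ≤ n) :
    IsUnit ((n.descFactorial m : ℕ) : o) := by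
  have h1 := isUnit_fact h hp n hn
  rw [← Nat.factorial_mul_descFactorial hm, Nat.cast_mul] at h1
  exact isUnit_of_mul_isUnit_right h1

theorem pow_mem {k : ℕ} (U : Submodule o (MT o k)) (D : MT o k →ₗ[o] MT o k)
    (hD : ∀ x ∈ U, D x ∈ U) (m : ℕ) (x : MT o k) (hx : x ∈ U) : (D ^ m) x ∈ U := by
  induction m with
  | zero => simpa using hx
  | succ m ih =>
    rw [pow_succ', Module.End.mul_apply]
    exact hD _ ih

/-- One step. -/
theorem slc_mem_aux (h : RingHyp o p q) (hp : 11 ≤ p) {k : ℕ} (U : Submodule o (MT o k))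
    (hE : ∀ x ∈ U, opE o k x ∈ U) (hF : ∀ x ∈ U, opF o k x ∈ U) (n : ℕ) (hn : n ≤ 6)
    (hR : ∀ x ∈ U, trn n x ∈ U) (x : MT o k) (hx : x ∈ U) (i l : ℕ) (hi : i ≤ n) (hl : l ≤ n) :
    slc n i l x ∈ U := by
  have h1 : (opE o k ^ n) ((opF o k ^ (n - i)) (trn n x)) =
      (((n.factorial * (n - i).factorial : ℕ)) : o) • slc n i 0 x := by
    apply MT_ext
    intro a m ha hm
    rw [cf_opE_pow, cf_opF_pow, cf_smul, cf_slc _ _ _ (Nat.zero_le _), cf_trn]
    by_cases hd : dg k a = n
    · subst hd
      by_cases hm0 : m = 0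
      · subst hm0
        rw [if_pos (by omega), if_pos le_rfl, if_pos ⟨rfl, rfl⟩,
          show 0 + dg k a - (dg k a - i) = i by omega, Nat.descFactorial_self, zero_add,
          Nat.one_ascFactorial, ← mul_assoc, ← Nat.cast_mul]
      · rw [if_neg (by omega : ¬ (dg k a = dg k a ∧ m = 0)), mul_zero]
        by_cases hmi : dg k a - i ≤ m + dg k a
        · rw [if_pos hmi, if_pos le_rfl]
          rcases Nat.lt_or_ge (dg k a) (m + dg k a - (dg k a - i)) with h2 | h2
          · rw [cf_deg _ _ _ h2, mul_zero, mul_zero]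
          · rw [Nat.descFactorial_eq_zero_iff_lt.2 (by omega)]
            simp
        · rw [if_neg hmi, mul_zero]
    · rw [if_neg (by omega : ¬ (dg k a = n ∧ m = 0)), mul_zero]
      rcases Nat.lt_or_ge n (dg k a) with h2 | h2
      · rw [if_neg (by omega : ¬ dg k a ≤ n)]
        simp
      · by_cases hmi : n - i ≤ m + n
        · rw [if_pos hmi]
          rcases Nat.lt_or_ge (dg k a) (m + n - (n - i)) with h3 | h3
          · rw [cf_deg _ _ _ h3]
            simp
          · rw [Nat.descFactorial_eq_zero_iff_lt.2 (by omega)]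
            simp
        · rw [if_neg hmi, mul_zero]
  have h2 : slc n i 0 x ∈ U := by
    have h3 := pow_mem U _ hE n _ (pow_mem U _ hF (n - i) _ (hR x hx))
    rw [h1] at h3
    refine (U.smul_mem_iff_of_isUnit ?_).1 h3
    rw [Nat.cast_mul]
    exact (isUnit_fact h hp n hn).mul (isUnit_fact h hp (n - i) (by omega))
  have h3 : (opF o k ^ l) (slc n i 0 x) = ((n.descFactorial l : ℕ) : o) • slc n i l x := by
    apply MT_ext
    intro a m ha hm
    rw [cf_opF_pow, cf_smul, cf_slc _ _ _ (Nat.zero_le _), cf_slc _ _ _ hl]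
    by_cases hd : dg k a = n
    · subst hd
      by_cases hml : m = l
      · subst hml
        rw [if_pos le_rfl, Nat.sub_self, if_pos ⟨rfl, rfl⟩, if_pos ⟨rfl, rfl⟩, Nat.sub_zero]
      · rw [if_neg (by omega : ¬ (dg k a = dg k a ∧ m = l)), mul_zero]
        split_ifs
        · omega
        · rw [mul_zero]
        · rfl
    · rw [if_neg (by omega : ¬ (dg k a = n ∧ m = l)), if_neg (by omega : ¬ (dg k a = n ∧ _)),
        mul_zero, mul_zero]
      split_ifs <;> rfl
  have h4 := pow_mem U _ hF l _ h2
  rw [h3] at h4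
  exact (U.smul_mem_iff_of_isUnit (isUnit_desc h hp n l hn hl)).1 h4

theorem trn_mem (h : RingHyp o p q) (hp : 11 ≤ p) {k : ℕ} (U : Submodule o (MT o k))
    (hE : ∀ x ∈ U, opE o k x ∈ U) (hF : ∀ x ∈ U, opF o k x ∈ U) (j : ℕ) (hj : j ≤ 6) :
    ∀ x ∈ U, trn (6 - j) x ∈ U := by
  induction j with
  | zero =>
    intro x hx
    have : trn (6 - 0) x = x := by
      apply MT_ext
      intro a i _ _
      rw [cf_trn, if_pos (dg_le k a)]
    rwa [this]
  | succ j ih =>
    intro x hx
    have ih := ih (by omega)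
    have h1 : trn (6 - (j + 1)) x =
        trn (6 - j) x - ∑ i ∈ Finset.range (6 - j + 1), slc (6 - j) i i x := by
      apply MT_ext
      intro a i ha hi
      have hsum : cf (∑ i ∈ Finset.range (6 - j + 1), slc (6 - j) i i x) a i =
          ∑ i' ∈ Finset.range (6 - j + 1), cf (slc (6 - j) i' i' x) a i := by
        induction (Finset.range (6 - j + 1)) using Finset.induction_on with
        | empty => simp [cf_zero]
        | insert b s hb ihs => rw [Finset.sum_insert hb, Finset.sum_insert hb, cf_add, ihs]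
      rw [cf_sub, cf_trn, cf_trn, hsum]
      have hs2 : ∑ i' ∈ Finset.range (6 - j + 1), cf (slc (6 - j) i' i' x) a i =
          if dg k a = 6 - j then cf x a i else 0 := by
        by_cases hd : dg k a = 6 - j
        · rw [if_pos hd, Finset.sum_eq_single i]
          · rw [cf_slc _ _ _ (by omega), if_pos ⟨hd, rfl⟩]
          · intro b hb hbi
            rw [Finset.mem_range] at hb
            rw [cf_slc _ _ _ (by omega), if_neg (by omega)]
          · intro hni
            rw [Finset.mem_range] at hni
            omega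
        · rw [if_neg hd]
          refine Finset.sum_eq_zero fun b hb => ?_
          rw [Finset.mem_range] at hb
          rw [cf_slc _ _ _ (by omega), if_neg (by omega)]
      rw [hs2]
      split_ifs <;> first | omega | simp
    rw [h1]
    refine U.sub_mem (ih x hx) (U.sum_mem fun i hi => ?_)
    rw [Finset.mem_range] at hi
    exact slc_mem_aux h hp U hE hF (6 - j) (by omega) ih x hx i i (by omega) (by omega)

/-- A submodule containing `p M` and stable under the derivations is stable under all matrix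
units of the isotypic components. -/
theorem slc_mem (h : RingHyp o p q) (hp : 11 ≤ p) {k : ℕ} (U : Submodule o (MT o k))
    (hE : ∀ x ∈ U, opE o k x ∈ U) (hF : ∀ x ∈ U, opF o k x ∈ U) (x : MT o k) (hx : x ∈ U)
    (n i l : ℕ) (hi : i ≤ n) (hl : l ≤ n) : slc n i l x ∈ U := by
  rcases Nat.lt_or_ge 6 n with hn | hn
  · have : slc n i l x = 0 := by
      apply MT_ext
      intro a m _ _
      have := dg_le k a
      rw [cf_slc _ _ _ hl, if_neg (by omega), cf_zero]
    rw [this]
    exact U.zero_mem
  · have hR := trn_mem h hp U hE hF (6 - n) (by omega)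
    rw [show 6 - (6 - n) = n by omega] at hR
    exact slc_mem_aux h hp U hE hF n hn hR x hx i l hi hl

end Pool.Agent.TZ8
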