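import Pool.Agent.TZ8.CDefs
import Pool.Agent.TZ.DT1

set_option autoImplicit false

/-! Taylor coefficients of the numerator at `t = 1` from the `p`-adic leading coefficient. -/

namespace Pool.Agent.TZ8

open Pool.Agent.TZ Pool.Agent.TZ.DT1Aux Filter Topology

/-- Evaluation at `1` of an identity `F B = A P` between convergent series and polynomials. -/
theorem lead_key {p : ℕ} [Fact p.Prime] {F A : PowerSeries ℤ} {s a : ℚ_[p]} (hF : PSum p F s)
    (hA : PSum p A a) (B P : Polynomial ℚ)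
    (h : F.map (Int.castRingHom ℚ) * (B : PowerSeries ℚ) =
      A.map (Int.castRingHom ℚ) * (P : PowerSeries ℚ)) :
    s * ((B.eval 1 : ℚ) : ℚ_[p]) = a * ((P.eval 1 : ℚ) : ℚ_[p]) := by
  have h1 := qsum_mul (psum_iff.1 hF) (qsum_poly (B.map (algebraMap ℚ ℚ_[p])))
  have h2 := qsum_mul (psum_iff.1 hA) (qsum_poly (P.map (algebraMap ℚ ℚ_[p])))
  have h3 := congrArg (PowerSeries.map (algebraMap ℚ ℚ_[p])) h
  rw [map_mul, map_mul, ← Polynomial.polynomial_map_coe, ← Polynomial.polynomial_map_coe] at h3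
  have h4 : ∀ G : PowerSeries ℤ, PowerSeries.map (algebraMap ℚ ℚ_[p])
      (G.map (Int.castRingHom ℚ)) = G.map (Int.castRingHom ℚ_[p]) := by
    intro G
    ext n
    simp
  rw [h4, h4] at h3
  rw [h3] at h1
  have h5 := qsum_unique h1 h2
  rw [Polynomial.eval_one_map, Polynomial.eval_one_map] at h5
  simpa using h5

/-- The order and the leading coefficient of a rational function from its `p`-adic leading
coefficient. -/
theorem lead_rational {p : ℕ} [Fact p.Prime] {r z : ℕ} {G : PowerSeries ℤ} {S : ℚ} (hS0 : S ≠ 0)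
    (hL : Lead p r G (S : ℚ_[p])) (P Q : Polynomial ℚ) (hQ : Q.eval 1 ≠ 0)
    (h : G.map (Int.castRingHom ℚ) *
      (((1 - Polynomial.X) ^ z * Q : Polynomial ℚ) : PowerSeries ℚ) = (P : PowerSeries ℚ)) :
    r ≤ z ∧ ∃ P2 : Polynomial ℚ, P = (1 - Polynomial.X) ^ (z - r) * P2 ∧
      P2.eval 1 = Q.eval 1 * S := by
  obtain ⟨A, F, a, hA, ha, hF, hG⟩ := hL
  have hcoe : ∀ n : ℕ, (((1 - Polynomial.X) ^ n : Polynomial ℚ) : PowerSeries ℚ) =
      (1 - PowerSeries.X) ^ n := by
    intro n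
    simp
  have hX : (1 - PowerSeries.X : PowerSeries ℚ) ≠ 0 := by
    intro h
    have := congrArg (PowerSeries.coeff 0) h
    simp at this
  have hG' : F.map (Int.castRingHom ℚ) = G.map (Int.castRingHom ℚ) *
      ((1 - PowerSeries.X) ^ r * A.map (Int.castRingHom ℚ)) := by
    rw [← hG]
    simp
  -- the main identity
  have h1 : F.map (Int.castRingHom ℚ) * ((1 - PowerSeries.X) ^ z * (Q : PowerSeries ℚ)) =
      (1 - PowerSeries.X) ^ r * (A.map (Int.castRingHom ℚ) * (P : PowerSeries ℚ)) := by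
    rw [Polynomial.coe_mul, hcoe] at h
    rw [hG', ← h]
    ring
  have hP : P ≠ 0 := by
    rintro rfl
    have hQ0 : (Q : PowerSeries ℚ) ≠ 0 := by
      intro hQ0
      rw [Polynomial.coe_eq_zero_iff] at hQ0
      rw [hQ0] at hQ
      simp at hQ
    have h2 : F.map (Int.castRingHom ℚ) = 0 := by
      rw [Polynomial.coe_zero, mul_zero, mul_zero] at h1
      rcases mul_eq_zero.1 h1 with h2 | h2
      · exact h2
      · exact absurd h2 (mul_ne_zero (pow_ne_zero _ hX) hQ0)
    have h3 := lead_key hF hA 1 0 (by rw [h2]; simp)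
    simp only [Polynomial.eval_one, Rat.cast_one, mul_one, Polynomial.eval_zero, Rat.cast_zero,
      mul_zero] at h3
    rcases mul_eq_zero.1 h3 with h4 | h4
    · exact hS0 (by exact_mod_cast h4)
    · exact ha h4
  obtain ⟨m, P', hP', hP'1⟩ : ∃ (m : ℕ) (P' : Polynomial ℚ), P = (1 - Polynomial.X) ^ m * P' ∧
      P'.eval 1 ≠ 0 := by
    obtain ⟨P', h2, h3⟩ := Polynomial.exists_eq_pow_rootMultiplicity_mul_and_not_dvd P hP 1
    refine ⟨P.rootMultiplicity 1, (-1) ^ (P.rootMultiplicity 1) * P', ?_, ?_⟩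
    · conv_lhs => rw [h2]
      rw [← mul_assoc, ← mul_pow, Polynomial.C_1]
      congr 2
      ring
    · rw [Polynomial.eval_mul, Polynomial.eval_pow]
      refine mul_ne_zero (pow_ne_zero _ (by simp)) ?_
      intro h4
      exact h3 (Polynomial.dvd_iff_isRoot.2 h4)
  have h2 : F.map (Int.castRingHom ℚ) * ((1 - PowerSeries.X) ^ z * (Q : PowerSeries ℚ)) =
      A.map (Int.castRingHom ℚ) * ((1 - PowerSeries.X) ^ (r + m) * (P' : PowerSeries ℚ)) := by
    rw [h1, hP', Polynomial.coe_mul, hcoe, pow_add]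
    ring
  have hs : (S : ℚ_[p]) * a ≠ 0 := mul_ne_zero (by exact_mod_cast hS0) ha
  -- compare the exponents
  rcases lt_trichotomy z (r + m) with hz | hz | hz
  · exfalso
    obtain ⟨e, he⟩ := Nat.exists_eq_add_of_lt hz
    have h3 : F.map (Int.castRingHom ℚ) * (Q : PowerSeries ℚ) = A.map (Int.castRingHom ℚ) *
        (((1 - Polynomial.X) ^ (e + 1) * P' : Polynomial ℚ) : PowerSeries ℚ) := by
      apply mul_left_cancel₀ (pow_ne_zero z hX)
      rw [Polynomial.coe_mul, hcoe]
      calc (1 - PowerSeries.X) ^ z * (F.map (Int.castRingHom ℚ) * (Q : PowerSeries ℚ)) =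
          F.map (Int.castRingHom ℚ) * ((1 - PowerSeries.X) ^ z * (Q : PowerSeries ℚ)) := by ring
        _ = _ := by rw [h2, he]; ring
    have h4 := lead_key hF hA _ _ h3
    rw [Polynomial.eval_mul, Polynomial.eval_pow] at h4
    simp only [Polynomial.eval_sub, Polynomial.eval_one, Polynomial.eval_X, sub_self] at h4
    rw [zero_pow (Nat.succ_ne_zero e), zero_mul, Rat.cast_zero, mul_zero] at h4
    rcases mul_eq_zero.1 h4 with h5 | h5
    · exact hs h5
    · exact hQ (by exact_mod_cast h5)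
  · have h3 : F.map (Int.castRingHom ℚ) * (Q : PowerSeries ℚ) = A.map (Int.castRingHom ℚ) *
        (P' : PowerSeries ℚ) := by
      apply mul_left_cancel₀ (pow_ne_zero z hX)
      calc (1 - PowerSeries.X) ^ z * (F.map (Int.castRingHom ℚ) * (Q : PowerSeries ℚ)) =
          F.map (Int.castRingHom ℚ) * ((1 - PowerSeries.X) ^ z * (Q : PowerSeries ℚ)) := by ring
        _ = _ := by rw [h2, ← hz]; ring
    have h4 := lead_key hF hA _ _ h3
    refine ⟨by omega, P', ?_, ?_⟩
    · rw [show z - r = m by omega]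
      exact hP'
    · have h5 : a * (((Q.eval 1 * S : ℚ)) : ℚ_[p]) = a * ((P'.eval 1 : ℚ) : ℚ_[p]) := by
        rw [← h4]
        push_cast
        ring
      have h6 := mul_left_cancel₀ ha h5
      exact_mod_cast h6.symm
  · exfalso
    obtain ⟨e, he⟩ := Nat.exists_eq_add_of_lt hz
    have h3 : F.map (Int.castRingHom ℚ) *
        (((1 - Polynomial.X) ^ (e + 1) * Q : Polynomial ℚ) : PowerSeries ℚ) =
        A.map (Int.castRingHom ℚ) * (P' : PowerSeries ℚ) := by
      apply mul_left_cancel₀ (pow_ne_zero (r + m) hX)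
      rw [Polynomial.coe_mul, hcoe]
      calc (1 - PowerSeries.X) ^ (r + m) * (F.map (Int.castRingHom ℚ) *
            ((1 - PowerSeries.X) ^ (e + 1) * (Q : PowerSeries ℚ))) =
          F.map (Int.castRingHom ℚ) * ((1 - PowerSeries.X) ^ z * (Q : PowerSeries ℚ)) := by
            rw [he]; ring
        _ = _ := by rw [h2]; ring
    have h4 := lead_key hF hA _ _ h3
    rw [Polynomial.eval_mul, Polynomial.eval_pow] at h4
    simp only [Polynomial.eval_sub, Polynomial.eval_one, Polynomial.eval_X, sub_self] at h4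
    rw [zero_pow (Nat.succ_ne_zero e), zero_mul, Rat.cast_zero, mul_zero] at h4
    rcases mul_eq_zero.1 h4.symm with h5 | h5
    · exact ha h5
    · exact hP'1 (by exact_mod_cast h5)

/-- The Taylor coefficients at `t = 1` of the numerator. -/
theorem local_taylor_lead (p : ℕ) [Fact p.Prime] (q : ℕ) (hq1 : 1 < q) {r N : ℕ}
    (num : Fin N → LPoly)
    (den : List (ℤ × ℕ)) (hden : ∀ t ∈ den, t ≠ (0, 0)) (n0 : ℕ)
    (hn0 : ∀ i, ∀ t ∈ num i, 0 ≤ t.2.2 + (n0 : ℤ)) (E : Fin N → ℤ) (a : ℕ → ℕ)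
    (ha : ∀ᶠ s : ℝ in atTop, HasSum (fun n : ℕ => (a n : ℝ) * ((q : ℝ) ^ (-s)) ^ n)
      (∑ i, (E i : ℝ) * (num i).eval (q : ℝ) ((q : ℝ) ^ (-s)) /
        denEval den (q : ℝ) ((q : ℝ) ^ (-s))))
    (S : ℚ) (hS0 : S ≠ 0) (hL : Lead p r (PowerSeries.mk (fun n => (a n : ℤ))) (S : ℚ_[p])) :
    r ≤ zeroCount den ∧
    (∀ k < zeroCount den - r, ∑ i, (E i : ℝ) * (num i).tay n0 k (q : ℝ) = 0) ∧
    (∑ i, (E i : ℝ) * (num i).tay n0 (zeroCount den - r) (q : ℝ)) =
      (-1) ^ (zeroCount den - r) * (zeroProd den : ℝ) * nonzeroProd den (q : ℝ) * (S : ℝ) := by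
  classical
  have hq1' : (1 : ℝ) < q := by exact_mod_cast hq1
  have hq0' : (0 : ℝ) < q := by linarith
  set P : Polynomial ℚ := ∑ i, Polynomial.C (E i : ℚ) * numP q n0 (num i) with hP
  set B : Polynomial ℚ := Polynomial.X ^ n0 * denP q den with hB
  have hB0 : B ≠ 0 := mul_ne_zero (pow_ne_zero _ Polynomial.X_ne_zero) (denP_ne q hq1 den hden)
  have hmapinj : Function.Injective (algebraMap ℚ ℝ) := (algebraMap ℚ ℝ).injective
  -- the values
  have hPe : ∀ t : ℝ, t ≠ 0 → (P.map (algebraMap ℚ ℝ)).eval t =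
      t ^ n0 * ∑ i, (E i : ℝ) * (num i).eval (q : ℝ) t := by
    intro t ht
    rw [hP, Polynomial.map_sum, Polynomial.eval_finsetSum, Finset.mul_sum]
    apply Finset.sum_congr rfl
    intro i _
    rw [Polynomial.map_mul, Polynomial.eval_mul, numP_eval q n0 (num i) (hn0 i) t ht]
    simp
    ring
  have hBe : ∀ t : ℝ, (B.map (algebraMap ℚ ℝ)).eval t = t ^ n0 * denEval den (q : ℝ) t := by
    intro t
    rw [hB, Polynomial.map_mul, Polynomial.eval_mul, denP_eval]
    simp
  -- formal identity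
  have hsmall : ∀ᶠ t : ℝ in nhdsWithin 0 (Set.Ioi 0),
      HasSum (fun n => (a n : ℝ) * t ^ n)
        ((P.map (algebraMap ℚ ℝ)).eval t / (B.map (algebraMap ℚ ℝ)).eval t) := by
    have hlog : Tendsto (fun t : ℝ => -(Real.log t) / Real.log q) (nhdsWithin 0 (Set.Ioi 0))
        atTop := by
      apply Tendsto.atTop_div_const (Real.log_pos hq1')
      exact tendsto_neg_atBot_atTop.comp Real.tendsto_log_nhdsGT_zero
    have h1 := hlog.eventually ha
    filter_upwards [h1, self_mem_nhdsWithin] with t ht ht0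
    have ht0' : (0 : ℝ) < t := ht0
    have h2 : (q : ℝ) ^ (-(-(Real.log t) / Real.log q)) = t := by
      rw [Real.rpow_def_of_pos hq0']
      have h3 : Real.log (q : ℝ) ≠ 0 := (Real.log_pos hq1').ne'
      have h4 : Real.log (q : ℝ) * -(-Real.log t / Real.log (q : ℝ)) = Real.log t := by
        field_simp
      rw [h4, Real.exp_log ht0']
    rw [h2] at ht
    have h5 : (P.map (algebraMap ℚ ℝ)).eval t / (B.map (algebraMap ℚ ℝ)).eval t =
        ∑ i, (E i : ℝ) * (num i).eval (q : ℝ) t / denEval den (q : ℝ) t := by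
      rw [hPe t ht0'.ne', hBe t, mul_div_mul_left _ _ (pow_ne_zero _ ht0'.ne'), Finset.sum_div]
    rw [h5]
    exact ht
  have hform := formal_of_hasSum (fun n => (a n : ℝ)) (P.map (algebraMap ℚ ℝ))
    (B.map (algebraMap ℚ ℝ)) (by
      rw [Ne, Polynomial.map_eq_zero]
      exact hB0) hsmall
  have hformQ : PowerSeries.mk (fun n => (a n : ℚ)) * (B : PowerSeries ℚ) =
      (P : PowerSeries ℚ) := by
    have hinj : Function.Injective (PowerSeries.map (algebraMap ℚ ℝ)) :=
      PowerSeries.map_injective _ hmapinj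
    apply hinj
    rw [map_mul, ← Polynomial.polynomial_map_coe, ← Polynomial.polynomial_map_coe, ← hform]
    congr 1
  have hGa : (PowerSeries.mk (fun n => (a n : ℤ))).map (Int.castRingHom ℚ) =
      PowerSeries.mk (fun n => (a n : ℚ)) := by
    ext n
    simp
  have hB2 : B = (1 - Polynomial.X) ^ zeroCount den * (Polynomial.X ^ n0 * denQ q den) := by
    rw [hB, denP_eq]
    ring
  have hQ1 : (Polynomial.X ^ n0 * denQ q den).eval 1 = (denQ q den).eval 1 := by
    simp
  obtain ⟨hrz, P2, hP2, hP2e⟩ := lead_rational (z := zeroCount den) hS0 hL P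
    (Polynomial.X ^ n0 * denQ q den) (by rw [hQ1]; exact denQ_eval_ne q hq1 den hden)
    (by rw [← hB2, hGa]; exact hformQ)
  rw [hQ1] at hP2e
  -- Taylor coefficients
  have htay : ∀ k, ∑ i, (E i : ℝ) * (num i).tay n0 k (q : ℝ) =
      (((Polynomial.hasseDeriv k P).eval 1 : ℚ) : ℝ) := by
    intro k
    rw [hP, map_sum, Polynomial.eval_finsetSum, Rat.cast_sum]
    apply Finset.sum_congr rfl
    intro i _
    rw [← numP_tay, ← Polynomial.smul_eq_C_mul, map_smul, Polynomial.eval_smul, smul_eq_mul]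
    push_cast
    rfl
  refine ⟨hrz, ?_, ?_⟩
  · intro k hk
    rw [htay, hP2, (hasseDeriv_factor _ k P2).1 hk, Rat.cast_zero]
  · rw [htay, hP2, (hasseDeriv_factor (zeroCount den - r) (zeroCount den - r) P2).2, hP2e]
    have h4 := denQ_eval q den
    push_cast
    rw [h4]
    ring

end Pool.Agent.TZ8
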