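import Pool.Agent.TZ8.LList
import Pool.Agent.TZ8.LRig
import Pool.Agent.TZ8.LGam
import Pool.Agent.TZ8.GR4
import Pool.Agent.TZ8.GR5
import Pool.Agent.TZ8.GR6

set_option autoImplicit false
set_option linter.unusedSectionVars false
set_option linter.unusedVariables false

/-! Windows of the model: killing, rigidity and saturated lifts. -/

namespace Pool.Agent.TZ8

open Pool.Agent.TZ

/-- The tower `M` is the model from level `i0` on. -/
structure Win (o : Type) [CommRing o] (M : ℕ → Type) [∀ i, AddCommGroup (M i)]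
    [∀ i, Module o (M i)] (ad : ∀ i, Fin 2 → M i →ₗ[o] M (i + 1)) (i0 : ℕ) where
  e : ∀ i, M i ≃ₗ[o] MT o (i0 + i)
  he : ∀ i, ∀ j : Fin 2, ∀ x, e (i + 1) (ad i j x) = adT o (i0 + i) j (e i x)

/-- Transport between equal levels. -/
def mtCast (o : Type) [CommRing o] {k k' : ℕ} (h : k = k') : MT o k ≃ₗ[o] MT o k' := by
  subst h
  exact LinearEquiv.refl o _

theorem mtCast_adT (o : Type) [CommRing o] {k k' : ℕ} (h : k = k') (j : Fin 2) (x : MT o k) :
    mtCast o (congrArg (· + 1) h) (adT o k j x) = adT o k' j (mtCast o h x) := by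
  subst h
  rfl

/-- The whole model. -/
def win0 (o : Type) [CommRing o] : Win o (MT o) (adT o) 0 where
  e i := mtCast o (Nat.zero_add i).symm
  he i j x := mtCast_adT o (Nat.zero_add i).symm j x

/-- Levels 6 and 7 of the model. -/
def win6 (o : Type) [CommRing o] :
    Win o (fun i => MT o (6 + i)) (fun i => adT o (6 + i)) 6 where
  e _ := LinearEquiv.refl o _
  he _ _ _ := rfl

/-- Extension of a family by default values. -/
theorem ext_fam {P : ℕ → Type} {c i0 : ℕ} (g : ∀ i : Fin c, P (i0 + i)) (d : ∀ k, P k) :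
    ∃ f : ∀ k, P k, (∀ i : Fin c, f (i0 + i) = g i) ∧
      ∀ k, (∀ i : Fin c, i0 + (i : ℕ) ≠ k) → f k = d k := by
  classical
  refine ⟨fun k => if h : ∃ i : Fin c, i0 + (i : ℕ) = k then h.choose_spec ▸ g h.choose else d k,
    ?_, ?_⟩
  · intro i
    have h : ∃ i' : Fin c, i0 + (i' : ℕ) = i0 + i := ⟨i, rfl⟩
    simp only [dif_pos h]
    have h1 : h.choose = i := Fin.ext (by have := h.choose_spec; omega)
    have h2 : ∀ (i' : Fin c) (h' : i0 + (i' : ℕ) = i0 + i), i' = i →
        (h' ▸ g i' : P (i0 + i)) = g i := by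
      intro i' h' hi
      subst hi
      rfl
    exact h2 _ _ h1
  · intro k hk
    have h : ¬ ∃ i : Fin c, i0 + (i : ℕ) = k := by
      rintro ⟨i, hi⟩
      exact hk i hi
    simp only [dif_neg h]

section pr

variable {o : Type} [CommRing o] {p : ℕ}

/-- The projection to a coordinate submodule. -/
def prB (o : Type) [CommRing o] (s : ℕ → ℕ → Bool) (k : ℕ) : MT o k →ₗ[o] MT o k where
  toFun x := fun a => if s k a then x a else 0
  map_add' x y := by
    funext a
    simp only [Pi.add_apply]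
    split_ifs
    · rfl
    · rw [add_zero]
  map_smul' r x := by
    funext a
    simp only [Pi.smul_apply, RingHom.id_apply]
    split_ifs
    · rfl
    · rw [smul_zero]

theorem prB_mem (s : ℕ → ℕ → Bool) (k : ℕ) (x : MT o k) : prB o s k x ∈ coB o s k := by
  intro a ha
  change (if s k a then x a else 0) = 0
  rw [if_neg (by rw [ha]; decide)]

theorem prB_of_mem {s : ℕ → ℕ → Bool} {k : ℕ} {x : MT o k} (hx : x ∈ coB o s k) :
    prB o s k x = x := by
  funext a
  change (if s k a then x a else 0) = x a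
  split_ifs with h
  · rfl
  · exact (hx a (by simpa using h)).symm

theorem coB_le_coP (s : ℕ → ℕ → Bool) (k : ℕ) : coB o s k ≤ coP o p s k := by
  intro x hx a ha i
  rw [hx a ha]
  exact dvd_zero _

theorem smul_mem_coP (s : ℕ → ℕ → Bool) (k : ℕ) (x : MT o k) : (p : o) • x ∈ coP o p s k := by
  intro a _ i
  exact dvd_mul_right _ _

theorem exists_prB {s : ℕ → ℕ → Bool} {k : ℕ} {x : MT o k} (hx : x ∈ coP o p s k) :
    ∃ y : MT o k, x = prB o s k x + (p : o) • y := by
  have h1 : ∃ y : MT o k, x - prB o s k x = (p : o) • y := by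
    rw [exists_smul_iff]
    intro a ha i
    unfold cf
    split_ifs with h
    · change (p : o) ∣ (x ⟨a, ha⟩ - (if s k a then x ⟨a, ha⟩ else 0) : Fin (dg k a + 1) → o) _
      split_ifs with h2
      · rw [sub_self]
        exact dvd_zero _
      · rw [sub_zero]
        exact hx ⟨a, ha⟩ (by simpa using h2) _
    · exact dvd_zero _
  obtain ⟨y, hy⟩ := h1
  exact ⟨y, by rw [← hy]; abel⟩

/-- The family with no summands is `p M`. -/
theorem mem_coP_false {k : ℕ} {x : MT o k} :
    x ∈ coP o p (fun _ _ => false) k ↔ ∃ y : MT o k, x = (p : o) • y := by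
  rw [exists_smul_iff, mem_coP]
  exact ⟨fun h a ha i => h a ha rfl i, fun h a ha _ i => h a ha i⟩

end pr

variable {o : Type} [CommRing o] [IsDomain o] [IsDiscreteValuationRing o] {p q : ℕ}
  {M : ℕ → Type} [∀ i, AddCommGroup (M i)] [∀ i, Module o (M i)]
  {ad : ∀ i, Fin 2 → M i →ₗ[o] M (i + 1)} {c i0 : ℕ}

theorem isPat_of_mem {s : ℕ → ℕ → Bool} (hs : s ∈ rigL) : IsPat s := by
  unfold rigL at hs
  simp only [List.mem_cons, List.not_mem_nil, or_false] at hs
  unfold IsPat
  rcases hs with rfl | rfl | rfl | rfl | rfl | rfl | rfl | rfl | rfl | rfl | rfl | rfl | rfl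
  · exact Or.inr ⟨0, rfl⟩
  · exact Or.inr ⟨1, rfl⟩
  · exact Or.inr ⟨2, rfl⟩
  · exact Or.inr ⟨3, rfl⟩
  · exact Or.inr ⟨4, rfl⟩
  · exact Or.inr ⟨5, rfl⟩
  · exact Or.inr ⟨6, rfl⟩
  · exact Or.inr ⟨7, rfl⟩
  · exact Or.inr ⟨8, rfl⟩
  · exact Or.inl (Or.inl rfl)
  · exact Or.inl (Or.inr (Or.inl rfl))
  · exact Or.inl (Or.inr (Or.inr (Or.inl rfl)))
  · exact Or.inl (Or.inr (Or.inr (Or.inr rfl)))

theorem coP_stable {s : ℕ → ℕ → Bool} (hs : IsPat s) (k : ℕ) (j : Fin 2) {x : MT o k}
    (hx : x ∈ coP o p s k) : adT o k j x ∈ coP o p s (k + 1) := by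
  obtain ⟨y, hy⟩ := exists_prB hx
  rw [hy, map_add, map_smul]
  exact (coP o p s (k + 1)).add_mem
    (coB_le_coP s (k + 1) (coB_stable s hs k j _ (prB_mem s k x))) (smul_mem_coP s (k + 1) _)

theorem win_fre (W : Win o M ad i0) : Fre o M c where
  free i _ := Module.Free.of_equiv (W.e i).symm
  fin i _ := Module.Finite.equiv (W.e i).symm

/-- The layer given by a family of the list. -/
theorem win_lay (h : RingHyp o p q) (hp : 11 ≤ p) (W : Win o M ad i0) (hc : i0 + c = 8)
    (s : ℕ → ℕ → Bool) (hs : s ∈ rigL) : ∃ V : Submodule (RR o c 2) (NN ad c),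
      (∀ i : Fin c, comp V i =
        (coP o p s (i0 + i)).comap (W.e i : M i →ₗ[o] MT o (i0 + i))) ∧
      pN (RR o c 2) (NN ad c) p 1 ≤ V := by
  have hclo : Clo ad c (fun i : Fin c => (coP o p s (i0 + i)).comap
      (W.e i : M i →ₗ[o] MT o (i0 + i))) := by
    intro i hi j x hx
    change W.e (i + 1) (ad i j x) ∈ coP o p s (i0 + (i + 1))
    rw [W.he]
    exact coP_stable (isPat_of_mem hs) (i0 + i) j hx
  refine ⟨toS _ hclo, fun i => comp_toS _ hclo i, comp_le_iff.2 fun i x hx => ?_⟩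
  rw [comp_toS]
  obtain ⟨y, rfl⟩ := mem_comp_pN.1 hx
  change W.e i ((p : o) ^ 1 • y) ∈ coP o p s (i0 + i)
  rw [pow_one, map_smul]
  exact smul_mem_coP s _ _

theorem win_sat (h : RingHyp o p q) (hp : 11 ≤ p) (W : Win o M ad i0) (hc : i0 + c = 8)
    (s : ℕ → ℕ → Bool) (hs : s ∈ rigL) (V : Submodule (RR o c 2) (NN ad c))
    (hV : ∀ i : Fin c, comp V i = (coP o p s (i0 + i)).comap (W.e i : M i →ₗ[o] MT o (i0 + i))) :
    ∃ U : Submodule (RR o c 2) (NN ad c), (∀ x : NN ad c, p • x ∈ U → x ∈ U) ∧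
      U ⊔ pN (RR o c 2) (NN ad c) p 1 = V := by
  have hclo : Clo ad c (fun i : Fin c => (coB o s (i0 + i)).comap
      (W.e i : M i →ₗ[o] MT o (i0 + i))) := by
    intro i hi j x hx
    change W.e (i + 1) (ad i j x) ∈ coB o s (i0 + (i + 1))
    rw [W.he]
    exact coB_stable s (isPat_of_mem hs) (i0 + i) j _ hx
  refine ⟨toS _ hclo, ?_, ?_⟩
  · intro x hx i a ha
    have h1 : (p : o) • (W.e i (x i)) ∈ coB o s (i0 + i) := by
      rw [← map_smul, Nat.cast_smul_eq_nsmul]
      exact hx i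
    have h2 := h1 a ha
    rw [Pi.smul_apply] at h2
    exact (smul_eq_zero.1 h2).resolve_left h.irr.ne_zero
  · apply comp_inj
    intro i
    rw [comp_sup, comp_toS, hV]
    apply le_antisymm
    · rw [sup_le_iff]
      constructor
      · intro x hx
        exact coB_le_coP s _ hx
      · intro x hx
        obtain ⟨y, rfl⟩ := mem_comp_pN.1 hx
        change W.e i ((p : o) ^ 1 • y) ∈ coP o p s (i0 + i)
        rw [pow_one, map_smul]
        exact smul_mem_coP s _ _
    · intro x hx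
      have hx' : W.e i x ∈ coP o p s (i0 + i) := hx
      obtain ⟨y, hy⟩ := exists_prB hx'
      rw [Submodule.mem_sup]
      refine ⟨(W.e i).symm (prB o s (i0 + i) (W.e i x)), ?_, (p : o) ^ 1 • (W.e i).symm y,
        mem_comp_pN.2 ⟨_, rfl⟩, ?_⟩
      · change W.e i ((W.e i).symm _) ∈ coB o s (i0 + i)
        rw [LinearEquiv.apply_symm_apply]
        exact prB_mem s _ _
      · rw [pow_one, ← map_smul, ← map_add, ← hy, LinearEquiv.symm_apply_apply]

theorem win_rig (h : RingHyp o p q) (hp : 11 ≤ p) (W : Win o M ad i0) (hc : i0 + c = 8)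
    (s s' : ℕ → ℕ → Bool) (hs : s ∈ rigL) (hs' : s' ∈ rigL)
    (hs0 : ∀ k < i0, ∀ a < nc k, s k a = false) (V V' : Submodule (RR o c 2) (NN ad c))
    (hV : ∀ i : Fin c, comp V i = (coP o p s (i0 + i)).comap (W.e i : M i →ₗ[o] MT o (i0 + i)))
    (hV' : ∀ i : Fin c, comp V' i = (coP o p s' (i0 + i)).comap (W.e i : M i →ₗ[o] MT o (i0 + i)))
    (hle : V ≤ V') : Rig p V V' := by
  -- comparison of the patterns
  have hleP : ∀ k, coP o p s k ≤ coP o p s' k := by
    intro k
    rcases Nat.lt_or_ge k i0 with hk | hk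
    · intro x hx a ha i
      exact hx a (hs0 k hk a a.2) i
    · rcases Nat.lt_or_ge k 8 with hk8 | hk8
      · obtain ⟨i, rfl⟩ := Nat.exists_eq_add_of_le hk
        have h1 := comp_le_iff.1 hle ⟨i, by omega⟩
        rw [hV, hV'] at h1
        intro x hx
        have h2 : (W.e i).symm x ∈ (coP o p s (i0 + i)).comap
            (W.e i : M i →ₗ[o] MT o (i0 + i)) := by
          change W.e i ((W.e i).symm x) ∈ coP o p s (i0 + i)
          rw [LinearEquiv.apply_symm_apply]
          exact hx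
        have h3 : W.e i ((W.e i).symm x) ∈ coP o p s' (i0 + i) := h1 h2
        rwa [LinearEquiv.apply_symm_apply] at h3
      · have := subsingleton_MT (o := o) k hk8
        intro x _
        rw [Subsingleton.elim x 0]
        exact zero_mem _
  have hN := noHom_all h hp s s' hs hs' hleP
  apply rig_of_graded
  intro φ hφ1 hφ2
  -- the lifts
  have hmem : ∀ (i : Fin c) (x : MT o (i0 + i)), (W.e i).symm (prB o s (i0 + i) x) ∈ comp V i := by
    intro i x
    rw [hV]
    change W.e i ((W.e i).symm _) ∈ coP o p s (i0 + i)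
    rw [LinearEquiv.apply_symm_apply]
    exact coB_le_coP s _ (prB_mem s _ _)
  have hlift : ∀ i : Fin c, ∃ g : MT o (i0 + i) →ₗ[o] M i, ∀ x : MT o (i0 + i),
      φ i ⟨(W.e i).symm (prB o s (i0 + i) x), hmem i x⟩ = Submodule.Quotient.mk (g x) := by
    intro i
    obtain ⟨g, hg⟩ := Module.projective_lifting_property (comp V' i).mkQ
      ((φ i).comp (LinearMap.codRestrict (comp V i)
        (((W.e i).symm : MT o (i0 + i) →ₗ[o] M i).comp (prB o s (i0 + i)))
        (fun x => hmem i x))) (Submodule.mkQ_surjective _)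
    refine ⟨g, fun x => ?_⟩
    have := congrArg (fun u => u x) hg
    exact this.symm
  choose g hg using hlift
  obtain ⟨f, hf1, hf2⟩ := ext_fam (P := fun k => MT o k →ₗ[o] MT o k) (c := c) (i0 := i0)
    (fun i => ((W.e i : M i →ₗ[o] MT o (i0 + i)).comp (g i))) (fun k => 0)
  have key := hN f (by
    intro k j x hx
    rcases Nat.lt_or_ge k i0 with hk | hk
    · have hx0 : x = 0 := by
        funext a
        exact hx a (hs0 k hk a a.2)
      rw [hx0, map_zero, map_zero, map_zero, map_zero, sub_zero]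
      exact zero_mem _
    · rcases Nat.lt_or_ge (k + 1) 8 with hk8 | hk8
      · obtain ⟨i, rfl⟩ := Nat.exists_eq_add_of_le hk
        have hi1 : i + 1 < c := by omega
        have e1 : f (i0 + i) = (W.e i : M i →ₗ[o] MT o (i0 + i)).comp
            (g ⟨i, Nat.lt_of_succ_lt hi1⟩) := hf1 ⟨i, Nat.lt_of_succ_lt hi1⟩
        have e2 : f (i0 + i + 1) = (W.e (i + 1) : M (i + 1) →ₗ[o] MT o (i0 + (i + 1))).comp
            (g ⟨i + 1, hi1⟩) := hf1 ⟨i + 1, hi1⟩
        rw [e1, e2]
        have h1 : Submodule.Quotient.mk (g ⟨i + 1, hi1⟩ (adT o (i0 + i) j x)) =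
            (Submodule.Quotient.mk (ad i j (g ⟨i, Nat.lt_of_succ_lt hi1⟩ x)) :
              M (i + 1) ⧸ comp V' ⟨i + 1, hi1⟩) := by
          have h2 := hφ1 i hi1 j _ (hmem ⟨i, Nat.lt_of_succ_lt hi1⟩ x) _
            (hg ⟨i, Nat.lt_of_succ_lt hi1⟩ x)
          rw [← h2, ← hg ⟨i + 1, hi1⟩]
          congr 1
          apply Subtype.ext
          change (W.e (i + 1)).symm (prB o s (i0 + (i + 1)) (adT o (i0 + i) j x)) =
            ad i j ((W.e i).symm (prB o s (i0 + i) x))
          rw [LinearEquiv.symm_apply_eq, W.he, LinearEquiv.apply_symm_apply, prB_of_mem hx]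
          exact prB_of_mem (coB_stable s (isPat_of_mem hs) (i0 + i) j _ hx)
        rw [Submodule.Quotient.eq, hV'] at h1
        have h3 : W.e (i + 1) (g ⟨i + 1, hi1⟩ (adT o (i0 + i) j x) -
            ad i j (g ⟨i, Nat.lt_of_succ_lt hi1⟩ x)) ∈ coP o p s' (i0 + (i + 1)) := h1
        rw [map_sub, W.he] at h3
        exact h3
      · have := subsingleton_MT (o := o) (k + 1) hk8
        rw [Subsingleton.elim (f (k + 1) (adT o k j x) - adT o k j (f k x)) 0]
        exact zero_mem _)
  -- conclusion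
  intro i x
  have hx : W.e i (x : M i) ∈ coP o p s (i0 + i) := by
    have h0 : ∀ z ∈ comp V i, W.e i z ∈ coP o p s (i0 + i) := by
      rw [hV]
      exact fun z hz => hz
    exact h0 _ x.2
  obtain ⟨y, hy⟩ := exists_prB hx
  have h4 : (x : M i) = (W.e i).symm (prB o s (i0 + i) (prB o s (i0 + i) (W.e i x))) +
      (p : o) • (W.e i).symm y := by
    rw [prB_of_mem (prB_mem s _ _), ← map_smul, ← map_add, ← hy, LinearEquiv.symm_apply_apply]
  have h5 : (p : o) • (W.e i).symm y ∈ comp V i := by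
    rw [hV]
    change W.e i ((p : o) • (W.e i).symm y) ∈ coP o p s (i0 + i)
    rw [map_smul]
    exact smul_mem_coP s _ _
  have h6 : x = ⟨(W.e i).symm (prB o s (i0 + i) (prB o s (i0 + i) (W.e i x))), hmem i _⟩ +
      ⟨(p : o) • (W.e i).symm y, h5⟩ := Subtype.ext h4
  rw [h6, map_add, hφ2 i ⟨_, h5⟩ ⟨_, rfl⟩, add_zero, hg, Submodule.Quotient.mk_eq_zero, hV']
  change W.e i (g i (prB o s (i0 + i) (W.e i x))) ∈ coP o p s' (i0 + i)
  have h7 := key (i0 + i) _ (prB_mem s (i0 + i) (W.e i x))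
  rw [hf1 i] at h7
  exact h7

/-- The layers which are not stable under the derivation of a one-parameter group of the model are
killed. -/
theorem win_kill_D (h : RingHyp o p q) (W : Win o M ad i0)
    (gam : o → ∀ k, MT o k →ₗ[o] MT o k) (h0 : ∀ k, gam 0 k = LinearMap.id)
    (hadd : ∀ s t k, gam (s + t) k = gam s k ∘ₗ gam t k)
    (hbr : ∀ t k (N : Submodule o (MT o k)),
      br (adT o k) (N.map (gam t k)) ≤ (br (adT o k) N).map (gam t (k + 1)))
    (D : ∀ k, MT o k →ₗ[o] MT o k)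
    (hD : ∀ t k (x : MT o k), ∃ y : MT o k, gam t k x = x + t • D k x + t ^ 2 • y)
    (V : Lay (RR o c 2) (NN ad c) p)
    (hV : ¬ ∀ i : Fin c, ∀ x ∈ comp V.1 i, (W.e i).symm (D (i0 + i) (W.e i x)) ∈ comp V.1 i) :
    Kill V := by
  refine kill_of_not_stable h (win_fre W)
    (fun t i => ((W.e i).symm : MT o (i0 + i) →ₗ[o] M i).comp
      ((gam t (i0 + i)).comp (W.e i : M i →ₗ[o] MT o (i0 + i)))) ?_ ?_ ?_
    (fun i => ((W.e i).symm : MT o (i0 + i) →ₗ[o] M i).comp
      ((D (i0 + i)).comp (W.e i : M i →ₗ[o] MT o (i0 + i)))) ?_ V hV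
  · intro i _
    apply LinearMap.ext
    intro x
    change (W.e i).symm (gam 0 (i0 + i) (W.e i x)) = x
    rw [h0, LinearMap.id_apply, LinearEquiv.symm_apply_apply]
  · intro s t i _
    apply LinearMap.ext
    intro x
    change (W.e i).symm (gam (s + t) (i0 + i) (W.e i x)) =
      (W.e i).symm (gam s (i0 + i) (W.e i ((W.e i).symm (gam t (i0 + i) (W.e i x)))))
    rw [hadd, LinearMap.comp_apply, LinearEquiv.apply_symm_apply]
  · intro t i _ N
    have hbr2 : br (adT o (i0 + i)) (N.map (W.e i : M i →ₗ[o] MT o (i0 + i))) ≤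
        (br (ad i) N).map (W.e (i + 1) : M (i + 1) →ₗ[o] MT o (i0 + (i + 1))) := by
      unfold br
      apply iSup_le
      intro j
      rintro _ ⟨_, ⟨n, hn, rfl⟩, rfl⟩
      refine ⟨ad i j n, (le_iSup (fun j => N.map (ad i j)) j) ⟨n, hn, rfl⟩, ?_⟩
      exact W.he i j n
    unfold br
    apply iSup_le
    intro j
    rintro _ ⟨_, ⟨n, hn, rfl⟩, rfl⟩
    have h1 : adT o (i0 + i) j (gam t (i0 + i) (W.e i n)) ∈
        (br (adT o (i0 + i)) (N.map (W.e i : M i →ₗ[o] MT o (i0 + i)))).map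
          (gam t (i0 + i + 1)) := by
      apply hbr
      unfold br
      exact (le_iSup (fun j => (((N.map (W.e i : M i →ₗ[o] MT o (i0 + i))).map
        (gam t (i0 + i))).map (adT o (i0 + i) j))) j) ⟨_, ⟨_, ⟨n, hn, rfl⟩, rfl⟩, rfl⟩
    obtain ⟨w, hw, hw2⟩ := h1
    obtain ⟨w', hw', rfl⟩ := hbr2 hw
    refine ⟨w', hw', ?_⟩
    change (W.e (i + 1)).symm (gam t (i0 + (i + 1)) (W.e (i + 1) w')) =
      ad i j ((W.e i).symm (gam t (i0 + i) (W.e i n)))
    rw [LinearEquiv.symm_apply_eq, W.he, LinearEquiv.apply_symm_apply]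
    exact hw2
  · intro t i _ x
    obtain ⟨y, hy⟩ := hD t (i0 + i) (W.e i x)
    refine ⟨(W.e i).symm y, ?_⟩
    change (W.e i).symm (gam t (i0 + i) (W.e i x)) = x + t • (W.e i).symm (D (i0 + i) (W.e i x)) +
      t ^ 2 • (W.e i).symm y
    rw [hy, map_add, map_add, map_smul, map_smul, LinearEquiv.symm_apply_apply]

/-- A layer is killed or is a coordinate family of the list. -/
theorem win_kill (h : RingHyp o p q) (hp : 11 ≤ p) (W : Win o M ad i0) (hc : i0 + c = 8)
    (V : Lay (RR o c 2) (NN ad c) p) :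
    Kill V ∨ ∃ s ∈ rigL, (∀ k < i0, ∀ a < nc k, s k a = false) ∧
      ∀ i : Fin c, comp V.1 i = (coP o p s (i0 + i)).comap (W.e i : M i →ₗ[o] MT o (i0 + i)) := by
  have hM : Fre o M c := win_fre W
  -- stability under the derivations
  by_cases hE : ∀ i : Fin c, ∀ x ∈ comp V.1 i,
      (W.e i).symm (opE o (i0 + i) (W.e i x)) ∈ comp V.1 i
  swap
  · exact Or.inl (win_kill_D h W (gE o) gE_zero gE_add gE_br (opE o) gE_D V hE)
  by_cases hF : ∀ i : Fin c, ∀ x ∈ comp V.1 i,
      (W.e i).symm (opF o (i0 + i) (W.e i x)) ∈ comp V.1 i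
  swap
  · exact Or.inl (win_kill_D h W (gF o) gF_zero gF_add gF_br (opF o) gF_D V hF)
  -- the full family
  obtain ⟨G, hG1, hG2⟩ := ext_fam (P := fun k => Submodule o (MT o k)) (c := c) (i0 := i0)
    (fun i => (comp V.1 i).comap ((W.e i).symm : MT o (i0 + i) →ₗ[o] M i))
    (fun k => coP o p (fun _ _ => false) k)
  have hG3 : ∀ (i : ℕ) (hi : i < c) (x : MT o (i0 + i)),
      x ∈ G (i0 + i) ↔ (W.e i).symm x ∈ comp V.1 ⟨i, hi⟩ := by
    intro i hi x
    have e1 : G (i0 + i) = (comp V.1 ⟨i, hi⟩).comap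
      ((W.e i).symm : MT o (i0 + i) →ₗ[o] M i) := hG1 ⟨i, hi⟩
    rw [e1]
    exact Iff.rfl
  have hG4 : ∀ k < i0, G k = coP o p (fun _ _ => false) k := fun k hk => hG2 k fun i => by omega
  have hcases : ∀ k, k < i0 ∨ (∃ i, k = i0 + i ∧ i < c) ∨ 8 ≤ k := by
    intro k
    rcases Nat.lt_or_ge k i0 with hk | hk
    · exact Or.inl hk
    · rcases Nat.lt_or_ge k 8 with hk8 | hk8
      · exact Or.inr (Or.inl ⟨k - i0, by omega, by omega⟩)
      · exact Or.inr (Or.inr hk8)
  have hpG : ∀ k, ∀ x : MT o k, (p : o) • x ∈ G k := by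
    intro k x
    rcases hcases k with hk | ⟨i, rfl, hi⟩ | hk
    · rw [hG4 k hk]
      exact smul_mem_coP _ _ _
    · rw [hG3 i hi, map_smul]
      exact comp_le_iff.1 V.2.1 ⟨i, hi⟩ (mem_comp_pN.2 ⟨_, by rw [pow_one]⟩)
    · have := subsingleton_MT (o := o) k hk
      rw [Subsingleton.elim ((p : o) • x) 0]
      exact zero_mem _
  have hTG : ∀ k, ∀ j : Fin 2, ∀ x ∈ G k, adT o k j x ∈ G (k + 1) := by
    intro k j x hx
    rcases hcases k with hk | ⟨i, rfl, hi⟩ | hk
    · rw [hG4 k hk, mem_coP_false] at hx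
      obtain ⟨y, rfl⟩ := hx
      rw [map_smul]
      exact hpG _ _
    · rcases Nat.lt_or_ge (i + 1) c with hi1 | hi1
      · rw [hG3 i hi] at hx
        have h1 := comp_clo V.1 i hi1 j _ hx
        change adT o (i0 + i) j x ∈ G (i0 + (i + 1))
        rw [hG3 (i + 1) hi1]
        have h2 : (W.e (i + 1)).symm (adT o (i0 + i) j x) = ad i j ((W.e i).symm x) := by
          rw [LinearEquiv.symm_apply_eq, W.he, LinearEquiv.apply_symm_apply]
        rw [h2]
        exact h1
      · have := subsingleton_MT (o := o) (i0 + i + 1) (by omega)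
        rw [Subsingleton.elim (adT o (i0 + i) j x) 0]
        exact zero_mem _
    · have := subsingleton_MT (o := o) (k + 1) (by omega)
      rw [Subsingleton.elim (adT o k j x) 0]
      exact zero_mem _
  have hEF : ∀ k, ∀ x ∈ G k, opE o k x ∈ G k ∧ opF o k x ∈ G k := by
    intro k x hx
    rcases hcases k with hk | ⟨i, rfl, hi⟩ | hk
    · rw [hG4 k hk, mem_coP_false] at hx
      obtain ⟨y, rfl⟩ := hx
      rw [map_smul, map_smul]
      exact ⟨hpG _ _, hpG _ _⟩
    · rw [hG3 i hi] at hx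
      rw [hG3 i hi, hG3 i hi]
      have h1 := hE ⟨i, hi⟩ _ hx
      have h2 := hF ⟨i, hi⟩ _ hx
      rw [LinearEquiv.apply_symm_apply] at h1 h2
      exact ⟨h1, h2⟩
    · have := subsingleton_MT (o := o) k hk
      rw [Subsingleton.elim (opE o k x) 0, Subsingleton.elim (opF o k x) 0]
      exact ⟨zero_mem _, zero_mem _⟩
  rcases list8 h hp G hpG hTG hEF with h1 | h1
  · left
    apply kill_of_dim h hM V
    have hw : ∀ i : Fin c, (wd q V.1 i : ℤ) = (len q (G (i0 + i)) : ℤ) := by
      intro i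
      have e1 : G (i0 + i) = (comp V.1 i).map (W.e i : M i →ₗ[o] MT o (i0 + i)) := by
        ext x
        rw [hG3 i i.2]
        constructor
        · intro hx
          exact ⟨_, hx, LinearEquiv.apply_symm_apply _ _⟩
        · rintro ⟨y, hy, rfl⟩
          change (W.e i).symm (W.e i y) ∈ _
          rw [LinearEquiv.symm_apply_apply]
          exact hy
      rw [e1, len_map_equiv]
      rfl
    have hu : ∀ i : Fin c, (ud q V.1 i : ℤ) = (mm (i0 + i) : ℤ) - (len q (G (i0 + i)) : ℤ) := by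
      intro i
      have h2 := GR4.ud_add_wd h hM V.2.1 i
      rw [(W.e i).finrank_eq, finrank_MT] at h2
      rw [← hw i, h2]
      push_cast
      ring
    have hz : ∀ k < i0, (mm k : ℤ) - (len q (G k) : ℤ) = 0 := by
      intro k hk
      rw [hG4 k hk, len_coP h]
      have hk8 : k < 8 := by omega
      interval_cases k <;> rfl
    have h3 : (2 * ∑ i : Fin c, (if hi : (i : ℕ) + 1 < c then
        (ud q V.1 i : ℤ) * (wd q V.1 ⟨(i : ℕ) + 1, hi⟩ : ℤ) else 0)) <
        ∑ i : Fin c, (ud q V.1 i : ℤ) * (wd q V.1 i : ℤ) := by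
      set F : ℕ → ℤ := fun k => (mm k : ℤ) - (len q (G k) : ℤ) with hF'
      have e1 : ∑ i : Fin c, (ud q V.1 i : ℤ) * (wd q V.1 i : ℤ) =
          ∑ i ∈ Finset.range c, F (i0 + i) * (len q (G (i0 + i)) : ℤ) := by
        rw [Finset.sum_range]
        exact Finset.sum_congr rfl fun i _ => by rw [hu, hw]
      have e2 : ∑ i : Fin c, (if hi : (i : ℕ) + 1 < c then
          (ud q V.1 i : ℤ) * (wd q V.1 ⟨(i : ℕ) + 1, hi⟩ : ℤ) else 0) =
          ∑ i ∈ Finset.range c, (if i0 + i + 1 < 8 then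
            F (i0 + i) * (len q (G (i0 + i + 1)) : ℤ) else 0) := by
        rw [Finset.sum_range]
        refine Finset.sum_congr rfl fun i _ => ?_
        by_cases hi : (i : ℕ) + 1 < c
        · rw [dif_pos hi, if_pos (by omega), hu, hw ⟨(i : ℕ) + 1, hi⟩]
          rfl
        · rw [dif_neg hi, if_neg (by omega)]
      have e3 : ∑ k ∈ Finset.range 8, F k * (len q (G k) : ℤ) =
          ∑ i ∈ Finset.range c, F (i0 + i) * (len q (G (i0 + i)) : ℤ) := by
        rw [← hc, Finset.sum_range_add, Finset.sum_eq_zero (s := Finset.range i0), zero_add]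
        intro k hk
        change ((mm k : ℤ) - (len q (G k) : ℤ)) * _ = 0
        rw [hz k (Finset.mem_range.1 hk), zero_mul]
      have e4 : ∑ k ∈ Finset.range 7, F k * (len q (G (k + 1)) : ℤ) =
          ∑ i ∈ Finset.range c, (if i0 + i + 1 < 8 then
            F (i0 + i) * (len q (G (i0 + i + 1)) : ℤ) else 0) := by
        have e5 : ∑ k ∈ Finset.range 7, F k * (len q (G (k + 1)) : ℤ) =
            ∑ k ∈ Finset.range 8, (if k + 1 < 8 then F k * (len q (G (k + 1)) : ℤ) else 0) := by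
          rw [Finset.sum_range_succ _ 7, if_neg (by norm_num), add_zero]
          refine Finset.sum_congr rfl fun k hk => ?_
          rw [if_pos (by have := Finset.mem_range.1 hk; omega)]
        rw [e5]
        have e6 : Finset.range 8 = Finset.range (i0 + c) := by rw [hc]
        rw [e6, Finset.sum_range_add, Finset.sum_eq_zero (s := Finset.range i0), zero_add]
        intro k hk
        split_ifs
        · change ((mm k : ℤ) - (len q (G k) : ℤ)) * _ = 0
          rw [hz k (Finset.mem_range.1 hk), zero_mul]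
        · rfl
      rw [e1, e2, ← e3, ← e4]
      unfold chi at h1
      change 1 ≤ ∑ k ∈ Finset.range 8, F k * (len q (G k) : ℤ) -
        2 * ∑ k ∈ Finset.range 7, F k * (len q (G (k + 1)) : ℤ) at h1
      linarith
    have h4 : ((2 * ∑ i : Fin c, (if hi : (i : ℕ) + 1 < c then
        ud q V.1 i * wd q V.1 ⟨(i : ℕ) + 1, hi⟩ else 0) : ℕ) : ℤ) <
        ((∑ i : Fin c, ud q V.1 i * wd q V.1 i : ℕ) : ℤ) := by
      push_cast
      refine lt_of_eq_of_lt ?_ h3
      congr 1
      refine Finset.sum_congr rfl fun i _ => ?_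
      split_ifs
      · push_cast
        rfl
      · rfl
    exact_mod_cast h4
  · right
    have h2 : ∃ s ∈ rigL, G = coP o p s := by
      unfold rigL
      rcases h1 with ⟨i, hi, h1⟩ | h1 | h1 | h1 | h1
      · refine ⟨sC i, ?_, h1⟩
        interval_cases i <;> simp
      · exact ⟨sS, by simp, h1⟩
      · exact ⟨sT, by simp, h1⟩
      · exact ⟨sF, by simp, h1⟩
      · exact ⟨sG, by simp, h1⟩
    obtain ⟨s, hs, hGs⟩ := h2
    refine ⟨s, hs, ?_, ?_⟩
    · intro k hk a ha
      by_contra hsa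
      have hsa' : s k a = true := by simpa using hsa
      have h3 : bv o k a 0 ∈ G k := by
        rw [hGs]
        exact coB_le_coP s k (bv_mem_coB' s k a 0 hsa')
      rw [hG4 k hk] at h3
      have h4 := h3 ⟨a, ha⟩ rfl ⟨0, Nat.succ_pos _⟩
      simp only [bv, and_self, if_true] at h4
      exact h.irr.not_isUnit (isUnit_of_dvd_one h4)
    · intro i
      ext x
      rw [← hGs]
      change x ∈ comp V.1 i ↔ W.e i x ∈ G (i0 + i)
      rw [hG3 i i.2, LinearEquiv.symm_apply_apply]

end Pool.Agent.TZ8
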