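import Pool.Agent.TZ8.LFam
import Pool.Agent.TZ8.LGen
import Pool.Agent.TZ8.GDE

set_option autoImplicit false

/-! The layers attached to coordinate patterns. -/

namespace Pool.Agent.TZ8

open Pool.Agent.TZ

section

variable {o : Type} [CommRing o]

theorem mem_coP_iff {p : ℕ} {s : ℕ → ℕ → Bool} {k : ℕ} {x : MT o k} :
    x ∈ coP o p s k ↔ ∃ y ∈ coB o s k, ∃ z : MT o k, x = y + (p : o) • z := by
  classical
  constructor
  · intro hx
    have hx' : ∀ a : Fin (nc k), s k a = false → ∀ i, ∃ c, x a i = (p : o) * c := hx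
    choose z hz using hx'
    refine ⟨fun a => if s k a = false then 0 else x a, ?_,
      fun a => if h : s k a = false then z a h else 0, ?_⟩
    · intro a ha
      show (if s k a = false then 0 else x a) = 0
      rw [if_pos ha]
    · funext a i
      show x a i = (if s k a = false then 0 else x a) i +
        (p : o) * (if h : s k a = false then z a h else 0) i
      by_cases ha : s k a = false
      · rw [if_pos ha, dif_pos ha, hz a ha i]
        simp
      · rw [if_neg ha, dif_neg ha]
        simp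
  · rintro ⟨y, hy, z, rfl⟩ a ha i
    show (p : o) ∣ y a i + (p : o) * z a i
    rw [hy a ha]
    simp

/-- The coordinate families are stable under the operators. -/
private theorem pat_coB_stable (s : ℕ → ℕ → Bool) (hs : IsPat s) (k : ℕ) (j : Fin 2) (x : MT o k)
    (hx : x ∈ coB o s k) : adT o k j x ∈ coB o s (k + 1) := by
  have key : ∀ (a b : ℕ), (cm k a b ≠ 0 ∨ cc k a b ≠ 0) → s k a = true → s (k + 1) b = true := by
    intro a b hab hsa
    rcases hs with (rfl | rfl | rfl | rfl) | ⟨i, rfl⟩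
    · rcases hab with hab | hab
      · unfold cm at hab; split at hab <;> simp_all [sS]
      · unfold cc at hab; split at hab <;> simp_all [sS]
    · rcases hab with hab | hab
      · unfold cm at hab; split at hab <;> simp_all [sT]
      · unfold cc at hab; split at hab <;> simp_all [sT]
    · rcases hab with hab | hab
      · unfold cm at hab; split at hab <;> simp_all [sF, sT]
      · unfold cc at hab; split at hab <;> simp_all [sF, sT]
    · rcases hab with hab | hab
      · unfold cm at hab; split at hab <;> simp_all [sG]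
      · unfold cc at hab; split at hab <;> simp_all [sG]
    · simp only [sC, decide_eq_true_eq] at hsa ⊢
      omega
  intro b hb
  funext l
  change (∑ a : Fin (nc k), ((cm k a b : o) * mulC x a j l + (cc k a b : o) * conC x a j l)) = 0
  refine Finset.sum_eq_zero fun a _ => ?_
  rcases hsa : s k a with _ | _
  · have h0 : ∀ i, cf x a i = 0 := (mem_coB s k x).1 hx a a.2 hsa
    have h1 : mulC x a j l = 0 := by
      unfold mulC
      split_ifs
      · exact h0 _
      · rfl
      · exact h0 _
    have h2 : conC x a j l = 0 := by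
      unfold conC
      split_ifs
      · rw [h0, mul_zero, neg_zero]
      · rw [h0, mul_zero]
    rw [h1, h2, mul_zero, mul_zero, add_zero]
  · have h1 : cm k a b = 0 := by
      by_contra h
      have := key a b (Or.inl h) hsa
      rw [this] at hb
      exact Bool.noConfusion hb
    have h2 : cc k a b = 0 := by
      by_contra h
      have := key a b (Or.inr h) hsa
      rw [this] at hb
      exact Bool.noConfusion hb
    rw [h1, h2, Int.cast_zero, zero_mul, zero_mul, add_zero]

theorem clo_coB (s : ℕ → ℕ → Bool) (hs : IsPat s) :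
    Clo (adT o) 8 (fun k : Fin 8 => coB o s k) := by
  intro i _ j x hx
  exact pat_coB_stable s hs i j x hx

theorem clo_coP (p : ℕ) (s : ℕ → ℕ → Bool) (hs : IsPat s) :
    Clo (adT o) 8 (fun k : Fin 8 => coP o p s k) := by
  intro i _ j x hx
  obtain ⟨y, hy, z, rfl⟩ := mem_coP_iff.1 hx
  refine mem_coP_iff.2 ⟨adT o i j y, pat_coB_stable s hs i j y hy, adT o i j z, ?_⟩
  rw [map_add, map_smul]

end

/-- The layer attached to a pattern. -/
def patS (o : Type) [CommRing o] (p : ℕ) (s : ℕ → ℕ → Bool) (hs : IsPat s) :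
    Submodule (RR o 8 2) (NN (adT o) 8) :=
  toS (fun k : Fin 8 => coP o p s k) (clo_coP p s hs)

/-- The twelve patterns: the cuts, then `S`, `T`, `F`, `G`. -/
def pats : Fin 12 → ℕ → ℕ → Bool :=
  ![sC 1, sC 2, sC 3, sC 4, sC 5, sC 6, sC 7, sC 8, sS, sT, sF, sG]

theorem isPat_pats (i : Fin 12) : IsPat (pats i) := by
  fin_cases i
  · exact Or.inr ⟨1, rfl⟩
  · exact Or.inr ⟨2, rfl⟩
  · exact Or.inr ⟨3, rfl⟩
  · exact Or.inr ⟨4, rfl⟩
  · exact Or.inr ⟨5, rfl⟩
  · exact Or.inr ⟨6, rfl⟩
  · exact Or.inr ⟨7, rfl⟩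
  · exact Or.inr ⟨8, rfl⟩
  · exact Or.inl (Or.inl rfl)
  · exact Or.inl (Or.inr (Or.inl rfl))
  · exact Or.inl (Or.inr (Or.inr (Or.inl rfl)))
  · exact Or.inl (Or.inr (Or.inr (Or.inr rfl)))

/-- The twelve layers. -/
def PU (o : Type) [CommRing o] (p : ℕ) (i : Fin 12) : Submodule (RR o 8 2) (NN (adT o) 8) :=
  patS o p (pats i) (isPat_pats i)

/-- Comparison of patterns. -/
def leP (i j : Fin 12) : Prop :=
  ∀ k < 8, ∀ a < nc k, pats i k a = true → pats j k a = true

instance (i j : Fin 12) : Decidable (leP i j) := by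
  unfold leP
  infer_instance

variable {o : Type} [CommRing o] [IsDomain o] [IsDiscreteValuationRing o] {p q : ℕ}

theorem comp_PU (i : Fin 12) (k : Fin 8) : comp (PU o p i) k = coP o p (pats i) k :=
  comp_toS (fun k : Fin 8 => coP o p (pats i) k) (clo_coP p (pats i) (isPat_pats i)) k

theorem PU_le_iff (h : RingHyp o p q) (i j : Fin 12) : PU o p i ≤ PU o p j ↔ leP i j := by
  rw [comp_le_iff]
  constructor
  · intro H k hk a ha hia
    by_contra hja
    have hja' : pats j k a = false := by simpa using hja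
    have h1 : bv o k a 0 ∈ coP o p (pats i) k :=
      mem_coP_iff.2 ⟨bv o k a 0, bv_mem_coB _ k a 0 hia, 0, by simp⟩
    have h2 : bv o k a 0 ∈ coP o p (pats j) k := by
      have h3 := H ⟨k, hk⟩
      rw [comp_PU, comp_PU] at h3
      exact h3 h1
    have h4 := (mem_coP p (pats j) k _).1 h2 a ha hja' 0
    rw [cf_bv _ _ _ _ _ ha (Nat.zero_le _)] at h4
    simp only [and_self, if_true] at h4
    exact h.irr.not_isUnit (isUnit_of_dvd_one h4)
  · intro H k
    rw [comp_PU, comp_PU]
    intro x hx a hja b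
    rcases hia : pats i k a with _ | _
    · exact hx a hia b
    · rw [H k k.2 a a.2 hia] at hja
      cases hja

private theorem leP_antisymm : ∀ i j : Fin 12, leP i j → leP j i → i = j := by decide

theorem PU_injective (h : RingHyp o p q) : Function.Injective (PU o p) := by
  intro i j hij
  exact leP_antisymm i j ((PU_le_iff h i j).1 hij.le) ((PU_le_iff h j i).1 hij.ge)

theorem pN_le_PU (i : Fin 12) : pN (RR o 8 2) (NN (adT o) 8) p 1 ≤ PU o p i := by
  rw [comp_le_iff]
  intro k x hx
  rw [comp_PU]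
  obtain ⟨y, hy⟩ := mem_comp_pN.1 hx
  refine mem_coP_iff.2 ⟨0, (coB o (pats i) k).zero_mem, y, ?_⟩
  rw [hy, pow_one, zero_add]

private theorem pats_zero : ∀ i : Fin 12, pats i 0 0 = false := by decide

theorem PU_ne_top (h : RingHyp o p q) (i : Fin 12) : PU o p i ≠ ⊤ := by
  intro H
  have h1 : comp (PU o p i) 0 = ⊤ := by rw [H, comp_top]
  rw [comp_PU] at h1
  have h2 : bv o 0 0 0 ∈ coP o p (pats i) 0 := by
    have h3 : bv o 0 0 0 ∈ (⊤ : Submodule o (MT o 0)) := trivial
    rw [← h1] at h3
    exact h3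
  have h4 := (mem_coP p (pats i) 0 _).1 h2 0 (by decide) (pats_zero i) 0
  rw [cf_bv _ _ _ _ _ (by decide) (Nat.zero_le _)] at h4
  simp only [and_self, if_true] at h4
  exact h.irr.not_isUnit (isUnit_of_dvd_one h4)

/-- The first six patterns are the cuts. -/
theorem PU_cut (i : Fin 12) (hi : (i : ℕ) < 8) :
    PU o p i = cutS p (adT o) 8 ((i : ℕ) + 1) := by
  have hp : pats i = sC ((i : ℕ) + 1) := by
    obtain ⟨i, hi'⟩ := i
    simp only at hi
    interval_cases i <;> rfl
  refine comp_inj fun k => ?_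
  rw [comp_PU]
  unfold cutS
  rw [comp_toS, hp]
  ext x
  unfold cutF
  split_ifs with h1
  · constructor
    · intro _
      trivial
    · intro _ a ha
      simp only [sC, decide_eq_false_iff_not] at ha
      exact absurd h1 ha
  · rw [mem_range_mp, mem_coP_iff]
    constructor
    · rintro ⟨y, hy, z, rfl⟩
      have hy0 : y = 0 := by
        funext a
        refine hy a ?_
        simp only [sC, decide_eq_false_iff_not]
        exact h1
      exact ⟨z, by rw [hy0, zero_add]⟩
    · rintro ⟨z, rfl⟩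
      exact ⟨0, (coB o _ _).zero_mem, z, by rw [zero_add]⟩

theorem sat_PU (h : RingHyp o p q) (i : Fin 12) :
    ∃ U : Submodule (RR o 8 2) (NN (adT o) 8), (∀ x, p • x ∈ U → x ∈ U) ∧
      U ⊔ pN (RR o 8 2) (NN (adT o) 8) p 1 = PU o p i := by
  refine ⟨toS (fun k : Fin 8 => coB o (pats i) k) (clo_coB (pats i) (isPat_pats i)), ?_, ?_⟩
  · intro x hx k a ha
    have h1 : (p • x) k a = 0 := hx k a ha
    funext b
    have h2 : (p • x) k a b = 0 := by rw [h1]; rfl
    have h3 : (p • x) k a b = (p : o) * x k a b := by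
      show (p • (x k a b) : o) = _
      rw [nsmul_eq_mul]
    rw [h3] at h2
    exact (mul_eq_zero.1 h2).resolve_left h.irr.ne_zero
  · refine comp_inj fun k => ?_
    rw [comp_sup, comp_PU, comp_toS]
    ext x
    rw [Submodule.mem_sup, mem_coP_iff]
    constructor
    · rintro ⟨y, hy, w, hw, rfl⟩
      obtain ⟨z, rfl⟩ := mem_comp_pN.1 hw
      exact ⟨y, hy, z, by rw [pow_one]⟩
    · rintro ⟨y, hy, z, rfl⟩
      exact ⟨y, hy, (p : o) • z, mem_comp_pN.2 ⟨z, by rw [pow_one]⟩, rfl⟩

/-- The maximal chains of patterns. -/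
theorem chain12 (τ : Finset (Fin 12)) (hτ : ∀ i ∈ τ, ∀ j ∈ τ, leP i j ∨ leP j i) :
    τ.card ≤ 8 ∧ (8 ≤ τ.card → ∀ i : Fin 12, (i : ℕ) < 6 → i ∈ τ) := by
  classical
  obtain ⟨f, hc, h1, h2, h3⟩ : ∃ f : Fin 12 → ℕ, τ.card = ∑ i : Fin 12, f i ∧ (∀ i, f i ≤ 1) ∧
      (∀ i j, ¬ leP i j → ¬ leP j i → f i + f j ≤ 1) ∧ ∀ i, 1 ≤ f i → i ∈ τ := by
    have h1 : ∀ i : Fin 12, (if i ∈ τ then 1 else 0) ≤ 1 := fun i => by split_ifs <;> omega
    refine ⟨fun i => if i ∈ τ then 1 else 0, ?_, h1, ?_, ?_⟩
    · rw [Finset.card_eq_sum_ones, Finset.sum_ite_mem, Finset.univ_inter]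
    · intro i j hij hji
      show (if i ∈ τ then 1 else 0) + (if j ∈ τ then 1 else 0) ≤ 1
      by_cases hi : i ∈ τ
      · by_cases hj : j ∈ τ
        · rcases hτ i hi j hj with h | h
          · exact absurd h hij
          · exact absurd h hji
        · rw [if_neg hj]
          exact h1 i
      · rw [if_neg hi, zero_add]
        exact h1 j
    · intro i hi
      by_contra hn
      have hi' : 1 ≤ (if i ∈ τ then 1 else 0) := hi
      rw [if_neg hn] at hi'
      omega
  have hs : ∑ i : Fin 12, f i = f 0 + f 1 + f 2 + f 3 + f 4 + f 5 + f 6 + f 7 + f 8 + f 9 +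
      f 10 + f 11 := by
    have e1 : ∑ i : Fin 12, f i = f 0 + (f 1 + (f 2 + (f 3 + (f 4 + (f 5 + (f 6 + (f 7 + (f 8 +
        (f 9 + (f 10 + (f 11 + 0))))))))))) := rfl
    omega
  have a1 := h2 6 8 (by decide) (by decide)
  have a2 := h2 6 9 (by decide) (by decide)
  have a3 := h2 6 10 (by decide) (by decide)
  have a4 := h2 6 11 (by decide) (by decide)
  have a5 := h2 8 9 (by decide) (by decide)
  have a6 := h2 8 10 (by decide) (by decide)
  have a7 := h2 8 11 (by decide) (by decide)
  have a8 := h2 9 11 (by decide) (by decide)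
  have a9 := h2 10 11 (by decide) (by decide)
  have b1 := h2 10 4 (by decide) (by decide)
  have b2 := h2 9 5 (by decide) (by decide)
  have b3 := h2 10 5 (by decide) (by decide)
  have b4 := h2 11 4 (by decide) (by decide)
  have b5 := h2 11 5 (by decide) (by decide)
  have c0 := h1 0
  have c1 := h1 1
  have c2 := h1 2
  have c3 := h1 3
  have c4 := h1 4
  have c5 := h1 5
  have c6 := h1 6
  have c7 := h1 7
  have c8 := h1 8
  have c9 := h1 9
  have c10 := h1 10
  have c11 := h1 11
  rw [hs] at hc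
  refine ⟨by omega, ?_⟩
  intro h8 i hi
  have d0 : 0 ∈ τ := h3 0 (by omega)
  have d1 : 1 ∈ τ := h3 1 (by omega)
  have d2 : 2 ∈ τ := h3 2 (by omega)
  have d3 : 3 ∈ τ := h3 3 (by omega)
  have d4 : 4 ∈ τ := h3 4 (by omega)
  have d5 : 5 ∈ τ := h3 5 (by omega)
  obtain ⟨i, hi'⟩ := i
  simp only at hi
  interval_cases i
  · exact d0
  · exact d1
  · exact d2
  · exact d3
  · exact d4
  · exact d5

end Pool.Agent.TZ8
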