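import Pool.Agent.TZ8.PAT
import Pool.Agent.TZ8.LList
import Pool.Agent.TZ8.LGam
import Pool.Agent.TZ8.GR4
import Pool.Agent.TZ8.GR6

set_option autoImplicit false

/-! Killing of all layers but the twelve. -/

namespace Pool.Agent.TZ8

open Pool.Agent.TZ

variable {o : Type} [CommRing o] [IsDomain o] [IsDiscreteValuationRing o] {p q : ℕ}

theorem fre_MT : Fre o (MT o) 8 where
  free := fun _ _ => inferInstance
  fin := fun _ _ => inferInstance

namespace PKILL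

/-- The components of `V`, extended by everything. -/
def ext (V : Submodule (RR o 8 2) (NN (adT o) 8)) (k : ℕ) : Submodule o (MT o k) :=
  if hk : k < 8 then comp V ⟨k, hk⟩ else ⊤

theorem ext_of_lt (V : Submodule (RR o 8 2) (NN (adT o) 8)) (k : ℕ) (hk : k < 8) :
    ext V k = comp V ⟨k, hk⟩ := dif_pos hk

theorem ext_of_ge (V : Submodule (RR o 8 2) (NN (adT o) 8)) (k : ℕ) (hk : ¬ k < 8) :
    ext V k = ⊤ := dif_neg hk

theorem eq_of_ext (V : Submodule (RR o 8 2) (NN (adT o) 8)) (i : Fin 12)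
    (hV : ext V = coP o p (pats i)) : V = PU o p i := by
  apply comp_inj
  intro k
  rw [comp_PU, ← hV, ext_of_lt V k k.2]

theorem kill_chi (h : RingHyp o p q) (V : Lay (RR o 8 2) (NN (adT o) 8) p)
    (hV : 1 ≤ chi q (ext V.1)) : Kill V := by
  apply kill_of_dim h fre_MT V
  have hu : ∀ i : Fin 8, (ud q V.1 i : ℤ) = (mm i : ℤ) - len q (ext V.1 i) := by
    intro i
    have h1 := GR4.ud_add_wd (ad := adT o) h fre_MT V.2.1 i
    rw [finrank_MT] at h1
    rw [ext_of_lt V.1 i i.2, h1]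
    unfold wd
    push_cast
    ring
  have hw : ∀ i : Fin 8, (wd q V.1 i : ℤ) = len q (ext V.1 i) := by
    intro i
    rw [ext_of_lt V.1 i i.2]
    rfl
  have e1 : ∑ k ∈ Finset.range 8, ((mm k : ℤ) - len q (ext V.1 k)) * len q (ext V.1 k) =
      ∑ i : Fin 8, (ud q V.1 i : ℤ) * wd q V.1 i := by
    rw [← Fin.sum_univ_eq_sum_range
      (fun k => ((mm k : ℤ) - len q (ext V.1 k)) * len q (ext V.1 k)) 8]
    refine Finset.sum_congr rfl fun i _ => ?_
    rw [hu, hw]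
  have e2 : ∑ k ∈ Finset.range 7, ((mm k : ℤ) - len q (ext V.1 k)) * len q (ext V.1 (k + 1)) =
      ∑ i : Fin 8, (if hi : (i : ℕ) + 1 < 8 then
        (ud q V.1 i : ℤ) * wd q V.1 ⟨(i : ℕ) + 1, hi⟩ else 0) := by
    rw [← Fin.sum_univ_eq_sum_range
      (fun k => ((mm k : ℤ) - len q (ext V.1 k)) * len q (ext V.1 (k + 1))) 7,
      Fin.sum_univ_castSucc (n := 7), dif_neg (by simp), add_zero]
    refine Finset.sum_congr rfl fun i _ => ?_
    have hi : ((Fin.castSucc i : Fin 8) : ℕ) + 1 < 8 := by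
      have := i.2
      simp only [Fin.val_castSucc]
      omega
    rw [dif_pos hi, hu, hw]
    rfl
  unfold chi at hV
  rw [e1, e2] at hV
  have e3 : ((2 * ∑ i : Fin 8, (if hi : (i : ℕ) + 1 < 8 then
      ud q V.1 i * wd q V.1 ⟨(i : ℕ) + 1, hi⟩ else 0) : ℕ) : ℤ) =
      2 * ∑ i : Fin 8, (if hi : (i : ℕ) + 1 < 8 then
        (ud q V.1 i : ℤ) * wd q V.1 ⟨(i : ℕ) + 1, hi⟩ else 0) := by
    push_cast
    rfl
  have e4 : ((∑ i : Fin 8, ud q V.1 i * wd q V.1 i : ℕ) : ℤ) =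
      ∑ i : Fin 8, (ud q V.1 i : ℤ) * wd q V.1 i := by
    rw [Nat.cast_sum]
    refine Finset.sum_congr rfl fun i _ => ?_
    rw [Nat.cast_mul]
  have e5 : ((2 * ∑ i : Fin 8, (if hi : (i : ℕ) + 1 < 8 then
      ud q V.1 i * wd q V.1 ⟨(i : ℕ) + 1, hi⟩ else 0) : ℕ) : ℤ) <
      ((∑ i : Fin 8, ud q V.1 i * wd q V.1 i : ℕ) : ℤ) := by
    rw [e3, e4]
    linarith
  exact_mod_cast e5

end PKILL

theorem kill_PU (h : RingHyp o p q) (hp : 11 ≤ p) (V : Lay (RR o 8 2) (NN (adT o) 8) p)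
    (hV : ∀ i : Fin 12, V.1 ≠ PU o p i) : Kill V := by
  by_cases hE : ∀ i : Fin 8, ∀ x ∈ comp V.1 i, opE o i x ∈ comp V.1 i
  swap
  · exact kill_of_not_stable h fre_MT (gE o) (fun i _ => gE_zero i) (fun s t i _ => gE_add s t i)
      (fun t i _ N => gE_br t i N) (opE o) (fun t i _ x => gE_D t i x) V hE
  by_cases hF : ∀ i : Fin 8, ∀ x ∈ comp V.1 i, opF o i x ∈ comp V.1 i
  swap
  · exact kill_of_not_stable h fre_MT (gF o) (fun i _ => gF_zero i) (fun s t i _ => gF_add s t i)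
      (fun t i _ N => gF_br t i N) (opF o) (fun t i _ x => gF_D t i x) V hF
  have hl := list8 h hp (PKILL.ext V.1) (by
    intro k x
    by_cases hk : k < 8
    · rw [PKILL.ext_of_lt _ k hk]
      have := GR3.pow_mem V.2.1 ⟨k, hk⟩ x
      rwa [pow_one] at this
    · rw [PKILL.ext_of_ge _ k hk]
      trivial) (by
    intro k j x hx
    by_cases hk : k + 1 < 8
    · rw [PKILL.ext_of_lt _ k (by omega)] at hx
      rw [PKILL.ext_of_lt _ (k + 1) hk]
      exact comp_clo V.1 k hk j x hx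
    · rw [PKILL.ext_of_ge _ (k + 1) hk]
      trivial) (by
    intro k x hx
    by_cases hk : k < 8
    · rw [PKILL.ext_of_lt _ k hk] at hx ⊢
      exact ⟨hE ⟨k, hk⟩ x hx, hF ⟨k, hk⟩ x hx⟩
    · rw [PKILL.ext_of_ge _ k hk]
      exact ⟨trivial, trivial⟩)
  rcases hl with hl | ⟨i, hi, hl⟩ | hl | hl | hl | hl
  · exact PKILL.kill_chi h V hl
  · interval_cases i
    · exfalso
      apply V.2.2
      apply comp_inj
      intro k
      rw [comp_top, ← PKILL.ext_of_lt V.1 k k.2, hl, eq_top_iff]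
      intro x _ a ha
      simp [sC] at ha
    · exact absurd (PKILL.eq_of_ext V.1 0 hl) (hV 0)
    · exact absurd (PKILL.eq_of_ext V.1 1 hl) (hV 1)
    · exact absurd (PKILL.eq_of_ext V.1 2 hl) (hV 2)
    · exact absurd (PKILL.eq_of_ext V.1 3 hl) (hV 3)
    · exact absurd (PKILL.eq_of_ext V.1 4 hl) (hV 4)
    · exact absurd (PKILL.eq_of_ext V.1 5 hl) (hV 5)
    · exact absurd (PKILL.eq_of_ext V.1 6 hl) (hV 6)
    · exact absurd (PKILL.eq_of_ext V.1 7 hl) (hV 7)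
  · exact absurd (PKILL.eq_of_ext V.1 8 hl) (hV 8)
  · exact absurd (PKILL.eq_of_ext V.1 9 hl) (hV 9)
  · exact absurd (PKILL.eq_of_ext V.1 10 hl) (hV 10)
  · exact absurd (PKILL.eq_of_ext V.1 11 hl) (hV 11)

end Pool.Agent.TZ8
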