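import Pool.Agent.TZ8.PAT
import Pool.Agent.TZ8.LRig
import Pool.Agent.TZ8.GR5

set_option autoImplicit false

/-! Rigidity of the twelve layers. -/

namespace Pool.Agent.TZ8

open Pool.Agent.TZ

namespace PRIG

section pr

variable {o : Type} [CommRing o] {p : ℕ}

/-- The projection to a coordinate submodule. -/
private def prB (o : Type) [CommRing o] (s : ℕ → ℕ → Bool) (k : ℕ) : MT o k →ₗ[o] MT o k where
  toFun x := fun a => if s k a then x a else 0
  map_add' x y := by
    funext a
    simp only [Pi.add_apply]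
    split_ifs
    · rfl
    · rw [add_zero]
  map_smul' r x := by
    funext a
    simp only [Pi.smul_apply, RingHom.id_apply]
    split_ifs
    · rfl
    · rw [smul_zero]

private theorem prB_mem (s : ℕ → ℕ → Bool) (k : ℕ) (x : MT o k) : prB o s k x ∈ coB o s k := by
  intro a ha
  change (if s k a then x a else 0) = 0
  rw [if_neg (by rw [ha]; decide)]

private theorem prB_of_mem {s : ℕ → ℕ → Bool} {k : ℕ} {x : MT o k} (hx : x ∈ coB o s k) :
    prB o s k x = x := by
  funext a
  change (if s k a then x a else 0) = x a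
  split_ifs with h
  · rfl
  · exact (hx a (by simpa using h)).symm

private theorem coB_le_coP (s : ℕ → ℕ → Bool) (k : ℕ) : coB o s k ≤ coP o p s k := by
  intro x hx a ha i
  rw [hx a ha]
  exact dvd_zero _

private theorem smul_mem_coP (s : ℕ → ℕ → Bool) (k : ℕ) (x : MT o k) :
    (p : o) • x ∈ coP o p s k := by
  intro a _ i
  exact dvd_mul_right _ _

private theorem exists_prB {s : ℕ → ℕ → Bool} {k : ℕ} {x : MT o k} (hx : x ∈ coP o p s k) :
    ∃ y : MT o k, x = prB o s k x + (p : o) • y := by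
  have h1 : ∃ y : MT o k, x - prB o s k x = (p : o) • y := by
    rw [exists_smul_iff]
    intro a ha i
    unfold cf
    split_ifs with h
    · change (p : o) ∣ (x ⟨a, ha⟩ - (if s k a then x ⟨a, ha⟩ else 0) : Fin (dg k a + 1) → o) _
      split_ifs with h2
      · rw [sub_self]
        exact dvd_zero _
      · rw [sub_zero]
        exact hx ⟨a, ha⟩ (by simpa using h2) _
    · exact dvd_zero _
  obtain ⟨y, hy⟩ := h1
  exact ⟨y, by rw [← hy]; abel⟩

end pr

end PRIG

variable {o : Type} [CommRing o] [IsDomain o] [IsDiscreteValuationRing o] {p q : ℕ}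

/-- Rigidity in terms of graded homomorphisms between coordinate families. -/
theorem rig_patS (s s' : ℕ → ℕ → Bool) (hs : IsPat s) (hs' : IsPat s') (H : NoHom o p s s') :
    Rig p (patS o p s hs) (patS o p s' hs') := by
  have hV : ∀ i : Fin 8, comp (patS o p s hs) i = coP o p s i :=
    fun i => comp_toS (fun k : Fin 8 => coP o p s k) (clo_coP p s hs) i
  have hV' : ∀ i : Fin 8, comp (patS o p s' hs') i = coP o p s' i :=
    fun i => comp_toS (fun k : Fin 8 => coP o p s' k) (clo_coP p s' hs') i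
  apply rig_of_graded
  intro φ hφ1 hφ2
  have hmem : ∀ (i : Fin 8) (x : MT o i), PRIG.prB o s i x ∈ comp (patS o p s hs) i := by
    intro i x
    rw [hV]
    exact PRIG.coB_le_coP s _ (PRIG.prB_mem s _ _)
  have hlift : ∀ i : Fin 8, ∃ g : MT o i →ₗ[o] MT o i, ∀ x : MT o i,
      φ i ⟨PRIG.prB o s i x, hmem i x⟩ = Submodule.Quotient.mk (g x) := by
    intro i
    obtain ⟨g, hg⟩ := Module.projective_lifting_property (comp (patS o p s' hs') i).mkQ
      ((φ i).comp (LinearMap.codRestrict (comp (patS o p s hs) i) (PRIG.prB o s i)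
        (fun x => hmem i x))) (Submodule.mkQ_surjective _)
    refine ⟨g, fun x => ?_⟩
    have := congrArg (fun u => u x) hg
    exact this.symm
  choose g hg using hlift
  let f : ∀ k, MT o k →ₗ[o] MT o k := fun k => if hk : k < 8 then g ⟨k, hk⟩ else 0
  have hf : ∀ (k : ℕ) (hk : k < 8), f k = g ⟨k, hk⟩ := fun k hk => dif_pos hk
  have key := H f (by
    intro k j x hx
    rcases Nat.lt_or_ge (k + 1) 8 with hk8 | hk8
    · rw [hf k (by omega), hf (k + 1) hk8]
      have h1 : Submodule.Quotient.mk (g ⟨k + 1, hk8⟩ (adT o k j x)) =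
          (Submodule.Quotient.mk (adT o k j (g ⟨k, Nat.lt_of_succ_lt hk8⟩ x)) :
            MT o (k + 1) ⧸ comp (patS o p s' hs') ⟨k + 1, hk8⟩) := by
        have h2 := hφ1 k hk8 j _ (hmem ⟨k, Nat.lt_of_succ_lt hk8⟩ x) _
          (hg ⟨k, Nat.lt_of_succ_lt hk8⟩ x)
        rw [← h2, ← hg ⟨k + 1, hk8⟩]
        congr 1
        apply Subtype.ext
        change PRIG.prB o s (k + 1) (adT o k j x) = adT o k j (PRIG.prB o s k x)
        rw [PRIG.prB_of_mem hx]
        exact PRIG.prB_of_mem (coB_stable s hs k j _ hx)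
      rw [Submodule.Quotient.eq, hV'] at h1
      exact h1
    · have := subsingleton_MT (o := o) (k + 1) hk8
      rw [Subsingleton.elim (f (k + 1) (adT o k j x) - adT o k j (f k x)) 0]
      exact zero_mem _)
  intro i x
  have hx : (x : MT o i) ∈ coP o p s i := by
    have h0 : ∀ z ∈ comp (patS o p s hs) i, z ∈ coP o p s i := by
      rw [hV]
      exact fun z hz => hz
    exact h0 _ x.2
  obtain ⟨y, hy⟩ := PRIG.exists_prB hx
  have h4 : (x : MT o i) = PRIG.prB o s i (PRIG.prB o s i (x : MT o i)) + (p : o) • y := by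
    rw [PRIG.prB_of_mem (PRIG.prB_mem s _ _), ← hy]
  have h5 : (p : o) • y ∈ comp (patS o p s hs) i := by
    rw [hV]
    exact PRIG.smul_mem_coP s _ _
  have h6 : x = ⟨PRIG.prB o s i (PRIG.prB o s i (x : MT o i)), hmem i _⟩ +
      ⟨(p : o) • y, h5⟩ := Subtype.ext h4
  rw [h6, map_add, hφ2 i ⟨_, h5⟩ ⟨_, rfl⟩, add_zero, hg, Submodule.Quotient.mk_eq_zero, hV']
  have h7 := key i _ (PRIG.prB_mem s i (x : MT o i))
  rw [hf i i.2] at h7
  exact h7

theorem rig_PU (h : RingHyp o p q) (hp : 11 ≤ p) (i j : Fin 12) (hij : PU o p i ≤ PU o p j) :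
    Rig p (PU o p i) (PU o p j) := by
  have hmem : ∀ i : Fin 12, pats i ∈ rigL := by
    intro i
    unfold rigL
    fin_cases i <;> simp [pats]
  refine rig_patS (pats i) (pats j) (isPat_pats i) (isPat_pats j)
    (noHom_all h hp (pats i) (pats j) (hmem i) (hmem j) ?_)
  intro k
  rcases Nat.lt_or_ge k 8 with hk | hk
  · have h1 := comp_le_iff.1 hij ⟨k, hk⟩
    rw [comp_PU, comp_PU] at h1
    exact h1
  · have := subsingleton_MT (o := o) k hk
    intro x _
    rw [Subsingleton.elim x 0]
    exact zero_mem _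

end Pool.Agent.TZ8
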