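import Pool.Agent.TZ8.PAT
import Pool.Agent.TZ8.PRIG
import Pool.Agent.TZ8.PKILL
import Pool.Agent.TZ8.LGF
import Pool.Agent.TZ8.LD

set_option autoImplicit false

/-! The lattices which miss a cut do not contribute. -/

namespace Pool.Agent.TZ8

open Pool.Agent.TZ

/-- Splitting a zeta function. -/
theorem lgs_split {R : Type} [Ring R] {N : Type} [AddCommGroup N] [Module R N] {p : ℕ}
    (hN : NHyp R N p) (P : (Lay R N p → ℕ) → Prop) (nu : Lay R N p → ℕ) (hnu : ∀ V, 0 < nu V) :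
    lgs p (fun _ => True) nu = lgs p P nu + lgs p (fun l => ¬ P l) nu := by
  classical
  ext n
  unfold lgs
  rw [map_add, PowerSeries.coeff_mk, PowerSeries.coeff_mk, PowerSeries.coeff_mk]
  have := finite_lay hN
  let _ := Fintype.ofFinite (Lay R N p)
  have hfin : Finite {I : Submodule R N // IsLat p I ∧ ∑ᶠ V, lay p I V * nu V = n} := by
    have h1 := finite_weight nu hnu n
    have h2 : ∀ l : {l : Lay R N p → ℕ // ∑ V, l V * nu V = n},
        Finite {I : Submodule R N // IsLat p I ∧ lay p I = l.1} :=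
      fun l => finite_lat_lay hN l.1
    refine Finite.of_injective
      (β := Σ l : {l : Lay R N p → ℕ // ∑ V, l V * nu V = n},
        {I : Submodule R N // IsLat p I ∧ lay p I = l.1})
      (fun I => ⟨⟨lay p I.1, by
        have := I.2.2
        rwa [finsum_eq_sum_of_fintype] at this⟩, ⟨I.1, I.2.1, rfl⟩⟩) ?_
    intro I I' hII
    have h3 : lay p I.1 = lay p I'.1 := congrArg (fun x => x.1.1) hII
    apply Subtype.ext
    exact congrArg (fun x : (Σ l : {l : Lay R N p → ℕ // ∑ V, l V * nu V = n},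
        {I : Submodule R N // IsLat p I ∧ lay p I = l.1}) => x.2.1) hII
  have hf : ∀ Q : (Lay R N p → ℕ) → Prop, Finite {I : Submodule R N // IsLat p I ∧ Q (lay p I) ∧
      ∑ᶠ V, lay p I V * nu V = n} := by
    intro Q
    exact Finite.of_injective
      (fun I : {I : Submodule R N // IsLat p I ∧ Q (lay p I) ∧ ∑ᶠ V, lay p I V * nu V = n} =>
        (⟨I.1, I.2.1, I.2.2.2⟩ : {I : Submodule R N // IsLat p I ∧
          ∑ᶠ V, lay p I V * nu V = n}))
      (fun I I' h => Subtype.ext (congrArg (fun x => x.1) h))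
  have h1 := hf P
  have h2 := hf (fun l => ¬ P l)
  let e : {I : Submodule R N // IsLat p I ∧ True ∧ ∑ᶠ V, lay p I V * nu V = n} ≃
      {I : Submodule R N // IsLat p I ∧ P (lay p I) ∧ ∑ᶠ V, lay p I V * nu V = n} ⊕
      {I : Submodule R N // IsLat p I ∧ ¬ P (lay p I) ∧ ∑ᶠ V, lay p I V * nu V = n} :=
    { toFun := fun I => if hP : P (lay p I.1) then Sum.inl ⟨I.1, I.2.1, hP, I.2.2.2⟩
        else Sum.inr ⟨I.1, I.2.1, hP, I.2.2.2⟩
      invFun := fun x => Sum.elim (fun I => ⟨I.1, I.2.1, trivial, I.2.2.2⟩)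
        (fun I => ⟨I.1, I.2.1, trivial, I.2.2.2⟩) x
      left_inv := by
        intro I
        simp only
        split_ifs <;> rfl
      right_inv := by
        rintro (⟨I, hI, hP, hn⟩ | ⟨I, hI, hP, hn⟩)
        · exact dif_pos hP
        · exact dif_neg hP }
  rw [Nat.card_congr e, Nat.card_sum]
  push_cast
  rfl

variable {o : Type} [CommRing o] [IsDomain o] [IsDiscreteValuationRing o] {p q : ℕ}

/-- The layer of a pattern. -/
def PL (h : RingHyp o p q) (i : Fin 12) : Lay (RR o 8 2) (NN (adT o) 8) p :=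
  ⟨PU o p i, pN_le_PU i, PU_ne_top h i⟩

/-- All six first cuts occur. -/
def GoodP (h : RingHyp o p q) (l : Lay (RR o 8 2) (NN (adT o) 8) p → ℕ) : Prop :=
  ∀ i : Fin 12, (i : ℕ) < 6 → l (PL h i) ≠ 0

theorem lead_bad [Fact p.Prime] (h : RingHyp o p q) (hp : 11 ≤ p)
    (nu : Lay (RR o 8 2) (NN (adT o) 8) p → ℕ) (hnu : ∀ V, 0 < nu V) :
    Lead p 8 (lgs p (fun l => ¬ GoodP h l) nu) 0 := by
  classical
  have hN : NHyp (RR o 8 2) (NN (adT o) 8) p := nHyp h fre_MT
  have hinj : Function.Injective (PL h) := fun i j hij =>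
    PU_injective h (congrArg Subtype.val hij)
  have hsat : ∀ V ∈ Finset.univ.image (PL h), ∃ U : Submodule (RR o 8 2) (NN (adT o) 8),
      (∀ x, p • x ∈ U → x ∈ U) ∧ U ⊔ pN (RR o 8 2) (NN (adT o) 8) p 1 = V.1 := by
    intro V hV
    obtain ⟨i, -, rfl⟩ := Finset.mem_image.1 hV
    exact sat_PU h i
  have hrig : ∀ V ∈ Finset.univ.image (PL h), ∀ V' ∈ Finset.univ.image (PL h),
      V.1 ≤ V'.1 → Rig p V.1 V'.1 := by
    intro V hV V' hV' hle
    obtain ⟨i, -, rfl⟩ := Finset.mem_image.1 hV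
    obtain ⟨j, -, rfl⟩ := Finset.mem_image.1 hV'
    exact rig_PU h hp i j hle
  have hkill : ∀ V, V ∉ Finset.univ.image (PL h) → Kill V := by
    intro V hV
    refine kill_PU h hp V fun i hi => hV ?_
    exact Finset.mem_image.2 ⟨i, Finset.mem_univ _, Subtype.ext hi.symm⟩
  obtain ⟨C, -, hC⟩ := gen hN (Finset.univ.image (PL h)) hsat hrig hkill (fun l => ¬ GoodP h l)
    (fun l l' hll hl hl' => hl fun i hi h0 => hl' i hi ((hll _).1 h0))
  refine lead_lt (by norm_num : 7 < 8) (hC nu hnu 7 fun σ hσ l hPl hl hcard hch => hPl ?_)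
  let τ : Finset (Fin 12) := Finset.univ.filter fun i => PL h i ∈ σ
  have hτ : ∀ i, i ∈ τ ↔ PL h i ∈ σ := fun i => by
    show i ∈ Finset.univ.filter (fun i => PL h i ∈ σ) ↔ _
    rw [Finset.mem_filter]
    exact ⟨fun hh => hh.2, fun hh => ⟨Finset.mem_univ _, hh⟩⟩
  have hσ2 : σ = τ.image (PL h) := by
    ext V
    rw [Finset.mem_image]
    constructor
    · intro hV
      obtain ⟨i, -, rfl⟩ := Finset.mem_image.1 (hσ hV)
      exact ⟨i, (hτ i).2 hV, rfl⟩
    · rintro ⟨i, hi, rfl⟩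
      exact (hτ i).1 hi
  have hcard2 : σ.card = τ.card := by
    conv_lhs => rw [hσ2]
    exact Finset.card_image_of_injective _ hinj
  have hchain : ∀ i ∈ τ, ∀ j ∈ τ, leP i j ∨ leP j i := by
    intro i hi j hj
    by_cases hij : i = j
    · subst hij
      exact Or.inl ((PU_le_iff h i i).1 le_rfl)
    · have hne : (PL h i).1 ≠ (PL h j).1 := fun h0 => hij (hinj (Subtype.ext h0))
      rcases hch ⟨PL h i, (hτ i).1 hi, rfl⟩ ⟨PL h j, (hτ j).1 hj, rfl⟩ hne with h1 | h1
      · exact Or.inl ((PU_le_iff h i j).1 h1)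
      · exact Or.inr ((PU_le_iff h j i).1 h1)
  have h12 := (chain12 τ hchain).2 (by omega)
  intro i hi
  exact (hl (PL h i) (Finset.mem_image_of_mem _ (Finset.mem_univ i))).2 ((hτ i).1 (h12 i hi))

/-- Translation of the condition in terms of flags. -/
theorem goodP_iff (h : RingHyp o p q) (I : Submodule (RR o 8 2) (NN (adT o) 8))
    (hI : IsLat p I) :
    GoodP h (lay p I) ↔ ∀ i, 1 ≤ i → i ≤ 6 → ∃ j, fl p I j = cutS p (adT o) 8 i := by
  have hN : NHyp (RR o 8 2) (NN (adT o) 8) p := nHyp h fre_MT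
  have key : ∀ i : Fin 12, lay p I (PL h i) ≠ 0 ↔ ∃ j, fl p I j = PU o p i := by
    intro i
    have := finite_fl_eq hN hI (PL h i)
    unfold lay
    rw [Nat.card_ne_zero]
    constructor
    · rintro ⟨⟨j, hj⟩, -⟩
      exact ⟨j, hj⟩
    · rintro ⟨j, hj⟩
      exact ⟨⟨j, hj⟩, this⟩
  constructor
  · intro H i hi1 hi6
    have h1 := (key ⟨i - 1, by omega⟩).1 (H ⟨i - 1, by omega⟩ (by simp only; omega))
    rw [PU_cut ⟨i - 1, by omega⟩ (by simp only; omega)] at h1
    have h2 : i - 1 + 1 = i := by omega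
    simp only [h2] at h1
    exact h1
  · intro H i hi
    rw [key, PU_cut i (by omega)]
    exact H _ (by omega) (by omega)

end Pool.Agent.TZ8
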