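import Pool.Agent.TZ8.VDefs
import Pool.Agent.TZ.LC
import Pool.Agent.TZ.GF

set_option autoImplicit false

set_option linter.unusedSectionVars false

/-! Summation over the first level. -/

namespace Pool.Agent.TZ8

open Pool.Agent.TZ

variable {o : Type} [CommRing o] [IsDomain o] [IsDiscreteValuationRing o] {p q a b : ℕ}

namespace VAL1

theorem card_mul {M : Type} [AddCommGroup M] [Module o M] (E L : Submodule o M) (hL : L ≤ E) :
    Nat.card (M ⧸ L) = Nat.card (M ⧸ E) * Nat.card (E ⧸ L.comap E.subtype) := by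
  have h := AddSubgroup.relIndex_mul_index (H := L.toAddSubgroup) (K := E.toAddSubgroup) hL
  have h1 : Nat.card (M ⧸ L) = L.toAddSubgroup.index := rfl
  have h2 : Nat.card (M ⧸ E) = E.toAddSubgroup.index := rfl
  have h3 : Nat.card (E ⧸ L.comap E.subtype) = L.toAddSubgroup.relIndex E.toAddSubgroup := rfl
  rw [h1, h2, h3, ← h, mul_comm]

theorem finite_quot {M : Type} [AddCommGroup M] [Module o M] (E L : Submodule o M) (hL : L ≤ E)
    (hE : Finite (M ⧸ E)) (hLE : Finite (E ⧸ L.comap E.subtype)) : Finite (M ⧸ L) := by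
  apply Nat.finite_of_card_ne_zero
  rw [card_mul E L hL]
  exact Nat.mul_ne_zero Nat.card_pos.ne' Nat.card_pos.ne'

theorem finite_quot' {M : Type} [AddCommGroup M] [Module o M] (E L : Submodule o M) (hL : L ≤ E)
    (hML : Finite (M ⧸ L)) : Finite (E ⧸ L.comap E.subtype) := by
  apply Nat.finite_of_card_ne_zero
  intro h0
  have := card_mul E L hL
  rw [h0, mul_zero] at this
  exact (Nat.card_pos (α := M ⧸ L)).ne' this

/-- Sublattices of `E` are lattices of `E`. -/
noncomputable def subEquiv {M : Type} [AddCommGroup M] [Module o M] (E : Submodule o M)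
    (hE : Finite (M ⧸ E)) : {L : Lat o M // L.1 ≤ E} ≃ Lat o E where
  toFun L := ⟨L.1.1.comap E.subtype, finite_quot' E L.1.1 L.2 L.1.2⟩
  invFun K := ⟨⟨K.1.map E.subtype, by
    have hc : (K.1.map E.subtype).comap E.subtype = K.1 :=
      Submodule.comap_map_eq_of_injective E.injective_subtype K.1
    refine finite_quot E _ (Submodule.map_subtype_le E K.1) hE ?_
    rw [hc]
    exact K.2⟩, Submodule.map_subtype_le E K.1⟩
  left_inv L := by
    apply Subtype.ext
    apply Subtype.ext
    show (L.1.1.comap E.subtype).map E.subtype = L.1.1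
    rw [Submodule.map_comap_subtype, inf_eq_right]
    exact L.2
  right_inv K := by
    apply Subtype.ext
    exact Submodule.comap_map_eq_of_injective E.injective_subtype K.1

theorem finrank_sub (h : RingHyp o p q) {M : Type} [AddCommGroup M] [Module o M] [Module.Free o M]
    [Module.Finite o M] (E : Submodule o M) (hE : Finite (M ⧸ E)) :
    Module.finrank o E = Module.finrank o M := by
  have h1 := Submodule.finrank_quotient_add_finrank E
  have h2 : Module.finrank o (M ⧸ E) = 0 := by
    rw [Module.finrank_eq_zero_iff_isTorsion]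
    intro x
    obtain ⟨k, hk⟩ := LC.exists_pow_smul_eq_zero h x
    exact ⟨⟨(p : o) ^ k, mem_nonZeroDivisors_of_ne_zero (pow_ne_zero _ h.irr.ne_zero)⟩, hk⟩
  omega

theorem exists_equiv_below (h : RingHyp o p q) {M : Type} [AddCommGroup M] [Module o M]
    [Module.Free o M] [Module.Finite o M] (E : Submodule o M) (hE : Finite (M ⧸ E)) :
    ∃ e : {L : Lat o M // L.1 ≤ E} ≃ Lat o M,
      ∀ L, len q L.1.1 = len q E + len q (e L).1 := by
  have hr := finrank_sub h E hE
  let φ : E ≃ₗ[o] M := LinearEquiv.ofFinrankEq E M hr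
  refine ⟨(subEquiv E hE).trans (LC.latEquiv φ), fun L => ?_⟩
  have h1 : len q ((subEquiv E hE).trans (LC.latEquiv φ) L).1 =
      len q (L.1.1.comap E.subtype) := len_map_equiv φ _
  rw [h1]
  have h2 := card_mul E L.1.1 L.2
  rw [card_quot h L.1.1 L.1.2, card_quot h E hE,
    card_quot h _ (finite_quot' E L.1.1 L.2 L.1.2), ← pow_add] at h2
  exact Nat.pow_right_injective h.one_lt h2

theorem gf_shift {X : Type} (w : X → ℕ) (c : ℕ) :
    gf (fun x => c + w x) = PowerSeries.X ^ c * gf w := by
  ext n
  rw [PowerSeries.coeff_X_pow_mul']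
  unfold gf
  rw [PowerSeries.coeff_mk]
  split_ifs with hc
  · rw [PowerSeries.coeff_mk]
    congr 1
    apply Nat.card_congr
    refine Equiv.subtypeEquivRight fun x => ?_
    show c + w x = n ↔ w x = n - c
    omega
  · have : IsEmpty {x : X // c + w x = n} := ⟨fun x => hc (by have := x.2; omega)⟩
    rw [Nat.card_of_isEmpty]
    rfl

end VAL1

open VAL1

/-- Sublattices of a lattice `E`: the zeta function is `X ^ len E` times that of the module. -/
theorem gf_below (h : RingHyp o p q) {M : Type} [AddCommGroup M] [Module o M] [Module.Free o M]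
    [Module.Finite o M] (E : Submodule o M) (hE : Finite (M ⧸ E)) :
    gf (fun L : {L : Lat o M // L.1 ≤ E} => len q L.1.1) *
      ∏ k ∈ Finset.range (Module.finrank o M),
        (1 - PowerSeries.C ((q : ℤ) ^ k) * PowerSeries.X) = PowerSeries.X ^ len q E := by
  obtain ⟨e, he⟩ := exists_equiv_below h E hE
  have h1 : gf (fun L : {L : Lat o M // L.1 ≤ E} => len q L.1.1) =
      PowerSeries.X ^ len q E * gf (fun N : Lat o M => len q N.1) := by
    rw [← gf_shift, ← gf_equiv e]
    congr 1
    funext L
    exact he L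
  rw [h1, mul_assoc, gf_lat h, mul_one]

theorem finite_vcol (h : RingHyp o p q) (L : Submodule o (A8 o a b))
    (hL : Finite (A8 o a b ⧸ L)) : Finite (A7 o a b ⧸ vcol L) := by
  obtain ⟨n, hn⟩ := lat_pow_mem h L hL
  refine finite_quot_of_pow_mem h _ n fun x => ⟨?_, ?_⟩
  · show adV 0 ((p : o) ^ n • x) ∈ L
    rw [map_smul]
    exact hn _
  · show adV 1 ((p : o) ^ n • x) ∈ L
    rw [map_smul]
    exact hn _

namespace VAL1

theorem mem_vcol {L : Submodule o (A8 o a b)} {x : A7 o a b} :
    x ∈ vcol L ↔ ∀ j, adV j x ∈ L := by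
  rw [Fin.forall_fin_two]
  exact Iff.rfl

theorem finrank_A7 : Module.finrank o (A7 o a b) = 2 * a + b := by
  rw [Module.finrank_prod, Module.finrank_prod, Module.finrank_fin_fun, Module.finrank_fin_fun]
  omega

/-- The equivalence behind the summation over the first level. -/
noncomputable def pairEquiv
    (e : ∀ L : Lat o (A8 o a b), {K : Lat o (A7 o a b) // K.1 ≤ vcol L.1} ≃ Lat o (A7 o a b)) :
    PairV o a b ≃ Lat o (A8 o a b) × Lat o (A7 o a b) where
  toFun x := (x.1.2, e x.1.2 ⟨x.1.1, fun v hv => mem_vcol.2 fun j => x.2 j v hv⟩)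
  invFun y := ⟨(((e y.1).symm y.2).1, y.1), fun j v hv =>
    mem_vcol.1 (((e y.1).symm y.2).2 hv) j⟩
  left_inv x := by
    apply Subtype.ext
    simp
  right_inv y := by
    simp

end VAL1

theorem gf_pair (h : RingHyp o p q) :
    gf (fun x : PairV o a b => len q x.1.1.1 + len q x.1.2.1) *
      ∏ k ∈ Finset.range (2 * a + b), (1 - PowerSeries.C ((q : ℤ) ^ k) * PowerSeries.X) =
      gf (fun L : Lat o (A8 o a b) => wO q L.1) := by
  choose e he using fun L : Lat o (A8 o a b) =>
    exists_equiv_below h (vcol L.1) (finite_vcol h L.1 L.2)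
  have h1 : gf (fun x : PairV o a b => len q x.1.1.1 + len q x.1.2.1) =
      gf (fun y : Lat o (A8 o a b) × Lat o (A7 o a b) => wO q y.1.1 + len q y.2.1) := by
    rw [← gf_equiv (pairEquiv e)]
    congr 1
    funext x
    have h2 := he x.1.2 ⟨x.1.1, fun v hv => mem_vcol.2 fun j => x.2 j v hv⟩
    have h3 : len q x.1.1.1 = len q (vcol x.1.2.1) + len q (pairEquiv e x).2.1 := h2
    show _ = len q x.1.2.1 + len q (vcol x.1.2.1) + len q (pairEquiv e x).2.1
    rw [h3]
    omega
  have h4 := gf_prod (fun L : Lat o (A8 o a b) => wO q L.1) (fun N : Lat o (A7 o a b) => len q N.1)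
    (fun n => by
      refine Set.Finite.to_subtype ?_
      refine (setFinite_le (fun L : Lat o (A8 o a b) => len q L.1) (fun m => lat_finite h m) n).subset ?_
      intro L hL
      have hL' : len q L.1 + len q (vcol L.1) = n := hL
      show len q L.1 ≤ n
      omega)
    (fun m => lat_finite h m)
  have h5 := gf_lat h (M := A7 o a b)
  rw [finrank_A7] at h5
  rw [h1, h4, mul_assoc, h5, mul_one]

end Pool.Agent.TZ8
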