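import Pool.Agent.TZ8.VAL1
import Pool.Agent.TZ.PR

set_option autoImplicit false
set_option linter.unusedSectionVars false

/-! Scaling of the quotient `F ⊗ V`. -/

namespace Pool.Agent.TZ8

open Pool.Agent.TZ

variable {o : Type} [CommRing o] [IsDomain o] [IsDiscreteValuationRing o] {p q a b : ℕ}

theorem finite_wO (h : RingHyp o p q) (n : ℕ) :
    Finite {L : Lat o (A8 o a b) // wO q L.1 = n} := by
  have h1 := setFinite_le (fun L : Lat o (A8 o a b) => len q L.1) (fun m => lat_finite h m) n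
  refine (h1.subset ?_ : {L : Lat o (A8 o a b) | wO q L.1 = n}.Finite).to_subtype
  intro L hL
  change wO q L.1 = n at hL
  change len q L.1 ≤ n
  unfold wO at hL
  omega

/-- Splitting off the image of an injective map which shifts the weight. -/
theorem VAL2.gf_split {X : Type} (w : X → ℕ) (P : X → Prop)
    (hf : ∀ n, Finite {x : X // w x = n}) (R : ℕ) (e : X ≃ {x : X // ¬ P x})
    (hw : ∀ x, w (e x).1 = w x + R) :
    gf w * (1 - PowerSeries.X ^ R) = gf (fun x : {x : X // P x} => w x.1) := by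
  classical
  rw [mul_sub, mul_one]
  ext n
  rw [map_sub, PowerSeries.coeff_mul_X_pow']
  unfold gf
  simp only [PowerSeries.coeff_mk]
  have hfn := hf n
  have h1 : Nat.card {x : X // w x = n} =
      Nat.card {x : {x : X // P x} // w x.1 = n} +
        Nat.card {x : {x : X // ¬ P x} // w x.1 = n} := by
    have e1 := (Equiv.sumCompl (fun x : {x : X // w x = n} => P x.1)).symm
    rw [Nat.card_congr e1, Nat.card_sum]
    congr 1
    · refine Nat.card_congr ?_
      exact { toFun := fun x => ⟨⟨x.1.1, x.2⟩, x.1.2⟩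
              invFun := fun x => ⟨⟨x.1.1, x.2⟩, x.1.2⟩
              left_inv := fun _ => rfl
              right_inv := fun _ => rfl }
    · refine Nat.card_congr ?_
      exact { toFun := fun x => ⟨⟨x.1.1, x.2⟩, x.1.2⟩
              invFun := fun x => ⟨⟨x.1.1, x.2⟩, x.1.2⟩
              left_inv := fun _ => rfl
              right_inv := fun _ => rfl }
  have h2 : Nat.card {x : {x : X // ¬ P x} // w x.1 = n} = Nat.card {x : X // w x + R = n} := by
    refine (Nat.card_congr (e.subtypeEquiv fun x => ?_)).symm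
    rw [hw]
  rw [h1, h2]
  split_ifs with hR
  · have h3 : Nat.card {x : X // w x + R = n} = Nat.card {x : X // w x = n - R} :=
      Nat.card_congr (Equiv.subtypeEquivRight fun x => by omega)
    rw [h3]
    push_cast
    ring
  · have h3 : IsEmpty {x : X // w x + R = n} := ⟨fun x => by have := x.2; omega⟩
    have h4 : Nat.card {x : X // w x + R = n} = 0 := Nat.card_of_isEmpty
    rw [h4]
    push_cast
    ring

namespace VAL2

/-- `id × p`. -/
def sc (o : Type) [CommRing o] (p : ℕ) (S Q : Type) [AddCommGroup S] [Module o S]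
    [AddCommGroup Q] [Module o Q] : S × Q →ₗ[o] S × Q :=
  LinearMap.prodMap LinearMap.id (PR.mp o p Q 1)

section sc

variable {S Q : Type} [AddCommGroup S] [Module o S] [AddCommGroup Q] [Module o Q]

theorem sc_apply (x : S × Q) : sc o p S Q x = (x.1, (p : o) • x.2) := by
  change (x.1, (p : o) ^ 1 • x.2) = _
  rw [pow_one]

theorem sc_inj [Module.Free o Q] (h : RingHyp o p q) : Function.Injective (sc o p S Q) := by
  intro x y hxy
  rw [sc_apply, sc_apply, Prod.mk.injEq] at hxy
  refine Prod.ext hxy.1 ?_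
  refine PR.smul_cancel h 1 ?_
  rw [pow_one]
  exact hxy.2

theorem range_sc : (LinearMap.range (sc o p S Q)).toAddSubgroup =
    (LinearMap.range (PR.mp o p Q 1)).toAddSubgroup.comap (AddMonoidHom.snd S Q) := by
  ext x
  constructor
  · rintro ⟨y, rfl⟩
    exact ⟨y.2, rfl⟩
  · rintro ⟨z, hz⟩
    exact ⟨(x.1, z), Prod.ext rfl hz⟩

theorem index_sc [Module.Free o Q] [Module.Finite o Q] (h : RingHyp o p q)
    (L : Submodule o (S × Q)) :
    (L.map (sc o p S Q)).toAddSubgroup.index =
      L.toAddSubgroup.index * q ^ Module.finrank o Q := by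
  have hle : (L.map (sc o p S Q)).toAddSubgroup ≤
      (LinearMap.range (sc o p S Q)).toAddSubgroup := by
    rintro x ⟨y, _, rfl⟩
    exact ⟨y, rfl⟩
  have hr : (LinearMap.range (sc o p S Q)).toAddSubgroup.index = q ^ Module.finrank o Q := by
    rw [range_sc, AddSubgroup.index_comap_of_surjective _ Prod.snd_surjective, PR.index_p h]
  rw [← AddSubgroup.relIndex_mul_index hle, hr]
  congr 1
  have e1 : (L.map (sc o p S Q)).toAddSubgroup =
      L.toAddSubgroup.map (sc o p S Q).toAddMonoidHom := rfl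
  have e2 : (LinearMap.range (sc o p S Q)).toAddSubgroup
      = (⊤ : AddSubgroup (S × Q)).map (sc o p S Q).toAddMonoidHom := by
    ext x
    simp [AddSubgroup.mem_map]
  rw [e1, e2, AddSubgroup.relIndex_map_map_of_injective _ _ (sc_inj h),
    AddSubgroup.relIndex_top_right]

theorem finite_sc [Module.Finite o S] [Module.Free o Q] [Module.Finite o Q] (h : RingHyp o p q)
    (L : Submodule o (S × Q)) (hL : Finite ((S × Q) ⧸ L)) :
    Finite ((S × Q) ⧸ L.map (sc o p S Q)) := by
  obtain ⟨m, hm⟩ := lat_pow_mem h L hL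
  apply finite_quot_of_pow_mem h _ (m + 1)
  intro x
  refine ⟨(p : o) ^ m • ((p : o) • x.1, x.2), hm _, ?_⟩
  rw [sc_apply]
  refine Prod.ext ?_ ?_
  · change (p : o) ^ m • (p : o) • x.1 = (p : o) ^ (m + 1) • x.1
    rw [smul_smul, pow_succ]
  · change (p : o) • (p : o) ^ m • x.2 = (p : o) ^ (m + 1) • x.2
    rw [smul_smul, pow_succ']

theorem len_sc [Module.Finite o S] [Module.Free o Q] [Module.Finite o Q] (h : RingHyp o p q)
    (L : Submodule o (S × Q)) (hL : Finite ((S × Q) ⧸ L)) :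
    len q (L.map (sc o p S Q)) = len q L + Module.finrank o Q := by
  have h1 : Nat.card ((S × Q) ⧸ L.map (sc o p S Q)) =
      Nat.card ((S × Q) ⧸ L) * q ^ Module.finrank o Q := index_sc h L
  rw [card_quot h _ (finite_sc h L hL), card_quot h L hL, ← pow_add] at h1
  exact Nat.pow_right_injective h.one_lt h1

end sc

theorem vcol_sc (h : RingHyp o p q) (L : Submodule o (A8 o a b)) :
    vcol (L.map (sc o p (S8 o a) (Q8 o b))) =
      (vcol L).map (sc o p (S7 o a) (F7 o b)) := by
  have hc : ∀ {x y : F7 o b}, (p : o) • x = (p : o) • y → x = y := by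
    intro x y hxy
    refine PR.smul_cancel h 1 ?_
    rwa [pow_one]
  ext x
  constructor
  · rintro ⟨⟨y, hy, hyx⟩, ⟨z, hz, hzx⟩⟩
    rw [sc_apply, adV_zero] at hyx
    rw [sc_apply, adV_one] at hzx
    obtain ⟨y1, y2⟩ := y
    obtain ⟨z1, z2⟩ := z
    obtain ⟨y2, y3⟩ := y2
    obtain ⟨z2, z3⟩ := z2
    simp only [Prod.smul_mk, Prod.mk.injEq] at hyx hzx
    obtain ⟨hy1, hy2, hy3⟩ := hyx
    obtain ⟨hz1, hz2, hz3⟩ := hzx
    have hy30 : y3 = 0 := hc (hy3.trans (smul_zero _).symm)
    have hz20 : z2 = 0 := hc (hz2.trans (smul_zero _).symm)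
    have hyz : y2 = z3 := hc (hy2.trans hz3.symm)
    subst hy30 hz20 hyz hy1 hz1
    refine ⟨(x.1, y2), ⟨?_, ?_⟩, ?_⟩
    · change adV 0 _ ∈ L
      rw [adV_zero]
      exact hy
    · change adV 1 _ ∈ L
      rw [adV_one]
      exact hz
    · rw [sc_apply]
      exact Prod.ext rfl hy2
  · rintro ⟨y, ⟨hy0, hy1⟩, rfl⟩
    change adV 0 y ∈ L at hy0
    change adV 1 y ∈ L at hy1
    rw [adV_zero] at hy0
    rw [adV_one] at hy1
    refine ⟨⟨_, hy0, ?_⟩, ⟨_, hy1, ?_⟩⟩
    · rw [sc_apply, adV_zero, sc_apply]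
      simp
    · rw [sc_apply, adV_one, sc_apply]
      simp

theorem wO_sc (h : RingHyp o p q) (L : Submodule o (A8 o a b)) (hL : Finite (A8 o a b ⧸ L)) :
    wO q (L.map (sc o p (S8 o a) (Q8 o b))) = wO q L + 3 * b := by
  unfold wO
  rw [vcol_sc h, len_sc h L hL, len_sc h _ (finite_vcol h L hL)]
  have h1 : Module.finrank o (Q8 o b) = b + b := by
    rw [Module.finrank_prod, Module.finrank_fin_fun]
  have h2 : Module.finrank o (F7 o b) = b := Module.finrank_fin_fun o
  rw [h1, h2]
  ring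

/-- The scaling map. -/
noncomputable def scLE (h : RingHyp o p q) (e : ℕ) (L : LE o a b p e) :
    {L : LE o a b p e // ¬ ∃ x ∈ L.1.1, ¬ ∃ y : Q8 o b, x.2 = (p : o) • y} :=
  ⟨⟨⟨L.1.1.map (sc o p (S8 o a) (Q8 o b)), finite_sc h _ L.1.2⟩, fun s =>
    ⟨_, L.2 s, by
      rw [sc_apply]
      refine Prod.ext rfl ?_
      change (p : o) • (p : o) ^ e • (0 : Q8 o b) = (p : o) ^ e • (0 : Q8 o b)
      rw [smul_zero, smul_zero]⟩⟩, by
    rintro ⟨x, ⟨y, _, rfl⟩, hx⟩
    apply hx
    exact ⟨y.2, by rw [sc_apply]⟩⟩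

theorem scLE_bijective (h : RingHyp o p q) (e : ℕ) :
    Function.Bijective (scLE (a := a) (b := b) h e) := by
  constructor
  · intro L L' hLL
    have h1 : L.1.1.map (sc o p (S8 o a) (Q8 o b)) = L'.1.1.map (sc o p (S8 o a) (Q8 o b)) :=
      congrArg (fun z => z.1.1.1) hLL
    have h2 : L.1.1 = L'.1.1 := Submodule.map_injective_of_injective (sc_inj h) h1
    exact Subtype.ext (Subtype.ext h2)
  · rintro ⟨⟨⟨L, hL⟩, hLe⟩, hLP⟩
    change ∀ s : S8 o a, (p : o) ^ e • ((s, 0) : A8 o a b) ∈ L at hLe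
    change ¬ ∃ x ∈ L, ¬ ∃ y : Q8 o b, x.2 = (p : o) • y at hLP
    push Not at hLP
    let L' : Submodule o (A8 o a b) := L.comap (sc o p (S8 o a) (Q8 o b))
    obtain ⟨n, hn⟩ := lat_pow_mem h L hL
    have hL' : Finite (A8 o a b ⧸ L') := by
      apply finite_quot_of_pow_mem h L' n
      intro x
      change sc o p (S8 o a) (Q8 o b) ((p : o) ^ n • x) ∈ L
      rw [map_smul]
      exact hn _
    refine ⟨⟨⟨L', hL'⟩, ?_⟩, ?_⟩
    · intro s
      change sc o p (S8 o a) (Q8 o b) ((p : o) ^ e • (s, 0)) ∈ L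
      rw [map_smul, sc_apply]
      change (p : o) ^ e • (s, (p : o) • (0 : Q8 o b)) ∈ L
      rw [smul_zero]
      exact hLe s
    · refine Subtype.ext (Subtype.ext (Subtype.ext ?_))
      change L'.map (sc o p (S8 o a) (Q8 o b)) = L
      apply le_antisymm
      · rintro x ⟨y, hy, rfl⟩
        exact hy
      · intro x hx
        obtain ⟨y, hy⟩ := hLP x hx
        have h1 : sc o p (S8 o a) (Q8 o b) (x.1, y) = x := by
          rw [sc_apply]
          exact Prod.ext rfl hy.symm
        refine ⟨(x.1, y), ?_, h1⟩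
        change sc o p (S8 o a) (Q8 o b) (x.1, y) ∈ L
        rw [h1]
        exact hx

end VAL2

/-- The map `(s, z) ↦ (s, p z)` is a bijection from the lattices containing `p ^ e (K ⊗ S²V)` to
those with image in `p (F ⊗ V)`, and it increases the weight by `3 b`. -/
theorem gf_scale (h : RingHyp o p q) (e : ℕ) :
    gf (fun L : LE o a b p e => wO q L.1.1) * (1 - PowerSeries.X ^ (3 * b)) =
      gf (fun L : LEP o a b p e => wO q L.1.1.1) := by
  refine VAL2.gf_split (fun L : LE o a b p e => wO q L.1.1)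
    (fun L => ∃ x ∈ L.1.1, ¬ ∃ y : Q8 o b, x.2 = (p : o) • y) ?_ (3 * b)
    (Equiv.ofBijective _ (VAL2.scLE_bijective h e)) ?_
  · intro n
    have h1 := finite_wO (a := a) (b := b) h n
    refine Finite.of_injective (fun L : {L : LE o a b p e // wO q L.1.1 = n} =>
      (⟨L.1.1, L.2⟩ : {L : Lat o (A8 o a b) // wO q L.1 = n})) ?_
    intro L L' hLL
    have h2 : L.1.1 = L'.1.1 := congrArg (fun z => z.1) hLL
    exact Subtype.ext (Subtype.ext h2)
  · intro L
    exact VAL2.wO_sc h L.1.1 L.1.2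

end Pool.Agent.TZ8
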