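import Pool.Agent.TZ8.VAL2
import Pool.Agent.TZ.PR
import Pool.Agent.TZ.PS

set_option autoImplicit false
set_option linter.unusedSectionVars false

/-! Counting lattices with given intersection and image. -/

namespace Pool.Agent.TZ8

open Pool.Agent.TZ

variable {o : Type} [CommRing o] [IsDomain o] [IsDiscreteValuationRing o] {p q a b : ℕ}

theorem finite_XE (h : RingHyp o p q) (e : ℕ) : Finite (XE o a p e) := by
  have hf := (finite_setOf_pow_mem h (M := S8 o a) e).to_subtype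
  refine Finite.of_injective
    (fun X : XE o a p e => (⟨X.1.1, X.2⟩ :
      ({N : Submodule o (S8 o a) | ∀ x : S8 o a, (p : o) ^ e • x ∈ N} : Set _))) ?_
  intro X Y hXY
  have h1 := congrArg (fun z => z.1) hXY
  exact Subtype.ext (Subtype.ext h1)

/-- `N_e`. -/
noncomputable def Ne (o : Type) [CommRing o] (q a b p e : ℕ) : ℕ :=
  ∑ᶠ X : XE o a p e, q ^ (2 * b * len q X.1.1)

theorem finrank_lat (h : RingHyp o p q) {M : Type} [AddCommGroup M] [Module o M]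
    [Module.Free o M] [Module.Finite o M] (Z : Submodule o M) (hZ : Finite (M ⧸ Z)) :
    Module.finrank o Z = Module.finrank o M := by
  obtain ⟨n, hn⟩ := lat_pow_mem h Z hZ
  apply le_antisymm (Submodule.finrank_le Z)
  let f : M →ₗ[o] Z := (PR.mp o p M n).codRestrict Z (fun x => hn x)
  have hf : Function.Injective f := by
    intro x y e
    exact PR.mp_inj h n (congrArg Subtype.val e)
  exact LinearMap.finrank_le_finrank_of_injective hf

theorem card_hom_free' {Z Q : Type} [AddCommGroup Z] [Module o Z] [Module.Free o Z]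
    [Module.Finite o Z] [AddCommGroup Q] [Module o Q] :
    Nat.card (Z →ₗ[o] Q) = Nat.card Q ^ Module.finrank o Z := by
  let B := Module.finBasis o Z
  rw [← Nat.card_congr (B.constr o (M' := Q)).toEquiv, Nat.card_fun, Nat.card_fin]

/-- The lattice given by a homomorphism. -/
def glueL (X : Submodule o (S8 o a)) (Z : Submodule o (Q8 o b)) (φ : ↥Z →ₗ[o] (S8 o a ⧸ X)) :
    Submodule o (A8 o a b) :=
  Submodule.map (LinearMap.prodMap LinearMap.id Z.subtype)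
    (LinearMap.ker (X.mkQ ∘ₗ LinearMap.fst o (S8 o a) Z - φ ∘ₗ LinearMap.snd o (S8 o a) Z))

theorem mem_glueL {X : Submodule o (S8 o a)} {Z : Submodule o (Q8 o b)}
    {φ : ↥Z →ₗ[o] (S8 o a ⧸ X)} {x : A8 o a b} :
    x ∈ glueL X Z φ ↔ ∃ z : ↥Z, x.2 = (z : Q8 o b) ∧ X.mkQ x.1 = φ z := by
  constructor
  · rintro ⟨⟨s, z⟩, hy, rfl⟩
    have h1 : X.mkQ s - φ z = 0 := hy
    exact ⟨z, rfl, sub_eq_zero.1 h1⟩
  · rintro ⟨z, h1, h2⟩
    refine ⟨(x.1, z), ?_, Prod.ext rfl h1.symm⟩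
    show X.mkQ x.1 - φ z = 0
    exact sub_eq_zero.2 h2

theorem inS_glueL (X : Submodule o (S8 o a)) (Z : Submodule o (Q8 o b))
    (φ : ↥Z →ₗ[o] (S8 o a ⧸ X)) : inS (glueL X Z φ) = X := by
  ext s
  show ((s, 0) : A8 o a b) ∈ glueL X Z φ ↔ s ∈ X
  rw [mem_glueL]
  constructor
  · rintro ⟨z, h1, h2⟩
    have h3 : z = 0 := Subtype.ext h1.symm
    rw [h3, map_zero] at h2
    exact (Submodule.Quotient.mk_eq_zero X).1 h2
  · intro hs
    exact ⟨0, rfl, by rw [map_zero]; exact (Submodule.Quotient.mk_eq_zero X).2 hs⟩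

theorem imQ_glueL (X : Submodule o (S8 o a)) (Z : Submodule o (Q8 o b))
    (φ : ↥Z →ₗ[o] (S8 o a ⧸ X)) : imQ (glueL X Z φ) = Z := by
  ext z
  constructor
  · rintro ⟨x, hx, rfl⟩
    obtain ⟨z, h1, h2⟩ := mem_glueL.1 hx
    show x.2 ∈ Z
    rw [h1]
    exact z.2
  · intro hz
    obtain ⟨s, hs⟩ := X.mkQ_surjective (φ ⟨z, hz⟩)
    exact ⟨(s, z), mem_glueL.2 ⟨⟨z, hz⟩, rfl, hs⟩, rfl⟩

theorem finite_glueL (h : RingHyp o p q) (X : Lat o (S8 o a)) (Z : Lat o (Q8 o b))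
    (φ : ↥Z.1 →ₗ[o] (S8 o a ⧸ X.1)) : Finite (A8 o a b ⧸ glueL X.1 Z.1 φ) := by
  obtain ⟨m, hm⟩ := lat_pow_mem h X.1 X.2
  obtain ⟨n, hn⟩ := lat_pow_mem h Z.1 Z.2
  refine finite_quot_of_pow_mem h _ (m + n) fun x => mem_glueL.2 ?_
  refine ⟨(p : o) ^ m • ⟨(p : o) ^ n • x.2, hn x.2⟩, ?_, ?_⟩
  · rw [pow_add, mul_smul]
    rfl
  · have h1 : X.1.mkQ ((p : o) ^ (m + n) • x).1 = 0 := by
      refine (Submodule.Quotient.mk_eq_zero X.1).2 ?_
      rw [add_comm m n, pow_add, mul_smul]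
      exact X.1.smul_mem _ (hm x.1)
    rw [h1, map_smul]
    obtain ⟨s, hs⟩ := X.1.mkQ_surjective (φ ⟨(p : o) ^ n • x.2, hn x.2⟩)
    rw [← hs, ← map_smul]
    exact ((Submodule.Quotient.mk_eq_zero X.1).2 (hm s)).symm

theorem exists_glueL (L : Submodule o (A8 o a b)) : ∃ φ : ↥(imQ L) →ₗ[o] (S8 o a ⧸ inS L),
    glueL (inS L) (imQ L) φ = L := by
  have hz : ∀ z : ↥(imQ L), ∃ s : S8 o a, ((s, (z : Q8 o b)) : A8 o a b) ∈ L := by
    rintro ⟨z, x, hx, rfl⟩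
    exact ⟨x.1, hx⟩
  choose s hs using hz
  have key : ∀ t : S8 o a, ((t, 0) : A8 o a b) ∈ L ↔ t ∈ inS L := fun t => Iff.rfl
  have key2 : ∀ (t t' : S8 o a) (z : Q8 o b), ((t, z) : A8 o a b) ∈ L →
      ((t', z) : A8 o a b) ∈ L → (inS L).mkQ t = (inS L).mkQ t' := by
    intro t t' z h1 h2
    refine (Submodule.Quotient.eq (inS L)).2 ?_
    have h3 := L.sub_mem h1 h2
    rw [Prod.mk_sub_mk, sub_self] at h3
    exact h3
  let φ : ↥(imQ L) →ₗ[o] (S8 o a ⧸ inS L) :=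
    { toFun := fun z => (inS L).mkQ (s z)
      map_add' := fun z z' => by
        rw [← map_add]
        refine key2 _ _ ((z : Q8 o b) + z') (hs (z + z')) ?_
        have h1 := L.add_mem (hs z) (hs z')
        rw [Prod.mk_add_mk] at h1
        exact h1
      map_smul' := fun r z => by
        rw [RingHom.id_apply, ← map_smul]
        refine key2 _ _ (r • (z : Q8 o b)) (hs (r • z)) ?_
        have h1 := L.smul_mem r (hs z)
        rw [Prod.smul_mk] at h1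
        exact h1 }
  refine ⟨φ, ?_⟩
  ext ⟨t, z⟩
  rw [mem_glueL]
  constructor
  · rintro ⟨z', h1, h2⟩
    have h1' : z = (z' : Q8 o b) := h1
    subst h1'
    have h3 : t - s z' ∈ inS L := (Submodule.Quotient.eq (inS L)).1 h2
    have h4 := L.add_mem ((key _).2 h3) (hs z')
    rw [Prod.mk_add_mk, sub_add_cancel, zero_add] at h4
    exact h4
  · intro ht
    refine ⟨⟨z, (t, z), ht, rfl⟩, rfl, ?_⟩
    exact key2 _ _ z ht (hs ⟨z, (t, z), ht, rfl⟩)

theorem glueL_injective (X : Submodule o (S8 o a)) (Z : Submodule o (Q8 o b)) :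
    Function.Injective (glueL X Z) := by
  intro φ ψ hφψ
  refine LinearMap.ext fun z => ?_
  obtain ⟨s, hs⟩ := X.mkQ_surjective (φ z)
  have h1 : ((s, (z : Q8 o b)) : A8 o a b) ∈ glueL X Z ψ := by
    rw [← hφψ]
    exact mem_glueL.2 ⟨z, rfl, hs⟩
  obtain ⟨z', h2, h3⟩ := mem_glueL.1 h1
  have h4 : z = z' := Subtype.ext h2
  rw [← hs, h4]
  exact h3

/-- The number of lattices with given intersection `X` and image `Z` is `|S / X| ^ (2 b)`. -/
theorem card_glue_LE (h : RingHyp o p q) (X : Lat o (S8 o a)) (Z : Lat o (Q8 o b)) :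
    Nat.card {L : Lat o (A8 o a b) // inS L.1 = X.1 ∧ imQ L.1 = Z.1} =
      q ^ (2 * b * len q X.1) := by
  have hbij : Function.Bijective (fun φ : ↥Z.1 →ₗ[o] (S8 o a ⧸ X.1) =>
      (⟨⟨glueL X.1 Z.1 φ, finite_glueL h X Z φ⟩, inS_glueL X.1 Z.1 φ, imQ_glueL X.1 Z.1 φ⟩ :
        {L : Lat o (A8 o a b) // inS L.1 = X.1 ∧ imQ L.1 = Z.1})) := by
    constructor
    · intro φ ψ e
      exact glueL_injective X.1 Z.1 (congrArg (fun L => L.1.1) e)
    · rintro ⟨⟨L, hL⟩, h1, h2⟩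
      obtain ⟨X, hX⟩ := X
      obtain ⟨Z, hZ⟩ := Z
      dsimp only at h1 h2 ⊢
      subst h1 h2
      obtain ⟨φ, hφ⟩ := exists_glueL L
      exact ⟨φ, Subtype.ext (Subtype.ext hφ)⟩
  rw [← Nat.card_congr (Equiv.ofBijective _ hbij), card_hom_free', finrank_lat h Z.1 Z.2,
    card_quot h X.1 X.2, ← pow_mul, Module.finrank_prod, Module.finrank_fin_fun]
  congr 1
  ring

theorem finite_inS (h : RingHyp o p q) (L : Submodule o (A8 o a b)) (hL : Finite (A8 o a b ⧸ L)) :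
    Finite (S8 o a ⧸ inS L) := by
  obtain ⟨m, hm⟩ := lat_pow_mem h L hL
  refine finite_quot_of_pow_mem h _ m fun s => ?_
  show LinearMap.inl o (S8 o a) (Q8 o b) ((p : o) ^ m • s) ∈ L
  rw [map_smul]
  exact hm _

theorem finite_imQ (h : RingHyp o p q) (L : Submodule o (A8 o a b)) (hL : Finite (A8 o a b ⧸ L)) :
    Finite (Q8 o b ⧸ imQ L) := by
  obtain ⟨m, hm⟩ := lat_pow_mem h L hL
  exact finite_quot_of_pow_mem h _ m fun z => ⟨(p : o) ^ m • ((0, z) : A8 o a b), hm _, rfl⟩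

/-- The fibration over intersection and image. -/
noncomputable def fibE (h : RingHyp o p q) (e n : ℕ) :
    {L : LEP o a b p e // len q (imQ L.1.1.1) = n} ≃
      Σ x : XE o a p e × {Z : Prim o p (Q8 o b) // len q Z.1 = n},
        {L : Lat o (A8 o a b) // inS L.1 = x.1.1.1 ∧ imQ L.1 = x.2.1.1} where
  toFun L := ⟨(⟨⟨inS L.1.1.1.1, finite_inS h _ L.1.1.1.2⟩, fun s => by
      show LinearMap.inl o (S8 o a) (Q8 o b) ((p : o) ^ e • s) ∈ L.1.1.1.1
      rw [map_smul]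
      exact L.1.1.2 s⟩,
    ⟨⟨imQ L.1.1.1.1, finite_imQ h _ L.1.1.1.2, fun hc => by
      obtain ⟨x, hx, hy⟩ := L.1.2
      exact hy (hc x.2 ⟨x, hx, rfl⟩)⟩, L.2⟩), ⟨L.1.1.1, rfl, rfl⟩⟩
  invFun s := ⟨⟨⟨s.2.1, fun t => by
      have h1 : (p : o) ^ e • t ∈ inS s.2.1.1 := by
        rw [s.2.2.1]
        exact s.1.1.2 t
      have h2 : LinearMap.inl o (S8 o a) (Q8 o b) ((p : o) ^ e • t) ∈ s.2.1.1 := h1
      rw [map_smul] at h2
      exact h2⟩, by
      by_contra hc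
      apply s.1.2.1.2.2
      intro z hz
      rw [← s.2.2.2] at hz
      obtain ⟨x, hx, rfl⟩ := hz
      by_contra hy
      exact hc ⟨x, hx, hy⟩⟩, by
      show len q (imQ s.2.1.1) = n
      rw [s.2.2.2]
      exact s.1.2.2⟩
  left_inv L := rfl
  right_inv := by
    rintro ⟨⟨⟨⟨X, hX⟩, hX'⟩, ⟨⟨Z, hZ⟩, hZn⟩⟩, ⟨L, h1, h2⟩⟩
    dsimp only at h1 h2
    subst h1 h2
    rfl

theorem gf_LEP_im (h : RingHyp o p q) (e : ℕ) :
    gf (fun L : LEP o a b p e => len q (imQ L.1.1.1)) =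
      PowerSeries.C (Ne o q a b p e : ℤ) * gf (fun Z : Prim o p (Q8 o b) => len q Z.1) := by
  ext n
  rw [PowerSeries.coeff_C_mul]
  unfold gf
  rw [PowerSeries.coeff_mk, PowerSeries.coeff_mk, ← Nat.cast_mul]
  congr 1
  have i1 := finite_XE (a := a) h e
  have i2 := prim_finite h (M := Q8 o b) n
  have f1 := Fintype.ofFinite (XE o a p e)
  have f2 := Fintype.ofFinite {Z : Prim o p (Q8 o b) // len q Z.1 = n}
  have hc : ∀ x : XE o a p e × {Z : Prim o p (Q8 o b) // len q Z.1 = n},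
      Nat.card {L : Lat o (A8 o a b) // inS L.1 = x.1.1.1 ∧ imQ L.1 = x.2.1.1} =
        q ^ (2 * b * len q x.1.1.1) := fun x =>
    card_glue_LE h x.1.1 ⟨x.2.1.1, x.2.1.2.1⟩
  have hfin : ∀ x : XE o a p e × {Z : Prim o p (Q8 o b) // len q Z.1 = n},
      Finite {L : Lat o (A8 o a b) // inS L.1 = x.1.1.1 ∧ imQ L.1 = x.2.1.1} := by
    intro x
    apply Nat.finite_of_card_ne_zero
    rw [hc]
    have := h.one_lt
    positivity
  rw [Nat.card_congr (fibE h e n), Nat.card_sigma, Finset.sum_congr rfl (fun x _ => hc x),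
    Fintype.sum_prod_type, Ne, finsum_eq_sum_of_fintype, Finset.sum_mul]
  refine Finset.sum_congr rfl fun X _ => ?_
  show ∑ _y : {Z : Prim o p (Q8 o b) // len q Z.1 = n}, q ^ (2 * b * len q X.1.1) =
    q ^ (2 * b * len q X.1.1) * Nat.card {Z : Prim o p (Q8 o b) // len q Z.1 = n}
  rw [Finset.sum_const, Finset.card_univ, smul_eq_mul, mul_comm, Nat.card_eq_fintype_card]

theorem psum_LEP_im [Fact p.Prime] (h : RingHyp o p q) (hq : p ∣ q) (hb : 1 ≤ b) (e : ℕ) :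
    PSum p (gf (fun L : LEP o a b p e => len q (imQ L.1.1.1)))
      ((Ne o q a b p e : ℚ_[p]) * (((2 * b : ℕ) : ℚ_[p]) /
        ∏ j ∈ Finset.Ico 1 (2 * b), (1 - (q : ℚ_[p]) ^ j))) := by
  rw [gf_LEP_im h e]
  have hr : Module.finrank o (Q8 o b) = 2 * b := by
    rw [Module.finrank_prod, Module.finrank_fin_fun]
    ring
  have h1 := gf_prim h (M := Q8 o b) (by omega)
  rw [hr] at h1
  refine psum_mul ?_ (psum_prim hq (by omega) h1)
  have h2 : HasSum (fun n : ℕ => ((PowerSeries.coeff n (PowerSeries.C (Ne o q a b p e : ℤ)) : ℤ) :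
      ℚ_[p])) ((PowerSeries.coeff 0 (PowerSeries.C (Ne o q a b p e : ℤ)) : ℤ) : ℚ_[p]) := by
    refine hasSum_single 0 fun n hn => ?_
    rw [PowerSeries.coeff_C, if_neg hn, Int.cast_zero]
  have h3 : ((PowerSeries.coeff 0 (PowerSeries.C (Ne o q a b p e : ℤ)) : ℤ) : ℚ_[p]) =
      (Ne o q a b p e : ℚ_[p]) := by
    rw [PowerSeries.coeff_C, if_pos rfl, Int.cast_natCast]
  rw [h3] at h2
  exact h2

end Pool.Agent.TZ8
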