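import Pool.Agent.TZ.Base
import Pool.Agent.TZ8.CDefs

set_option autoImplicit false

/-!
The standard model of the last two levels: `K ⊗ (V → S²V) ⊕ F ⊗ (1 → V)`, `K` of rank `a`,
`F` of rank `b`, `V` of rank `2`.
-/

namespace Pool.Agent.TZ8

open Pool.Agent.TZ

section defs

variable (o : Type) [CommRing o] (a b : ℕ)

/-- `K ⊗ V`. -/
abbrev S7 : Type := (Fin a → o) × (Fin a → o)
/-- `F`. -/
abbrev F7 : Type := Fin b → o
/-- The first level. -/
abbrev A7 : Type := S7 o a × F7 o b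
/-- `K ⊗ S²V`. -/
abbrev S8 : Type := (Fin a → o) × (Fin a → o) × (Fin a → o)
/-- `F ⊗ V`. -/
abbrev Q8 : Type := (Fin b → o) × (Fin b → o)
/-- The second level. -/
abbrev A8 : Type := S8 o a × Q8 o b

variable {o a b}

/-- Multiplication by `X` on `K ⊗ V`. -/
def sX : S7 o a →ₗ[o] S8 o a where
  toFun s := (s.1, s.2, 0)
  map_add' x y := by
    show (x.1 + y.1, x.2 + y.2, (0 : Fin a → o)) = (x.1, x.2, 0) + (y.1, y.2, 0)
    simp
  map_smul' r x := by
    show (r • x.1, r • x.2, (0 : Fin a → o)) = r • (x.1, x.2, 0)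
    simp

/-- Multiplication by `Y` on `K ⊗ V`. -/
def sY : S7 o a →ₗ[o] S8 o a where
  toFun s := (0, s.1, s.2)
  map_add' x y := by
    show ((0 : Fin a → o), x.1 + y.1, x.2 + y.2) = (0, x.1, x.2) + (0, y.1, y.2)
    simp only [Prod.mk_add_mk, add_zero]
  map_smul' r x := by
    show ((0 : Fin a → o), r • x.1, r • x.2) = r • (0, x.1, x.2)
    simp only [Prod.smul_mk, smul_zero]

/-- Multiplication by the basis vectors `X`, `Y` of `V`. -/
def adV (j : Fin 2) : A7 o a b →ₗ[o] A8 o a b :=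
  if j = 0 then LinearMap.prodMap sX (LinearMap.inl o _ _)
  else LinearMap.prodMap sY (LinearMap.inr o _ _)

theorem adV_zero (x : A7 o a b) : adV 0 x = ((x.1.1, x.1.2, 0), (x.2, 0)) := rfl

theorem adV_one (x : A7 o a b) : adV 1 x = ((0, x.1.1, x.1.2), (0, x.2)) := rfl

/-- The colon submodule. -/
def vcol (L : Submodule o (A8 o a b)) : Submodule o (A7 o a b) := L.comap (adV 0) ⊓ L.comap (adV 1)

/-- The colon submodule inside `K ⊗ V`. -/
def scol (X : Submodule o (S8 o a)) : Submodule o (S7 o a) := X.comap sX ⊓ X.comap sY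

/-- Pairs of sublattices. -/
abbrev PairV (o : Type) [CommRing o] (a b : ℕ) : Type :=
  {x : Lat o (A7 o a b) × Lat o (A8 o a b) // ∀ j, ∀ v ∈ x.1.1, adV j v ∈ x.2.1}

/-- Lattices in the second level containing `p ^ e (K ⊗ S²V)`. -/
abbrev LE (o : Type) [CommRing o] (a b : ℕ) (p e : ℕ) : Type :=
  {L : Lat o (A8 o a b) // ∀ s : S8 o a, (p : o) ^ e • ((s, 0) : A8 o a b) ∈ L.1}

/-- The same, with image in `F ⊗ V` not contained in `p (F ⊗ V)`. -/
abbrev LEP (o : Type) [CommRing o] (a b : ℕ) (p e : ℕ) : Type :=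
  {L : LE o a b p e // ∃ x ∈ L.1.1, ¬ ∃ y : Q8 o b, x.2 = (p : o) • y}

/-- Lattices of `K ⊗ S²V` containing `p ^ e (K ⊗ S²V)`. -/
abbrev XE (o : Type) [CommRing o] (a : ℕ) (p e : ℕ) : Type :=
  {X : Lat o (S8 o a) // ∀ s : S8 o a, (p : o) ^ e • s ∈ X.1}

/-- The weight. -/
noncomputable def wO (q : ℕ) (L : Submodule o (A8 o a b)) : ℕ := len q L + len q (vcol L)

/-- The image in `F ⊗ V`. -/
def imQ (L : Submodule o (A8 o a b)) : Submodule o (Q8 o b) := L.map (LinearMap.snd o _ _)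

/-- The intersection with `K ⊗ S²V`. -/
def inS (L : Submodule o (A8 o a b)) : Submodule o (S8 o a) := L.comap (LinearMap.inl o _ _)

end defs

section groups

variable {o : Type} [CommRing o] {a b : ℕ}

/-- `GL(F)` on the first level. -/
def G7 (g : Matrix (Fin b) (Fin b) o) : A7 o a b →ₗ[o] A7 o a b where
  toFun x := (x.1, g.mulVec x.2)
  map_add' x y := by simp [Matrix.mulVec_add]
  map_smul' r x := by simp [Matrix.mulVec_smul]

/-- `GL(F)` on the second level. -/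
def G8 (g : Matrix (Fin b) (Fin b) o) : A8 o a b →ₗ[o] A8 o a b where
  toFun x := (x.1, (g.mulVec x.2.1, g.mulVec x.2.2))
  map_add' x y := by simp [Matrix.mulVec_add]
  map_smul' r x := by simp [Matrix.mulVec_smul]

/-- `GL(V)` on the first level. -/
def H7 (h : Matrix (Fin 2) (Fin 2) o) : A7 o a b →ₗ[o] A7 o a b where
  toFun x := ((h 0 0 • x.1.1 + h 0 1 • x.1.2, h 1 0 • x.1.1 + h 1 1 • x.1.2), x.2)
  map_add' x y := by
    refine Prod.ext (Prod.ext ?_ ?_) rfl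
    · show h 0 0 • (x.1.1 + y.1.1) + h 0 1 • (x.1.2 + y.1.2) =
        (h 0 0 • x.1.1 + h 0 1 • x.1.2) + (h 0 0 • y.1.1 + h 0 1 • y.1.2)
      simp only [smul_add]; abel
    · show h 1 0 • (x.1.1 + y.1.1) + h 1 1 • (x.1.2 + y.1.2) =
        (h 1 0 • x.1.1 + h 1 1 • x.1.2) + (h 1 0 • y.1.1 + h 1 1 • y.1.2)
      simp only [smul_add]; abel
  map_smul' r x := by
    refine Prod.ext (Prod.ext ?_ ?_) rfl
    · show h 0 0 • (r • x.1.1) + h 0 1 • (r • x.1.2) = r • (h 0 0 • x.1.1 + h 0 1 • x.1.2)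
      simp only [smul_add, smul_comm r]
    · show h 1 0 • (r • x.1.1) + h 1 1 • (r • x.1.2) = r • (h 1 0 • x.1.1 + h 1 1 • x.1.2)
      simp only [smul_add, smul_comm r]

/-- `GL(V)` on `K ⊗ S²V`. -/
def HS (h : Matrix (Fin 2) (Fin 2) o) : S8 o a →ₗ[o] S8 o a where
  toFun t :=
    ((h 0 0 * h 0 0) • t.1 + (h 0 0 * h 0 1) • t.2.1 + (h 0 1 * h 0 1) • t.2.2,
      (2 * h 0 0 * h 1 0) • t.1 + (h 0 0 * h 1 1 + h 1 0 * h 0 1) • t.2.1 +
        (2 * h 0 1 * h 1 1) • t.2.2,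
      (h 1 0 * h 1 0) • t.1 + (h 1 0 * h 1 1) • t.2.1 + (h 1 1 * h 1 1) • t.2.2)
  map_add' x y := by
    refine Prod.ext ?_ (Prod.ext ?_ ?_)
    · show (h 0 0 * h 0 0) • (x.1 + y.1) + (h 0 0 * h 0 1) • (x.2.1 + y.2.1) +
          (h 0 1 * h 0 1) • (x.2.2 + y.2.2) = _ + _
      simp only [smul_add]; abel
    · show (2 * h 0 0 * h 1 0) • (x.1 + y.1) + (h 0 0 * h 1 1 + h 1 0 * h 0 1) • (x.2.1 + y.2.1) +
        (2 * h 0 1 * h 1 1) • (x.2.2 + y.2.2) = _ + _
      simp only [smul_add]; abel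
    · show (h 1 0 * h 1 0) • (x.1 + y.1) + (h 1 0 * h 1 1) • (x.2.1 + y.2.1) +
        (h 1 1 * h 1 1) • (x.2.2 + y.2.2) = _ + _
      simp only [smul_add]; abel
  map_smul' r x := by
    refine Prod.ext ?_ (Prod.ext ?_ ?_)
    · show (h 0 0 * h 0 0) • (r • x.1) + (h 0 0 * h 0 1) • (r • x.2.1) +
          (h 0 1 * h 0 1) • (r • x.2.2) = r • _
      simp only [smul_add, smul_comm r]
    · show (2 * h 0 0 * h 1 0) • (r • x.1) + (h 0 0 * h 1 1 + h 1 0 * h 0 1) • (r • x.2.1) +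
        (2 * h 0 1 * h 1 1) • (r • x.2.2) = r • _
      simp only [smul_add, smul_comm r]
    · show (h 1 0 * h 1 0) • (r • x.1) + (h 1 0 * h 1 1) • (r • x.2.1) +
        (h 1 1 * h 1 1) • (r • x.2.2) = r • _
      simp only [smul_add, smul_comm r]

/-- `GL(V)` on `F ⊗ V`. -/
def HQ (h : Matrix (Fin 2) (Fin 2) o) : Q8 o b →ₗ[o] Q8 o b where
  toFun z := (h 0 0 • z.1 + h 0 1 • z.2, h 1 0 • z.1 + h 1 1 • z.2)
  map_add' x y := by
    refine Prod.ext ?_ ?_
    · show h 0 0 • (x.1 + y.1) + h 0 1 • (x.2 + y.2) = _ + _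
      simp only [smul_add]; abel
    · show h 1 0 • (x.1 + y.1) + h 1 1 • (x.2 + y.2) = _ + _
      simp only [smul_add]; abel
  map_smul' r x := by
    refine Prod.ext ?_ ?_
    · show h 0 0 • (r • x.1) + h 0 1 • (r • x.2) = r • _
      simp only [smul_add, smul_comm r]
    · show h 1 0 • (r • x.1) + h 1 1 • (r • x.2) = r • _
      simp only [smul_add, smul_comm r]

/-- `GL(V)` on the second level. -/
def H8 (h : Matrix (Fin 2) (Fin 2) o) : A8 o a b →ₗ[o] A8 o a b :=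
  LinearMap.prodMap (HS h) (HQ h)

end groups

end Pool.Agent.TZ8
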