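import Pool.Agent.TZ8.ZDefs
import Pool.Agent.TZ8.GR3
import Pool.Agent.TZ8.GR4

set_option autoImplicit false

/-! Killing of layers in the standard model. -/

namespace Pool.Agent.TZ8

open Pool.Agent.TZ

variable {o : Type} [CommRing o] [IsDomain o] [IsDiscreteValuationRing o] {p q a b : ℕ}

theorem fre_VT (c : ℕ) (hc : c ≤ 2) : Fre o (VT o a b) c where
  free i hi := by
    have h1 : i = 0 ∨ i = 1 := by omega
    rcases h1 with rfl | rfl
    · exact inferInstanceAs (Module.Free o (A7 o a b))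
    · exact inferInstanceAs (Module.Free o (A8 o a b))
  fin i hi := by
    have h1 : i = 0 ∨ i = 1 := by omega
    rcases h1 with rfl | rfl
    · exact inferInstanceAs (Module.Finite o (A7 o a b))
    · exact inferInstanceAs (Module.Finite o (A8 o a b))

theorem finrank_A7 : Module.finrank o (A7 o a b) = 2 * a + b := by
  rw [Module.finrank_prod, Module.finrank_prod, Module.finrank_fin_fun, Module.finrank_fin_fun]
  ring

theorem finrank_A8 : Module.finrank o (A8 o a b) = 3 * a + 2 * b := by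
  rw [Module.finrank_prod, Module.finrank_prod, Module.finrank_prod, Module.finrank_prod,
    Module.finrank_fin_fun, Module.finrank_fin_fun]
  ring

namespace ZS1

section gen

variable {M : Type} [AddCommGroup M] [Module o M]

/-- Nested submodules of the same colength are equal. -/
theorem eq_of_len (h : RingHyp o p q) [Module.Finite o M] {A B : Submodule o M} (hAB : A ≤ B)
    (hA : Finite (M ⧸ A)) (hl : len q A = len q B) : A = B := by
  have hs := Submodule.factor_surjective hAB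
  have hB : Finite (M ⧸ B) := Finite.of_surjective _ hs
  have h1 := card_quot h A hA
  have h2 := card_quot h B hB
  have hinj := (hs.bijective_of_nat_card_le (by rw [h1, h2, hl])).1
  apply le_antisymm hAB
  intro x hx
  rw [← Submodule.Quotient.mk_eq_zero]
  apply hinj
  rw [map_zero]
  show (Submodule.Quotient.mk x : M ⧸ B) = 0
  rw [Submodule.Quotient.mk_eq_zero]
  exact hx

theorem finite_p (h : RingHyp o p q) [Module.Finite o M] {A : Submodule o M}
    (hA : ∀ x : M, (p : o) • x ∈ A) : Finite (M ⧸ A) :=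
  finite_quot_of_pow_mem h A 1 (fun x => by rw [pow_one]; exact hA x)

theorem card_p (h : RingHyp o p q) [Module.Free o M] [Module.Finite o M] :
    Nat.card (M ⧸ LinearMap.range (PR.mp o p M 1)) = q ^ Module.finrank o M :=
  PR.index_p (M := M) h

theorem len_le_finrank (h : RingHyp o p q) [Module.Free o M] [Module.Finite o M]
    {A : Submodule o M} (hA : ∀ x : M, (p : o) • x ∈ A) : len q A ≤ Module.finrank o M := by
  have hle : LinearMap.range (PR.mp o p M 1) ≤ A := by
    intro x hx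
    obtain ⟨y, rfl⟩ := mem_range_mp.1 hx
    exact hA y
  have h1 : Finite (M ⧸ LinearMap.range (PR.mp o p M 1)) :=
    finite_p h (fun x => mem_range_mp.2 ⟨x, rfl⟩)
  have h2 := Nat.card_le_card_of_surjective _ (Submodule.factor_surjective hle)
  rw [card_quot h A (finite_p h hA), card_p h] at h2
  exact (Nat.pow_le_pow_iff_right h.one_lt).1 h2

/-- The colength of the preimage of `p N` under a surjection. -/
theorem len_comap {N : Type} [AddCommGroup N] [Module o N] [Module.Free o N] [Module.Finite o N]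
    (h : RingHyp o p q) (f : M →ₗ[o] N) (hf : Function.Surjective f) :
    len q ((LinearMap.range (PR.mp o p N 1)).comap f) = Module.finrank o N := by
  have h1 : Nat.card (M ⧸ (LinearMap.range (PR.mp o p N 1)).comap f) =
      Nat.card (N ⧸ LinearMap.range (PR.mp o p N 1)) :=
    AddSubgroup.index_comap_of_surjective (LinearMap.range (PR.mp o p N 1)).toAddSubgroup
      (f := f.toAddMonoidHom) hf
  unfold len
  rw [h1, card_p h, Nat.log_pow h.one_lt]

end gen

/-- The space of `s` with `s ⊗ V ≤ U`. -/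
def K0 (U : Submodule o (A7 o a b)) : Submodule o (Fin a → o) :=
  U.comap (LinearMap.inl o (S7 o a) (F7 o b) ∘ₗ LinearMap.inl o (Fin a → o) (Fin a → o)) ⊓
    U.comap (LinearMap.inl o (S7 o a) (F7 o b) ∘ₗ LinearMap.inr o (Fin a → o) (Fin a → o))

omit [IsDomain o] [IsDiscreteValuationRing o] in
theorem mem_K0 {U : Submodule o (A7 o a b)} {s : Fin a → o} :
    s ∈ K0 U ↔ (((s, 0), 0) : A7 o a b) ∈ U ∧ (((0, s), 0) : A7 o a b) ∈ U := Iff.rfl

/-- The first inequality. -/
theorem ineq1 (h : RingHyp o p q) (U : Submodule o (A7 o a b))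
    (hU : ∀ x : A7 o a b, (p : o) • x ∈ U) : len q U ≤ b + 2 * len q (K0 U) := by
  have hK : ∀ x : Fin a → o, (p : o) • x ∈ K0 U := by
    intro x
    rw [mem_K0]
    constructor
    · have := hU ((x, 0), 0)
      simpa only [Prod.smul_mk, smul_zero] using this
    · have := hU ((0, x), 0)
      simpa only [Prod.smul_mk, smul_zero] using this
  have fU := finite_p h hU
  have fK := finite_p h hK
  have fF : Finite (F7 o b ⧸ LinearMap.range (PR.mp o p (F7 o b) 1)) :=
    finite_p h (fun x => mem_range_mp.2 ⟨x, rfl⟩)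
  let g1 : ((Fin a → o) ⧸ K0 U) →ₗ[o] A7 o a b ⧸ U := (K0 U).liftQ
    (U.mkQ ∘ₗ LinearMap.inl o (S7 o a) (F7 o b) ∘ₗ LinearMap.inl o (Fin a → o) (Fin a → o)) (by
      intro s hs
      rw [LinearMap.mem_ker]
      show (Submodule.Quotient.mk (((s, 0), 0) : A7 o a b) : A7 o a b ⧸ U) = 0
      rw [Submodule.Quotient.mk_eq_zero]
      exact (mem_K0.1 hs).1)
  let g2 : ((Fin a → o) ⧸ K0 U) →ₗ[o] A7 o a b ⧸ U := (K0 U).liftQ
    (U.mkQ ∘ₗ LinearMap.inl o (S7 o a) (F7 o b) ∘ₗ LinearMap.inr o (Fin a → o) (Fin a → o)) (by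
      intro s hs
      rw [LinearMap.mem_ker]
      show (Submodule.Quotient.mk (((0, s), 0) : A7 o a b) : A7 o a b ⧸ U) = 0
      rw [Submodule.Quotient.mk_eq_zero]
      exact (mem_K0.1 hs).2)
  let g3 : (F7 o b ⧸ LinearMap.range (PR.mp o p (F7 o b) 1)) →ₗ[o] A7 o a b ⧸ U :=
    (LinearMap.range (PR.mp o p (F7 o b) 1)).liftQ
    (U.mkQ ∘ₗ LinearMap.inr o (S7 o a) (F7 o b)) (by
      intro s hs
      rw [LinearMap.mem_ker]
      show (Submodule.Quotient.mk ((0, s) : A7 o a b) : A7 o a b ⧸ U) = 0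
      rw [Submodule.Quotient.mk_eq_zero]
      obtain ⟨y, rfl⟩ := mem_range_mp.1 hs
      have := hU (0, y)
      simpa only [Prod.smul_mk, smul_zero] using this)
  have hs : Function.Surjective (fun z : ((Fin a → o) ⧸ K0 U) × ((Fin a → o) ⧸ K0 U) ×
      (F7 o b ⧸ LinearMap.range (PR.mp o p (F7 o b) 1)) => g1 z.1 + g2 z.2.1 + g3 z.2.2) := by
    intro y
    obtain ⟨⟨⟨s, t⟩, f⟩, rfl⟩ := Submodule.mkQ_surjective _ y
    refine ⟨(Submodule.Quotient.mk s, Submodule.Quotient.mk t, Submodule.Quotient.mk f), ?_⟩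
    show U.mkQ ((s, 0), 0) + U.mkQ ((0, t), 0) + U.mkQ (0, f) = U.mkQ ((s, t), f)
    rw [← map_add, ← map_add]
    congr 1
    simp
  have h1 := Nat.card_le_card_of_surjective _ hs
  rw [Nat.card_prod, Nat.card_prod, card_quot h U fU, card_quot h _ fK, card_p h,
    Module.finrank_fin_fun, ← pow_add, ← pow_add] at h1
  have h2 := (Nat.pow_le_pow_iff_right h.one_lt).1 h1
  omega

/-- The second inequality. -/
theorem ineq2 (h : RingHyp o p q) (U : Submodule o (A7 o a b)) (W : Submodule o (A8 o a b))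
    (hU : ∀ x : A7 o a b, (p : o) • x ∈ U) (hW : ∀ x : A8 o a b, (p : o) • x ∈ W)
    (hUW : ∀ j, ∀ x ∈ U, adV j x ∈ W) : len q W + len q (K0 U) ≤ 2 * len q U := by
  have hK : ∀ x : Fin a → o, (p : o) • x ∈ K0 U := by
    intro x
    rw [mem_K0]
    constructor
    · have := hU ((x, 0), 0)
      simpa only [Prod.smul_mk, smul_zero] using this
    · have := hU ((0, x), 0)
      simpa only [Prod.smul_mk, smul_zero] using this
  have fU := finite_p h hU
  have fW := finite_p h hW
  have fK := finite_p h hK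
  let nu : (Fin a → o) →ₗ[o] (A7 o a b ⧸ U) × (A7 o a b ⧸ U) :=
    (U.mkQ ∘ₗ LinearMap.inl o (S7 o a) (F7 o b) ∘ₗ
      LinearMap.inr o (Fin a → o) (Fin a → o)).prod
    (-(U.mkQ ∘ₗ LinearMap.inl o (S7 o a) (F7 o b) ∘ₗ
      LinearMap.inl o (Fin a → o) (Fin a → o)))
  have hnu : ∀ s, nu s = (U.mkQ ((0, s), 0), - U.mkQ ((s, 0), 0)) := fun s => rfl
  have hker : LinearMap.ker nu = K0 U := by
    ext s
    rw [LinearMap.mem_ker, hnu, mem_K0, Prod.mk_eq_zero, neg_eq_zero, Submodule.mkQ_apply,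
      Submodule.mkQ_apply, Submodule.Quotient.mk_eq_zero, Submodule.Quotient.mk_eq_zero]
    exact and_comm
  let phi : ((A7 o a b ⧸ U) × (A7 o a b ⧸ U)) →ₗ[o] A8 o a b ⧸ W :=
    (U.mapQ W (adV 0) (fun x hx => hUW 0 x hx)).coprod
      (U.mapQ W (adV 1) (fun x hx => hUW 1 x hx))
  have hphi : ∀ x y, phi (U.mkQ x, U.mkQ y) = W.mkQ (adV 0 x + adV 1 y) := fun x y => rfl
  have hsurj : Function.Surjective phi := by
    intro z
    obtain ⟨⟨⟨s1, s2, s3⟩, z1, z2⟩, rfl⟩ := Submodule.mkQ_surjective _ z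
    refine ⟨(U.mkQ ((s1, s2), z1), U.mkQ ((0, s3), z2)), ?_⟩
    rw [hphi, adV_zero, adV_one]
    congr 1
    simp
  have hcomp : LinearMap.range nu ≤ LinearMap.ker phi := by
    rintro _ ⟨s, rfl⟩
    rw [LinearMap.mem_ker, hnu, ← map_neg, hphi, adV_zero, adV_one]
    have : (((((0 : Fin a → o), s), (0 : F7 o b)).1.1, (((0 : Fin a → o), s), (0 : F7 o b)).1.2,
        (0 : Fin a → o)), (((0 : Fin a → o), s), (0 : F7 o b)).2, (0 : F7 o b)) +
        (((0 : Fin a → o), (-((s, (0 : Fin a → o)), (0 : F7 o b))).1.1,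
          (-((s, (0 : Fin a → o)), (0 : F7 o b))).1.2), (0 : F7 o b),
          (-((s, (0 : Fin a → o)), (0 : F7 o b))).2) = (0 : A8 o a b) := by
      simp
    rw [this, map_zero]
  have h1 : Nat.card (LinearMap.range nu) = Nat.card ((Fin a → o) ⧸ K0 U) := by
    rw [← hker]
    exact (Nat.card_congr nu.quotKerEquivRange.toEquiv).symm
  have h2 : Nat.card (LinearMap.range nu) ≤ Nat.card (LinearMap.ker phi) :=
    Nat.card_le_card_of_injective _ (Submodule.inclusion_injective hcomp)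
  have h3 : Nat.card (((A7 o a b ⧸ U) × (A7 o a b ⧸ U)) ⧸ LinearMap.ker phi) =
      Nat.card (A8 o a b ⧸ W) :=
    Nat.card_congr (phi.quotKerEquivOfSurjective hsurj).toEquiv
  have h4 := Submodule.card_eq_card_quotient_mul_card (LinearMap.ker phi)
  rw [h3, Nat.card_prod] at h4
  rw [h1] at h2
  have h5 : Nat.card ((Fin a → o) ⧸ K0 U) * Nat.card (A8 o a b ⧸ W) ≤
      Nat.card (A7 o a b ⧸ U) * Nat.card (A7 o a b ⧸ U) := by
    rw [h4]
    exact Nat.mul_le_mul_right _ h2
  rw [card_quot h U fU, card_quot h _ fK, card_quot h W fW, ← pow_add, ← pow_add] at h5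
  have h6 := (Nat.pow_le_pow_iff_right h.one_lt).1 h5
  omega

theorem K0_p (U : Submodule o (A7 o a b)) (hU : ∀ x : A7 o a b, (p : o) • x ∈ U)
    (x : Fin a → o) : (p : o) • x ∈ K0 U := by
  rw [mem_K0]
  constructor
  · have := hU ((x, 0), 0)
    simpa only [Prod.smul_mk, smul_zero] using this
  · have := hU ((0, x), 0)
    simpa only [Prod.smul_mk, smul_zero] using this

theorem len_fS_zero (h : RingHyp o p q) :
    len q ((LinearMap.range (PR.mp o p (F7 o b) 1)).comap (LinearMap.snd o (S7 o a) (F7 o b))) =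
      b := by
  rw [len_comap h _ LinearMap.snd_surjective, Module.finrank_fin_fun]

theorem len_fS_one (h : RingHyp o p q) :
    len q ((LinearMap.range (PR.mp o p (Q8 o b) 1)).comap (LinearMap.snd o (S8 o a) (Q8 o b))) =
      2 * b := by
  rw [len_comap h _ LinearMap.snd_surjective, Module.finrank_prod, Module.finrank_fin_fun]
  ring

/-- The arithmetic of the killing criterion. -/
theorem arith (a u w k : ℤ) (ha : 1 ≤ a) (hu0 : 0 ≤ u) (hu : u ≤ 3 * a) (hw0 : 0 ≤ w)
    (hw : w ≤ 5 * a) (hk : k ≤ a) (hk2 : 2 * k ≤ u) (h2 : 2 * u ≤ w + k)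
    (h3 : ¬ (u = 3 * a ∧ w = 5 * a)) (h4 : ¬ (u = 0 ∧ w = 0)) (h5 : ¬ (u = 0 ∧ w = 5 * a))
    (h6 : ¬ (k = a ∧ u = 2 * a ∧ w = 3 * a)) :
    2 * (u * (5 * a - w)) < u * (3 * a - u) + w * (5 * a - w) := by
  rcases le_or_gt (2 * u) w with hd | hd
  · -- `δ ≤ 0`
    have e1 : 0 ≤ u * (3 * a - u) := mul_nonneg hu0 (by linarith)
    have e2 : 0 ≤ (w - 2 * u) * (5 * a - w) := mul_nonneg (by linarith) (by linarith)
    rcases lt_or_eq_of_le e1 with e1' | e1'
    · nlinarith
    rcases lt_or_eq_of_le e2 with e2' | e2'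
    · nlinarith
    exfalso
    rcases mul_eq_zero.1 e1'.symm with hz | hz
    · subst hz
      rcases mul_eq_zero.1 e2'.symm with hz' | hz'
      · exact h4 ⟨rfl, by linarith⟩
      · exact h5 ⟨rfl, by linarith⟩
    · linarith
  · have hk1 : 1 ≤ k := by linarith
    have hdk : 2 * u - w ≤ k := by linarith
    -- `e - f(κ)`
    have e1 : 0 ≤ (k - (2 * u - w)) * ((5 * a - w) + k) := mul_nonneg (by linarith) (by linarith)
    have e0 : u * (3 * a - u) + w * (5 * a - w) - 2 * (u * (5 * a - w)) =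
        (u * (3 * a - u) - k * (5 * a - 2 * u + k)) + (k - (2 * u - w)) * ((5 * a - w) + k) := by
      ring
    rcases le_or_gt u (2 * a) with hu2 | hu2
    · have f1 : 4 * (u * (3 * a - u) - k * (5 * a - 2 * u + k)) =
          u * (2 * a - u) + (u - 2 * k) * (10 * a - 3 * u + 2 * k) := by ring
      have f2 : 0 ≤ u * (2 * a - u) := mul_nonneg hu0 (by linarith)
      have f3 : 0 ≤ (u - 2 * k) * (10 * a - 3 * u + 2 * k) :=
        mul_nonneg (by linarith) (by linarith)
      rcases lt_or_eq_of_le e1 with e1' | e1'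
      · linarith
      rcases lt_or_eq_of_le f2 with f2' | f2'
      · linarith
      rcases lt_or_eq_of_le f3 with f3' | f3'
      · linarith
      exfalso
      have g1 : k - (2 * u - w) = 0 := by
        rcases mul_eq_zero.1 e1'.symm with hz | hz
        · exact hz
        · linarith
      have g2 : 2 * a - u = 0 := by
        rcases mul_eq_zero.1 f2'.symm with hz | hz
        · linarith
        · exact hz
      have g3 : u - 2 * k = 0 := by
        rcases mul_eq_zero.1 f3'.symm with hz | hz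
        · exact hz
        · linarith
      exact h6 ⟨by linarith, by linarith, by linarith⟩
    · have f1 : u * (3 * a - u) - k * (5 * a - 2 * u + k) =
          (u - 2 * a) * (3 * a - u) + (a - k) * (6 * a - 2 * u + k) := by ring
      have f2 : 0 ≤ (u - 2 * a) * (3 * a - u) := mul_nonneg (by linarith) (by linarith)
      have f3 : 0 ≤ (a - k) * (6 * a - 2 * u + k) := mul_nonneg (by linarith) (by linarith)
      rcases lt_or_eq_of_le e1 with e1' | e1'
      · linarith
      rcases lt_or_eq_of_le f2 with f2' | f2'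
      · linarith
      rcases lt_or_eq_of_le f3 with f3' | f3'
      · linarith
      exfalso
      have g1 : k - (2 * u - w) = 0 := by
        rcases mul_eq_zero.1 e1'.symm with hz | hz
        · exact hz
        · linarith
      have g2 : 3 * a - u = 0 := by
        rcases mul_eq_zero.1 f2'.symm with hz | hz
        · linarith
        · exact hz
      have g3 : a - k = 0 := by
        rcases mul_eq_zero.1 f3'.symm with hz | hz
        · exact hz
        · linarith
      exact h3 ⟨by linarith, by linarith⟩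

end ZS1

open ZS1 in
/-- Dimensions: `κ` is the dimension of the space of `s` with `s ⊗ V ≤ U`. -/
theorem kappa (h : RingHyp o p q) (U : Submodule o (A7 o a a)) (W : Submodule o (A8 o a a))
    (hU : ∀ x : A7 o a a, (p : o) • x ∈ U) (hW : ∀ x : A8 o a a, (p : o) • x ∈ W)
    (hUW : ∀ j, ∀ x ∈ U, adV j x ∈ W) :
    ∃ κ : ℕ, κ ≤ a ∧ 2 * κ + len q U ≤ 3 * a ∧ 2 * (3 * a - len q U) + len q W ≤ 5 * a + κ ∧
      (κ = a → len q U = a → U = fS o p a a 0) ∧
      (κ = a → len q U = a → len q W = 2 * a → W = fS o p a a 1) := by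
  have i1 := ineq1 h U hU
  have i2 := ineq2 h U W hU hW hUW
  have i3 := len_le_finrank h (K0_p U hU)
  rw [Module.finrank_fin_fun] at i3
  have hK : a - len q (K0 U) = a → ∀ s, s ∈ K0 U := by
    intro hk
    have hz : len q (K0 U) = 0 := by omega
    rw [← GR3.top_iff h _ (finite_p h (K0_p U hU))] at hz
    intro s
    rw [hz]
    trivial
  refine ⟨a - len q (K0 U), Nat.sub_le _ _, by omega, by omega, ?_, ?_⟩
  · intro hk hl
    have hle : (LinearMap.range (PR.mp o p (F7 o a) 1)).comap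
        (LinearMap.snd o (S7 o a) (F7 o a)) ≤ U := by
      rintro ⟨⟨s, t⟩, f⟩ hf
      obtain ⟨y, hy⟩ := mem_range_mp.1 hf
      have hy' : (p : o) • y = f := hy
      have e1 := (mem_K0.1 (hK hk s)).1
      have e2 := (mem_K0.1 (hK hk t)).2
      have e3 := hU (0, y)
      have e4 := U.add_mem (U.add_mem e1 e2) e3
      refine (congrArg (· ∈ U) ?_).mp e4
      rw [← hy']
      simp
    exact (eq_of_len h hle (finite_p h (fun x => mem_range_mp.2 ⟨x.2, rfl⟩))
      (by rw [len_fS_zero h, hl])).symm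
  · intro hk _ hl
    have hle : (LinearMap.range (PR.mp o p (Q8 o a) 1)).comap
        (LinearMap.snd o (S8 o a) (Q8 o a)) ≤ W := by
      rintro ⟨⟨s, t, r⟩, f⟩ hf
      obtain ⟨y, hy⟩ := mem_range_mp.1 hf
      have hy' : (p : o) • y = f := hy
      have e1 := hUW 0 _ (mem_K0.1 (hK hk s)).1
      have e2 := hUW 0 _ (mem_K0.1 (hK hk t)).2
      have e2' := hUW 1 _ (mem_K0.1 (hK hk r)).2
      have e3 := hW (0, y)
      have e4 := W.add_mem (W.add_mem (W.add_mem e1 e2) e2') e3
      refine (congrArg (· ∈ W) ?_).mp e4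
      rw [← hy', adV_zero, adV_zero, adV_one]
      simp
    exact (eq_of_len h hle (finite_p h (fun x => mem_range_mp.2 ⟨x.2, rfl⟩))
      (by rw [len_fS_one h, hl])).symm

open ZS1 in
theorem kill_zs (h : RingHyp o p q) (ha : 1 ≤ a) (V : Lay (RR o 2 2) (NN (VA o a a) 2) p)
    (h1 : V.1 ≠ pN (RR o 2 2) (NN (VA o a a) 2) p 1) (h2 : V.1 ≠ zF o p a a)
    (h3 : V.1 ≠ zS o p a a) : Kill V := by
  have hM : Fre o (VT o a a) 2 := fre_VT 2 le_rfl
  have hp : ∀ (i : Fin 2) (x : VT o a a i), (p : o) • x ∈ comp V.1 i := by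
    intro i x
    have := GR3.pow_mem V.2.1 i x
    rwa [pow_one] at this
  have hp0 : ∀ x : A7 o a a, (p : o) • x ∈ (comp V.1 0 : Submodule o (A7 o a a)) := hp 0
  have hp1 : ∀ x : A8 o a a, (p : o) • x ∈ (comp V.1 1 : Submodule o (A8 o a a)) := hp 1
  have hcl : ∀ j, ∀ x ∈ (comp V.1 0 : Submodule o (A7 o a a)),
      adV j x ∈ (comp V.1 1 : Submodule o (A8 o a a)) := fun j x hx =>
    comp_clo V.1 0 (by norm_num) j x hx
  obtain ⟨κ, hk1, hk2', hk3', hk4', hk5'⟩ := kappa h (comp V.1 0) (comp V.1 1) hp0 hp1 hcl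
  have hk2 : 2 * κ + wd q V.1 0 ≤ 3 * a := hk2'
  have hk3 : 2 * (3 * a - wd q V.1 0) + wd q V.1 1 ≤ 5 * a + κ := hk3'
  have hk4 : κ = a → wd q V.1 0 = a → comp V.1 0 = fS o p a a 0 := hk4'
  have hk5 : κ = a → wd q V.1 0 = a → wd q V.1 1 = 2 * a → comp V.1 1 = fS o p a a 1 := hk5'
  clear hk2' hk3' hk4' hk5'
  have hr0 : Module.finrank o (VT o a a 0) = 3 * a :=
    (finrank_A7 (o := o) (a := a) (b := a)).trans (by ring)
  have hr1 : Module.finrank o (VT o a a 1) = 5 * a :=
    (finrank_A8 (o := o) (a := a) (b := a)).trans (by ring)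
  have hu0 := GR4.ud_add_wd h hM V.2.1 (0 : Fin 2)
  have hu1 := GR4.ud_add_wd h hM V.2.1 (1 : Fin 2)
  have hu0' : 3 * a = ud q V.1 0 + wd q V.1 0 := hr0.symm.trans hu0
  have hu1' : 5 * a = ud q V.1 1 + wd q V.1 1 := hr1.symm.trans hu1
  have hfin : ∀ i : Fin 2, Finite (VT o a a i ⧸ comp V.1 i) := GR4.finite_comp h hM V.2.1
  -- the exclusions
  have x1 : ¬ (wd q V.1 0 = 0 ∧ wd q V.1 1 = 0) := by
    rintro ⟨z0, z1⟩
    apply V.2.2
    apply comp_inj
    intro i
    rw [comp_top]
    match i with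
    | 0 => exact (comp_ne_top_iff h hM V.1 V.2.1 0).2 z0
    | 1 => exact (comp_ne_top_iff h hM V.1 V.2.1 1).2 z1
  have hpn : ∀ i : Fin 2, wd q V.1 i = Module.finrank o (VT o a a i) →
      comp V.1 i = comp (pN (RR o 2 2) (NN (VA o a a) 2) p 1) i := by
    intro i hi
    have := hM.fin i i.2
    exact (eq_of_len h (comp_le_iff.1 V.2.1 i) (GR4.finite_comp h hM le_rfl i)
      ((len_comp_pN h hM i).trans hi.symm)).symm
  have x2 : ¬ (wd q V.1 0 = 3 * a ∧ wd q V.1 1 = 5 * a) := by
    rintro ⟨z0, z1⟩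
    apply h1
    apply comp_inj
    intro i
    match i with
    | 0 => exact hpn 0 (z0.trans hr0.symm)
    | 1 => exact hpn 1 (z1.trans hr1.symm)
  have x3 : ¬ (wd q V.1 0 = 3 * a ∧ wd q V.1 1 = 0) := by
    rintro ⟨z0, z1⟩
    apply h2
    apply comp_inj
    intro i
    unfold zF
    rw [comp_toS]
    match i with
    | 0 =>
      refine (hpn 0 (z0.trans hr0.symm)).trans ?_
      ext x
      refine mem_comp_pN.trans ?_
      constructor
      · rintro ⟨y, hy⟩
        exact ⟨y, hy.symm⟩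
      · rintro ⟨y, hy⟩
        exact ⟨y, hy.symm⟩
    | 1 => exact (comp_ne_top_iff h hM V.1 V.2.1 1).2 z1
  have x4 : ¬ (κ = a ∧ wd q V.1 0 = a ∧ wd q V.1 1 = 2 * a) := by
    rintro ⟨z, z0, z1⟩
    apply h3
    apply comp_inj
    intro i
    unfold zS
    rw [comp_toS]
    match i with
    | 0 => exact hk4 z z0
    | 1 => exact hk5 z z0 z1
  apply kill_of_dim h hM V
  rw [Fin.sum_univ_two, Fin.sum_univ_two]
  have s1 : (if hi : ((0 : Fin 2) : ℕ) + 1 < 2 then
      ud q V.1 0 * wd q V.1 ⟨((0 : Fin 2) : ℕ) + 1, hi⟩ else 0) = ud q V.1 0 * wd q V.1 1 := rfl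
  have s2 : (if hi : ((1 : Fin 2) : ℕ) + 1 < 2 then
      ud q V.1 1 * wd q V.1 ⟨((1 : Fin 2) : ℕ) + 1, hi⟩ else 0) = 0 := rfl
  rw [s1, s2, add_zero]
  generalize wd q V.1 0 = w0 at *
  generalize wd q V.1 1 = w1 at *
  generalize ud q V.1 0 = u0 at *
  generalize ud q V.1 1 = u1 at *
  have key := arith (a := (a : ℤ)) (u := u0) (w := u1) (k := κ) (by omega) (by omega) (by omega)
    (by omega) (by omega) (by omega) (by omega) (by omega) (by omega) (by omega) (by omega)
    (by omega)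
  have e0 : (3 * a - u0 : ℤ) = w0 := by omega
  have e1 : (5 * a - u1 : ℤ) = w1 := by omega
  rw [e0, e1] at key
  exact_mod_cast key

end Pool.Agent.TZ8
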